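import Mathlib

open Finset

namespace Run7.h63

/-- Elementary homotopies of edge paths, written as lists of vertices. -/
inductive Move {V : Type*} (G : SimpleGraph V) (nxt : V → V → V) : List V → List V → Prop
  | spur (p q : List V) (a b : V) (h : G.Adj a b) :
      Move G nxt (p ++ a :: q) (p ++ a :: b :: a :: q)
  | left (p q : List V) (a b : V) (h : G.Adj a b) :
      Move G nxt (p ++ a :: nxt a b :: q) (p ++ a :: b :: nxt a b :: q)
  | right (p q : List V) (a b : V) (h : G.Adj a b) :
      Move G nxt (p ++ a :: b :: q) (p ++ a :: nxt a b :: b :: q)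

/-- Combinatorial plane triangulations. -/
structure PT (V : Type*) where
  G : SimpleGraph V
  rot : V → V → V
  adj_rot : ∀ {v w}, G.Adj v w → G.Adj v (rot v w)
  adj_rot' : ∀ {v w}, G.Adj v w → G.Adj w (rot v w)
  rot_rot : ∀ {v w}, G.Adj v w → rot w (rot v w) = v
  orbit : ∀ {v w w'}, G.Adj v w → G.Adj v w' → ∃ n : ℕ, (rot v)^[n] w = w'
  fin : ∀ v, (G.neighborSet v).Finite
  conn : G.Connected
  inf : Infinite V
  sc : ∀ l : List V, l.IsChain G.Adj → ∀ x, l.head? = some x → l.getLast? = some x →
    Relation.EqvGen (Move G rot) l [x]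

namespace PT

variable {V : Type*} (T : PT V)

/-- inverse rotation -/
def inv (v w : V) : V := T.rot w v

theorem rot_inv {v w : V} (h : T.G.Adj v w) : T.rot v (T.inv v w) = w := T.rot_rot h.symm

theorem adj_inv {v w : V} (h : T.G.Adj v w) : T.G.Adj v (T.inv v w) := T.adj_rot' h.symm

theorem inv_rot {v w : V} (h : T.G.Adj v w) : T.inv v (T.rot v w) = w := by
  have h1 := T.rot_rot h
  have h2 := T.rot_rot (T.adj_rot' h)
  rw [h1] at h2
  exact h2

theorem rot3 {v w : V} (h : T.G.Adj v w) : T.rot (T.rot v w) v = w := T.inv_rot h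

theorem rot_inj {v w w' : V} (h : T.G.Adj v w) (h' : T.G.Adj v w') (e : T.rot v w = T.rot v w') :
    w = w' := by
  rw [← T.inv_rot h, ← T.inv_rot h', e]

theorem iter_adj {v w : V} (h : T.G.Adj v w) (n : ℕ) : T.G.Adj v ((T.rot v)^[n] w) := by
  induction n with
  | zero => simpa
  | succ n ih => rw [Function.iterate_succ_apply']; exact T.adj_rot ih

theorem inv_iter_adj {v w : V} (h : T.G.Adj v w) (n : ℕ) : T.G.Adj v ((T.inv v)^[n] w) := by
  induction n with
  | zero => simpa
  | succ n ih => rw [Function.iterate_succ_apply']; exact T.adj_inv ih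

theorem inv_iter {v w : V} (h : T.G.Adj v w) (n : ℕ) : (T.inv v)^[n] ((T.rot v)^[n] w) = w := by
  induction n with
  | zero => simp
  | succ n ih =>
    rw [Function.iterate_succ_apply, Function.iterate_succ_apply', T.inv_rot (T.iter_adj h n), ih]

theorem rot_iter {v w : V} (h : T.G.Adj v w) (n : ℕ) : (T.rot v)^[n] ((T.inv v)^[n] w) = w := by
  induction n with
  | zero => simp
  | succ n ih =>
    rw [Function.iterate_succ_apply, Function.iterate_succ_apply', T.rot_inv (T.inv_iter_adj h n), ih]

theorem iter_cancel {v w w' : V} (h : T.G.Adj v w) (h' : T.G.Adj v w') (n : ℕ)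
    (e : (T.rot v)^[n] w = (T.rot v)^[n] w') : w = w' := by
  rw [← T.inv_iter h n, ← T.inv_iter h' n, e]

/-- neighbours -/
noncomputable def N (v : V) : Finset V := (T.fin v).toFinset

@[simp] theorem mem_N {v w : V} : w ∈ T.N v ↔ T.G.Adj v w := by
  simp [N]

/-- degree -/
noncomputable def deg (v : V) : ℕ := (T.N v).card

theorem period {v w : V} (h : T.G.Adj v w) : Function.minimalPeriod (T.rot v) w = T.deg v := by
  classical
  have hp : w ∈ Function.periodicPts (T.rot v) := by
    obtain ⟨n, hn⟩ := T.orbit (T.adj_rot h) h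
    refine ⟨n + 1, Nat.succ_pos n, ?_⟩
    show (T.rot v)^[n + 1] w = w
    rw [Function.iterate_succ_apply]; exact hn
  have hpos : 0 < Function.minimalPeriod (T.rot v) w := Function.minimalPeriod_pos_of_mem_periodicPts hp
  have himg : T.N v = (range (Function.minimalPeriod (T.rot v) w)).image (fun i => (T.rot v)^[i] w) := by
    ext x
    simp only [mem_N, mem_image, mem_range]
    constructor
    · intro hx
      obtain ⟨n, hn⟩ := T.orbit h hx
      refine ⟨n % Function.minimalPeriod (T.rot v) w, Nat.mod_lt _ hpos, ?_⟩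
      rw [Function.iterate_mod_minimalPeriod_eq]; exact hn
    · rintro ⟨i, _, rfl⟩
      exact T.iter_adj h i
  rw [deg, himg, card_image_of_injOn, card_range]
  intro i hi j hj hij
  simp only [coe_range, Set.mem_Iio] at hi hj
  exact Function.iterate_injOn_Iio_minimalPeriod hi hj hij

theorem iter_deg {v w : V} (h : T.G.Adj v w) : (T.rot v)^[T.deg v] w = w := by
  rw [← T.period h]; exact Function.iterate_minimalPeriod

theorem iter_inj {v w : V} (h : T.G.Adj v w) {i j : ℕ} (hi : i < T.deg v) (hj : j < T.deg v)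
    (e : (T.rot v)^[i] w = (T.rot v)^[j] w) : i = j := by
  rw [← T.period h] at hi hj
  exact Function.iterate_injOn_Iio_minimalPeriod hi hj e

theorem deg_pos {v w : V} (h : T.G.Adj v w) : 0 < T.deg v := by
  rw [deg, Finset.card_pos]; exact ⟨w, T.mem_N.2 h⟩

theorem exists_idx {v w w' : V} (h : T.G.Adj v w) (h' : T.G.Adj v w') :
    ∃ i < T.deg v, (T.rot v)^[i] w = w' := by
  obtain ⟨n, hn⟩ := T.orbit h h'
  refine ⟨n % T.deg v, Nat.mod_lt _ (T.deg_pos h), ?_⟩
  rw [← T.period h, Function.iterate_mod_minimalPeriod_eq]; exact hn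

theorem exists_adj (v : V) : ∃ w, T.G.Adj v w := by
  have := T.inf
  obtain ⟨u, hu⟩ := exists_ne v
  obtain ⟨p⟩ := T.conn.preconnected v u
  cases p with
  | nil => exact absurd rfl hu
  | cons h _ => exact ⟨_, h⟩

/-- The mirror image. -/
def mirror : PT V where
  G := T.G
  rot := T.inv
  adj_rot := fun h => T.adj_inv h
  adj_rot' := fun {v w} h => T.adj_rot h.symm
  rot_rot := fun {v w} h => by
    show T.rot (T.rot w v) w = v
    exact T.rot3 h.symm
  orbit := fun {v w w'} h h' => by
    obtain ⟨n, hn⟩ := T.orbit h' h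
    exact ⟨n, by rw [← hn]; exact T.inv_iter h' n⟩
  fin := T.fin
  conn := T.conn
  inf := T.inf
  sc := fun l hl x h1 h2 => by
    have key : ∀ a b, Move T.G T.rot a b → Move T.G T.inv a b := by
      intro a b h
      induction h with
      | spur p q a b h => exact Move.spur p q a b h
      | left p q a b h =>
        have e := Move.right (nxt := T.inv) p q a (T.rot a b) (T.adj_rot h)
        have e2 : T.inv a (T.rot a b) = b := T.inv_rot h
        rw [e2] at e
        exact e
      | right p q a b h =>
        have e := Move.left (nxt := T.inv) p q a (T.rot a b) (T.adj_rot h)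
        have e2 : T.inv a (T.rot a b) = b := T.inv_rot h
        rw [e2] at e
        exact e
    exact Relation.EqvGen.mono key _ _ (T.sc l hl x h1 h2)

@[simp] theorem mirror_G : T.mirror.G = T.G := rfl
@[simp] theorem mirror_rot (v w : V) : T.mirror.rot v w = T.inv v w := rfl
@[simp] theorem mirror_deg (v : V) : T.mirror.deg v = T.deg v := rfl
theorem mirror_N (v : V) : T.mirror.N v = T.N v := rfl
theorem mirror_rot' (v : V) : T.mirror.rot v = T.inv v := rfl

/-- turning by `i` one way is turning by `deg - i` the other way -/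
theorem mirror_turn {v w w' : V} (h : T.G.Adj v w) {i : ℕ} (hi : i ≤ T.deg v)
    (e : (T.rot v)^[i] w = w') : (T.mirror.rot v)^[T.deg v - i] w = w' := by
  have h1 : (T.rot v)^[T.deg v - i] w' = w := by
    rw [← e, ← Function.iterate_add_apply, Nat.sub_add_cancel hi, T.iter_deg h]
  rw [mirror_rot', ← h1]
  have h' : T.G.Adj v w' := by rw [← e]; exact T.iter_adj h i
  exact T.inv_iter h' _

end PT
end Run7.h63
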