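import Pool.Agent.Run7.h63.Basic

set_option linter.unusedSectionVars false

open Finset

namespace Run7.h63

section lists

variable {V : Type*} [DecidableEq V]

/-- directed edges of an edge path -/
def el : List V → List (V × V)
  | a :: b :: l => (a, b) :: el (b :: l)
  | _ => []

/-- indicator of a directed edge -/
def iota (x y u v : V) : ℤ := if u = x ∧ v = y then 1 else 0

/-- antisymmetrised indicator -/
def dl (x y u v : V) : ℤ := iota x y u v - iota x y v u

def bd : List V → V → V → ℤ
  | a :: b :: l, u, v => dl a b u v + bd (b :: l) u v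
  | _, _, _ => 0

@[simp] theorem el_nil : el ([] : List V) = [] := rfl
@[simp] theorem el_single (a : V) : el [a] = [] := rfl
@[simp] theorem el_cons_cons (a b : V) (l : List V) : el (a :: b :: l) = (a, b) :: el (b :: l) := rfl
@[simp] theorem bd_nil (u v : V) : bd ([] : List V) u v = 0 := rfl
@[simp] theorem bd_single (a u v : V) : bd [a] u v = 0 := rfl
@[simp] theorem bd_cons_cons (a b : V) (l : List V) (u v : V) :
    bd (a :: b :: l) u v = dl a b u v + bd (b :: l) u v := rfl

theorem dl_antisymm (x y u v : V) : dl x y v u = - dl x y u v := by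
  unfold dl; ring

theorem dl_swap (x y u v : V) : dl y x u v = - dl x y u v := by
  unfold dl iota
  rw [if_congr (and_comm : (u = y ∧ v = x) ↔ _) rfl rfl,
    if_congr (and_comm : (v = y ∧ u = x) ↔ _) rfl rfl]
  ring

theorem bd_antisymm (l : List V) (u v : V) : bd l v u = - bd l u v := by
  induction l with
  | nil => simp
  | cons a l ih =>
    cases l with
    | nil => simp
    | cons b l => simp only [bd_cons_cons, ih, dl_antisymm a b u v]; ring

theorem bd_append (p : List V) (a : V) (q : List V) (u v : V) :
    bd (p ++ a :: q) u v = bd (p ++ [a]) u v + bd (a :: q) u v := by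
  induction p with
  | nil => simp
  | cons c p ih =>
    cases p with
    | nil => simp
    | cons d p =>
      simp only [List.cons_append, bd_cons_cons] at ih ⊢
      rw [ih]; ring

theorem el_append (p : List V) (a : V) (q : List V) :
    el (p ++ a :: q) = el (p ++ [a]) ++ el (a :: q) := by
  induction p with
  | nil => simp
  | cons c p ih =>
    cases p with
    | nil => simp
    | cons d p =>
      simp only [List.cons_append, el_cons_cons] at ih ⊢
      rw [ih]

theorem el_map_snd (x : V) (L : List V) : (el (x :: L)).map Prod.snd = L := by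
  induction L generalizing x with
  | nil => simp
  | cons a L ih => simp [ih]

theorem el_map_fst (x : V) (L : List V) : (el (L ++ [x])).map Prod.fst = L := by
  induction L with
  | nil => simp
  | cons a L ih =>
    cases L with
    | nil => simp
    | cons b L => simpa using ih

theorem mem_el_iff (C : List V) (u v : V) :
    (u, v) ∈ el C ↔ ∃ i, C[i]? = some u ∧ C[i+1]? = some v := by
  induction C with
  | nil => simp
  | cons a C ih =>
    cases C with
    | nil =>
      simp only [el_single, List.not_mem_nil, false_iff, not_exists]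
      intro i
      simp
    | cons b C =>
      rw [el_cons_cons, List.mem_cons, ih]
      constructor
      · rintro (h | ⟨i, h1, h2⟩)
        · refine ⟨0, ?_, ?_⟩ <;> simp_all
        · exact ⟨i + 1, by simpa using h1, by simpa using h2⟩
      · rintro ⟨i, h1, h2⟩
        cases i with
        | zero => left; simp at h1 h2; simp [h1, h2]
        | succ i => right; exact ⟨i, by simpa using h1, by simpa using h2⟩

theorem bd_of_nodup (C : List V) (h : (el C).Nodup) (u v : V) :
    bd C u v = (if (u, v) ∈ el C then 1 else 0) - (if (v, u) ∈ el C then 1 else 0) := by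
  induction C with
  | nil => simp
  | cons a C ih =>
    cases C with
    | nil => simp
    | cons b C =>
      rw [el_cons_cons, List.nodup_cons] at h
      rw [bd_cons_cons, ih h.2]
      have e1 : ∀ s t : V, (if (s, t) ∈ el (a :: b :: C) then (1:ℤ) else 0) =
          iota a b s t + (if (s, t) ∈ el (b :: C) then 1 else 0) := by
        intro s t
        unfold iota
        by_cases hst : s = a ∧ t = b
        · obtain ⟨rfl, rfl⟩ := hst
          simp [h.1]
        · have : ¬ ((s, t) = (a, b)) := by
            intro hh; exact hst (Prod.mk.inj hh)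
          simp only [el_cons_cons, List.mem_cons, this, false_or, hst, if_false, zero_add]
      rw [e1, e1]
      unfold dl; ring

end lists

section simple

variable {V : Type*} [DecidableEq V]

/-- `x :: L` is a simple closed edge path: `L` has no repetition and ends at `x`. -/
structure SC (T : PT V) (x : V) (L : List V) : Prop where
  nd : L.Nodup
  last : L.getLast? = some x
  ch : (x :: L).IsChain T.G.Adj
  len : 2 ≤ L.length

variable {T : PT V} {x : V} {L : List V}

theorem SC.el_nodup (h : SC T x L) : (el (x :: L)).Nodup := by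
  apply List.Nodup.of_map Prod.snd
  rw [el_map_snd]; exact h.nd

theorem SC.eq_append (h : SC T x L) : L = L.dropLast ++ [x] := by
  have h1 := h.last
  have hne : L ≠ [] := by
    intro hh; rw [hh] at h1; simp at h1
  rw [List.getLast?_eq_getLast_of_ne_nil hne] at h1
  have h2 : L.getLast hne = x := Option.some.inj h1
  conv_lhs => rw [← List.dropLast_append_getLast hne, h2]

theorem SC.nodup' (h : SC T x L) : (x :: L.dropLast).Nodup := by
  have := h.nd
  rw [h.eq_append] at this
  have h2 : (L.dropLast ++ x :: []).Nodup := this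
  have h3 := List.nodup_middle.1 h2
  simpa using h3

theorem SC.in_unique (h : SC T x L) {u u' v : V} (h1 : (u, v) ∈ el (x :: L))
    (h2 : (u', v) ∈ el (x :: L)) : u = u' := by
  have hn : ((el (x :: L)).map Prod.snd).Nodup := by rw [el_map_snd]; exact h.nd
  have := List.inj_on_of_nodup_map hn h1 h2 rfl
  exact congrArg Prod.fst this

theorem SC.out_unique (h : SC T x L) {u v v' : V} (h1 : (u, v) ∈ el (x :: L))
    (h2 : (u, v') ∈ el (x :: L)) : v = v' := by
  have hn : ((el (x :: L)).map Prod.fst).Nodup := by
    have e : x :: L = (x :: L.dropLast) ++ [x] := by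
      conv_lhs => rw [h.eq_append]
      simp
    rw [e, el_map_fst]; exact h.nodup'
  have := List.inj_on_of_nodup_map hn h1 h2 rfl
  exact congrArg Prod.snd this

theorem el_adj {C : List V} (h : C.IsChain T.G.Adj) {u v : V} (h1 : (u, v) ∈ el C) : T.G.Adj u v := by
  induction C with
  | nil => simp at h1
  | cons a C ih =>
    cases C with
    | nil => simp at h1
    | cons b C =>
      rw [List.isChain_cons_cons] at h
      rw [el_cons_cons, List.mem_cons] at h1
      rcases h1 with h1 | h1
      · cases h1; exact h.1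
      · exact ih h.2 h1

theorem SC.no_rev (h : SC T x L) (h3 : 3 ≤ L.length) {u v : V} (h1 : (u, v) ∈ el (x :: L)) :
    (v, u) ∉ el (x :: L) := by
  intro h2
  rw [mem_el_iff] at h1 h2
  obtain ⟨i, hi1, hi2⟩ := h1
  obtain ⟨j, hj1, hj2⟩ := h2
  have hlast : L[L.length - 1]? = some x := by
    rw [← List.getLast?_eq_getElem?]; exact h.last
  have inj : ∀ a b : ℕ, ∀ w, L[a]? = some w → L[b]? = some w → a = b := by
    intro a b w ha hb
    have ha' : a < L.length := by
      by_contra hc; rw [List.getElem?_eq_none (by omega)] at ha; cases ha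
    have hb' : b < L.length := by
      by_contra hc; rw [List.getElem?_eq_none (by omega)] at hb; cases hb
    exact (List.getElem?_inj ha' h.nd).1 (ha.trans hb.symm)
  have lt : ∀ a : ℕ, ∀ w, L[a]? = some w → a < L.length := by
    intro a w ha
    by_contra hc; rw [List.getElem?_eq_none (by omega)] at ha; cases ha
  simp only [List.getElem?_cons_succ] at hi2 hj2
  have b1 := lt _ _ hi2
  have b2 := lt _ _ hj2
  cases i with
  | zero =>
    simp only [List.getElem?_cons_zero, Option.some.injEq] at hi1
    subst hi1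
    have e1 := inj _ _ _ hj2 hlast
    cases j with
    | zero => omega
    | succ j =>
      simp only [List.getElem?_cons_succ] at hj1
      have e2 := inj _ _ _ hj1 hi2
      omega
  | succ i =>
    simp only [List.getElem?_cons_succ] at hi1
    cases j with
    | zero =>
      simp only [List.getElem?_cons_zero, Option.some.injEq] at hj1
      subst hj1
      have e1 := inj _ _ _ hi2 hlast
      have e2 := inj _ _ _ hi1 hj2
      omega
    | succ j =>
      simp only [List.getElem?_cons_succ] at hj1
      have e1 := inj _ _ _ hj1 hi2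
      have e2 := inj _ _ _ hi1 hj2
      omega

theorem SC.bd_eq (h : SC T x L) (u v : V) :
    bd (x :: L) u v = (if (u, v) ∈ el (x :: L) then 1 else 0) - (if (v, u) ∈ el (x :: L) then 1 else 0) :=
  bd_of_nodup _ h.el_nodup u v

theorem SC.bd_edge (h : SC T x L) (h3 : 3 ≤ L.length) {u v : V} (h1 : (u, v) ∈ el (x :: L)) :
    bd (x :: L) u v = 1 := by
  rw [h.bd_eq, if_pos h1, if_neg (h.no_rev h3 h1)]; rfl

theorem el_fst_mem {C : List V} {u v : V} (h1 : (u, v) ∈ el C) : u ∈ C := by
  rw [mem_el_iff] at h1
  obtain ⟨i, hi, _⟩ := h1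
  exact List.mem_of_getElem? hi

theorem el_snd_mem {C : List V} {u v : V} (h1 : (u, v) ∈ el C) : v ∈ C := by
  rw [mem_el_iff] at h1
  obtain ⟨i, _, hi⟩ := h1
  exact List.mem_of_getElem? hi

theorem el_snd_mem' {x : V} {L : List V} {u v : V} (h1 : (u, v) ∈ el (x :: L)) : v ∈ L := by
  have : v ∈ (el (x :: L)).map Prod.snd := List.mem_map.2 ⟨_, h1, rfl⟩
  rwa [el_map_snd] at this

theorem SC.x_mem (h : SC T x L) : x ∈ L := List.mem_of_getLast? h.last

theorem SC.bd_off (h : SC T x L) {u : V} (hu : u ∉ L) (v : V) : bd (x :: L) u v = 0 := by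
  rw [h.bd_eq, if_neg, if_neg]
  · rfl
  · intro h1; exact hu (el_snd_mem' h1)
  · intro h1
    have := el_fst_mem h1
    rcases List.mem_cons.1 this with h2 | h2
    · exact hu (h2 ▸ h.x_mem)
    · exact hu h2

theorem triple_mem {C A B : List V} {p v q : V} (e : C = A ++ p :: v :: q :: B) :
    (p, v) ∈ el C ∧ (v, q) ∈ el C := by
  subst e
  rw [el_append]
  simp

theorem SC.triple_ne (h : SC T x L) (h3 : 3 ≤ L.length) {A B : List V} {p v q : V}
    (e : x :: L = A ++ p :: v :: q :: B) : p ≠ q := by
  rintro rfl
  obtain ⟨h1, h2⟩ := triple_mem e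
  exact h.no_rev h3 h1 h2

theorem SC.triple_bd (h : SC T x L) {A B : List V} {p v q : V}
    (e : x :: L = A ++ p :: v :: q :: B) {w : V} (hp : w ≠ p) (hq : w ≠ q) :
    bd (x :: L) v w = 0 := by
  obtain ⟨h1, h2⟩ := triple_mem e
  rw [h.bd_eq, if_neg, if_neg]
  · rfl
  · intro h3; exact hp (h.in_unique h3 h1)
  · intro h3; exact hq (h.out_unique h3 h2)

theorem const_along {α : Type*} (f : V → V → α) (l : List V) : ∀ (a b : V),
    (∀ A p v q B, a :: b :: l = A ++ p :: v :: q :: B → f p v = f v q) →
    ∀ u v, (u, v) ∈ el (a :: b :: l) → f u v = f a b := by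
  induction l with
  | nil =>
    intro a b _ u v h
    simp at h
    rw [h.1, h.2]
  | cons c l ih =>
    intro a b hf u v h
    rw [el_cons_cons, List.mem_cons] at h
    rcases h with h | h
    · cases h; rfl
    · rw [ih b c ?_ u v h]
      · exact (hf [] a b c l rfl).symm
      · intro A p v q B e
        apply hf (a :: A) p v q B
        rw [e]; rfl

end simple

section faces

variable {V : Type*} [DecidableEq V] (T : PT V)

/-- finitely supported integer functions on the faces (as functions on the darts) -/
structure FF (h : V → V → ℤ) : Prop where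
  fin : {p : V × V | h p.1 p.2 ≠ 0}.Finite
  nadj : ∀ u v, ¬ T.G.Adj u v → h u v = 0
  inv : ∀ u v, T.G.Adj u v → h v (T.rot u v) = h u v

variable {T}

theorem FF.zero : FF T (fun _ _ => 0) := ⟨by simp, fun _ _ _ => rfl, fun _ _ _ => rfl⟩

theorem FF.add {f g : V → V → ℤ} (hf : FF T f) (hg : FF T g) : FF T (fun u v => f u v + g u v) := by
  refine ⟨(hf.fin.union hg.fin).subset ?_, ?_, ?_⟩
  · rintro ⟨u, v⟩ h
    simp only [Set.mem_ofPred_eq, Set.mem_union] at h ⊢
    by_contra hc
    push Not at hc
    apply h; rw [hc.1, hc.2]; rfl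
  · intro u v h; rw [hf.nadj u v h, hg.nadj u v h]; rfl
  · intro u v h; rw [hf.inv u v h, hg.inv u v h]

theorem FF.neg {f : V → V → ℤ} (hf : FF T f) : FF T (fun u v => - f u v) := by
  refine ⟨hf.fin.subset ?_, ?_, ?_⟩
  · rintro ⟨u, v⟩ h
    simp only [Set.mem_ofPred_eq] at h ⊢
    intro hc; apply h; rw [hc]; rfl
  · intro u v h; rw [hf.nadj u v h]; rfl
  · intro u v h; rw [hf.inv u v h]

theorem FF.rot (h : V → V → ℤ) (hf : ∀ u v, T.G.Adj u v → h v (T.rot u v) = h u v) {v w : V}
    (ha : T.G.Adj v w) : h (T.rot v w) v = h v w := by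
  have h1 := hf v w ha
  have h2 := hf w (T.rot v w) (T.adj_rot' ha)
  rw [T.rot_rot ha] at h2
  rw [h2, h1]

theorem const_of_symm (g : V → V → ℤ) (hf : ∀ u v, T.G.Adj u v → g v (T.rot u v) = g u v)
    (hs : ∀ u v, T.G.Adj u v → g u v = g v u) {u v u' v' : V} (h : T.G.Adj u v)
    (h' : T.G.Adj u' v') : g u v = g u' v' := by
  have h1 : ∀ {v w}, T.G.Adj v w → g v (T.rot v w) = g v w := by
    intro v w hvw
    rw [hs _ _ (T.adj_rot hvw), FF.rot g hf hvw]
  have h2 : ∀ {v w w'}, T.G.Adj v w → T.G.Adj v w' → g v w = g v w' := by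
    intro v w w' hw hw'
    obtain ⟨n, hn⟩ := T.orbit hw hw'
    have : ∀ n, g v ((T.rot v)^[n] w) = g v w := by
      intro n
      induction n with
      | zero => rfl
      | succ n ih => rw [Function.iterate_succ_apply', h1 (T.iter_adj hw n), ih]
    rw [← hn, this]
  have h3 : ∀ {a b : V}, (p : T.G.Walk a b) → ∀ {c d}, T.G.Adj a c → T.G.Adj b d → g a c = g b d := by
    intro a b p
    induction p with
    | nil => intro c d hc hd; exact h2 hc hd
    | cons hab p ih =>
      intro c d hc hd
      rw [h2 hc hab, hs _ _ hab]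
      exact ih hab.symm hd
  obtain ⟨p⟩ := T.conn.preconnected u u'
  exact h3 p h h'

theorem FF.exists_zero {h : V → V → ℤ} (hf : FF T h) : ∃ u v, T.G.Adj u v ∧ h u v = 0 := by
  have := T.inf
  have hfin : (Prod.fst '' {p : V × V | h p.1 p.2 ≠ 0}).Finite := hf.fin.image _
  obtain ⟨u, hu⟩ := hfin.infinite_compl.nonempty
  obtain ⟨v, hv⟩ := T.exists_adj u
  refine ⟨u, v, hv, ?_⟩
  by_contra hc
  exact hu ⟨(u, v), hc, rfl⟩

/-- uniqueness -/
theorem FF.eq_zero {h : V → V → ℤ} (hf : FF T h) (hs : ∀ u v, h u v = h v u) (u v : V) : h u v = 0 := by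
  by_cases ha : T.G.Adj u v
  · obtain ⟨u', v', h1, h2⟩ := hf.exists_zero
    rw [const_of_symm h hf.inv (fun u v _ => hs u v) ha h1, h2]
  · exact hf.nadj u v ha

/-- the indicator of the face to the left of the dart `(a,b)` -/
def triF (T : PT V) (a b u v : V) : ℤ :=
  iota a b u v + iota b (T.rot a b) u v + iota (T.rot a b) a u v

theorem iota_rot {a b u v : V} (hab : T.G.Adj a b) (huv : T.G.Adj u v) :
    iota b (T.rot a b) v (T.rot u v) = iota a b u v := by
  unfold iota
  have : (v = b ∧ T.rot u v = T.rot a b) ↔ (u = a ∧ v = b) := by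
    constructor
    · rintro ⟨rfl, h⟩
      refine ⟨?_, rfl⟩
      rw [← T.rot_rot huv, h, T.rot_rot hab]
    · rintro ⟨rfl, rfl⟩; exact ⟨rfl, rfl⟩
  simp only [this]

theorem triF_FF {a b : V} (hab : T.G.Adj a b) : FF T (triF T a b) := by
  refine ⟨?_, ?_, ?_⟩
  · apply (Set.toFinite ({(a, b), (b, T.rot a b), (T.rot a b, a)} : Set (V × V))).subset
    rintro ⟨u, v⟩ h
    simp only [Set.mem_ofPred_eq, triF, iota] at h
    simp only [Set.mem_insert_iff, Set.mem_singleton_iff, Prod.mk.injEq]
    by_contra hc
    push Not at hc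
    apply h
    rw [if_neg (fun hh => hc.1 hh.1 hh.2), if_neg (fun hh => hc.2.1 hh.1 hh.2),
      if_neg (fun hh => hc.2.2 hh.1 hh.2)]
    rfl
  · intro u v h
    unfold triF iota
    rw [if_neg, if_neg, if_neg]
    · rfl
    · rintro ⟨rfl, rfl⟩; exact h (T.adj_rot hab).symm
    · rintro ⟨rfl, rfl⟩; exact h (T.adj_rot' hab)
    · rintro ⟨rfl, rfl⟩; exact h hab
  · intro u v h
    unfold triF
    have e1 := iota_rot hab h
    have e2 := iota_rot (T.adj_rot' hab) h
    have e3 := iota_rot (T.adj_rot hab).symm h
    rw [T.rot_rot hab] at e2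
    rw [T.rot3 hab] at e3
    rw [e1, e2, e3]; ring

theorem triF_bd (a b u v : V) : triF T a b u v - triF T a b v u =
    dl a b u v + dl b (T.rot a b) u v + dl (T.rot a b) a u v := by
  unfold triF dl; ring

theorem move_ff {l l' : List V} (h : Move T.G T.rot l l') :
    ∃ f, FF T f ∧ ∀ u v, f u v - f v u = bd l u v - bd l' u v := by
  induction h with
  | spur p q a b h =>
    refine ⟨_, FF.zero, ?_⟩
    intro u v
    rw [bd_append p a q, bd_append p a (b :: a :: q)]
    simp only [bd_cons_cons, dl_swap a b]
    ring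
  | left p q a b h =>
    refine ⟨_, (triF_FF h).neg, ?_⟩
    intro u v
    rw [bd_append p a (T.rot a b :: q), bd_append p a (b :: T.rot a b :: q)]
    simp only [bd_cons_cons]
    have := triF_bd (T := T) a b u v
    have h2 := dl_swap a (T.rot a b) u v
    linarith
  | right p q a b h =>
    refine ⟨_, triF_FF h, ?_⟩
    intro u v
    rw [bd_append p a (b :: q), bd_append p a (T.rot a b :: b :: q)]
    simp only [bd_cons_cons]
    have := triF_bd (T := T) a b u v
    have h2 := dl_swap a (T.rot a b) u v
    have h3 := dl_swap b (T.rot a b) u v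
    linarith

theorem eqv_ff {l l' : List V} (h : Relation.EqvGen (Move T.G T.rot) l l') :
    ∃ f, FF T f ∧ ∀ u v, f u v - f v u = bd l u v - bd l' u v := by
  induction h with
  | rel x y h => exact move_ff h
  | refl x => exact ⟨_, FF.zero, fun u v => by ring⟩
  | symm x y _ ih =>
    obtain ⟨f, h1, h2⟩ := ih
    exact ⟨_, h1.neg, fun u v => by have := h2 u v; linarith⟩
  | trans x y z _ _ ih1 ih2 =>
    obtain ⟨f, h1, h2⟩ := ih1
    obtain ⟨g, h3, h4⟩ := ih2
    exact ⟨_, h1.add h3, fun u v => by have := h2 u v; have := h4 u v; linarith⟩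

/-- every closed edge path is the boundary of an integer chain of faces -/
theorem exists_ff {x : V} {L : List V} (h : SC T x L) :
    ∃ f, FF T f ∧ ∀ u v, f u v - f v u = bd (x :: L) u v := by
  have hl : (x :: L).getLast? = some x := by
    have := h.last
    rw [List.getLast?_cons, this]; rfl
  obtain ⟨f, h1, h2⟩ := eqv_ff (T.sc (x :: L) h.ch x rfl hl)
  refine ⟨f, h1, fun u v => ?_⟩
  rw [h2 u v]; simp

/-- rotating from the outgoing edge to the incoming edge -/
theorem rot_const {h : V → V → ℤ} (hf : ∀ u v, T.G.Adj u v → h v (T.rot u v) = h u v) {v p q : V}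
    (hp : T.G.Adj v p) (hq : T.G.Adj v q) (hpq : p ≠ q)
    (hs : ∀ w, T.G.Adj v w → w ≠ p → w ≠ q → h v w = h w v) :
    ∃ a, 0 < a ∧ a < T.deg v ∧ (T.rot v)^[a] q = p ∧ (∀ i < a, h v ((T.rot v)^[i] q) = h v q) ∧
      h p v = h v q := by
  obtain ⟨a, ha, hap⟩ := T.exists_idx hq hp
  have ha0 : a ≠ 0 := by
    rintro rfl; exact hpq hap.symm
  have key : ∀ i < a, h v ((T.rot v)^[i] q) = h v q := by
    intro i
    induction i with
    | zero => intro _; rfl
    | succ i ih =>
      intro hi
      have h1 := ih (by omega)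
      rw [Function.iterate_succ_apply', hs _ (T.adj_rot (T.iter_adj hq i)),
        FF.rot h hf (T.iter_adj hq i), h1]
      · rw [← Function.iterate_succ_apply' (T.rot v), ← hap]
        intro e
        have := T.iter_inj hq (by omega) ha e
        omega
      · rw [← Function.iterate_succ_apply' (T.rot v)]
        intro e
        have := T.iter_inj hq (i := i + 1) (j := 0) (by omega) (T.deg_pos hq) e
        omega
  refine ⟨a, Nat.pos_of_ne_zero ha0, ha, hap, key, ?_⟩
  obtain ⟨b, rfl⟩ := Nat.exists_eq_succ_of_ne_zero ha0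
  rw [← hap, Function.iterate_succ_apply', FF.rot h hf (T.iter_adj hq b)]
  exact key b (by omega)

end faces

end Run7.h63
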