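import Pool.Agent.Run7.h63.Pot

set_option linter.unusedSectionVars false
set_option linter.unusedSimpArgs false
set_option linter.unusedVariables false
set_option maxHeartbeats 400000

open Finset

namespace Run7.h63

theorem drop_at {α : Type*} {H : List α} {s : ℕ} {x : α} (h : H[s]? = some x) :
    H.drop s = x :: H.drop (s + 1) := by
  obtain ⟨h1, h2⟩ := List.getElem?_eq_some_iff.1 h
  rw [List.drop_eq_getElem_cons h1, h2]

theorem sc_rot' {V : Type*} [DecidableEq V] {T : PT V} {x : V} {A B : List V} (h : SC T x (A ++ B))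
    (hB : B ≠ []) : ∃ z, SC T z (B ++ A) := by
  cases hA : A.getLast? with
  | none =>
    rw [List.getLast?_eq_none_iff] at hA
    subst hA
    exact ⟨x, by simpa using h⟩
  | some z => exact ⟨z, sc_rot h hA hB⟩

theorem TR.take {V W : Type*} [DecidableEq V] [DecidableEq W] {T : PT V} {R : PT W} {k : ℕ}
    {l : List V} {l' : List W} (h : TR T R k l l') : ∀ s, 2 ≤ s → TR T R k (l.take s) (l'.take s) := by
  induction h with
  | two a b a' b' =>
    intro s hs
    rw [List.take_of_length_le (by simpa using hs), List.take_of_length_le (by simpa using hs)]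
    exact TR.two _ _ _ _
  | cons a b c l a' b' c' l' h ht ih =>
    intro s hs
    obtain ⟨s, rfl⟩ : ∃ t, s = t + 2 := ⟨s - 2, by omega⟩
    rcases Nat.eq_zero_or_pos s with rfl | hs0
    · simp only [List.take_succ_cons, List.take_zero, Nat.zero_add]
      exact TR.two _ _ _ _
    · obtain ⟨s, rfl⟩ : ∃ t, s = t + 1 := ⟨s - 1, by omega⟩
      have := ih (s + 2) (by omega)
      simp only [List.take_succ_cons] at this ⊢
      exact TR.cons _ _ _ _ _ _ _ _ h this

namespace Par

variable {V W : Type*} [DecidableEq V] [DecidableEq W] (D : Par V W)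

theorem hd6 (v : V) : 6 ≤ D.T.deg v := by have := D.hk; have := D.hT v; omega

theorem bl_closes {m ℓ : ℕ} {H : List V} (hH : H ∈ saw D.T D.v0 m) (h : D.bl H ℓ) :
    closes D.T H ℓ := by
  obtain ⟨_, v, u, l, a, b, P, j, rfl, _, _, _, _, h2⟩ := h
  have hvu : D.T.G.Adj v u := (List.isChain_cons_cons.1 ((mem_saw _ _ _ _).1 hH).2.2.1).1
  exact ⟨v, _, u :: l, rfl, h2, (chj_adj hvu _ _).symm⟩

theorem bound0 {m ℓ : ℕ} (h3 : 3 ≤ ℓ) (hm : ℓ ≤ m + 1) (s : Finset (List V))
    (hs : s ⊆ saw D.T D.v0 m) (hbl : ∀ H ∈ s, D.bl H ℓ) :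
    s.card ≤ (saw D.T D.v0 (m + 2 - ℓ)).card * Cb ℓ :=
  card_closes D.hd6 D.v0 h3 hm s hs (fun H hH => D.bl_closes (hs hH) (hbl H hH))

noncomputable def gN (ℓ i : ℕ) : List V → Finset (List V)
  | p :: q :: l => (cycE D.T ℓ p q).image (fun c => c.drop (ℓ - i) ++ p :: q :: l)
  | _ => ∅

theorem gN_cons (ℓ i : ℕ) (p q : V) (l : List V) : D.gN ℓ i (p :: q :: l) =
    (cycE D.T ℓ p q).image (fun c => c.drop (ℓ - i) ++ p :: q :: l) := rfl

theorem gN_card {ℓ : ℕ} (h3 : 3 ≤ ℓ) (i : ℕ) (Q : List V) : (D.gN ℓ i Q).card ≤ Cb ℓ := by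
  match Q with
  | [] => simp [gN]
  | [_] => simp [gN]
  | b :: a :: l => rw [gN_cons]; exact card_image_le.trans (cycE_card h3 _ _)

noncomputable def gF (ℓ : ℕ) : List V → Finset (List V)
  | u :: v :: l => (cycE D.T ℓ v u).image (fun c => c.take (ℓ - 1) ++ l)
  | _ => ∅

theorem gF_cons (ℓ : ℕ) (u v : V) (l : List V) : D.gF ℓ (u :: v :: l) =
    (cycE D.T ℓ v u).image (fun c => c.take (ℓ - 1) ++ l) := rfl

theorem gF_card {ℓ : ℕ} (h3 : 3 ≤ ℓ) (Q : List V) : (D.gF ℓ Q).card ≤ Cb ℓ := by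
  match Q with
  | [] => simp [gF]
  | [_] => simp [gF]
  | b :: a :: l => rw [gF_cons]; exact card_image_le.trans (cycE_card h3 _ _)

noncomputable def gB (ℓ : ℕ) : List V → Finset (List V)
  | x :: u0 :: l0 => (range D.k).biUnion (fun j =>
        (cycE D.T ℓ x (chj D.T D.k (x :: u0 :: l0) x u0 j)).image
          (fun c => c.reverse.take (ℓ - 1) ++ x :: u0 :: l0))
  | _ => ∅

theorem gB_cons (ℓ : ℕ) (x u0 : V) (l0 : List V) : D.gB ℓ (x :: u0 :: l0) =
    (range D.k).biUnion (fun j =>
        (cycE D.T ℓ x (chj D.T D.k (x :: u0 :: l0) x u0 j)).image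
          (fun c => c.reverse.take (ℓ - 1) ++ x :: u0 :: l0)) := rfl

theorem gB_card {ℓ : ℕ} (h3 : 3 ≤ ℓ) (Q : List V) : (D.gB ℓ Q).card ≤ D.k * Cb ℓ := by
  match Q with
  | [] => simp [gB]
  | [_] => simp [gB]
  | x :: u0 :: l0 =>
    rw [gB_cons]
    refine card_biUnion_le.trans ?_
    refine (sum_le_sum (fun j _ => card_image_le.trans (cycE_card h3 _ _))).trans ?_
    rw [sum_const, card_range, smul_eq_mul]

/-- charging to the restart point -/
theorem boundN {m ℓ i : ℕ} (hn : D.n ≤ m) (h3 : 3 ≤ ℓ) (hm : ℓ ≤ m + 1) (hi : i + 2 ≤ ℓ)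
    (s : Finset (List V)) (hs : s ⊆ saw D.T D.v0 m)
    (hbl : ∀ H ∈ s, D.bl H ℓ) (hlen : ∀ H ∈ s, (D.dev H).length = i + 2) :
    s.card ≤ (D.RR (m - i)).card * Cb ℓ := by
  apply card_cover s _ _ (D.gN ℓ i) (fun Q _ => D.gN_card h3 i Q)
  · intro H hH
    have hcl := D.bl_closes (hs hH) (hbl H hH)
    obtain ⟨v, y, L1, H0, e1, e2, e3, e4, e5, hsc⟩ := closes_sc (hs hH) hcl (by omega)
    obtain ⟨i', I⟩ := D.inv_exists m hn H (hs hH)
    have hii : i' = i := by
      have h1 := I.len
      have h2 := hlen H hH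
      omega
    subst hii
    have hHl : H.length = m + 1 := ((mem_saw _ _ _ _).1 (hs hH)).1
    refine ⟨H.drop i', I.rr, ?_⟩
    have hlB : ((v :: L1).drop i').length = ℓ - i' := by rw [List.length_drop, e2]
    have hlA : ((v :: L1).take i').length = i' := by rw [List.length_take, e2]; omega
    have hB : (v :: L1).drop i' ≠ [] := by
      intro hc
      rw [hc] at hlB
      simp at hlB
      omega
    have hsc' : SC D.T y ((v :: L1).take i' ++ (v :: L1).drop i') := by
      rw [List.take_append_drop]; exact hsc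
    obtain ⟨z, hz⟩ := sc_rot' hsc' hB
    obtain ⟨p, q, r, hpq⟩ : ∃ p q r, (v :: L1).drop i' = p :: q :: r := by
      generalize (v :: L1).drop i' = M at hlB
      match M, hlB with
      | [], h => rw [List.length_nil] at h; omega
      | [_], h => rw [List.length_singleton] at h; omega
      | p :: q :: r, _ => exact ⟨p, q, r, rfl⟩
    have hdrop : H.drop i' = p :: q :: (r ++ H0) := by
      rw [e1, List.drop_append, hpq, e2]
      have : i' - ℓ = 0 := by omega
      rw [this]; rfl
    have hcl : ((v :: L1).drop i' ++ (v :: L1).take i').length = ℓ := by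
      rw [List.length_append, hlB, hlA]; omega
    rw [hpq] at hz hcl
    simp only [List.cons_append] at hz hcl
    have hmem := cyc_mem D.hd6 hz (by rw [hcl]; exact h3)
    rw [hcl] at hmem
    rw [hdrop, gN_cons, mem_image]
    refine ⟨_, hmem, ?_⟩
    rw [hpq] at hlB
    rw [← List.cons_append, ← List.cons_append, ← hlB, List.drop_left, ← hdrop]
    have : (v :: L1).take i' = H.take i' := by
      rw [e1, List.take_append_of_le_length (by rw [e2]; omega)]
    rw [this, List.take_append_drop]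

/-- charging to the other end -/
theorem boundF {m ℓ i : ℕ} (hn : D.n ≤ m + 1 - ℓ) (hm : ℓ ≤ m + 1) (hi : i + 4 ≤ ℓ)
    (s : Finset (List V)) (hs : s ⊆ saw D.T D.v0 m)
    (hbl : ∀ H ∈ s, D.bl H ℓ) (hlen : ∀ H ∈ s, (D.dev H).length = i + 2) :
    s.card ≤ (D.RR (m + 1 - (ℓ - 3 - i))).card * Cb ℓ := by
  classical
  have hn1 := D.hn
  apply card_cover s _ _ (fun Q => D.gF ℓ (Q.drop (i + 1))) (fun Q _ => D.gF_card (by omega) _)
  · intro H hH
    have hcl := D.bl_closes (hs hH) (hbl H hH)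
    obtain ⟨v, y, L1, H0, e1, e2, e3, e4, e5, hsc⟩ := closes_sc (hs hH) hcl (by omega)
    obtain ⟨i', I⟩ := D.inv_exists m (by omega) H (hs hH)
    have hii : i' = i := by
      have h1 := I.len
      have h2 := hlen H hH
      omega
    subst hii
    obtain ⟨hHl, hHn, hHc, hHlast⟩ := (mem_saw _ _ _ _).1 (hs hH)
    -- the end of the reversed path
    obtain ⟨p, q, r, r', hpq⟩ : ∃ p q r r', H.drop i' = p :: q :: r :: r' := by
      have : (H.drop i').length = m + 1 - i' := by rw [List.length_drop, hHl]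
      generalize H.drop i' = M at this
      match M, this with
      | [], h => rw [List.length_nil] at h; omega
      | [_], h => rw [List.length_singleton] at h; omega
      | [_, _], h => simp only [List.length_cons, List.length_nil] at h; omega
      | p :: q :: r :: r', _ => exact ⟨p, q, r, r', rfl⟩
    have hdegq : D.k < D.T.deg q := by
      have hrr := I.rr
      rw [RR, mem_filter] at hrr
      rcases hrr.2 with h | ⟨x, H', h, h'⟩
      · omega
      · rw [hpq] at h
        simp only [List.cons.injEq] at h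
        obtain ⟨_, rfl⟩ := h
        obtain ⟨t, t1, t2, _⟩ := h'
        omega
    have hX : H.take (i' + 2) = H.take i' ++ [p, q] := by
      rw [List.take_add, hpq]; rfl
    obtain ⟨u, L2, rfl⟩ : ∃ u L2, L1 = u :: L2 := by
      cases L1 with
      | nil => simp at e2; omega
      | cons u L2 => exact ⟨u, L2, rfl⟩
    have hX2 : H.take (i' + 2) = v :: u :: L2.take i' := by
      rw [e1, List.take_append_of_le_length (by rw [e2]; omega)]; rfl
    have hy : H.drop (ℓ - 1) = y :: H.drop ℓ := by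
      have := drop_at e3
      have e : ℓ - 1 + 1 = ℓ := by omega
      rwa [e] at this
    have hyv : D.T.G.Adj y v := (List.isChain_cons_cons.1 hsc.ch).1
    -- the reversed walk
    set Ws := (H.take (i' + 2)).reverse ++ H.drop (ℓ - 1) with hWs
    have hsub : (H.take (i' + 2) ++ H.drop (ℓ - 1)).Sublist H := by
      have h1 : H = H.take (ℓ - 1) ++ H.drop (ℓ - 1) := (List.take_append_drop _ _).symm
      conv_rhs => rw [h1]
      apply List.Sublist.append _ (List.Sublist.refl _)
      have : (H.take (ℓ - 1)).take (i' + 2) = H.take (i' + 2) := by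
        rw [List.take_take, min_eq_left (by omega)]
      rw [← this]
      exact List.take_sublist _ _
    have hWn : Ws.Nodup := by
      have h1 := hHn.sublist hsub
      rw [hWs]
      rw [List.nodup_append] at h1 ⊢
      refine ⟨List.nodup_reverse.2 h1.1, h1.2.1, fun a ha b hb => h1.2.2 a (by simpa using ha) b hb⟩
    have hWs1 : Ws = q :: p :: ((H.take i').reverse ++ H.drop (ℓ - 1)) := by
      rw [hWs, hX]; simp
    have hWs2 : Ws = (L2.take i').reverse ++ u :: v :: H.drop (ℓ - 1) := by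
      rw [hWs, hX2]; simp
    have hWsaw : Ws ∈ saw D.T D.v0 (m + 1 - (ℓ - 3 - i') - 1) := by
      rw [mem_saw]
      refine ⟨?_, hWn, ?_, ?_⟩
      · rw [hWs, List.length_append, List.length_reverse, List.length_take, List.length_drop, hHl]
        omega
      · rw [hWs, List.isChain_append]
        refine ⟨?_, hHc.drop _, ?_⟩
        · rw [List.isChain_reverse]
          exact (hHc.take (i' + 2)).imp (fun a b hab => hab.symm)
        · intro a ha b hb
          rw [List.getLast?_reverse, hX2] at ha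
          rw [hy] at hb
          simp only [List.head?_cons, Option.mem_def, Option.some.injEq] at ha hb
          rw [← ha, ← hb]; exact hyv.symm
      · rw [hWs, List.getLast?_append, List.getLast?_drop, if_neg (by omega), hHlast]; rfl
    have hqp : D.T.G.Adj q p := by
      have := hHc.drop i'
      rw [hpq, List.isChain_cons_cons] at this
      exact this.1.symm
    have hqr : D.T.G.Adj q r := by
      have := hHc.drop i'
      rw [hpq, List.isChain_cons_cons, List.isChain_cons_cons] at this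
      exact this.2.1
    have hrW : r ∉ Ws := by
      have hrd : H.drop (i' + 2) = r :: r' := by
        rw [← List.drop_drop, hpq]; rfl
      have h1 : H = H.take (i' + 2) ++ r :: r' := by rw [← hrd, List.take_append_drop]
      have hr' : H.drop (ℓ - 1) <:+ r' := by
        have e : ℓ - 1 = (i' + 2) + (1 + (ℓ - 4 - i')) := by omega
        rw [e, ← List.drop_drop, hrd, ← List.drop_drop]
        exact List.drop_suffix _ _
      have h2 := hHn
      rw [h1, List.nodup_append] at h2
      obtain ⟨_, n2, n3⟩ := h2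
      rw [hWs, List.mem_append, List.mem_reverse]
      rintro (hc | hc)
      · exact n3 r hc r (by simp) rfl
      · exact (List.nodup_cons.1 n2).1 (hr'.subset hc)
    obtain ⟨x', hx1, hx2⟩ := exists_ex (l := (H.take i').reverse ++ H.drop (ℓ - 1)) hdegq hqp hqr
      (by rw [← hWs1]; exact hrW)
    rw [← hWs1] at hx1 hx2
    have hQ := cons_saw D.T hWsaw hx2
    have em : m + 1 - (ℓ - 3 - i') - 1 + 1 = m + 1 - (ℓ - 3 - i') := by omega
    rw [em] at hQ
    refine ⟨x' :: Ws, ?_, ?_⟩
    · rw [RR, mem_filter]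
      exact ⟨hQ, Or.inr ⟨x', Ws, rfl, hx1⟩⟩
    · have hl2 : (L2.take i').reverse.length = i' := by
        rw [List.length_reverse, List.length_take]
        simp only [List.length_cons] at e2
        omega
      have hd1 : (x' :: Ws).drop (i' + 1) = u :: v :: H.drop (ℓ - 1) := by
        have h0 := List.drop_left (l₁ := (L2.take i').reverse) (l₂ := u :: v :: H.drop (ℓ - 1))
        rw [hl2] at h0
        rw [List.drop_succ_cons, hWs2, h0]
      have hmem := cyc_mem D.hd6 hsc (by rw [e2]; omega)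
      rw [e2] at hmem
      show H ∈ D.gF ℓ ((x' :: Ws).drop (i' + 1))
      rw [hd1, gF_cons, mem_image]
      refine ⟨_, hmem, ?_⟩
      have : (v :: u :: L2).take (ℓ - 1) = H.take (ℓ - 1) := by
        rw [e1, List.take_append_of_le_length (by rw [e2]; omega)]
      rw [this, List.take_append_drop]

/-- a closing long after the restart: the geometry -/
theorem geomB {m ℓ : ℕ} (hn : D.n ≤ m + 1 - ℓ) (h3 : 3 ≤ ℓ) (hm : ℓ ≤ m + 1)
    (hm2 : m < D.n + D.N) {H : List V} (hH : H ∈ saw D.T D.v0 m) (hbl : D.bl H ℓ)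
    (hlen : ℓ + 1 ≤ (D.dev H).length) :
    ∃ (v y : V) (L1 H0 γ : List V) (v' w : V) (I : Finset V), H = v :: L1 ++ H0 ∧
      (v :: L1).length = ℓ ∧ H[ℓ - 1]? = some y ∧ H.take ℓ = v :: L1 ∧ H.drop ℓ = H0 ∧
      SC D.T y (v :: L1) ∧ D.k ≤ 2 * ℓ ∧ (D.k - 6) * I.card + 6 ≤ 2 * ℓ ∧
      γ = v' :: γ.tail ∧ γ.getLast? = some y ∧ γ.Nodup ∧ γ.IsChain D.T.G.Adj ∧
      (∀ u ∈ γ, u ∉ H0) ∧ D.T.deg v' ≠ D.k ∧ D.T.G.Adj v' w ∧ w ∉ γ ∧ w ∉ H0 ∧
      γ.length ≤ I.card + ℓ / 2 + 1 := by
  obtain ⟨v, y, L1, H0, e1, e2, e3, e4, e5, hsc⟩ := closes_sc hH (D.bl_closes hH hbl) (by omega)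
  obtain ⟨hnod, v1, u, l, a, b, P, j, rfl, hd, j1, j2, j3, hy⟩ := hbl
  obtain ⟨hHl, hHn, hHc, hHlast⟩ := (mem_saw _ _ _ _).1 hH
  have hn1 := D.hn
  have hN := D.hN
  have hk := D.hk
  obtain ⟨i, I⟩ := D.inv_exists m (by omega) _ hH
  have hvu : D.T.G.Adj v1 u := (List.isChain_cons_cons.1 hHc).1
  have hab : D.R.G.Adj a b := by
    have := I.ch
    rw [hd, List.isChain_cons_cons] at this
    exact this.1
  have hyx : y = chj D.T D.k (v1 :: u :: l) v1 u j := by
    rw [e3] at hy
    exact Option.some.inj hy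
  have hv1 : v1 = v := by
    have := congrArg List.head? e1
    simpa using this
  subst hv1
  -- the comparison
  have hik : ℓ ≤ i + 1 := by have := I.len; omega
  obtain ⟨L2, hL2⟩ : ∃ L2, L1 = u :: L2 := by
    cases L1 with
    | nil => simp at e2; omega
    | cons u' L2 =>
      simp only [List.cons_append, List.cons.injEq, true_and] at e1
      exact ⟨L2, by rw [e1.1]⟩
  have hT' : TR D.T D.R D.k (v1 :: L1) ((D.dev (v1 :: u :: l)).take ℓ) := by
    have := I.tr.take ℓ (by omega)
    rw [List.take_take, min_eq_left (by omega), e4] at this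
    exact this
  have hdl : (D.dev (v1 :: u :: l)).take ℓ = a :: b :: P.take (ℓ - 2) := by
    rw [hd]
    obtain ⟨t, rfl⟩ : ∃ t, ℓ = t + 2 := ⟨ℓ - 2, by omega⟩
    simp
  have hne := chj_not_ex (l := l) (D.hT v1) hvu D.hk1 j2
  have hneu := chj_ne (W := v1 :: u :: l) D.hk1 (D.hT v1) hvu j2 j1
  have htrn := D.trn_step (l := l) hvu (chj_adj hvu (v1 :: u :: l) j) hneu hne hab
  rw [jx_chj (D.hT v1) hvu j2, ← hyx] at htrn
  have hTR : TR D.T D.R D.k (y :: v1 :: L1) ((D.R.rot a)^[j] b :: (D.dev (v1 :: u :: l)).take ℓ) := by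
    rw [hdl, hL2] at hT' ⊢
    exact TR.cons _ _ _ _ _ _ _ _ htrn hT'
  have hsubl : ((D.dev (v1 :: u :: l)).take ℓ).Sublist (D.dev (v1 :: u :: l)).dropLast := by
    rw [List.dropLast_eq_take]
    have : (D.dev (v1 :: u :: l)).take ℓ =
        ((D.dev (v1 :: u :: l)).take ((D.dev (v1 :: u :: l)).length - 1)).take ℓ := by
      rw [List.take_take, min_eq_left (by omega)]
    rw [this]
    exact List.take_sublist _ _
  have hnd' : ((D.R.rot a)^[j] b :: (D.dev (v1 :: u :: l)).take ℓ).Nodup := by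
    rw [List.nodup_cons]
    exact ⟨fun hc => j3 (hsubl.subset hc), hnod.sublist hsubl⟩
  obtain ⟨Ie, hIne, hId, hIcl, hdef, hIc⟩ := closing D.hR (by omega) D.hT hsc (by omega) hTR hnd'
  rw [e2] at hIc
  have hIpos : 1 ≤ Ie.card := Finset.card_pos.2 hIne
  have hkI : (D.k - 6) * 1 ≤ (D.k - 6) * Ie.card := Nat.mul_le_mul_left _ hIpos
  have hkI2 : 2 * Ie.card ≤ (D.k - 6) * Ie.card := Nat.mul_le_mul_right _ (by omega)
  have hH0l : H0.length = m + 1 - ℓ := by
    rw [← e5, List.length_drop, hHl]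
  have hlt : Ie.card < H0.length := by clear hdef; omega
  have hk2 : D.k ≤ 2 * ℓ := by clear hdef; omega
  obtain ⟨γ, v', g1, g2, g3, g4, g5, g6, ⟨w, g7, g8, g9⟩, g10⟩ :=
    region_path (by omega) D.hT hsc (by rw [e2]; exact h3) hIcl hdef
  rw [e2] at g10
  have hdisj : ∀ z ∈ H0, z ∉ v1 :: L1 := by
    intro z hz hz2
    have h1 := hHn
    rw [e1, List.nodup_append] at h1
    exact h1.2.2 z hz2 z hz rfl
  have hH0c : H0.IsChain D.T.G.Adj := by rw [← e5]; exact hHc.drop _
  have hH0n : H0.Nodup := by rw [← e5]; exact hHn.sublist (List.drop_sublist _ _)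
  have hout := outside (L := v1 :: L1) (H := H0) hIcl hH0c hH0n hdisj hlt
  have hE : ∀ z, (z ∈ v1 :: L1 ∨ z ∈ Ie) → z ∉ H0 := by
    rintro z (hz | hz) hz2
    · exact hdisj z hz2 hz
    · exact hout z hz2 hz
  exact ⟨v1, y, L1, H0, γ, v', w, Ie, e1, e2, e3, e4, e5, hsc, hk2, hIc, g1, g2, g3, g4,
    fun z hz => hE z (g5 z hz), g6, g7, g9, hE w g8, g10⟩

/-- charging in the late case -/
theorem boundB {m ℓ : ℕ} (hn : D.n ≤ m + 1 - ℓ) (h3 : 3 ≤ ℓ) (hm : ℓ ≤ m + 1)
    (hm2 : m < D.n + D.N) (g : ℕ) (s : Finset (List V)) (hs : s ⊆ saw D.T D.v0 m)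
    (hbl : ∀ H ∈ s, D.bl H ℓ) (hlen : ∀ H ∈ s, ℓ + 1 ≤ (D.dev H).length)
    (hg : ∀ H ∈ s, ∃ (v y : V) (L1 H0 γ : List V) (v' w : V), H = v :: L1 ++ H0 ∧
      (v :: L1).length = ℓ ∧ H[ℓ - 1]? = some y ∧ H.take ℓ = v :: L1 ∧ H.drop ℓ = H0 ∧
      SC D.T y (v :: L1) ∧ 
      γ = v' :: γ.tail ∧ γ.getLast? = some y ∧ γ.Nodup ∧ γ.IsChain D.T.G.Adj ∧
      (∀ u ∈ γ, u ∉ H0) ∧ D.T.deg v' ≠ D.k ∧ D.T.G.Adj v' w ∧ w ∉ γ ∧ w ∉ H0 ∧
      γ.length = g + 1) :
    s.card ≤ (D.RR (m + 1 - ℓ + g + 1)).card * (D.k * Cb ℓ) := by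
  classical
  have hn1 := D.hn
  apply card_cover s _ _ (fun Q => D.gB ℓ (Q.drop (g + 1))) (fun Q _ => D.gB_card h3 _)
  · intro H hH
    obtain ⟨v, y, L1, H0, γ, v', w, e1, e2, e3, e4, e5, hsc, g1, g2, g3, g4, g5, g6, g7, g8, g9,
      g10⟩ := hg H hH
    obtain ⟨hHl, hHn, hHc, hHlast⟩ := (mem_saw _ _ _ _).1 (hs hH)
    obtain ⟨i, I⟩ := D.inv_exists m (by omega) _ (hs hH)
    have hik : ℓ ≤ i + 1 := by have := I.len; have := hlen H hH; omega
    have hH0l : H0.length = m + 1 - ℓ := by
      rw [← e5, List.length_drop, hHl]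
    have hy : H.drop (ℓ - 1) = y :: H0 := by
      have := drop_at e3
      have e : ℓ - 1 + 1 = ℓ := by omega
      rwa [e, e5] at this
    obtain ⟨u0, l0, rfl⟩ : ∃ u0 l0, H0 = u0 :: l0 := by
      cases H0 with
      | nil => simp at hH0l; omega
      | cons u0 l0 => exact ⟨u0, l0, rfl⟩
    -- the new walk
    set Ws := γ ++ u0 :: l0 with hWs
    have hdc : (y :: u0 :: l0).IsChain D.T.G.Adj := by rw [← hy]; exact hHc.drop _
    have hyu0 : D.T.G.Adj y u0 := (List.isChain_cons_cons.1 hdc).1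
    have hWsaw : Ws ∈ saw D.T D.v0 (m + 1 - ℓ + g) := by
      rw [mem_saw]
      refine ⟨?_, ?_, ?_, ?_⟩
      · rw [hWs, List.length_append, g10, hH0l]; omega
      · rw [hWs, List.nodup_append]
        refine ⟨g3, ?_, ?_⟩
        · rw [← e5]; exact hHn.sublist (List.drop_sublist _ _)
        · intro a ha b hb hab
          exact g5 a ha (hab ▸ hb)
      · rw [hWs, List.isChain_append]
        refine ⟨g4, (List.isChain_cons_cons.1 hdc).2, ?_⟩
        intro a ha b hb
        rw [g2] at ha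
        simp only [List.head?_cons, Option.mem_def, Option.some.injEq] at ha hb
        rw [← ha, ← hb]; exact hyu0
      · have h1 : (y :: u0 :: l0).getLast? = some D.v0 := by
          rw [← hy, List.getLast?_drop, if_neg (by omega), hHlast]
        rw [List.getLast?_cons_cons] at h1
        rw [hWs, List.getLast?_append, h1]; rfl
    obtain ⟨u', l', hWs2⟩ : ∃ u' l', Ws = v' :: u' :: l' := by
      rw [hWs, g1]
      cases γ.tail with
      | nil => exact ⟨u0, l0, rfl⟩
      | cons u' l' => exact ⟨u', l' ++ u0 :: l0, rfl⟩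
    have hadj : D.T.G.Adj v' u' := by
      have := ((mem_saw _ _ _ _).1 hWsaw).2.2.1
      rw [hWs2, List.isChain_cons_cons] at this
      exact this.1
    have hwW : w ∉ Ws := by
      rw [hWs, List.mem_append]
      rintro (hc | hc)
      · exact g8 hc
      · exact g9 hc
    obtain ⟨x', hx1, hx2⟩ := exists_ex (l := l') (k := D.k) (lt_of_le_of_ne (D.hT v') (Ne.symm g6))
      hadj g7 (by rw [← hWs2]; exact hwW)
    rw [← hWs2] at hx1 hx2
    have hQ := cons_saw D.T hWsaw hx2
    refine ⟨x' :: Ws, ?_, ?_⟩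
    · rw [RR, mem_filter]
      exact ⟨hQ, Or.inr ⟨x', Ws, rfl, hx1⟩⟩
    · have hd1 : (x' :: Ws).drop (g + 1) = y :: u0 :: l0 := by
        have hγ : γ = γ.dropLast ++ [y] := by
          have hne : γ ≠ [] := by rw [g1]; simp
          rw [List.getLast?_eq_getLast_of_ne_nil hne] at g2
          have h2 : γ.getLast hne = y := Option.some.inj g2
          conv_lhs => rw [← List.dropLast_append_getLast hne, h2]
        have hgl : γ.dropLast.length = g := by rw [List.length_dropLast, g10]; rfl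
        have h0 := List.drop_left (l₁ := γ.dropLast) (l₂ := y :: u0 :: l0)
        rw [hgl] at h0
        rw [List.drop_succ_cons, hWs]
        have : γ ++ u0 :: l0 = γ.dropLast ++ y :: u0 :: l0 := by
          conv_lhs => rw [hγ]
          simp
        rw [this, h0]
      show H ∈ D.gB ℓ ((x' :: Ws).drop (g + 1))
      rw [hd1, gB_cons]
      -- the step out of the base point
      obtain ⟨z, H', hz1, hz2⟩ := I.steps (ℓ - 2) (by omega)
      have hH' : H' = y :: u0 :: l0 := by
        have h1 : H.drop (ℓ - 1) = H' := by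
          have e : ℓ - 1 = (ℓ - 2) + 1 := by omega
          rw [e, ← List.drop_drop, hz1]; rfl
        rw [← h1, hy]
      subst hH'
      have hdz : (z :: y :: u0 :: l0).IsChain D.T.G.Adj := by rw [← hz1]; exact hHc.drop _
      have hzy : D.T.G.Adj y z := (List.isChain_cons_cons.1 hdz).1.symm
      have hzn : (z :: y :: u0 :: l0).Nodup := by
        rw [← hz1]; exact hHn.sublist (List.drop_sublist _ _)
      have hzu : z ≠ u0 := by
        rintro rfl
        simp at hzn
      obtain ⟨q1, q2, q3⟩ := jx_spec (l := l0) D.hk1 (D.hT y) hyu0 hzy hzu hz2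
      rw [mem_biUnion]
      refine ⟨_, mem_range.2 q2, ?_⟩
      rw [q3, mem_image]
      -- the reversed cycle
      have hr := sc_rev hsc
      have hrev : ∃ l, (v :: L1).reverse = y :: z :: l := by
        have h1 : H = H.take (ℓ - 2) ++ z :: y :: u0 :: l0 := by
          rw [← hz1, List.take_append_drop]
        have h2 : v :: L1 = H.take (ℓ - 2) ++ [z, y] := by
          have h3 : H = (H.take (ℓ - 2) ++ [z, y]) ++ u0 :: l0 := by
            conv_lhs => rw [h1]
            simp
          have h4 : (H.take (ℓ - 2) ++ [z, y]) ++ u0 :: l0 = (v :: L1) ++ u0 :: l0 := by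
            rw [← h3, ← e1]
          exact (List.append_cancel_right h4).symm
        rw [h2]
        exact ⟨(H.take (ℓ - 2)).reverse, by simp⟩
      obtain ⟨lr, hlr⟩ := hrev
      have hll : (y :: z :: lr).length = ℓ := by rw [← hlr, List.length_reverse, e2]
      rw [hlr] at hr
      have hmem := cyc_mem D.hd6 hr (by rw [hll]; exact h3)
      rw [hll] at hmem
      refine ⟨_, hmem, ?_⟩
      rw [← hlr, List.reverse_reverse]
      have : (v :: L1).take (ℓ - 1) = H.take (ℓ - 1) := by
        rw [e1, List.take_append_of_le_length (by rw [e2]; omega)]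
      rw [this, ← hy, List.take_append_drop]

end Par

end Run7.h63
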