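import Pool.Agent.Run7.h63.Hol

set_option linter.unusedSectionVars false
set_option linter.unusedSimpArgs false
set_option linter.unusedVariables false

open Finset

namespace Run7.h63

variable {V : Type*} [DecidableEq V] {W : Type*} [DecidableEq W] {T : PT V} {R : PT W} {k : ℕ}

theorem walk_along {x : V} {L : List V} {F : Finset (V × V)} (h : SC T x L) (h3 : 3 ≤ L.length)
    (hb : Bd T (x :: L) F) (hk : ∀ v ∈ L, T.deg v = k) {φ : V → V → W × W} (g : Good T R F φ)
    (l : List V) : ∀ (A : List V) (p v : V) (p' v' : W) (l' : List W),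
    x :: L = A ++ p :: v :: l → TR T R k (p :: v :: l) (p' :: v' :: l') → φ p v = (p', v') →
    ∃ p0 r0 z0, (p0, x) ∈ el (x :: L) ∧ φ p0 x = (r0, z0) ∧ z0 ∈ v' :: l' := by
  induction l with
  | nil =>
    intro A p v p' v' l' e htr hφ
    have hx : v = x := by
      have h1 := congrArg List.getLast? e
      rw [List.getLast?_append, List.getLast?_cons, h.last] at h1
      simp at h1
      exact h1.symm
    subst hx
    refine ⟨p, p', v', ?_, hφ, by simp⟩
    rw [e, el_append]; simp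
  | cons q l ih =>
    intro A p v p' v' l' e htr hφ
    obtain ⟨q', l'', rfl⟩ : ∃ q' l'', l' = q' :: l'' := by
      cases l' with
      | nil => have := htr.length_eq; simp at this
      | cons a b => exact ⟨a, b, rfl⟩
    obtain ⟨t, htr2⟩ := htr.tail
    obtain ⟨e1, e2⟩ := triple_mem e
    obtain ⟨a, a1, a2, a3, a4⟩ := angle' h h3 hb e1 e2
    obtain ⟨i, j, c1, c2, c3, c4, c5, c6, c7, c8, c9⟩ := t
    have hvk : T.deg v = k := hk v (el_snd_mem' e1)
    have hia : i = a := T.iter_inj c6 c3 a2 (c8.trans a3.symm)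
    have hij : i = j := by omega
    subst hia; subst hij
    have h8 := g.turn' hb.toFc (v := v) (q := q) (v' := (φ v q).1) (q' := (φ v q).2) rfl a1 a4
    rw [a3, hφ] at h8
    have h9 : (φ v q).1 = v' := (congrArg Prod.snd h8).symm
    have h10 : (R.rot (φ v q).1)^[i] (φ v q).2 = p' := (congrArg Prod.fst h8).symm
    have h11 : R.G.Adj (φ v q).1 (φ v q).2 := g.adj (by simpa using a4 0 a1)
    rw [h9] at h10 h11
    have h12 : (φ v q).2 = q' := R.iter_cancel h11 c7 i (h10.trans c9.symm)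
    obtain ⟨p0, r0, z0, r1, r2, r3⟩ := ih (A ++ [p]) v q v' q' l'' (by rw [e]; simp) htr2
      (Prod.ext h9 h12)
    exact ⟨p0, r0, z0, r1, r2, List.mem_cons_of_mem _ r3⟩

theorem exists_defect (hR : ∀ w, R.deg w = k) {x : V} {L : List V} {F : Finset (V × V)} {x' : W}
    {L' : List W} (h : SC T x L) (h3 : 3 ≤ L.length) (hb : Bd T (x :: L) F)
    (htr : TR T R k (x :: L) (x' :: L')) (hnd : (x' :: L').Nodup) :
    (∃ v ∈ L, T.deg v ≠ k) ∨ (∃ v ∈ intr F L, T.deg v ≠ k) := by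
  by_contra hcon
  push Not at hcon
  obtain ⟨hk1, hk2⟩ := hcon
  have hlen := htr.length_eq
  obtain ⟨y, z, L2, rfl⟩ : ∃ y z L2, L = y :: z :: L2 := by
    match L, h3 with
    | y :: z :: L2, _ => exact ⟨y, z, L2, rfl⟩
  obtain ⟨y', z', L2', rfl⟩ : ∃ y z L2, L' = y :: z :: L2 := by
    simp only [List.length_cons] at hlen
    match L', hlen with
    | y :: z :: L2, _ => exact ⟨y, z, L2, rfl⟩
  have hab : R.G.Adj x' y' := by
    obtain ⟨t, _⟩ := htr.tail
    obtain ⟨i, j, c1, c2, c3, c4, c5, c6, c7, c8, c9⟩ := t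
    rw [← c9]; exact (R.iter_adj c7 j).symm
  obtain ⟨φ, g, hφ⟩ := exists_good hR F.card F x y (z :: L2) x' y' le_rfl h hb hk2 hab
  obtain ⟨p0, r0, z0, r1, r2, r3⟩ := walk_along h h3 hb hk1 g (z :: L2) [] x y x' y' _ rfl htr hφ
  obtain ⟨a, a1, a2, a3, a4⟩ := angle' h h3 hb r1 (q := y) (by simp)
  have h8 := g.turn' hb.toFc (v := x) (q := y) (v' := x') (q' := y') hφ a1 a4
  rw [a3, r2] at h8
  have h9 : z0 = x' := congrArg Prod.snd h8
  subst h9
  exact (List.nodup_cons.1 hnd).1 r3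

/-- What a closing of a lifted walk forces. -/
theorem closing_left (hR : ∀ w, R.deg w = k) (hk6 : 6 ≤ k) (hT : ∀ v, k ≤ T.deg v) {x : V}
    {L : List V} {F : Finset (V × V)} {x' : W}
    {L' : List W} (h : SC T x L) (h3 : 3 ≤ L.length) (hb : Bd T (x :: L) F)
    (htr : TR T R k (x :: L) (x' :: L')) (hnd : (x' :: L').Nodup) :
    ∃ I : Finset V, I.Nonempty ∧ (∀ u ∈ I, u ∉ L) ∧ (∀ u ∈ I, ∀ w, T.G.Adj u w → w ∈ L ∨ w ∈ I) ∧
      ((∃ v ∈ L, T.deg v ≠ k) ∨ (∃ v ∈ I, T.deg v ≠ k)) ∧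
      (k - 6) * I.card + 6 ≤ 2 * L.length := by
  refine ⟨intr F L, ?_, ?_, ?_, exists_defect hR h h3 hb htr hnd, ?_⟩
  · rw [Finset.nonempty_iff_ne_empty]
    intro hi
    exact thin L.length F x L x' L' le_rfl h3 h hb hi htr hnd
  · intro u hu
    exact (mem_intr.1 hu).2
  · intro u hu w huw
    obtain ⟨⟨v, hv⟩, hn⟩ := mem_intr.1 hu
    have := (full_at h hb hn hv huw).2
    by_cases hw : w ∈ L
    · exact Or.inl hw
    · exact Or.inr (mem_intr.2 ⟨⟨u, this⟩, hw⟩)
  · have g := gb2 h hb hk6 hT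
    have h1 : L.length ≤ (L.map (afc F)).sum := by
      have : ∀ M : List V, (∀ v ∈ M, 0 < afc F v) → M.length ≤ (M.map (afc F)).sum := by
        intro M
        induction M with
        | nil => intro _; simp
        | cons a M ih =>
          intro hM
          have h1 := hM a (by simp)
          have h2 := ih (fun v hv => hM v (List.mem_cons_of_mem _ hv))
          simp only [List.length_cons, List.map_cons, List.sum_cons]
          omega
      exact this L (fun v hv => afc_pos h h3 hb hv)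
    omega

theorem closing (hR : ∀ w, R.deg w = k) (hk6 : 6 ≤ k) (hT : ∀ v, k ≤ T.deg v) {x : V}
    {L : List V} {x' : W} {L' : List W} (h : SC T x L) (h3 : 3 ≤ L.length)
    (htr : TR T R k (x :: L) (x' :: L')) (hnd : (x' :: L').Nodup) :
    ∃ I : Finset V, I.Nonempty ∧ (∀ u ∈ I, u ∉ L) ∧ (∀ u ∈ I, ∀ w, T.G.Adj u w → w ∈ L ∨ w ∈ I) ∧
      ((∃ v ∈ L, T.deg v ≠ k) ∨ (∃ v ∈ I, T.deg v ≠ k)) ∧
      (k - 6) * I.card + 6 ≤ 2 * L.length := by
  rcases jordan' h with ⟨F, hF⟩ | ⟨F, hF⟩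
  · exact closing_left hR hk6 hT h h3 hF htr hnd
  · exact closing_left (T := T.mirror) (R := R.mirror) (by simpa using hR) hk6 (by simpa using hT)
      h.mirror h3 hF (htr.mirror hR) hnd

end Run7.h63
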