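import Pool.Agent.Run7.h63.Disc

set_option linter.unusedSectionVars false
set_option linter.unusedSimpArgs false
set_option linter.unusedVariables false

open Finset

namespace Run7.h63

variable {V : Type*} [DecidableEq V] {T : PT V}

theorem SC.mirror {x : V} {L : List V} (h : SC T x L) : SC T.mirror x L :=
  ⟨h.nd, h.last, h.ch, h.len⟩

theorem mirror_bd {C : List V} {F : Finset (V × V)} (h : Fc T F)
    (hb : ∀ u v, ind F u v - ind F v u = - bd C u v) : Bd T.mirror C (F.image Prod.swap) := by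
  have hm : ∀ u v, (u, v) ∈ F.image Prod.swap ↔ (v, u) ∈ F := by
    intro u v
    simp only [mem_image, Prod.exists, Prod.swap_prod_mk, Prod.mk.injEq]
    constructor
    · rintro ⟨a, b, hab, rfl, rfl⟩; exact hab
    · intro hvu; exact ⟨v, u, hvu, rfl, rfl⟩
  have hi : ∀ u v, ind (F.image Prod.swap) u v = ind F v u := by
    intro u v
    unfold ind
    simp only [hm]
  refine ⟨⟨?_, ?_⟩, ?_⟩
  · intro u v huv
    rw [hm] at huv
    exact (h.adj huv).symm
  · intro u v huv
    rw [hm] at huv ⊢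
    exact h.back huv
  · intro u v
    rw [hi, hi]
    have := hb u v
    linarith

theorem jordan' {x : V} {L : List V} (h : SC T x L) : (∃ F, Bd T (x :: L) F) ∨
    (∃ F, Bd T.mirror (x :: L) F) := by
  rcases jordan h with h1 | ⟨_, F, hF, hb⟩
  · exact Or.inl h1
  · exact Or.inr ⟨_, mirror_bd hF hb⟩

/-- number of faces of `F` at `v` -/
def afc (F : Finset (V × V)) (v : V) : ℕ := (F.filter (fun e => e.1 = v)).card

theorem le_afc {F : Finset (V × V)} {v q : V} (hq : T.G.Adj v q) {a : ℕ} (ha : a ≤ T.deg v)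
    (h : ∀ i < a, (v, (T.rot v)^[i] q) ∈ F) : a ≤ afc F v := by
  have : ((range a).image (fun i => (v, (T.rot v)^[i] q))) ⊆ F.filter (fun e => e.1 = v) := by
    intro e he
    rw [mem_image] at he
    obtain ⟨i, hi, rfl⟩ := he
    rw [mem_filter]
    exact ⟨h i (mem_range.1 hi), rfl⟩
  have h2 := card_le_card this
  rw [card_image_of_injOn, card_range] at h2
  · exact h2
  · intro i hi j hj hij
    simp only [coe_range, Set.mem_Iio] at hi hj
    simp only [Prod.mk.injEq, true_and] at hij
    exact T.iter_inj hq (by omega) (by omega) hij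

theorem angle {x : V} {L : List V} {F : Finset (V × V)} (h : SC T x L) (h3 : 3 ≤ L.length)
    (hb : Bd T (x :: L) F) {A B : List V} {p v q : V} (e : x :: L = A ++ p :: v :: q :: B) :
    ∃ a, 0 < a ∧ a < T.deg v ∧ (T.rot v)^[a] q = p ∧ (∀ i < a, (v, (T.rot v)^[i] q) ∈ F) ∧
      a ≤ afc F v := by
  obtain ⟨e1, e2⟩ := triple_mem e
  have a1 := el_adj h.ch e1
  have a2 := el_adj h.ch e2
  obtain ⟨a, h1, h2, h3', h4, _⟩ := rot_const hb.toFc.ff.inv a1.symm a2 (h.triple_ne h3 e)
    (fun w _ hp hq => by have := h.triple_bd e hp hq; have := hb.bdry v w; linarith)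
  have h5 : ∀ i < a, (v, (T.rot v)^[i] q) ∈ F := by
    intro i hi
    apply mem_of_ind
    rw [h4 i hi]
    exact ind_pos (edge_mem h h3 hb e2).1
  exact ⟨a, h1, h2, h3', h5, le_afc a2 h2.le h5⟩

theorem afc_intr {x : V} {L : List V} {F : Finset (V × V)} (h : SC T x L) (hb : Bd T (x :: L) F)
    {v : V} (hv : v ∈ intr F L) : T.deg v ≤ afc F v := by
  rw [mem_intr] at hv
  obtain ⟨⟨w, hw⟩, hn⟩ := hv
  have : ((T.N v).image (fun w => (v, w))) ⊆ F.filter (fun e => e.1 = v) := by
    intro e he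
    rw [mem_image] at he
    obtain ⟨u, hu, rfl⟩ := he
    rw [mem_filter]
    exact ⟨(full_at h hb hn hw (T.mem_N.1 hu)).1, rfl⟩
  have h2 := card_le_card this
  rw [card_image_of_injective] at h2
  · exact h2
  · intro a b hab; simpa using hab

theorem gb2 {x : V} {L : List V} {F : Finset (V × V)} (h : SC T x L) (hb : Bd T (x :: L) F)
    {k : ℕ} (hk6 : 6 ≤ k) (hk : ∀ v, k ≤ T.deg v) :
    (L.map (afc F)).sum + 6 + (k - 6) * (intr F L).card ≤ 3 * L.length := by
  have g := gb F.card F x L le_rfl h hb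
  have h1 : F.card = ∑ v ∈ L.toFinset ∪ intr F L, afc F v := by
    apply card_eq_sum_card_fiberwise
    intro e he
    simp only [coe_union, Set.mem_union, mem_coe, List.mem_toFinset, mem_intr]
    by_cases hc : e.1 ∈ L
    · left; exact hc
    · right; exact ⟨⟨e.2, he⟩, hc⟩
  rw [sum_union] at h1
  · have h2 : (L.map (afc F)).sum = ∑ v ∈ L.toFinset, afc F v := by
      rw [List.sum_toFinset _ h.nd]
    have h3 : (intr F L).card * k ≤ ∑ v ∈ intr F L, afc F v := by
      rw [← smul_eq_mul]
      apply card_nsmul_le_sum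
      intro v hv
      exact (hk v).trans (afc_intr h hb hv)
    rw [← h2] at h1
    obtain ⟨j, rfl⟩ := Nat.exists_eq_add_of_le hk6
    have e : 6 + j - 6 = j := by omega
    rw [e]
    nlinarith
  · rw [disjoint_left]
    intro v h1 h2
    rw [mem_intr] at h2
    exact h2.2 (List.mem_toFinset.1 h1)

theorem afc_pos {x : V} {L : List V} {F : Finset (V × V)} (h : SC T x L) (h3 : 3 ≤ L.length)
    (hb : Bd T (x :: L) F) {v : V} (hv : v ∈ L) : 0 < afc F v := by
  obtain ⟨p, hp⟩ := exists_in_edge (x := x) hv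
  have hpF := (edge_mem h h3 hb hp).1
  have := hb.inv hpF
  unfold afc
  rw [card_pos]
  exact ⟨_, mem_filter.2 ⟨this, rfl⟩⟩

/-- turning data with total turning `M` -/
inductive TS (T : PT V) : List V → ℕ → Prop
  | two (a b : V) (M : ℕ) : TS T [a, b] M
  | cons (p v q : V) (l : List V) (a M : ℕ) (hq : T.G.Adj v q) (ha : 0 < a)
      (hr : (T.rot v)^[a] q = p) (h : TS T (v :: q :: l) M) : TS T (p :: v :: q :: l) (a + M)

theorem ts_of_cycle {x : V} {L : List V} {F : Finset (V × V)} (h : SC T x L) (h3 : 3 ≤ L.length)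
    (hb : Bd T (x :: L) F) (l : List V) : ∀ (A : List V) (p v : V), x :: L = A ++ p :: v :: l →
    ∃ M, TS T (p :: v :: l) M ∧ M + afc F x ≤ ((v :: l).map (afc F)).sum := by
  induction l with
  | nil =>
    intro A p v e
    refine ⟨0, TS.two _ _ _, ?_⟩
    have : v = x := by
      have h1 := congrArg List.getLast? e
      rw [List.getLast?_append, List.getLast?_cons, h.last] at h1
      simp at h1
      exact h1.symm
    subst this
    simp
  | cons q l ih =>
    intro A p v e
    obtain ⟨M, h1, h2⟩ := ih (A ++ [p]) v q (by rw [e]; simp)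
    obtain ⟨a, a1, a2, a3, a4, a5⟩ := angle h h3 hb e
    refine ⟨a + M, TS.cons p v q l a M (hb.adj (by simpa using a4 0 a1)) a1 a3 h1, ?_⟩
    rw [List.map_cons, List.sum_cons]
    omega

/-- enumeration of the lists with given start and bounded turning -/
def enumL (T : PT V) : ℕ → V → V → ℕ → Finset (List V)
  | 0, u, v, _ => {[u, v]}
  | m + 1, u, v, M => (range M).biUnion fun a =>
      (enumL T m v ((T.inv v)^[a + 1] u) (M - (a + 1))).image (List.cons u)

theorem enumL_card (m : ℕ) : ∀ (u v : V) (M : ℕ), (enumL T m u v M).card ≤ 2 ^ M := by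
  induction m with
  | zero => intro u v M; simp [enumL]; exact Nat.one_le_two_pow
  | succ m ih =>
    intro u v M
    unfold enumL
    refine card_biUnion_le.trans ?_
    have : ∀ a ∈ range M, ((enumL T m v ((T.inv v)^[a + 1] u) (M - (a + 1))).image (List.cons u)).card ≤
        2 ^ (M - 1 - a) := by
      intro a ha
      refine card_image_le.trans ((ih _ _ _).trans ?_)
      apply Nat.pow_le_pow_right (by norm_num)
      omega
    refine (sum_le_sum this).trans ?_
    rw [sum_range_reflect (fun i => 2 ^ i) M, Nat.geomSum_eq (le_refl 2)]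
    simp

theorem mem_enumL {P : List V} {M : ℕ} (h : TS T P M) : ∀ (u v : V) (l : List V) (M' : ℕ),
    P = u :: v :: l → M ≤ M' → P ∈ enumL T l.length u v M' := by
  induction h with
  | two a b M =>
    intro u v l M' e hM
    simp only [List.cons.injEq] at e
    obtain ⟨rfl, rfl, rfl⟩ := e
    simp [enumL]
  | cons p v q l a M hq ha hr h ih =>
    intro u' v' l' M' e hM
    simp only [List.cons.injEq] at e
    obtain ⟨rfl, rfl, rfl⟩ := e
    rw [List.length_cons, enumL, mem_biUnion]
    refine ⟨a - 1, mem_range.2 (by omega), ?_⟩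
    rw [mem_image]
    refine ⟨v :: q :: l, ?_, rfl⟩
    have e1 : a - 1 + 1 = a := by omega
    rw [e1]
    have e2 : (T.inv v)^[a] p = q := by rw [← hr]; exact T.inv_iter hq a
    rw [e2]
    exact ih v q l _ rfl (by omega)

def cycE (T : PT V) (ℓ : ℕ) (u v : V) : Finset (List V) :=
  enumL T (ℓ - 2) u v (3 * ℓ - 8) ∪ enumL T.mirror (ℓ - 2) u v (3 * ℓ - 8)

/-- bound for the number of cycles of length `ℓ` through a given directed edge -/
def Cb (ℓ : ℕ) : ℕ := 2 ^ (3 * ℓ - 7)

theorem cycE_card {ℓ : ℕ} (hl : 3 ≤ ℓ) (u v : V) : (cycE T ℓ u v).card ≤ Cb ℓ := by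
  refine (card_union_le _ _).trans ?_
  have h1 := enumL_card (T := T) (ℓ - 2) u v (3 * ℓ - 8)
  have h2 := enumL_card (T := T.mirror) (ℓ - 2) u v (3 * ℓ - 8)
  unfold Cb
  have e : 3 * ℓ - 7 = (3 * ℓ - 8) + 1 := by omega
  rw [e, pow_succ]
  omega

theorem cycle_ts_le (hd : ∀ v, 6 ≤ T.deg v) {x : V} {u v : V} {l : List V} {F : Finset (V × V)}
    (h : SC T x (u :: v :: l)) (h3 : 3 ≤ (u :: v :: l).length) (hb : Bd T (x :: u :: v :: l) F) :
    (u :: v :: l) ∈ enumL T l.length u v (3 * (u :: v :: l).length - 8) := by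
  obtain ⟨M, h1, h2⟩ := ts_of_cycle h h3 hb l [x] u v rfl
  have g := gb2 h hb (le_refl 6) hd
  have p1 := afc_pos h h3 hb (v := u) (by simp)
  have p2 := afc_pos h h3 hb h.x_mem
  apply mem_enumL h1 u v l _ rfl
  simp only [List.map_cons, List.sum_cons, List.length_cons] at g h2 ⊢
  omega

theorem cyc_mem (hd : ∀ v, 6 ≤ T.deg v) {x : V} {u v : V} {l : List V}
    (h : SC T x (u :: v :: l)) (h3 : 3 ≤ (u :: v :: l).length) :
    (u :: v :: l) ∈ cycE T (u :: v :: l).length u v := by
  have e : (u :: v :: l).length - 2 = l.length := by simp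
  unfold cycE
  rw [mem_union, e]
  rcases jordan' h with ⟨F, hF⟩ | ⟨F, hF⟩
  · left; exact cycle_ts_le hd h h3 hF
  · right; exact cycle_ts_le (T := T.mirror) hd h.mirror h3 hF

end Run7.h63
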