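import Pool.Agent.Run7.h63.Count

set_option linter.unusedSectionVars false
set_option linter.unusedSimpArgs false
set_option linter.unusedVariables false

open Finset

namespace Run7.h63

variable {V : Type*} [DecidableEq V] {W : Type*} [DecidableEq W] {T : PT V} {R : PT W} {k : ℕ}

/-- comparison of a turn in `T` with a turn in `R` -/
def Trn (T : PT V) (R : PT W) (k : ℕ) (a b c : V) (a' b' c' : W) : Prop :=
  ∃ i j, 0 < j ∧ j ≤ i ∧ i < T.deg b ∧ j < k ∧ k + i ≤ T.deg b + j ∧ T.G.Adj b c ∧
    R.G.Adj b' c' ∧ (T.rot b)^[i] c = a ∧ (R.rot b')^[j] c' = a'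

theorem Trn.mirror {a b c : V} {a' b' c' : W} (h : Trn T R k a b c a' b' c')
    (hR : ∀ w, R.deg w = k) : Trn T.mirror R.mirror k a b c a' b' c' := by
  obtain ⟨i, j, h1, h2, h3, h4, h5, h6, h7, h8, h9⟩ := h
  refine ⟨T.deg b - i, k - j, by omega, by omega, ?_, by omega, ?_, h6, h7, ?_, ?_⟩
  · rw [PT.mirror_deg]; omega
  · rw [PT.mirror_deg]; omega
  · exact T.mirror_turn h6 h3.le h8
  · have := R.mirror_turn h7 (i := j) (by rw [hR]; exact h4.le) h9
    rwa [hR] at this

inductive TR (T : PT V) (R : PT W) (k : ℕ) : List V → List W → Prop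
  | two (a b : V) (a' b' : W) : TR T R k [a, b] [a', b']
  | cons (a b c : V) (l : List V) (a' b' c' : W) (l' : List W) (h : Trn T R k a b c a' b' c')
      (ht : TR T R k (b :: c :: l) (b' :: c' :: l')) :
      TR T R k (a :: b :: c :: l) (a' :: b' :: c' :: l')

theorem TR.mirror {l : List V} {l' : List W} (h : TR T R k l l') (hR : ∀ w, R.deg w = k) :
    TR T.mirror R.mirror k l l' := by
  induction h with
  | two a b a' b' => exact TR.two a b a' b'
  | cons a b c l a' b' c' l' h ht ih => exact TR.cons a b c l a' b' c' l' (h.mirror hR) ih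

theorem TR.length_eq {l : List V} {l' : List W} (h : TR T R k l l') : l.length = l'.length := by
  induction h with
  | two => rfl
  | cons a b c l a' b' c' l' h ht ih => simp only [List.length_cons] at ih ⊢; omega

theorem TR.tail {a b c : V} {l : List V} {a' b' c' : W} {l' : List W}
    (h : TR T R k (a :: b :: c :: l) (a' :: b' :: c' :: l')) :
    Trn T R k a b c a' b' c' ∧ TR T R k (b :: c :: l) (b' :: c' :: l') := by
  cases h with
  | cons _ _ _ _ _ _ _ _ h ht => exact ⟨h, ht⟩

theorem TR.drop (P : List V) : ∀ (P' : List W) (l : List V) (l' : List W), P.length = P'.length →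
    2 ≤ l.length → TR T R k (P ++ l) (P' ++ l') → TR T R k l l' := by
  induction P with
  | nil =>
    intro P' l l' hl _ h
    have : P' = [] := List.length_eq_zero_iff.1 hl.symm
    subst this; exact h
  | cons a P ih =>
    intro P' l l' hl h2 h
    obtain ⟨a', P', rfl⟩ : ∃ a' P'', P' = a' :: P'' := by
      cases P' with
      | nil => simp at hl
      | cons a' P'' => exact ⟨a', P'', rfl⟩
    apply ih P' l l' (by simpa using hl) h2
    have hlen := h.length_eq
    match hP : P ++ l, hP' : P' ++ l' with
    | [], _ => have := congrArg List.length hP; rw [List.length_append, List.length_nil] at this; omega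
    | [_], _ => have := congrArg List.length hP; rw [List.length_append, List.length_singleton] at this; omega
    | b :: c :: m, [] => simp only [List.cons_append, hP, hP'] at hlen; simp at hlen
    | b :: c :: m, [_] => simp only [List.cons_append, hP, hP'] at hlen; simp at hlen
    | b :: c :: m, b' :: c' :: m' =>
      simp only [List.cons_append, hP, hP'] at h
      exact h.tail.2

/-- an ear of a disc without interior vertices -/
theorem exists_ear (n : ℕ) : ∀ (F : Finset (V × V)) (x : V) (L : List V), L.length ≤ n →
    3 ≤ L.length → SC T x L → Bd T (x :: L) F → intr F L = ∅ →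
    ∃ A p v q B, L = A ++ p :: v :: q :: B ∧ T.rot v q = p := by
  induction n with
  | zero => intro F x L h1 h2; omega
  | succ n ih =>
    intro F x L hn h3 h hb hi
    obtain ⟨y, L', rfl⟩ : ∃ y L', L = y :: L' := by
      cases L with
      | nil => simp at h3
      | cons y L' => exact ⟨y, L', rfl⟩
    have hxy : T.G.Adj x y := (List.isChain_cons_cons.1 h.ch).1
    have hm := (base_mem h h3 hb).1
    have hw : T.rot x y ∈ y :: L' := by
      by_contra hc
      have : T.rot x y ∈ intr F (y :: L') := by
        rw [mem_intr]; exact ⟨⟨x, hb.toFc.back hm⟩, hc⟩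
      rw [hi] at this; simp at this
    have hwy : T.rot x y ≠ y := (T.adj_rot' hxy).ne'
    have hw' : T.rot x y ∈ L' := by
      rcases List.mem_cons.1 hw with h1 | h1
      · exact absurd h1 hwy
      · exact h1
    obtain ⟨L1, L2, e⟩ := List.append_of_mem hw'
    have e' : y :: L' = y :: L1 ++ T.rot x y :: L2 := by rw [e]; rfl
    obtain ⟨s1, s2, F1, F2, b1, b2, hd, hu⟩ := peel_on h h3 hb e' hxy
    obtain ⟨i1, i2⟩ := peel_on_intr h h3 hb e' s1 s2 b1 b2 hd hu
    rw [hi, Finset.subset_empty, Finset.union_eq_empty] at i1
    have hlen : (y :: L').length = L1.length + L2.length + 2 := by rw [e']; simp; omega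
    rw [hlen] at hn
    rcases Nat.lt_or_ge (T.rot x y :: L2).length 3 with c2 | c2
    · have hL2 : L2 = [x] := by
        have h1 := s2.len
        have h2 := s2.last
        simp only [List.length_cons] at h1 c2
        match L2, h1, c2, h2 with
        | [z], _, _, h2 => simp at h2; rw [h2]
      subst hL2
      rcases Nat.lt_or_ge (y :: L1 ++ [T.rot x y]).length 3 with c1 | c1
      · have hL1 : L1 = [] := by
          simp at c1
          exact List.length_eq_zero_iff.1 (by omega)
        subst hL1
        exact ⟨[], y, T.rot x y, x, [], by rw [e']; rfl, T.rot3 hxy⟩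
      · obtain ⟨A, p, v, q, B, e2, hr⟩ := ih F1 _ _ (by simp at hn ⊢; omega) c1 s1 b1 i1.1
        refine ⟨A, p, v, q, B ++ [x], ?_, hr⟩
        rw [e']
        have : y :: L1 ++ T.rot x y :: [x] = (y :: L1 ++ [T.rot x y]) ++ [x] := by simp
        rw [this, e2]; simp
    · obtain ⟨A, p, v, q, B, e2, hr⟩ := ih F2 _ _ (by simp at hn ⊢; omega) c2 s2 b2 i1.2
      refine ⟨y :: L1 ++ A, p, v, q, B, ?_, hr⟩
      rw [e', e2]; simp

/-- removing an ear -/
theorem ear_remove {x : V} {L A B : List V} {p v q : V} {F : Finset (V × V)} (h : SC T x L)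
    (h4 : 4 ≤ L.length) (hb : Bd T (x :: L) F) (hi : intr F L = ∅)
    (e : L = A ++ p :: v :: q :: B) (hr : T.rot v q = p) :
    SC T x (A ++ p :: q :: B) ∧ Bd T (x :: (A ++ p :: q :: B)) (F \ triS T v q) ∧
    intr (F \ triS T v q) (A ++ p :: q :: B) = ∅ := by
  have h3 : 3 ≤ L.length := by omega
  have eC : x :: L = (x :: A) ++ p :: v :: q :: B := by rw [e]; rfl
  obtain ⟨t1, t2⟩ := triple_mem eC
  have hvq := (edge_mem h h3 hb t2).1
  have hpv := (edge_mem h h3 hb t1).2
  have avq := hb.adj hvq
  have aqp : T.G.Adj q p := by rw [← hr]; exact T.adj_rot' avq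
  obtain ⟨g1, g2⟩ := hb.toFc.sdiff hvq
  have hsub : (A ++ p :: q :: B).Sublist L := by rw [e]; simp
  have s : SC T x (A ++ p :: q :: B) := by
    refine ⟨List.Nodup.sublist hsub h.nd, ?_, ?_, ?_⟩
    · have := h.last
      rw [e, List.getLast?_append] at this
      rw [List.getLast?_append]
      simpa [List.getLast?_cons] using this
    · have hc := h.ch
      rw [eC, List.isChain_append] at hc
      rw [← List.cons_append, List.isChain_append]
      refine ⟨hc.1, ?_, ?_⟩
      · rw [List.isChain_cons_cons]
        exact ⟨aqp.symm, (List.isChain_cons_cons.1 (List.isChain_cons_cons.1 hc.2.1).2).2⟩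
      · intro a ha b hb'
        exact hc.2.2 a ha b (by simpa using hb')
    · simp; omega
  have b : Bd T (x :: (A ++ p :: q :: B)) (F \ triS T v q) := by
    refine ⟨g1, ?_⟩
    intro u w
    rw [g2, g2]
    have e1 := hb.bdry u w
    have e2 := triF_bd (T := T) v q u w
    rw [hr] at e2
    rw [eC, bd_append (x :: A) p (v :: q :: B) u w] at e1
    rw [← List.cons_append, bd_append (x :: A) p (q :: B) u w]
    simp only [bd_cons_cons] at e1 ⊢
    have e3 := dl_swap p q u w
    linarith
  refine ⟨s, b, ?_⟩
  rw [Finset.eq_empty_iff_forall_notMem]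
  intro u hu
  rw [mem_intr] at hu
  obtain ⟨⟨w, hw⟩, hn⟩ := hu
  by_cases huv : u = v
  · subst huv
    have := (full_at s b hn hw (el_adj h.ch t1).symm).1
    exact hpv (Finset.mem_sdiff.1 this).1
  · have : u ∈ intr F L := by
      rw [mem_intr]
      refine ⟨⟨w, (Finset.mem_sdiff.1 hw).1⟩, ?_⟩
      rw [e]
      intro hc
      apply hn
      simp only [List.mem_append, List.mem_cons] at hc ⊢
      tauto
    rw [hi] at this; simp at this

theorem TR_ear (P : List V) : ∀ (P' : List W) (p v q : V) (B : List V) (p' v' q' : W) (B' : List W),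
    P ≠ [] → P.length = P'.length → T.rot v q = p → T.G.Adj v q →
    (P' ++ p' :: v' :: q' :: B').Nodup →
    TR T R k (P ++ p :: v :: q :: B) (P' ++ p' :: v' :: q' :: B') →
    TR T R k (P ++ p :: q :: B) (P' ++ p' :: q' :: B') := by
  induction P with
  | nil => intro P' p v q B p' v' q' B' h; exact absurd rfl h
  | cons o P ih =>
    intro P' p v q B p' v' q' B' _ hl hr avq hnd h
    obtain ⟨o', P', rfl⟩ : ∃ a' P'', P' = a' :: P'' := by
      cases P' with
      | nil => simp at hl
      | cons a' P'' => exact ⟨a', P'', rfl⟩
    have apv : T.G.Adj p v := by rw [← hr]; exact (T.adj_rot avq).symm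
    have apq : T.G.Adj p q := by rw [← hr]; exact (T.adj_rot' avq).symm
    have rpv : T.rot p v = q := by rw [← hr]; exact T.rot3 avq
    have rqp : T.rot q p = v := by rw [← hr]; exact T.rot_rot avq
    cases P with
    | nil =>
      have : P' = [] := by
        simp at hl; exact hl
      subst this
      simp only [List.cons_append, List.nil_append] at h hnd ⊢
      obtain ⟨t1, h2⟩ := h.tail
      obtain ⟨t2, h3⟩ := h2.tail
      -- the ear in R
      obtain ⟨i, j, c1, c2, c3, c4, c5, c6, c7, c8, c9⟩ := t2
      have hi1 : i = 1 := by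
        have e1 : (T.rot v)^[i] q = (T.rot v)^[1] q := by rw [c8]; simpa using hr.symm
        exact T.iter_inj avq c3 (by omega) e1
      have hj1 : j = 1 := by omega
      subst hi1; subst hj1
      have r1 : R.rot v' q' = p' := by simpa using c9
      have avq' := c7
      have apv' : R.G.Adj p' v' := by rw [← r1]; exact (R.adj_rot avq').symm
      have apq' : R.G.Adj p' q' := by rw [← r1]; exact (R.adj_rot' avq').symm
      have rpv' : R.rot p' v' = q' := by rw [← r1]; exact R.rot3 avq'
      have rqp' : R.rot q' p' = v' := by rw [← r1]; exact R.rot_rot avq'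
      have first : Trn T R k o p q o' p' q' := by
        obtain ⟨i, j, d1, d2, d3, d4, d5, d6, d7, d8, d9⟩ := t1
        have hj : j ≠ 1 := by
          rintro rfl
          have : q' = o' := by rw [← d9]; simp [rpv']
          subst this
          simp at hnd
        have e1 : i = (i - 1) + 1 := by omega
        have e2 : j = (j - 1) + 1 := by omega
        refine ⟨i - 1, j - 1, by omega, by omega, by omega, by omega, by omega, apq, apq', ?_, ?_⟩
        · rw [e1, Function.iterate_succ_apply, rpv] at d8; exact d8
        · rw [e2, Function.iterate_succ_apply, rpv'] at d9; exact d9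
      refine TR.cons _ _ _ _ _ _ _ _ first ?_
      match B, B', h3 with
      | [], [], _ => exact TR.two _ _ _ _
      | [], b :: B'', h3 => have := h3.length_eq; simp at this
      | b :: B'', [], h3 => have := h3.length_eq; simp at this
      | r :: B, r' :: B', h3 =>
        obtain ⟨t3, h4⟩ := h3.tail
        refine TR.cons _ _ _ _ _ _ _ _ ?_ h4
        obtain ⟨i, j, d1, d2, d3, d4, d5, d6, d7, d8, d9⟩ := t3
        have e1 : i = (i - 1) + 1 := by omega
        have e2 : j = (j - 1) + 1 := by omega
        have f1 : (T.rot q)^[i - 1] r = p := by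
          rw [e1, Function.iterate_succ_apply'] at d8
          exact T.rot_inj (T.iter_adj d6 _) apq.symm (d8.trans rqp.symm)
        have f2 : (R.rot q')^[j - 1] r' = p' := by
          rw [e2, Function.iterate_succ_apply'] at d9
          exact R.rot_inj (R.iter_adj d7 _) apq'.symm (d9.trans rqp'.symm)
        have hj : j ≠ 1 := by
          rintro rfl
          simp only [Nat.sub_self, Function.iterate_zero, id] at f2
          subst f2
          simp at hnd
        exact ⟨i - 1, j - 1, by omega, by omega, by omega, by omega, by omega, d6, d7, f1, f2⟩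
    | cons o2 P =>
      obtain ⟨o2', P', rfl⟩ : ∃ a' P'', P' = a' :: P'' := by
        cases P' with
        | nil => simp at hl
        | cons a' P'' => exact ⟨a', P'', rfl⟩
      have hnd2 : (o2' :: P' ++ p' :: v' :: q' :: B').Nodup := by
        simp only [List.cons_append] at hnd ⊢
        exact (List.nodup_cons.1 hnd).2
      have hl2 : (o2 :: P).length = (o2' :: P').length := by simpa using hl
      cases P with
      | nil =>
        have : P' = [] := by
          simp at hl; exact hl
        subst this
        simp only [List.cons_append, List.nil_append] at h ⊢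
        obtain ⟨t1, h2⟩ := h.tail
        refine TR.cons _ _ _ _ _ _ _ _ t1 ?_
        exact ih [o2'] p v q B p' v' q' B' (by simp) (by simp) hr avq (by simpa using hnd2) (by simpa using h2)
      | cons o3 P =>
        obtain ⟨o3', P', rfl⟩ : ∃ a' P'', P' = a' :: P'' := by
          cases P' with
          | nil => simp at hl
          | cons a' P'' => exact ⟨a', P'', rfl⟩
        simp only [List.cons_append] at h ⊢
        obtain ⟨t1, h2⟩ := h.tail
        refine TR.cons _ _ _ _ _ _ _ _ t1 ?_
        exact ih (o2' :: o3' :: P') p v q B p' v' q' B' (by simp) hl2 hr avq hnd2 h2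

/-- a disc without interior vertices cannot close up in `T` if it does not in `R` -/
theorem thin (n : ℕ) : ∀ (F : Finset (V × V)) (x : V) (L : List V) (x' : W) (L' : List W),
    L.length ≤ n → 3 ≤ L.length → SC T x L → Bd T (x :: L) F → intr F L = ∅ →
    TR T R k (x :: L) (x' :: L') → ¬ (x' :: L').Nodup := by
  induction n with
  | zero => intro F x L x' L' h1 h2; omega
  | succ n ih =>
    intro F x L x' L' hn h3 h hb hi htr hnd
    obtain ⟨A, p, v, q, B, e, hr⟩ := exists_ear L.length F x L le_rfl h3 h hb hi
    have eC : x :: L = (x :: A) ++ p :: v :: q :: B := by rw [e]; rfl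
    obtain ⟨t1, t2⟩ := triple_mem eC
    have avq := el_adj h.ch t2
    have hlen : L.length = L'.length := by simpa using htr.length_eq
    obtain ⟨A', B0, e', hA⟩ : ∃ A' B0, L' = A' ++ B0 ∧ A.length = A'.length :=
      ⟨L'.take A.length, L'.drop A.length, (List.take_append_drop _ _).symm, by
        rw [List.length_take]; rw [e] at hlen; simp at hlen; omega⟩
    have hB0 : B0.length = B.length + 3 := by
      rw [e, e'] at hlen; simp at hlen; omega
    obtain ⟨p', v', q', B', rfl⟩ : ∃ p' v' q' B', B0 = p' :: v' :: q' :: B' := by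
      match B0, hB0 with
      | p' :: v' :: q' :: B', _ => exact ⟨p', v', q', B', rfl⟩
    rcases Nat.lt_or_ge L.length 4 with h4 | h4
    · have hA0 : A = [] ∧ B = [] := by
        rw [e] at h4
        simp at h4
        constructor
        · apply List.length_eq_zero_iff.1; omega
        · apply List.length_eq_zero_iff.1; omega
      obtain ⟨rfl, rfl⟩ := hA0
      have hA'0 : A' = [] := List.length_eq_zero_iff.1 hA.symm
      subst hA'0
      have hB'0 : B' = [] := by apply List.length_eq_zero_iff.1; simpa using hB0
      subst hB'0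
      simp only [List.nil_append] at e e'
      subst e; subst e'
      have hqx : q = x := by have := h.last; simp at this; exact this
      subst hqx
      have apv : T.G.Adj p v := by rw [← hr]; exact (T.adj_rot avq).symm
      have rpv : T.rot p v = q := by rw [← hr]; exact T.rot3 avq
      obtain ⟨u1, h2⟩ := htr.tail
      obtain ⟨u2, _⟩ := h2.tail
      obtain ⟨i, j, c1, c2, c3, c4, c5, c6, c7, c8, c9⟩ := u2
      have hi1 : i = 1 := by
        have e1 : (T.rot v)^[i] q = (T.rot v)^[1] q := by rw [c8]; simpa using hr.symm
        exact T.iter_inj avq c3 (by omega) e1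
      have hj1 : j = 1 := by omega
      subst hi1; subst hj1
      have r1 : R.rot v' q' = p' := by simpa using c9
      have rpv' : R.rot p' v' = q' := by rw [← r1]; exact R.rot3 c7
      obtain ⟨i, j, d1, d2, d3, d4, d5, d6, d7, d8, d9⟩ := u1
      have hi1 : i = 1 := by
        have e1 : (T.rot p)^[i] v = (T.rot p)^[1] v := by rw [d8]; simpa using rpv.symm
        exact T.iter_inj apv d3 (by omega) e1
      have hj1 : j = 1 := by omega
      subst hi1; subst hj1
      simp only [Function.iterate_one] at d9
      rw [rpv'] at d9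
      subst d9
      simp at hnd
    · obtain ⟨s, b, i0⟩ := ear_remove h h4 hb hi e hr
      have htr2 : TR T R k (x :: A ++ p :: q :: B) (x' :: A' ++ p' :: q' :: B') := by
        apply TR_ear (x :: A) (x' :: A') p v q B p' v' q' B' (by simp) (by simp [hA]) hr avq
        · simpa [e'] using hnd
        · simpa [e, e'] using htr
      apply ih _ x (A ++ p :: q :: B) x' (A' ++ p' :: q' :: B') _ _ s b i0 htr2
      · apply List.Nodup.sublist _ hnd
        rw [e']; simp
      · rw [e] at hn; simp at hn ⊢; omega
      · rw [e] at h4; simp at h4 ⊢; omega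

end Run7.h63
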