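import Pool.Agent.Run7.h63.Chains

set_option linter.unusedSectionVars false
set_option linter.unusedSimpArgs false

open Finset

namespace Run7.h63

variable {V : Type*} [DecidableEq V] {T : PT V}

/-- finite sets of darts closed under the face rotation (finite sets of faces) -/
structure Fc (T : PT V) (F : Finset (V × V)) : Prop where
  adj : ∀ {u v}, (u, v) ∈ F → T.G.Adj u v
  inv : ∀ {u v}, (u, v) ∈ F → (v, T.rot u v) ∈ F

def ind (F : Finset (V × V)) (u v : V) : ℤ := if (u, v) ∈ F then 1 else 0

theorem ind_pos {F : Finset (V × V)} {u v : V} (h : (u, v) ∈ F) : ind F u v = 1 := if_pos h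
theorem ind_neg {F : Finset (V × V)} {u v : V} (h : (u, v) ∉ F) : ind F u v = 0 := if_neg h
theorem ind_01 (F : Finset (V × V)) (u v : V) : ind F u v = 0 ∨ ind F u v = 1 := by
  unfold ind; split_ifs <;> simp
theorem mem_of_ind {F : Finset (V × V)} {u v : V} (h : ind F u v = 1) : (u, v) ∈ F := by
  by_contra hc; rw [ind_neg hc] at h; cases h
theorem ind_nonneg (F : Finset (V × V)) (u v : V) : 0 ≤ ind F u v := by
  rcases ind_01 F u v with h | h <;> rw [h]; norm_num
theorem ind_le_one (F : Finset (V × V)) (u v : V) : ind F u v ≤ 1 := by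
  rcases ind_01 F u v with h | h <;> rw [h]; norm_num

theorem Fc.inv' {F : Finset (V × V)} (h : Fc T F) {u v : V} (ha : T.G.Adj u v)
    (h1 : (v, T.rot u v) ∈ F) : (u, v) ∈ F := by
  have h2 := h.inv h1
  rw [T.rot_rot ha] at h2
  have h3 := h.inv h2
  rwa [T.rot3 ha] at h3

theorem Fc.back {F : Finset (V × V)} (h : Fc T F) {u v : V} (h1 : (u, v) ∈ F) :
    (T.rot u v, u) ∈ F := by
  have h2 := h.inv (h.inv h1)
  rwa [T.rot_rot (h.adj h1)] at h2

theorem Fc.ff {F : Finset (V × V)} (h : Fc T F) : FF T (ind F) := by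
  refine ⟨?_, ?_, ?_⟩
  · apply F.finite_toSet.subset
    rintro ⟨u, v⟩ h1
    simp only [Set.mem_ofPred_eq] at h1
    by_contra hc
    exact h1 (ind_neg hc)
  · intro u v h1
    exact ind_neg (fun h2 => h1 (h.adj h2))
  · intro u v ha
    by_cases h1 : (u, v) ∈ F
    · rw [ind_pos h1, ind_pos (h.inv h1)]
    · rw [ind_neg h1, ind_neg (fun h2 => h1 (h.inv' ha h2))]

structure Bd (T : PT V) (C : List V) (F : Finset (V × V)) : Prop extends Fc T F where
  bdry : ∀ u v, ind F u v - ind F v u = bd C u v

theorem Fc.eq_empty {F : Finset (V × V)} (h : Fc T F) (h0 : ∀ u v, ind F u v - ind F v u = 0) :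
    F = ∅ := by
  rw [Finset.eq_empty_iff_forall_notMem]
  rintro ⟨u, v⟩ h1
  have := h.ff.eq_zero (fun u v => by have := h0 u v; linarith) u v
  rw [ind_pos h1] at this
  cases this

theorem SC.bd_two {x : V} {L : List V} (h : SC T x L) (h2 : L.length = 2) (u v : V) :
    bd (x :: L) u v = 0 := by
  match L, h2, h with
  | [a, b], _, h =>
    have := h.last
    simp at this
    subst this
    simp only [bd_cons_cons, bd_single]
    have := dl_swap b a u v
    linarith

theorem Fc_empty : Fc T ∅ := ⟨fun h => by simp at h, fun h => by simp at h⟩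

theorem jordan {x : V} {L : List V} (h : SC T x L) : (∃ F, Bd T (x :: L) F) ∨
    (3 ≤ L.length ∧ ∃ F, Fc T F ∧ ∀ u v, ind F u v - ind F v u = - bd (x :: L) u v) := by
  rcases Nat.lt_or_ge L.length 3 with h3 | h3
  · left
    refine ⟨∅, Fc_empty, fun u v => ?_⟩
    rw [h.bd_two (by have := h.len; omega)]
    simp [ind]
  obtain ⟨f, hf, hfb⟩ := exists_ff h
  obtain ⟨y, L', rfl⟩ : ∃ y L', L = y :: L' := by
    cases L with
    | nil => simp at h3
    | cons y L' => exact ⟨y, L', rfl⟩
  set t := f x y with ht
  have hc : ∀ u v, (u, v) ∈ el (x :: y :: L') → f u v = t := by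
    apply const_along
    intro A p v q B e
    obtain ⟨e1, e2⟩ := triple_mem e
    have a1 := el_adj h.ch e1
    have a2 := el_adj h.ch e2
    obtain ⟨a, _, _, _, _, h5⟩ := rot_const hf.inv a1.symm a2 (h.triple_ne h3 e)
      (fun w _ hp hq => by have := h.triple_bd e hp hq; have := hfb v w; linarith)
    exact h5
  have hxy : T.G.Adj x y := (List.isChain_cons_cons.1 h.ch).1
  have hval : ∀ u v, T.G.Adj u v → (f u v - t) * (f u v - t + 1) = 0 := by
    intro u v huv
    have e := const_of_symm (T := T) (fun u v => (f u v - t) * (f u v - t + 1)) (fun u v ha => by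
      simp only [hf.inv u v ha]) (fun u v ha => by
        have hb := hfb u v
        rw [h.bd_eq] at hb
        by_cases h1 : (u, v) ∈ el (x :: y :: L')
        · have h2 := h.no_rev h3 h1
          rw [if_pos h1, if_neg h2] at hb
          have h3 := hc u v h1
          have : f v u = t - 1 := by linarith
          rw [h3, this]; ring
        · by_cases h2 : (v, u) ∈ el (x :: y :: L')
          · rw [if_neg h1, if_pos h2] at hb
            have h3 := hc v u h2
            have : f u v = t - 1 := by linarith
            rw [h3, this]; ring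
          · rw [if_neg h1, if_neg h2] at hb
            have : f u v = f v u := by linarith
            rw [this]) huv hxy
    rw [e]; simp [ht]
  obtain ⟨u0, v0, ha0, hz⟩ := hf.exists_zero
  have ht01 : t = 0 ∨ t = 1 := by
    have := hval u0 v0 ha0
    rw [hz] at this
    rcases mul_eq_zero.1 this with h1 | h1
    · left; linarith
    · right; linarith
  have hvals : ∀ u v, T.G.Adj u v → f u v = t ∨ f u v = t - 1 := by
    intro u v ha
    rcases mul_eq_zero.1 (hval u v ha) with h1 | h1
    · left; linarith
    · right; linarith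
  set F : Finset (V × V) := hf.fin.toFinset with hF
  have memF : ∀ u v, (u, v) ∈ F ↔ f u v ≠ 0 := by
    intro u v; rw [hF]; simp
  have hFc : Fc T F := by
    refine ⟨?_, ?_⟩
    · intro u v h1
      rw [memF] at h1
      by_contra hc; exact h1 (hf.nadj u v hc)
    · intro u v h1
      rw [memF] at h1 ⊢
      rw [hf.inv u v]
      · exact h1
      · by_contra hc; exact h1 (hf.nadj u v hc)
  rcases ht01 with ht0 | ht1
  · right
    refine ⟨h3, F, hFc, ?_⟩
    have hi : ∀ u v, ind F u v = - f u v := by
      intro u v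
      by_cases h1 : (u, v) ∈ F
      · rw [ind_pos h1]
        have h2 := (memF u v).1 h1
        have ha := hFc.adj h1
        rcases hvals u v ha with h4 | h4
        · rw [ht0] at h4; exact absurd h4 h2
        · rw [h4, ht0]; ring
      · rw [ind_neg h1]
        rw [memF] at h1
        push Not at h1
        rw [h1]; ring
    intro u v
    rw [hi, hi, ← hfb u v]; ring
  · left
    refine ⟨F, hFc, ?_⟩
    have hi : ∀ u v, ind F u v = f u v := by
      intro u v
      by_cases h1 : (u, v) ∈ F
      · rw [ind_pos h1]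
        have h2 := (memF u v).1 h1
        have ha := hFc.adj h1
        rcases hvals u v ha with h4 | h4
        · rw [h4, ht1]
        · rw [ht1] at h4
          exact absurd (h4.trans (by norm_num)) h2
      · rw [ind_neg h1]
        rw [memF] at h1
        push Not at h1
        exact h1.symm
    intro u v
    rw [hi, hi, hfb u v]

/-! ### removing a triangle -/

def triS (T : PT V) (a b : V) : Finset (V × V) := {(a, b), (b, T.rot a b), (T.rot a b, a)}

theorem mem_triS {a b u v : V} : (u, v) ∈ triS T a b ↔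
    (u = a ∧ v = b) ∨ (u = b ∧ v = T.rot a b) ∨ (u = T.rot a b ∧ v = a) := by
  simp [triS]

theorem triS_card {a b : V} (h : T.G.Adj a b) : (triS T a b).card = 3 := by
  have h1 := h.ne
  have h2 := (T.adj_rot h).ne
  have h3 := (T.adj_rot' h).ne
  unfold triS
  rw [card_insert_of_notMem, card_insert_of_notMem, card_singleton]
  · simp only [mem_singleton, Prod.mk.injEq, not_and]
    intro h4; exact absurd h4 h3
  · simp only [mem_insert, mem_singleton, Prod.mk.injEq, not_or, not_and]
    exact ⟨fun h4 => absurd h4 h1, fun h4 => absurd h4 h2⟩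

theorem ind_triS {a b : V} (h : T.G.Adj a b) (u v : V) : ind (triS T a b) u v = triF T a b u v := by
  have h1 := h.ne
  have h2 := (T.adj_rot h).ne
  have h3 := (T.adj_rot' h).ne
  unfold ind triF iota
  simp only [mem_triS]
  by_cases c1 : u = a ∧ v = b
  · have c2 : ¬ (u = b ∧ v = T.rot a b) := fun hh => h1 (c1.1.symm.trans hh.1)
    have c3 : ¬ (u = T.rot a b ∧ v = a) := fun hh => h1 (hh.2.symm.trans c1.2)
    simp only [c1, c2, c3, true_or, if_true, if_false]
    have c2' : ¬ (a = b ∧ b = T.rot a b) := fun hh => h1 hh.1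
    have c3' : ¬ (a = T.rot a b ∧ b = a) := fun hh => h1 hh.2.symm
    simp [c2', c3']
  · by_cases c2 : u = b ∧ v = T.rot a b
    · have c3 : ¬ (u = T.rot a b ∧ v = a) := fun hh => h3 (c2.1.symm.trans hh.1)
      simp [c1, c2, c3, h3, h1.symm]
    · by_cases c3 : u = T.rot a b ∧ v = a
      · simp [c1, c2, c3, h2.symm, h3.symm]
      · simp [c1, c2, c3]

theorem Fc.tri_sub {F : Finset (V × V)} (h : Fc T F) {a b : V} (hab : (a, b) ∈ F) :
    triS T a b ⊆ F := by
  rintro ⟨u, v⟩ h1
  rw [mem_triS] at h1
  rcases h1 with ⟨rfl, rfl⟩ | ⟨rfl, rfl⟩ | ⟨rfl, rfl⟩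
  · exact hab
  · exact h.inv hab
  · exact h.back hab

theorem Fc.sdiff {F : Finset (V × V)} (h : Fc T F) {a b : V} (hab : (a, b) ∈ F) :
    Fc T (F \ triS T a b) ∧ ∀ u v, ind (F \ triS T a b) u v = ind F u v - triF T a b u v := by
  have hadj := h.adj hab
  have hi : ∀ u v, ind (F \ triS T a b) u v = ind F u v - triF T a b u v := by
    intro u v
    rw [← ind_triS hadj]
    by_cases h1 : (u, v) ∈ triS T a b
    · rw [ind_pos h1, ind_pos (h.tri_sub hab h1), ind_neg (by simp [h1])]; ring
    · rw [ind_neg h1]
      by_cases h2 : (u, v) ∈ F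
      · rw [ind_pos h2, ind_pos (by simp [h1, h2])]; ring
      · rw [ind_neg h2, ind_neg (by simp [h2])]; ring
  refine ⟨⟨?_, ?_⟩, hi⟩
  · intro u v h1
    exact h.adj (Finset.mem_sdiff.1 h1).1
  · intro u v h1
    have h2 := h.adj (Finset.mem_sdiff.1 h1).1
    apply mem_of_ind
    rw [hi, h.ff.inv u v h2, (triF_FF hadj).inv u v h2, ← hi, ind_pos h1]

theorem base_mem {x y : V} {L : List V} {F : Finset (V × V)} (h : SC T x (y :: L))
    (h3 : 3 ≤ (y :: L).length) (hb : Bd T (x :: y :: L) F) : (x, y) ∈ F ∧ (y, x) ∉ F := by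
  have h1 := hb.bdry x y
  rw [h.bd_edge h3 (by simp)] at h1
  have := ind_01 F x y
  have := ind_01 F y x
  constructor
  · apply mem_of_ind; omega
  · intro hc; rw [ind_pos hc] at h1; omega

theorem edge_mem {x : V} {L : List V} {F : Finset (V × V)} (h : SC T x L)
    (h3 : 3 ≤ L.length) (hb : Bd T (x :: L) F) {u v : V} (he : (u, v) ∈ el (x :: L)) :
    (u, v) ∈ F ∧ (v, u) ∉ F := by
  have h1 := hb.bdry u v
  rw [h.bd_edge h3 he] at h1
  have := ind_01 F u v
  have := ind_01 F v u
  constructor
  · apply mem_of_ind; omega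
  · intro hc; rw [ind_pos hc] at h1; omega

/-- peeling, case where the third vertex is off the cycle -/
theorem peel_off {x y : V} {L : List V} {F : Finset (V × V)} (h : SC T x (y :: L))
    (h3 : 3 ≤ (y :: L).length) (hb : Bd T (x :: y :: L) F) (hw : T.rot x y ∉ y :: L) :
    SC T x (T.rot x y :: y :: L) ∧ Bd T (x :: T.rot x y :: y :: L) (F \ triS T x y) := by
  have hxy : T.G.Adj x y := (List.isChain_cons_cons.1 h.ch).1
  have hm := (base_mem h h3 hb).1
  obtain ⟨h1, h2⟩ := hb.toFc.sdiff hm
  refine ⟨⟨?_, ?_, ?_, ?_⟩, h1, ?_⟩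
  · exact List.nodup_cons.2 ⟨hw, h.nd⟩
  · rw [List.getLast?_cons, h.last]; rfl
  · rw [List.isChain_cons_cons, List.isChain_cons_cons]
    exact ⟨T.adj_rot hxy, (T.adj_rot' hxy).symm, (List.isChain_cons_cons.1 h.ch).2⟩
  · simp
  · intro u v
    rw [h2, h2]
    have e1 := hb.bdry u v
    have e2 := triF_bd (T := T) x y u v
    simp only [bd_cons_cons] at e1 ⊢
    have e3 := dl_swap y (T.rot x y) u v
    have e4 := dl_swap x (T.rot x y) u v
    linarith

/-- peeling, case where the third vertex is on the cycle -/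
theorem peel_on {x y : V} {L L1 L2 : List V} {F : Finset (V × V)} (h : SC T x L)
    (h3 : 3 ≤ L.length) (hb : Bd T (x :: L) F) (e : L = y :: L1 ++ T.rot x y :: L2)
    (hxy : T.G.Adj x y) :
    SC T (T.rot x y) (y :: L1 ++ [T.rot x y]) ∧ SC T x (T.rot x y :: L2) ∧
    ∃ F1 F2, Bd T (T.rot x y :: (y :: L1 ++ [T.rot x y])) F1 ∧ Bd T (x :: T.rot x y :: L2) F2 ∧
      Disjoint F1 F2 ∧ F \ triS T x y = F1 ∪ F2 := by
  set w := T.rot x y with hw
  have hxw : T.G.Adj x w := T.adj_rot hxy
  have hyw : T.G.Adj y w := T.adj_rot' hxy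
  have hL2 : L2 ≠ [] := by
    rintro rfl
    have := h.last
    rw [e, List.getLast?_append] at this
    simp at this
    exact hxw.ne this.symm
  have hch : (x :: (y :: L1 ++ w :: L2)).IsChain T.G.Adj := by rw [← e]; exact h.ch
  have s1 : SC T w (y :: L1 ++ [w]) := by
    refine ⟨?_, ?_, ?_, ?_⟩
    · have := h.nd
      rw [e] at this
      exact List.Nodup.sublist (by simp) this
    · rw [List.getLast?_append]; simp
    · rw [List.cons_append, List.isChain_cons_cons]
      refine ⟨hyw.symm, ?_⟩
      have h5 : (y :: L1 ++ w :: L2).IsChain T.G.Adj := (List.isChain_cons_cons.1 hch).2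
      have : y :: L1 ++ w :: L2 = (y :: (L1 ++ [w])) ++ L2 := by simp
      rw [this] at h5
      exact (List.isChain_append.1 h5).1
    · simp
  have s2 : SC T x (w :: L2) := by
    refine ⟨?_, ?_, ?_, ?_⟩
    · have := h.nd
      rw [e] at this
      exact List.Nodup.sublist (List.sublist_append_right _ _) this
    · have := h.last
      rw [e, List.getLast?_append] at this
      rw [List.getLast?_cons] at this ⊢
      simpa using this
    · rw [List.isChain_cons_cons]
      refine ⟨hxw, ?_⟩
      have h5 : (y :: L1 ++ w :: L2).IsChain T.G.Adj := (List.isChain_cons_cons.1 hch).2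
      exact (List.isChain_append.1 h5).2.1
    · have := List.length_pos_of_ne_nil hL2
      simp; omega
  refine ⟨s1, s2, ?_⟩
  have e' : x :: L = x :: y :: (L1 ++ w :: L2) := by rw [e]; rfl
  have hm : (x, y) ∈ F := (edge_mem h h3 hb (by rw [e']; simp)).1
  obtain ⟨g1, g2⟩ := hb.toFc.sdiff hm
  have gb : ∀ u v, ind (F \ triS T x y) u v - ind (F \ triS T x y) v u =
      bd (w :: (y :: L1 ++ [w])) u v + bd (x :: w :: L2) u v := by
    intro u v
    rw [g2, g2]
    have e1 := hb.bdry u v
    have e2 := triF_bd (T := T) x y u v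
    rw [e'] at e1
    have e5 := bd_append (y :: L1) w L2 u v
    simp only [List.cons_append] at e5
    simp only [bd_cons_cons, List.cons_append] at e1 ⊢
    rw [e5] at e1
    have e3 := dl_swap y (T.rot x y) u v
    have e4 := dl_swap x (T.rot x y) u v
    rw [← hw] at e2 e3 e4
    linarith
  -- membership facts
  have my : (y, w) ∉ F \ triS T x y := by
    rw [Finset.mem_sdiff, mem_triS]; simp [← hw]
  have mw : (w, x) ∉ F \ triS T x y := by
    rw [Finset.mem_sdiff, mem_triS]; simp [← hw]
  have ew : T.rot y w = x := T.rot_rot hxy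
  have ex : T.rot w x = y := T.rot3 hxy
  have b1 : 3 ≤ (y :: L1 ++ [w]).length → bd (w :: (y :: L1 ++ [w])) w y = 1 := fun hl =>
    s1.bd_edge hl (by simp)
  have b2 : 3 ≤ (w :: L2).length → bd (x :: w :: L2) x w = 1 := fun hl =>
    s2.bd_edge hl (by simp)
  -- for a good F1: (y,w) is not in F1
  have good1 : ∀ F1, Bd T (w :: (y :: L1 ++ [w])) F1 → (y, w) ∉ F1 := by
    intro F1 hF1 hc
    rcases Nat.lt_or_ge (y :: L1 ++ [w]).length 3 with hl | hl
    · have : F1 = ∅ := hF1.toFc.eq_empty (fun u v => by
        rw [hF1.bdry, s1.bd_two (by have := s1.len; omega)])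
      rw [this] at hc; simp at hc
    · have := hF1.bdry w y
      rw [b1 hl, ind_pos hc] at this
      have := ind_le_one F1 w y
      omega
  have good2 : ∀ F2, Bd T (x :: w :: L2) F2 → (w, x) ∉ F2 := by
    intro F2 hF2 hc
    rcases Nat.lt_or_ge (w :: L2).length 3 with hl | hl
    · have : F2 = ∅ := hF2.toFc.eq_empty (fun u v => by
        rw [hF2.bdry, s2.bd_two (by have := s2.len; omega)])
      rw [this] at hc; simp at hc
    · have := hF2.bdry x w
      rw [b2 hl, ind_pos hc] at this
      have := ind_le_one F2 x w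
      omega
  rcases jordan s1 with ⟨F1, hF1⟩ | ⟨hl1, F1, hF1, hF1b⟩
  · rcases jordan s2 with ⟨F2, hF2⟩ | ⟨hl2, F2, hF2, hF2b⟩
    · -- good case
      have key : ∀ u v, ind (F \ triS T x y) u v = ind F1 u v + ind F2 u v := by
        intro u v
        have := ((g1.ff.add hF1.toFc.ff.neg).add hF2.toFc.ff.neg).eq_zero (fun u v => by
          have h1 := gb u v
          have h2 := hF1.bdry u v
          have h3 := hF2.bdry u v
          linarith) u v
        linarith
      refine ⟨F1, F2, hF1, hF2, ?_, ?_⟩
      · rw [Finset.disjoint_left]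
        rintro ⟨u, v⟩ m1 m2
        have := key u v
        rw [ind_pos m1, ind_pos m2] at this
        have := ind_le_one (F \ triS T x y) u v
        omega
      · ext ⟨u, v⟩
        rw [Finset.mem_union]
        constructor
        · intro m
          have h1 := key u v
          rw [ind_pos m] at h1
          rcases ind_01 F1 u v with h2 | h2
          · right; apply mem_of_ind; omega
          · left; exact mem_of_ind h2
        · intro m
          apply mem_of_ind
          have h1 := key u v
          have h2 := ind_nonneg F1 u v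
          have h3 := ind_nonneg F2 u v
          have h4 := ind_le_one (F \ triS T x y) u v
          rcases m with m | m
          · rw [ind_pos m] at h1; omega
          · rw [ind_pos m] at h1; omega
    · exfalso
      have key : ∀ u v, ind (F \ triS T x y) u v = ind F1 u v - ind F2 u v := by
        intro u v
        have := ((g1.ff.add hF1.toFc.ff.neg).add hF2.ff).eq_zero (fun u v => by
          have h1 := gb u v
          have h2 := hF1.bdry u v
          have h3 := hF2b u v
          linarith) u v
        linarith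
      have h1 := hF2b x w
      rw [b2 hl2] at h1
      have m2 : (w, x) ∈ F2 := by
        apply mem_of_ind
        have := ind_nonneg F2 x w
        have := ind_le_one F2 w x
        omega
      have h2 := key w x
      rw [ind_neg mw, ind_pos m2] at h2
      have m1 : (w, x) ∈ F1 := by apply mem_of_ind; omega
      have m1' := hF1.toFc.inv m1
      rw [ex] at m1'
      have m1'' := hF1.toFc.inv m1'
      exact good1 F1 hF1 m1''
  · rcases jordan s2 with ⟨F2, hF2⟩ | ⟨hl2, F2, hF2, hF2b⟩
    · exfalso
      have key : ∀ u v, ind (F \ triS T x y) u v = ind F2 u v - ind F1 u v := by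
        intro u v
        have := ((g1.ff.add hF2.toFc.ff.neg).add hF1.ff).eq_zero (fun u v => by
          have h1 := gb u v
          have h2 := hF2.bdry u v
          have h3 := hF1b u v
          linarith) u v
        linarith
      have h1 := hF1b w y
      rw [b1 hl1] at h1
      have m2 : (y, w) ∈ F1 := by
        apply mem_of_ind
        have := ind_nonneg F1 w y
        have := ind_le_one F1 y w
        omega
      have h2 := key y w
      rw [ind_neg my, ind_pos m2] at h2
      have m1 : (y, w) ∈ F2 := by apply mem_of_ind; omega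
      have m1' := hF2.toFc.inv m1
      rw [ew] at m1'
      exact good2 F2 hF2 m1'
    · exfalso
      have key : ∀ u v, ind (F \ triS T x y) u v = - ind F2 u v - ind F1 u v := by
        intro u v
        have := ((g1.ff.add hF2.ff).add hF1.ff).eq_zero (fun u v => by
          have h1 := gb u v
          have h2 := hF2b u v
          have h3 := hF1b u v
          linarith) u v
        linarith
      have h1 := hF1b w y
      rw [b1 hl1] at h1
      have m2 : (y, w) ∈ F1 := by
        apply mem_of_ind
        have := ind_nonneg F1 w y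
        have := ind_le_one F1 y w
        omega
      have h2 := key y w
      rw [ind_neg my, ind_pos m2] at h2
      have := ind_nonneg F2 y w
      omega

/-! ### interior vertices and the Gauss-Bonnet inequality -/

/-- interior vertices -/
def intr (F : Finset (V × V)) (L : List V) : Finset V := (F.image Prod.fst).filter (fun u => u ∉ L)

theorem mem_intr {F : Finset (V × V)} {L : List V} {u : V} :
    u ∈ intr F L ↔ (∃ v, (u, v) ∈ F) ∧ u ∉ L := by
  simp [intr]

theorem full_at {x : V} {L : List V} {F : Finset (V × V)} (h : SC T x L) (hb : Bd T (x :: L) F)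
    {u v : V} (hu : u ∉ L) (huv : (u, v) ∈ F) {w : V} (hw : T.G.Adj u w) :
    (u, w) ∈ F ∧ (w, u) ∈ F := by
  have hsym : ∀ w, ind F u w = ind F w u := by
    intro w
    have := hb.bdry u w
    rw [h.bd_off hu] at this
    linarith
  have h1 : ∀ {w}, T.G.Adj u w → ind F u (T.rot u w) = ind F u w := by
    intro w hw
    rw [hsym, FF.rot _ hb.toFc.ff.inv hw]
  have ha := hb.adj huv
  obtain ⟨n, hn⟩ := T.orbit ha hw
  have : ∀ n, ind F u ((T.rot u)^[n] v) = ind F u v := by
    intro n
    induction n with
    | zero => rfl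
    | succ n ih => rw [Function.iterate_succ_apply', h1 (T.iter_adj ha n), ih]
  have h2 := this n
  rw [hn, ind_pos huv] at h2
  exact ⟨mem_of_ind h2, mem_of_ind (by rw [← hsym]; exact h2)⟩

theorem exists_in_edge {x : V} {L : List V} {u : V} (hu : u ∈ L) : ∃ p, (p, u) ∈ el (x :: L) := by
  have : u ∈ (el (x :: L)).map Prod.snd := by rw [el_map_snd]; exact hu
  obtain ⟨⟨p, q⟩, h1, h2⟩ := List.mem_map.1 this
  simp at h2; subst h2
  exact ⟨p, h1⟩

/-- a vertex on the cycle has a dart outside -/
theorem not_full {x : V} {L : List V} {F : Finset (V × V)} (h : SC T x L) (h3 : 3 ≤ L.length)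
    (hb : Bd T (x :: L) F) {u : V} (hu : u ∈ L) : ∃ p, T.G.Adj u p ∧ (u, p) ∉ F := by
  obtain ⟨p, hp⟩ := exists_in_edge (x := x) hu
  exact ⟨p, (el_adj h.ch hp).symm, (edge_mem h h3 hb hp).2⟩

theorem peel_on_intr {x y : V} {L L1 L2 : List V} {F F1 F2 : Finset (V × V)} (h : SC T x L)
    (h3 : 3 ≤ L.length) (hb : Bd T (x :: L) F) (e : L = y :: L1 ++ T.rot x y :: L2)
    (s1 : SC T (T.rot x y) (y :: L1 ++ [T.rot x y])) (s2 : SC T x (T.rot x y :: L2))
    (b1 : Bd T (T.rot x y :: (y :: L1 ++ [T.rot x y])) F1) (b2 : Bd T (x :: T.rot x y :: L2) F2)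
    (hd : Disjoint F1 F2) (hu : F \ triS T x y = F1 ∪ F2) :
    intr F1 (y :: L1 ++ [T.rot x y]) ∪ intr F2 (T.rot x y :: L2) ⊆ intr F L ∧
    Disjoint (intr F1 (y :: L1 ++ [T.rot x y])) (intr F2 (T.rot x y :: L2)) := by
  have sub1 : F1 ⊆ F := fun a ha => (Finset.mem_sdiff.1 (hu ▸ Finset.mem_union_left F2 ha)).1
  have sub2 : F2 ⊆ F := fun a ha => (Finset.mem_sdiff.1 (hu ▸ Finset.mem_union_right F1 ha)).1
  constructor
  · intro u hu'
    rw [Finset.mem_union, mem_intr, mem_intr] at hu'
    rw [mem_intr]
    rcases hu' with ⟨⟨v, hv⟩, hn⟩ | ⟨⟨v, hv⟩, hn⟩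
    · refine ⟨⟨v, sub1 hv⟩, ?_⟩
      intro hL
      obtain ⟨p, hp, hpF⟩ := not_full h h3 hb hL
      exact hpF (sub1 (full_at s1 b1 hn hv hp).1)
    · refine ⟨⟨v, sub2 hv⟩, ?_⟩
      intro hL
      obtain ⟨p, hp, hpF⟩ := not_full h h3 hb hL
      exact hpF (sub2 (full_at s2 b2 hn hv hp).1)
  · rw [Finset.disjoint_left]
    intro u h1 h2
    rw [mem_intr] at h1 h2
    obtain ⟨⟨v, hv⟩, hn⟩ := h1
    obtain ⟨⟨v', hv'⟩, hn'⟩ := h2
    have := (full_at s1 b1 hn hv (b2.adj hv')).1
    exact Finset.disjoint_left.1 hd this hv'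

/-- Gauss-Bonnet inequality for disks. -/
theorem gb (n : ℕ) : ∀ (F : Finset (V × V)) (x : V) (L : List V), F.card ≤ n → SC T x L →
    Bd T (x :: L) F → F.card + 6 ≤ 3 * L.length + 6 * (intr F L).card := by
  induction n with
  | zero =>
    intro F x L hF h hb
    have := h.len
    omega
  | succ n ih =>
    intro F x L hF h hb
    rcases Nat.lt_or_ge L.length 3 with h3 | h3
    · have : F = ∅ := hb.toFc.eq_empty (fun u v => by
        rw [hb.bdry, h.bd_two (by have := h.len; omega)])
      subst this
      have := h.len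
      simp; omega
    obtain ⟨y, L', rfl⟩ : ∃ y L', L = y :: L' := by
      cases L with
      | nil => simp at h3
      | cons y L' => exact ⟨y, L', rfl⟩
    have hxy : T.G.Adj x y := (List.isChain_cons_cons.1 h.ch).1
    have hm := (base_mem h h3 hb).1
    have hcard : (F \ triS T x y).card + 3 = F.card := by
      rw [← triS_card hxy]
      exact Finset.card_sdiff_add_card_eq_card (hb.toFc.tri_sub hm)
    by_cases hw : T.rot x y ∈ y :: L'
    · have hwy : T.rot x y ≠ y := (T.adj_rot' hxy).ne'
      have hw' : T.rot x y ∈ L' := by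
        rcases List.mem_cons.1 hw with h1 | h1
        · exact absurd h1 hwy
        · exact h1
      obtain ⟨L1, L2, e⟩ := List.append_of_mem hw'
      have e' : y :: L' = y :: L1 ++ T.rot x y :: L2 := by rw [e]; rfl
      obtain ⟨s1, s2, F1, F2, b1, b2, hd, hu⟩ := peel_on h h3 hb e' hxy
      obtain ⟨i1, i2⟩ := peel_on_intr h h3 hb e' s1 s2 b1 b2 hd hu
      have c1 : F1.card + F2.card = (F \ triS T x y).card := by
        rw [hu, Finset.card_union_of_disjoint hd]
      have g1 := ih F1 _ _ (by omega) s1 b1
      have g2 := ih F2 _ _ (by omega) s2 b2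
      have c2 := Finset.card_le_card i1
      rw [Finset.card_union_of_disjoint i2] at c2
      have l1 : (y :: L').length = L1.length + L2.length + 2 := by
        rw [e']; simp; omega
      simp only [List.length_cons, List.length_append, List.length_nil] at g1 g2 l1 ⊢
      omega
    · obtain ⟨s, b⟩ := peel_off h h3 hb hw
      have g := ih _ _ _ (by omega) s b
      have hsub : intr (F \ triS T x y) (T.rot x y :: y :: L') ⊆ (intr F (y :: L')).erase (T.rot x y) := by
        intro u hu
        rw [mem_intr] at hu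
        rw [Finset.mem_erase, mem_intr]
        obtain ⟨⟨v, hv⟩, hn⟩ := hu
        rw [List.mem_cons, not_or] at hn
        exact ⟨hn.1, ⟨v, (Finset.mem_sdiff.1 hv).1⟩, hn.2⟩
      have hwi : T.rot x y ∈ intr F (y :: L') := by
        rw [mem_intr]
        exact ⟨⟨x, hb.toFc.back hm⟩, hw⟩
      have c := Finset.card_le_card hsub
      rw [Finset.card_erase_of_mem hwi] at c
      have c' := Finset.card_pos.2 ⟨_, hwi⟩
      simp only [List.length_cons] at g ⊢
      omega

end Run7.h63
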