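import Pool.Agent.Run7.h63.Sum

set_option linter.unusedSectionVars false
set_option linter.unusedSimpArgs false
set_option linter.unusedVariables false
set_option maxHeartbeats 400000

open Finset Filter

namespace Run7.h63

variable {V W : Type*} [DecidableEq V] [DecidableEq W]

theorem pow_bound (S : ℕ → ℝ) (c : ℝ) (N : ℕ) (hN : 1 ≤ N) (hc : 0 ≤ c) (hS : 1 ≤ S N)
    (h : ∀ n, N ≤ n → S n * c ≤ 4 * S (n + N)) (z : ℝ) (hz : 0 ≤ z) (M : ℕ)
    (hM : ∀ m, M ≤ m → S m ≤ z ^ m) : c ≤ 4 * z ^ N := by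
  have h1 : ∀ q : ℕ, c ^ q ≤ 4 ^ q * S (N * (q + 1)) := by
    intro q
    induction q with
    | zero => simpa using hS
    | succ q ih =>
      have h2 := h (N * (q + 1)) (by nlinarith)
      have e : N * (q + 1) + N = N * (q + 1 + 1) := by ring
      rw [e] at h2
      calc c ^ (q + 1) = c ^ q * c := pow_succ _ _
        _ ≤ (4 ^ q * S (N * (q + 1))) * c := mul_le_mul_of_nonneg_right ih hc
        _ = 4 ^ q * (S (N * (q + 1)) * c) := by ring
        _ ≤ 4 ^ q * (4 * S (N * (q + 1 + 1))) := mul_le_mul_of_nonneg_left h2 (by positivity)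
        _ = _ := by rw [pow_succ]; ring
  by_contra hcon
  push Not at hcon
  rcases hz.eq_or_lt with hz0 | hz0
  · -- z = 0
    have h2 := h1 M
    have h3 := hM (N * (M + 1)) (by nlinarith)
    rw [← hz0, zero_pow (by positivity)] at h3 hcon
    have h4 : 0 < c := by linarith
    have h5 : 0 < c ^ M := by positivity
    have h6 : (4:ℝ) ^ M * S (N * (M + 1)) ≤ 0 := mul_nonpos_of_nonneg_of_nonpos (by positivity) h3
    linarith
  · set r := c / (4 * z ^ N) with hr
    have hz1 : 0 < 4 * z ^ N := by positivity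
    have hr1 : 1 < r := by rw [hr, one_lt_div hz1]; exact hcon
    obtain ⟨q, hq⟩ := ((tendsto_pow_atTop_atTop_of_one_lt hr1).eventually_gt_atTop (z ^ N)).and
      (eventually_ge_atTop M) |>.exists
    obtain ⟨hq1, hq2⟩ := hq
    have h2 := h1 q
    have h3 := hM (N * (q + 1)) (by nlinarith)
    have h4 : c ^ q ≤ (4 * z ^ N) ^ q * z ^ N := by
      calc c ^ q ≤ 4 ^ q * S (N * (q + 1)) := h2
        _ ≤ 4 ^ q * z ^ (N * (q + 1)) := mul_le_mul_of_nonneg_left h3 (by positivity)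
        _ = _ := by rw [mul_pow, ← pow_mul, mul_add, pow_add, mul_one]; ring
    have h5 : r ^ q ≤ z ^ N := by
      rw [hr, div_pow, div_le_iff₀ (by positivity)]
      linarith
    linarith

theorem rpow_lt_imp {a : ℕ} {z : NNReal} {m : ℕ} (hm : 1 ≤ m)
    (h : ((a : ENNReal) ^ (1 / (m : ℝ))) < z) : (a : ℝ) ≤ (z : ℝ) ^ m := by
  have hm0 : (0:ℝ) < m := by exact_mod_cast hm
  have h1 : (a : ENNReal) ≤ (z : ENNReal) ^ (m : ℝ) := by
    have := ENNReal.rpow_le_rpow h.le hm0.le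
    rw [← ENNReal.rpow_mul, one_div, inv_mul_cancel₀ hm0.ne', ENNReal.rpow_one] at this
    exact this
  rw [ENNReal.rpow_natCast] at h1
  have h2 : ((a : NNReal) : ENNReal) ≤ ((z ^ m : NNReal) : ENNReal) := by
    push_cast; exact h1
  have h3 : (a : NNReal) ≤ z ^ m := by exact_mod_cast h2
  exact_mod_cast h3

theorem lt_rpow_imp {a : ℕ} {x : NNReal} {m : ℕ} (hm : 1 ≤ m)
    (h : (x : ENNReal) < ((a : ENNReal) ^ (1 / (m : ℝ)))) : (x : ℝ) ^ m ≤ (a : ℝ) := by
  have hm0 : (0:ℝ) < m := by exact_mod_cast hm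
  have h1 : (x : ENNReal) ^ (m : ℝ) ≤ (a : ENNReal) := by
    have := ENNReal.rpow_le_rpow h.le hm0.le
    rw [← ENNReal.rpow_mul, one_div, inv_mul_cancel₀ hm0.ne', ENNReal.rpow_one] at this
    exact this
  rw [ENNReal.rpow_natCast] at h1
  have h2 : ((x ^ m : NNReal) : ENNReal) ≤ ((a : NNReal) : ENNReal) := by
    push_cast; exact h1
  have h3 : x ^ m ≤ (a : NNReal) := by exact_mod_cast h2
  exact_mod_cast h3

theorem mu_le {T : PT V} {R : PT W} {k : ℕ} (hk : 1030 ≤ k) (hT : ∀ v, k ≤ T.deg v)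
    (hR : ∀ w, R.deg w = k) (v0 : V) (w0 : W) :
    limsup (fun m : ℕ => ((saw R w0 m).card : ENNReal) ^ (1 / (m : ℝ))) atTop ≤
    limsup (fun m : ℕ => ((saw T v0 m).card : ENNReal) ^ (1 / (m : ℝ))) atTop := by
  by_contra hcon
  push Not at hcon
  obtain ⟨z, hz1, hz2⟩ := ENNReal.lt_iff_exists_nnreal_btwn.1 hcon
  obtain ⟨x, hx1, hx2⟩ := ENNReal.lt_iff_exists_nnreal_btwn.1 hz2
  have hzx : (z : ℝ) < x := by
    have : z < x := by exact_mod_cast hx1
    exact_mod_cast this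
  have hz0 : (0:ℝ) ≤ z := z.2
  -- eventually bounded above
  have hev := (eventually_lt_of_limsup_lt hz1).and (eventually_ge_atTop 1)
  obtain ⟨M, hM⟩ := eventually_atTop.1 hev
  have hS : ∀ m, M ≤ m → ((saw T v0 m).card : ℝ) ≤ (z : ℝ) ^ m :=
    fun m hm => rpow_lt_imp (hM m hm).2 (hM m hm).1
  -- the comparison
  obtain ⟨B, hB⟩ := exists_best R (k := k) (fun v => (hR v).le)
  have hex : ∀ r, ∃ b', R.G.Adj (B r) b' := fun r => R.exists_adj (B r)
  choose B' hB' using hex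
  have hSpos : ∀ m, (1:ℝ) ≤ (saw T v0 m).card := by
    intro m
    have : 1 ≤ (saw T v0 m).card := by
      induction m with
      | zero => simp [card_saw]
      | succ m ih =>
        have h1 := ratio (k := k) (by omega) hT v0 m
        have h2 : (k - 2) * 1 ≤ (k - 2) * (saw T v0 m).card := Nat.mul_le_mul_left _ ih
        omega
    exact_mod_cast this
  have key : ∀ N, 1 ≤ N → (Zx R [B N] N : ℝ) ≤ 4 * (z : ℝ) ^ N := by
    intro N hN
    apply pow_bound (fun m => ((saw T v0 m).card : ℝ)) _ N hN (Nat.cast_nonneg _) (hSpos N) _ z hz0 M hS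
    intro n hn
    exact Par.main_ineq ⟨T, R, k, n, N, B, B', v0, hk, hT, hR, hB, hB', by omega, hn⟩
  -- contradiction
  have hfr : ∃ᶠ m in atTop, (x : ENNReal) < ((saw R w0 m).card : ENNReal) ^ (1 / (m : ℝ)) :=
    frequently_lt_of_lt_limsup (by isBoundedDefault) hx2
  have hx0 : (0:ℝ) < x := lt_of_le_of_lt hz0 hzx
  have hfin : ∀ᶠ m : ℕ in atTop, 4 * (z : ℝ) ^ m < (x : ℝ) ^ m := by
    rcases hz0.eq_or_lt with h0 | h0
    · filter_upwards [eventually_ge_atTop 1] with m hm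
      rw [← h0, zero_pow (by omega)]
      simpa using pow_pos hx0 m
    · have hr1 : 1 < (x : ℝ) / z := by rw [one_lt_div h0]; exact hzx
      filter_upwards [(tendsto_pow_atTop_atTop_of_one_lt hr1).eventually_gt_atTop 4] with m hm
      rw [div_pow, lt_div_iff₀ (by positivity)] at hm
      exact hm
  obtain ⟨m, hm1, hm2, hm3⟩ := (hfr.and_eventually (hfin.and (eventually_ge_atTop 1))).exists
  have h1 := lt_rpow_imp hm3 hm1
  have h2 := key m hm3
  have h3 : ((saw R w0 m).card : ℝ) ≤ (Zx R [B m] m : ℝ) := by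
    rw [card_saw]; exact_mod_cast hB m w0
  linarith

end Run7.h63
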