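import Pool.Agent.Run7.h63.Dev

set_option linter.unusedSectionVars false
set_option linter.unusedSimpArgs false
set_option linter.unusedVariables false

open Finset

namespace Run7.h63

variable {V : Type*} [DecidableEq V] {W : Type*} [DecidableEq W] {T : PT V} {R : PT W} {k : ℕ}

/-- a development of a set of faces of `T` in `R` -/
structure Good (T : PT V) (R : PT W) (F : Finset (V × V)) (φ : V → V → W × W) : Prop where
  adj : ∀ {u v}, (u, v) ∈ F → R.G.Adj (φ u v).1 (φ u v).2
  inv : ∀ {u v}, (u, v) ∈ F → φ v (T.rot u v) = ((φ u v).2, R.rot (φ u v).1 (φ u v).2)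
  sym : ∀ {u v}, (u, v) ∈ F → (v, u) ∈ F → φ v u = (φ u v).swap

theorem Good.back {F : Finset (V × V)} {φ : V → V → W × W} (g : Good T R F φ) (hF : Fc T F)
    {u v : V} (h : (u, v) ∈ F) : φ (T.rot u v) u = (R.rot (φ u v).1 (φ u v).2, (φ u v).1) := by
  have h1 := g.inv h
  have h2 := g.inv (hF.inv h)
  rw [T.rot_rot (hF.adj h), h1] at h2
  rw [h2]
  simp only
  rw [R.rot_rot (g.adj h)]

theorem Good.turn {F : Finset (V × V)} {φ : V → V → W × W} (g : Good T R F φ) (hF : Fc T F)
    {v q : V} {v' q' : W} (hq : φ v q = (v', q')) (a : ℕ)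
    (h : ∀ i ≤ a, (v, (T.rot v)^[i] q) ∈ F) :
    φ v ((T.rot v)^[a] q) = (v', (R.rot v')^[a] q') := by
  induction a with
  | zero => simpa using hq
  | succ a ih =>
    have h1 := ih (fun i hi => h i (by omega))
    have m1 := h a (by omega)
    have m2 := h (a + 1) le_rfl
    have h2 := g.back hF m1
    rw [Function.iterate_succ_apply'] at m2 ⊢
    have m3 := hF.back m1
    have h3 := g.sym m3 m2
    rw [h3, h2, h1]
    simp [Function.iterate_succ_apply']

theorem Good.turn' {F : Finset (V × V)} {φ : V → V → W × W} (g : Good T R F φ) (hF : Fc T F)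
    {v q : V} {v' q' : W} (hq : φ v q = (v', q')) {a : ℕ} (ha : 0 < a)
    (h : ∀ i < a, (v, (T.rot v)^[i] q) ∈ F) :
    φ ((T.rot v)^[a] q) v = ((R.rot v')^[a] q', v') := by
  obtain ⟨b, rfl⟩ := Nat.exists_eq_succ_of_ne_zero ha.ne'
  have h1 := g.turn hF hq b (fun i hi => h i (by omega))
  have h2 := g.back hF (h b (by omega))
  rw [h1] at h2
  rw [Function.iterate_succ_apply', h2]
  simp [Function.iterate_succ_apply']

/-- general angle lemma -/
theorem angle' {x : V} {L : List V} {F : Finset (V × V)} (h : SC T x L) (h3 : 3 ≤ L.length)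
    (hb : Bd T (x :: L) F) {p v q : V} (e1 : (p, v) ∈ el (x :: L)) (e2 : (v, q) ∈ el (x :: L)) :
    ∃ a, 0 < a ∧ a < T.deg v ∧ (T.rot v)^[a] q = p ∧ (∀ i < a, (v, (T.rot v)^[i] q) ∈ F) := by
  have a1 := el_adj h.ch e1
  have a2 := el_adj h.ch e2
  have hpq : p ≠ q := by
    rintro rfl; exact h.no_rev h3 e1 e2
  obtain ⟨a, h1, h2, h3', h4, _⟩ := rot_const hb.toFc.ff.inv a1.symm a2 hpq
    (fun w _ hp hq => by
      have h0 : bd (x :: L) v w = 0 := by
        rw [h.bd_eq, if_neg, if_neg]
        · rfl
        · intro h3; exact hp (h.in_unique h3 e1)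
        · intro h3; exact hq (h.out_unique h3 e2)
      have := hb.bdry v w
      linarith)
  refine ⟨a, h1, h2, h3', ?_⟩
  intro i hi
  apply mem_of_ind
  rw [h4 i hi]
  exact ind_pos (edge_mem h h3 hb e2).1

theorem exists_good (hR : ∀ w, R.deg w = k) (n : ℕ) : ∀ (F : Finset (V × V)) (x y : V) (L : List V)
    (a b : W), F.card ≤ n → SC T x (y :: L) → Bd T (x :: y :: L) F →
    (∀ u ∈ intr F (y :: L), T.deg u = k) → R.G.Adj a b →
    ∃ φ, Good T R F φ ∧ φ x y = (a, b) := by
  induction n with
  | zero =>
    intro F x y L a b hF h hb hk hab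
    refine ⟨fun _ _ => (a, b), ⟨?_, ?_, ?_⟩, rfl⟩
    · intro u v hu
      have : F = ∅ := by rw [← Finset.card_eq_zero]; omega
      rw [this] at hu; simp at hu
    · intro u v hu
      have : F = ∅ := by rw [← Finset.card_eq_zero]; omega
      rw [this] at hu; simp at hu
    · intro u v hu
      have : F = ∅ := by rw [← Finset.card_eq_zero]; omega
      rw [this] at hu; simp at hu
  | succ n ih =>
    intro F x y L a b hF h hb hk hab
    rcases Nat.lt_or_ge (y :: L).length 3 with h3 | h3
    · have : F = ∅ := hb.toFc.eq_empty (fun u v => by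
        rw [hb.bdry, h.bd_two (by have := h.len; omega)])
      subst this
      exact ⟨fun _ _ => (a, b), ⟨fun h => by simp at h, fun h => by simp at h,
        fun h => by simp at h⟩, rfl⟩
    have hxy : T.G.Adj x y := (List.isChain_cons_cons.1 h.ch).1
    have hm := (base_mem h h3 hb).1
    have hm' := (base_mem h h3 hb).2
    have hcard : (F \ triS T x y).card + 3 = F.card := by
      rw [← triS_card hxy]
      exact Finset.card_sdiff_add_card_eq_card (hb.toFc.tri_sub hm)
    obtain ⟨g1, g2⟩ := hb.toFc.sdiff hm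
    set w := T.rot x y with hw
    have axw : T.G.Adj x w := T.adj_rot hxy
    have ayw : T.G.Adj y w := T.adj_rot' hxy
    set c := R.rot a b with hc
    have aac : R.G.Adj a c := R.adj_rot hab
    have abc : R.G.Adj b c := R.adj_rot' hab
    have ew : T.rot y w = x := T.rot_rot hxy
    have ex : T.rot w x = y := T.rot3 hxy
    have ec : R.rot b c = a := R.rot_rot hab
    have ea : R.rot c a = b := R.rot3 hab
    have nxy := hxy.ne
    have nxw := axw.ne
    have nyw := ayw.ne
    -- extension across the triangle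
    have extend : ∀ ψ, Good T R (F \ triS T x y) ψ → ((x, w) ∈ F → ψ x w = (a, c)) →
        ((w, y) ∈ F → ψ w y = (c, b)) → ∃ φ, Good T R F φ ∧ φ x y = (a, b) := by
      intro ψ gψ h1 h2
      set φ : V → V → W × W := fun u v =>
        if u = x ∧ v = y then (a, b) else if u = y ∧ v = w then (b, c) else
        if u = w ∧ v = x then (c, a) else ψ u v with hφ
      have f1 : φ x y = (a, b) := by simp [hφ]
      have f2 : φ y w = (b, c) := by simp [hφ, nxy.symm]
      have f3 : φ w x = (c, a) := by simp [hφ, nxw.symm, nyw.symm]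
      have f4 : ∀ {u v}, (u, v) ∉ triS T x y → φ u v = ψ u v := by
        intro u v hn
        rw [mem_triS] at hn
        push Not at hn
        simp only [hφ]
        rw [if_neg (fun hh => hn.1 hh.1 hh.2), if_neg (fun hh => hn.2.1 hh.1 hh.2),
          if_neg (fun hh => hn.2.2 hh.1 hh.2)]
      have cases3 : ∀ {u v}, (u, v) ∈ F → (u = x ∧ v = y) ∨ (u = y ∧ v = w) ∨ (u = w ∧ v = x) ∨
          ((u, v) ∈ F \ triS T x y ∧ (u, v) ∉ triS T x y) := by
        intro u v huv
        by_cases ht : (u, v) ∈ triS T x y
        · rw [mem_triS] at ht; tauto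
        · right; right; right; exact ⟨Finset.mem_sdiff.2 ⟨huv, ht⟩, ht⟩
      refine ⟨φ, ⟨?_, ?_, ?_⟩, f1⟩
      · intro u v huv
        rcases cases3 huv with ⟨rfl, rfl⟩ | ⟨rfl, rfl⟩ | ⟨rfl, rfl⟩ | ⟨hd, ht⟩
        · rw [f1]; exact hab
        · rw [f2]; exact abc
        · rw [f3]; exact aac.symm
        · rw [f4 ht]; exact gψ.adj hd
      · intro u v huv
        rcases cases3 huv with ⟨rfl, rfl⟩ | ⟨rfl, rfl⟩ | ⟨rfl, rfl⟩ | ⟨hd, ht⟩
        · rw [f1, ← hw, f2]
        · rw [f2, ew, f3, ec]
        · rw [f3, ex, f1, ea]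
        · have h5 := g1.inv hd
          rw [f4 ht, f4 (Finset.mem_sdiff.1 h5).2]
          exact gψ.inv hd
      · intro u v huv hvu
        rcases cases3 huv with ⟨rfl, rfl⟩ | ⟨rfl, rfl⟩ | ⟨rfl, rfl⟩ | ⟨hd, ht⟩
        · exact absurd hvu hm'
        · rw [f2]
          rcases cases3 hvu with ⟨h6, h7⟩ | ⟨h6, h7⟩ | ⟨h6, h7⟩ | ⟨hd, ht⟩
          · exact absurd h6.symm nxw
          · exact absurd h6.symm nyw
          · exact absurd h7.symm nxy
          · rw [f4 ht, h2 hvu]; rfl
        · rw [f3]
          rcases cases3 hvu with ⟨h6, h7⟩ | ⟨h6, h7⟩ | ⟨h6, h7⟩ | ⟨hd, ht⟩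
          · exact absurd h7.symm nyw
          · exact absurd h6 nxy
          · exact absurd h6 nxw
          · rw [f4 ht, h1 hvu]; rfl
        · rcases cases3 hvu with ⟨h6, h7⟩ | ⟨h6, h7⟩ | ⟨h6, h7⟩ | ⟨hd', ht'⟩
          · subst h6; subst h7; exact absurd huv hm'
          · subst h6; subst h7
            rw [f2, f4 ht, h2 huv]; rfl
          · subst h6; subst h7
            rw [f3, f4 ht, h1 huv]; rfl
          · rw [f4 ht, f4 ht']; exact gψ.sym hd hd'
    by_cases hwL : w ∈ y :: L
    · have hw' : w ∈ L := by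
        rcases List.mem_cons.1 hwL with h1 | h1
        · exact absurd h1 nyw.symm
        · exact h1
      obtain ⟨L1, L2, e⟩ := List.append_of_mem hw'
      have e' : y :: L = y :: L1 ++ w :: L2 := by rw [e]; rfl
      obtain ⟨s1, s2, F1, F2, b1, b2, hd, hu⟩ := peel_on h h3 hb e' hxy
      obtain ⟨i1, i2⟩ := peel_on_intr h h3 hb e' s1 s2 b1 b2 hd hu
      rw [← hw] at s1 s2 b1 b2 i1 i2
      have c1 : F1.card + F2.card = (F \ triS T x y).card := by
        rw [hu, Finset.card_union_of_disjoint hd]
      have sub1 : F1 ⊆ F := fun a ha => (Finset.mem_sdiff.1 (hu ▸ Finset.mem_union_left F2 ha)).1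
      have sub2 : F2 ⊆ F := fun a ha => (Finset.mem_sdiff.1 (hu ▸ Finset.mem_union_right F1 ha)).1
      have nt1 : ∀ {e}, e ∈ F1 → e ∉ triS T x y :=
        fun ha => (Finset.mem_sdiff.1 (hu ▸ Finset.mem_union_left F2 ha)).2
      have nt2 : ∀ {e}, e ∈ F2 → e ∉ triS T x y :=
        fun ha => (Finset.mem_sdiff.1 (hu ▸ Finset.mem_union_right F1 ha)).2
      obtain ⟨φ1, G1, r1⟩ := ih F1 w y (L1 ++ [w]) c b (by omega) s1 b1
        (fun u hu => hk u (i1 (Finset.mem_union_left _ hu))) abc.symm
      obtain ⟨φ2, G2, r2⟩ := ih F2 x w L2 a c (by omega) s2 b2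
        (fun u hu => hk u (i1 (Finset.mem_union_right _ hu))) aac
      have myL : y ∉ w :: L2 := by
        have := h.nd
        rw [e', List.cons_append, List.nodup_cons] at this
        intro hc; exact this.1 (List.mem_append_right _ hc)
      have hlastL2 : x ∈ L2 := by
        have := h.last
        rw [e', List.getLast?_append] at this
        simp only [List.getLast?_cons] at this
        cases hL2 : L2.getLast? with
        | none => rw [hL2] at this; simp at this; exact absurd this.symm nxw
        | some z =>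
          rw [hL2] at this; simp at this; subst this
          exact List.mem_of_getLast? hL2
      have mxL : x ∉ y :: L1 ++ [w] := by
        have hn := h.nd
        rw [e'] at hn
        have hdis := (List.nodup_append.1 hn).2.2
        intro hc
        rw [List.mem_append, List.mem_singleton] at hc
        rcases hc with hc | hc
        · exact hdis x hc x (List.mem_cons_of_mem _ hlastL2) rfl
        · exact nxw hc
      -- no crossing
      have cross : ∀ {u v}, (u, v) ∈ F1 → (v, u) ∉ F2 := by
        intro u v h1 h2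
        have h3' : (v, u) ∉ F1 := fun hh => Finset.disjoint_left.1 hd hh h2
        have e1 := b1.bdry u v
        rw [ind_pos h1, ind_neg h3', s1.bd_eq] at e1
        have m1 : (u, v) ∈ el (w :: (y :: L1 ++ [w])) := by
          by_contra hcc
          rw [if_neg hcc] at e1
          split_ifs at e1 <;> omega
        rw [List.cons_append, el_cons_cons, List.mem_cons] at m1
        rcases m1 with m1 | m1
        · simp only [Prod.mk.injEq] at m1
          obtain ⟨rfl, rfl⟩ := m1
          exact nt2 h2 (by rw [mem_triS]; right; left; exact ⟨rfl, rfl⟩)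
        · have m2 : (u, v) ∈ el (x :: y :: L) := by
            rw [el_cons_cons, List.mem_cons, e']
            right
            rw [el_append, List.mem_append]
            left; exact m1
          exact (edge_mem h h3 hb m2).2 (sub2 h2)
      have nwy2 : (w, y) ∉ F2 := by
        intro h2
        have h3' : (y, w) ∉ F2 := fun hh => nt2 hh (by rw [mem_triS]; right; left; exact ⟨rfl, rfl⟩)
        have e1 := b2.bdry w y
        rw [ind_pos h2, ind_neg h3', s2.bd_eq] at e1
        have m1 : (w, y) ∈ el (x :: w :: L2) := by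
          by_contra hcc
          rw [if_neg hcc] at e1
          split_ifs at e1 <;> omega
        exact myL (el_snd_mem' m1)
      have nxw1 : (x, w) ∉ F1 := by
        intro h2
        have h3' : (w, x) ∉ F1 := fun hh => nt1 hh (by rw [mem_triS]; right; right; exact ⟨rfl, rfl⟩)
        have e1 := b1.bdry x w
        rw [ind_pos h2, ind_neg h3', s1.bd_eq] at e1
        have m1 : (x, w) ∈ el (w :: (y :: L1 ++ [w])) := by
          by_contra hcc
          rw [if_neg hcc] at e1
          split_ifs at e1 <;> omega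
        rcases List.mem_cons.1 (el_fst_mem m1) with hcc | hcc
        · exact nxw hcc
        · exact mxL hcc
      set ψ : V → V → W × W := fun u v => if (u, v) ∈ F1 then φ1 u v else φ2 u v with hψ
      have p1 : ∀ {u v}, (u, v) ∈ F1 → ψ u v = φ1 u v := fun hh => by simp [hψ, hh]
      have p2 : ∀ {u v}, (u, v) ∈ F2 → ψ u v = φ2 u v := fun {u v} hh => by
        have : (u, v) ∉ F1 := fun h' => Finset.disjoint_left.1 hd h' hh
        simp [hψ, this]
      have gψ : Good T R (F \ triS T x y) ψ := by
        rw [hu]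
        refine ⟨?_, ?_, ?_⟩
        · intro u v huv
          rcases Finset.mem_union.1 huv with hh | hh
          · rw [p1 hh]; exact G1.adj hh
          · rw [p2 hh]; exact G2.adj hh
        · intro u v huv
          rcases Finset.mem_union.1 huv with hh | hh
          · rw [p1 hh, p1 (b1.inv hh)]; exact G1.inv hh
          · rw [p2 hh, p2 (b2.inv hh)]; exact G2.inv hh
        · intro u v huv hvu
          rcases Finset.mem_union.1 huv with hh | hh
          · rcases Finset.mem_union.1 hvu with hh' | hh'
            · rw [p1 hh, p1 hh']; exact G1.sym hh hh'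
            · exact absurd hh' (cross hh)
          · rcases Finset.mem_union.1 hvu with hh' | hh'
            · exact absurd hh (cross hh')
            · rw [p2 hh, p2 hh']; exact G2.sym hh hh'
      have inU : ∀ {u v}, (u, v) ∈ F → (u, v) ∉ triS T x y → (u, v) ∈ F1 ∨ (u, v) ∈ F2 := by
        intro u v h1 h2
        have : (u, v) ∈ F \ triS T x y := Finset.mem_sdiff.2 ⟨h1, h2⟩
        rw [hu] at this
        exact Finset.mem_union.1 this
      apply extend ψ gψ
      · intro hh
        rcases inU hh (by
          rw [mem_triS]; rintro (⟨h1, h2⟩ | ⟨h1, h2⟩ | ⟨h1, h2⟩)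
          · exact nyw h2.symm
          · exact nxy h1
          · exact nxw h1) with h1 | h1
        · exact absurd h1 nxw1
        · rw [p2 h1, r2]
      · intro hh
        rcases inU hh (by
          rw [mem_triS]; rintro (⟨h1, h2⟩ | ⟨h1, h2⟩ | ⟨h1, h2⟩)
          · exact nxw h1.symm
          · exact nyw h1.symm
          · exact nxy h2.symm) with h1 | h1
        · rw [p1 h1, r1]
        · exact absurd h1 nwy2
    · obtain ⟨s, bb⟩ := peel_off h h3 hb hwL
      rw [← hw] at s bb
      have hwi : w ∈ intr F (y :: L) := by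
        rw [mem_intr]
        exact ⟨⟨x, hb.toFc.back hm⟩, hwL⟩
      have hwk := hk w hwi
      obtain ⟨ψ, gψ, r⟩ := ih (F \ triS T x y) x w (y :: L) a c (by omega) s bb (by
        intro u hu
        apply hk
        rw [mem_intr] at hu ⊢
        obtain ⟨⟨v, hv⟩, hn⟩ := hu
        rw [List.mem_cons, not_or] at hn
        exact ⟨⟨v, (Finset.mem_sdiff.1 hv).1⟩, hn.2⟩) aac
      apply extend ψ gψ (fun _ => r)
      intro _
      have h3' : 3 ≤ (w :: y :: L).length := by simp at h3 ⊢; omega
      obtain ⟨t, t1, t2, t3, t4⟩ := angle' s h3' bb (p := x) (v := w) (q := y) (by simp) (by simp)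
      have ht : t + 1 = k := by
        have h5 : (T.rot w)^[t + 1] y = y := by
          rw [Function.iterate_succ_apply', t3, ex]
        have h6 : t + 1 ≤ T.deg w := t2
        rw [← hwk]
        by_contra hne
        have h7 : t + 1 < T.deg w := by omega
        have := T.iter_inj ayw.symm h7 (T.deg_pos ayw.symm) (by simpa using h5)
        omega
      set wy := ψ w y with hwy
      have h8 := gψ.turn' bb.toFc (v := w) (q := y) (v' := wy.1) (q' := wy.2) rfl t1 t4
      rw [t3, r] at h8
      have h9 : wy.1 = c := (congrArg Prod.snd h8).symm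
      have h10 : (R.rot wy.1)^[t] wy.2 = a := (congrArg Prod.fst h8).symm
      have h11 : R.G.Adj wy.1 wy.2 := gψ.adj (by simpa using t4 0 t1)
      rw [h9] at h10 h11
      have h12 : (R.rot c)^[t + 1] wy.2 = wy.2 := by
        rw [ht, ← hR c]; exact R.iter_deg h11
      rw [Function.iterate_succ_apply', h10, ea] at h12
      exact Prod.ext h9 h12.symm

end Run7.h63
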