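import Mathlib

set_option autoImplicit false

/-!
# Large gaps between totatives: from coverings to gaps

The largest gap `J n` between consecutive totatives of `n` below `n`, and its lower bound from a covering of an
interval by residue classes modulo primes.
-/

namespace Pool.Agent.Run7.h63.JP

open Finset

/-- `a < b` are consecutive totatives of `n` below `n` -/
def Consec (n a b : ℕ) : Prop :=
  1 ≤ a ∧ a < b ∧ b < n ∧ a.Coprime n ∧ b.Coprime n ∧ ∀ c : ℕ, a < c → c < b → ¬ c.Coprime n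

open Classical in
/-- the largest gap between consecutive totatives of `n` below `n` -/
noncomputable def J (n : ℕ) : ℕ :=
  ((range n ×ˢ range n).filter (fun ab => Consec n ab.1 ab.2)).sup (fun ab => ab.2 - ab.1)

lemma J_ge (n a T : ℕ) (ha : a < n) (hT : 2 ≤ T)
    (h : ∀ k : ℕ, 1 ≤ k → k ≤ T → ¬ (a + k).Coprime n) : T ≤ J n := by
  classical
  have hn : 3 ≤ n := by
    by_contra hcon
    have h1 : n = 1 ∨ n = 2 := by omega
    rcases h1 with h1 | h1
    · apply h 1 le_rfl (by omega)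
      rw [h1]
      exact Nat.coprime_one_right _
    · subst h1
      rcases Nat.even_or_odd a with h2 | h2
      · apply h 1 le_rfl (by omega)
        exact (Nat.coprime_two_right).2 h2.add_one
      · apply h 2 (by omega) hT
        exact (Nat.coprime_two_right).2 (h2.add_even even_two)
  have ha1 : 1 ≤ a := by
    rcases Nat.eq_zero_or_pos a with h0 | h0
    · exfalso
      apply h 1 le_rfl (by omega)
      rw [h0, zero_add]
      exact Nat.coprime_one_left n
    · exact h0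
  obtain ⟨A, hA⟩ : ∃ A, A = Nat.findGreatest (fun m => m.Coprime n) a := ⟨_, rfl⟩
  have hAc : A.Coprime n := by
    rw [hA]
    exact Nat.findGreatest_spec (P := fun m => m.Coprime n) ha1 (Nat.coprime_one_left n)
  have hA1 : 1 ≤ A := by
    rw [hA]
    exact Nat.le_findGreatest ha1 (Nat.coprime_one_left n)
  have hAa : A ≤ a := by rw [hA]; exact Nat.findGreatest_le a
  have hn1 : (n - 1).Coprime n := by
    have h1 : (n - 1).Coprime (n - 1 + 1) := by simp
    rwa [Nat.sub_add_cancel (by omega)] at h1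
  have hex : ∃ m, a < m ∧ m.Coprime n := by
    rcases Nat.lt_or_ge a (n - 1) with h1 | h1
    · exact ⟨n - 1, h1, hn1⟩
    · exfalso
      apply h 2 (by omega) hT
      have h2 : a + 2 = n + 1 := by omega
      rw [h2]
      simp
  obtain ⟨B, hB⟩ : ∃ B, B = Nat.find hex := ⟨_, rfl⟩
  obtain ⟨hB1, hB2⟩ := Nat.find_spec hex
  rw [← hB] at hB1 hB2
  have hBT : a + T < B := by
    by_contra hcon
    rw [not_lt] at hcon
    apply h (B - a) (by omega) (by omega)
    rwa [Nat.add_sub_cancel' hB1.le]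
  have hBn : B < n := by
    rcases Nat.lt_or_ge a (n - 1) with h1 | h1
    · have h3 : B ≤ n - 1 := by rw [hB]; exact Nat.find_min' hex ⟨h1, hn1⟩
      omega
    · exfalso
      apply h 2 (by omega) hT
      have h2 : a + 2 = n + 1 := by omega
      rw [h2]
      simp
  have hcons : Consec n A B := by
    refine ⟨hA1, by omega, hBn, hAc, hB2, ?_⟩
    intro c hc1 hc2 hc3
    rcases Nat.lt_or_ge a c with h1 | h1
    · have h3 : B ≤ c := by rw [hB]; exact Nat.find_min' hex ⟨h1, hc3⟩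
      omega
    · have h3 : c ≤ A := by rw [hA]; exact Nat.le_findGreatest h1 hc3
      omega
  have hmem : (A, B) ∈ (range n ×ˢ range n).filter (fun ab => Consec n ab.1 ab.2) := by
    rw [mem_filter, mem_product, mem_range, mem_range]
    exact ⟨⟨by simp only; omega, hBn⟩, hcons⟩
  have h9 : B - A ≤ J n := by
    unfold J
    exact Finset.le_sup (f := fun ab : ℕ × ℕ => ab.2 - ab.1) hmem
  omega

/-- the least value at which the class meets zero -/
lemma crt (P : Finset ℕ) (hP : ∀ p ∈ P, p.Prime) (r : ℕ → ℕ) :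
    ∃ a : ℕ, a < ∏ p ∈ P, p ∧ ∀ p ∈ P, p ∣ a + r p := by
  classical
  have hne : ∀ i ∈ P, (fun p : ℕ => p) i ≠ 0 := fun i hi => (hP i hi).ne_zero
  have hpw : Set.Pairwise (P : Set ℕ) (Function.onFun Nat.Coprime (fun p : ℕ => p)) := by
    intro p hp q hq hpq
    exact (Nat.coprime_primes (hP p (mem_coe.1 hp)) (hP q (mem_coe.1 hq))).2 hpq
  refine ⟨(Nat.chineseRemainderOfFinset (fun p => p - r p % p) (fun p => p) P hne hpw : ℕ),
    Nat.chineseRemainderOfFinset_lt_prod _ _ hne hpw, ?_⟩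
  intro p hp
  have h1 : (Nat.chineseRemainderOfFinset (fun p => p - r p % p) (fun p => p) P hne hpw : ℕ) ≡
      p - r p % p [MOD p] :=
    (Nat.chineseRemainderOfFinset (fun p => p - r p % p) (fun p => p) P hne hpw).2 p hp
  have hp0 := (hP p hp).pos
  have h2 : (p - r p % p) + r p ≡ 0 [MOD p] := by
    have h3 : (p - r p % p) + r p % p = p := Nat.sub_add_cancel (Nat.mod_lt _ hp0).le
    have h4 : (p - r p % p) + r p ≡ (p - r p % p) + r p % p [MOD p] :=
      (Nat.mod_modEq (r p) p).symm.add_left _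
    rw [h3] at h4
    exact h4.trans ((Nat.modEq_zero_iff_dvd).2 (dvd_refl p))
  exact (Nat.modEq_zero_iff_dvd).1 ((h1.add_right (r p)).trans h2)

open Classical in
/-- the uncovered positions are covered one by one -/
theorem finish (S Q : Finset ℕ) (hS : ∀ p ∈ S, p.Prime) (hQ : ∀ q ∈ Q, q.Prime) (hd : Disjoint S Q)
    (b : ℕ → ℕ) (T : ℕ) (hT : 2 ≤ T)
    (hcard : ((Icc 1 T).filter (fun k => ∀ p ∈ S, ¬ k ≡ b p [MOD p])).card ≤ Q.card) :
    T ≤ J (∏ p ∈ S ∪ Q, p) := by
  classical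
  obtain ⟨U, hU⟩ : ∃ U, U = (Icc 1 T).filter (fun k => ∀ p ∈ S, ¬ k ≡ b p [MOD p]) := ⟨_, rfl⟩
  have hcard' : U.card ≤ Q.card := by rw [hU]; convert hcard
  obtain ⟨Q', hQ', hQc⟩ := Finset.exists_subset_card_eq hcard'
  obtain ⟨e⟩ : Nonempty (↥U ≃ ↥Q') := ⟨Finset.equivOfCardEq hQc.symm⟩
  obtain ⟨r, hr⟩ : ∃ r : ℕ → ℕ, r = fun p => if p ∈ S then b p else
    (if h : p ∈ Q' then ((e.symm ⟨p, h⟩ : ↥U) : ℕ) else 0) := ⟨_, rfl⟩
  have hprime : ∀ p ∈ S ∪ Q, p.Prime := by
    intro p hp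
    rcases mem_union.1 hp with h | h
    · exact hS p h
    · exact hQ p h
  obtain ⟨a, ha, hadvd⟩ := crt (S ∪ Q) hprime r
  apply J_ge _ a T ha hT
  intro k hk1 hkT
  by_cases hkU : k ∈ U
  · obtain ⟨q, hq⟩ : ∃ q, q = ((e ⟨k, hkU⟩ : ↥Q') : ℕ) := ⟨_, rfl⟩
    have hqQ' : q ∈ Q' := by rw [hq]; exact (e ⟨k, hkU⟩).2
    have hqQ : q ∈ Q := hQ' hqQ'
    have hqS : q ∉ S := fun h => (Finset.disjoint_left.1 hd) h hqQ
    have hrq : r q = k := by
      rw [hr]
      simp only [hqS, if_false, hqQ', dif_pos]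
      have h1 : (⟨q, hqQ'⟩ : ↥Q') = e ⟨k, hkU⟩ := Subtype.ext hq
      rw [h1, Equiv.symm_apply_apply]
    have h1 := hadvd q (mem_union_right _ hqQ)
    rw [hrq] at h1
    have h2 : q ∣ ∏ p ∈ S ∪ Q, p := dvd_prod_of_mem _ (mem_union_right _ hqQ)
    exact Nat.not_coprime_of_dvd_of_dvd (hQ q hqQ).one_lt h1 h2
  · have h1 : ∃ p ∈ S, k ≡ b p [MOD p] := by
      by_contra hcon
      push Not at hcon
      apply hkU
      rw [hU, mem_filter, mem_Icc]
      exact ⟨⟨hk1, hkT⟩, hcon⟩
    obtain ⟨p, hp, hkp⟩ := h1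
    have h2 := hadvd p (mem_union_left _ hp)
    have hrp : r p = b p := by rw [hr]; simp only [hp, if_true]
    rw [hrp] at h2
    have h3 : p ∣ a + k := by
      have h4 : a + k ≡ a + b p [MOD p] := hkp.add_left a
      exact (Nat.modEq_zero_iff_dvd).1 (h4.trans ((Nat.modEq_zero_iff_dvd).2 h2))
    have h5 : p ∣ ∏ p ∈ S ∪ Q, p := dvd_prod_of_mem _ (mem_union_left _ hp)
    exact Nat.not_coprime_of_dvd_of_dvd (hS p hp).one_lt h3 h5

/-- many primes in `(T, T ^ 2]` -/
theorem many : ∃ T₀ : ℕ, ∀ T : ℕ, T₀ ≤ T → 2 * T ≤ ((Ioc T (T ^ 2)).filter Nat.Prime).card := by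
  have h1 : ∀ᶠ T : ℕ in Filter.atTop, Real.log T ≤ 1 / 20 * (T : ℝ) := by
    have h2 := (Real.isLittleO_log_id_atTop.def (show (0 : ℝ) < 1 / 20 by norm_num))
    have h3 := (tendsto_natCast_atTop_atTop (R := ℝ)).eventually h2
    filter_upwards [h3, Filter.eventually_ge_atTop 1] with T hT hT1
    have hTr : (1 : ℝ) ≤ T := by exact_mod_cast hT1
    simp only [id, Real.norm_eq_abs] at hT
    rw [abs_of_nonneg (Real.log_nonneg hTr), abs_of_nonneg (by linarith)] at hT
    exact hT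
  obtain ⟨T₀, hT₀⟩ := Filter.eventually_atTop.1 (h1.and (Filter.eventually_ge_atTop 100))
  refine ⟨T₀, fun T hT => ?_⟩
  obtain ⟨h2, h3⟩ := hT₀ T hT
  have hTr : (100 : ℝ) ≤ T := by exact_mod_cast h3
  have hlT : 0 < Real.log T := Real.log_pos (by linarith)
  have h4 := Chebyshev.psi_le_primeCounting_mul_log (T ^ 2)
  have h5 := Chebyshev.psi_ge (T ^ 2)
  push_cast at h4 h5
  rw [Real.log_pow] at h4
  push_cast at h4
  have h6 : Real.log ((T : ℝ) ^ 2 + 1) ≤ 1 / 10 * (T : ℝ) ^ 2 := by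
    have h7 : Real.log ((T : ℝ) ^ 2 + 1) ≤ Real.log ((T : ℝ) ^ 3) := by
      apply Real.log_le_log (by positivity)
      nlinarith [sq_nonneg ((T : ℝ)), mul_pos (show (0 : ℝ) < T by linarith) (show (0 : ℝ) < T by linarith)]
    rw [Real.log_pow] at h7
    push_cast at h7
    nlinarith
  have hl2 := Real.log_two_gt_d9
  have h8 : (3 * T : ℝ) ≤ (Nat.primeCounting (T ^ 2) : ℝ) := by
    by_contra hcon
    rw [not_le] at hcon
    have h9 : (Nat.primeCounting (T ^ 2) : ℝ) * (2 * Real.log T) ≤ (3 * T) * (2 * (1 / 20 * (T : ℝ))) := by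
      apply mul_le_mul hcon.le (by linarith) (by linarith) (by linarith)
    nlinarith
  have h10 : 3 * T ≤ Nat.primeCounting (T ^ 2) := by exact_mod_cast h8
  have h11 : Nat.primeCounting (T ^ 2) ≤ T + ((Ioc T (T ^ 2)).filter Nat.Prime).card := by
    unfold Nat.primeCounting Nat.primeCounting'
    rw [Nat.count_eq_card_filter_range]
    calc ((range (T ^ 2 + 1)).filter Nat.Prime).card ≤
        (Icc 1 T ∪ (Ioc T (T ^ 2)).filter Nat.Prime).card := by
          apply card_le_card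
          intro p hp
          rw [mem_filter, mem_range] at hp
          rw [mem_union, mem_filter, mem_Icc, mem_Ioc]
          have := hp.2.one_lt
          rcases Nat.lt_or_ge T p with h | h
          · exact Or.inr ⟨⟨h, by omega⟩, hp.2⟩
          · exact Or.inl ⟨by omega, h⟩
      _ ≤ (Icc 1 T).card + _ := card_union_le _ _
      _ = _ := by rw [Nat.card_Icc]; omega
  omega

end Pool.Agent.Run7.h63.JP
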