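import Pool.Agent.Run7.h63.JP1
import Pool.Agent.H398R2.RK.Surv2

set_option autoImplicit false
set_option maxHeartbeats 4000000

/-!
# Large gaps between totatives: the two coverings
-/

namespace Pool.Agent.Run7.h63.JP

open Finset Pool.Agent.H318R2.Cr Pool.Agent.H398R2.RK

/-- the logarithm of a product of primes `≤ n` -/
lemma log_prod_le (S : Finset ℕ) (n : ℕ) (hS : ∀ p ∈ S, p.Prime ∧ p ≤ n) :
    Real.log ((∏ p ∈ S, p : ℕ) : ℝ) ≤ Real.log 4 * n := by
  have h1 : ∏ p ∈ S, p ≤ primorial n := by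
    unfold primorial
    apply Finset.prod_le_prod_of_subset_of_one_le'
    · intro p hp
      rw [mem_filter, mem_range]
      exact ⟨by have := (hS p hp).2; omega, (hS p hp).1⟩
    · intro p hp _
      rw [mem_filter] at hp
      exact hp.2.one_lt.le
  have h2 : (0 : ℝ) < ((∏ p ∈ S, p : ℕ) : ℝ) := by
    exact_mod_cast Finset.prod_pos fun p hp => (hS p hp).1.pos
  have h3 := primorial_le_four_pow n
  calc Real.log ((∏ p ∈ S, p : ℕ) : ℝ) ≤ Real.log ((4 : ℝ) ^ n) := by
        apply Real.log_le_log h2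
        exact_mod_cast h1.trans h3
    _ = _ := by rw [Real.log_pow]; ring

/-- the logarithm of a product of primes in `(T, T ^ 2]` -/
lemma log_prod_le' (Q : Finset ℕ) (T : ℕ) (hQ : ∀ p ∈ Q, p.Prime ∧ p ≤ T ^ 2) :
    Real.log ((∏ p ∈ Q, p : ℕ) : ℝ) ≤ Q.card * (2 * Real.log T) := by
  push_cast
  rw [Real.log_prod (fun p hp => by
    have := (hQ p hp).1.pos
    have : (0 : ℝ) < p := by exact_mod_cast this
    exact this.ne')]
  calc ∑ p ∈ Q, Real.log (p : ℝ) ≤ ∑ p ∈ Q, 2 * Real.log T := by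
        apply sum_le_sum
        intro p hp
        have h1 : (0 : ℝ) < p := by exact_mod_cast (hQ p hp).1.pos
        calc Real.log (p : ℝ) ≤ Real.log ((T : ℝ) ^ 2) := by
              apply Real.log_le_log h1
              exact_mod_cast (hQ p hp).2
          _ = _ := by rw [Real.log_pow]; push_cast; ring
    _ = _ := by rw [sum_const, nsmul_eq_mul]

open Classical in
/-- the first covering: the primes `≤ w` and those in `(Z, T / K]` -/
theorem cov1 (w K Z T : ℕ) (hK : 1 ≤ K) (N : ℝ)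
    (hsm : (((Icc 1 T).filter (fun m => ∀ p : ℕ, p.Prime → p ∣ m → p ≤ Z)).card : ℝ) ≤ N)
    (ℓ : ℝ) (hℓ : 0 < ℓ) (hlow : ∀ p : ℕ, T / K < p → ℓ / 2 ≤ Real.log p) (hwZ : w ≤ Z) :
    ∃ b : ℕ → ℕ,
      (((Icc 1 T).filter (fun k => ∀ p ∈ Pz w ∪ (Ioc Z (T / K)).filter Nat.Prime, ¬ k ≡ b p [MOD p])).card : ℝ) ≤
        (N + K * (3 * T / ℓ)) * V w := by
  classical
  obtain ⟨R, hR⟩ : ∃ R, R = (Icc 1 T).filter (fun k => ∀ p ∈ (Ioc Z (T / K)).filter Nat.Prime, ¬ k ≡ 0 [MOD p]) :=
    ⟨_, rfl⟩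
  obtain ⟨b, hb, hbc⟩ := greedy_all (Pz w) (fun p hp => (mem_Pz.1 hp).1) R
  -- the number of elements of R
  obtain ⟨L, hL⟩ : ∃ L : Finset ℕ, L = (Ioc (T / K) T).filter Nat.Prime := ⟨_, rfl⟩
  have hLc : (L.card : ℝ) ≤ 3 * T / ℓ := by
    have h1 : ∑ p ∈ L, Real.log (p : ℝ) ≤ Real.log 4 * T := by
      have h2 := log_prod_le L T (fun p hp => by
        rw [hL, mem_filter, mem_Ioc] at hp
        exact ⟨hp.2, hp.1.2⟩)
      push_cast at h2
      rwa [Real.log_prod (fun p hp => by
        rw [hL, mem_filter, mem_Ioc] at hp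
        have : (0 : ℝ) < p := by exact_mod_cast hp.2.pos
        exact this.ne')] at h2
    have h2 : (L.card : ℝ) * (ℓ / 2) ≤ ∑ p ∈ L, Real.log (p : ℝ) := by
      rw [← nsmul_eq_mul, ← sum_const]
      apply sum_le_sum
      intro p hp
      rw [hL, mem_filter, mem_Ioc] at hp
      exact hlow p hp.1.1
    have hl4 : Real.log 4 ≤ 3 / 2 := by
      have : Real.log 4 = 2 * Real.log 2 := by
        rw [show (4 : ℝ) = 2 ^ 2 by norm_num, Real.log_pow]; push_cast; ring
      have := Real.log_two_lt_d9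
      linarith
    rw [le_div_iff₀ hℓ]
    have hT0 : (0 : ℝ) ≤ T := Nat.cast_nonneg _
    nlinarith
  have hRc : (R.card : ℝ) ≤ N + K * (3 * T / ℓ) := by
    have h1 : R ⊆ ((Icc 1 T).filter (fun m => ∀ p : ℕ, p.Prime → p ∣ m → p ≤ Z)) ∪
        ((range K) ×ˢ L).image (fun jp => jp.1 * jp.2) := by
      intro m hm
      rw [hR, mem_filter, mem_Icc] at hm
      rw [mem_union]
      by_cases hs : ∀ p : ℕ, p.Prime → p ∣ m → p ≤ Z
      · left
        rw [mem_filter, mem_Icc]
        exact ⟨hm.1, hs⟩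
      · right
        push Not at hs
        obtain ⟨p, hp, hpm, hpZ⟩ := hs
        have hp2 : T / K < p := by
          by_contra hcon
          rw [not_lt] at hcon
          apply hm.2 p
          · rw [mem_filter, mem_Ioc]
            exact ⟨⟨hpZ, hcon⟩, hp⟩
          · exact (Nat.modEq_zero_iff_dvd).2 hpm
        obtain ⟨j, hj⟩ := hpm
        rw [mem_image]
        refine ⟨(j, p), ?_, by simp only; rw [hj, mul_comm]⟩
        rw [mem_product, mem_range, hL, mem_filter, mem_Ioc]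
        have hpT : p ≤ T := (Nat.le_of_dvd (by omega) ⟨j, hj⟩).trans hm.1.2
        refine ⟨?_, ⟨hp2, hpT⟩, hp⟩
        simp only
        have h5 : T < p * K := (Nat.div_lt_iff_lt_mul (by omega)).1 hp2
        have h6 : p * j < p * K := by
          rw [← hj]
          omega
        exact Nat.lt_of_mul_lt_mul_left h6
    calc (R.card : ℝ) ≤ ((((Icc 1 T).filter (fun m => ∀ p : ℕ, p.Prime → p ∣ m → p ≤ Z)).card +
          (((range K) ×ˢ L).image (fun jp => jp.1 * jp.2)).card : ℕ) : ℝ) := by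
          exact_mod_cast (card_le_card h1).trans (card_union_le _ _)
      _ ≤ N + K * (3 * T / ℓ) := by
          push_cast
          apply add_le_add hsm
          calc ((((range K) ×ˢ L).image (fun jp => jp.1 * jp.2)).card : ℝ) ≤ (((range K) ×ˢ L).card : ℝ) := by
                exact_mod_cast card_image_le
            _ = K * L.card := by rw [card_product, card_range]; push_cast; ring
            _ ≤ _ := mul_le_mul_of_nonneg_left hLc (Nat.cast_nonneg _)
  refine ⟨fun p => if p ≤ w then b p else 0, ?_⟩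
  have h2 : (Icc 1 T).filter (fun k => ∀ p ∈ Pz w ∪ (Ioc Z (T / K)).filter Nat.Prime,
      ¬ k ≡ (if p ≤ w then b p else 0) [MOD p]) ⊆ R.filter (fun k => ∀ p ∈ Pz w, ¬ k ≡ b p [MOD p]) := by
    intro k hk
    rw [mem_filter] at hk
    rw [mem_filter, hR, mem_filter]
    refine ⟨⟨hk.1, ?_⟩, ?_⟩
    · intro p hp hkp
      apply hk.2 p (mem_union_right _ hp)
      rw [mem_filter, mem_Ioc] at hp
      have h3 : ¬ p ≤ w := by omega
      rw [if_neg h3]
      exact hkp
    · intro p hp hkp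
      apply hk.2 p (mem_union_left _ hp)
      rw [if_pos (mem_Pz.1 hp).2]
      exact hkp
  calc _ ≤ ((R.filter (fun k => ∀ p ∈ Pz w, ¬ k ≡ b p [MOD p])).card : ℝ) := by
        exact_mod_cast card_le_card h2
    _ ≤ R.card * ∏ p ∈ Pz w, (1 - 1 / (p : ℝ)) := hbc
    _ ≤ (N + K * (3 * T / ℓ)) * V w := by
        unfold V
        apply mul_le_mul_of_nonneg_right hRc
        exact prod_nonneg fun p hp => (one_sub_inv_pos (mem_Pz.1 hp).1).le

open Classical in
/-- the second covering: the primes in `(w, Z]` -/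
theorem cov2 (w Z T : ℕ) (hwZ : w ≤ Z) :
    ∃ b : ℕ → ℕ, (((Icc 1 T).filter (fun k => ∀ p ∈ (Ioc w Z).filter Nat.Prime, ¬ k ≡ b p [MOD p])).card : ℝ) ≤
        T * (V Z / V w) := by
  classical
  obtain ⟨b, hb, hbc⟩ := greedy_all ((Ioc w Z).filter Nat.Prime) (fun p hp => (mem_filter.1 hp).2) (Icc 1 T)
  refine ⟨b, ?_⟩
  calc _ ≤ ((Icc 1 T).card : ℝ) * ∏ p ∈ (Ioc w Z).filter Nat.Prime, (1 - 1 / (p : ℝ)) := hbc
    _ = T * (V Z / V w) := by
        rw [Nat.card_Icc, Nat.add_sub_cancel]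
        congr 1
        rw [eq_div_iff (V_pos w).ne', mul_comm]
        unfold V
        rw [← Finset.prod_union]
        · congr 1
          ext p
          rw [mem_union, mem_Pz, mem_filter, mem_Ioc, mem_Pz]
          constructor
          · rintro (h | h)
            · exact ⟨h.1, h.2.trans hwZ⟩
            · exact ⟨h.2, h.1.2⟩
          · rintro ⟨h1, h2⟩
            rcases Nat.lt_or_ge w p with h3 | h3
            · exact Or.inr ⟨⟨h3, h2⟩, h1⟩
            · exact Or.inl ⟨h1, h3⟩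
        · rw [Finset.disjoint_left]
          intro p hp hp2
          rw [mem_Pz] at hp
          rw [mem_filter, mem_Ioc] at hp2
          omega

end Pool.Agent.Run7.h63.JP
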