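import Pool.Agent.Run7.h63.JP2

set_option autoImplicit false
set_option maxHeartbeats 4000000

/-!
# Large gaps between totatives: coprime pairs
-/

namespace Pool.Agent.Run7.h63.JP

open Finset Filter Pool.Agent.H318R2.Cr Pool.Agent.H398R2.RK

lemma tl : Tendsto (fun x : ℕ => Real.log (x : ℝ)) atTop atTop :=
  Real.tendsto_log_atTop.comp tendsto_natCast_atTop_atTop

/-- conditions on the length -/
lemma ev_T (A : ℝ) : ∀ᶠ ℓ : ℝ in atTop, 1 ≤ Real.log (Real.log ℓ) ∧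
    Real.log (Real.log ℓ) ≤ Real.log ℓ ∧ A ≤ ℓ * Real.log (Real.log ℓ) / (10 * Real.log ℓ) ∧ A ≤ ℓ ∧
    A * (Real.exp (ℓ / 10) + 1) ≤ Real.exp ℓ := by
  have h2 : Tendsto (fun x : ℝ => Real.log (Real.log x)) atTop atTop :=
    Real.tendsto_log_atTop.comp Real.tendsto_log_atTop
  have h3 : ∀ᶠ ℓ : ℝ in atTop, Real.log ℓ ≤ 1 / (10 * (|A| + 1)) * ℓ := by
    have h4 := Real.isLittleO_log_id_atTop.def (show (0 : ℝ) < 1 / (10 * (|A| + 1)) by positivity)
    filter_upwards [h4, eventually_ge_atTop 1] with x hx hx1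
    simp only [id, Real.norm_eq_abs] at hx
    rwa [abs_of_nonneg (Real.log_nonneg hx1), abs_of_nonneg (show (0 : ℝ) ≤ x by linarith)] at hx
  filter_upwards [h2.eventually_ge_atTop 1, h3, eventually_ge_atTop (|A| + 1),
    Real.tendsto_log_atTop.eventually_ge_atTop 1, eventually_ge_atTop (10 * Real.log (2 * (|A| + 1)))] with ℓ e1 e2 e3 e4 e5
  have hA := le_abs_self A
  have hA0 := abs_nonneg A
  have hA1 : 0 < 10 * (|A| + 1) := by positivity
  have hlog : Real.log (Real.log ℓ) ≤ Real.log ℓ := by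
    have := Real.log_le_sub_one_of_pos (show 0 < Real.log ℓ by linarith)
    linarith
  have e2' : Real.log ℓ * (10 * (|A| + 1)) ≤ ℓ := by
    rw [one_div_mul_eq_div, le_div_iff₀ hA1] at e2
    exact e2
  have hℓ : 0 < ℓ := by linarith
  refine ⟨e1, hlog, ?_, by linarith, ?_⟩
  · rw [le_div_iff₀ (by positivity)]
    calc A * (10 * Real.log ℓ) ≤ (|A| + 1) * (10 * Real.log ℓ) := by
          apply mul_le_mul_of_nonneg_right (by linarith) (by linarith)
      _ = Real.log ℓ * (10 * (|A| + 1)) := by ring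
      _ ≤ ℓ * 1 := by linarith
      _ ≤ ℓ * Real.log (Real.log ℓ) := mul_le_mul_of_nonneg_left e1 hℓ.le
  · have h5 : 1 ≤ Real.exp (ℓ / 10) := Real.one_le_exp (by positivity)
    have h6 : 2 * (|A| + 1) ≤ Real.exp (ℓ / 10) := by
      calc 2 * (|A| + 1) = Real.exp (Real.log (2 * (|A| + 1))) := (Real.exp_log (by positivity)).symm
        _ ≤ _ := Real.exp_le_exp.2 (by linarith)
    calc A * (Real.exp (ℓ / 10) + 1) ≤ (|A| + 1) * (2 * Real.exp (ℓ / 10)) := by
          apply mul_le_mul (by linarith) (by linarith) (by positivity) (by positivity)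
      _ = 2 * (|A| + 1) * Real.exp (ℓ / 10) := by ring
      _ ≤ Real.exp (ℓ / 10) * Real.exp (ℓ / 10) := mul_le_mul_of_nonneg_right h6 (Real.exp_pos _).le
      _ = Real.exp (ℓ / 5) := by rw [← Real.exp_add]; ring_nf
      _ ≤ Real.exp ℓ := Real.exp_le_exp.2 (by linarith)

/-- small values of the product -/
lemma ex_w (δ : ℝ) (hδ : 0 < δ) : ∃ w : ℕ, 2 ≤ w ∧ V w ≤ δ := by
  obtain ⟨c₁, c₂, hc₁, hc₁₂, hV⟩ := cz_bounds
  have hc₂ : 0 < c₂ := hc₁.trans_le hc₁₂
  obtain ⟨w, hw⟩ := ((tl.eventually_ge_atTop (c₂ / δ)).and (eventually_ge_atTop 2)).exists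
  refine ⟨w, hw.2, ?_⟩
  have h1 := (hV w hw.2).2
  have hwr : (2 : ℝ) ≤ w := by exact_mod_cast hw.2
  have hlw : 0 < Real.log w := Real.log_pos (by linarith)
  have h2 := hw.1
  rw [div_le_iff₀ hδ] at h2
  have h3 : V w * Real.log w ≤ δ * Real.log w := by linarith
  exact le_of_mul_le_mul_right h3 hlw

/-- conditions on `log x` -/
lemma ev_X (C B : ℝ) (hC : 2 ≤ C) : ∀ᶠ u : ℝ in atTop, 8 ≤ u ∧ 1 ≤ Real.log (Real.log (Real.log u)) ∧
    Real.log (2 * C) ≤ Real.log u ∧ B * Real.log (Real.log u) ≤ u / 8 ∧ 3 / 2 * Real.exp (Real.log u / 5) ≤ u / 8 := by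
  have h2 : Tendsto (fun x : ℝ => Real.log (Real.log x)) atTop atTop :=
    Real.tendsto_log_atTop.comp Real.tendsto_log_atTop
  have h3 : Tendsto (fun x : ℝ => Real.log (Real.log (Real.log x))) atTop atTop :=
    Real.tendsto_log_atTop.comp h2
  have h4 : ∀ᶠ u : ℝ in atTop, Real.log u ≤ 1 / (8 * (|B| + 1)) * u := by
    have h5 := Real.isLittleO_log_id_atTop.def (show (0 : ℝ) < 1 / (8 * (|B| + 1)) by positivity)
    filter_upwards [h5, eventually_ge_atTop 1] with x hx hx1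
    simp only [id, Real.norm_eq_abs] at hx
    rwa [abs_of_nonneg (Real.log_nonneg hx1), abs_of_nonneg (show (0 : ℝ) ≤ x by linarith)] at hx
  have _ := hC
  filter_upwards [eventually_ge_atTop 8, h3.eventually_ge_atTop 1, Real.tendsto_log_atTop.eventually_ge_atTop
    (max (Real.log (2 * C)) (5 * Real.log 12)), h4, h2.eventually_ge_atTop 1] with u e1 e2 e3 e4 e5
  have e31 := (le_max_left _ _).trans e3
  have e32 := (le_max_right _ _).trans e3
  have hu : 0 < u := by linarith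
  have hB := le_abs_self B
  have hlu : 0 < Real.log u := Real.log_pos (by linarith)
  refine ⟨e1, e2, e31, ?_, ?_⟩
  · have h6 : Real.log (Real.log u) ≤ Real.log u := by
      have := Real.log_le_sub_one_of_pos hlu
      linarith
    rw [one_div_mul_eq_div, le_div_iff₀ (by positivity)] at e4
    calc B * Real.log (Real.log u) ≤ (|B| + 1) * Real.log u := by
          apply mul_le_mul (by linarith) h6 (by linarith) (by positivity)
      _ ≤ u / 8 := by linarith
  · have h6 : (12 : ℝ) ≤ Real.exp (Real.log u / 5) := by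
      calc (12 : ℝ) = Real.exp (Real.log 12) := (Real.exp_log (by norm_num)).symm
        _ ≤ _ := Real.exp_le_exp.2 (by linarith)
    have h7 : Real.exp (Real.log u / 5) * Real.exp (Real.log u / 5) ≤ u := by
      rw [← Real.exp_add]
      calc Real.exp (Real.log u / 5 + Real.log u / 5) ≤ Real.exp (Real.log u) := Real.exp_le_exp.2 (by linarith)
        _ = u := Real.exp_log hu
    nlinarith [Real.exp_pos (Real.log u / 5)]

lemma coprime_prod (A B : Finset ℕ) (hA : ∀ p ∈ A, p.Prime) (hB : ∀ p ∈ B, p.Prime) (h : Disjoint A B) :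
    (∏ p ∈ A, p).Coprime (∏ p ∈ B, p) := by
  apply Nat.Coprime.prod_left
  intro p hp
  apply Nat.Coprime.prod_right
  intro q hq
  apply (Nat.coprime_primes (hA p hp) (hB q hq)).2
  rintro rfl
  exact (Finset.disjoint_left.1 h) hp hq

theorem main (C : ℝ) (hC : 2 ≤ C) : ∃ c : ℝ, 0 < c ∧ ∃ x₀ : ℕ, ∀ x : ℕ, x₀ ≤ x →
    ∃ n m : ℕ, n.Coprime m ∧ n < x ∧ m < x ∧ C * Real.log x ≤ J n ∧
      c * (Real.log x * Real.log (Real.log (Real.log (Real.log x))) / Real.log (Real.log (Real.log x))) ≤ J m := by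
  classical
  obtain ⟨c₁, c₂, hc₁, hc₁₂, hV⟩ := cz_bounds
  have hc₂ : 0 < c₂ := hc₁.trans_le hc₁₂
  have hC0 : 0 < C := by linarith
  -- the parameters
  obtain ⟨K, hK⟩ : ∃ K : ℕ, 12 * C ≤ K := exists_nat_ge _
  have hK1 : 1 ≤ K := by
    have : (1 : ℝ) ≤ K := by linarith
    exact_mod_cast this
  have hKr : (0 : ℝ) < K := by linarith
  obtain ⟨w, hw2, hVw⟩ := ex_w (1 / (16 * C * (1 + 3 * K))) (by positivity)
  have hVw0 := V_pos w
  obtain ⟨c, hc⟩ : ∃ c : ℝ, c = min 1 (V w / (320 * c₂)) := ⟨_, rfl⟩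
  have hc0 : 0 < c := by rw [hc]; positivity
  have hc1 : c ≤ 1 := by rw [hc]; exact min_le_left _ _
  have hc2 : c ≤ V w / (320 * c₂) := by rw [hc]; exact min_le_right _ _
  obtain ⟨B, hB⟩ : ∃ B : ℝ, B = 80 * c₂ / V w := ⟨_, rfl⟩
  have hB0 : 0 < B := by rw [hB]; positivity
  have hcB : c * B ≤ 1 / 4 := by
    calc c * B ≤ V w / (320 * c₂) * B := mul_le_mul_of_nonneg_right hc2 hB0.le
      _ = 1 / 4 := by rw [hB]; field_simp; norm_num
  obtain ⟨y₀, hsm⟩ := smooth_count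
  obtain ⟨M₀, hmany⟩ := many
  obtain ⟨A, hA⟩ : ∃ A : ℝ, A = (K : ℝ) * 2 + 2 * w + 4 + 2 * Real.log K + Real.log (2 * w + 2) := ⟨_, rfl⟩
  -- eventually
  have hT1 : Tendsto (fun x : ℕ => ⌈C * Real.log x⌉₊) atTop atTop :=
    tendsto_nat_ceil_atTop.comp (tl.const_mul_atTop hC0)
  have hE := (hT1.eventually (((tl.eventually (ev_T A)).and (eventually_ge_atTop (max M₀ 2))).and
    (eventually_ge_atTop ⌈y₀⌉₊))).and (tl.eventually (ev_X C B hC))
  obtain ⟨x₀, hx₀⟩ := eventually_atTop.1 (hE.and (eventually_ge_atTop 2))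
  refine ⟨c, hc0, x₀, fun x hx => ?_⟩
  obtain ⟨⟨⟨⟨hℓ, hTM⟩, hTy⟩, hX⟩, hx2⟩ := hx₀ x hx
  obtain ⟨T, hTdef⟩ : ∃ T : ℕ, T = ⌈C * Real.log x⌉₊ := ⟨_, rfl⟩
  rw [← hTdef] at hℓ hTM hTy
  obtain ⟨u, hu⟩ : ∃ u : ℝ, u = Real.log x := ⟨_, rfl⟩
  rw [← hu] at hX hTdef ⊢
  obtain ⟨X1, X2, X3, X4, X5⟩ := hX
  obtain ⟨ℓ, hℓd⟩ : ∃ ℓ : ℝ, ℓ = Real.log T := ⟨_, rfl⟩
  rw [← hℓd] at hℓ
  obtain ⟨L1, L2, L3, L4, L5⟩ := hℓ
  have hw0 : (0 : ℝ) ≤ w := Nat.cast_nonneg _
  have hw2r : (2 : ℝ) ≤ w := by exact_mod_cast hw2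
  have hlK : 0 ≤ Real.log K := Real.log_nonneg (by exact_mod_cast hK1)
  have hlw : 0 ≤ Real.log (2 * w + 2) := Real.log_nonneg (by linarith)
  have hT2 : 2 ≤ T := (le_max_right _ _).trans hTM
  have hTM' : M₀ ≤ T := (le_max_left _ _).trans hTM
  have hTr : (2 : ℝ) ≤ T := by exact_mod_cast hT2
  have hT0 : (0 : ℝ) < T := by linarith
  have hTl : C * u ≤ T := by rw [hTdef]; exact Nat.le_ceil _
  have hTu : (T : ℝ) ≤ C * u + 1 := by rw [hTdef]; exact (Nat.ceil_lt_add_one (by positivity)).le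
  have hu0 : 0 < u := by linarith
  have hCu2 : 2 * u ≤ C * u := mul_le_mul_of_nonneg_right hC hu0.le
  have hℓ4 : 4 ≤ ℓ := by rw [hA] at L4; linarith
  have hℓ0 : 0 < ℓ := by linarith
  have hexpℓ : Real.exp ℓ = T := by rw [hℓd, Real.exp_log hT0]
  -- the level
  obtain ⟨V0, hV0⟩ : ∃ V0 : ℝ, V0 = ℓ * Real.log (Real.log ℓ) / (10 * Real.log ℓ) := ⟨_, rfl⟩
  rw [← hV0] at L3
  have ht2 : 1 ≤ Real.log ℓ := L1.trans L2
  have hV04 : 4 ≤ V0 := by rw [hA] at L3; linarith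
  have hV0u : V0 ≤ ℓ / 10 := by
    rw [hV0, div_le_iff₀ (by positivity)]
    calc ℓ * Real.log (Real.log ℓ) ≤ ℓ * Real.log ℓ := mul_le_mul_of_nonneg_left L2 hℓ0.le
      _ = ℓ / 10 * (10 * Real.log ℓ) := by ring
  obtain ⟨Z, hZ⟩ : ∃ Z : ℕ, Z = ⌊Real.exp V0⌋₊ := ⟨_, rfl⟩
  have hZle : (Z : ℝ) ≤ Real.exp V0 := by rw [hZ]; exact Nat.floor_le (Real.exp_pos _).le
  have hZge : Real.exp V0 < Z + 1 := by rw [hZ]; exact Nat.lt_floor_add_one _
  have hZ10 : (Z : ℝ) ≤ Real.exp (ℓ / 10) := hZle.trans (Real.exp_le_exp.2 hV0u)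
  have hwZ : w ≤ Z := by
    have h1 : ((w : ℝ) + 1) ≤ Real.exp V0 := by
      calc (w : ℝ) + 1 ≤ Real.exp (Real.log (2 * w + 2)) := by rw [Real.exp_log (by linarith)]; linarith
        _ ≤ _ := Real.exp_le_exp.2 (by rw [hA] at L3; linarith)
    have h2 : (w : ℝ) < Z := by linarith
    exact_mod_cast h2.le
  have hlZ : V0 / 2 ≤ Real.log Z := by
    have h1 : Real.exp (V0 / 2) ≤ Z := by
      have h2 : Real.exp V0 = Real.exp (V0 / 2) * Real.exp (V0 / 2) := by rw [← Real.exp_add]; ring_nf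
      have h3 := Real.add_one_le_exp (V0 / 2)
      have h4 : 3 ≤ Real.exp (V0 / 2) := by linarith only [h3, hV04]
      have h5 : 3 * Real.exp (V0 / 2) ≤ Real.exp (V0 / 2) * Real.exp (V0 / 2) :=
        mul_le_mul_of_nonneg_right h4 (Real.exp_pos _).le
      linarith only [h2, h4, h5, hZge]
    calc V0 / 2 = Real.log (Real.exp (V0 / 2)) := (Real.log_exp _).symm
      _ ≤ _ := Real.log_le_log (Real.exp_pos _) h1
  have hZK : Z ≤ T / K := by
    rw [Nat.le_div_iff_mul_le (by omega)]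
    have h1 : (Z : ℝ) * K ≤ T := by
      calc (Z : ℝ) * K ≤ Real.exp (ℓ / 10) * K := mul_le_mul_of_nonneg_right hZ10 hKr.le
        _ ≤ A * (Real.exp (ℓ / 10) + 1) := by
            have h5 : (K : ℝ) ≤ A := by rw [hA]; linarith only [hKr, hw0, hlK, hlw]
            have h6 := Real.exp_pos (ℓ / 10)
            calc Real.exp (ℓ / 10) * K ≤ (Real.exp (ℓ / 10) + 1) * A :=
                  mul_le_mul (by linarith only) h5 hKr.le (by linarith only [h6])
              _ = _ := mul_comm _ _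
        _ ≤ T := by rw [← hexpℓ]; exact L5
    exact_mod_cast h1
  have hlow : ∀ p : ℕ, T / K < p → ℓ / 2 ≤ Real.log p := by
    intro p hp
    have h1 : T < p * K := (Nat.div_lt_iff_lt_mul (by omega)).1 hp
    have h2 : (T : ℝ) ≤ p * K := by exact_mod_cast h1.le
    have hp0 : (0 : ℝ) < p := by
      have : 0 < p := by omega
      exact_mod_cast this
    have h3 : ℓ ≤ Real.log p + Real.log K := by
      rw [hℓd, ← Real.log_mul hp0.ne' hKr.ne']
      exact Real.log_le_log hT0 h2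
    have h4 : 2 * Real.log K ≤ ℓ := by rw [hA] at L4; linarith
    linarith
  -- the smooth numbers
  have hsm1 : (((Icc 1 T).filter (fun m => ∀ p : ℕ, p.Prime → p ∣ m → p ≤ Z)).card : ℝ) ≤ T / ℓ := by
    have h1 := hsm (T : ℝ) ((Nat.le_ceil y₀).trans (by exact_mod_cast hTy)) T le_rfl
    rw [← hℓd, ← hV0] at h1
    calc (((Icc 1 T).filter (fun m => ∀ p : ℕ, p.Prime → p ∣ m → p ≤ Z)).card : ℝ) ≤
          (((Icc 1 T).filter (fun m => ∀ p : ℕ, p.Prime → p ∣ m → Real.log p ≤ V0)).card : ℝ) := by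
          have h2 : ((Icc 1 T).filter (fun m => ∀ p : ℕ, p.Prime → p ∣ m → p ≤ Z)).card ≤
              ((Icc 1 T).filter (fun m => ∀ p : ℕ, p.Prime → p ∣ m → Real.log p ≤ V0)).card := by
            apply card_le_card
            intro m hm
            rw [mem_filter] at hm ⊢
            refine ⟨hm.1, fun p hp hpm => ?_⟩
            have h3 := hm.2 p hp hpm
            have hp0 : (0 : ℝ) < p := by exact_mod_cast hp.pos
            calc Real.log p ≤ Real.log (Real.exp V0) := by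
                  apply Real.log_le_log hp0
                  calc (p : ℝ) ≤ Z := by exact_mod_cast h3
                    _ ≤ _ := hZle
              _ = V0 := Real.log_exp _
          exact_mod_cast h2
      _ ≤ T / ℓ ^ 3 := by convert h1
      _ ≤ T / ℓ := by
          apply div_le_div_of_nonneg_left hT0.le hℓ0
          exact le_self_pow₀ (by linarith only [hℓ4]) (by norm_num)
  -- the first covering
  obtain ⟨b1, hb1⟩ := cov1 w K Z T hK1 (T / ℓ) hsm1 ℓ hℓ0 hlow hwZ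
  obtain ⟨S1, hS1⟩ : ∃ S1, S1 = Pz w ∪ (Ioc Z (T / K)).filter Nat.Prime := ⟨_, rfl⟩
  rw [← hS1] at hb1
  have hS1p : ∀ p ∈ S1, p.Prime ∧ p ≤ T / K := by
    intro p hp
    rw [hS1, mem_union, mem_Pz, mem_filter, mem_Ioc] at hp
    rcases hp with h | h
    · exact ⟨h.1, by have := h.2; omega⟩
    · exact ⟨h.2, h.1.2⟩
  obtain ⟨U1, hU1⟩ : ∃ U1, U1 = (Icc 1 T).filter (fun k => ∀ p ∈ S1, ¬ k ≡ b1 p [MOD p]) := ⟨_, rfl⟩
  rw [← hU1] at hb1
  -- the second covering
  obtain ⟨D, hD⟩ : ∃ D : ℝ, D = Real.log (Real.log u) := ⟨_, rfl⟩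
  obtain ⟨E, hE'⟩ : ∃ E : ℝ, E = Real.log (Real.log (Real.log u)) := ⟨_, rfl⟩
  rw [← hE', ← hD]
  rw [← hE'] at X2
  rw [← hD] at X4
  have hED : E = Real.log D := by rw [hE', hD]
  have hD0 : 0 < D := by
    by_contra hcon
    rw [not_lt] at hcon
    have hlu : 0 ≤ Real.log u := Real.log_nonneg (by linarith)
    rcases Nat.eq_zero_or_pos 0 with _ | h
    · -- `D ≤ 0`
      have hD1 : Real.log u ≤ 1 ∨ 1 < Real.log u := le_or_gt _ _
      rcases hD1 with h1 | h1
      · have h2 : Real.log 8 ≤ Real.log u := Real.log_le_log (by norm_num) X1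
        have h3 : Real.log 8 = 3 * Real.log 2 := by
          rw [show (8 : ℝ) = 2 ^ 3 by norm_num, Real.log_pow]; push_cast; ring
        have := Real.log_two_gt_d9
        linarith
      · have := Real.log_pos h1
        rw [← hD] at this
        linarith
    · omega
  have hDE : E ≤ D - 1 := by rw [hED]; exact Real.log_le_sub_one_of_pos hD0
  have hE0 : 0 < E := by linarith
  have hD2 : 2 ≤ D := by linarith
  have hlu0 : 0 < Real.log u := by
    by_contra hcon
    rw [not_lt] at hcon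
    have h2 : 0 ≤ Real.log u := Real.log_nonneg (by linarith)
    have h3 : Real.log u = 0 := le_antisymm hcon h2
    rw [hD, h3, Real.log_zero] at hD0
    exact lt_irrefl _ hD0
  obtain ⟨T', hT'⟩ : ∃ T' : ℕ, T' = ⌈c * (u * E / D)⌉₊ + 1 := ⟨_, rfl⟩
  have hquot0 : 0 < c * (u * E / D) := by positivity
  have hT'l : c * (u * E / D) ≤ T' := by
    rw [hT']; push_cast
    have := Nat.le_ceil (c * (u * E / D))
    linarith
  have hT'u : (T' : ℝ) ≤ c * (u * E / D) + 2 := by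
    rw [hT']; push_cast
    have := Nat.ceil_lt_add_one hquot0.le
    linarith
  have hT'2 : 2 ≤ T' := by
    have : 0 < ⌈c * (u * E / D)⌉₊ := Nat.ceil_pos.2 hquot0
    omega
  have hT'T : T' ≤ T := by
    have h1 : u * E / D ≤ u := by
      rw [div_le_iff₀ hD0]
      exact mul_le_mul_of_nonneg_left (by linarith) hu0.le
    have h2 : c * (u * E / D) ≤ 1 * u := mul_le_mul hc1 h1 (by positivity) (by norm_num)
    have h3 : (T' : ℝ) ≤ T := by linarith only [hT'u, h2, hCu2, hTl, X1]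
    exact_mod_cast h3
  obtain ⟨b2, hb2⟩ := cov2 w Z T' hwZ
  obtain ⟨S2, hS2⟩ : ∃ S2, S2 = (Ioc w Z).filter Nat.Prime := ⟨_, rfl⟩
  rw [← hS2] at hb2
  have hS2p : ∀ p ∈ S2, p.Prime ∧ p ≤ Z := by
    intro p hp
    rw [hS2, mem_filter, mem_Ioc] at hp
    exact ⟨hp.2, hp.1.2⟩
  obtain ⟨U2, hU2⟩ : ∃ U2, U2 = (Icc 1 T').filter (fun k => ∀ p ∈ S2, ¬ k ≡ b2 p [MOD p]) := ⟨_, rfl⟩
  rw [← hU2] at hb2
  -- the primes used once
  obtain ⟨P, hP⟩ : ∃ P, P = (Ioc T (T ^ 2)).filter Nat.Prime := ⟨_, rfl⟩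
  have hPc : 2 * T ≤ P.card := by rw [hP]; exact hmany T hTM'
  have hPp : ∀ p ∈ P, p.Prime ∧ T < p ∧ p ≤ T ^ 2 := by
    intro p hp
    rw [hP, mem_filter, mem_Ioc] at hp
    exact ⟨hp.2, hp.1.1, hp.1.2⟩
  have hU1T : U1.card ≤ T := by
    rw [hU1]
    exact (card_filter_le _ _).trans (by rw [Nat.card_Icc]; omega)
  have hU2T : U2.card ≤ T := by
    rw [hU2]
    exact (card_filter_le _ _).trans (by rw [Nat.card_Icc]; omega)
  obtain ⟨Q1, hQ1, hQ1c⟩ := Finset.exists_subset_card_eq (show U1.card ≤ P.card by omega)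
  have hPQ : T ≤ (P \ Q1).card := by
    have h1 := Finset.card_sdiff_add_card_eq_card hQ1
    omega
  obtain ⟨Q2, hQ2, hQ2c⟩ := Finset.exists_subset_card_eq (hU2T.trans hPQ)
  have hQ1p : ∀ p ∈ Q1, p.Prime ∧ T < p ∧ p ≤ T ^ 2 := fun p hp => hPp p (hQ1 hp)
  have hQ2p : ∀ p ∈ Q2, p.Prime ∧ T < p ∧ p ≤ T ^ 2 := fun p hp => hPp p (mem_sdiff.1 (hQ2 hp)).1
  have hKT : T / K ≤ T := Nat.div_le_self _ _
  have hd1 : Disjoint S1 Q1 := by
    rw [Finset.disjoint_left]
    intro p hp hp2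
    have h1 := (hS1p p hp).2
    have h2 := (hQ1p p hp2).2.1
    omega
  have hd2 : Disjoint S2 Q2 := by
    rw [Finset.disjoint_left]
    intro p hp hp2
    have h1 := (hS2p p hp).2
    have h2 := (hQ2p p hp2).2.1
    omega
  have hJ1 : T ≤ J (∏ p ∈ S1 ∪ Q1, p) := by
    apply finish S1 Q1 (fun p hp => (hS1p p hp).1) (fun p hp => (hQ1p p hp).1) hd1 b1 T hT2
    rw [hQ1c, hU1]
  have hJ2 : T' ≤ J (∏ p ∈ S2 ∪ Q2, p) := by
    apply finish S2 Q2 (fun p hp => (hS2p p hp).1) (fun p hp => (hQ2p p hp).1) hd2 b2 T' hT'2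
    rw [hQ2c, hU2]
  have hl4 : Real.log 4 ≤ 3 / 2 := by
    have : Real.log 4 = 2 * Real.log 2 := by
      rw [show (4 : ℝ) = 2 ^ 2 by norm_num, Real.log_pow]; push_cast; ring
    have := Real.log_two_lt_d9
    linarith
  have hx0 : (0 : ℝ) < x := by
    have : 0 < x := by omega
    exact_mod_cast this
  -- the sizes
  have hlogU : ∀ (S Q : Finset ℕ), (∀ p ∈ S, p.Prime) → (∀ p ∈ Q, p.Prime) → Disjoint S Q →
      Real.log ((∏ p ∈ S ∪ Q, p : ℕ) : ℝ) =
        Real.log ((∏ p ∈ S, p : ℕ) : ℝ) + Real.log ((∏ p ∈ Q, p : ℕ) : ℝ) := by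
    intro S Q hS hQ hd
    rw [Finset.prod_union hd, Nat.cast_mul, Real.log_mul]
    · exact_mod_cast (Finset.prod_pos fun p hp => (hS p hp).pos).ne'
    · exact_mod_cast (Finset.prod_pos fun p hp => (hQ p hp).pos).ne'
  have hlt : ∀ (S Q : Finset ℕ), (∀ p ∈ S, p.Prime) → (∀ p ∈ Q, p.Prime) →
      Real.log ((∏ p ∈ S ∪ Q, p : ℕ) : ℝ) < u → (∏ p ∈ S ∪ Q, p) < x := by
    intro S Q hS hQ h
    have h1 : (0 : ℝ) < ((∏ p ∈ S ∪ Q, p : ℕ) : ℝ) := by
      have h2 : 0 < ∏ p ∈ S ∪ Q, p := Finset.prod_pos fun p hp => by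
        rcases mem_union.1 hp with h3 | h3
        · exact (hS p h3).pos
        · exact (hQ p h3).pos
      exact_mod_cast h2
    rw [hu] at h
    have h3 := (Real.log_lt_log_iff h1 hx0).1 h
    exact_mod_cast h3
  -- the first number
  have hn : Real.log ((∏ p ∈ S1 ∪ Q1, p : ℕ) : ℝ) < u := by
    rw [hlogU S1 Q1 (fun p hp => (hS1p p hp).1) (fun p hp => (hQ1p p hp).1) hd1]
    have h1 := log_prod_le S1 (T / K) hS1p
    have h2 := log_prod_le' Q1 T (fun p hp => ⟨(hQ1p p hp).1, (hQ1p p hp).2.2⟩)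
    rw [hQ1c, ← hℓd] at h2
    have h3 : Real.log 4 * ((T / K : ℕ) : ℝ) ≤ T / (8 * C) := by
      have h4 : ((T / K : ℕ) : ℝ) ≤ T / K := Nat.cast_div_le
      have h5 : (T : ℝ) / K ≤ T / (12 * C) := div_le_div_of_nonneg_left hT0.le (by positivity) hK
      calc Real.log 4 * ((T / K : ℕ) : ℝ) ≤ 3 / 2 * (T / (12 * C)) :=
            mul_le_mul hl4 (h4.trans h5) (Nat.cast_nonneg _) (by norm_num)
        _ = T / (8 * C) := by field_simp; norm_num
    have h6 : (U1.card : ℝ) * (2 * ℓ) ≤ T / (8 * C) := by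
      have h7 : (U1.card : ℝ) ≤ (T / ℓ + K * (3 * T / ℓ)) * (1 / (16 * C * (1 + 3 * K))) :=
        hb1.trans (mul_le_mul_of_nonneg_left hVw (by positivity))
      calc (U1.card : ℝ) * (2 * ℓ) ≤ (T / ℓ + K * (3 * T / ℓ)) * (1 / (16 * C * (1 + 3 * K))) * (2 * ℓ) :=
            mul_le_mul_of_nonneg_right h7 (by positivity)
        _ = T / (8 * C) := by field_simp; ring
    have h8 : (T : ℝ) / (8 * C) + T / (8 * C) ≤ u / 2 := by
      have h9 : (T : ℝ) / (8 * C) + T / (8 * C) = T / (4 * C) := by field_simp; ring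
      rw [h9, div_le_iff₀ (by positivity)]
      calc (T : ℝ) ≤ 2 * (C * u) := by linarith only [hTu, hCu2, X1]
        _ = u / 2 * (4 * C) := by ring
    linarith
  -- the second number
  have hℓu : ℓ ≤ 2 * Real.log u := by
    have h1 : (T : ℝ) ≤ 2 * C * u := by
      calc (T : ℝ) ≤ 2 * (C * u) := by linarith only [hTu, hCu2, X1]
        _ = 2 * C * u := by ring
    have h2 : ℓ ≤ Real.log (2 * C) + Real.log u := by
      rw [hℓd, ← Real.log_mul (by positivity) hu0.ne']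
      exact Real.log_le_log hT0 h1
    linarith
  have hℓl : Real.log u ≤ ℓ := by
    rw [hℓd]
    apply Real.log_le_log hu0
    linarith only [hTl, hCu2, hu0]
  have hlogℓu : Real.log ℓ ≤ 2 * D := by
    have h1 : Real.log ℓ ≤ Real.log 2 + D := by
      rw [hD, ← Real.log_mul (by norm_num) hlu0.ne']
      exact Real.log_le_log hℓ0 hℓu
    have := Real.log_two_lt_d9
    linarith
  have hlogℓl : D ≤ Real.log ℓ := by rw [hD]; exact Real.log_le_log hlu0 hℓl
  have hEl : E ≤ Real.log (Real.log ℓ) := by rw [hED]; exact Real.log_le_log hD0 hlogℓl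
  have hV00 : 0 < V0 := by linarith
  have hlZ0 : 0 < Real.log Z := by linarith
  have hVZ : V Z ≤ 2 * c₂ / V0 := by
    have h1 := (hV Z (hw2.trans hwZ)).2
    rw [le_div_iff₀ hV00]
    have h2 : V Z * V0 ≤ V Z * (2 * Real.log Z) := mul_le_mul_of_nonneg_left (by linarith) (V_pos Z).le
    linarith
  have hratio : ℓ / V0 ≤ 20 * D / E := by
    have h1 : ℓ / V0 = 10 * Real.log ℓ / Real.log (Real.log ℓ) := by
      rw [hV0]
      have : Real.log (Real.log ℓ) ≠ 0 := by linarith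
      have : Real.log ℓ ≠ 0 := by linarith
      field_simp
    rw [h1]
    apply div_le_div₀ (by positivity) (by linarith) hE0 hEl
  have hm : Real.log ((∏ p ∈ S2 ∪ Q2, p : ℕ) : ℝ) < u := by
    rw [hlogU S2 Q2 (fun p hp => (hS2p p hp).1) (fun p hp => (hQ2p p hp).1) hd2]
    have h1 := log_prod_le S2 Z hS2p
    have h2 := log_prod_le' Q2 T (fun p hp => ⟨(hQ2p p hp).1, (hQ2p p hp).2.2⟩)
    rw [hQ2c, ← hℓd] at h2
    have h3 : Real.log 4 * (Z : ℝ) ≤ u / 8 := by
      calc Real.log 4 * (Z : ℝ) ≤ 3 / 2 * Real.exp (Real.log u / 5) := by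
            apply mul_le_mul hl4 _ (Nat.cast_nonneg _) (by norm_num)
            exact hZ10.trans (Real.exp_le_exp.2 (by linarith))
        _ ≤ _ := X5
    have h6 : (U2.card : ℝ) * (2 * ℓ) ≤ u / 2 := by
      have h7 : (U2.card : ℝ) ≤ T' * (2 * c₂ / V0 / V w) :=
        hb2.trans (mul_le_mul_of_nonneg_left (div_le_div_of_nonneg_right hVZ hVw0.le) (Nat.cast_nonneg _))
      calc (U2.card : ℝ) * (2 * ℓ) ≤ T' * (2 * c₂ / V0 / V w) * (2 * ℓ) :=
            mul_le_mul_of_nonneg_right h7 (by positivity)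
        _ = T' * (4 * c₂ / V w) * (ℓ / V0) := by field_simp; ring
        _ ≤ T' * (4 * c₂ / V w) * (20 * D / E) := mul_le_mul_of_nonneg_left hratio (by positivity)
        _ = T' * (B * (D / E)) := by rw [hB]; field_simp; ring
        _ ≤ (c * (u * E / D) + 2) * (B * (D / E)) := mul_le_mul_of_nonneg_right hT'u (by positivity)
        _ = c * B * u + 2 * (B * D) / E := by field_simp
        _ ≤ 1 / 4 * u + 2 * (u / 8) / 1 := by
            apply add_le_add (mul_le_mul_of_nonneg_right hcB hu0.le)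
            apply div_le_div₀ (by positivity) (by linarith) (by norm_num) X2
        _ = u / 2 := by ring
    linarith
  refine ⟨∏ p ∈ S1 ∪ Q1, p, ∏ p ∈ S2 ∪ Q2, p, ?_, ?_, ?_, ?_, ?_⟩
  · apply coprime_prod
    · intro p hp
      rcases mem_union.1 hp with h | h
      · exact (hS1p p h).1
      · exact (hQ1p p h).1
    · intro p hp
      rcases mem_union.1 hp with h | h
      · exact (hS2p p h).1
      · exact (hQ2p p h).1
    · rw [Finset.disjoint_left]
      intro p hp1 hp2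
      rcases mem_union.1 hp1 with h1 | h1
      · rcases mem_union.1 hp2 with h2 | h2
        · rw [hS1, mem_union, mem_Pz, mem_filter, mem_Ioc] at h1
          rw [hS2, mem_filter, mem_Ioc] at h2
          rcases h1 with h1 | h1
          · have := h1.2
            have := h2.1.1
            omega
          · have := h1.1.1
            have := h2.1.2
            omega
        · have := (hS1p p h1).2
          have := (hQ2p p h2).2.1
          omega
      · rcases mem_union.1 hp2 with h2 | h2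
        · have := (hQ1p p h1).2.1
          have := (hS2p p h2).2
          omega
        · exact (mem_sdiff.1 (hQ2 h2)).2 h1
  · exact hlt S1 Q1 (fun p hp => (hS1p p hp).1) (fun p hp => (hQ1p p hp).1) hn
  · exact hlt S2 Q2 (fun p hp => (hS2p p hp).1) (fun p hp => (hQ2p p hp).1) hm
  · calc C * u ≤ T := hTl
      _ ≤ _ := by exact_mod_cast hJ1
  · calc c * (u * E / D) ≤ T' := hT'l
      _ ≤ _ := by exact_mod_cast hJ2

end Pool.Agent.Run7.h63.JP
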