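import Pool.Agent.H426R3.SQ.N5

set_option autoImplicit false
set_option maxHeartbeats 400000

/-! # Roots of a polynomial modulo prime powers in an interval (helper63) -/

namespace Run7.h63.PV

open Finset Polynomial

/-- many points where a polynomial is divisible by `q` cannot be close to each other -/
theorem cluster : ∀ (d : ℕ) (P : ℤ[X]) (s : Finset ℤ) (q : ℤ), P.natDegree ≤ d → s.card = d + 1 →
    (∀ t ∈ s, q ∣ P.eval t) →
    ∃ m : ℤ, q ∣ P.coeff d * m ∧
      (∀ H : ℕ, 1 ≤ H → (∀ t ∈ s, ∀ t' ∈ s, |t - t'| ≤ (H : ℤ)) → |m| ≤ (H : ℤ) ^ (d ^ 2)) ∧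
      m ≠ 0 ∧
      (∀ p : ℤ, Prime p → (∀ t ∈ s, ∀ t' ∈ s, t ≠ t' → ¬ p ∣ t - t') → ¬ p ∣ m) := by
  intro d
  induction d with
  | zero =>
    intro P s q hP hs hq
    obtain ⟨t, ht⟩ : s.Nonempty := by rw [← card_pos, hs]; norm_num
    refine ⟨1, ?_, ?_, one_ne_zero, ?_⟩
    · rw [mul_one]
      have h1 := hq t ht
      rw [eq_C_of_natDegree_le_zero hP, eval_C] at h1
      exact h1
    · intro H _ _
      simp
    · intro p hp _ h
      exact hp.not_isUnit (isUnit_of_dvd_one h)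
  | succ d ih =>
    intro P s q hP hs hq
    obtain ⟨t₀, ht₀⟩ : s.Nonempty := by rw [← card_pos, hs]; omega
    set D : ℤ := ∏ t ∈ s.erase t₀, (t - t₀) with hD
    set Q := P /ₘ (X - C t₀) with hQ
    have h1 : P = C (P.eval t₀) + (X - C t₀) * Q := by
      conv_lhs => rw [← modByMonic_add_div P (X - C t₀)]
      rw [modByMonic_X_sub_C_eq_C_eval]
    have hQd : Q.natDegree ≤ d := by
      rw [hQ, natDegree_divByMonic _ (monic_X_sub_C t₀), natDegree_X_sub_C]
      omega
    have hQc : P.coeff (d + 1) = Q.coeff d := by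
      conv_lhs => rw [h1]
      rw [coeff_add, coeff_C_succ, sub_mul, coeff_sub, coeff_X_mul, coeff_C_mul,
        coeff_eq_zero_of_natDegree_lt (by omega : Q.natDegree < d + 1)]
      ring
    have hcard : (s.erase t₀).card = d + 1 := by
      rw [card_erase_of_mem ht₀, hs]
      omega
    have hev : ∀ t : ℤ, P.eval t - P.eval t₀ = (t - t₀) * Q.eval t := by
      intro t
      have h2 : P.eval t = (C (P.eval t₀) + (X - C t₀) * Q).eval t := by rw [← h1]
      rw [h2]
      simp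
    obtain ⟨m, hm1, hm2, hm3, hm4⟩ := ih (C D * Q) (s.erase t₀) q
      ((natDegree_C_mul_le _ _).trans hQd) hcard (by
        intro t ht
        rw [eval_mul, eval_C, hD, ← mul_prod_erase _ _ ht]
        have h3 : q ∣ (t - t₀) * Q.eval t := by
          rw [← hev t]
          exact dvd_sub (hq t (mem_of_mem_erase ht)) (hq t₀ ht₀)
        have h4 : (t - t₀) * (∏ x ∈ (s.erase t₀).erase t, (x - t₀)) * Q.eval t =
            (t - t₀) * Q.eval t * ∏ x ∈ (s.erase t₀).erase t, (x - t₀) := by ring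
        rw [h4]
        exact Dvd.dvd.mul_right h3 _)
    refine ⟨D * m, ?_, ?_, ?_, ?_⟩
    · rw [coeff_C_mul] at hm1
      rw [hQc]
      have h5 : Q.coeff d * (D * m) = D * Q.coeff d * m := by ring
      rw [h5]
      exact hm1
    · intro H hH hs'
      have h6 : |D| ≤ (H : ℤ) ^ (d + 1) := by
        rw [hD, abs_prod, ← hcard]
        refine (prod_le_prod (fun _ _ => abs_nonneg _) fun t ht =>
          hs' t (mem_of_mem_erase ht) t₀ ht₀).trans ?_
        rw [prod_const]
      have h7 := hm2 H hH fun t ht t' ht' => hs' t (mem_of_mem_erase ht) t' (mem_of_mem_erase ht')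
      rw [abs_mul]
      have hH1 : (1 : ℤ) ≤ H := by exact_mod_cast hH
      calc |D| * |m| ≤ (H : ℤ) ^ (d + 1) * (H : ℤ) ^ (d ^ 2) :=
            mul_le_mul h6 h7 (abs_nonneg _) (by positivity)
        _ = (H : ℤ) ^ (d + 1 + d ^ 2) := by rw [← pow_add]
        _ ≤ _ := pow_le_pow_right₀ hH1 (by nlinarith)
    · refine mul_ne_zero ?_ hm3
      rw [hD, Finset.prod_ne_zero_iff]
      intro t ht
      exact sub_ne_zero.2 (ne_of_mem_erase ht)
    · intro p hp hs' h8
      rcases hp.dvd_or_dvd h8 with h9 | h9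
      · rw [hD, hp.dvd_finsetProd_iff] at h9
        obtain ⟨t, ht, h10⟩ := h9
        exact hs' t (mem_of_mem_erase ht) t₀ ht₀ (ne_of_mem_erase ht) h10
      · exact hm4 p hp (fun t ht t' ht' => hs' t (mem_of_mem_erase ht) t' (mem_of_mem_erase ht')) h9

/-- a set of integers in `(V, 2V]` with at most `d` members in each block of length `B` -/
theorem blocks (S : Finset ℕ) (V B d : ℕ) (hS : S ⊆ Ioc V (2 * V))
    (h : ∀ s ⊆ S, s.card = d + 1 → ∃ t ∈ s, ∃ t' ∈ s, t / B ≠ t' / B) :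
    S.card ≤ d * (V / B + 2) := by
  have h1 : S.card ≤ d * (S.image (fun t => t / B)).card := by
    apply card_le_mul_card_image
    intro b _
    by_contra hc
    push Not at hc
    obtain ⟨s, hs1, hs2⟩ := exists_subset_card_eq (Nat.succ_le_of_lt hc)
    obtain ⟨t, ht, t', ht', hne⟩ := h s (hs1.trans (filter_subset _ _)) hs2
    apply hne
    rw [(mem_filter.1 (hs1 ht)).2, (mem_filter.1 (hs1 ht')).2]
  have h2 : (S.image (fun t => t / B)).card ≤ V / B + 2 := by
    have h3 : S.image (fun t => t / B) ⊆ Icc (V / B) (2 * V / B) := by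
      intro b hb
      obtain ⟨t, ht, rfl⟩ := mem_image.1 hb
      have h4 := mem_Ioc.1 (hS ht)
      rw [mem_Icc]
      exact ⟨Nat.div_le_div_right h4.1.le, Nat.div_le_div_right h4.2⟩
    refine (card_le_card h3).trans ?_
    rw [Nat.card_Icc]
    have h5 : 2 * V / B ≤ V / B + V / B + 1 := by
      rcases Nat.eq_zero_or_pos B with hB | hB
      · simp [hB]
      · rw [← Nat.lt_succ_iff, Nat.div_lt_iff_lt_mul hB]
        have h6 := Nat.lt_div_mul_add (a := V) hB
        nlinarith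
    generalize 2 * V / B = a at h5 ⊢
    generalize V / B = b at h5 ⊢
    omega
  exact h1.trans (Nat.mul_le_mul_left d h2)

/-- the absolute value of `P` at `t` -/
noncomputable def val (P : ℤ[X]) (t : ℕ) : ℕ := (P.eval (t : ℤ)).natAbs

theorem dvd_val {P : ℤ[X]} {t q : ℕ} : q ∣ val P t ↔ (q : ℤ) ∣ P.eval (t : ℤ) := by
  unfold val
  exact Int.natCast_dvd.symm

theorem count_pow (P : ℤ[X]) (d : ℕ) (hP : P.natDegree ≤ d) (hc : P.coeff d ≠ 0) (q B V : ℕ)
    (hB : 2 ≤ B) (hq : (P.coeff d).natAbs * (B - 1) ^ (d ^ 2) < q) :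
    ((Ioc V (2 * V)).filter (fun t => q ∣ val P t)).card ≤ d * (V / B + 2) := by
  apply blocks _ _ _ _ (filter_subset _ _)
  intro s hs hcard
  by_contra hcon
  push Not at hcon
  obtain ⟨m, hm1, hm2, hm3, -⟩ := cluster d P (s.map Nat.castEmbedding) q hP (by rw [card_map, hcard])
    (by
      intro t ht
      rw [mem_map] at ht
      obtain ⟨t, ht, rfl⟩ := ht
      exact dvd_val.1 (mem_filter.1 (hs ht)).2)
  have h1 := hm2 (B - 1) (by omega) (by
    intro t ht t' ht'
    rw [mem_map] at ht ht'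
    obtain ⟨t, ht, rfl⟩ := ht
    obtain ⟨t', ht', rfl⟩ := ht'
    have h2 := hcon t ht t' ht'
    simp only [Nat.castEmbedding_apply]
    have h3 := Nat.div_add_mod t B
    have h4 := Nat.div_add_mod t' B
    have h5 := Nat.mod_lt t (by omega : B > 0)
    have h6 := Nat.mod_lt t' (by omega : B > 0)
    rw [h2] at h3
    rw [abs_le]
    constructor <;> omega)
  have h2 : P.coeff d * m ≠ 0 := mul_ne_zero hc hm3
  have h3 := Int.le_of_dvd (abs_pos.2 h2) ((dvd_abs _ _).2 hm1)
  rw [abs_mul] at h3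
  have h4 : |P.coeff d| * |m| ≤ |P.coeff d| * ((B - 1 : ℕ) : ℤ) ^ (d ^ 2) :=
    mul_le_mul_of_nonneg_left h1 (abs_nonneg _)
  have h5 : |P.coeff d| * ((B - 1 : ℕ) : ℤ) ^ (d ^ 2) < q := by
    rw [Int.abs_eq_natAbs]
    exact_mod_cast hq
  linarith

theorem count_prime (P : ℤ[X]) (d : ℕ) (hP : P.natDegree ≤ d) (p V : ℕ) (hp : p.Prime)
    (hc : ¬ (p : ℤ) ∣ P.coeff d) :
    ((Ioc V (2 * V)).filter (fun t => p ∣ val P t)).card ≤ d * (V / p + 2) := by
  apply blocks _ _ _ _ (filter_subset _ _)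
  intro s hs hcard
  by_contra hcon
  push Not at hcon
  obtain ⟨m, hm1, -, -, hm4⟩ := cluster d P (s.map Nat.castEmbedding) p hP (by rw [card_map, hcard])
    (by
      intro t ht
      rw [mem_map] at ht
      obtain ⟨t, ht, rfl⟩ := ht
      exact dvd_val.1 (mem_filter.1 (hs ht)).2)
  have hpp : Prime (p : ℤ) := Nat.prime_iff_prime_int.1 hp
  refine hm4 p hpp ?_ ((hpp.dvd_or_dvd hm1).resolve_left hc)
  intro t ht t' ht' hne hd
  rw [mem_map] at ht ht'
  obtain ⟨t, ht, rfl⟩ := ht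
  obtain ⟨t', ht', rfl⟩ := ht'
  have h2 := hcon t ht t' ht'
  simp only [Nat.castEmbedding_apply] at hne hd
  have h3 := Nat.div_add_mod t p
  have h4 := Nat.div_add_mod t' p
  have h5 := Nat.mod_lt t hp.pos
  have h6 := Nat.mod_lt t' hp.pos
  rw [h2] at h3
  apply hne
  have h7 : (t : ℤ) - t' = 0 := by
    apply Int.eq_zero_of_abs_lt_dvd hd
    rw [abs_lt]
    constructor <;> omega
  linarith

/-- the sum of the block factors -/
theorem geo_sum (s D K : ℕ) (hD : 1 ≤ D) :
    ∑ k ∈ Icc 1 K, (1 / 2 : ℝ) ^ ((k - s) / D) ≤ s + 2 * D := by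
  have h1 : ∀ n : ℕ, ∑ i ∈ range (D * n), (1 / 2 : ℝ) ^ (i / D) = D * (2 - 2 * (1 / 2) ^ n) := by
    intro n
    induction n with
    | zero => simp
    | succ n ih =>
      rw [Nat.mul_succ, sum_range_add, ih]
      have h2 : ∀ i ∈ range D, (1 / 2 : ℝ) ^ ((D * n + i) / D) = (1 / 2) ^ n := by
        intro i hi
        rw [mem_range] at hi
        rw [Nat.mul_add_div (by omega), Nat.div_eq_of_lt hi, add_zero]
      rw [sum_congr rfl h2, sum_const, card_range, nsmul_eq_mul, pow_succ]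
      ring
  have h2 : ∀ n : ℕ, ∑ i ∈ range n, (1 / 2 : ℝ) ^ (i / D) ≤ 2 * D := by
    intro n
    calc ∑ i ∈ range n, (1 / 2 : ℝ) ^ (i / D) ≤ ∑ i ∈ range (D * n), (1 / 2 : ℝ) ^ (i / D) := by
          apply sum_le_sum_of_subset_of_nonneg
          · exact range_mono (Nat.le_mul_of_pos_left n hD)
          · intro i _ _; positivity
      _ = D * (2 - 2 * (1 / 2) ^ n) := h1 n
      _ ≤ 2 * D := by
          have h3 : (0 : ℝ) ≤ (1 / 2) ^ n := by positivity
          have h4 : (0 : ℝ) ≤ D := by positivity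
          nlinarith
  calc ∑ k ∈ Icc 1 K, (1 / 2 : ℝ) ^ ((k - s) / D)
      ≤ ∑ k ∈ range (s + (K + 1)), (1 / 2 : ℝ) ^ ((k - s) / D) := by
        apply sum_le_sum_of_subset_of_nonneg
        · intro k hk
          rw [mem_Icc] at hk
          rw [mem_range]
          omega
        · intro i _ _; positivity
    _ = ∑ k ∈ range s, (1 / 2 : ℝ) ^ ((k - s) / D) +
        ∑ i ∈ range (K + 1), (1 / 2 : ℝ) ^ (i / D) := by
        rw [sum_range_add]
        congr 1
        refine sum_congr rfl fun i _ => ?_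
        rw [Nat.add_sub_cancel_left]
    _ ≤ s + 2 * D := by
        have h5 : ∑ k ∈ range s, (1 / 2 : ℝ) ^ ((k - s) / D) ≤ s := by
          calc ∑ k ∈ range s, (1 / 2 : ℝ) ^ ((k - s) / D) ≤ ∑ k ∈ range s, (1 : ℝ) :=
                sum_le_sum fun i _ => pow_le_one₀ (by norm_num) (by norm_num)
            _ = s := by simp
        linarith [h2 (K + 1)]

end Run7.h63.PV
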