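import Pool.Agent.Run7.h63.PM1

set_option autoImplicit false
set_option maxHeartbeats 400000

/-! # Contribution of one prime to the values of a polynomial (helper63) -/

namespace Run7.h63.PV

open Finset Polynomial

/-- the number of `t` in `(V, 2V]` with `p^k ∣ P(t)` -/
theorem count_pk (P : ℤ[X]) (d : ℕ) (hd : 1 ≤ d) (hP : P.natDegree ≤ d) (hc : P.coeff d ≠ 0)
    (p k V : ℕ) (hp : p.Prime) (hk : 1 ≤ k) :
    (((Ioc V (2 * V)).filter (fun t => p ^ k ∣ val P t)).card : ℝ) ≤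
      (d * ((P.coeff d).natAbs + 1) : ℕ) * (V / p : ℝ) *
        (1 / 2) ^ ((k - ((P.coeff d).natAbs + d ^ 2 + 1)) / d ^ 2) + 2 * d := by
  set α : ℕ := (P.coeff d).natAbs with hα
  have hα0 : 1 ≤ α := by rw [hα]; exact Int.natAbs_pos.2 hc
  set D : ℕ := d ^ 2 with hD
  have hD1 : 1 ≤ D := Nat.one_le_pow _ _ hd
  set j : ℕ := (k - (α + D + 1)) / D with hj
  have hp0 : (0 : ℝ) < p := by exact_mod_cast hp.pos
  have hp2 : (2 : ℝ) ≤ p := by exact_mod_cast hp.two_le
  have hV0 : (0 : ℝ) ≤ V := Nat.cast_nonneg V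
  have hd1 : (1 : ℝ) ≤ d := by exact_mod_cast hd
  have hα1 : (1 : ℝ) ≤ α := by exact_mod_cast hα0
  have hhalf : (0 : ℝ) < (1 / 2) ^ j := by positivity
  push_cast
  -- the block bound
  have hblock : ∀ i : ℕ, 1 ≤ i → i * D + α ≤ k →
      (((Ioc V (2 * V)).filter (fun t => p ^ k ∣ val P t)).card : ℝ) ≤ d * (V / (p : ℝ) ^ i + 2) := by
    intro i hi hik
    have h1 := count_pow P d hP hc (p ^ k) (p ^ i) V (by
      calc 2 ≤ p := hp.two_le
        _ = p ^ 1 := (pow_one p).symm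
        _ ≤ p ^ i := Nat.pow_le_pow_right hp.pos hi) (by
      rw [← hα]
      have h2 : α < p ^ α := Nat.lt_pow_self hp.one_lt
      have h3 : (p ^ i - 1) ^ D ≤ p ^ (i * D) := by
        rw [pow_mul]
        exact Nat.pow_le_pow_left (Nat.sub_le _ _) D
      have h4 : 0 < p ^ (i * D) := pow_pos hp.pos _
      calc α * (p ^ i - 1) ^ D ≤ α * p ^ (i * D) := Nat.mul_le_mul_left _ h3
        _ < p ^ α * p ^ (i * D) := Nat.mul_lt_mul_of_pos_right h2 h4
        _ = p ^ (α + i * D) := (pow_add _ _ _).symm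
        _ ≤ p ^ k := Nat.pow_le_pow_right hp.pos (by omega))
    have h5 : ((V / p ^ i : ℕ) : ℝ) ≤ V / ((p ^ i : ℕ) : ℝ) := Nat.cast_div_le
    push_cast at h5
    calc (((Ioc V (2 * V)).filter (fun t => p ^ k ∣ val P t)).card : ℝ) ≤
          ((d * (V / p ^ i + 2) : ℕ) : ℝ) := by exact_mod_cast h1
      _ = d * (((V / p ^ i : ℕ) : ℝ) + 2) := by push_cast; ring
      _ ≤ _ := by gcongr
  rcases Nat.eq_zero_or_pos j with hj0 | hj0
  · rw [hj0, pow_zero, mul_one]
    rcases le_or_gt p α with hpα | hpα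
    · have h1 : (((Ioc V (2 * V)).filter (fun t => p ^ k ∣ val P t)).card : ℝ) ≤ V := by
        have h2 : ((Ioc V (2 * V)).filter (fun t => p ^ k ∣ val P t)).card ≤ V := by
          refine (card_filter_le _ _).trans ?_
          rw [Nat.card_Ioc]
          omega
        exact_mod_cast h2
      have h3 : (p : ℝ) ≤ α := by exact_mod_cast hpα
      have h4 : (V : ℝ) ≤ (α + 1) * (V / p) := by
        rw [← mul_div_assoc, le_div_iff₀ hp0]
        nlinarith
      have h5 : (0 : ℝ) ≤ (α + 1) * (V / p) := by positivity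
      nlinarith
    · have hnd : ¬ (p : ℤ) ∣ P.coeff d := by
        intro h
        have h1 := Int.natAbs_dvd_natAbs.2 h
        have h2 := Nat.le_of_dvd (by omega) h1
        simp only [Int.natAbs_natCast] at h2
        omega
      have h1 := count_prime P d hP p V hp hnd
      have h2 : ((Ioc V (2 * V)).filter (fun t => p ^ k ∣ val P t)).card ≤
          ((Ioc V (2 * V)).filter (fun t => p ∣ val P t)).card := by
        apply card_le_card
        intro t ht
        rw [mem_filter] at ht ⊢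
        exact ⟨ht.1, (dvd_pow_self p (by omega)).trans ht.2⟩
      have h3 : (((Ioc V (2 * V)).filter (fun t => p ^ k ∣ val P t)).card : ℝ) ≤
          ((d * (V / p + 2) : ℕ) : ℝ) := by exact_mod_cast h2.trans h1
      have h4 : ((V / p : ℕ) : ℝ) ≤ V / (p : ℝ) := Nat.cast_div_le
      refine h3.trans ?_
      push_cast
      have h5 : (0 : ℝ) ≤ V / p := by positivity
      have h6 : (d : ℝ) * ((V / p : ℕ) : ℝ) ≤ d * (V / p) := mul_le_mul_of_nonneg_left h4 (by linarith)
      have h7 : (d : ℝ) * (V / p) ≤ d * (α + 1) * (V / p) := by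
        apply mul_le_mul_of_nonneg_right _ h5
        nlinarith
      linarith
  · have hjD : j * D ≤ k - (α + D + 1) := Nat.div_mul_le_self _ _
    have hk2 : α + D + 1 ≤ k := by
      by_contra hcon
      push Not at hcon
      have : k - (α + D + 1) = 0 := by omega
      rw [hj, this, Nat.zero_div] at hj0
      omega
    have h1 := hblock (j + 1) (by omega) (by
      rw [Nat.succ_mul]
      omega)
    refine h1.trans ?_
    have h2 : (V : ℝ) / (p : ℝ) ^ (j + 1) ≤ (V / p) * (1 / 2) ^ j := by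
      rw [pow_succ, mul_comm ((p : ℝ) ^ j), ← div_div, div_eq_mul_inv (V / (p : ℝ))]
      apply mul_le_mul_of_nonneg_left _ (by positivity)
      rw [one_div, inv_pow]
      exact inv_anti₀ (by positivity) (by gcongr)
    have h3 : (0 : ℝ) ≤ (V / p) * (1 / 2) ^ j := by positivity
    have h4 : (d : ℝ) * ((V / p) * (1 / 2) ^ j) ≤ d * (α + 1) * ((V / p) * (1 / 2) ^ j) := by
      apply mul_le_mul_of_nonneg_right _ h3
      nlinarith
    have h5 : (d : ℝ) * (V / (p : ℝ) ^ (j + 1)) ≤ d * ((V / p) * (1 / 2) ^ j) :=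
      mul_le_mul_of_nonneg_left h2 (by linarith)
    have h6 : (d : ℝ) * (α + 1) * ((V / p) * (1 / 2) ^ j) =
        d * (α + 1) * (V / p) * (1 / 2) ^ j := by ring
    linarith

/-- the constant of the next statement -/
noncomputable def cst (P : ℤ[X]) (d : ℕ) : ℝ :=
  (d * ((P.coeff d).natAbs + 1) : ℕ) * (((P.coeff d).natAbs + d ^ 2 + 1 : ℕ) + 2 * (d ^ 2 : ℕ))

theorem per_prime (P : ℤ[X]) (d : ℕ) (hd : 1 ≤ d) (hP : P.natDegree ≤ d) (hc : P.coeff d ≠ 0)
    {p : ℕ} (hp : p.Prime) (V X : ℕ) (hX1 : 1 ≤ X)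
    (hn0 : ∀ t ∈ Ioc V (2 * V), val P t ≠ 0) (hX : ∀ t ∈ Ioc V (2 * V), val P t ≤ X) :
    ∑ t ∈ Ioc V (2 * V), ((val P t).factorization p : ℝ) * Real.log p ≤
      cst P d * V * (Real.log p / p) + 2 * d * Real.log X := by
  have hp1 : (1 : ℝ) < p := by exact_mod_cast hp.one_lt
  have hlp : 0 < Real.log p := Real.log_pos hp1
  set K := Nat.log p X with hK
  have h1 : ∑ t ∈ Ioc V (2 * V), ((val P t).factorization p : ℝ) =
      ∑ i ∈ Icc 1 K, (((Ioc V (2 * V)).filter (fun t => p ^ i ∣ val P t)).card : ℝ) := by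
    have h2 : ∀ t ∈ Ioc V (2 * V), ((val P t).factorization p : ℝ) =
        ∑ i ∈ Icc 1 K, (if p ^ i ∣ val P t then (1 : ℝ) else 0) := by
      intro t ht
      rw [Pool.Agent.H426R3.SQ.N5.fact_card hp (hn0 t ht) (hX t ht), Finset.card_filter]
      push_cast
      rfl
    rw [Finset.sum_congr rfl h2, Finset.sum_comm]
    refine Finset.sum_congr rfl fun i _ => ?_
    rw [Finset.card_filter]
    push_cast
    rfl
  have h3 : ∑ i ∈ Icc 1 K, (((Ioc V (2 * V)).filter (fun t => p ^ i ∣ val P t)).card : ℝ) ≤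
      cst P d * (V / p) + 2 * d * K := by
    calc ∑ i ∈ Icc 1 K, (((Ioc V (2 * V)).filter (fun t => p ^ i ∣ val P t)).card : ℝ) ≤
        ∑ i ∈ Icc 1 K, ((d * ((P.coeff d).natAbs + 1) : ℕ) * (V / p : ℝ) *
        (1 / 2) ^ ((i - ((P.coeff d).natAbs + d ^ 2 + 1)) / d ^ 2) + 2 * d) :=
          Finset.sum_le_sum fun i hi => count_pk P d hd hP hc p i V hp (mem_Icc.1 hi).1
      _ = (d * ((P.coeff d).natAbs + 1) : ℕ) * (V / p : ℝ) *
          ∑ i ∈ Icc 1 K, (1 / 2 : ℝ) ^ ((i - ((P.coeff d).natAbs + d ^ 2 + 1)) / d ^ 2) +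
          2 * d * K := by
          rw [Finset.sum_add_distrib, ← Finset.mul_sum]
          simp
          ring
      _ ≤ _ := by
          have h4 := geo_sum ((P.coeff d).natAbs + d ^ 2 + 1) (d ^ 2) K (Nat.one_le_pow _ _ hd)
          have h5 : (0 : ℝ) ≤ (d * ((P.coeff d).natAbs + 1) : ℕ) * (V / p : ℝ) := by positivity
          have h6 := mul_le_mul_of_nonneg_left h4 h5
          unfold cst
          have h7 : ((d * ((P.coeff d).natAbs + 1) : ℕ) : ℝ) *
              (((P.coeff d).natAbs + d ^ 2 + 1 : ℕ) + 2 * (d ^ 2 : ℕ)) * (V / p) =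
              (d * ((P.coeff d).natAbs + 1) : ℕ) * (V / p : ℝ) *
              (((P.coeff d).natAbs + d ^ 2 + 1 : ℕ) + 2 * (d ^ 2 : ℕ)) := by ring
          rw [h7]
          linarith
  have h4 : (K : ℝ) * Real.log p ≤ Real.log X := by
    have h5 : p ^ K ≤ X := Nat.pow_log_le_self p (by omega)
    have h6 : ((p : ℝ)) ^ K ≤ X := by exact_mod_cast h5
    have h7 := Real.log_le_log (by positivity) h6
    rwa [Real.log_pow] at h7
  rw [← Finset.sum_mul, h1]
  calc (∑ i ∈ Icc 1 K, (((Ioc V (2 * V)).filter (fun t => p ^ i ∣ val P t)).card : ℝ)) * Real.log p ≤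
      (cst P d * (V / p) + 2 * d * K) * Real.log p :=
        mul_le_mul_of_nonneg_right h3 hlp.le
    _ = cst P d * V * (Real.log p / p) + 2 * d * (K * Real.log p) := by ring
    _ ≤ _ := by gcongr

open scoped Classical in
/-- the primes dividing some `val P t`, `V < t ≤ 2V` -/
noncomputable def PS (P : ℤ[X]) (V X : ℕ) : Finset ℕ :=
  (Icc 1 X).filter (fun p => p.Prime ∧ ∃ t ∈ Ioc V (2 * V), p ∣ val P t)

theorem mem_PS {P : ℤ[X]} {V X p : ℕ} : p ∈ PS P V X ↔
    (1 ≤ p ∧ p ≤ X) ∧ p.Prime ∧ ∃ t ∈ Ioc V (2 * V), p ∣ val P t := by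
  unfold PS
  simp only [Finset.mem_filter, Finset.mem_Icc]

theorem main_ineq (P : ℤ[X]) (d : ℕ) (hd : 1 ≤ d) (hP : P.natDegree ≤ d) (hc : P.coeff d ≠ 0)
    (V X : ℕ) (hX1 : 1 ≤ X) (ℓ : ℝ) (hlow : ∀ t ∈ Ioc V (2 * V), ℓ ≤ Real.log (val P t))
    (hn0 : ∀ t ∈ Ioc V (2 * V), val P t ≠ 0)
    (hX : ∀ t ∈ Ioc V (2 * V), val P t ≤ X) :
    V * ℓ ≤ ∑ p ∈ PS P V X, (cst P d * V * (Real.log p / p) + 2 * d * Real.log X) := by
  have h3 : ∀ t ∈ Ioc V (2 * V), Real.log (val P t) =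
      ∑ p ∈ PS P V X, ((val P t).factorization p : ℝ) * Real.log p := by
    intro t ht
    rw [Real.log_nat_eq_sum_factorization, Finsupp.sum]
    refine Finset.sum_subset ?_ ?_
    · intro p hp
      rw [Nat.support_factorization, Nat.mem_primeFactors] at hp
      obtain ⟨h4, h5, h6⟩ := hp
      refine mem_PS.2 ⟨⟨h4.one_lt.le, (Nat.le_of_dvd (Nat.pos_of_ne_zero h6) h5).trans (hX t ht)⟩,
        h4, t, ht, h5⟩
    · intro p _ hp
      rw [Finsupp.notMem_support_iff] at hp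
      rw [hp]
      simp
  calc V * ℓ = ∑ t ∈ Ioc V (2 * V), ℓ := by
        rw [sum_const, Nat.card_Ioc, nsmul_eq_mul]
        congr 1
        have : 2 * V - V = V := by omega
        rw [this]
    _ ≤ ∑ t ∈ Ioc V (2 * V), Real.log (val P t) := Finset.sum_le_sum hlow
    _ = ∑ t ∈ Ioc V (2 * V), ∑ p ∈ PS P V X, ((val P t).factorization p : ℝ) * Real.log p :=
        Finset.sum_congr rfl h3
    _ = ∑ p ∈ PS P V X, ∑ t ∈ Ioc V (2 * V), ((val P t).factorization p : ℝ) * Real.log p :=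
        Finset.sum_comm
    _ ≤ _ := by
        refine Finset.sum_le_sum fun p hp => ?_
        exact per_prime P d hd hP hc (mem_PS.1 hp).2.1 V X hX1 hn0 hX

end Run7.h63.PV
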