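import Pool.Agent.Run7.h63.PM2

set_option autoImplicit false
set_option maxHeartbeats 400000

/-! # Many primes for which a shifted polynomial has a root (helper63) -/

namespace Run7.h63.PV

open Finset Polynomial

/-- growth of a polynomial -/
theorem growth (f : ℤ[X]) (hd : 1 ≤ f.natDegree) : ∃ t₀ : ℕ, 1 ≤ t₀ ∧ ∀ t : ℤ, (t₀ : ℤ) ≤ t →
    2 * |f.eval t - f.leadingCoeff * t ^ f.natDegree| ≤ t ^ f.natDegree := by
  set d := f.natDegree with hdd
  set S : ℤ := ∑ i ∈ range d, |f.coeff i| with hS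
  have hS0 : 0 ≤ S := sum_nonneg fun _ _ => abs_nonneg _
  refine ⟨2 * S.natAbs + 1, by omega, fun t ht => ?_⟩
  have hSn : ((S.natAbs : ℕ) : ℤ) = S := Int.natAbs_of_nonneg hS0
  rw [Nat.cast_add, Nat.cast_mul, hSn] at ht
  push_cast at ht
  have ht1 : 1 ≤ t := by linarith
  have h1 : f.eval t - f.leadingCoeff * t ^ d = ∑ i ∈ range d, f.coeff i * t ^ i := by
    rw [eval_eq_sum_range, sum_range_succ]
    unfold leadingCoeff
    rw [← hdd]
    ring
  rw [h1]
  have h2 : |∑ i ∈ range d, f.coeff i * t ^ i| ≤ S * t ^ (d - 1) := by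
    rw [hS, sum_mul]
    refine (abs_sum_le_sum_abs _ _).trans (sum_le_sum fun i hi => ?_)
    rw [mem_range] at hi
    rw [abs_mul]
    apply mul_le_mul_of_nonneg_left _ (abs_nonneg _)
    rw [abs_of_nonneg (by positivity)]
    exact pow_le_pow_right₀ ht1 (by omega)
  have h3 : t ^ d = t * t ^ (d - 1) := by
    rw [← pow_succ']
    congr 1
    omega
  have h4 : 0 ≤ t ^ (d - 1) := by positivity
  rw [h3]
  have h5 : 2 * S * t ^ (d - 1) ≤ t * t ^ (d - 1) := mul_le_mul_of_nonneg_right (by linarith) h4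
  linarith

theorem coeff_add_C (f : ℤ[X]) (u : ℤ) (hd : 1 ≤ f.natDegree) :
    (f + C u).coeff f.natDegree = f.leadingCoeff := by
  rw [coeff_add, coeff_C, if_neg (by omega), add_zero]
  rfl

theorem natDegree_add_C' (f : ℤ[X]) (u : ℤ) : (f + C u).natDegree ≤ f.natDegree := by
  rw [natDegree_add_C]

open scoped Classical in
/-- primes above `y` for which `f + u` has a root -/
noncomputable def RP (f : ℤ[X]) (u : ℤ) (y : ℝ) (A : ℕ) : Finset ℕ :=
  (Icc 1 ⌊y ^ A⌋₊).filter (fun p : ℕ => p.Prime ∧ y < (p : ℝ) ∧ ∃ t : ℤ, (p : ℤ) ∣ f.eval t + u)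

theorem many_primes (f : ℤ[X]) (hd : 1 ≤ f.natDegree) (hlc : 0 < f.leadingCoeff) :
    ∃ A : ℕ, ∃ y₀ : ℝ, ∀ y : ℝ, y₀ ≤ y → ∀ u : ℤ, |(u : ℝ)| ≤ y ^ 2 →
      y ≤ ((RP f u y A).card : ℝ) := by
  classical
  obtain ⟨C', hC0, hC⟩ := Pool.Agent.H426R3.SQ.N5.mertens'
  obtain ⟨t₀, ht₀, hgr⟩ := growth f hd
  set d := f.natDegree with hdd
  set a : ℤ := f.leadingCoeff with ha
  set C₁ : ℝ := cst f d with hC₁
  have hC₁0 : 0 ≤ C₁ := by rw [hC₁]; unfold cst; positivity
  set B : ℕ := 2 * ⌈C₁⌉₊ + 3 with hB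
  have hBr : 2 * C₁ + 3 ≤ (B : ℝ) := by
    rw [hB]; push_cast
    have := Nat.le_ceil C₁
    linarith
  set A : ℕ := 2 * ((B + 1) * d) + 1 with hA
  have hd1 : (1 : ℝ) ≤ d := by exact_mod_cast hd
  refine ⟨A, max (max 100 (Real.exp (3 + C₁ * C'))) (max (max t₀ (a + 2)) (2 * d * A + 1)),
    fun y hy u hu => ?_⟩
  have hy1 : (100 : ℝ) ≤ y := (le_max_left _ _).trans ((le_max_left _ _).trans hy)
  have hy2 : Real.exp (3 + C₁ * C') ≤ y := (le_max_right _ _).trans ((le_max_left _ _).trans hy)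
  have hy3 : (t₀ : ℝ) ≤ y :=
    (le_max_left _ _).trans ((le_max_left _ _).trans ((le_max_right _ _).trans hy))
  have hy4 : (a : ℝ) + 2 ≤ y :=
    (le_max_right _ _).trans ((le_max_left _ _).trans ((le_max_right _ _).trans hy))
  have hy5 : 2 * (d : ℝ) * A + 1 ≤ y := (le_max_right _ _).trans ((le_max_right _ _).trans hy)
  have hy0 : (0 : ℝ) < y := by linarith
  set L := Real.log y with hL
  have hyL : 3 + C₁ * C' ≤ L := by
    rw [hL, Real.le_log_iff_exp_le hy0]
    exact hy2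
  have hCC : 0 ≤ C₁ * C' := mul_nonneg hC₁0 hC0
  have hL0 : 0 < L := by linarith
  have hLy : L ≤ y := (Real.log_le_sub_one_of_pos hy0).trans (by linarith)
  set V : ℕ := ⌈y⌉₊ ^ B with hV
  have hc1 : y ≤ (⌈y⌉₊ : ℝ) := Nat.le_ceil y
  have hc2 : (⌈y⌉₊ : ℝ) ≤ 2 * y := by
    have := Nat.ceil_lt_add_one hy0.le
    linarith
  have hVB : y ^ B ≤ (V : ℝ) := by
    rw [hV]; push_cast
    gcongr
  have hV1 : y ^ 3 ≤ (V : ℝ) :=
    (pow_le_pow_right₀ (by linarith) (by omega)).trans hVB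
  have hV2 : (V : ℝ) ≤ (2 * y) ^ B := by
    rw [hV]; push_cast
    gcongr
  have hVpos : (0 : ℝ) < V := lt_of_lt_of_le (by positivity) hV1
  have hVn : 1 ≤ V := by exact_mod_cast hVpos
  have hy3b : y * y ^ 2 = y ^ 3 := by ring
  have hVy : 4 * y ^ 2 ≤ V := by
    refine le_trans ?_ hV1
    rw [← hy3b]
    exact mul_le_mul_of_nonneg_right (by linarith) (by positivity)
  have hyy : y ≤ y ^ 2 := by nlinarith
  set X : ℕ := ⌊y ^ A⌋₊ with hX
  have hXr : (X : ℝ) ≤ y ^ A := Nat.floor_le (by positivity)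
  have hX1 : 1 ≤ X := by
    rw [hX, Nat.one_le_floor_iff]
    exact one_le_pow₀ (by linarith)
  set P : ℤ[X] := f + C u with hPdef
  have hPd : P.natDegree ≤ d := natDegree_add_C' f u
  have hPc : P.coeff d = a := coeff_add_C f u hd
  have hPc0 : P.coeff d ≠ 0 := by rw [hPc]; exact hlc.ne'
  have hcst : cst P d = C₁ := by
    rw [hC₁]
    unfold cst
    rw [hPc, ha]
    rfl
  have hev : ∀ t : ℤ, P.eval t = f.eval t + u := by
    intro t
    rw [hPdef, eval_add, eval_C]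
  -- sizes of the values
  have hsize : ∀ t ∈ Ioc V (2 * V), ((V : ℝ)) ^ d / 4 ≤ (val P t : ℝ) ∧ val P t ≤ X := by
    intro t ht
    have ht1 : (V : ℝ) < t := by exact_mod_cast (mem_Ioc.1 ht).1
    have ht2 : (t : ℝ) ≤ 2 * V := by exact_mod_cast (mem_Ioc.1 ht).2
    have ht3 : (t₀ : ℤ) ≤ (t : ℤ) := by
      have : (t₀ : ℝ) ≤ (t : ℝ) := by linarith
      exact_mod_cast this
    have h1 := hgr t ht3
    have h1' : 2 * |((f.eval (t : ℤ) : ℤ) : ℝ) - a * (t : ℝ) ^ d| ≤ (t : ℝ) ^ d := by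
      exact_mod_cast h1
    have h2 : (val P t : ℝ) = |((f.eval (t : ℤ) : ℤ) : ℝ) + u| := by
      unfold val
      rw [Nat.cast_natAbs, hev]
      push_cast
      rfl
    have ht0 : (0 : ℝ) ≤ t := by linarith
    have htd : (t : ℝ) ≤ (t : ℝ) ^ d := le_self_pow₀ (by linarith) (by omega)
    have hVd : (V : ℝ) ^ d ≤ (t : ℝ) ^ d := pow_le_pow_left₀ hVpos.le ht1.le d
    have ha1 : (1 : ℝ) ≤ a := by exact_mod_cast hlc
    have h3 := abs_le.1 (show |((f.eval (t : ℤ) : ℤ) : ℝ) - a * (t : ℝ) ^ d| ≤ (t : ℝ) ^ d / 2 by linarith)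
    have h4 := abs_le.1 hu
    have h5 : 1 * (t : ℝ) ^ d ≤ a * (t : ℝ) ^ d := mul_le_mul_of_nonneg_right ha1 (by positivity)
    have hu4 : y ^ 2 ≤ (t : ℝ) ^ d / 4 := by linarith
    have hpos : (t : ℝ) ^ d / 4 ≤ ((f.eval (t : ℤ) : ℤ) : ℝ) + u := by linarith
    have h6 : (0 : ℝ) ≤ ((f.eval (t : ℤ) : ℤ) : ℝ) + u := by
      have : (0 : ℝ) ≤ (t : ℝ) ^ d := by positivity
      linarith
    constructor
    · rw [h2, abs_of_nonneg h6]
      linarith
    · apply Nat.le_floor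
      rw [h2, abs_of_nonneg h6]
      have h7 : ((f.eval (t : ℤ) : ℤ) : ℝ) + u ≤ (a + 1) * (t : ℝ) ^ d := by
        have : (a + 1) * (t : ℝ) ^ d = a * (t : ℝ) ^ d + (t : ℝ) ^ d := by ring
        rw [this]
        linarith
      have h8 : (t : ℝ) ^ d ≤ (2 * y) ^ ((B + 1) * d) := by
        rw [pow_mul]
        apply pow_le_pow_left₀ ht0
        refine ht2.trans ?_
        rw [pow_succ]
        have : (0 : ℝ) ≤ (2 * y) ^ B := by positivity
        nlinarith
      have h9 : (2 * y) ^ ((B + 1) * d) ≤ (y ^ 2) ^ ((B + 1) * d) :=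
        pow_le_pow_left₀ (by positivity) (by nlinarith) _
      calc ((f.eval (t : ℤ) : ℤ) : ℝ) + u ≤ (a + 1) * (t : ℝ) ^ d := h7
        _ ≤ y * (y ^ 2) ^ ((B + 1) * d) := by
            apply mul_le_mul (by linarith) (h8.trans h9) (by positivity) hy0.le
        _ = y ^ A := by
            rw [hA, ← pow_mul, ← pow_succ']
  have hlogX : Real.log X ≤ A * L := by
    have h1 := Real.log_le_log (by exact_mod_cast hX1) hXr
    rw [Real.log_pow] at h1
    exact h1
  have hlogX0 : 0 ≤ Real.log X := Real.log_nonneg (by exact_mod_cast hX1)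
  have hn0 : ∀ t ∈ Ioc V (2 * V), val P t ≠ 0 := by
    intro t ht h0
    have h1 := (hsize t ht).1
    rw [h0] at h1
    have h2 : (0 : ℝ) < (V : ℝ) ^ d / 4 := by positivity
    simp at h1
    linarith
  have hlog4 : Real.log 4 ≤ 2 := by
    have : (4:ℝ) = 2 ^ 2 := by norm_num
    rw [this, Real.log_pow]
    have := Real.log_two_lt_d9
    push_cast
    linarith
  have hlow : ∀ t ∈ Ioc V (2 * V), (B : ℝ) * L - 2 ≤ Real.log (val P t) := by
    intro t ht
    have h1 := Real.log_le_log (by positivity) (hsize t ht).1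
    rw [Real.log_div (by positivity) (by norm_num), Real.log_pow] at h1
    have h2 := Real.log_le_log (by positivity) hVB
    rw [Real.log_pow] at h2
    have h3 : (B : ℝ) * L ≤ d * ((B : ℝ) * L) := by
      have : 0 ≤ (B : ℝ) * L := by positivity
      nlinarith
    have h4 : (d : ℝ) * ((B : ℝ) * L) ≤ d * Real.log V := mul_le_mul_of_nonneg_left h2 (by linarith)
    linarith
  have hmain := main_ineq P d hd hPd hPc0 V X hX1 _ hlow hn0 (fun t ht => (hsize t ht).2)
  rw [hcst] at hmain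
  set S := PS P V X with hS
  set S1 := S.filter (fun p : ℕ => (p : ℝ) ≤ y) with hS1
  set S2 := S.filter (fun p : ℕ => ¬ (p : ℝ) ≤ y) with hS2
  have hsplit := Finset.sum_filter_add_sum_filter_not S (fun p : ℕ => (p : ℝ) ≤ y)
    (fun p : ℕ => (C₁ * V * (Real.log p / p) + 2 * d * Real.log X))
  rw [← hS1, ← hS2] at hsplit
  -- small primes
  have hN1 : 1 ≤ ⌊y⌋₊ := by
    rw [Nat.one_le_floor_iff]; linarith
  have hsub1 : S1 ⊆ (Icc 1 ⌊y⌋₊).filter Nat.Prime := by
    intro p hp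
    obtain ⟨h1, h2⟩ := Finset.mem_filter.1 hp
    obtain ⟨h3, h4, -⟩ := mem_PS.1 h1
    rw [Finset.mem_filter, Finset.mem_Icc]
    exact ⟨⟨h3.1, Nat.le_floor h2⟩, h4⟩
  have hb1 : ∑ p ∈ S1, (C₁ * V * (Real.log p / p) + 2 * d * Real.log X) ≤
      C₁ * V * (L + C') + y * (2 * d * (A * L)) := by
    have hnn : ∀ p : ℕ, p.Prime → 0 ≤ Real.log p / (p : ℝ) := by
      intro p hp
      have hp1 : (1 : ℝ) < p := by exact_mod_cast hp.one_lt
      exact div_nonneg (Real.log_nonneg hp1.le) (by linarith)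
    calc ∑ p ∈ S1, (C₁ * V * (Real.log p / p) + 2 * d * Real.log X) ≤
        ∑ p ∈ (Icc 1 ⌊y⌋₊).filter Nat.Prime,
          (C₁ * V * (Real.log p / p) + 2 * d * Real.log X) := by
          refine Finset.sum_le_sum_of_subset_of_nonneg hsub1 ?_
          intro p hp _
          have := hnn p (Finset.mem_filter.1 hp).2
          positivity
      _ = C₁ * V * ∑ p ∈ (Icc 1 ⌊y⌋₊).filter Nat.Prime, (Real.log p / p) +
          (((Icc 1 ⌊y⌋₊).filter Nat.Prime).card : ℝ) * (2 * d * Real.log X) := by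
          rw [Finset.sum_add_distrib, ← Finset.mul_sum, Finset.sum_const, nsmul_eq_mul]
      _ ≤ C₁ * V * (L + C') + y * (2 * d * (A * L)) := by
          have h1 := hC ⌊y⌋₊ hN1
          have h2 : Real.log (⌊y⌋₊ : ℝ) ≤ L :=
            Real.log_le_log (by exact_mod_cast hN1) (Nat.floor_le hy0.le)
          have h3 : (((Icc 1 ⌊y⌋₊).filter Nat.Prime).card : ℝ) ≤ y := by
            have h4 : ((Icc 1 ⌊y⌋₊).filter Nat.Prime).card ≤ ⌊y⌋₊ := by
              refine (Finset.card_filter_le _ _).trans ?_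
              simp
            calc (((Icc 1 ⌊y⌋₊).filter Nat.Prime).card : ℝ) ≤ (⌊y⌋₊ : ℝ) := by exact_mod_cast h4
              _ ≤ y := Nat.floor_le hy0.le
          have h5 : ∑ p ∈ (Icc 1 ⌊y⌋₊).filter Nat.Prime, (Real.log p / (p : ℝ)) ≤ L + C' := by
            have h6 : ∑ p ∈ (Icc 1 ⌊y⌋₊).filter Nat.Prime, (Real.log p / (p : ℝ)) ≤
                ∑ p ∈ (Icc 1 ⌊y⌋₊).filter Nat.Prime, (Real.log p / ((p : ℝ) - 1)) := by
              refine sum_le_sum fun p hp => ?_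
              have hp1 : (1 : ℝ) < p := by exact_mod_cast (mem_filter.1 hp).2.one_lt
              apply div_le_div_of_nonneg_left (Real.log_nonneg hp1.le) (by linarith) (by linarith)
            linarith
          gcongr
  -- large primes
  have hb2 : ∑ p ∈ S2, (C₁ * V * (Real.log p / p) + 2 * d * Real.log X) ≤
      (S2.card : ℝ) * ((C₁ + 1) * V * L / y) := by
    rw [← nsmul_eq_mul]
    refine Finset.sum_le_card_nsmul _ _ _ ?_
    intro p hp
    have h1 : y < (p : ℝ) := not_le.1 (Finset.mem_filter.1 hp).2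
    have hp0 : (0 : ℝ) < p := by linarith
    have h2 : Real.log p / p ≤ L / y := by
      have he : Real.exp 1 ≤ y := by
        have := Real.exp_one_lt_d9
        linarith
      exact Real.log_div_self_antitoneOn he (he.trans h1.le) h1.le
    have h4 : 2 * d * (A * L) ≤ V * (L / y) := by
      have h5 : 2 * d * A * y ≤ (V : ℝ) := by
        refine le_trans ?_ hV1
        rw [← hy3b]
        have h6 : y * (2 * d * A) ≤ y * y := mul_le_mul_of_nonneg_left (by linarith) hy0.le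
        have h7 : y * y ≤ y * y ^ 2 := mul_le_mul_of_nonneg_left hyy hy0.le
        linarith
      calc 2 * d * (A * L) = (2 * d * A * y) * (L / y) := by field_simp
        _ ≤ V * (L / y) := by gcongr
    calc C₁ * V * (Real.log p / p) + 2 * d * Real.log X ≤
        C₁ * V * (L / y) + 2 * d * (A * L) := by gcongr
      _ ≤ C₁ * V * (L / y) + V * (L / y) := by linarith
      _ = (C₁ + 1) * V * L / y := by ring
  have hsub2 : S2 ⊆ RP f u y A := by
    intro p hp
    obtain ⟨h1, h2⟩ := Finset.mem_filter.1 hp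
    obtain ⟨h3, h4, t, -, h5⟩ := mem_PS.1 h1
    unfold RP
    rw [Finset.mem_filter, Finset.mem_Icc]
    refine ⟨h3, h4, not_le.1 h2, (t : ℤ), ?_⟩
    have h6 := dvd_val.1 h5
    rwa [hev] at h6
  have hcard : (S2.card : ℝ) ≤ ((RP f u y A).card : ℝ) := by
    exact_mod_cast Finset.card_le_card hsub2
  refine le_trans ?_ hcard
  have h1 : V * ((B : ℝ) * L - 2) ≤ C₁ * V * (L + C') + y * (2 * d * (A * L)) +
      (S2.card : ℝ) * ((C₁ + 1) * V * L / y) := by linarith
  have h2 : y * (2 * d * (A * L)) ≤ V := by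
    refine le_trans ?_ hV1
    calc y * (2 * d * (A * L)) = y * ((2 * d * A) * L) := by ring
      _ ≤ y * (y * y) := by
          apply mul_le_mul_of_nonneg_left _ hy0.le
          apply mul_le_mul (by linarith) hLy hL0.le hy0.le
      _ = y ^ 3 := by ring
  have h3 : (V : ℝ) * ((B : ℝ) * L - 3 - C₁ * L - C₁ * C') ≤
      V * ((S2.card : ℝ) * ((C₁ + 1) * L / y)) := by
    have h4 : (S2.card : ℝ) * ((C₁ + 1) * V * L / y) = V * ((S2.card : ℝ) * ((C₁ + 1) * L / y)) := by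
      ring
    rw [h4] at h1
    have e : (V : ℝ) * ((B : ℝ) * L - 3 - C₁ * L - C₁ * C') =
        V * ((B : ℝ) * L - 2) - V - C₁ * V * (L + C') := by ring
    rw [e]
    linarith
  have h4 := le_of_mul_le_mul_left h3 hVpos
  have h5 : (2 * C₁ + 3) * L ≤ B * L := mul_le_mul_of_nonneg_right hBr hL0.le
  have h6 : (C₁ + 1) * L ≤ (S2.card : ℝ) * ((C₁ + 1) * L / y) := by linarith
  have h7 : (S2.card : ℝ) * ((C₁ + 1) * L / y) = (C₁ + 1) * L * ((S2.card : ℝ) / y) := by ring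
  rw [h7] at h6
  have h8 : 0 < (C₁ + 1) * L := by positivity
  have h9 : 1 ≤ (S2.card : ℝ) / y := by
    by_contra hcon
    push Not at hcon
    have := mul_lt_mul_of_pos_left hcon h8
    linarith
  rw [le_div_iff₀ hy0] at h9
  linarith

end Run7.h63.PV
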