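import Pool.Agent.H426R3.SQ.M1a
import Pool.Agent.H426R3.SQ.S3e
import Pool.Agent.Run7.h63.PM3

set_option autoImplicit false
set_option maxHeartbeats 400000

/-! # The arithmetic core: residue classes around the values of several polynomials (helper63) -/

namespace Run7.h63.PV

open Finset Polynomial Pool.Agent.H426R3.SQ Pool.Agent.H256R2.SC

open scoped Classical

/-- the survivors of the first two steps in `[1, T]`, with the second class given by `e` -/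
noncomputable def SV (y : ℝ) (T : ℕ) (e : ℤ) : Finset ℕ :=
  (Finset.Icc 1 T).filter (fun u : ℕ =>
      (∀ p : ℕ, p.Prime → zR y < (p : ℝ) → (p : ℝ) ≤ y → ¬ p ∣ u) ∧
      (∀ p : ℕ, p.Prime → (p : ℝ) ≤ zR y → ¬ (p : ℤ) ∣ (u : ℤ) + e))

/-- the surviving shifts -/
noncomputable def G1 (f : ℤ[X]) (n₁ n₂ : ℤ) (y : ℝ) (T : ℕ) : Finset ℤ :=
  (Icc (-(T : ℤ)) (T : ℤ)).filter (fun u =>
    (∀ p : ℕ, p.Prime → zR y < (p : ℝ) → (p : ℝ) ≤ y → ¬ (p : ℤ) ∣ f.eval n₂ + u) ∧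
    (∀ p : ℕ, p.Prime → (p : ℝ) ≤ zR y → ¬ (p : ℤ) ∣ f.eval n₁ + u))

theorem G1_card (f : ℤ[X]) (n₁ n₂ : ℤ) (y : ℝ) (T T₀ : ℕ) (hT : (T : ℤ) + |f.eval n₂| ≤ T₀) :
    ((G1 f n₁ n₂ y T).card : ℝ) ≤ ((SV y T₀ (f.eval n₁ - f.eval n₂)).card : ℝ) +
      ((SV y T₀ (-(f.eval n₁ - f.eval n₂))).card : ℝ) + 1 := by
  set γ : ℤ := f.eval n₂ with hγ
  set e : ℤ := f.eval n₁ - γ with he
  have hsub : G1 f n₁ n₂ y T ⊆ ((SV y T₀ e).image (fun v : ℕ => (v : ℤ) - γ) ∪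
      (SV y T₀ (-e)).image (fun v : ℕ => -(v : ℤ) - γ)) ∪ {-γ} := by
    intro u hu
    unfold G1 at hu
    rw [mem_filter, mem_Icc, ← hγ] at hu
    obtain ⟨⟨h1, h2⟩, h6, h7⟩ := hu
    have hg1 := le_abs_self γ
    have hg2 := neg_abs_le γ
    by_cases hne : γ + u = 0
    · apply mem_union_right
      rw [mem_singleton]
      linarith
    apply mem_union_left
    rcases lt_or_gt_of_ne hne with h | h
    · apply mem_union_right
      obtain ⟨v, hv⟩ := Int.eq_ofNat_of_zero_le (show 0 ≤ -(γ + u) by linarith)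
      have hv' : u = -(v : ℤ) - γ := by linarith
      refine mem_image.mpr ⟨v, ?_, hv'.symm⟩
      unfold SV
      rw [mem_filter, mem_Icc]
      refine ⟨⟨by omega, by omega⟩, fun p hp hp1 hp2 hd => h6 p hp hp1 hp2 ?_,
        fun p hp hp1 hd => h7 p hp hp1 ?_⟩
      · have e1 : γ + u = -(v : ℤ) := by rw [hv']; ring
        rw [e1]
        exact (Int.dvd_neg).mpr (by exact_mod_cast hd)
      · have e1 : f.eval n₁ + u = -((v : ℤ) + (-e)) := by rw [hv', he]; ring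
        rw [e1]
        exact (Int.dvd_neg).mpr hd
    · apply mem_union_left
      obtain ⟨v, hv⟩ := Int.eq_ofNat_of_zero_le h.le
      have hv' : u = (v : ℤ) - γ := by linarith
      refine mem_image.mpr ⟨v, ?_, hv'.symm⟩
      unfold SV
      rw [mem_filter, mem_Icc]
      refine ⟨⟨by omega, by omega⟩, fun p hp hp1 hp2 hd => h6 p hp hp1 hp2 ?_,
        fun p hp hp1 hd => h7 p hp hp1 ?_⟩
      · have e1 : γ + u = (v : ℤ) := by rw [hv']; ring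
        rw [e1]
        exact_mod_cast hd
      · have e1 : f.eval n₁ + u = (v : ℤ) + e := by rw [hv', he]; ring
        rw [e1]
        exact hd
  have h1 : (G1 f n₁ n₂ y T).card ≤ (SV y T₀ e).card + (SV y T₀ (-e)).card + 1 := by
    refine (card_le_card hsub).trans ((card_union_le _ _).trans ?_)
    have h2 := card_union_le ((SV y T₀ e).image (fun v : ℕ => (v : ℤ) - γ))
      ((SV y T₀ (-e)).image (fun v : ℕ => -(v : ℤ) - γ))
    have h3 : ((SV y T₀ e).image (fun v : ℕ => (v : ℤ) - γ)).card ≤ (SV y T₀ e).card :=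
      card_image_le
    have h4 : ((SV y T₀ (-e)).image (fun v : ℕ => -(v : ℤ) - γ)).card ≤ (SV y T₀ (-e)).card :=
      card_image_le
    rw [card_singleton]
    omega
  exact_mod_cast h1

/-- the surviving pairs -/
noncomputable def GG {ι : Type} [Fintype ι] (f : ι → ℤ[X]) (n₁ n₂ : ℤ) (y : ℝ) (T : ℕ) :
    Finset (ι × ℤ) :=
  univ.biUnion (fun i => (G1 (f i) n₁ n₂ y T).image (fun u => (i, u)))

theorem mem_GG {ι : Type} [Fintype ι] {f : ι → ℤ[X]} {n₁ n₂ : ℤ} {y : ℝ} {T : ℕ} {q : ι × ℤ} :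
    q ∈ GG f n₁ n₂ y T ↔ q.2 ∈ G1 (f q.1) n₁ n₂ y T := by
  unfold GG
  rw [mem_biUnion]
  constructor
  · rintro ⟨i, -, h⟩
    obtain ⟨u, hu, rfl⟩ := mem_image.1 h
    exact hu
  · intro h
    exact ⟨q.1, mem_univ _, mem_image.2 ⟨q.2, h, rfl⟩⟩

theorem GG_card {ι : Type} [Fintype ι] (f : ι → ℤ[X]) (n₁ n₂ : ℤ) (y : ℝ) (T : ℕ) :
    (GG f n₁ n₂ y T).card ≤ ∑ i, (G1 (f i) n₁ n₂ y T).card := by
  unfold GG
  exact card_biUnion_le.trans (sum_le_sum fun i _ => card_image_le)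

theorem eval_congr {f : ℤ[X]} {p a b : ℤ} (h : p ∣ a - b) (u : ℤ) :
    p ∣ f.eval a + u ↔ p ∣ f.eval b + u := by
  have h1 : p ∣ f.eval a - f.eval b := h.trans (sub_dvd_eval_sub a b f)
  constructor
  · intro h2
    have h3 := dvd_sub h2 h1
    have e : f.eval a + u - (f.eval a - f.eval b) = f.eval b + u := by ring
    rwa [e] at h3
  · intro h2
    have h3 := dvd_add h2 h1
    have e : f.eval b + u + (f.eval a - f.eval b) = f.eval a + u := by ring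
    rwa [e] at h3

/-- the arithmetic core -/
theorem core {ι : Type} [Fintype ι] (f : ι → ℤ[X]) (n₁ n₂ : ℤ) {y : ℝ} (hy0 : 0 ≤ y)
    (hzy : zR y ≤ y) (T : ℕ) (P9 R : ℝ) (hP9 : 1 ≤ P9) (pu : ι × ℤ → ℕ)
    (hpu : ∀ q ∈ GG f n₁ n₂ y T, (pu q).Prime ∧ y < (pu q : ℝ) ∧ (pu q : ℝ) ≤ P9 ∧
      ∃ t : ℤ, (pu q : ℤ) ∣ (f q.1).eval t + q.2)
    (hinj : Set.InjOn pu (GG f n₁ n₂ y T : Set (ι × ℤ)))
    (hR1 : y ≤ R) (hR2 : P9 ≤ R) :
    ∃ (W : ℕ) (r : ℤ), 1 ≤ W ∧ (W : ℝ) ≤ (primorial ⌊y⌋₊ : ℝ) * P9 ^ (GG f n₁ n₂ y T).card ∧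
      ∀ n : ℤ, (W : ℤ) ∣ n - r → ∀ i : ι, ∀ u : ℤ, |u| ≤ (T : ℤ) →
        ∃ p : ℕ, p.Prime ∧ (p : ℝ) ≤ R ∧ (p : ℤ) ∣ (f i).eval n + u := by
  set G := GG f n₁ n₂ y T with hG
  set S₁ : Finset ℕ := (range (⌊y⌋₊ + 1)).filter Nat.Prime with hS₁
  set B : Finset ℕ := G.image pu with hB
  have hS₁mem : ∀ p : ℕ, p ∈ S₁ ↔ p.Prime ∧ (p : ℝ) ≤ y := by
    intro p
    rw [hS₁, mem_filter, mem_range, Nat.lt_succ_iff, Nat.le_floor_iff hy0]
    exact and_comm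
  have hBmem : ∀ p ∈ B, p.Prime ∧ y < (p : ℝ) ∧ (p : ℝ) ≤ P9 := by
    intro p hp
    obtain ⟨u, hu, rfl⟩ := mem_image.mp hp
    exact ⟨(hpu u hu).1, (hpu u hu).2.1, (hpu u hu).2.2.1⟩
  have hdisj : Disjoint S₁ B := by
    rw [Finset.disjoint_left]
    intro p h1 h2
    have h3 := ((hS₁mem p).mp h1).2
    have h4 := (hBmem p h2).2.1
    linarith
  set S : Finset ℕ := S₁ ∪ B with hS
  have hSp : ∀ p ∈ S, p.Prime := by
    intro p hp
    rcases mem_union.mp hp with h | h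
    · exact ((hS₁mem p).mp h).1
    · exact (hBmem p h).1
  set W : ℕ := ∏ p ∈ S, p with hWdef
  have hWeq : W = primorial ⌊y⌋₊ * ∏ p ∈ B, p := by
    rw [hWdef, hS, prod_union hdisj]
    rfl
  have hWpos : 1 ≤ W := Nat.one_le_iff_ne_zero.mpr
    (Finset.prod_ne_zero_iff.mpr fun p hp => (hSp p hp).ne_zero)
  have hWle : (W : ℝ) ≤ (primorial ⌊y⌋₊ : ℝ) * P9 ^ G.card := by
    rw [hWeq]
    push_cast
    apply mul_le_mul_of_nonneg_left _ (Nat.cast_nonneg _)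
    calc ∏ p ∈ B, (p : ℝ) ≤ ∏ p ∈ B, P9 :=
          prod_le_prod (fun _ _ => Nat.cast_nonneg _) fun p hp => (hBmem p hp).2.2
      _ = P9 ^ B.card := by rw [prod_const]
      _ ≤ P9 ^ G.card := pow_le_pow_right₀ hP9 (by rw [hB]; exact card_image_le)
  -- roots for the surviving pairs
  have hroot : ∀ p : ℕ, ∃ t : ℤ, ∀ q ∈ G, pu q = p → (p : ℤ) ∣ (f q.1).eval t + q.2 := by
    intro p
    by_cases h : ∃ q ∈ G, pu q = p
    · obtain ⟨q, hq, hqp⟩ := h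
      obtain ⟨q1, q2, _, t, ht⟩ := hpu q hq
      refine ⟨t, fun v hv hvp => ?_⟩
      have : v = q := hinj hv hq (hvp.trans hqp.symm)
      rw [this, ← hqp]
      exact ht
    · exact ⟨0, fun q hq hqp => absurd ⟨q, hq, hqp⟩ h⟩
  choose tt htt using hroot
  obtain ⟨r, hr⟩ := crt_int S (fun p => (p : ℤ)) (by
      intro i hi j hj hij
      exact Nat.isCoprime_iff_coprime.mpr ((Nat.coprime_primes (hSp i hi) (hSp j hj)).mpr hij))
    (fun p => if (p : ℝ) ≤ zR y then n₁ else if (p : ℝ) ≤ y then n₂ else tt p)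
  refine ⟨W, r, hWpos, hWle, fun n hn i u hu => ?_⟩
  have hdiv : ∀ p ∈ S, (p : ℤ) ∣ n - (if (p : ℝ) ≤ zR y then n₁ else if (p : ℝ) ≤ y then n₂
      else tt p) := by
    intro p hp
    have h1 : (p : ℤ) ∣ n - r := by
      refine dvd_trans ?_ hn
      exact_mod_cast Finset.dvd_prod_of_mem (fun p => p) hp
    have h2 := dvd_add h1 (hr p hp)
    have e : n - r + (r - (if (p : ℝ) ≤ zR y then n₁ else if (p : ℝ) ≤ y then n₂
      else tt p)) = n - (if (p : ℝ) ≤ zR y then n₁ else if (p : ℝ) ≤ y then n₂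
      else tt p) := by ring
    rwa [e] at h2
  by_cases hGu : (i, u) ∈ G
  · obtain ⟨h1, h2, h3, -⟩ := hpu _ hGu
    have hpS : pu (i, u) ∈ S := mem_union_right _ (mem_image.mpr ⟨_, hGu, rfl⟩)
    have h4 := hdiv _ hpS
    rw [if_neg (not_le.mpr (lt_of_le_of_lt hzy h2)), if_neg (not_le.mpr h2)] at h4
    have h5 := htt (pu (i, u)) (i, u) hGu rfl
    exact ⟨pu (i, u), h1, h3.trans hR2, (eval_congr h4 u).2 h5⟩
  · rw [hG, mem_GG] at hGu
    simp only at hGu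
    unfold G1 at hGu
    rw [mem_filter, mem_Icc, ← abs_le] at hGu
    by_contra hcon
    push Not at hcon
    apply hGu
    refine ⟨hu, ?_, ?_⟩
    · intro p hp hp1 hp2 hpu'
      have hpS : p ∈ S := mem_union_left _ ((hS₁mem p).mpr ⟨hp, hp2⟩)
      have h4 := hdiv p hpS
      rw [if_neg (not_le.mpr hp1), if_pos hp2] at h4
      exact hcon p hp (hp2.trans hR1) ((eval_congr h4 u).2 hpu')
    · intro p hp hp1 hpu'
      have hp2 : (p : ℝ) ≤ y := hp1.trans hzy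
      have hpS : p ∈ S := mem_union_left _ ((hS₁mem p).mpr ⟨hp, hp2⟩)
      have h4 := hdiv p hpS
      rw [if_pos hp1] at h4
      exact hcon p hp (hp2.trans hR1) ((eval_congr h4 u).2 hpu')

/-- integers of a residue class in an interval -/
theorem class_count (M N : ℤ) (W : ℕ) (hW : 1 ≤ W) (r : ℤ) :
    ((N - M : ℤ) : ℝ) / W - 1 ≤ (((Ioc M N).filter (fun n : ℤ => (W : ℤ) ∣ n - r)).card : ℝ) := by
  have hW0 : (0 : ℤ) < W := by exact_mod_cast hW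
  have h1 := Int.Ioc_filter_modEq_card M N hW0 r
  have h2 : (Ioc M N).filter (fun n : ℤ => (W : ℤ) ∣ n - r) =
      (Ioc M N).filter (fun n : ℤ => n ≡ r [ZMOD W]) := by
    apply filter_congr
    intro n _
    rw [Int.modEq_comm, Int.modEq_iff_dvd]
  rw [h2]
  have h3 : ((((Ioc M N).filter (fun n : ℤ => n ≡ r [ZMOD W])).card : ℤ) : ℝ) =
      ((max (⌊((N - r : ℤ) : ℚ) / ((W : ℕ) : ℤ)⌋ - ⌊((M - r : ℤ) : ℚ) / ((W : ℕ) : ℤ)⌋) 0 : ℤ) : ℝ) := by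
    have h4 := h1
    push_cast at h4 ⊢
    exact_mod_cast h4
  have h4 : (((((Ioc M N).filter (fun n : ℤ => n ≡ r [ZMOD W])).card : ℕ) : ℤ) : ℝ) =
      (((Ioc M N).filter (fun n : ℤ => n ≡ r [ZMOD W])).card : ℝ) := by push_cast; rfl
  rw [← h4, h3]
  set A := ⌊((N - r : ℤ) : ℚ) / ((W : ℕ) : ℤ)⌋ with hA
  set B := ⌊((M - r : ℤ) : ℚ) / ((W : ℕ) : ℤ)⌋ with hB
  have h5 : ((N - r : ℤ) : ℚ) / ((W : ℕ) : ℤ) < A + 1 := Int.lt_floor_add_one _
  have h6 : (B : ℚ) ≤ ((M - r : ℤ) : ℚ) / ((W : ℕ) : ℤ) := Int.floor_le _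
  have h7 : ((N - M : ℤ) : ℚ) / W - 1 < ((A - B : ℤ) : ℚ) := by
    have h8 : ((N - M : ℤ) : ℚ) / W = ((N - r : ℤ) : ℚ) / ((W : ℕ) : ℤ) - ((M - r : ℤ) : ℚ) / ((W : ℕ) : ℤ) := by
      push_cast
      ring
    rw [h8]
    push_cast
    push_cast at h5 h6
    linarith
  have h8 : ((N - M : ℤ) : ℝ) / W - 1 < ((A - B : ℤ) : ℝ) := by
    have := (Rat.cast_lt (K := ℝ)).2 h7
    push_cast at this ⊢
    exact this
  have h9 : ((A - B : ℤ) : ℝ) ≤ ((max (A - B) 0 : ℤ) : ℝ) := by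
    exact_mod_cast le_max_left _ _
  linarith

end Run7.h63.PV
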