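import Pool.Agent.Run7.h63.PM4

set_option autoImplicit false
set_option maxHeartbeats 400000

/-! # The choice of the parameters (helper63) -/

namespace Run7.h63.PV

open Finset Polynomial Filter Pool.Agent.H426R3.SQ Pool.Agent.H256R2.SC

/-- Rankin's function in terms of the logarithm -/
noncomputable def GR (x : ℝ) : ℝ :=
  x * Real.log x * Real.log (Real.log (Real.log x)) / (Real.log (Real.log x)) ^ 2

theorem GR_le (K : ℝ) (hK : 1 ≤ K) : ∃ b₀ : ℝ, ∀ b : ℝ, b₀ ≤ b → ∀ a : ℝ, b ≤ a → a ≤ K * b →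
    GR a ≤ 4 * K * GR b := by
  have e1 : ∀ᶠ b : ℝ in atTop, Real.log K ≤ Real.log b :=
    Real.tendsto_log_atTop.eventually_ge_atTop _
  have e2 : ∀ᶠ b : ℝ in atTop, 1 ≤ Real.log (Real.log b) :=
    (Real.tendsto_log_atTop.comp Real.tendsto_log_atTop).eventually_ge_atTop _
  have e3 : ∀ᶠ b : ℝ in atTop, 1 ≤ Real.log (Real.log (Real.log b)) :=
    (Real.tendsto_log_atTop.comp
      (Real.tendsto_log_atTop.comp Real.tendsto_log_atTop)).eventually_ge_atTop _
  obtain ⟨b₀, h⟩ := eventually_atTop.1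
    ((((eventually_ge_atTop (1 : ℝ)).and e1).and e2).and (e3.and
      (Real.tendsto_log_atTop.eventually_ge_atTop (1:ℝ))))
  refine ⟨b₀, fun b hb a hba haK => ?_⟩
  obtain ⟨⟨⟨hb1, h1⟩, h2⟩, h3, h4⟩ := h b hb
  have hb0 : 0 < b := by linarith
  have ha0 : 0 < a := by linarith
  have hlog2 : Real.log 2 ≤ 1 := by have := Real.log_two_lt_d9; linarith
  have la : Real.log b ≤ Real.log a := Real.log_le_log hb0 hba
  have la2 : Real.log a ≤ 2 * Real.log b := by
    have := Real.log_le_log ha0 haK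
    rw [Real.log_mul (by linarith) hb0.ne'] at this
    linarith
  have lla : Real.log (Real.log b) ≤ Real.log (Real.log a) := Real.log_le_log (by linarith) la
  have lla2 : Real.log (Real.log a) ≤ 2 * Real.log (Real.log b) := by
    have := Real.log_le_log (by linarith) la2
    rw [Real.log_mul (by norm_num) (by linarith)] at this
    linarith
  have llla2 : Real.log (Real.log (Real.log a)) ≤ 2 * Real.log (Real.log (Real.log b)) := by
    have := Real.log_le_log (by linarith) lla2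
    rw [Real.log_mul (by norm_num) (by linarith)] at this
    linarith
  unfold GR
  calc a * Real.log a * Real.log (Real.log (Real.log a)) / (Real.log (Real.log a)) ^ 2
      ≤ (K * b) * (2 * Real.log b) * (2 * Real.log (Real.log (Real.log b))) /
        (Real.log (Real.log b)) ^ 2 := by
        apply div_le_div₀
        · have : 0 ≤ (K * b) * (2 * Real.log b) := by positivity
          have h5 : 0 ≤ Real.log (Real.log (Real.log b)) := by linarith
          positivity
        · apply mul_le_mul _ llla2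
          · apply Real.log_nonneg
            have := Real.log_le_log (by norm_num : (0:ℝ) < 1) h2
            linarith
          · positivity
          · apply mul_le_mul haK la2 (by linarith) (by positivity)
        · positivity
        · apply pow_le_pow_left₀ (by linarith) lla
    _ = 4 * K * (b * Real.log b * Real.log (Real.log (Real.log b)) /
        (Real.log (Real.log b)) ^ 2) := by ring

/-- facts about the parameters -/
theorem ana (c₀ : ℝ) (hc₀ : 0 < c₀) (hc₁ : c₀ ≤ 1) (κ : ℝ) (hκ : 0 < κ) (N₀ : ℝ) :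
    ∃ y₀ : ℝ, ∀ y : ℝ, y₀ ≤ y → N₀ ≤ y ∧ 1 ≤ Real.log y ∧ 1 ≤ Real.log (Real.log y) ∧
      1 ≤ Real.log (Real.log (Real.log y)) ∧ 8 * y + 8 ≤ c₀ * GR y ∧
      c₀ * GR y ≤ y * (Real.log y) ^ 2 ∧ y * (Real.log y) ^ 2 ≤ y ^ 2 ∧
      N₀ ≤ κ * (y / Real.log y) ∧ zR y ≤ y := by
  have e2 : ∀ᶠ b : ℝ in atTop, 1 ≤ Real.log (Real.log b) :=
    (Real.tendsto_log_atTop.comp Real.tendsto_log_atTop).eventually_ge_atTop _
  have e3 : ∀ᶠ b : ℝ in atTop, 1 ≤ Real.log (Real.log (Real.log b)) :=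
    (Real.tendsto_log_atTop.comp
      (Real.tendsto_log_atTop.comp Real.tendsto_log_atTop)).eventually_ge_atTop _
  have e4 : ∀ᶠ x : ℝ in atTop, (16 / c₀) * (Real.log x) ^ 2 ≤ x := by
    have h := (Real.isLittleO_pow_log_id_atTop (n := 2)).def (show (0:ℝ) < c₀ / 16 by positivity)
    filter_upwards [h, eventually_ge_atTop (1:ℝ)] with x hx hx1
    rw [Real.norm_eq_abs, Real.norm_eq_abs, id, abs_of_nonneg (by positivity : (0:ℝ) ≤ Real.log x ^ 2),
      abs_of_nonneg (by linarith : (0:ℝ) ≤ x)] at hx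
    calc (16 / c₀) * (Real.log x) ^ 2 ≤ (16 / c₀) * (c₀ / 16 * x) := by gcongr
      _ = x := by field_simp
  have e5 : ∀ᶠ x : ℝ in atTop, (Real.log x) ^ 2 ≤ x := by
    have h := (Real.isLittleO_pow_log_id_atTop (n := 2)).def (show (0:ℝ) < 1 by norm_num)
    filter_upwards [h, eventually_ge_atTop (1:ℝ)] with x hx hx1
    rw [Real.norm_eq_abs, Real.norm_eq_abs, id, abs_of_nonneg (by positivity : (0:ℝ) ≤ Real.log x ^ 2),
      abs_of_nonneg (by linarith : (0:ℝ) ≤ x)] at hx
    linarith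
  have e6 : ∀ᶠ x : ℝ in atTop, (max N₀ 1 / κ) * Real.log x ≤ x := by
    have hp : 0 < max N₀ 1 / κ := div_pos (lt_of_lt_of_le one_pos (le_max_right _ _)) hκ
    have h := (Real.isLittleO_log_id_atTop).def (show (0:ℝ) < 1 / (max N₀ 1 / κ) by positivity)
    filter_upwards [h, eventually_ge_atTop (1:ℝ)] with x hx hx1
    rw [Real.norm_eq_abs, Real.norm_eq_abs, id, abs_of_nonneg (Real.log_nonneg hx1),
      abs_of_nonneg (by linarith : (0:ℝ) ≤ x)] at hx
    calc (max N₀ 1 / κ) * Real.log x ≤ (max N₀ 1 / κ) * (1 / (max N₀ 1 / κ) * x) := by gcongr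
      _ = x := by
        field_simp
  obtain ⟨y₀, h⟩ := eventually_atTop.1 (((((eventually_ge_atTop (max N₀ 1)).and
    (Real.tendsto_log_atTop.eventually_ge_atTop (1:ℝ))).and (e2.and e3)).and
    ((Real.tendsto_log_atTop.eventually e4).and e5)).and e6)
  refine ⟨y₀, fun y hy => ?_⟩
  obtain ⟨⟨⟨⟨h1, h2⟩, h3, h4⟩, h5, h6⟩, h7⟩ := h y hy
  have hy1 : 1 ≤ y := (le_max_right _ _).trans h1
  have hy0 : 0 < y := by linarith
  have hl1 : 0 < Real.log y := by linarith
  have hl2 : 0 < Real.log (Real.log y) := by linarith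
  have hl3 : 0 < Real.log (Real.log (Real.log y)) := by linarith
  have hl32 : Real.log (Real.log (Real.log y)) ≤ Real.log (Real.log y) :=
    (Real.log_le_sub_one_of_pos hl2).trans (by linarith)
  refine ⟨(le_max_left _ _).trans h1, h2, h3, h4, ?_, ?_, ?_, ?_, zR_le hy0 h2 h3⟩
  · have h8 : 16 ≤ c₀ * (Real.log y * Real.log (Real.log (Real.log y)) / (Real.log (Real.log y)) ^ 2) := by
      rw [← mul_div_assoc, le_div_iff₀ (by positivity)]
      have h9 : 16 * (Real.log (Real.log y)) ^ 2 ≤ c₀ * Real.log y := by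
        have := mul_le_mul_of_nonneg_left h5 hc₀.le
        calc 16 * (Real.log (Real.log y)) ^ 2 = c₀ * (16 / c₀ * (Real.log (Real.log y)) ^ 2) := by
              field_simp
          _ ≤ _ := this
      have h10 : c₀ * Real.log y * 1 ≤ c₀ * Real.log y * Real.log (Real.log (Real.log y)) :=
        mul_le_mul_of_nonneg_left h4 (by positivity)
      linarith
    have h9 : c₀ * GR y = y * (c₀ * (Real.log y * Real.log (Real.log (Real.log y)) /
        (Real.log (Real.log y)) ^ 2)) := by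
      unfold GR
      ring
    rw [h9]
    have h10 := mul_le_mul_of_nonneg_left h8 hy0.le
    linarith
  · have h8 : GR y ≤ y * (Real.log y) ^ 2 := by
      unfold GR
      rw [div_le_iff₀ (by positivity)]
      have h9 : Real.log (Real.log (Real.log y)) ≤ Real.log y * (Real.log (Real.log y)) ^ 2 := by
        have : Real.log (Real.log y) * 1 ≤ Real.log (Real.log y) * Real.log (Real.log y) :=
          mul_le_mul_of_nonneg_left h3 hl2.le
        have h10 : 1 * (Real.log (Real.log y)) ^ 2 ≤ Real.log y * (Real.log (Real.log y)) ^ 2 :=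
          mul_le_mul_of_nonneg_right h2 (by positivity)
        have h11 : (Real.log (Real.log y)) ^ 2 = Real.log (Real.log y) * Real.log (Real.log y) := sq _
        linarith
      calc y * Real.log y * Real.log (Real.log (Real.log y)) ≤
            y * Real.log y * (Real.log y * (Real.log (Real.log y)) ^ 2) :=
              mul_le_mul_of_nonneg_left h9 (by positivity)
        _ = _ := by ring
    have h9 : 0 ≤ GR y := by unfold GR; positivity
    nlinarith
  · have : y ^ 2 = y * y := sq y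
    rw [this]
    exact mul_le_mul_of_nonneg_left h6 hy0.le
  · rw [← mul_div_assoc, le_div_iff₀ hl1]
    have h8 : (max N₀ 1 / κ) * Real.log y = (max N₀ 1 * Real.log y) / κ := by ring
    rw [h8, div_le_iff₀ hκ] at h7
    have h9 : N₀ * Real.log y ≤ max N₀ 1 * Real.log y :=
      mul_le_mul_of_nonneg_right (le_max_left _ _) hl1.le
    linarith

/-- number of surviving shifts -/
theorem surv_count {ι : Type} [Fintype ι] (f : ι → ℤ[X]) (n₁ n₂ : ℤ)
    (hne : ∀ i, (f i).eval n₁ - (f i).eval n₂ ≠ 0) (κ : ℝ) (hκ : 0 < κ) :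
    ∃ c₀ : ℝ, 0 < c₀ ∧ c₀ ≤ 1 ∧ ∀ N₀ : ℝ, ∃ y₀ : ℝ, ∀ y : ℝ, y₀ ≤ y →
      N₀ ≤ y ∧ 1 ≤ Real.log y ∧ 8 * y + 8 ≤ c₀ * GR y ∧ c₀ * GR y ≤ y ^ 2 ∧ zR y ≤ y ∧
      ∀ T : ℕ, (T : ℝ) ≤ c₀ * GR y / 2 →
        ((GG f n₁ n₂ y T).card : ℝ) ≤ κ * (y / Real.log y) := by
  classical
  obtain ⟨Cs, hCs, y₃, hsur⟩ := survivors_e
  set Pe : ι → ℝ := fun i => ∏ p ∈ ((f i).eval n₁ - (f i).eval n₂).natAbs.primeFactors,
    (1 + 3 / (p : ℝ)) with hPe
  have hPe0 : ∀ i, 0 < Pe i := fun i => Finset.prod_pos fun p _ => by positivity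
  have hPs : 0 ≤ ∑ i, Pe i := sum_nonneg fun i _ => (hPe0 i).le
  set c₀ : ℝ := min 1 (κ / (4 * Cs * (∑ i, Pe i) + 1)) with hc₀
  have hc₀0 : 0 < c₀ := lt_min one_pos (by positivity)
  have hc₀1 : c₀ ≤ 1 := min_le_left _ _
  have hc₀2 : 2 * Cs * c₀ * (∑ i, Pe i) ≤ κ / 2 := by
    have h1 : c₀ * (4 * Cs * (∑ i, Pe i) + 1) ≤ κ := by
      rw [← le_div_iff₀ (by positivity)]
      exact min_le_right _ _
    have h2 : c₀ * (4 * Cs * (∑ i, Pe i) + 1) = 2 * (2 * Cs * c₀ * (∑ i, Pe i)) + c₀ := by ring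
    linarith
  refine ⟨c₀, hc₀0, hc₀1, fun N₀ => ?_⟩
  set γ : ℝ := ∑ i, |(((f i).eval n₂ : ℤ) : ℝ)| with hγ
  have hγ0 : 0 ≤ γ := sum_nonneg fun _ _ => abs_nonneg _
  obtain ⟨y₁, hy₁⟩ := ana c₀ hc₀0 hc₀1 (κ / 2) (by positivity)
    (max (max N₀ y₃) (max (Fintype.card ι) (γ + 1)))
  refine ⟨y₁, fun y hy => ?_⟩
  obtain ⟨h1, h2, h3, h4, h5, h6, h7, h8, h9⟩ := hy₁ y hy
  have hN : N₀ ≤ y := (le_max_left _ _).trans ((le_max_left _ _).trans h1)
  have hy₃ : y₃ ≤ y := (le_max_right _ _).trans ((le_max_left _ _).trans h1)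
  have hcardι : (Fintype.card ι : ℝ) ≤ κ / 2 * (y / Real.log y) :=
    (le_max_left _ _).trans ((le_max_right _ _).trans h8)
  have hγy : γ + 1 ≤ y := (le_max_right _ _).trans ((le_max_right _ _).trans h1)
  refine ⟨hN, h2, h5, h6.trans h7, h9, fun T hT => ?_⟩
  set F : ℝ := c₀ * GR y with hF
  set T₀ : ℕ := ⌊F⌋₊ with hT₀
  have hF0 : 0 ≤ F := by linarith
  have hT₀1 : (T₀ : ℝ) ≤ F := Nat.floor_le hF0
  have hT₀2 : F < (T₀ : ℝ) + 1 := Nat.lt_floor_add_one F
  have hyT : y ≤ (T₀ : ℝ) := by linarith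
  have hy0 : 0 < y := by linarith
  have hl1 : 0 < Real.log y := by linarith
  have hl2 : 0 < Real.log (Real.log y) := by linarith
  have hl3 : 0 < Real.log (Real.log (Real.log y)) := by linarith
  have hterm : ∀ i, ((G1 (f i) n₁ n₂ y T).card : ℝ) ≤ 2 * Cs * c₀ * Pe i * (y / Real.log y) + 1 := by
    intro i
    have hγi : |(((f i).eval n₂ : ℤ) : ℝ)| ≤ γ :=
      single_le_sum (f := fun i => |(((f i).eval n₂ : ℤ) : ℝ)|) (fun _ _ => abs_nonneg _)
        (mem_univ i)
    have hTi : (T : ℤ) + |(f i).eval n₂| ≤ T₀ := by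
      have : (T : ℝ) + |(((f i).eval n₂ : ℤ) : ℝ)| ≤ (T₀ : ℝ) := by linarith
      exact_mod_cast this
    refine (G1_card (f i) n₁ n₂ y T T₀ hTi).trans ?_
    have q1 := hsur y hy₃ T₀ hyT (hT₀1.trans h6) _ (hne i)
    have q2 := hsur y hy₃ T₀ hyT (hT₀1.trans h6) _ (neg_ne_zero.2 (hne i))
    rw [Int.natAbs_neg] at q2
    have q3 : Cs * (T₀ : ℝ) * (Real.log (Real.log y)) ^ 2 /
        ((Real.log y) ^ 2 * Real.log (Real.log (Real.log y))) ≤ Cs * c₀ * (y / Real.log y) := by
      calc Cs * (T₀ : ℝ) * (Real.log (Real.log y)) ^ 2 /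
            ((Real.log y) ^ 2 * Real.log (Real.log (Real.log y))) ≤
            Cs * F * (Real.log (Real.log y)) ^ 2 /
            ((Real.log y) ^ 2 * Real.log (Real.log (Real.log y))) := by gcongr
        _ = Cs * c₀ * (y / Real.log y) := by
            rw [hF]
            unfold GR
            field_simp
    have q1' : ((SV y T₀ ((f i).eval n₁ - (f i).eval n₂)).card : ℝ) ≤
        Cs * c₀ * (y / Real.log y) * Pe i := by
      unfold SV
      exact q1.trans (mul_le_mul_of_nonneg_right q3 (hPe0 i).le)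
    have q2' : ((SV y T₀ (-((f i).eval n₁ - (f i).eval n₂))).card : ℝ) ≤
        Cs * c₀ * (y / Real.log y) * Pe i := by
      unfold SV
      exact q2.trans (mul_le_mul_of_nonneg_right q3 (hPe0 i).le)
    have q4 : 2 * Cs * c₀ * Pe i * (y / Real.log y) = Cs * c₀ * (y / Real.log y) * Pe i +
      Cs * c₀ * (y / Real.log y) * Pe i := by ring
    linarith
  have hsum : ((GG f n₁ n₂ y T).card : ℝ) ≤ ∑ i, ((G1 (f i) n₁ n₂ y T).card : ℝ) := by
    exact_mod_cast GG_card f n₁ n₂ y T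
  calc ((GG f n₁ n₂ y T).card : ℝ) ≤ ∑ i, ((G1 (f i) n₁ n₂ y T).card : ℝ) := hsum
    _ ≤ ∑ i, (2 * Cs * c₀ * Pe i * (y / Real.log y) + 1) := sum_le_sum fun i _ => hterm i
    _ = 2 * Cs * c₀ * (∑ i, Pe i) * (y / Real.log y) + Fintype.card ι := by
        rw [sum_add_distrib, mul_sum, sum_mul]
        simp
    _ ≤ κ / 2 * (y / Real.log y) + κ / 2 * (y / Real.log y) := by
        have : 0 ≤ y / Real.log y := by positivity
        have := mul_le_mul_of_nonneg_right hc₀2 this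
        linarith
    _ = _ := by ring

end Run7.h63.PV
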