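import Pool.Agent.Run7.h63.PM5

set_option autoImplicit false
set_option maxHeartbeats 400000

/-! # Rankin gaps around the values of integer polynomials (helper63) -/

namespace Run7.h63.PV

open Finset Polynomial Filter Pool.Agent.H426R3.SQ Pool.Agent.H256R2.SC

theorem primorial_le {y : ℝ} (hy : 0 ≤ y) : (primorial ⌊y⌋₊ : ℝ) ≤ Real.exp (2 * y) := by
  have h1 : (primorial ⌊y⌋₊ : ℝ) ≤ 4 ^ ⌊y⌋₊ := by exact_mod_cast primorial_le_four_pow _
  refine h1.trans ?_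
  have h2 : (4 : ℝ) ≤ Real.exp 2 := by
    have := Real.add_one_le_exp (1 : ℝ)
    calc (4 : ℝ) = 2 * 2 := by norm_num
      _ ≤ Real.exp 1 * Real.exp 1 := by gcongr <;> linarith
      _ = Real.exp 2 := by rw [← Real.exp_add]; norm_num
  calc (4 : ℝ) ^ ⌊y⌋₊ ≤ (Real.exp 2) ^ ⌊y⌋₊ := by gcongr
    _ = Real.exp (⌊y⌋₊ * 2) := by rw [← Real.exp_nat_mul]
    _ ≤ Real.exp (2 * y) := by
      apply Real.exp_le_exp.2
      have := Nat.floor_le hy
      linarith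

/-- a class where all the polynomials have new values -/
theorem exists_class {ι : Type} [Fintype ι] (f : ι → ℤ[X]) (hd : ∀ i, 1 ≤ (f i).natDegree)
    (n₂ : ℤ) : ∃ n₁ : ℤ, ∀ i, (f i).eval n₁ - (f i).eval n₂ ≠ 0 := by
  by_contra hcon
  push Not at hcon
  have h1 : ∏ i, (f i - C ((f i).eval n₂)) = 0 := by
    apply Polynomial.funext
    intro n
    rw [eval_prod, eval_zero]
    obtain ⟨i, hi⟩ := hcon n
    apply prod_eq_zero (mem_univ i)
    rw [eval_sub, eval_C]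
    exact hi
  rw [prod_eq_zero_iff] at h1
  obtain ⟨i, -, hi⟩ := h1
  have h2 : f i = C ((f i).eval n₂) := by
    have := sub_eq_zero.1 hi
    exact this
  have h3 := hd i
  rw [h2, natDegree_C] at h3
  omega

theorem poly_main {ι : Type} [Fintype ι] (f : ι → ℤ[X]) (hd : ∀ i, 1 ≤ (f i).natDegree)
    (hlc : ∀ i, 0 < (f i).leadingCoeff) (ε : ℝ) (hε : 0 < ε) (hε1 : ε ≤ 1) :
    ∃ c : ℝ, 0 < c ∧ ∃ Y₀ : ℝ, ∀ Y : ℝ, Y₀ ≤ Y → ∀ M : ℤ, 0 ≤ M →
      ∃ S : Finset ℤ, Y ^ (1 - ε) ≤ (S.card : ℝ) ∧ ∀ n ∈ S, M < n ∧ (n : ℝ) ≤ M + Y ∧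
        ∀ i, ∀ q : ℕ, q.Prime → c * GR (Real.log Y) < |(q : ℝ) - (((f i).eval n : ℤ) : ℝ)| := by
  classical
  obtain ⟨n₁, hn₁⟩ := exists_class f hd 0
  choose A₁ y₁ hmany using fun i => many_primes (f i) (hd i) (hlc i)
  choose t₀ ht₀ hgr using fun i => growth (f i) (hd i)
  set A : ℕ := 1 + ∑ i, A₁ i with hA
  have hAi : ∀ i, A₁ i ≤ A := fun i => by
    have := single_le_sum (f := A₁) (fun _ _ => Nat.zero_le _) (mem_univ i)
    omega
  have hA1 : (1 : ℝ) ≤ A := by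
    rw [hA]; push_cast
    have : (0 : ℝ) ≤ ∑ i, (A₁ i : ℝ) := sum_nonneg fun _ _ => Nat.cast_nonneg _
    linarith
  obtain ⟨c₀, hc₀, hc₀1, hsc⟩ := surv_count f n₁ 0 hn₁ (1 / A) (by positivity)
  set N₀ : ℝ := max (max 1 (∑ i, |y₁ i|)) (∑ i, (t₀ i : ℝ)) with hN₀
  obtain ⟨y₂, hy₂⟩ := hsc N₀
  obtain ⟨b₀, hb₀⟩ := GR_le (8 / ε) (by rw [le_div_iff₀ hε]; linarith)
  -- largeness of Y
  have ev1 : ∀ᶠ Y : ℝ in atTop, max y₂ b₀ * (8 / ε) ≤ Real.log Y :=
    Real.tendsto_log_atTop.eventually_ge_atTop _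
  have ev2 : ∀ᶠ Y : ℝ in atTop, 8 * (Real.log Y) ^ (A + 2) ≤ Y := by
    have h := (Real.isLittleO_pow_log_id_atTop (n := A + 2)).def (show (0:ℝ) < 1 / 8 by norm_num)
    filter_upwards [h, eventually_ge_atTop (1:ℝ)] with x hx hx1
    rw [Real.norm_eq_abs, Real.norm_eq_abs, id,
      abs_of_nonneg (pow_nonneg (Real.log_nonneg hx1) _), abs_of_nonneg (by linarith : (0:ℝ) ≤ x)] at hx
    linarith
  have ev3 : ∀ᶠ Y : ℝ in atTop, 4 * (Real.log Y) ^ (A + 2) + 4 ≤ Y ^ (5 * ε / 8) := by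
    have e1 : (fun x : ℝ => (Real.log x) ^ ((A + 2 : ℕ) : ℝ)) =o[atTop] (fun x : ℝ => x ^ (5 * ε / 8)) :=
      isLittleO_log_rpow_rpow_atTop _ (by positivity)
    have h := e1.def (show (0:ℝ) < 1 / 8 by norm_num)
    filter_upwards [h, eventually_ge_atTop (1:ℝ), (tendsto_rpow_atTop
      (show (0 : ℝ) < 5 * ε / 8 by positivity)).eventually_ge_atTop 8] with x hx hx1 hx2
    have hl := Real.log_nonneg hx1
    rw [Real.norm_eq_abs, Real.norm_eq_abs, abs_of_nonneg (Real.rpow_nonneg hl _),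
      abs_of_nonneg (Real.rpow_nonneg (by linarith) _), Real.rpow_natCast] at hx
    linarith
  have ev4 : ∀ᶠ Y : ℝ in atTop, Real.exp 1 ≤ Y := eventually_ge_atTop _
  obtain ⟨Y₀, hY₀⟩ := eventually_atTop.1 ((ev1.and ev2).and (ev3.and ev4))
  refine ⟨c₀ / (8 * (8 / ε)), by positivity, Y₀, fun Y hY M hM => ?_⟩
  obtain ⟨⟨g1, g2⟩, g3, g4⟩ := hY₀ Y hY
  have hY1 : 1 ≤ Y := by
    have := Real.add_one_le_exp (1 : ℝ)
    linarith
  have hY0 : 0 < Y := by linarith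
  set L : ℝ := Real.log Y with hL
  have hL1 : 1 ≤ L := by
    rw [hL, Real.le_log_iff_exp_le hY0]
    exact g4
  set y : ℝ := L * ε / 8 with hy
  have hyL : y ≤ L := by
    rw [hy]
    have : L * ε ≤ L * 1 := mul_le_mul_of_nonneg_left hε1 (by linarith)
    linarith
  have hyK : 8 / ε * y = L := by rw [hy]; field_simp
  have hyb : max y₂ b₀ ≤ y := by
    have h1 : max y₂ b₀ = max y₂ b₀ * (8 / ε) * (ε / 8) := by field_simp
    rw [h1, hy]
    have := mul_le_mul_of_nonneg_right g1 (show (0:ℝ) ≤ ε / 8 by positivity)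
    linarith
  have hGR := hb₀ y ((le_max_right _ _).trans hyb) L hyL hyK.ge
  obtain ⟨s1, s2, s3, s4, s5, s6⟩ := hy₂ y ((le_max_left _ _).trans hyb)
  have hy1 : 1 ≤ y := (le_max_left _ _).trans ((le_max_left _ _).trans s1)
  have hy0 : 0 < y := by linarith
  have hyy1 : ∀ i, y₁ i ≤ y := fun i => by
    refine (le_abs_self _).trans (le_trans ?_ ((le_max_right _ _).trans ((le_max_left _ _).trans s1)))
    exact single_le_sum (f := fun i => |y₁ i|) (fun _ _ => abs_nonneg _) (mem_univ i)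
  have hyt : ∀ i, (t₀ i : ℝ) ≤ y := fun i => by
    refine le_trans ?_ ((le_max_right _ _).trans s1)
    exact single_le_sum (f := fun i => (t₀ i : ℝ)) (fun _ _ => Nat.cast_nonneg _) (mem_univ i)
  have hF0 : 0 ≤ c₀ * GR y / 2 := by linarith
  set T : ℕ := ⌊c₀ * GR y / 2⌋₊ with hT
  have hT1 : (T : ℝ) ≤ c₀ * GR y / 2 := Nat.floor_le hF0
  have hG := s6 T hT1
  have hTy : (T : ℝ) ≤ y ^ 2 := by
    have : 0 ≤ c₀ * GR y := by linarith
    linarith
  -- the own primes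
  have hlogy : 0 < Real.log y := by linarith
  have hGy : ((GG f n₁ 0 y T).card : ℝ) ≤ y := by
    refine hG.trans ?_
    have h1 : 1 / (A : ℝ) ≤ 1 := by rw [div_le_one (by linarith)]; exact hA1
    have h2 : y / Real.log y ≤ y := div_le_self hy0.le s2
    calc 1 / (A : ℝ) * (y / Real.log y) ≤ 1 * y := mul_le_mul h1 h2 (by positivity) zero_le_one
      _ = y := one_mul y
  obtain ⟨pu, hpu1, hpu2⟩ := exists_inj_choice (GG f n₁ 0 y T)
    (fun q => RP (f q.1) q.2 y (A₁ q.1)) (by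
      intro q hq
      rw [mem_GG] at hq
      unfold G1 at hq
      rw [mem_filter, mem_Icc, ← abs_le] at hq
      have h1 : |((q.2 : ℤ) : ℝ)| ≤ (T : ℝ) := by exact_mod_cast hq.1
      have h2 := hmany q.1 y (hyy1 q.1) q.2 (h1.trans hTy)
      exact_mod_cast hGy.trans h2)
  have hP9 : (1 : ℝ) ≤ y ^ A := one_le_pow₀ hy1
  have hRy : y ≤ y ^ A := le_self_pow₀ hy1 (by omega)
  obtain ⟨W, r, hW1, hW2, hW3⟩ := core f n₁ 0 hy0.le s5 T (y ^ A) (y ^ A) hP9 pu (by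
      intro q hq
      have h1 := hpu1 q hq
      unfold RP at h1
      rw [mem_filter, mem_Icc] at h1
      refine ⟨h1.2.1, h1.2.2.1, ?_, h1.2.2.2⟩
      calc (pu q : ℝ) ≤ (⌊y ^ (A₁ q.1)⌋₊ : ℝ) := by exact_mod_cast h1.1.2
        _ ≤ y ^ (A₁ q.1) := Nat.floor_le (by positivity)
        _ ≤ y ^ A := pow_le_pow_right₀ hy1 (hAi _)) hpu2 hRy le_rfl
  -- the modulus
  have hWY : (W : ℝ) ≤ Real.exp (3 * y) := by
    refine hW2.trans ?_
    have h1 := primorial_le hy0.le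
    have h2 : (y ^ A) ^ (GG f n₁ 0 y T).card ≤ Real.exp y := by
      have e1 : (y ^ A) ^ (GG f n₁ 0 y T).card =
          Real.exp ((GG f n₁ 0 y T).card * (A * Real.log y)) := by
        rw [Real.exp_nat_mul, Real.exp_nat_mul, Real.exp_log hy0]
      rw [e1]
      apply Real.exp_le_exp.2
      calc ((GG f n₁ 0 y T).card : ℝ) * (A * Real.log y) ≤
            (1 / A * (y / Real.log y)) * (A * Real.log y) :=
              mul_le_mul_of_nonneg_right hG (by positivity)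
        _ = y := by
            have : (A : ℝ) ≠ 0 := by linarith
            field_simp
    calc (primorial ⌊y⌋₊ : ℝ) * (y ^ A) ^ (GG f n₁ 0 y T).card ≤
          Real.exp (2 * y) * Real.exp y := mul_le_mul h1 h2 (by positivity) (Real.exp_pos _).le
      _ = Real.exp (3 * y) := by rw [← Real.exp_add]; congr 1; ring
  have hexp : Real.exp (3 * y) = Y ^ (3 * ε / 8) := by
    rw [Real.rpow_def_of_pos hY0, ← hL, hy]
    congr 1
    ring
  rw [hexp] at hWY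
  have hWr : (0 : ℝ) < W := by exact_mod_cast hW1
  have hM0 : (0 : ℝ) ≤ M := by exact_mod_cast hM
  have hLA : 0 ≤ 4 * L ^ (A + 2) := by positivity
  set Q : ℤ := max M (⌈4 * L ^ (A + 2)⌉₊ : ℤ) with hQ
  have hQM : M ≤ Q := le_max_left _ _
  have hQL : 4 * L ^ (A + 2) ≤ (Q : ℝ) := by
    refine (Nat.le_ceil _).trans ?_
    exact_mod_cast (le_max_right M (⌈4 * L ^ (A + 2)⌉₊ : ℤ))
  have hQM2 : (Q : ℝ) ≤ M + 4 * L ^ (A + 2) + 1 := by
    have h1 := Nat.ceil_lt_add_one hLA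
    rcases max_cases M (⌈4 * L ^ (A + 2)⌉₊ : ℤ) with h | h
    · rw [hQ, h.1]
      linarith
    · rw [hQ, h.1]
      push_cast
      linarith
  have hLY : 4 * L ^ (A + 2) + 4 ≤ Y := by
    refine g3.trans ?_
    calc Y ^ (5 * ε / 8) ≤ Y ^ (1 : ℝ) := Real.rpow_le_rpow_of_exponent_le hY1 (by linarith)
      _ = Y := Real.rpow_one _
  refine ⟨(Ioc Q (M + (⌊Y⌋₊ : ℤ))).filter (fun n : ℤ => (W : ℤ) ∣ n - r), ?_, ?_⟩
  · have h1 := class_count Q (M + (⌊Y⌋₊ : ℤ)) W hW1 r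
    refine le_trans ?_ h1
    have h3 : Y - 4 * L ^ (A + 2) - 2 ≤ ((M + (⌊Y⌋₊ : ℤ) - Q : ℤ) : ℝ) := by
      have := Nat.lt_floor_add_one Y
      push_cast
      linarith
    have h4 : Y ^ (1 - 3 * ε / 8) ≤ Y / W := by
      rw [le_div_iff₀ hWr]
      calc Y ^ (1 - 3 * ε / 8) * W ≤ Y ^ (1 - 3 * ε / 8) * Y ^ (3 * ε / 8) := by gcongr
        _ = Y := by rw [← Real.rpow_add hY0]; norm_num
    have h5 : Y ^ (1 - 3 * ε / 8) = Y ^ (1 - ε) * Y ^ (5 * ε / 8) := by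
      rw [← Real.rpow_add hY0]; congr 1; ring
    have h6 : 1 ≤ Y ^ (1 - ε) := Real.one_le_rpow hY1 (by linarith)
    have h7 := div_le_div_of_nonneg_right h3 hWr.le
    have h8 : (Y - 4 * L ^ (A + 2) - 2) / W = Y / W - (4 * L ^ (A + 2) + 2) / W := by ring
    have h9 : (4 * L ^ (A + 2) + 2) / (W : ℝ) ≤ 4 * L ^ (A + 2) + 2 := by
      apply div_le_self (by linarith)
      exact_mod_cast hW1
    have h10 : Y ^ (1 - ε) * (4 * L ^ (A + 2) + 4) ≤ Y ^ (1 - ε) * Y ^ (5 * ε / 8) :=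
      mul_le_mul_of_nonneg_left g3 (by linarith)
    have h11 : 1 * (4 * L ^ (A + 2) + 3) ≤ Y ^ (1 - ε) * (4 * L ^ (A + 2) + 3) :=
      mul_le_mul_of_nonneg_right h6 (by linarith)
    have h12 : Y ^ (1 - ε) * (4 * L ^ (A + 2) + 4) =
      Y ^ (1 - ε) * (4 * L ^ (A + 2) + 3) + Y ^ (1 - ε) := by ring
    linarith
  · intro n hn
    rw [mem_filter, mem_Ioc] at hn
    obtain ⟨⟨hn1, hn2⟩, hn3⟩ := hn
    have hn2' : (n : ℝ) ≤ M + Y := by
      have h1 : (n : ℝ) ≤ M + (⌊Y⌋₊ : ℝ) := by exact_mod_cast hn2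
      have := Nat.floor_le hY0.le
      linarith
    refine ⟨lt_of_le_of_lt hQM hn1, hn2', fun i q hq => ?_⟩
    by_contra hcon
    push Not at hcon
    have hnY : 4 * L ^ (A + 2) < (n : ℝ) := by
      have : (Q : ℝ) < n := by exact_mod_cast hn1
      linarith
    have hL2 : L ≤ L ^ (A + 2) := le_self_pow₀ hL1 (by omega)
    set u : ℤ := (q : ℤ) - (f i).eval n with hu
    have hu1 : |((u : ℤ) : ℝ)| ≤ c₀ * GR y / 2 := by
      have h1 : ((u : ℤ) : ℝ) = (q : ℝ) - (((f i).eval n : ℤ) : ℝ) := by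
        rw [hu]; push_cast; rfl
      rw [h1]
      refine hcon.trans ?_
      calc c₀ / (8 * (8 / ε)) * GR L ≤ c₀ / (8 * (8 / ε)) * (4 * (8 / ε) * GR y) := by
            apply mul_le_mul_of_nonneg_left hGR (by positivity)
        _ = c₀ * GR y / 2 := by field_simp; ring
    have hu2 : |u| ≤ (T : ℤ) := by
      have h1 : (u.natAbs : ℝ) ≤ c₀ * GR y / 2 := by
        rw [Nat.cast_natAbs]; push_cast; exact hu1
      have h2 := Nat.le_floor h1
      rw [Int.abs_eq_natAbs]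
      exact_mod_cast h2
    obtain ⟨p, hp1, hp2, hp3⟩ := hW3 n hn3 i u hu2
    have h4 : (f i).eval n + u = (q : ℤ) := by rw [hu]; ring
    rw [h4] at hp3
    have h5 : p ∣ q := by exact_mod_cast hp3
    have h6 := (Nat.prime_dvd_prime_iff_eq hp1 hq).mp h5
    rw [h6] at hp2
    -- sizes
    have h7 : (t₀ i : ℤ) ≤ n := by
      have : (t₀ i : ℝ) ≤ n := by
        have h8 := hyt i
        linarith
      exact_mod_cast this
    have h8 := hgr i n h7
    have h9 : (n : ℝ) ^ (f i).natDegree / 2 ≤ (((f i).eval n : ℤ) : ℝ) := by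
      have h10 : 2 * |(((f i).eval n : ℤ) : ℝ) - ((f i).leadingCoeff : ℝ) * (n : ℝ) ^ (f i).natDegree| ≤
          (n : ℝ) ^ (f i).natDegree := by exact_mod_cast h8
      have h11 := neg_abs_le ((((f i).eval n : ℤ) : ℝ) - ((f i).leadingCoeff : ℝ) * (n : ℝ) ^ (f i).natDegree)
      have h12 : (1 : ℝ) ≤ ((f i).leadingCoeff : ℝ) := by exact_mod_cast hlc i
      have h13 : (0 : ℝ) ≤ (n : ℝ) ^ (f i).natDegree := by
        have : (0 : ℝ) ≤ n := by linarith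
        positivity
      have h14 : 1 * (n : ℝ) ^ (f i).natDegree ≤ ((f i).leadingCoeff : ℝ) * (n : ℝ) ^ (f i).natDegree :=
        mul_le_mul_of_nonneg_right h12 h13
      linarith
    have h10 : (n : ℝ) ≤ (n : ℝ) ^ (f i).natDegree :=
      le_self_pow₀ (by linarith) (by have := hd i; omega)
    have h11 : y ^ A ≤ L ^ (A + 2) := by
      calc y ^ A ≤ L ^ A := pow_le_pow_left₀ hy0.le hyL A
        _ ≤ L ^ (A + 2) := pow_le_pow_right₀ hL1 (by omega)
    have h12 : (T : ℝ) ≤ L ^ (A + 2) := by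
      refine hTy.trans ?_
      calc y ^ 2 ≤ L ^ 2 := pow_le_pow_left₀ hy0.le hyL 2
        _ ≤ L ^ (A + 2) := pow_le_pow_right₀ hL1 (by omega)
    have h13 : ((u : ℤ) : ℝ) = (q : ℝ) - (((f i).eval n : ℤ) : ℝ) := by
      rw [hu]; push_cast; rfl
    have h14 : |((u : ℤ) : ℝ)| ≤ (T : ℝ) := by exact_mod_cast hu2
    have h15 := neg_abs_le ((u : ℤ) : ℝ)
    have h16 : 0 ≤ L ^ (A + 2) := by positivity
    linarith

end Run7.h63.PV
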