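import Pool.Agent.Run7.h63.PM6

set_option autoImplicit false
set_option maxHeartbeats 400000

/-! # Rankin gaps around the values of rational polynomials (helper63) -/

namespace Run7.h63.PV

open Finset Polynomial Filter

/-- a rational polynomial becomes integral, up to its constant term, on a progression -/
theorem integral_on {ι : Type} [Fintype ι] (f : ι → ℚ[X]) (hd : ∀ i, 1 ≤ (f i).natDegree)
    (hlc : ∀ i, 0 < (f i).leadingCoeff) : ∃ D : ℕ, 1 ≤ D ∧ ∃ h : ι → ℤ[X],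
      (∀ i, 1 ≤ (h i).natDegree) ∧ (∀ i, 0 < (h i).leadingCoeff) ∧
      ∀ i, ∀ m : ℤ, (((h i).eval m : ℤ) : ℚ) = (f i).eval ((D : ℚ) * m) - (f i).coeff 0 := by
  set D : ℕ := ∏ i, ∏ k ∈ range ((f i).natDegree + 1), ((f i).coeff k).den with hD
  have hD1 : 1 ≤ D := Nat.one_le_iff_ne_zero.2 (prod_ne_zero_iff.2 fun i _ =>
    prod_ne_zero_iff.2 fun k _ => Rat.den_ne_zero _)
  have hD0 : (D : ℚ) ≠ 0 := by
    have : D ≠ 0 := by omega
    exact_mod_cast this
  have hdvd : ∀ i k, k ≤ (f i).natDegree → ((f i).coeff k).den ∣ D := by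
    intro i k hk
    exact (dvd_prod_of_mem (fun k => ((f i).coeff k).den) (mem_range.2 (by omega))).trans
      (dvd_prod_of_mem (fun i => ∏ k ∈ range ((f i).natDegree + 1), ((f i).coeff k).den)
        (mem_univ i))
  have hex : ∀ i, ∃ h : ℤ[X], h.map (Int.castRingHom ℚ) =
      (f i - C ((f i).coeff 0)).comp (C (D : ℚ) * X) := by
    intro i
    have h1 : (f i - C ((f i).coeff 0)).comp (C (D : ℚ) * X) ∈ lifts (Int.castRingHom ℚ) := by
      rw [lifts_iff_coeff_lifts]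
      intro k
      rw [comp_C_mul_X_coeff, coeff_sub]
      rcases Nat.eq_zero_or_pos k with hk | hk
      · rw [hk, coeff_C_zero, sub_self, zero_mul]
        exact ⟨0, by simp⟩
      · rw [coeff_C, if_neg (by omega), sub_zero]
        by_cases hkd : k ≤ (f i).natDegree
        · obtain ⟨e, he⟩ := hdvd i k hkd
          refine ⟨((f i).coeff k).num * e * D ^ (k - 1), ?_⟩
          have h2 : (D : ℚ) ^ k = D * D ^ (k - 1) := by
            rw [← pow_succ']
            congr 1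
            omega
          have h3 : (D : ℚ) = ((f i).coeff k).den * e := by exact_mod_cast he
          have h4 : (f i).coeff k * ((f i).coeff k).den = ((f i).coeff k).num := Rat.mul_den_eq_num _
          rw [h2]
          simp only [eq_intCast, Int.cast_mul, Int.cast_natCast, Int.cast_pow]
          rw [← h4]
          linear_combination (-(f i).coeff k * (D : ℚ) ^ (k - 1)) * h3
        · rw [coeff_eq_zero_of_natDegree_lt (by omega), zero_mul]
          exact ⟨0, by simp⟩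
    obtain ⟨h, hh⟩ := (mem_lifts _).1 h1
    exact ⟨h, hh⟩
  choose h hh using hex
  have hinj : Function.Injective (Int.castRingHom ℚ) := Int.cast_injective
  have hdeg : ∀ i, (f i - C ((f i).coeff 0)).natDegree = (f i).natDegree := fun i =>
    natDegree_sub_C
  have hdeg1 : (C (D : ℚ) * X).natDegree = 1 := natDegree_C_mul_X _ hD0
  have hdegh : ∀ i, (h i).natDegree = (f i).natDegree := by
    intro i
    rw [← natDegree_map_eq_of_injective hinj, hh i, natDegree_comp, hdeg, hdeg1, mul_one]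
  refine ⟨D, hD1, h, fun i => by rw [hdegh]; exact hd i, fun i => ?_, fun i m => ?_⟩
  · have h1 : (((h i).leadingCoeff : ℤ) : ℚ) = (f i).leadingCoeff * (D : ℚ) ^ (f i).natDegree := by
      have h2 : (((h i).leadingCoeff : ℤ) : ℚ) = ((h i).map (Int.castRingHom ℚ)).coeff (f i).natDegree := by
        rw [coeff_map]
        unfold leadingCoeff
        rw [hdegh]
        simp
      rw [h2, hh i, comp_C_mul_X_coeff, coeff_sub, coeff_C, if_neg (by have := hd i; omega), sub_zero]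
      rfl
    have h3 : (0 : ℚ) < (((h i).leadingCoeff : ℤ) : ℚ) := by
      rw [h1]
      have : (0 : ℚ) < D := by exact_mod_cast hD1
      have := hlc i
      positivity
    exact_mod_cast h3
  · have h1 : (((h i).eval m : ℤ) : ℚ) = ((h i).map (Int.castRingHom ℚ)).eval (m : ℚ) := by
      have h2 := eval_intCast_map (Int.castRingHom ℚ) (h i) m
      simpa using h2.symm
    rw [h1, hh i, eval_comp]
    simp

theorem rat_main {ι : Type} [Fintype ι] (f : ι → ℚ[X]) (hd : ∀ i, 1 ≤ (f i).natDegree)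
    (hlc : ∀ i, 0 < (f i).leadingCoeff) (ε : ℝ) (hε : 0 < ε) (hε1 : ε ≤ 1) :
    ∃ c : ℝ, 0 < c ∧ ∃ Y₀ : ℝ, ∀ Y : ℝ, Y₀ ≤ Y → ∀ M : ℤ, 0 ≤ M →
      ∃ S : Finset ℤ, Y ^ (1 - ε) ≤ (S.card : ℝ) ∧ ∀ n ∈ S, M < n ∧ (n : ℝ) ≤ M + Y ∧
        ∀ i, ∀ q : ℕ, q.Prime → c * GR (Real.log Y) < |(q : ℝ) - (((f i).eval (n : ℚ) : ℚ) : ℝ)| := by
  classical
  obtain ⟨D, hD1, h, hhd, hhlc, hev⟩ := integral_on f hd hlc
  obtain ⟨c, hc, Y₁, hmain⟩ := poly_main h hhd hhlc (ε / 2) (by positivity) (by linarith)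
  obtain ⟨b₀, hb₀⟩ := GR_le 2 (by norm_num)
  set γ : ℝ := ∑ i, |(((f i).coeff 0 : ℚ) : ℝ)| with hγ
  have hγ0 : 0 ≤ γ := sum_nonneg fun _ _ => abs_nonneg _
  obtain ⟨y₀, hy₀⟩ := ana 1 one_pos le_rfl 1 one_pos (2 * γ / c + 1)
  have hDr : (1 : ℝ) ≤ D := by exact_mod_cast hD1
  have hD0 : (0 : ℝ) < D := by linarith
  have ev1 : ∀ᶠ Y : ℝ in atTop, max Y₁ 0 * (2 * D) ≤ Y := eventually_ge_atTop _
  have ev2 : ∀ᶠ Y : ℝ in atTop, 2 * max (max b₀ y₀) 1 ≤ Real.log Y :=
    Real.tendsto_log_atTop.eventually_ge_atTop _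
  have ev3 : ∀ᶠ Y : ℝ in atTop, 2 * (D : ℝ) ≤ Y ^ (ε / 2) :=
    (tendsto_rpow_atTop (by positivity)).eventually_ge_atTop _
  have ev4 : ∀ᶠ Y : ℝ in atTop, (2 * (D : ℝ)) ^ 2 ≤ Y := eventually_ge_atTop _
  obtain ⟨Y₀, hY₀⟩ := eventually_atTop.1 ((ev1.and ev2).and (ev3.and ev4))
  refine ⟨c / 16, by positivity, Y₀, fun Y hY M hM => ?_⟩
  obtain ⟨⟨g1, g2⟩, g3, g4⟩ := hY₀ Y hY
  have h2D : (2 : ℝ) ≤ 2 * D := by linarith
  have hY4 : 4 ≤ Y := by nlinarith
  have hY0 : 0 < Y := by linarith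
  set Z : ℝ := Y / (2 * D) with hZ
  have hZ0 : 0 < Z := by positivity
  have hZ1 : max Y₁ 0 ≤ Z := by rw [hZ, le_div_iff₀ (by positivity)]; exact g1
  have hZY : Z ≤ Y := div_le_self hY0.le (by linarith)
  have hlogZ : Real.log Y / 2 ≤ Real.log Z := by
    have h1 : Real.log ((2 * (D : ℝ)) ^ 2) ≤ Real.log Y := Real.log_le_log (by positivity) g4
    rw [Real.log_pow] at h1
    rw [hZ, Real.log_div hY0.ne' (by positivity)]
    push_cast at h1
    linarith
  have hlogZY : Real.log Z ≤ Real.log Y := Real.log_le_log hZ0 hZY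
  have hmx : max (max b₀ y₀) 1 ≤ Real.log Z := by linarith
  have hG1 := hb₀ (Real.log Z) ((le_max_left _ _).trans ((le_max_left _ _).trans hmx)) (Real.log Y)
    hlogZY (by linarith)
  obtain ⟨q1, q2, q3, q4, q5, -, -, -, -⟩ := hy₀ (Real.log Z)
    ((le_max_right _ _).trans ((le_max_left _ _).trans hmx))
  set M' : ℤ := M / (D : ℤ) with hM'
  have hDz : (0 : ℤ) < D := by exact_mod_cast hD1
  have hM'1 : (D : ℤ) * M' ≤ M := Int.mul_ediv_self_le hDz.ne'
  have hM'2 : M < (D : ℤ) * (M' + 1) := by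
    have := Int.lt_mul_ediv_self_add (x := M) hDz
    rw [mul_add, mul_one]
    exact this
  have hM'1r : (D : ℝ) * M' ≤ M := by exact_mod_cast hM'1
  have hM'2r : (M : ℝ) < (D : ℝ) * (M' + 1) := by exact_mod_cast hM'2
  have hZM : 0 ≤ M' := Int.ediv_nonneg hM hDz.le
  obtain ⟨S, hS1, hS2⟩ := hmain Z ((le_max_left _ _).trans hZ1) M' hZM
  refine ⟨S.image (fun m => (D : ℤ) * m), ?_, ?_⟩
  · rw [card_image_of_injective _ (fun a b hab => by
      exact mul_left_cancel₀ hDz.ne' hab)]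
    refine le_trans ?_ hS1
    have h1 : Y = Z * (2 * D) := by rw [hZ]; field_simp
    have h2 : Y ^ (1 - ε) * Y ^ (ε / 2) = Y ^ (1 - ε / 2) := by
      rw [← Real.rpow_add hY0]; congr 1; ring
    have h3 : Y ^ (1 - ε / 2) = Z ^ (1 - ε / 2) * (2 * D) ^ (1 - ε / 2) := by
      conv_lhs => rw [h1]
      rw [Real.mul_rpow hZ0.le (by positivity)]
    have h4 : (2 * (D : ℝ)) ^ (1 - ε / 2) ≤ 2 * D := by
      calc (2 * (D : ℝ)) ^ (1 - ε / 2) ≤ (2 * (D : ℝ)) ^ (1 : ℝ) :=
            Real.rpow_le_rpow_of_exponent_le (by linarith) (by linarith)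
        _ = 2 * D := Real.rpow_one _
    have h5 : 0 < Y ^ (1 - ε) := Real.rpow_pos_of_pos hY0 _
    have h6 : 0 < Z ^ (1 - ε / 2) := Real.rpow_pos_of_pos hZ0 _
    have h7 : Y ^ (1 - ε) * (2 * D) ≤ Z ^ (1 - ε / 2) * (2 * D) := by
      calc Y ^ (1 - ε) * (2 * D) ≤ Y ^ (1 - ε) * Y ^ (ε / 2) := mul_le_mul_of_nonneg_left g3 h5.le
        _ = Z ^ (1 - ε / 2) * (2 * D) ^ (1 - ε / 2) := by rw [h2, h3]
        _ ≤ _ := mul_le_mul_of_nonneg_left h4 h6.le
    exact le_of_mul_le_mul_right h7 (by positivity)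
  · intro n hn
    rw [mem_image] at hn
    obtain ⟨m, hm, rfl⟩ := hn
    obtain ⟨k1, k2, k3⟩ := hS2 m hm
    refine ⟨?_, ?_, fun i q hq => ?_⟩
    · have : (D : ℤ) * (M' + 1) ≤ D * m := mul_le_mul_of_nonneg_left (by omega) hDz.le
      omega
    · push_cast
      have h1 : (D : ℝ) * m ≤ D * (M' + Z) := mul_le_mul_of_nonneg_left k2 hD0.le
      have h2 : (D : ℝ) * Z = Y / 2 := by rw [hZ]; field_simp
      rw [mul_add, h2] at h1
      linarith
    · have h1 := k3 i q hq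
      have h2 : (((f i).eval (((D : ℤ) * m : ℤ) : ℚ) : ℚ) : ℝ) =
          (((h i).eval m : ℤ) : ℝ) + (((f i).coeff 0 : ℚ) : ℝ) := by
        have h3 := hev i m
        have h4 : (f i).eval (((D : ℤ) * m : ℤ) : ℚ) = (((h i).eval m : ℤ) : ℚ) + (f i).coeff 0 := by
          rw [h3]
          push_cast
          ring
        rw [h4]
        push_cast
        ring
      rw [h2]
      have h3 : |(((f i).coeff 0 : ℚ) : ℝ)| ≤ γ :=
        single_le_sum (f := fun i => |(((f i).coeff 0 : ℚ) : ℝ)|) (fun _ _ => abs_nonneg _)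
          (mem_univ i)
      have h4 : |(q : ℝ) - (((h i).eval m : ℤ) : ℝ)| ≤
          |(q : ℝ) - ((((h i).eval m : ℤ) : ℝ) + (((f i).coeff 0 : ℚ) : ℝ))| +
          |(((f i).coeff 0 : ℚ) : ℝ)| := by
        have e : (q : ℝ) - (((h i).eval m : ℤ) : ℝ) =
          ((q : ℝ) - ((((h i).eval m : ℤ) : ℝ) + (((f i).coeff 0 : ℚ) : ℝ))) +
          (((f i).coeff 0 : ℚ) : ℝ) := by ring
        conv_lhs => rw [e]
        exact abs_add_le _ _
      have h5 : γ ≤ c / 2 * GR (Real.log Z) := by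
        have h6 : 2 * γ / c ≤ GR (Real.log Z) := by linarith
        rw [div_le_iff₀ hc] at h6
        linarith
      have h6 : c / 16 * GR (Real.log Y) ≤ c / 2 * GR (Real.log Z) := by
        have := mul_le_mul_of_nonneg_left hG1 (show (0:ℝ) ≤ c / 16 by positivity)
        linarith
      linarith

end Run7.h63.PV
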