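import Pool.Agent.H378R2.M1
import Pool.Agent.H378R2.LSBV5

set_option autoImplicit false
set_option maxHeartbeats 1000000

/-! # Primes in progressions to moduli with random prime factors (helper63)

The random removal of prime factors of `Pool.Agent.H378R2.LSBV4` (helper378), applied to a set of primes
which contains several candidates for each of the additional prime factors of the modulus. -/

namespace Run7.h63.PR

open Finset Filter Topology
open Pool.Agent.H378R2 Pool.Agent.H378R2.LSBV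

open scoped Classical

theorem sum_ww_superset (P B : Finset ℕ) (κ : ℝ) (hB : B ⊆ P) :
    ∑ S ∈ P.powerset, ww P κ S * (if B ⊆ S then (1 : ℝ) else 0) = κ ^ B.card := by
  have h1 : ∀ S ∈ P.powerset, ww P κ S * (if B ⊆ S then (1 : ℝ) else 0) =
      (∏ _i ∈ S, κ) * ∏ i ∈ P \ S, (1 - κ) * (if i ∈ B then 0 else 1) := by
    intro S _
    unfold ww
    rw [prod_mul_distrib]
    have : (∏ i ∈ P \ S, (if i ∈ B then (0:ℝ) else 1)) = if B ⊆ S then 1 else 0 := by
      split_ifs with h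
      · apply prod_eq_one
        intro i hi
        rw [if_neg]
        intro hiB
        exact (Finset.mem_sdiff.1 hi).2 (h hiB)
      · rw [Finset.not_subset] at h
        obtain ⟨i, hi, hi'⟩ := h
        exact prod_eq_zero (Finset.mem_sdiff.2 ⟨hB hi, hi'⟩) (if_pos hi)
    rw [this]
    ring
  rw [sum_congr rfl h1, ← prod_add]
  have h2 : ∀ i ∈ P, κ + (1 - κ) * (if i ∈ B then (0:ℝ) else 1) = if i ∈ B then κ else 1 := by
    intro i _
    split_ifs <;> ring
  rw [prod_congr rfl h2, prod_ite, prod_const, prod_const, one_pow, mul_one]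
  congr 1
  congr 1
  ext i
  rw [mem_filter]
  exact ⟨fun h => h.2, fun h => ⟨hB h, h⟩⟩

/-- the conductors of case B -/
noncomputable def BB (F ps Ω : ℕ) (U P S : Finset ℕ) : Finset ℕ :=
  (Icc 2 F).filter (fun f => Squarefree f ∧ f.Coprime ps ∧ (∀ p ∈ f.primeFactors, p ∈ U ∧ p ∉ S) ∧
    Ω ≤ (P ∩ f.primeFactors).card)

theorem caseB' (T : ℕ → ℝ) (hT : ∀ f, 0 ≤ T f) (F ps Ω : ℕ) (U P : Finset ℕ) (κ : ℝ)
    (h0 : 0 ≤ κ) (h1 : κ ≤ 1) :
    ∑ S ∈ P.powerset, ww P κ S * ∑ f ∈ BB F ps Ω U P S, T f ≤ (1 - κ) ^ Ω * ∑ f ∈ Icc 2 F, T f := by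
  set G := (Icc 2 F).filter (fun f => Ω ≤ (P ∩ f.primeFactors).card) with hG
  have s1 : ∀ S ∈ P.powerset, ww P κ S * ∑ f ∈ BB F ps Ω U P S, T f ≤
      ∑ f ∈ G, T f * (ww P κ S * (if Disjoint S f.primeFactors then (1:ℝ) else 0)) := by
    intro S _
    have hw := ww_nonneg P κ h0 h1 S
    rw [mul_sum]
    have hsub : BB F ps Ω U P S ⊆ G := by
      intro f hf
      unfold BB at hf
      rw [mem_filter] at hf
      rw [hG, mem_filter]
      exact ⟨hf.1, hf.2.2.2.2⟩
    calc ∑ f ∈ BB F ps Ω U P S, ww P κ S * T f =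
        ∑ f ∈ BB F ps Ω U P S, T f *
          (ww P κ S * (if Disjoint S f.primeFactors then (1:ℝ) else 0)) := by
          apply sum_congr rfl
          intro f hf
          unfold BB at hf
          rw [mem_filter] at hf
          rw [if_pos]
          · ring
          · rw [Finset.disjoint_right]
            intro p hp
            exact (hf.2.2.2.1 p hp).2
      _ ≤ _ := by
          apply sum_le_sum_of_subset_of_nonneg hsub
          intro p _ _
          apply mul_nonneg (hT _)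
          apply mul_nonneg hw
          split_ifs <;> norm_num
  refine (sum_le_sum s1).trans ?_
  rw [sum_comm]
  have s2 : ∀ f ∈ G, ∑ S ∈ P.powerset, T f *
        (ww P κ S * (if Disjoint S f.primeFactors then (1:ℝ) else 0)) ≤ (1 - κ) ^ Ω * T f := by
    intro f hf
    rw [hG, mem_filter] at hf
    rw [← mul_sum, sum_ww_disjoint, mul_comm]
    apply mul_le_mul_of_nonneg_right _ (hT _)
    exact pow_le_pow_of_le_one (by linarith) (by linarith) hf.2
  refine (sum_le_sum s2).trans ?_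
  rw [← mul_sum]
  apply mul_le_mul_of_nonneg_left _ (by apply pow_nonneg; linarith)
  exact sum_le_sum_of_subset_of_nonneg (filter_subset _ _) fun f _ _ => hT f

/-- number of indices all of whose candidates are removed -/
noncomputable def badn {ι : Type} [Fintype ι] (𝒞 : ι → Finset ℕ) (ps : ℕ) (S : Finset ℕ) : ℝ :=
  ∑ i, if (𝒞 i).erase ps ⊆ S then (1 : ℝ) else 0

theorem badn_avg {ι : Type} [Fintype ι] (𝒞 : ι → Finset ℕ) (ps : ℕ) (P : Finset ℕ) (κ : ℝ)
    (h0 : 0 ≤ κ) (h1 : κ ≤ 1) (hP : ∀ i, 𝒞 i ⊆ P) (m : ℕ) (hm : ∀ i, m + 1 ≤ (𝒞 i).card) :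
    ∑ S ∈ P.powerset, ww P κ S * badn 𝒞 ps S ≤ Fintype.card ι * κ ^ m := by
  unfold badn
  simp_rw [mul_sum]
  rw [sum_comm]
  calc ∑ i, ∑ S ∈ P.powerset, ww P κ S * (if (𝒞 i).erase ps ⊆ S then (1 : ℝ) else 0) =
      ∑ i, κ ^ ((𝒞 i).erase ps).card :=
        sum_congr rfl fun i _ => sum_ww_superset P _ κ ((erase_subset _ _).trans (hP i))
    _ ≤ ∑ i : ι, κ ^ m := by
        refine sum_le_sum fun i _ => ?_
        apply pow_le_pow_of_le_one h0 h1
        have := hm i
        have h2 := pred_card_le_card_erase (s := 𝒞 i) (a := ps)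
        omega
    _ = _ := by rw [sum_const, nsmul_eq_mul, card_univ]

/-- size of the conductors of case A -/
theorem size_A (z : ℕ) (K : ℝ) (hK : 1 ≤ K) (P : Finset ℕ) (hP : ∀ p ∈ P, (p : ℝ) ≤ K)
    (f Ω : ℕ) (hf : Squarefree f)
    (hU : ∀ p ∈ f.primeFactors, p ∉ P → p ≤ z) (hΩ : (P ∩ f.primeFactors).card < Ω) :
    (f : ℝ) ≤ 4 ^ z * K ^ Ω := by
  have h1 : f = (∏ p ∈ P ∩ f.primeFactors, p) * ∏ p ∈ f.primeFactors \ P, p := by
    conv_lhs => rw [← Nat.prod_primeFactors_of_squarefree hf]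
    rw [inter_comm, prod_inter_mul_prod_sdiff]
  have h2 : ∏ p ∈ f.primeFactors \ P, p ≤ 4 ^ z := by
    refine le_trans ?_ (primorial_le_four_pow z)
    apply Nat.le_of_dvd (primorial_pos _)
    unfold primorial
    apply prod_dvd_prod_of_subset
    intro p hp
    rw [Finset.mem_sdiff] at hp
    rw [mem_filter, mem_range]
    exact ⟨by have := hU p hp.1 hp.2; omega, Nat.prime_of_mem_primeFactors hp.1⟩
  have h3 : ((∏ p ∈ P ∩ f.primeFactors, p : ℕ) : ℝ) ≤ K ^ Ω := by
    push_cast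
    calc ∏ p ∈ P ∩ f.primeFactors, (p:ℝ) ≤ ∏ p ∈ P ∩ f.primeFactors, K := by
          apply Finset.prod_le_prod
          · intro p _; positivity
          · intro p hp
            exact hP p (mem_inter.1 hp).1
      _ = K ^ (P ∩ f.primeFactors).card := by rw [prod_const]
      _ ≤ K ^ Ω := pow_le_pow_right₀ hK hΩ.le
  have h4 : (f:ℝ) = ((∏ p ∈ P ∩ f.primeFactors, p : ℕ) : ℝ) *
      ((∏ p ∈ f.primeFactors \ P, p : ℕ) : ℝ) := by
    exact_mod_cast h1
  rw [h4, mul_comm]
  apply mul_le_mul _ h3 (by positivity) (by positivity)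
  exact_mod_cast h2

/-- sum over the conductors of case A -/
theorem caseA' (X : ℝ) (hX : 0 ≤ X) (l : ℝ) (G : Finset ℕ)
    (hG : ∀ f ∈ G, 1 < f ∧ (f : ℝ) ≤ Real.exp (l ^ 6) ∧ ∀ χ : DirichletCharacter ℂ f, χ.IsPrimitive →
          ‖psiPhi χ X‖ ≤ X * Real.exp (-l ^ 7)) :
    ∑ f ∈ G, TT X f ≤ X * Real.exp (2 * l ^ 6 - l ^ 7) := by
  have h2 : ∀ f ∈ G, TT X f ≤ Real.exp (l ^ 6) * (X * Real.exp (-l ^ 7)) := by
    intro f hf
    obtain ⟨hf1, hf2, hf3⟩ := hG f hf
    refine (TT_le X f hf1.le (X * Real.exp (-l ^ 7)) (by positivity) hf3).trans ?_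
    exact mul_le_mul_of_nonneg_right hf2 (by positivity)
  refine (sum_le_sum h2).trans ?_
  rw [sum_const, nsmul_eq_mul]
  have h3 : (G.card : ℝ) ≤ Real.exp (l ^ 6) := by
    have h4 : G ⊆ Icc 1 ⌊Real.exp (l ^ 6)⌋₊ := by
      intro f hf
      obtain ⟨hf1, hf2, -⟩ := hG f hf
      rw [mem_Icc]
      exact ⟨hf1.le, Nat.le_floor hf2⟩
    have : G.card ≤ ⌊Real.exp (l ^ 6)⌋₊ := by
      refine (card_le_card h4).trans ?_
      rw [Nat.card_Icc]
      omega
    calc (G.card : ℝ) ≤ ⌊Real.exp (l ^ 6)⌋₊ := by exact_mod_cast this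
      _ ≤ _ := Nat.floor_le (by positivity)
  calc (G.card : ℝ) * (Real.exp (l ^ 6) * (X * Real.exp (-l ^ 7))) ≤
      Real.exp (l ^ 6) * (Real.exp (l ^ 6) * (X * Real.exp (-l ^ 7))) :=
        mul_le_mul_of_nonneg_right h3 (by positivity)
    _ = X * (Real.exp (l ^ 6) * Real.exp (l ^ 6) * Real.exp (-l ^ 7)) := by ring
    _ = _ := by
        rw [← Real.exp_add, ← Real.exp_add]
        congr 2
        ring

end Run7.h63.PR
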