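import Pool.Agent.Run7.h63.PR1

set_option autoImplicit false
set_option maxHeartbeats 1000000

/-! # Primes in progressions to a modulus with prescribed kinds of prime factors (helper63) -/

namespace Run7.h63.PR

open Finset Filter Topology
open Pool.Agent.H378R2 Pool.Agent.H378R2.LSBV Pool.Agent.Helper112 Pool.Agent.H398R2.BV

open scoped Classical

theorem ev_log' (K : ℝ) (k : ℕ) (s : ℝ) (hs : 0 < s) :
    ∀ᶠ X : ℝ in atTop, K * Real.log X ^ k ≤ X ^ s := by
  have h1 := isLittleO_log_rpow_rpow_atTop (k : ℝ) hs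
  have h2 : (0:ℝ) < 1 / (|K| + 1) := by positivity
  have h3 := h1.bound h2
  filter_upwards [h3, eventually_ge_atTop (1:ℝ)] with X hX hX1
  have hL : 0 ≤ Real.log X := Real.log_nonneg hX1
  have hXs : 0 ≤ X ^ s := by positivity
  have hLk : 0 ≤ Real.log X ^ k := by positivity
  rw [Real.rpow_natCast, Real.norm_eq_abs, Real.norm_eq_abs, abs_of_nonneg hLk,
    abs_of_nonneg hXs] at hX
  have h4 : K * Real.log X ^ k ≤ (|K| + 1) * Real.log X ^ k := by
    apply mul_le_mul_of_nonneg_right _ (by positivity)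
    have := le_abs_self K
    linarith
  refine h4.trans ?_
  calc (|K| + 1) * Real.log X ^ k ≤ (|K| + 1) * (1 / (|K| + 1) * X ^ s) :=
        mul_le_mul_of_nonneg_left hX (by positivity)
    _ = X ^ s := by field_simp

theorem primorial_yy (X : ℝ) (hX : 1 ≤ X) : (primorial (yy X) : ℝ) ≤ X ^ (1 / 500 : ℝ) := by
  have hX0 : 0 < X := by linarith
  have hL : 0 ≤ Real.log X := Real.log_nonneg hX
  have h1 : (primorial (yy X) : ℝ) ≤ (4:ℝ) ^ (yy X) := by
    exact_mod_cast primorial_le_four_pow (yy X)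
  refine h1.trans ?_
  have h2 : (yy X : ℝ) ≤ Real.log X / 1000 := Nat.floor_le (by positivity)
  have h4 : Real.log 4 ≤ 2 := by
    have : (4:ℝ) = 2 ^ 2 := by norm_num
    rw [this, Real.log_pow]
    have := Real.log_two_lt_d9
    push_cast
    linarith
  have h5 : 0 ≤ Real.log 4 := Real.log_nonneg (by norm_num)
  rw [Real.rpow_def_of_pos hX0]
  calc (4:ℝ) ^ (yy X) = Real.exp (Real.log 4 * yy X) := by
        rw [Real.exp_mul, Real.exp_log (by norm_num), Real.rpow_natCast]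
    _ ≤ Real.exp (Real.log X * (1 / 500)) := by
        apply Real.exp_le_exp.mpr
        calc Real.log 4 * yy X ≤ 2 * (Real.log X / 1000) :=
              mul_le_mul h4 h2 (by positivity) (by norm_num)
          _ = _ := by ring

/-- the modulus with the additional prime factors `p ∈ E` -/
noncomputable def QE (X : ℝ) (S : Finset ℕ) (ps : ℕ) (E : Finset ℕ) : ℕ :=
  WW X S ps * ∏ p ∈ E, p

theorem QE_facts (X : ℝ) (S : Finset ℕ) (ps : ℕ) (E : Finset ℕ)
    (hc : ∀ p ∈ E, p.Prime ∧ yy X < p) :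
    Squarefree (QE X S ps E) ∧ 0 < QE X S ps E ∧
      ∀ p, p ∈ (QE X S ps E).primeFactors ↔ (p ∈ PW X S ps ∨ p ∈ E) := by
  have hdisj : Disjoint (PW X S ps) E := by
    rw [Finset.disjoint_left]
    intro p hp hp2
    unfold PW at hp
    rw [mem_filter, mem_Icc] at hp
    have := (hc p hp2).2
    omega
  have hQ : QE X S ps E = ∏ p ∈ PW X S ps ∪ E, p := by
    unfold QE WW
    rw [prod_union hdisj]
  have hpr : ∀ p ∈ PW X S ps ∪ E, p.Prime := by
    intro p hp
    rcases mem_union.1 hp with h | h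
    · exact WW_primes X S ps p h
    · exact (hc p h).1
  refine ⟨?_, ?_, ?_⟩
  · rw [hQ]
    apply Finset.squarefree_prod_of_pairwise_isCoprime
    · intro p hp q hq hpq
      exact Nat.coprime_iff_isRelPrime.mp ((Nat.coprime_primes (hpr p (by simpa using hp))
        (hpr q (by simpa using hq))).mpr hpq)
    · intro p hp
      exact (hpr p hp).squarefree
  · rw [hQ]
    exact prod_pos fun p hp => (hpr p hp).pos
  · intro p
    rw [hQ, Nat.primeFactors_prod hpr, mem_union]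

theorem pnt_rel (B Z : ℕ) (hB : 1 ≤ B) : ∃ X0 : ℝ, ∀ X : ℝ, X0 ≤ X →
    ∀ (ι : Type) [Fintype ι] (𝒞 : ι → Finset ℕ),
    (∀ i, ∀ p ∈ 𝒞 i, p.Prime ∧ yy X < p ∧ (p : ℝ) ≤ (Real.log X) ^ B) →
    (∀ i, Real.log (Real.log X) + 2 ≤ ((𝒞 i).card : ℝ)) →
    (Fintype.card ι : ℝ) ≤ (Real.log X) ^ 4 →
    ∃ (ps : ℕ) (S : Finset ℕ), GoodP Z ps ∧
      (∀ q ∈ S, q.Prime ∧ z2 X < q) ∧
      ∑ q ∈ S, (1 : ℝ) / q ≤ 3 * (B + 1) / (Real.log (Real.log X)) ^ 2 ∧
      (∀ i, ∃ c ∈ 𝒞 i, c ≠ ps ∧ c ∉ S) ∧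
      ∀ E : Finset ℕ, (∀ p ∈ E, p.Prime ∧ yy X < p ∧ (p : ℝ) ≤ (Real.log X) ^ B ∧ p ≠ ps ∧ p ∉ S) →
        (E.card : ℝ) * (B * Real.log (Real.log X)) ≤ Real.log X / 200 →
        ((QE X S ps E : ℕ) : ℝ) ≤ X ^ (1 / 100 : ℝ) ∧
        ∀ b : ℕ, b.Coprime (QE X S ps E) →
          |EPhi X (QE X S ps E) b| ≤ X / ((Nat.totient (QE X S ps E) : ℝ) * Real.log X) := by
  obtain ⟨C0, X1, hls⟩ := ls_sum
  set C1 := max C0 1 with hC1
  have hC1p : 1 ≤ C1 := le_max_right _ _
  obtain ⟨X2, hX2⟩ := small_conductor (primorial Z)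
  have hlog : Tendsto Real.log atTop atTop := Real.tendsto_log_atTop
  have hloglog : Tendsto (fun X : ℝ => Real.log (Real.log X)) atTop atTop := hlog.comp hlog
  have hBr : (1 : ℝ) ≤ B := by exact_mod_cast hB
  obtain ⟨X3, hX3⟩ := eventually_atTop.1 ((eventually_ge_atTop (4 : ℝ)).and
    ((hloglog.eventually_ge_atTop (20 * B + 20 : ℝ)).and
      ((hlog.eventually_ge_atTop (64 * C1)).and ((ev_log' 32 3 (1 / 2) (by norm_num)).and
        (hlog.eventually (ev_log' 1001 3 1 one_pos))))))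
  refine ⟨max (max X1 X2) X3, fun X hX ι _ 𝒞 h𝒞 hcard hι => ?_⟩
  have h1 : X1 ≤ X := (le_max_left _ _).trans ((le_max_left _ _).trans hX)
  have h2 : X2 ≤ X := (le_max_right _ _).trans ((le_max_left _ _).trans hX)
  obtain ⟨h3, h4, h5, h6, h7⟩ := hX3 X ((le_max_right _ _).trans hX)
  rw [Real.rpow_one] at h7
  have hX0 : 0 < X := by linarith
  have hXone : 1 ≤ X := by linarith
  set L := Real.log X with hL
  set l := Real.log L with hl
  have hL64 : 64 ≤ L := by linarith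
  have hL1 : 1 ≤ L := by linarith
  have hL0 : 0 < L := by linarith
  have hl40 : 40 ≤ l := by linarith
  have hl0 : 0 < l := by linarith
  have hexpl : Real.exp l = L := Real.exp_log hL0
  obtain ⟨fs, hfs, hsc⟩ := hX2 X h2
  obtain ⟨ps, hps, hps2⟩ := exists_ps Z fs hfs
  have hsc' : ∀ f : ℕ, Squarefree f → 1 < f → (f : ℝ) ≤ Real.exp (l ^ 6) → f.Coprime ps →
      ∀ χ : DirichletCharacter ℂ f, χ.IsPrimitive →
        ‖psiPhi χ X‖ ≤ X * Real.exp (-l ^ 7) := by
    intro f hf1 hf2 hf3 hf4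
    exact hsc f hf1 hf2 hf3 (hps2 f hf2 hf1 hf4)
  -- parameters
  set F := ⌊X ^ (1 / 50 : ℝ)⌋₊ with hF
  set Ω := ⌈10 * l ^ 4⌉₊ with hΩ
  set κ := 1 / l ^ 3 with hκ
  set P := (Icc 1 ⌊L ^ B⌋₊).filter (fun p => p.Prime ∧ z2 X < p) with hP
  set U := (Icc 1 ⌊L ^ B⌋₊).filter Nat.Prime with hU
  have hl3 : (1:ℝ) ≤ l ^ 3 := one_le_pow₀ (by linarith)
  have hκ0 : 0 ≤ κ := by positivity
  have hκ1 : κ ≤ 1 := by
    rw [hκ, div_le_one (by positivity)]
    exact hl3
  have hyL : (yy X : ℝ) ≤ L := by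
    have : (yy X : ℝ) ≤ L / 1000 := Nat.floor_le (by positivity)
    linarith
  have hLB : L ≤ L ^ B := le_self_pow₀ hL1 (by omega)
  have hyLB : yy X ≤ ⌊L ^ B⌋₊ := Nat.le_floor (hyL.trans hLB)
  have hPle : ∀ p ∈ P, p.Prime ∧ z2 X < p ∧ (p : ℝ) ≤ L ^ B := by
    intro p hp
    rw [hP, mem_filter, mem_Icc] at hp
    exact ⟨hp.2.1, hp.2.2, (Nat.le_floor_iff (by positivity)).1 hp.1.2⟩
  have hzy : z2 X ≤ yy X := by
    unfold z2 yy
    rw [← hL, ← hl]
    apply Nat.le_floor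
    have e1 : ((⌈l ^ 3⌉₊ : ℕ) : ℝ) ≤ l ^ 3 + 1 := (Nat.ceil_lt_add_one (by positivity)).le
    have e2 : 1000 * (l ^ 3 + 1) ≤ L := by
      have e6 : (64000 : ℝ) ≤ l ^ 3 := by
        calc (64000 : ℝ) = 40 ^ 3 := by norm_num
          _ ≤ l ^ 3 := pow_le_pow_left₀ (by norm_num) hl40 3
      linarith
    rw [le_div_iff₀ (by norm_num)]
    linarith
  -- number of candidates
  set m : ℕ := ⌈l⌉₊ with hm
  have hmc : ∀ i, m + 1 ≤ (𝒞 i).card := by
    intro i
    have e1 := hcard i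
    have e2 := Nat.ceil_lt_add_one hl0.le
    have e3 : ((m + 1 : ℕ) : ℝ) < ((𝒞 i).card : ℝ) := by
      push_cast
      linarith
    exact (by exact_mod_cast e3 : m + 1 < (𝒞 i).card).le
  -- first average
  have hE1 : ∑ S ∈ P.powerset, ww P κ S * ∑ q ∈ S, (1:ℝ) / q ≤ (B + 1) / l ^ 2 := by
    rw [sum_ww_inv]
    have e1 : ∑ q ∈ P, (1:ℝ) / q ≤ 1 + B * l := by
      calc ∑ q ∈ P, (1:ℝ) / q ≤ ∑ q ∈ Icc 1 ⌊L ^ B⌋₊, (1:ℝ) / q := by
            apply sum_le_sum_of_subset_of_nonneg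
            · intro p hp
              obtain ⟨q1, q2, q3⟩ := hPle p hp
              rw [mem_Icc]
              exact ⟨q1.one_lt.le, Nat.le_floor q3⟩
            · intro i _ _
              positivity
        _ ≤ 1 + Real.log (⌊L ^ B⌋₊ : ℕ) := harm_le' _
        _ ≤ 1 + B * l := by
            have e2 : Real.log ((⌊L ^ B⌋₊ : ℕ) : ℝ) ≤ Real.log (L ^ B) :=
              log_natCast_le _ _ (one_le_pow₀ hL1) (Nat.floor_le (by positivity))
            rw [Real.log_pow] at e2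
            linarith
    calc κ * ∑ q ∈ P, (1:ℝ) / q ≤ κ * ((B + 1) * l) := by
          apply mul_le_mul_of_nonneg_left _ hκ0
          refine e1.trans ?_
          have : (B + 1) * l = B * l + l := by ring
          linarith
      _ = (B + 1) / l ^ 2 := by
          rw [hκ]
          field_simp
  -- second average
  have hall : ∑ f ∈ Icc 2 F, TT X f ≤ C1 * X * L ^ 8 := by
    have e1 : ∑ f ∈ Icc 2 F, TT X f ≤ C0 * X * L ^ 8 := hls X h1
    refine e1.trans ?_
    have : C0 ≤ C1 := le_max_left _ _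
    gcongr
  have hpow : (1 - κ) ^ Ω ≤ 1 / L ^ 10 := by
    have e1 : 1 - κ ≤ Real.exp (-κ) := by
      have := Real.add_one_le_exp (-κ)
      linarith
    calc (1 - κ) ^ Ω ≤ (Real.exp (-κ)) ^ Ω := pow_le_pow_left₀ (by linarith) e1 _
      _ = Real.exp (-(κ * Ω)) := by
          rw [← Real.exp_nat_mul]
          congr 1
          ring
      _ ≤ Real.exp (-(10 * l)) := by
          apply Real.exp_le_exp.mpr
          have e2 : 10 * l ^ 4 ≤ (Ω : ℝ) := Nat.le_ceil _
          have e3 : κ * (10 * l ^ 4) ≤ κ * Ω := mul_le_mul_of_nonneg_left e2 hκ0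
          have e4 : κ * (10 * l ^ 4) = 10 * l := by
            rw [hκ]
            field_simp
          linarith
      _ = 1 / L ^ 10 := by
          rw [Real.exp_neg, show (10 : ℝ) * l = ((10 : ℕ) : ℝ) * l by norm_num, Real.exp_nat_mul,
            hexpl, one_div]
  have hE2a : ∑ S ∈ P.powerset, ww P κ S * ∑ f ∈ BB F ps Ω U P S, TT X f ≤ C1 * X / L ^ 2 := by
    refine (caseB' (TT X) (TT_nonneg X) F ps Ω U P κ hκ0 hκ1).trans ?_
    calc (1 - κ) ^ Ω * ∑ f ∈ Icc 2 F, TT X f ≤ (1 / L ^ 10) * (C1 * X * L ^ 8) := by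
          apply mul_le_mul hpow hall (sum_nonneg fun f _ => TT_nonneg X f) (by positivity)
      _ = C1 * X / L ^ 2 := by
          field_simp
  have hκm : κ ^ m ≤ 1 / L ^ 6 := by
    have e1 : κ ≤ Real.exp (-6) := by
      rw [hκ, Real.exp_neg, ← one_div]
      apply one_div_le_one_div_of_le (Real.exp_pos _)
      have e2 : Real.exp 6 = (Real.exp 1) ^ 6 := by
        rw [← Real.exp_nat_mul]; norm_num
      have e3 := Real.exp_one_lt_d9
      have e4 : (Real.exp 1) ^ 6 ≤ 3 ^ 6 := pow_le_pow_left₀ (Real.exp_pos _).le (by linarith) 6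
      have e5 : (40 : ℝ) ^ 3 ≤ l ^ 3 := pow_le_pow_left₀ (by norm_num) hl40 3
      rw [e2]
      refine e4.trans (le_trans ?_ e5)
      norm_num
    calc κ ^ m ≤ (Real.exp (-6)) ^ m := pow_le_pow_left₀ hκ0 e1 m
      _ = Real.exp (-(6 * m)) := by
          rw [← Real.exp_nat_mul]
          congr 1
          ring
      _ ≤ Real.exp (-(6 * l)) := by
          apply Real.exp_le_exp.2
          have := Nat.le_ceil l
          linarith
      _ = 1 / L ^ 6 := by
          rw [Real.exp_neg, show (6 : ℝ) * l = ((6 : ℕ) : ℝ) * l by norm_num, Real.exp_nat_mul,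
            hexpl, one_div]
  have hE2b : ∑ S ∈ P.powerset, ww P κ S * badn 𝒞 ps S ≤ 1 / 64 := by
    refine (badn_avg 𝒞 ps P κ hκ0 hκ1 (fun i => ?_) m hmc).trans ?_
    · intro p hp
      obtain ⟨q1, q2, q3⟩ := h𝒞 i p hp
      rw [hP, mem_filter, mem_Icc]
      exact ⟨⟨q1.one_lt.le, Nat.le_floor q3⟩, q1, lt_of_le_of_lt hzy q2⟩
    · calc (Fintype.card ι : ℝ) * κ ^ m ≤ L ^ 4 * (1 / L ^ 6) :=
            mul_le_mul hι hκm (by positivity) (by positivity)
        _ = 1 / L ^ 2 := by field_simp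
        _ ≤ 1 / 64 := by
            apply one_div_le_one_div_of_le (by norm_num)
            calc (64 : ℝ) ≤ L := hL64
              _ ≤ L ^ 2 := le_self_pow₀ hL1 (by norm_num)
  obtain ⟨S, hSP, hS1, hS2⟩ := exists_good P κ hκ0 hκ1 (fun S => ∑ q ∈ S, (1:ℝ) / q)
    (fun S => (∑ f ∈ BB F ps Ω U P S, TT X f) * (8 * L / X) + 4 * badn 𝒞 ps S)
    (fun S => sum_nonneg fun _ _ => by positivity)
    (fun S => by
      have e1 : 0 ≤ ∑ f ∈ BB F ps Ω U P S, TT X f := sum_nonneg fun _ _ => TT_nonneg X _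
      have e2 : 0 ≤ badn 𝒞 ps S := sum_nonneg fun _ _ => by split_ifs <;> norm_num
      positivity) ((B + 1) / l ^ 2) (1 / 4) (by positivity) (by norm_num) hE1 (by
      have e1 : ∀ S, ww P κ S * ((∑ f ∈ BB F ps Ω U P S, TT X f) * (8 * L / X) + 4 * badn 𝒞 ps S) =
          (ww P κ S * ∑ f ∈ BB F ps Ω U P S, TT X f) * (8 * L / X) +
            4 * (ww P κ S * badn 𝒞 ps S) := fun S => by ring
      simp_rw [e1]
      rw [sum_add_distrib, ← sum_mul, ← mul_sum]
      have e2 : (∑ S ∈ P.powerset, ww P κ S * ∑ f ∈ BB F ps Ω U P S, TT X f) * (8 * L / X) ≤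
          (C1 * X / L ^ 2) * (8 * L / X) := mul_le_mul_of_nonneg_right hE2a (by positivity)
      have e3 : (C1 * X / L ^ 2) * (8 * L / X) = 8 * C1 / L := by field_simp
      have e4 : 8 * C1 / L ≤ 1 / 8 := by
        rw [div_le_div_iff₀ hL0 (by norm_num)]
        linarith
      linarith)
  have hbad0 : 0 ≤ badn 𝒞 ps S := sum_nonneg fun _ _ => by split_ifs <;> norm_num
  have hBBs0 : 0 ≤ ∑ f ∈ BB F ps Ω U P S, TT X f := sum_nonneg fun _ _ => TT_nonneg X _
  have hBBs : ∑ f ∈ BB F ps Ω U P S, TT X f ≤ X / (8 * L) := by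
    have e1 : (∑ f ∈ BB F ps Ω U P S, TT X f) * (8 * L / X) ≤ 1 := by linarith
    rw [mul_div_assoc', div_le_one hX0] at e1
    rw [le_div_iff₀ (by positivity)]
    exact e1
  have hbad : badn 𝒞 ps S < 1 := by
    have e1 : 0 ≤ (∑ f ∈ BB F ps Ω U P S, TT X f) * (8 * L / X) := by positivity
    linarith
  have hex : ∀ i, ∃ c ∈ (𝒞 i).erase ps, c ∉ S := by
    intro i
    by_contra hcon
    push Not at hcon
    have e1 : (1 : ℝ) ≤ badn 𝒞 ps S := by
      unfold badn
      have e2 := single_le_sum (f := fun i => if (𝒞 i).erase ps ⊆ S then (1 : ℝ) else 0)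
        (fun i _ => by split_ifs <;> norm_num) (mem_univ i)
      rw [if_pos (show (𝒞 i).erase ps ⊆ S from fun x hx => hcon x hx)] at e2
      exact e2
    linarith
  refine ⟨ps, S, hps, fun q hq => ⟨(hPle q (hSP hq)).1, (hPle q (hSP hq)).2.1⟩, ?_, ?_, ?_⟩
  · calc ∑ q ∈ S, (1 : ℝ) / q ≤ 3 * ((B + 1) / l ^ 2) := hS1
      _ = _ := by ring
  · intro i
    obtain ⟨c, h1, h2⟩ := hex i
    exact ⟨c, mem_of_mem_erase h1, ne_of_mem_erase h1, h2⟩
  intro E hE hEc
  obtain ⟨hQsq, hQ0, hQp⟩ := QE_facts X S ps E (fun p hp => ⟨(hE p hp).1, (hE p hp).2.1⟩)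
  set Q := QE X S ps E with hQ
  -- size of Q
  have hQX : (Q : ℝ) ≤ X ^ (1 / 100 : ℝ) := by
    have e1 : ((WW X S ps : ℕ) : ℝ) ≤ X ^ (1 / 500 : ℝ) := by
      refine le_trans ?_ (primorial_yy X hXone)
      exact_mod_cast Nat.le_of_dvd (primorial_pos _) (WW_dvd_primorial X S ps)
    have e2 : ((∏ p ∈ E, p : ℕ) : ℝ) ≤ X ^ (1 / 200 : ℝ) := by
      push_cast
      calc ∏ p ∈ E, (p : ℝ) ≤ ∏ p ∈ E, L ^ B :=
            prod_le_prod (fun _ _ => Nat.cast_nonneg _) fun p hp => (hE p hp).2.2.1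
        _ = (L ^ B) ^ E.card := by rw [prod_const]
        _ = Real.exp ((E.card : ℝ) * (B * l)) := by
            rw [Real.exp_nat_mul, Real.exp_nat_mul, hexpl]
        _ ≤ Real.exp (L / 200) := Real.exp_le_exp.2 hEc
        _ = X ^ (1 / 200 : ℝ) := by
            rw [Real.rpow_def_of_pos hX0, ← hL]
            congr 1
            ring
    have e3 : (Q : ℝ) = ((WW X S ps : ℕ) : ℝ) * ((∏ p ∈ E, p : ℕ) : ℝ) := by
      rw [hQ]
      unfold QE
      push_cast
      rfl
    rw [e3]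
    calc ((WW X S ps : ℕ) : ℝ) * ((∏ p ∈ E, p : ℕ) : ℝ) ≤ X ^ (1 / 500 : ℝ) * X ^ (1 / 200 : ℝ) :=
          mul_le_mul e1 e2 (Nat.cast_nonneg _) (by positivity)
      _ = X ^ (1 / 500 + 1 / 200 : ℝ) := by rw [Real.rpow_add hX0]
      _ ≤ X ^ (1 / 100 : ℝ) := Real.rpow_le_rpow_of_exponent_le hXone (by norm_num)
  have hQF : Q ≤ F := by
    apply Nat.le_floor
    exact hQX.trans (Real.rpow_le_rpow_of_exponent_le hXone (by norm_num))
  refine ⟨hQX, ?_⟩
  intro b hb
  -- the divisors of Q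
  have hdiv : ∀ f, f ∣ Q → f ≠ 1 → 2 ≤ f ∧ f ≤ F ∧ Squarefree f ∧ f.Coprime ps ∧
      ∀ p ∈ f.primeFactors, p ∈ U ∧ p ∉ S := by
    intro f hf hf1
    have e0 : 0 < f := Nat.pos_of_dvd_of_pos hf hQ0
    have e1 : ∀ p ∈ f.primeFactors, p ∈ PW X S ps ∨ p ∈ E := fun p hp =>
      (hQp p).1 (Nat.primeFactors_mono hf hQ0.ne' hp)
    refine ⟨by omega, (Nat.le_of_dvd hQ0 hf).trans hQF, hQsq.squarefree_of_dvd hf, ?_, ?_⟩
    · rcases hps with h | h
      · rw [h]; exact Nat.coprime_one_right _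
      · rw [Nat.coprime_comm, Nat.Prime.coprime_iff_not_dvd h.1]
        intro hd
        have e2 := e1 ps (Nat.mem_primeFactors.2 ⟨h.1, hd, e0.ne'⟩)
        rcases e2 with e2 | e2
        · unfold PW at e2
          rw [mem_filter] at e2
          exact e2.2.2.2 rfl
        · exact (hE ps e2).2.2.2.1 rfl
    · intro p hp
      rcases e1 p hp with e2 | e2
      · unfold PW at e2
        rw [mem_filter, mem_Icc] at e2
        refine ⟨?_, e2.2.2.1⟩
        rw [hU, mem_filter, mem_Icc]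
        exact ⟨⟨e2.1.1, e2.1.2.trans hyLB⟩, e2.2.1⟩
      · obtain ⟨q1, q2, q3, q4, q5⟩ := hE p e2
        refine ⟨?_, q5⟩
        rw [hU, mem_filter, mem_Icc]
        exact ⟨⟨q1.one_lt.le, Nat.le_floor q3⟩, q1⟩
  set DA := (Q.divisors.filter (fun f => f ≠ 1)).filter (fun f => (P ∩ f.primeFactors).card < Ω)
    with hDA
  have hA : ∑ f ∈ DA, TT X f ≤ X / (8 * L) := by
    refine (caseA' X hX0.le l DA ?_).trans ?_
    · intro f hf
      rw [hDA, mem_filter, mem_filter, Nat.mem_divisors] at hf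
      obtain ⟨⟨⟨hf1, -⟩, hf2⟩, hf3⟩ := hf
      obtain ⟨d1, d2, d3, d4, d5⟩ := hdiv f hf1 hf2
      have hsz : (f : ℝ) ≤ Real.exp (l ^ 6) := by
        refine (size_A (z2 X) (L ^ B) (one_le_pow₀ hL1) P (fun p hp => (hPle p hp).2.2) f Ω d3
          (fun p hp hpP => ?_) hf3).trans ?_
        · have e1 := (d5 p hp).1
          rw [hU, mem_filter] at e1
          by_contra hcon
          push Not at hcon
          apply hpP
          rw [hP, mem_filter]
          exact ⟨e1.1, e1.2, hcon⟩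
        · have hz : (z2 X : ℝ) ≤ l ^ 3 + 1 := (Nat.ceil_lt_add_one (by positivity)).le
          have hΩle : (Ω : ℝ) ≤ 10 * l ^ 4 + 1 := (Nat.ceil_lt_add_one (by positivity)).le
          have h4e : (4:ℝ) ≤ Real.exp 2 := by
            have h := Real.exp_one_gt_d9
            have : Real.exp 2 = Real.exp 1 * Real.exp 1 := by rw [← Real.exp_add]; norm_num
            rw [this]
            nlinarith
          calc (4 : ℝ) ^ (z2 X) * (L ^ B) ^ Ω ≤ (Real.exp 2) ^ (z2 X) * (L ^ B) ^ Ω := by gcongr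
            _ = Real.exp (2 * z2 X + Ω * (B * l)) := by
                rw [Real.exp_add, Real.exp_nat_mul, Real.exp_nat_mul, hexpl, mul_comm (2:ℝ) (z2 X : ℝ),
                  Real.exp_nat_mul]
            _ ≤ Real.exp (l ^ 6) := by
                apply Real.exp_le_exp.mpr
                have hp1 := poly1 l (10 * B) B (by positivity) (by positivity) (by linarith)
                have e1 : (Ω : ℝ) * (B * l) ≤ (10 * l ^ 4 + 1) * (B * l) :=
                  mul_le_mul_of_nonneg_right hΩle (by positivity)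
                have e2 : (10 * l ^ 4 + 1) * (B * l) = l * (10 * B * l ^ 4) + B * l := by ring
                have e3 : l * (10 * B * l ^ 4 + 1) = l * (10 * B * l ^ 4) + l := by ring
                linarith
      exact ⟨by omega, hsz, fun χ hχ => hsc' f d3 (by omega) hsz d4 χ hχ⟩
    · have hp2 := poly2 l 4 (by norm_num) (by linarith)
      have e1 : Real.exp (2 * l ^ 6 - l ^ 7) ≤ 1 / L ^ 4 := by
        have e2 : 1 / L ^ 4 = Real.exp (-(4 * l)) := by
          rw [Real.exp_neg, show (4 : ℝ) * l = ((4 : ℕ) : ℝ) * l by norm_num, Real.exp_nat_mul,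
            hexpl, one_div]
        rw [e2]
        exact Real.exp_le_exp.mpr (by linarith)
      calc X * Real.exp (2 * l ^ 6 - l ^ 7) ≤ X * (1 / L ^ 4) :=
            mul_le_mul_of_nonneg_left e1 hX0.le
        _ = X / L ^ 4 := by ring
        _ ≤ X / (8 * L) := by
            apply div_le_div_of_nonneg_left hX0.le (by positivity)
            have e3 : L ^ 4 = L * (L * (L * L)) := by ring
            have e4 : (1 : ℝ) ≤ L * L := by nlinarith
            have e5 : L * 1 ≤ L * (L * L) := mul_le_mul_of_nonneg_left e4 hL0.le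
            have e6 : L * (L * 1) ≤ L * (L * (L * L)) := mul_le_mul_of_nonneg_left (by linarith) hL0.le
            rw [e3]
            nlinarith
  have hBsum : ∑ f ∈ (Q.divisors.filter (fun f => f ≠ 1)).filter
      (fun f => ¬ (P ∩ f.primeFactors).card < Ω), TT X f ≤ X / (8 * L) := by
    refine le_trans ?_ hBBs
    apply sum_le_sum_of_subset_of_nonneg
    · intro f hf
      rw [mem_filter, mem_filter, Nat.mem_divisors] at hf
      obtain ⟨⟨⟨hf1, -⟩, hf2⟩, hf3⟩ := hf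
      obtain ⟨d1, d2, d3, d4, d5⟩ := hdiv f hf1 hf2
      unfold BB
      rw [mem_filter, mem_Icc]
      exact ⟨⟨d1, d2⟩, d3, d4, d5, not_lt.1 hf3⟩
    · intro f _ _
      exact TT_nonneg X f
  have hTT : ∑ f ∈ Q.divisors.filter (fun f => f ≠ 1), TT X f ≤ X / (4 * L) := by
    rw [← sum_filter_add_sum_filter_not (Q.divisors.filter (fun f => f ≠ 1))
      (fun f => (P ∩ f.primeFactors).card < Ω)]
    have e1 : X / (8 * L) + X / (8 * L) = X / (4 * L) := by
      field_simp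
      ring
    linarith
  have hmain := EPhi_le X hXone Q b (by omega) hb
  refine hmain.trans ?_
  have hφ0 : (0:ℝ) < Nat.totient Q := by exact_mod_cast Nat.totient_pos.mpr hQ0
  have hφX : (Nat.totient Q : ℝ) ≤ X ^ (1 / 100 : ℝ) :=
    le_trans (by exact_mod_cast Nat.totient_le Q) hQX
  have u2 : (Q.primeFactors.card : ℝ) ≤ 2 * L := by
    refine (omega_le_log Q (by omega)).trans ?_
    have v1 : ((Q : ℕ) : ℝ) ≤ X := by
      calc (Q : ℝ) ≤ X ^ (1 / 100 : ℝ) := hQX
        _ ≤ X ^ (1:ℝ) := Real.rpow_le_rpow_of_exponent_le hXone (by norm_num)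
        _ = X := Real.rpow_one X
    have := log_natCast_le Q X hXone v1
    linarith
  have u3 : Real.log (3 * X) ≤ 2 * L := by
    calc Real.log (3 * X) ≤ Real.log (X * X) :=
          Real.log_le_log (by positivity) (by nlinarith)
      _ = 2 * L := by rw [Real.log_mul hX0.ne' hX0.ne']; ring
  have u4 : 0 ≤ Real.log (3 * X) := Real.log_nonneg (by linarith)
  have u5 : 2 * ((Q.primeFactors.card : ℝ) * Real.log (3 * X)) ≤ 8 * L ^ 2 := by
    calc 2 * ((Q.primeFactors.card : ℝ) * Real.log (3 * X)) ≤ 2 * ((2 * L) * (2 * L)) := by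
          apply mul_le_mul_of_nonneg_left _ (by norm_num)
          exact mul_le_mul u2 u3 u4 (by positivity)
      _ = 8 * L ^ 2 := by ring
  have u6 : 8 * L ^ 2 ≤ (1 / (Nat.totient Q : ℝ)) * (X / (4 * L)) := by
    rw [one_div, inv_mul_eq_div, le_div_iff₀ hφ0, le_div_iff₀ (by positivity)]
    calc 8 * L ^ 2 * (Nat.totient Q : ℝ) * (4 * L) = (32 * L ^ 3) * (Nat.totient Q : ℝ) := by ring
      _ ≤ X ^ (1 / 2 : ℝ) * X ^ (1 / 100 : ℝ) := mul_le_mul h6 hφX hφ0.le (by positivity)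
      _ = X ^ (1 / 2 + 1 / 100 : ℝ) := by rw [Real.rpow_add hX0]
      _ ≤ X ^ (1 : ℝ) := Real.rpow_le_rpow_of_exponent_le hXone (by norm_num)
      _ = X := Real.rpow_one X
  have u7 : (1 / (Nat.totient Q : ℝ)) * (∑ f ∈ Q.divisors.filter (fun f => f ≠ 1), TT X f) ≤
      (1 / (Nat.totient Q : ℝ)) * (X / (4 * L)) := mul_le_mul_of_nonneg_left hTT (by positivity)
  calc _ ≤ (1 / (Nat.totient Q : ℝ)) * (X / (4 * L)) + (1 / (Nat.totient Q : ℝ)) * (X / (4 * L)) := by
        linarith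
    _ = (X / ((Nat.totient Q : ℝ) * L)) / 2 := by
        field_simp
        ring
    _ ≤ X / ((Nat.totient Q : ℝ) * L) := half_le_self (by positivity)

end Run7.h63.PR
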