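import Pool.Agent.Run7.h63.PR2

set_option autoImplicit false
set_option maxHeartbeats 1000000

/-! # Number of primes in a class (helper63); `Phi_mid` and `LP_ge` are copied from
`Pool.Agent.H378R2.M7r` -/

namespace Run7.h63.PR

open Finset Filter Topology
open Pool.Agent.H378R2

/-- weighted number of primes -/
noncomputable def LP (X : ℝ) : ℝ :=
  ∑ n ∈ Icc 1 ⌊3 * X⌋₊, Phi (n / X) * ArithmeticFunction.vonMangoldt n

theorem Phi_mid {u : ℝ} (h1 : 11 / 10 ≤ u) (h2 : u ≤ 5 / 2) : 1 / 20 ≤ Phi u := by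
  have hl1 : 1 / 20 ≤ Real.log u := by
    have h3 := Real.one_sub_inv_le_log_of_pos (by linarith : 0 < u)
    have h4 : u⁻¹ ≤ 10 / 11 := (inv_anti₀ (by norm_num) h1).trans (by norm_num)
    linarith
  have hl2 : Real.log u ≤ 19 / 20 := by
    have h3 := Real.log_le_log (by linarith) h2
    have h4 : Real.log (5 / 2) = Real.log 2 + Real.log (5 / 4) := by
      rw [← Real.log_mul (by norm_num) (by norm_num)]; norm_num
    have h5 : Real.log (5 / 4) ≤ 1 / 4 := by
      have := Real.log_le_sub_one_of_pos (by norm_num : (0 : ℝ) < 5 / 4)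
      linarith
    have := Real.log_two_lt_d9
    linarith
  unfold Phi
  apply le_max_of_le_right
  have : |Real.log u - 1 / 2| ≤ 9 / 20 := by
    rw [abs_le]; constructor <;> linarith
  linarith

theorem LP_ge : ∀ᶠ X : ℝ in atTop, X / 200 ≤ LP X := by
  have h1 : ∀ᶠ X : ℝ in atTop, Real.log (5 / 2 * X + 2) + 2 * Real.sqrt (11 / 10 * X) * Real.log (11 / 10 * X) + 1 ≤ X / 20 := by
    have e1 : (fun X : ℝ => Real.log X) =o[atTop] (fun X : ℝ => X ^ (1 / 4 : ℝ)) := isLittleO_log_rpow_atTop (by norm_num)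
    filter_upwards [e1.def (by norm_num : (0 : ℝ) < 1), eventually_ge_atTop (10 ^ 12 : ℝ)] with X h2 h3
    rw [one_mul, Real.norm_of_nonneg (Real.log_nonneg (by linarith)), Real.norm_of_nonneg (Real.rpow_nonneg (by linarith) _)] at h2
    set q := X ^ (1 / 4 : ℝ) with hq
    have hq4 : q ^ 4 = X := by
      rw [hq, ← Real.rpow_natCast, ← Real.rpow_mul (by linarith)]; norm_num
    have hqn : 0 ≤ q := Real.rpow_nonneg (by linarith) _
    have hq2 : Real.sqrt X = q ^ 2 := by
      rw [Real.sqrt_eq_iff_mul_self_eq (by linarith) (by positivity)]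
      rw [← hq4]; ring
    have hq1000 : 1000 ≤ q := by
      by_contra h
      push Not at h
      have : q ^ 4 < 1000 ^ 4 := pow_lt_pow_left₀ h hqn (by norm_num)
      rw [hq4] at this
      linarith
    have e2 : Real.log (5 / 2 * X + 2) ≤ 2 + q := by
      have : 5 / 2 * X + 2 ≤ 3 * X := by linarith
      have h4 := Real.log_le_log (by linarith) this
      rw [Real.log_mul (by norm_num) (by linarith)] at h4
      have : Real.log 3 ≤ 2 := by
        have := Real.log_le_sub_one_of_pos (by norm_num : (0 : ℝ) < 3)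
        linarith
      linarith
    have e3 : Real.sqrt (11 / 10 * X) ≤ 2 * q ^ 2 := by
      rw [← hq2]
      rw [Real.sqrt_le_left (by positivity), mul_pow, Real.sq_sqrt (by linarith)]
      linarith
    have e4 : Real.log (11 / 10 * X) ≤ 1 + q := by
      rw [Real.log_mul (by norm_num) (by linarith)]
      have := Real.log_le_sub_one_of_pos (by norm_num : (0 : ℝ) < 11 / 10)
      linarith
    have e5 : 0 ≤ Real.log (11 / 10 * X) := Real.log_nonneg (by linarith)
    have e6 : 2 * Real.sqrt (11 / 10 * X) * Real.log (11 / 10 * X) ≤ 2 * (2 * q ^ 2) * (1 + q) := by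
      gcongr
    have e7 : 2 + q + 2 * (2 * q ^ 2) * (1 + q) + 1 ≤ q ^ 4 / 20 := by
      have : q ^ 4 = q * (q * (q * q)) := by ring
      have hqq : 1000 * (q * q) ≤ q * (q * q) := by nlinarith [mul_nonneg hqn hqn]
      nlinarith [mul_nonneg hqn hqn, mul_nonneg hqn (mul_nonneg hqn hqn)]
    rw [← hq4]
    rw [← hq4] at e2 e6
    linarith
  filter_upwards [h1, eventually_ge_atTop 10] with X h2 h3
  have h4 := Chebyshev.psi_ge' (x := 5 / 2 * X) (by linarith)
  have h5 := Chebyshev.psi_le (x := 11 / 10 * X) (by linarith)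
  have hl4 : Real.log 4 = 2 * Real.log 2 := by
    rw [show (4 : ℝ) = 2 ^ 2 by norm_num, Real.log_pow]; norm_num
  have hdiff : X / 10 ≤ Chebyshev.psi (5 / 2 * X) - Chebyshev.psi (11 / 10 * X) := by
    have := Real.log_two_gt_d9
    have := Real.log_two_lt_d9
    rw [hl4] at h5
    nlinarith
  have hsum : Chebyshev.psi (5 / 2 * X) - Chebyshev.psi (11 / 10 * X) =
      ∑ n ∈ Ioc ⌊11 / 10 * X⌋₊ ⌊5 / 2 * X⌋₊, ArithmeticFunction.vonMangoldt n := by
    unfold Chebyshev.psi
    rw [sub_eq_iff_eq_add, add_comm]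
    have hd : Ioc 0 ⌊5 / 2 * X⌋₊ = Ioc 0 ⌊11 / 10 * X⌋₊ ∪ Ioc ⌊11 / 10 * X⌋₊ ⌊5 / 2 * X⌋₊ := by
      rw [Finset.Ioc_union_Ioc_eq_Ioc (Nat.zero_le _) (Nat.floor_le_floor (by linarith))]
    rw [hd, Finset.sum_union]
    rw [Finset.disjoint_left]
    intro n
    simp only [Finset.mem_Ioc]
    omega
  unfold LP
  have h6 : ∑ n ∈ Ioc ⌊11 / 10 * X⌋₊ ⌊5 / 2 * X⌋₊, Phi (n / X) * ArithmeticFunction.vonMangoldt n ≤
      ∑ n ∈ Icc 1 ⌊3 * X⌋₊, Phi (n / X) * ArithmeticFunction.vonMangoldt n := by
    apply Finset.sum_le_sum_of_subset_of_nonneg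
    · intro n hn
      rw [Finset.mem_Ioc] at hn
      rw [Finset.mem_Icc]
      refine ⟨by omega, hn.2.trans (Nat.floor_le_floor (by linarith))⟩
    · intro n _ _
      exact mul_nonneg (le_max_left _ _) ArithmeticFunction.vonMangoldt_nonneg
  refine le_trans ?_ h6
  have h7 : ∀ n ∈ Ioc ⌊11 / 10 * X⌋₊ ⌊5 / 2 * X⌋₊, (1 / 20) * ArithmeticFunction.vonMangoldt n ≤
      Phi (n / X) * ArithmeticFunction.vonMangoldt n := by
    intro n hn
    rw [Finset.mem_Ioc] at hn
    apply mul_le_mul_of_nonneg_right _ ArithmeticFunction.vonMangoldt_nonneg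
    apply Phi_mid
    · rw [le_div_iff₀ (by linarith)]
      exact (Nat.lt_of_floor_lt hn.1).le
    · rw [div_le_iff₀ (by linarith)]
      exact (Nat.cast_le.2 hn.2).trans (Nat.floor_le (by linarith))
  refine le_trans ?_ (Finset.sum_le_sum h7)
  rw [← Finset.mul_sum, ← hsum]
  linarith


theorem Phi_zero {u : ℝ} (h0 : 0 ≤ u) (h1 : u ≤ 1) : Phi u = 0 := by
  unfold Phi
  apply max_eq_left
  have : Real.log u ≤ 0 := Real.log_nonpos h0 h1
  rw [abs_of_nonpos (by linarith)]
  linarith

theorem Phi_one (u : ℝ) : Phi u ≤ 1 := by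
  unfold Phi
  apply max_le (by norm_num)
  linarith [abs_nonneg (Real.log u - 1 / 2)]

theorem Phi_nn (u : ℝ) : 0 ≤ Phi u := le_max_left _ _

open scoped Classical in
theorem primes_in_class : ∃ X0 : ℝ, ∀ X : ℝ, X0 ≤ X → ∀ Q b : ℕ, 1 ≤ Q →
    (Q : ℝ) ≤ X ^ (1 / 100 : ℝ) →
    |EPhi X Q b| ≤ X / ((Nat.totient Q : ℝ) * Real.log X) →
    X ^ (49 / 50 : ℝ) ≤ (((Icc 1 ⌊3 * X⌋₊).filter
      (fun n : ℕ => n.Prime ∧ X < (n : ℝ) ∧ n ≡ b [MOD Q])).card : ℝ) := by
  obtain ⟨X0, h⟩ := eventually_atTop.1 ((LP_ge.and (eventually_ge_atTop (9 : ℝ))).and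
    ((Real.tendsto_log_atTop.eventually_ge_atTop (400 : ℝ)).and
      (ev_log' 4000 1 (1 / 100) (by norm_num))))
  refine ⟨X0, fun X hX Q b hQ hQX hE => ?_⟩
  obtain ⟨⟨h1, h2⟩, h3, h4⟩ := h X hX
  rw [pow_one] at h4
  have hX0 : 0 < X := by linarith
  have hX1 : 1 ≤ X := by linarith
  set L := Real.log X with hL
  have hL0 : 0 < L := by linarith
  have hφ0 : (0:ℝ) < Nat.totient Q := by exact_mod_cast Nat.totient_pos.mpr hQ
  have hφX : (Nat.totient Q : ℝ) ≤ X ^ (1 / 100 : ℝ) :=
    le_trans (by exact_mod_cast Nat.totient_le Q) hQX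
  have hlog3 : Real.log (3 * X) ≤ 2 * L := by
    calc Real.log (3 * X) ≤ Real.log (X * X) :=
          Real.log_le_log (by positivity) (by nlinarith)
      _ = 2 * L := by rw [Real.log_mul hX0.ne' hX0.ne']; ring
  have hlog30 : 0 ≤ Real.log (3 * X) := Real.log_nonneg (by linarith)
  set A := (Icc 1 ⌊3 * X⌋₊).filter (fun n => n ≡ b [MOD Q]) with hA
  set B := (Icc 1 ⌊3 * X⌋₊).filter (fun n : ℕ => n.Prime ∧ X < (n : ℝ) ∧ n ≡ b [MOD Q]) with hB
  -- lower bound
  have hlow : X ^ (99 / 100 : ℝ) / 400 ≤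
      ∑ n ∈ A, Phi (n / X) * ArithmeticFunction.vonMangoldt n := by
    have e1 : ∑ n ∈ A, Phi (n / X) * ArithmeticFunction.vonMangoldt n =
        EPhi X Q b + 1 / (Nat.totient Q : ℝ) * LP X := by
      unfold EPhi LP
      rw [hA]
      ring
    have e2 : 1 / (Nat.totient Q : ℝ) * (X / 200) ≤ 1 / (Nat.totient Q : ℝ) * LP X :=
      mul_le_mul_of_nonneg_left h1 (by positivity)
    have e3 : X / ((Nat.totient Q : ℝ) * L) ≤ 1 / (Nat.totient Q : ℝ) * (X / 400) := by
      rw [div_mul_div_comm, one_mul]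
      apply div_le_div_of_nonneg_left hX0.le (by positivity)
      exact mul_le_mul_of_nonneg_left h3 hφ0.le
    have e4 := neg_abs_le (EPhi X Q b)
    have e5 : X ^ (99 / 100 : ℝ) / 400 ≤ 1 / (Nat.totient Q : ℝ) * (X / 400) := by
      rw [div_mul_div_comm, one_mul, div_le_div_iff₀ (by norm_num) (by positivity)]
      have e6 : X ^ (99 / 100 : ℝ) * X ^ (1 / 100 : ℝ) = X := by
        rw [← Real.rpow_add hX0]; norm_num
      have e7 : X ^ (99 / 100 : ℝ) * (Nat.totient Q : ℝ) ≤ X := by
        calc X ^ (99 / 100 : ℝ) * (Nat.totient Q : ℝ) ≤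
              X ^ (99 / 100 : ℝ) * X ^ (1 / 100 : ℝ) :=
                mul_le_mul_of_nonneg_left hφX (by positivity)
          _ = X := e6
      linarith
    have e8 : 1 / (Nat.totient Q : ℝ) * (X / 200) = 1 / (Nat.totient Q : ℝ) * (X / 400) +
      1 / (Nat.totient Q : ℝ) * (X / 400) := by ring
    rw [e1]
    linarith
  -- upper bound
  have hup : ∑ n ∈ A, Phi (n / X) * ArithmeticFunction.vonMangoldt n ≤
      (B.card : ℝ) * Real.log (3 * X) + 2 * Real.sqrt (3 * X) * Real.log (3 * X) := by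
    have e1 : ∑ n ∈ A, Phi (n / X) * ArithmeticFunction.vonMangoldt n ≤
        ∑ n ∈ B, Real.log (3 * X) +
          ∑ n ∈ (Ioc 0 ⌊3 * X⌋₊).filter (fun n => ¬ n.Prime), ArithmeticFunction.vonMangoldt n := by
      rw [← sum_filter_add_sum_filter_not A (fun n : ℕ => n.Prime)]
      apply add_le_add
      · calc ∑ n ∈ A.filter (fun n : ℕ => n.Prime), Phi (n / X) * ArithmeticFunction.vonMangoldt n
            = ∑ n ∈ B, Phi (n / X) * ArithmeticFunction.vonMangoldt n := by
              symm
              apply sum_subset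
              · intro n hn
                rw [hB, mem_filter] at hn
                rw [mem_filter, hA, mem_filter]
                exact ⟨⟨hn.1, hn.2.2.2⟩, hn.2.1⟩
              · intro n hn hn2
                rw [mem_filter, hA, mem_filter] at hn
                have hle : (n : ℝ) ≤ X := by
                  by_contra hcon
                  push Not at hcon
                  exact hn2 (by rw [hB, mem_filter]; exact ⟨hn.1.1, hn.2, hcon, hn.1.2⟩)
                rw [Phi_zero (by positivity) (by rw [div_le_one hX0]; exact hle), zero_mul]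
          _ ≤ ∑ n ∈ B, Real.log (3 * X) := by
              apply sum_le_sum
              intro n hn
              rw [hB, mem_filter, mem_Icc] at hn
              have hn0 : (0 : ℝ) < n := by exact_mod_cast hn.1.1
              have q1 : ArithmeticFunction.vonMangoldt n ≤ Real.log (3 * X) := by
                refine ArithmeticFunction.vonMangoldt_le_log.trans ?_
                apply Real.log_le_log hn0
                exact (Nat.cast_le.2 hn.1.2).trans (Nat.floor_le (by positivity))
              calc Phi (n / X) * ArithmeticFunction.vonMangoldt n ≤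
                    1 * ArithmeticFunction.vonMangoldt n :=
                      mul_le_mul_of_nonneg_right (Phi_one _) ArithmeticFunction.vonMangoldt_nonneg
                _ ≤ _ := by rw [one_mul]; exact q1
      · calc ∑ n ∈ A.filter (fun n : ℕ => ¬ n.Prime), Phi (n / X) * ArithmeticFunction.vonMangoldt n
            ≤ ∑ n ∈ A.filter (fun n : ℕ => ¬ n.Prime), ArithmeticFunction.vonMangoldt n := by
              apply sum_le_sum
              intro n _
              calc Phi (n / X) * ArithmeticFunction.vonMangoldt n ≤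
                    1 * ArithmeticFunction.vonMangoldt n :=
                      mul_le_mul_of_nonneg_right (Phi_one _) ArithmeticFunction.vonMangoldt_nonneg
                _ = _ := one_mul _
          _ ≤ _ := by
              apply sum_le_sum_of_subset_of_nonneg
              · intro n hn
                rw [mem_filter, hA, mem_filter, mem_Icc] at hn
                rw [mem_filter, mem_Ioc]
                exact ⟨⟨hn.1.1.1, hn.1.1.2⟩, hn.2⟩
              · intro n _ _
                exact ArithmeticFunction.vonMangoldt_nonneg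
    refine e1.trans ?_
    rw [sum_const, nsmul_eq_mul]
    have e2 := Chebyshev.psi_sub_theta_eq_sum_not_prime (3 * X)
    have e3 := Chebyshev.psi_sub_theta_le (x := 3 * X) (by linarith)
    rw [e2] at e3
    linarith
  have hsq : Real.sqrt (3 * X) ≤ 2 * X ^ (49 / 50 : ℝ) := by
    have e1 : Real.sqrt (3 * X) ≤ 2 * Real.sqrt X := by
      rw [Real.sqrt_le_left (by positivity), mul_pow, Real.sq_sqrt hX0.le]
      linarith
    have e2 : Real.sqrt X ≤ X ^ (49 / 50 : ℝ) := by
      rw [Real.sqrt_eq_rpow]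
      exact Real.rpow_le_rpow_of_exponent_le hX1 (by norm_num)
    linarith
  have hY0 : 0 < X ^ (49 / 50 : ℝ) := by positivity
  have hmain : 10 * L * X ^ (49 / 50 : ℝ) ≤ X ^ (99 / 100 : ℝ) / 400 := by
    have e1 : X ^ (99 / 100 : ℝ) = X ^ (49 / 50 : ℝ) * X ^ (1 / 100 : ℝ) := by
      rw [← Real.rpow_add hX0]; norm_num
    rw [e1]
    have e2 := mul_le_mul_of_nonneg_left h4 hY0.le
    linarith
  have hlast : 2 * Real.sqrt (3 * X) * Real.log (3 * X) ≤ 8 * L * X ^ (49 / 50 : ℝ) := by
    calc 2 * Real.sqrt (3 * X) * Real.log (3 * X) ≤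
          2 * (2 * X ^ (49 / 50 : ℝ)) * (2 * L) := by gcongr
      _ = _ := by ring
  have hcard : 2 * L * X ^ (49 / 50 : ℝ) ≤ (B.card : ℝ) * (2 * L) := by
    have e1 : (B.card : ℝ) * Real.log (3 * X) ≤ (B.card : ℝ) * (2 * L) :=
      mul_le_mul_of_nonneg_left hlog3 (Nat.cast_nonneg _)
    linarith
  have : X ^ (49 / 50 : ℝ) * (2 * L) ≤ (B.card : ℝ) * (2 * L) := by linarith
  exact le_of_mul_le_mul_right this (by positivity)

end Run7.h63.PR
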