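import Pool.Agent.Run7.h63.PM5
import Pool.Agent.Run7.h63.SF2

set_option autoImplicit false
set_option maxHeartbeats 400000

/-! # Candidates for the own primes of the surviving shifts (helper63) -/

namespace Run7.h63.PR

open Finset Polynomial Pool.Agent.H256R2.SC

open scoped Classical

/-- disjoint groups of the same size -/
theorem groups (g : ℕ) : ∀ (N : ℕ) (C : Finset ℕ), N * g ≤ C.card →
    ∃ G : ℕ → Finset ℕ, (∀ k, k < N → G k ⊆ C ∧ (G k).card = g) ∧
      ∀ j k, j < N → k < N → j ≠ k → Disjoint (G j) (G k) := by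
  intro N
  induction N with
  | zero => intro C _; exact ⟨fun _ => ∅, fun k hk => absurd hk (by omega), fun j k hj => absurd hj (by omega)⟩
  | succ N ih =>
    intro C hC
    have h1 : g ≤ C.card := by
      have : (N + 1) * g = N * g + g := by ring
      omega
    obtain ⟨D, hD1, hD2⟩ := exists_subset_card_eq h1
    have h2 : N * g ≤ (C \ D).card := by
      rw [card_sdiff_of_subset hD1, hD2]
      have : (N + 1) * g = N * g + g := by ring
      omega
    obtain ⟨G, hG1, hG2⟩ := ih (C \ D) h2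
    have hdis : ∀ k, k < N → Disjoint D (G k) := by
      intro k hk
      rw [Finset.disjoint_left]
      intro x hx hx2
      exact (Finset.mem_sdiff.1 ((hG1 k hk).1 hx2)).2 hx
    refine ⟨fun k => if k = N then D else G k, fun k hk => ?_, fun j k hj hk hjk => ?_⟩
    · by_cases h : k = N
      · simp only [h, if_true]
        exact ⟨hD1, hD2⟩
      · simp only [h, if_false]
        have := hG1 k (by omega)
        exact ⟨this.1.trans sdiff_subset, this.2⟩
    · by_cases h : j = N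
      · have h3 : k ≠ N := fun h4 => hjk (h.trans h4.symm)
        simp only [h, h3, if_true, if_false]
        exact hdis k (by omega)
      · by_cases h3 : k = N
        · simp only [h, h3, if_true, if_false]
          exact (hdis j (by omega)).symm
        · simp only [h, h3, if_false]
          exact hG2 j k (by omega) (by omega) hjk

/-- an integer has few prime factors above `y` -/
theorem few_primes (S : Finset ℕ) (y : ℝ) (hy : 1 < y) (m : ℤ) (hm : m ≠ 0)
    (hmy : |(m : ℝ)| ≤ y ^ 3) (hS : ∀ p ∈ S, p.Prime ∧ y < (p : ℝ) ∧ (p : ℤ) ∣ m) : S.card ≤ 3 := by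
  by_contra hcon
  push Not at hcon
  have h1 : ∏ p ∈ S, p ∣ m.natAbs := by
    apply Finset.prod_primes_dvd
    · intro p hp
      exact (hS p hp).1.prime
    · intro p hp
      exact Int.natCast_dvd.1 (hS p hp).2.2
  have h2 : ∏ p ∈ S, p ≤ m.natAbs := Nat.le_of_dvd (Int.natAbs_pos.2 hm) h1
  have h3 : y ^ S.card ≤ ∏ p ∈ S, (p : ℝ) := by
    rw [← prod_const]
    exact prod_le_prod (fun _ _ => by linarith) fun p hp => (hS p hp).2.1.le
  have h4 : ((∏ p ∈ S, p : ℕ) : ℝ) ≤ (m.natAbs : ℝ) := by exact_mod_cast h2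
  push_cast at h4
  have h5 : (m.natAbs : ℝ) = |(m : ℝ)| := by rw [Nat.cast_natAbs]; push_cast; rfl
  have h6 : y ^ 3 < y ^ S.card := pow_lt_pow_right₀ hy hcon
  linarith

/-- primes above `y` for which `f + u` has a nonzero root -/
noncomputable def CP (f : ℤ[X]) (u : ℤ) (y : ℝ) (A : ℕ) : Finset ℕ :=
  (PV.RP f u y A).filter (fun p : ℕ => ¬ (p : ℤ) ∣ f.eval 0 + u)

theorem CP_prop {f : ℤ[X]} {u : ℤ} {y : ℝ} (hy : 1 ≤ y) {A p : ℕ} (hp : p ∈ CP f u y A) :
    p.Prime ∧ y < (p : ℝ) ∧ (p : ℝ) ≤ y ^ A ∧ ∃ t : ℤ, (p : ℤ) ∣ f.eval t + u ∧ ¬ (p : ℤ) ∣ t := by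
  unfold CP PV.RP at hp
  rw [mem_filter, mem_filter, mem_Icc] at hp
  obtain ⟨⟨⟨-, h1⟩, h2, h3, t, ht⟩, h4⟩ := hp
  refine ⟨h2, h3, (Nat.le_floor_iff (by positivity)).1 h1, t, ht, fun hd => h4 ?_⟩
  have e : (p : ℤ) ∣ t - 0 := by rwa [sub_zero]
  exact (PV.eval_congr e u).1 ht

theorem CP_card (f : ℤ[X]) (u : ℤ) (y : ℝ) (hy : 1 < y) (A : ℕ) (hu : f.eval 0 + u ≠ 0)
    (hu2 : |((f.eval 0 + u : ℤ) : ℝ)| ≤ y ^ 3) : (PV.RP f u y A).card ≤ (CP f u y A).card + 3 := by
  have h1 : (PV.RP f u y A).card = (CP f u y A).card +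
      ((PV.RP f u y A).filter (fun p : ℕ => ¬ ¬ (p : ℤ) ∣ f.eval 0 + u)).card := by
    unfold CP
    rw [card_filter_add_card_filter_not]
  rw [h1]
  apply Nat.add_le_add_left
  apply few_primes _ y hy _ hu hu2
  intro p hp
  rw [mem_filter, not_not] at hp
  unfold PV.RP at hp
  rw [mem_filter] at hp
  exact ⟨hp.1.2.1, hp.1.2.2.1, hp.2⟩

end Run7.h63.PR
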