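import Pool.Agent.Run7.h63.PR4

set_option autoImplicit false
set_option maxHeartbeats 400000

/-! # The arithmetic core with missing primes (helper63) -/

namespace Run7.h63.PR

open Finset Polynomial Pool.Agent.H256R2.SC Run7.h63.SF Run7.h63.PV Pool.Agent.H426R3.SQ

open scoped Classical

/-- the surviving shifts when the primes of `F` are missing -/
noncomputable def G1F (f : ℤ[X]) (n₁ n₂ : ℤ) (y : ℝ) (T : ℕ) (F : Finset ℕ) : Finset ℤ :=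
  (Icc (-(T : ℤ)) (T : ℤ)).filter (fun u =>
    (∀ p : ℕ, p.Prime → zR y < (p : ℝ) → (p : ℝ) ≤ y → p ∉ F → ¬ (p : ℤ) ∣ f.eval n₂ + u) ∧
    (∀ p : ℕ, p.Prime → (p : ℝ) ≤ zR y → p ∉ F → ¬ (p : ℤ) ∣ f.eval n₁ + u))

theorem G1F_card (f : ℤ[X]) (n₁ n₂ : ℤ) (y : ℝ) (T T₀ : ℕ) (F : Finset ℕ)
    (hT : (T : ℤ) + |f.eval n₂| ≤ T₀) :
    ((G1F f n₁ n₂ y T F).card : ℝ) ≤ ((SVF y T₀ (f.eval n₁ - f.eval n₂) F).card : ℝ) +
      ((SVF y T₀ (-(f.eval n₁ - f.eval n₂)) F).card : ℝ) + 1 := by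
  set γ : ℤ := f.eval n₂ with hγ
  set e : ℤ := f.eval n₁ - γ with he
  have hsub : G1F f n₁ n₂ y T F ⊆ ((SVF y T₀ e F).image (fun v : ℕ => (v : ℤ) - γ) ∪
      (SVF y T₀ (-e) F).image (fun v : ℕ => -(v : ℤ) - γ)) ∪ {-γ} := by
    intro u hu
    unfold G1F at hu
    rw [mem_filter, mem_Icc, ← hγ] at hu
    obtain ⟨⟨h1, h2⟩, h6, h7⟩ := hu
    have hg1 := le_abs_self γ
    have hg2 := neg_abs_le γ
    by_cases hne : γ + u = 0
    · apply mem_union_right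
      rw [mem_singleton]
      linarith
    apply mem_union_left
    rcases lt_or_gt_of_ne hne with h | h
    · apply mem_union_right
      obtain ⟨v, hv⟩ := Int.eq_ofNat_of_zero_le (show 0 ≤ -(γ + u) by linarith)
      have hv' : u = -(v : ℤ) - γ := by linarith
      refine mem_image.mpr ⟨v, ?_, hv'.symm⟩
      unfold SVF
      rw [mem_filter, mem_Icc]
      refine ⟨⟨by omega, by omega⟩, fun p hp hp1 hp2 hpF hd => h6 p hp hp1 hp2 hpF ?_,
        fun p hp hp1 hpF hd => h7 p hp hp1 hpF ?_⟩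
      · have e1 : γ + u = -(v : ℤ) := by rw [hv']; ring
        rw [e1]
        exact (Int.dvd_neg).mpr (by exact_mod_cast hd)
      · have e1 : f.eval n₁ + u = -((v : ℤ) + (-e)) := by rw [hv', he]; ring
        rw [e1]
        exact (Int.dvd_neg).mpr hd
    · apply mem_union_left
      obtain ⟨v, hv⟩ := Int.eq_ofNat_of_zero_le h.le
      have hv' : u = (v : ℤ) - γ := by linarith
      refine mem_image.mpr ⟨v, ?_, hv'.symm⟩
      unfold SVF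
      rw [mem_filter, mem_Icc]
      refine ⟨⟨by omega, by omega⟩, fun p hp hp1 hp2 hpF hd => h6 p hp hp1 hp2 hpF ?_,
        fun p hp hp1 hpF hd => h7 p hp hp1 hpF ?_⟩
      · have e1 : γ + u = (v : ℤ) := by rw [hv']; ring
        rw [e1]
        exact_mod_cast hd
      · have e1 : f.eval n₁ + u = (v : ℤ) + e := by rw [hv', he]; ring
        rw [e1]
        exact hd
  have h1 : (G1F f n₁ n₂ y T F).card ≤ (SVF y T₀ e F).card + (SVF y T₀ (-e) F).card + 1 := by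
    refine (card_le_card hsub).trans ((card_union_le _ _).trans ?_)
    have h2 := card_union_le ((SVF y T₀ e F).image (fun v : ℕ => (v : ℤ) - γ))
      ((SVF y T₀ (-e) F).image (fun v : ℕ => -(v : ℤ) - γ))
    have h3 : ((SVF y T₀ e F).image (fun v : ℕ => (v : ℤ) - γ)).card ≤ (SVF y T₀ e F).card :=
      card_image_le
    have h4 : ((SVF y T₀ (-e) F).image (fun v : ℕ => -(v : ℤ) - γ)).card ≤
        (SVF y T₀ (-e) F).card := card_image_le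
    rw [card_singleton]
    omega
  exact_mod_cast h1

/-- the surviving pairs -/
noncomputable def GGF {ι : Type} [Fintype ι] (f : ι → ℤ[X]) (n₁ n₂ : ℤ) (y : ℝ) (T : ℕ)
    (F : Finset ℕ) : Finset (ι × ℤ) :=
  univ.biUnion (fun i => ((G1F (f i) n₁ n₂ y T F).filter
    (fun u => (f i).eval 0 + u ≠ 0)).image (fun u => (i, u)))

theorem mem_GGF {ι : Type} [Fintype ι] {f : ι → ℤ[X]} {n₁ n₂ : ℤ} {y : ℝ} {T : ℕ}
    {F : Finset ℕ} {q : ι × ℤ} :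
    q ∈ GGF f n₁ n₂ y T F ↔ q.2 ∈ G1F (f q.1) n₁ n₂ y T F ∧ (f q.1).eval 0 + q.2 ≠ 0 := by
  unfold GGF
  rw [mem_biUnion]
  constructor
  · rintro ⟨i, -, h⟩
    obtain ⟨u, hu, rfl⟩ := mem_image.1 h
    exact mem_filter.1 hu
  · intro h
    exact ⟨q.1, mem_univ _, mem_image.2 ⟨q.2, mem_filter.2 h, rfl⟩⟩

theorem GGF_card {ι : Type} [Fintype ι] (f : ι → ℤ[X]) (n₁ n₂ : ℤ) (y : ℝ) (T : ℕ)
    (F : Finset ℕ) : (GGF f n₁ n₂ y T F).card ≤ ∑ i, (G1F (f i) n₁ n₂ y T F).card := by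
  unfold GGF
  exact card_biUnion_le.trans (sum_le_sum fun i _ => card_image_le.trans (card_filter_le _ _))

/-- the arithmetic core -/
theorem core_F {ι : Type} [Fintype ι] (f : ι → ℤ[X]) (n₁ n₂ : ℤ) {y : ℝ}
    (hzy : zR y ≤ y) (T : ℕ) (F : Finset ℕ) (R : ℝ) (P₁ : Finset ℕ)
    (hP₁ : ∀ p, p ∈ P₁ ↔ p.Prime ∧ (p : ℝ) ≤ y ∧ p ∉ F) (pu : ι × ℤ → ℕ)
    (hpu : ∀ q ∈ GGF f n₁ n₂ y T F, (pu q).Prime ∧ y < (pu q : ℝ) ∧ (pu q : ℝ) ≤ R ∧
      ∃ t : ℤ, (pu q : ℤ) ∣ (f q.1).eval t + q.2 ∧ ¬ (pu q : ℤ) ∣ t)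
    (hinj : Set.InjOn pu (GGF f n₁ n₂ y T F : Set (ι × ℤ)))
    (hR1 : y ≤ R) (hn₁ : ∀ p ∈ P₁, ¬ (p : ℤ) ∣ n₁)
    (hn₂ : ∀ p ∈ P₁, zR y < (p : ℝ) → ¬ (p : ℤ) ∣ n₂) :
    ∃ b : ℕ, b.Coprime ((∏ p ∈ P₁, p) * ∏ p ∈ (GGF f n₁ n₂ y T F).image pu, p) ∧
      ∀ n : ℕ, n ≡ b [MOD (∏ p ∈ P₁, p) * ∏ p ∈ (GGF f n₁ n₂ y T F).image pu, p] →
        ∀ i : ι, ∀ u : ℤ, |u| ≤ (T : ℤ) → (f i).eval 0 + u ≠ 0 →
        ∃ p : ℕ, p.Prime ∧ (p : ℝ) ≤ R ∧ (p : ℤ) ∣ (f i).eval (n : ℤ) + u := by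
  set G := GGF f n₁ n₂ y T F with hG
  set B : Finset ℕ := G.image pu with hB
  have hBmem : ∀ p ∈ B, p.Prime ∧ y < (p : ℝ) ∧ (p : ℝ) ≤ R := by
    intro p hp
    obtain ⟨u, hu, rfl⟩ := mem_image.mp hp
    exact ⟨(hpu u hu).1, (hpu u hu).2.1, (hpu u hu).2.2.1⟩
  have hdisj : Disjoint P₁ B := by
    rw [Finset.disjoint_left]
    intro p h1 h2
    have h3 := ((hP₁ p).mp h1).2.1
    have h4 := (hBmem p h2).2.1
    linarith
  set S : Finset ℕ := P₁ ∪ B with hS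
  have hSp : ∀ p ∈ S, p.Prime := by
    intro p hp
    rcases mem_union.mp hp with h | h
    · exact ((hP₁ p).mp h).1
    · exact (hBmem p h).1
  have hWeq : (∏ p ∈ P₁, p) * ∏ p ∈ B, p = ∏ p ∈ S, p := by
    rw [hS, prod_union hdisj]
  rw [hWeq]
  set W : ℕ := ∏ p ∈ S, p with hWdef
  have hW0 : W ≠ 0 := Finset.prod_ne_zero_iff.mpr fun p hp => (hSp p hp).ne_zero
  -- roots for the surviving pairs
  have hroot : ∀ p : ℕ, ∃ t : ℤ, (p ∈ B → ¬ (p : ℤ) ∣ t) ∧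
      ∀ q ∈ G, pu q = p → (p : ℤ) ∣ (f q.1).eval t + q.2 := by
    intro p
    by_cases h : ∃ q ∈ G, pu q = p
    · obtain ⟨q, hq, hqp⟩ := h
      obtain ⟨q1, q2, _, t, ht, ht2⟩ := hpu q hq
      refine ⟨t, fun _ => by rw [← hqp]; exact ht2, fun v hv hvp => ?_⟩
      have : v = q := hinj hv hq (hvp.trans hqp.symm)
      rw [this, ← hqp]
      exact ht
    · refine ⟨0, fun hpB => ?_, fun q hq hqp => absurd ⟨q, hq, hqp⟩ h⟩
      obtain ⟨q, hq, hqp⟩ := mem_image.1 hpB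
      exact absurd ⟨q, hq, hqp⟩ h
  choose tt htt0 htt using hroot
  obtain ⟨r, hr⟩ := crt_int S (fun p => (p : ℤ)) (by
      intro i hi j hj hij
      exact Nat.isCoprime_iff_coprime.mpr ((Nat.coprime_primes (hSp i hi) (hSp j hj)).mpr hij))
    (fun p => if (p : ℝ) ≤ zR y then n₁ else if (p : ℝ) ≤ y then n₂ else tt p)
  have hWz : (0 : ℤ) < W := by exact_mod_cast Nat.pos_of_ne_zero hW0
  have hb0 : 0 ≤ r % (W : ℤ) := Int.emod_nonneg _ hWz.ne'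
  obtain ⟨b, hb⟩ := Int.eq_ofNat_of_zero_le hb0
  have hbr : (W : ℤ) ∣ (b : ℤ) - r := by
    rw [← hb]
    have := Int.emod_add_mul_ediv r (W : ℤ)
    exact ⟨-(r / W), by linarith⟩
  have hdivb : ∀ p ∈ S, (p : ℤ) ∣ (b : ℤ) - (if (p : ℝ) ≤ zR y then n₁ else if (p : ℝ) ≤ y
      then n₂ else tt p) := by
    intro p hp
    have h1 : (p : ℤ) ∣ (b : ℤ) - r := by
      refine dvd_trans ?_ hbr
      exact_mod_cast Finset.dvd_prod_of_mem (fun p => p) hp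
    have h2 := dvd_add h1 (hr p hp)
    have e : (b : ℤ) - r + (r - (if (p : ℝ) ≤ zR y then n₁ else if (p : ℝ) ≤ y then n₂
      else tt p)) = (b : ℤ) - (if (p : ℝ) ≤ zR y then n₁ else if (p : ℝ) ≤ y then n₂
      else tt p) := by ring
    rwa [e] at h2
  refine ⟨b, ?_, fun n hn i u hu hu0 => ?_⟩
  · rw [hWdef]
    apply Nat.Coprime.prod_right
    intro p hp
    rw [Nat.coprime_comm, (hSp p hp).coprime_iff_not_dvd]
    intro hd
    have hd' : (p : ℤ) ∣ (b : ℤ) := by exact_mod_cast hd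
    have h1 := hdivb p hp
    have h2 : (p : ℤ) ∣ (if (p : ℝ) ≤ zR y then n₁ else if (p : ℝ) ≤ y then n₂ else tt p) := by
      have := dvd_sub hd' h1
      rwa [sub_sub_cancel] at this
    rcases mem_union.1 hp with h | h
    · by_cases hz : (p : ℝ) ≤ zR y
      · rw [if_pos hz] at h2
        exact hn₁ p h h2
      · rw [if_neg hz, if_pos ((hP₁ p).1 h).2.1] at h2
        exact hn₂ p h (not_le.1 hz) h2
    · have h3 := (hBmem p h).2.1
      rw [if_neg (not_le.mpr (lt_of_le_of_lt hzy h3)), if_neg (not_le.mpr h3)] at h2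
      exact htt0 p h h2
  have hdiv : ∀ p ∈ S, (p : ℤ) ∣ (n : ℤ) - (if (p : ℝ) ≤ zR y then n₁ else if (p : ℝ) ≤ y then n₂
      else tt p) := by
    intro p hp
    have h0 : (W : ℤ) ∣ (n : ℤ) - (b : ℤ) := by
      have := (Nat.modEq_iff_dvd.1 hn.symm)
      exact this
    have h1 : (p : ℤ) ∣ (n : ℤ) - b := by
      refine dvd_trans ?_ h0
      exact_mod_cast Finset.dvd_prod_of_mem (fun p => p) hp
    have h2 := dvd_add h1 (hdivb p hp)
    have e : (n : ℤ) - b + ((b : ℤ) - (if (p : ℝ) ≤ zR y then n₁ else if (p : ℝ) ≤ y then n₂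
      else tt p)) = (n : ℤ) - (if (p : ℝ) ≤ zR y then n₁ else if (p : ℝ) ≤ y then n₂
      else tt p) := by ring
    rwa [e] at h2
  by_cases hGu : (i, u) ∈ G
  · obtain ⟨h1, h2, h3, -⟩ := hpu _ hGu
    have hpS : pu (i, u) ∈ S := mem_union_right _ (mem_image.mpr ⟨_, hGu, rfl⟩)
    have h4 := hdiv _ hpS
    rw [if_neg (not_le.mpr (lt_of_le_of_lt hzy h2)), if_neg (not_le.mpr h2)] at h4
    have h5 := htt (pu (i, u)) (i, u) hGu rfl
    exact ⟨pu (i, u), h1, h3, (eval_congr h4 u).2 h5⟩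
  · rw [hG, mem_GGF] at hGu
    simp only at hGu
    by_contra hcon
    push Not at hcon
    apply hGu
    refine ⟨?_, hu0⟩
    unfold G1F
    rw [mem_filter, mem_Icc, ← abs_le]
    refine ⟨hu, ?_, ?_⟩
    · intro p hp hp1 hp2 hpF hpu'
      have hpS : p ∈ S := mem_union_left _ ((hP₁ p).mpr ⟨hp, hp2, hpF⟩)
      have h4 := hdiv p hpS
      rw [if_neg (not_le.mpr hp1), if_pos hp2] at h4
      exact hcon p hp (hp2.trans hR1) ((eval_congr h4 u).2 hpu')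
    · intro p hp hp1 hpF hpu'
      have hp2 : (p : ℝ) ≤ y := hp1.trans hzy
      have hpS : p ∈ S := mem_union_left _ ((hP₁ p).mpr ⟨hp, hp2, hpF⟩)
      have h4 := hdiv p hpS
      rw [if_pos hp1] at h4
      exact hcon p hp (hp2.trans hR1) ((eval_congr h4 u).2 hpu')

end Run7.h63.PR
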