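import Pool.Agent.Run7.h63.PR5

set_option autoImplicit false
set_option maxHeartbeats 400000

/-! # The number of surviving pairs with missing primes (helper63) -/

namespace Run7.h63.PR

open Finset Polynomial Filter Pool.Agent.H256R2.SC Run7.h63.SF Run7.h63.PV Pool.Agent.H426R3.SQ

open scoped Classical

theorem ev_zR : ∀ᶠ y : ℝ in atTop, (Real.log y) ^ 2 ≤ zR y := by
  have e2 : ∀ᶠ b : ℝ in atTop, 1 ≤ Real.log (Real.log b) :=
    (Real.tendsto_log_atTop.comp Real.tendsto_log_atTop).eventually_ge_atTop _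
  have e3 : ∀ᶠ b : ℝ in atTop, 1 ≤ Real.log (Real.log (Real.log b)) :=
    (Real.tendsto_log_atTop.comp
      (Real.tendsto_log_atTop.comp Real.tendsto_log_atTop)).eventually_ge_atTop _
  have e4 : ∀ᶠ x : ℝ in atTop, 20 * (Real.log x) ^ 2 ≤ x := by
    have h := (Real.isLittleO_pow_log_id_atTop (n := 2)).def (show (0:ℝ) < 1 / 20 by norm_num)
    filter_upwards [h, eventually_ge_atTop (1:ℝ)] with x hx hx1
    rw [Real.norm_eq_abs, Real.norm_eq_abs, id, abs_of_nonneg (by positivity : (0:ℝ) ≤ Real.log x ^ 2),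
      abs_of_nonneg (by linarith : (0:ℝ) ≤ x)] at hx
    linarith
  filter_upwards [e2, e3, Real.tendsto_log_atTop.eventually e4,
    Real.tendsto_log_atTop.eventually_ge_atTop (1:ℝ)] with y h2 h3 h4 h1
  have hl1 : 0 < Real.log y := by linarith
  have hl2 : 0 < Real.log (Real.log y) := by linarith
  have e5 : (Real.log y) ^ 2 = Real.exp (2 * Real.log (Real.log y)) := by
    rw [show (2 : ℝ) = ((2 : ℕ) : ℝ) by norm_num, Real.exp_nat_mul, Real.exp_log hl1]
  rw [e5]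
  unfold zR
  apply Real.exp_le_exp.2
  rw [le_div_iff₀ (by positivity)]
  have e6 : Real.log y * 1 ≤ Real.log y * Real.log (Real.log (Real.log y)) :=
    mul_le_mul_of_nonneg_left h3 hl1.le
  have e7 : 2 * Real.log (Real.log y) * (10 * Real.log (Real.log y)) =
    20 * (Real.log (Real.log y)) ^ 2 := by ring
  linarith

/-- number of surviving shifts -/
theorem surv_countF {ι : Type} [Fintype ι] (f : ι → ℤ[X]) (n₁ n₂ : ℤ)
    (hne : ∀ i, (f i).eval n₁ - (f i).eval n₂ ≠ 0) (κ : ℝ) (hκ : 0 < κ) (K : ℝ) (hK : 0 ≤ K) :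
    ∃ c₀ : ℝ, 0 < c₀ ∧ c₀ ≤ 1 ∧ ∀ N₀ : ℝ, ∃ y₀ : ℝ, ∀ y : ℝ, y₀ ≤ y →
      N₀ ≤ y ∧ 1 ≤ Real.log y ∧ 8 * y + 8 ≤ c₀ * GR y ∧ c₀ * GR y ≤ y ^ 2 ∧ zR y ≤ y ∧
      ∀ T : ℕ, (T : ℝ) ≤ c₀ * GR y / 2 → ∀ F : Finset ℕ, (∀ q ∈ F, q.Prime) →
        ∏ p ∈ F, (1 + 3 / (p : ℝ)) ≤ 12 →
        ∑ q ∈ F.filter (fun q : ℕ => zR y < (q : ℝ)), (1 : ℝ) / q ≤ K / (Real.log y) ^ 2 →
        ((GGF f n₁ n₂ y T F).card : ℝ) ≤ κ * (y / Real.log y) := by
  obtain ⟨Cs, hCs, y₃, hsur⟩ := survivors_F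
  set Pe : ι → ℝ := fun i => 12 * Cs * pf ((f i).eval n₁ - (f i).eval n₂).natAbs + K with hPe
  have hPe0 : ∀ i, 0 ≤ Pe i := fun i => by
    have h1 := pf_ge ((f i).eval n₁ - (f i).eval n₂).natAbs
    have : 0 ≤ 12 * Cs * pf ((f i).eval n₁ - (f i).eval n₂).natAbs := by positivity
    rw [hPe]
    simp only
    linarith
  have hPs : 0 ≤ ∑ i, Pe i := sum_nonneg fun i _ => hPe0 i
  set c₀ : ℝ := min 1 (κ / (4 * (∑ i, Pe i) + 1)) with hc₀
  have hc₀0 : 0 < c₀ := lt_min one_pos (by positivity)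
  have hc₀1 : c₀ ≤ 1 := min_le_left _ _
  have hc₀2 : 2 * c₀ * (∑ i, Pe i) ≤ κ / 2 := by
    have h1 : c₀ * (4 * (∑ i, Pe i) + 1) ≤ κ := by
      rw [← le_div_iff₀ (by positivity)]
      exact min_le_right _ _
    have h2 : c₀ * (4 * (∑ i, Pe i) + 1) = 2 * (2 * c₀ * (∑ i, Pe i)) + c₀ := by ring
    linarith
  refine ⟨c₀, hc₀0, hc₀1, fun N₀ => ?_⟩
  set γ : ℝ := ∑ i, |(((f i).eval n₂ : ℤ) : ℝ)| with hγ
  have hγ0 : 0 ≤ γ := sum_nonneg fun _ _ => abs_nonneg _
  obtain ⟨y₁, hy₁⟩ := ana c₀ hc₀0 hc₀1 (κ / 2) (by positivity)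
    (max (max N₀ y₃) (max (Fintype.card ι) (γ + 1)))
  refine ⟨y₁, fun y hy => ?_⟩
  obtain ⟨h1, h2, h3, h4, h5, h6, h7, h8, h9⟩ := hy₁ y hy
  have hN : N₀ ≤ y := (le_max_left _ _).trans ((le_max_left _ _).trans h1)
  have hy₃ : y₃ ≤ y := (le_max_right _ _).trans ((le_max_left _ _).trans h1)
  have hcardι : (Fintype.card ι : ℝ) ≤ κ / 2 * (y / Real.log y) :=
    (le_max_left _ _).trans ((le_max_right _ _).trans h8)
  have hγy : γ + 1 ≤ y := (le_max_right _ _).trans ((le_max_right _ _).trans h1)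
  refine ⟨hN, h2, h5, h6.trans h7, h9, fun T hT F hF hF1 hF2 => ?_⟩
  set M : ℝ := c₀ * GR y with hM
  set T₀ : ℕ := ⌊M⌋₊ with hT₀
  have hF0 : 0 ≤ M := by linarith
  have hT₀1 : (T₀ : ℝ) ≤ M := Nat.floor_le hF0
  have hT₀2 : M < (T₀ : ℝ) + 1 := Nat.lt_floor_add_one M
  have hyT : y ≤ (T₀ : ℝ) := by linarith
  have hy0 : 0 < y := by linarith
  have hl1 : 0 < Real.log y := by linarith
  have hl2 : 0 < Real.log (Real.log y) := by linarith
  have hl3 : 0 < Real.log (Real.log (Real.log y)) := by linarith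
  have hl32 : Real.log (Real.log (Real.log y)) ≤ Real.log (Real.log y) :=
    (Real.log_le_sub_one_of_pos hl2).trans (by linarith)
  have q3 : Cs * (T₀ : ℝ) * (Real.log (Real.log y)) ^ 2 /
      ((Real.log y) ^ 2 * Real.log (Real.log (Real.log y))) ≤ Cs * c₀ * (y / Real.log y) := by
    calc Cs * (T₀ : ℝ) * (Real.log (Real.log y)) ^ 2 /
          ((Real.log y) ^ 2 * Real.log (Real.log (Real.log y))) ≤
          Cs * M * (Real.log (Real.log y)) ^ 2 /
          ((Real.log y) ^ 2 * Real.log (Real.log (Real.log y))) := by gcongr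
      _ = Cs * c₀ * (y / Real.log y) := by
          rw [hM]
          unfold GR
          field_simp
  have q4 : (T₀ : ℝ) * (K / (Real.log y) ^ 2) ≤ c₀ * K * (y / Real.log y) := by
    calc (T₀ : ℝ) * (K / (Real.log y) ^ 2) ≤ M * (K / (Real.log y) ^ 2) :=
          mul_le_mul_of_nonneg_right hT₀1 (by positivity)
      _ = c₀ * K * (y / Real.log y) *
          (Real.log (Real.log (Real.log y)) / (Real.log (Real.log y)) ^ 2) := by
          rw [hM]
          unfold GR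
          field_simp
      _ ≤ c₀ * K * (y / Real.log y) * 1 := by
          apply mul_le_mul_of_nonneg_left _ (by positivity)
          rw [div_le_one (by positivity)]
          nlinarith
      _ = _ := mul_one _
  have hsv : ∀ e : ℤ, e ≠ 0 → ((SVF y T₀ e F).card : ℝ) ≤
      c₀ * (12 * Cs * pf e.natAbs + K) * (y / Real.log y) := by
    intro e he
    have q1 := hsur y hy₃ T₀ hyT (hT₀1.trans h6) e he F hF
    have hpe := pf_ge e.natAbs
    have hb : 0 ≤ Cs * (T₀ : ℝ) * (Real.log (Real.log y)) ^ 2 /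
        ((Real.log y) ^ 2 * Real.log (Real.log (Real.log y))) := by positivity
    have q5 : Cs * (T₀ : ℝ) * (Real.log (Real.log y)) ^ 2 /
        ((Real.log y) ^ 2 * Real.log (Real.log (Real.log y))) *
        ((∏ p ∈ F, (1 + 3 / (p : ℝ))) * pf e.natAbs) ≤
        (Cs * c₀ * (y / Real.log y)) * (12 * pf e.natAbs) := by
      apply mul_le_mul q3 _ _ (by positivity)
      · exact mul_le_mul_of_nonneg_right hF1 (by linarith)
      · apply mul_nonneg
        · exact prod_nonneg fun p _ => by positivity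
        · linarith
    have q6 : (T₀ : ℝ) * ∑ q ∈ F.filter (fun q : ℕ => zR y < (q : ℝ)), (1 : ℝ) / q ≤
        c₀ * K * (y / Real.log y) :=
      (mul_le_mul_of_nonneg_left hF2 (Nat.cast_nonneg _)).trans q4
    calc ((SVF y T₀ e F).card : ℝ) ≤ _ := q1
      _ ≤ (Cs * c₀ * (y / Real.log y)) * (12 * pf e.natAbs) + c₀ * K * (y / Real.log y) :=
          add_le_add q5 q6
      _ = _ := by ring
  have hterm : ∀ i, ((G1F (f i) n₁ n₂ y T F).card : ℝ) ≤ 2 * c₀ * Pe i * (y / Real.log y) + 1 := by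
    intro i
    have hγi : |(((f i).eval n₂ : ℤ) : ℝ)| ≤ γ :=
      single_le_sum (f := fun i => |(((f i).eval n₂ : ℤ) : ℝ)|) (fun _ _ => abs_nonneg _)
        (mem_univ i)
    have hTi : (T : ℤ) + |(f i).eval n₂| ≤ T₀ := by
      have : (T : ℝ) + |(((f i).eval n₂ : ℤ) : ℝ)| ≤ (T₀ : ℝ) := by linarith
      exact_mod_cast this
    refine (G1F_card (f i) n₁ n₂ y T T₀ F hTi).trans ?_
    have q1 := hsv _ (hne i)
    have q2 := hsv _ (neg_ne_zero.2 (hne i))
    rw [Int.natAbs_neg] at q2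
    have q7 : 2 * c₀ * Pe i * (y / Real.log y) =
      c₀ * (12 * Cs * pf ((f i).eval n₁ - (f i).eval n₂).natAbs + K) * (y / Real.log y) +
      c₀ * (12 * Cs * pf ((f i).eval n₁ - (f i).eval n₂).natAbs + K) * (y / Real.log y) := by
      rw [hPe]
      ring
    linarith
  have hsum : ((GGF f n₁ n₂ y T F).card : ℝ) ≤ ∑ i, ((G1F (f i) n₁ n₂ y T F).card : ℝ) := by
    exact_mod_cast GGF_card f n₁ n₂ y T F
  calc ((GGF f n₁ n₂ y T F).card : ℝ) ≤ ∑ i, ((G1F (f i) n₁ n₂ y T F).card : ℝ) := hsum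
    _ ≤ ∑ i, (2 * c₀ * Pe i * (y / Real.log y) + 1) := sum_le_sum fun i _ => hterm i
    _ = 2 * c₀ * (∑ i, Pe i) * (y / Real.log y) + Fintype.card ι := by
        rw [sum_add_distrib, mul_sum, sum_mul]
        simp
    _ ≤ κ / 2 * (y / Real.log y) + κ / 2 * (y / Real.log y) := by
        have : 0 ≤ y / Real.log y := by positivity
        have := mul_le_mul_of_nonneg_right hc₀2 this
        linarith
    _ = _ := by ring

end Run7.h63.PR
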