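import Pool.Agent.Run7.h63.PR3
import Pool.Agent.Run7.h63.PR6
import Pool.Agent.Run7.h63.PM6

set_option autoImplicit false
set_option maxHeartbeats 1000000

/-! # Rankin gaps around the values of polynomials at primes (helper63) -/

namespace Run7.h63.PR

open Finset Polynomial Filter Pool.Agent.H256R2.SC Run7.h63.SF Run7.h63.PV Pool.Agent.H426R3.SQ
open Pool.Agent.H378R2

open scoped Classical

/-- the missing primes -/
theorem exc_bounds (S : Finset ℕ) (ps : ℕ) (a : ℝ)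
    (ha : ∑ q ∈ S, (1 : ℝ) / q ≤ a) (ha1 : a ≤ 1 / 3) (z : ℝ) (hz : 0 < z) :
    ∏ p ∈ (insert ps S).filter Nat.Prime, (1 + 3 / (p : ℝ)) ≤ 12 ∧
    ∑ q ∈ ((insert ps S).filter Nat.Prime).filter (fun q : ℕ => z < (q : ℝ)), (1 : ℝ) / q ≤
      a + 1 / z := by
  set F := (insert ps S).filter Nat.Prime with hF
  have hFS : ∀ p ∈ F, p ∉ S → p = ps := by
    intro p hp hpS
    rw [hF, mem_filter, mem_insert] at hp
    rcases hp.1 with h | h
    · exact h
    · exact absurd h hpS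
  constructor
  · have h1 : ∏ p ∈ F, (1 + 3 / (p : ℝ)) =
        (∏ p ∈ F.filter (fun p => p ∈ S), (1 + 3 / (p : ℝ))) *
        ∏ p ∈ F.filter (fun p => p ∉ S), (1 + 3 / (p : ℝ)) :=
      (prod_filter_mul_prod_filter_not F (fun p => p ∈ S) _).symm
    have h2 : ∏ p ∈ F.filter (fun p => p ∈ S), (1 + 3 / (p : ℝ)) ≤ 3 := by
      calc ∏ p ∈ F.filter (fun p => p ∈ S), (1 + 3 / (p : ℝ)) ≤
            ∏ p ∈ F.filter (fun p => p ∈ S), Real.exp (3 * ((1 : ℝ) / p)) := by
              apply Finset.prod_le_prod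
              · intro p _; positivity
              · intro p _
                have := Real.add_one_le_exp (3 * ((1 : ℝ) / p))
                have e : (3 : ℝ) / p = 3 * ((1 : ℝ) / p) := by ring
                rw [e]
                linarith
        _ = Real.exp (3 * ∑ p ∈ F.filter (fun p => p ∈ S), (1 : ℝ) / p) := by
              rw [← Real.exp_sum, mul_sum]
        _ ≤ Real.exp 1 := by
              apply Real.exp_le_exp.2
              have : ∑ p ∈ F.filter (fun p => p ∈ S), (1 : ℝ) / p ≤ ∑ q ∈ S, (1 : ℝ) / q := by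
                apply sum_le_sum_of_subset_of_nonneg
                · intro p hp
                  exact (mem_filter.1 hp).2
                · intro _ _ _; positivity
              linarith
        _ ≤ 3 := by
              have := Real.exp_one_lt_d9
              linarith
    have h3 : ∏ p ∈ F.filter (fun p => p ∉ S), (1 + 3 / (p : ℝ)) ≤ 4 := by
      have hc : (F.filter (fun p => p ∉ S)).card ≤ 1 := by
        rw [card_le_one]
        intro p hp q hq
        rw [mem_filter] at hp hq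
        rw [hFS p hp.1 hp.2, hFS q hq.1 hq.2]
      calc ∏ p ∈ F.filter (fun p => p ∉ S), (1 + 3 / (p : ℝ)) ≤
            ∏ p ∈ F.filter (fun p => p ∉ S), (4 : ℝ) := by
              apply Finset.prod_le_prod
              · intro p _; positivity
              · intro p hp
                have hpp : p.Prime := by
                  rw [mem_filter, hF, mem_filter] at hp
                  exact hp.1.2
                have h4 : (1 : ℝ) ≤ p := by exact_mod_cast hpp.one_lt.le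
                have : 3 / (p : ℝ) ≤ 3 := div_le_self (by norm_num) h4
                linarith
        _ = (4 : ℝ) ^ (F.filter (fun p => p ∉ S)).card := by rw [prod_const]
        _ ≤ (4 : ℝ) ^ 1 := pow_le_pow_right₀ (by norm_num) hc
        _ = 4 := pow_one _
    rw [h1]
    calc _ ≤ (3 : ℝ) * 4 := mul_le_mul h2 h3 (prod_nonneg fun p _ => by positivity) (by norm_num)
      _ = 12 := by norm_num
  · set F' := F.filter (fun q : ℕ => z < (q : ℝ)) with hF'
    rw [← sum_filter_add_sum_filter_not F' (fun p => p ∈ S)]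
    apply add_le_add
    · refine le_trans ?_ ha
      apply sum_le_sum_of_subset_of_nonneg
      · intro p hp
        exact (mem_filter.1 hp).2
      · intro _ _ _; positivity
    · have hc : (F'.filter (fun p => p ∉ S)).card ≤ 1 := by
        rw [card_le_one]
        intro p hp q hq
        rw [mem_filter, hF', mem_filter] at hp hq
        rw [hFS p hp.1.1 hp.2, hFS q hq.1.1 hq.2]
      calc ∑ q ∈ F'.filter (fun p => p ∉ S), (1 : ℝ) / q ≤
            ∑ q ∈ F'.filter (fun p => p ∉ S), (1 : ℝ) / z := by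
              apply sum_le_sum
              intro q hq
              rw [mem_filter, hF', mem_filter] at hq
              exact one_div_le_one_div_of_le hz hq.1.2.le
        _ = ((F'.filter (fun p => p ∉ S)).card : ℝ) * (1 / z) := by
              rw [sum_const, nsmul_eq_mul]
        _ ≤ 1 * (1 / z) := by
              apply mul_le_mul_of_nonneg_right _ (by positivity)
              exact_mod_cast hc
        _ = 1 / z := one_mul _

theorem exists_class2 {ι : Type} [Fintype ι] (f : ι → ℤ[X]) (hd : ∀ i, 1 ≤ (f i).natDegree) :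
    ∃ n₂ : ℤ, n₂ ≠ 0 ∧ ∀ i, (f i).eval 1 - (f i).eval n₂ ≠ 0 := by
  obtain ⟨n, hn⟩ := exists_class (fun o : Option ι => o.elim (X ^ 2 - X : ℤ[X]) f) (by
    intro o
    cases o with
    | none =>
      have : (X ^ 2 - X : ℤ[X]).natDegree = 2 := by compute_degree!
      simp only [Option.elim_none]
      omega
    | some i => exact hd i) 1
  refine ⟨n, ?_, fun i h => hn (some i) ?_⟩
  · intro h0
    apply hn none
    simp [h0]
  · simp only [Option.elim_some]
    linarith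

theorem primes_main {ι : Type} [Fintype ι] (f : ι → ℤ[X]) (hd : ∀ i, 1 ≤ (f i).natDegree)
    (hlc : ∀ i, 0 < (f i).leadingCoeff) :
    ∃ c : ℝ, 0 < c ∧ ∃ X₀ : ℝ, ∀ x : ℝ, X₀ ≤ x →
      ∃ A : Finset ℕ, x ^ (49 / 50 : ℝ) ≤ (A.card : ℝ) ∧ ∀ p ∈ A, p.Prime ∧ x < (p : ℝ) ∧
        (p : ℝ) ≤ 3 * x ∧ ∀ i, ∀ q : ℕ, q.Prime → q ≠ p →
          c * GR (Real.log x) < |(q : ℝ) - (((f i).eval (p : ℤ) : ℤ) : ℝ)| := by
  obtain ⟨n₂, hn₂0, hn₂⟩ := exists_class2 f hd
  choose A₁ y₁ hmany using fun i => many_primes (f i) (hd i) (hlc i)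
  choose t₀ ht₀ hgr using fun i => growth (f i) (hd i)
  set B : ℕ := 1 + ∑ i, A₁ i with hB
  have hAi : ∀ i, A₁ i ≤ B := fun i => by
    have := single_le_sum (f := A₁) (fun _ _ => Nat.zero_le _) (mem_univ i)
    omega
  have hB1 : 1 ≤ B := by omega
  have hBr : (1 : ℝ) ≤ B := by exact_mod_cast hB1
  obtain ⟨c₀, hc₀, hc₀1, hsc⟩ := surv_countF f 1 n₂ hn₂ (1 / (8 * B)) (by positivity)
    (3 * (B + 1) + 1) (by positivity)
  set N₀ : ℝ := max (max (max 10 (∑ i, |y₁ i|)) (max (∑ i, (t₀ i : ℝ))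
    (∑ i, |(((f i).eval 0 : ℤ) : ℝ)|))) (Fintype.card ι : ℝ) with hN₀
  obtain ⟨y₂, hy₂⟩ := hsc N₀
  obtain ⟨y₃, hy₃⟩ := eventually_atTop.1
    (ev_zR.and (Real.tendsto_log_atTop.eventually_ge_atTop (|(n₂ : ℝ)| + 1)))
  obtain ⟨b₀, hb₀⟩ := GR_le 2000 (by norm_num)
  obtain ⟨X1, hX1⟩ := pnt_rel B 1 hB1
  obtain ⟨X2, hX2⟩ := primes_in_class
  have ev1 : ∀ᶠ x : ℝ in atTop, 2000 * max (max y₂ y₃) (max b₀ 1) ≤ Real.log x :=
    Real.tendsto_log_atTop.eventually_ge_atTop _
  have ev2 : ∀ᶠ x : ℝ in atTop, 4 * Real.log x ^ (B + 2) ≤ x := by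
    have := ev_log' 4 (B + 2) 1 one_pos
    simpa using this
  have ev3 : ∀ᶠ x : ℝ in atTop, 9 * ((B : ℝ) + 1) + 2 * Real.log 2000 ≤ Real.log (Real.log x) :=
    (Real.tendsto_log_atTop.comp Real.tendsto_log_atTop).eventually_ge_atTop _
  obtain ⟨X3, hX3⟩ := eventually_atTop.1 ((ev1.and ev2).and (ev3.and
    (eventually_ge_atTop (max (max X1 X2) 1))))
  refine ⟨c₀ / 16000, by positivity, X3, fun x hx => ?_⟩
  obtain ⟨⟨g1, g2⟩, g3, g4⟩ := hX3 x hx
  have hxX1 : X1 ≤ x := (le_max_left _ _).trans ((le_max_left _ _).trans g4)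
  have hxX2 : X2 ≤ x := (le_max_right _ _).trans ((le_max_left _ _).trans g4)
  have hx1 : 1 ≤ x := (le_max_right _ _).trans g4
  have hx0 : 0 < x := by linarith
  set L := Real.log x with hL
  set l := Real.log L with hl
  set y : ℝ := (yy x : ℝ) with hy
  have hm1 : (1 : ℝ) ≤ max (max y₂ y₃) (max b₀ 1) := (le_max_right _ _).trans (le_max_right _ _)
  have hL2000 : 2000 ≤ L := by linarith
  have hL0 : 0 < L := by linarith
  have hL1 : 1 ≤ L := by linarith
  have hyup : y ≤ L / 1000 := Nat.floor_le (by positivity)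
  have hylo : L / 2000 ≤ y := by
    have h1 : L / 1000 < y + 1 := Nat.lt_floor_add_one _
    linarith
  have hyb : max (max y₂ y₃) (max b₀ 1) ≤ y := by linarith
  have hyL : y ≤ L := by linarith
  have hLy : L ≤ 2000 * y := by linarith
  have hy1 : 1 ≤ y := hm1.trans hyb
  have hy0 : 0 < y := by linarith
  have hGR := hb₀ y ((le_max_left _ _).trans ((le_max_right _ _).trans hyb)) L hyL hLy
  obtain ⟨s1, s2, s3, s4, s5, s6⟩ := hy₂ y ((le_max_left _ _).trans ((le_max_left _ _).trans hyb))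
  obtain ⟨z1, z2'⟩ := hy₃ y ((le_max_right _ _).trans ((le_max_left _ _).trans hyb))
  have hy10 : 10 ≤ y :=
    (le_max_left _ _).trans ((le_max_left _ _).trans ((le_max_left _ _).trans s1))
  have hyy1 : ∀ i, y₁ i ≤ y := fun i => by
    refine (le_abs_self _).trans (le_trans ?_ ((le_max_right _ _).trans
      ((le_max_left _ _).trans ((le_max_left _ _).trans s1))))
    exact single_le_sum (f := fun i => |y₁ i|) (fun _ _ => abs_nonneg _) (mem_univ i)
  have hyt : ∀ i, (t₀ i : ℝ) ≤ y := fun i => by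
    refine le_trans ?_ ((le_max_left _ _).trans
      ((le_max_right _ _).trans ((le_max_left _ _).trans s1)))
    exact single_le_sum (f := fun i => (t₀ i : ℝ)) (fun _ _ => Nat.cast_nonneg _) (mem_univ i)
  have hyf : ∀ i, |(((f i).eval 0 : ℤ) : ℝ)| ≤ y := fun i => by
    refine le_trans ?_ ((le_max_right _ _).trans
      ((le_max_right _ _).trans ((le_max_left _ _).trans s1)))
    exact single_le_sum (f := fun i => |(((f i).eval 0 : ℤ) : ℝ)|) (fun _ _ => abs_nonneg _)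
      (mem_univ i)
  have hycard : (Fintype.card ι : ℝ) ≤ y := (le_max_right _ _).trans s1
  have hlogy0 : 0 < Real.log y := by linarith
  have hlyl : Real.log y ≤ l := Real.log_le_log hy0 hyL
  have hl2 : l ≤ 2 * Real.log y := by
    have h1 : l ≤ Real.log (2000 * y) := Real.log_le_log hL0 hLy
    rw [Real.log_mul (by norm_num) hy0.ne'] at h1
    have h2 : 0 ≤ (B : ℝ) := by linarith
    linarith
  have hl1 : 1 ≤ l := s2.trans hlyl
  have hl0 : 0 < l := by linarith
  set T : ℕ := ⌊c₀ * GR y / 2⌋₊ with hT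
  have hT0 : 0 ≤ c₀ * GR y / 2 := by linarith
  have hT1 : (T : ℝ) ≤ c₀ * GR y / 2 := Nat.floor_le hT0
  have hTy : (T : ℝ) ≤ y ^ 2 := by
    have : 0 ≤ c₀ * GR y := by linarith
    linarith
  -- number of groups
  set N : ℕ := ⌊1 / (8 * B) * (y / Real.log y)⌋₊ with hN
  have hNr : (N : ℝ) ≤ 1 / (8 * B) * (y / Real.log y) := Nat.floor_le (by positivity)
  have hNr2 : (N : ℝ) ≤ 1 / 8 * (y / Real.log y) := by
    refine hNr.trans ?_
    apply mul_le_mul_of_nonneg_right _ (by positivity)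
    apply one_div_le_one_div_of_le (by norm_num)
    linarith
  have hNy : (N : ℝ) ≤ y := by
    refine hNr2.trans ?_
    have : y / Real.log y ≤ y := div_le_self hy0.le s2
    linarith
  set g : ℕ := ⌈l⌉₊ + 2 with hg
  have hgr1 : l + 2 ≤ (g : ℝ) := by
    rw [hg]; push_cast
    have := Nat.le_ceil l
    linarith
  have hgr2 : (g : ℝ) ≤ 5 * Real.log y := by
    rw [hg]; push_cast
    have := Nat.ceil_lt_add_one hl0.le
    linarith
  have hNg : (N : ℝ) * g + 3 ≤ y := by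
    have h1 : (N : ℝ) * g ≤ (1 / 8 * (y / Real.log y)) * (5 * Real.log y) :=
      mul_le_mul hNr2 hgr2 (Nat.cast_nonneg _) (by positivity)
    have h2 : (1 / 8 * (y / Real.log y)) * (5 * Real.log y) = 5 / 8 * y := by
      field_simp
    linarith
  -- the pairs
  set PP : Finset (ι × ℤ) := ((univ : Finset ι) ×ˢ Icc (-(T : ℤ)) (T : ℤ)).filter
    (fun q => (f q.1).eval 0 + q.2 ≠ 0) with hPP
  have hPPmem : ∀ q ∈ PP, |((q.2 : ℤ) : ℝ)| ≤ T ∧ (f q.1).eval 0 + q.2 ≠ 0 := by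
    intro q hq
    rw [hPP, mem_filter, mem_product, mem_Icc, ← abs_le] at hq
    exact ⟨by exact_mod_cast hq.1.2, hq.2⟩
  have hPPcard : (PP.card : ℝ) ≤ 3 * y ^ 3 := by
    have h1 : PP.card ≤ Fintype.card ι * (2 * T + 1) := by
      rw [hPP]
      refine (card_filter_le _ _).trans ?_
      rw [card_product, card_univ, Int.card_Icc]
      apply Nat.mul_le_mul_left
      omega
    have h2 : (PP.card : ℝ) ≤ (Fintype.card ι : ℝ) * (2 * T + 1) := by exact_mod_cast h1
    refine h2.trans ?_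
    calc (Fintype.card ι : ℝ) * (2 * T + 1) ≤ y * (2 * y ^ 2 + y ^ 2) := by
          apply mul_le_mul hycard _ (by positivity) hy0.le
          have : (1 : ℝ) ≤ y ^ 2 := one_le_pow₀ hy1
          linarith
      _ = 3 * y ^ 3 := by ring
  -- groups of candidates
  have hgroups : ∀ q : {q // q ∈ PP}, ∃ G : ℕ → Finset ℕ,
      (∀ k, k < N → G k ⊆ CP (f q.1.1) q.1.2 y (A₁ q.1.1) ∧ (G k).card = g) ∧
      ∀ j k, j < N → k < N → j ≠ k → Disjoint (G j) (G k) := by
    intro q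
    obtain ⟨h1, h2⟩ := hPPmem q.1 q.2
    apply groups
    have h3 : |(((f q.1.1).eval 0 + q.1.2 : ℤ) : ℝ)| ≤ y ^ 3 := by
      push_cast
      refine (abs_add_le _ _).trans ?_
      have h4 := hyf q.1.1
      have h5 : y + y ^ 2 ≤ y ^ 3 := by
        have e : y ^ 3 = y * (y * y) := by ring
        rw [e]
        nlinarith
      linarith
    have h6 := CP_card (f q.1.1) q.1.2 y (by linarith) (A₁ q.1.1) h2 h3
    have h7 := hmany q.1.1 y (hyy1 _) q.1.2 (h1.trans hTy)
    have h8 : ((N * g + 3 : ℕ) : ℝ) ≤ ((RP (f q.1.1) q.1.2 y (A₁ q.1.1)).card : ℝ) := by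
      push_cast
      linarith
    have h9 : N * g + 3 ≤ (RP (f q.1.1) q.1.2 y (A₁ q.1.1)).card := by exact_mod_cast h8
    omega
  choose G hG1 hG2 using hgroups
  have hCP : ∀ (q : {q // q ∈ PP}) (k : ℕ), k < N → ∀ p ∈ G q k, p.Prime ∧ yy x < p ∧
      (p : ℝ) ≤ L ^ B ∧ ∃ t : ℤ, (p : ℤ) ∣ (f q.1.1).eval t + q.1.2 ∧ ¬ (p : ℤ) ∣ t := by
    intro q k hk p hp
    obtain ⟨h1, h2, h3, h4⟩ := CP_prop hy1 ((hG1 q k hk).1 hp)
    refine ⟨h1, by rw [hy] at h2; exact_mod_cast h2, h3.trans ?_, h4⟩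
    calc y ^ A₁ q.1.1 ≤ L ^ A₁ q.1.1 := pow_le_pow_left₀ hy0.le hyL _
      _ ≤ L ^ B := pow_le_pow_right₀ hL1 (hAi _)
  obtain ⟨ps, S, hps, hS, hSsum, hcc, hE⟩ := hX1 x hxX1 ({q // q ∈ PP} × Fin N)
    (fun j => G j.1 j.2)
    (fun j p hp => by
      obtain ⟨h1, h2, h3, -⟩ := hCP j.1 j.2 j.2.2 p hp
      exact ⟨h1, h2, h3⟩)
    (fun j => by
      rw [(hG1 j.1 j.2 j.2.2).2]
      exact hgr1)
    (by
      rw [Fintype.card_prod, Fintype.card_coe, Fintype.card_fin]
      push_cast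
      calc (PP.card : ℝ) * N ≤ (3 * y ^ 3) * y :=
            mul_le_mul hPPcard hNy (Nat.cast_nonneg _) (by positivity)
        _ = 3 * y ^ 4 := by ring
        _ ≤ 3 * (L / 1000) ^ 4 := by
            apply mul_le_mul_of_nonneg_left _ (by norm_num)
            exact pow_le_pow_left₀ hy0.le hyup 4
        _ = 3 / 1000 ^ 4 * L ^ 4 := by ring
        _ ≤ 1 * L ^ 4 := by
            apply mul_le_mul_of_nonneg_right _ (by positivity)
            norm_num
        _ = L ^ 4 := one_mul _)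
  choose cc hcc1 hcc2 hcc3 using hcc
  -- the missing primes
  have hl9 : 9 * ((B : ℝ) + 1) ≤ l := by
    have : 0 ≤ Real.log 2000 := Real.log_nonneg (by norm_num)
    linarith
  have ha1 : 3 * ((B : ℝ) + 1) / l ^ 2 ≤ 1 / 3 := by
    rw [div_le_div_iff₀ (by positivity) (by norm_num)]
    have : l ≤ l ^ 2 := le_self_pow₀ hl1 (by norm_num)
    linarith
  have hz0 : 0 < zR y := Real.exp_pos _
  obtain ⟨hF12, hFsum0⟩ := exc_bounds S ps _ hSsum ha1 (zR y) hz0
  set F := (insert ps S).filter Nat.Prime with hF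
  have hFsum : ∑ q ∈ F.filter (fun q : ℕ => zR y < (q : ℝ)), (1 : ℝ) / q ≤
      (3 * ((B : ℝ) + 1) + 1) / (Real.log y) ^ 2 := by
    refine hFsum0.trans ?_
    rw [add_div]
    apply add_le_add
    · apply div_le_div_of_nonneg_left (by positivity) (by positivity)
      exact pow_le_pow_left₀ hlogy0.le hlyl 2
    · exact one_div_le_one_div_of_le (by positivity) z1
  have hFp : ∀ q ∈ F, q.Prime := fun q hq => (mem_filter.1 hq).2
  have hGG := s6 T hT1 F hFp hF12 hFsum
  have hGN : (GGF f 1 n₂ y T F).card ≤ N := Nat.le_floor hGG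
  have hGPP : ∀ q ∈ GGF f 1 n₂ y T F, q ∈ PP := by
    intro q hq
    rw [mem_GGF] at hq
    obtain ⟨h1, h2⟩ := hq
    unfold G1F at h1
    rw [mem_filter] at h1
    rw [hPP, mem_filter, mem_product]
    exact ⟨⟨mem_univ _, h1.1⟩, h2⟩
  -- own primes
  obtain ⟨pu, hpu1, hpu2⟩ := exists_inj_choice (GGF f 1 n₂ y T F)
    (fun q => if h : q ∈ PP then (univ : Finset (Fin N)).image (fun k => cc (⟨q, h⟩, k)) else ∅) (by
      intro q hq
      have h := hGPP q hq
      simp only [h, dif_pos]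
      rw [card_image_of_injective, card_univ, Fintype.card_fin]
      · exact hGN
      · intro j k hjk
        simp only at hjk
        by_contra hne
        have h1 := hcc1 (⟨q, h⟩, j)
        have h2 := hcc1 (⟨q, h⟩, k)
        rw [← hjk] at h2
        exact Finset.disjoint_left.1 (hG2 ⟨q, h⟩ j k j.2 k.2 (fun e => hne (Fin.ext e))) h1 h2)
  have hpu3 : ∀ q ∈ GGF f 1 n₂ y T F, (pu q).Prime ∧ yy x < pu q ∧ (pu q : ℝ) ≤ L ^ B ∧
      (∃ t : ℤ, (pu q : ℤ) ∣ (f q.1).eval t + q.2 ∧ ¬ (pu q : ℤ) ∣ t) ∧ pu q ≠ ps ∧ pu q ∉ S := by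
    intro q hq
    have h := hGPP q hq
    have h1 := hpu1 q hq
    simp only [h, dif_pos] at h1
    obtain ⟨k, -, hk⟩ := mem_image.1 h1
    have h2 := hCP ⟨q, h⟩ k k.2 _ (hcc1 (⟨q, h⟩, k))
    rw [hk] at h2
    obtain ⟨h3, h4, h5, h6⟩ := h2
    refine ⟨h3, h4, h5, h6, ?_, ?_⟩
    · rw [← hk]; exact hcc2 _
    · rw [← hk]; exact hcc3 _
  have hP₁ : ∀ p, p ∈ PW x S ps ↔ p.Prime ∧ (p : ℝ) ≤ y ∧ p ∉ F := by
    intro p
    unfold PW
    rw [mem_filter, mem_Icc, hF, mem_filter, mem_insert]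
    constructor
    · rintro ⟨⟨h1, h2⟩, h3, h4, h5⟩
      refine ⟨h3, by rw [hy]; exact_mod_cast h2, fun h6 => ?_⟩
      rcases h6.1 with h7 | h7
      · exact h5 h7
      · exact h4 h7
    · rintro ⟨h1, h2, h3⟩
      refine ⟨⟨h1.one_lt.le, by rw [hy] at h2; exact_mod_cast h2⟩, h1, fun h4 => h3 ⟨Or.inr h4, h1⟩,
        fun h4 => h3 ⟨Or.inl h4, h1⟩⟩
  have hLB : y ≤ L ^ B := hyL.trans (le_self_pow₀ hL1 (by omega))
  obtain ⟨b, hb1, hb2⟩ := core_F f 1 n₂ s5 T F (L ^ B) (PW x S ps) hP₁ pu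
    (fun q hq => by
      obtain ⟨h1, h2, h3, h4, -⟩ := hpu3 q hq
      exact ⟨h1, by rw [hy]; exact_mod_cast h2, h3, h4⟩) hpu2 hLB
    (fun p hp hd' => by
      have h1 := ((hP₁ p).1 hp).1
      have h2 : p ∣ 1 := by exact_mod_cast hd'
      exact h1.one_lt.ne' (Nat.dvd_one.1 h2))
    (fun p hp hpz hd' => by
      have h2 : p ≤ n₂.natAbs := Nat.le_of_dvd (Int.natAbs_pos.2 hn₂0) (Int.natCast_dvd.1 hd')
      have h3 : (p : ℝ) ≤ |(n₂ : ℝ)| := by
        have h4 : (p : ℝ) ≤ (n₂.natAbs : ℝ) := by exact_mod_cast h2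
        rw [Nat.cast_natAbs] at h4
        push_cast at h4
        exact h4
      have h4 : |(n₂ : ℝ)| < zR y := by
        have h5 : Real.log y ≤ (Real.log y) ^ 2 := le_self_pow₀ s2 (by norm_num)
        linarith
      linarith)
  set E := (GGF f 1 n₂ y T F).image pu with hEdef
  obtain ⟨hQX, hEphi⟩ := hE E (by
      intro p hp
      obtain ⟨q, hq, rfl⟩ := mem_image.1 hp
      obtain ⟨h1, h2, h3, -, h5, h6⟩ := hpu3 q hq
      exact ⟨h1, h2, h3, h5, h6⟩) (by
      have h1 : (E.card : ℝ) ≤ 1 / (8 * B) * (y / Real.log y) := by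
        refine le_trans ?_ hGG
        exact_mod_cast card_image_le
      calc (E.card : ℝ) * (B * l) ≤ (1 / (8 * B) * (y / Real.log y)) * (B * (2 * Real.log y)) := by
            apply mul_le_mul h1 _ (by positivity) (by positivity)
            exact mul_le_mul_of_nonneg_left hl2 (by linarith)
        _ = y / 4 := by
            field_simp
            ring
        _ ≤ L / 200 := by linarith)
  have hQpos : 0 < QE x S ps E := (QE_facts x S ps E (fun p hp => by
      obtain ⟨q, hq, rfl⟩ := mem_image.1 hp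
      obtain ⟨h1, h2, -⟩ := hpu3 q hq
      exact ⟨h1, h2⟩)).2.1
  have hcount := hX2 x hxX2 (QE x S ps E) b hQpos hQX (hEphi b hb1)
  refine ⟨_, hcount, fun p hp => ?_⟩
  rw [mem_filter, mem_Icc] at hp
  obtain ⟨⟨-, hp2⟩, hp3, hp4, hp5⟩ := hp
  refine ⟨hp3, hp4, (Nat.le_floor_iff (by positivity)).1 hp2, fun i q hq hqp => ?_⟩
  by_contra hcon
  push Not at hcon
  set u : ℤ := (q : ℤ) - (f i).eval (p : ℤ) with hu
  have hu1 : |((u : ℤ) : ℝ)| ≤ c₀ * GR y / 2 := by
    have h1 : ((u : ℤ) : ℝ) = (q : ℝ) - (((f i).eval (p : ℤ) : ℤ) : ℝ) := by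
      rw [hu]; push_cast; rfl
    rw [h1]
    refine hcon.trans ?_
    calc c₀ / 16000 * GR L ≤ c₀ / 16000 * (4 * 2000 * GR y) :=
          mul_le_mul_of_nonneg_left hGR (by positivity)
      _ = c₀ * GR y / 2 := by ring
  have hu2 : |u| ≤ (T : ℤ) := by
    have h1 : (u.natAbs : ℝ) ≤ c₀ * GR y / 2 := by
      rw [Nat.cast_natAbs]; push_cast; exact hu1
    have h2 := Nat.le_floor h1
    rw [Int.abs_eq_natAbs]
    exact_mod_cast h2
  have hqe : (f i).eval (p : ℤ) + u = (q : ℤ) := by rw [hu]; ring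
  by_cases hu0 : (f i).eval 0 + u = 0
  · -- `q` is divisible by `p`
    have h1 : (p : ℤ) ∣ (f i).eval (p : ℤ) - (f i).eval 0 := by
      have := sub_dvd_eval_sub (p : ℤ) 0 (f i)
      rwa [sub_zero] at this
    have h2 : (f i).eval (p : ℤ) - (f i).eval 0 = (q : ℤ) := by linarith
    rw [h2] at h1
    have h3 : p ∣ q := by exact_mod_cast h1
    exact hqp ((Nat.prime_dvd_prime_iff_eq hp3 hq).1 h3).symm
  obtain ⟨r, hr1, hr2, hr3⟩ := hb2 p hp5 i u hu2 hu0
  rw [hqe] at hr3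
  have h5 : r ∣ q := by exact_mod_cast hr3
  have h6 := (Nat.prime_dvd_prime_iff_eq hr1 hq).mp h5
  rw [h6] at hr2
  -- sizes
  have hLx : L ^ (B + 2) ≤ x / 4 := by linarith
  have hLB2 : L ^ B ≤ L ^ (B + 2) := pow_le_pow_right₀ hL1 (by omega)
  have hLLB : L ≤ L ^ (B + 2) := le_self_pow₀ hL1 (by omega)
  have h7 : (t₀ i : ℤ) ≤ (p : ℤ) := by
    have : (t₀ i : ℝ) ≤ p := by
      have h8 := hyt i
      linarith
    exact_mod_cast this
  have h8 := hgr i (p : ℤ) h7
  have hp0 : (0 : ℝ) < p := by linarith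
  have h9 : (p : ℝ) ^ (f i).natDegree / 2 ≤ (((f i).eval (p : ℤ) : ℤ) : ℝ) := by
    have h10 : 2 * |(((f i).eval (p : ℤ) : ℤ) : ℝ) - ((f i).leadingCoeff : ℝ) * (p : ℝ) ^ (f i).natDegree| ≤
        (p : ℝ) ^ (f i).natDegree := by exact_mod_cast h8
    have h11 := neg_abs_le ((((f i).eval (p : ℤ) : ℤ) : ℝ) - ((f i).leadingCoeff : ℝ) * (p : ℝ) ^ (f i).natDegree)
    have h12 : (1 : ℝ) ≤ ((f i).leadingCoeff : ℝ) := by exact_mod_cast hlc i
    have h13 : (0 : ℝ) ≤ (p : ℝ) ^ (f i).natDegree := by positivity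
    have h14 : 1 * (p : ℝ) ^ (f i).natDegree ≤ ((f i).leadingCoeff : ℝ) * (p : ℝ) ^ (f i).natDegree :=
      mul_le_mul_of_nonneg_right h12 h13
    linarith
  have h10 : (p : ℝ) ≤ (p : ℝ) ^ (f i).natDegree :=
    le_self_pow₀ (by linarith) (by have := hd i; omega)
  have h12 : (T : ℝ) ≤ L ^ 2 := by
    refine hTy.trans ?_
    exact pow_le_pow_left₀ hy0.le hyL 2
  have h12' : L ^ 2 ≤ L ^ (B + 2) := pow_le_pow_right₀ hL1 (by omega)
  have h13 : ((u : ℤ) : ℝ) = (q : ℝ) - (((f i).eval (p : ℤ) : ℤ) : ℝ) := by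
    rw [hu]; push_cast; rfl
  have h14 : |((u : ℤ) : ℝ)| ≤ (T : ℝ) := by exact_mod_cast hu2
  have h15 := neg_abs_le ((u : ℤ) : ℝ)
  linarith

end Run7.h63.PR
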