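import Pool.Agent.Run7.h63.Ratio

set_option linter.unusedSectionVars false
set_option linter.unusedSimpArgs false
set_option linter.unusedVariables false

open Finset

namespace Run7.h63

section choice

variable {V : Type*} [DecidableEq V] (T : PT V) (k : ℕ)

open Classical in
/-- beginning of the block of extra directions -/
noncomputable def tt : List V → ℕ
  | v :: u :: l => if h : ∃ s, 1 ≤ s ∧ s < T.deg v ∧ (T.rot v)^[s] u ∉ v :: u :: l then
      min (Nat.find h) k else 1
  | _ => 1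

open Classical in
theorem tt_cons (v u : V) (l : List V) : tt T k (v :: u :: l) =
    if h : ∃ s, 1 ≤ s ∧ s < T.deg v ∧ (T.rot v)^[s] u ∉ v :: u :: l then
      min (Nat.find h) k else 1 := rfl

theorem tt_pos (hk : 1 ≤ k) (W : List V) : 1 ≤ tt T k W := by
  classical
  match W with
  | [] => simp [tt]
  | [_] => simp [tt]
  | v :: u :: l =>
    rw [tt_cons]
    split_ifs with h
    · exact le_min (Nat.find_spec h).1 hk
    · exact le_rfl

theorem tt_le (hk : 1 ≤ k) (W : List V) : tt T k W ≤ k := by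
  classical
  match W with
  | [] => simp [tt, hk]
  | [_] => simp [tt, hk]
  | v :: u :: l =>
    rw [tt_cons]
    split_ifs with h
    · exact min_le_right _ _
    · exact hk

/-- extra directions -/
def isEx : List V → V → Prop
  | v :: u :: l, x => ∃ i, tt T k (v :: u :: l) ≤ i ∧ i < tt T k (v :: u :: l) + (T.deg v - k) ∧
      (T.rot v)^[i] u = x
  | _, _ => False

variable {T k}

theorem exists_ex {v u : V} {l : List V} (hdeg : k < T.deg v) (hu : T.G.Adj v u) {w : V}
    (hw : T.G.Adj v w) (hwW : w ∉ v :: u :: l) :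
    ∃ x, isEx T k (v :: u :: l) x ∧ x ∈ fr T (v :: u :: l) := by
  classical
  obtain ⟨s, hs, hsw⟩ := T.exists_idx hu hw
  have hs0 : s ≠ 0 := by
    rintro rfl
    simp at hsw
    apply hwW; rw [← hsw]; simp
  have h : ∃ s, 1 ≤ s ∧ s < T.deg v ∧ (T.rot v)^[s] u ∉ v :: u :: l :=
    ⟨s, Nat.pos_of_ne_zero hs0, hs, by rw [hsw]; exact hwW⟩
  obtain ⟨h1, h2, h3⟩ := Nat.find_spec h
  refine ⟨(T.rot v)^[Nat.find h] u, ⟨Nat.find h, ?_, ?_, rfl⟩, ?_⟩
  · rw [tt_cons, dif_pos h]; exact min_le_left _ _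
  · rw [tt_cons, dif_pos h]
    rcases Nat.le_total (Nat.find h) k with hc | hc
    · rw [min_eq_left hc]; omega
    · rw [min_eq_right hc]; omega
  · rw [mem_fr]; exact ⟨T.iter_adj hu _, h3⟩

open Classical in
noncomputable def sidx (T : PT V) (v u x : V) : ℕ :=
  if h : ∃ s, s < T.deg v ∧ (T.rot v)^[s] u = x then Nat.find h else 0

theorem sidx_spec {v u x : V} (hu : T.G.Adj v u) (hx : T.G.Adj v x) :
    sidx T v u x < T.deg v ∧ (T.rot v)^[sidx T v u x] u = x := by
  classical
  have h : ∃ s, s < T.deg v ∧ (T.rot v)^[s] u = x := by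
    obtain ⟨s, h1, h2⟩ := T.exists_idx hu hx
    exact ⟨s, h1, h2⟩
  unfold sidx
  rw [dif_pos h]
  exact Nat.find_spec h

theorem sidx_eq {v u : V} (hu : T.G.Adj v u) {s : ℕ} (hs : s < T.deg v) :
    sidx T v u ((T.rot v)^[s] u) = s := by
  obtain ⟨h1, h2⟩ := sidx_spec hu (T.iter_adj hu s)
  exact T.iter_inj hu h1 hs h2

noncomputable def jx (T : PT V) (k : ℕ) (W : List V) (v u x : V) : ℕ :=
  if sidx T v u x < tt T k W then sidx T v u x else sidx T v u x - (T.deg v - k)

noncomputable def chj (T : PT V) (k : ℕ) (W : List V) (v u : V) (j : ℕ) : V :=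
  (T.rot v)^[if j < tt T k W then j else j + (T.deg v - k)] u

theorem chj_idx {v : V} (hT : k ≤ T.deg v) {W : List V} {j : ℕ} (hj : j < k) :
    (if j < tt T k W then j else j + (T.deg v - k)) < T.deg v := by
  split_ifs <;> omega

theorem chj_adj {v u : V} (hu : T.G.Adj v u) (W : List V) (j : ℕ) : T.G.Adj v (chj T k W v u j) :=
  T.iter_adj hu _

theorem jx_chj {v u : V} (hT : k ≤ T.deg v) (hu : T.G.Adj v u) {W : List V} {j : ℕ} (hj : j < k) :
    jx T k W v u (chj T k W v u j) = j := by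
  unfold jx chj
  rw [sidx_eq hu (chj_idx hT hj)]
  split_ifs <;> omega

theorem chj_inj {v u : V} (hT : k ≤ T.deg v) (hu : T.G.Adj v u) {W : List V} {i j : ℕ} (hi : i < k)
    (hj : j < k) (e : chj T k W v u i = chj T k W v u j) : i = j := by
  rw [← jx_chj hT hu (W := W) hi, e, jx_chj hT hu hj]

theorem chj_ne {v u : V} (hk : 1 ≤ k) (hT : k ≤ T.deg v) (hu : T.G.Adj v u) {W : List V} {j : ℕ} (hj : j < k)
    (h1 : 1 ≤ j) : chj T k W v u j ≠ u := by
  intro e
  have h0 : chj T k W v u 0 = u := by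
    unfold chj
    rw [if_pos (show 0 < tt T k W from tt_pos T k hk W)]; rfl
  have := chj_inj hT hu hj (by omega) (e.trans h0.symm)
  omega

theorem chj_not_ex {v u : V} {l : List V} (hT : k ≤ T.deg v) (hu : T.G.Adj v u) (hk : 1 ≤ k)
    {j : ℕ} (hj : j < k) : ¬ isEx T k (v :: u :: l) (chj T k (v :: u :: l) v u j) := by
  rintro ⟨i, h1, h2, h3⟩
  have := tt_le T k hk (v :: u :: l)
  have := T.iter_inj hu (by omega) (chj_idx hT hj) h3
  split_ifs at this <;> omega

theorem jx_spec {v u x : V} {l : List V} (hk : 1 ≤ k) (hT : k ≤ T.deg v) (hu : T.G.Adj v u)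
    (hx : T.G.Adj v x) (hxu : x ≠ u) (hex : ¬ isEx T k (v :: u :: l) x) :
    1 ≤ jx T k (v :: u :: l) v u x ∧ jx T k (v :: u :: l) v u x < k ∧
    chj T k (v :: u :: l) v u (jx T k (v :: u :: l) v u x) = x := by
  obtain ⟨h1, h2⟩ := sidx_spec hu hx
  have h0 : sidx T v u x ≠ 0 := by
    intro h0
    rw [h0] at h2
    exact hxu h2.symm
  have h3 : ¬ (tt T k (v :: u :: l) ≤ sidx T v u x ∧
      sidx T v u x < tt T k (v :: u :: l) + (T.deg v - k)) := by
    rintro ⟨h3, h4⟩
    exact hex ⟨_, h3, h4, h2⟩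
  have h5 := tt_pos T k hk (v :: u :: l)
  have h6 := tt_le T k hk (v :: u :: l)
  unfold chj
  have h7 : (if jx T k (v :: u :: l) v u x < tt T k (v :: u :: l) then jx T k (v :: u :: l) v u x
      else jx T k (v :: u :: l) v u x + (T.deg v - k)) = sidx T v u x := by
    unfold jx
    split_ifs <;> omega
  rw [h7]
  refine ⟨?_, ?_, h2⟩
  · unfold jx; split_ifs <;> omega
  · unfold jx; split_ifs <;> omega

end choice

/-- the data of the comparison -/
structure Par (V W : Type*) [DecidableEq V] [DecidableEq W] where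
  T : PT V
  R : PT W
  k : ℕ
  n : ℕ
  N : ℕ
  B : ℕ → W
  B' : ℕ → W
  v0 : V
  hk : 1030 ≤ k
  hT : ∀ v, k ≤ T.deg v
  hR : ∀ w, R.deg w = k
  hB : ∀ r w, Zx R [w] r ≤ Zx R [B r] r
  hB' : ∀ r, R.G.Adj (B r) (B' r)
  hn : 1 ≤ n
  hN : N ≤ n

namespace Par

variable {V W : Type*} [DecidableEq V] [DecidableEq W] (D : Par V W)

/-- the restarted development -/
def rs (m : ℕ) : List W := [D.B (D.n + D.N - m), D.B' (D.n + D.N - m)]

noncomputable def stepA (x : V) : List V → List W → List W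
  | v :: u :: l, a :: b :: P' => (D.R.rot a)^[jx D.T D.k (v :: u :: l) v u x] b :: a :: b :: P'
  | _, _ => []

open Classical in
noncomputable def stepD (x : V) (H : List V) (P : List W) : List W :=
  if H.length ≤ D.n ∨ isEx D.T D.k H x then D.rs H.length else D.stepA x H P

/-- the development of a walk, restarted at time `n` and after each extra step -/
noncomputable def dev : List V → List W
  | [] => []
  | x :: H => D.stepD x H (dev H)

open Classical in
/-- the walks which have just restarted -/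
noncomputable def RR (m : ℕ) : Finset (List V) :=
  (saw D.T D.v0 m).filter (fun H => m ≤ D.n ∨ ∃ x H', H = x :: H' ∧ isEx D.T D.k H' x)

structure Inv (m : ℕ) (H : List V) (i : ℕ) : Prop where
  len : (D.dev H).length = i + 2
  le : i ≤ m - D.n
  tr : TR D.T D.R D.k (H.take (i + 2)) (D.dev H)
  rr : H.drop i ∈ D.RR (m - i)
  ch : (D.dev H).IsChain D.R.G.Adj
  zero : i = 0 → D.dev H = D.rs m
  steps : ∀ j < i, ∃ x H', H.drop j = x :: H' ∧ ¬ isEx D.T D.k H' x

theorem dev_cons (x : V) (H : List V) : D.dev (x :: H) = D.stepD x H (D.dev H) := rfl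

theorem dev_restart {x : V} {H : List V} (h : H.length ≤ D.n ∨ isEx D.T D.k H x) :
    D.dev (x :: H) = D.rs H.length := by
  rw [dev_cons, stepD, if_pos h]

theorem dev_step {x v u : V} {l : List V} {a b : W} {P : List W} (h : D.n < (v :: u :: l).length)
    (h2 : ¬ isEx D.T D.k (v :: u :: l) x) (hd : D.dev (v :: u :: l) = a :: b :: P) :
    D.dev (x :: v :: u :: l) = (D.R.rot a)^[jx D.T D.k (v :: u :: l) v u x] b :: a :: b :: P := by
  rw [dev_cons, stepD, if_neg (by rintro (h3 | h3) <;> [omega; exact h2 h3]), hd]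
  rfl

theorem hk1 : 1 ≤ D.k := by have := D.hk; omega

theorem trn_step {v u x : V} {l : List V} {a b : W} (hu : D.T.G.Adj v u) (hx : D.T.G.Adj v x)
    (hxu : x ≠ u) (hex : ¬ isEx D.T D.k (v :: u :: l) x) (hab : D.R.G.Adj a b) :
    Trn D.T D.R D.k x v u ((D.R.rot a)^[jx D.T D.k (v :: u :: l) v u x] b) a b := by
  obtain ⟨h1, h2, h3⟩ := jx_spec D.hk1 (D.hT v) hu hx hxu hex
  have h4 := D.hT v
  refine ⟨_, jx D.T D.k (v :: u :: l) v u x, h1, ?_, chj_idx h4 h2, h2, ?_, hu, hab, h3, rfl⟩
  · split_ifs <;> omega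
  · split_ifs <;> omega

theorem RR_sub (m : ℕ) : D.RR m ⊆ saw D.T D.v0 m := by
  classical
  unfold RR
  exact filter_subset _ _

theorem inv_exists (m : ℕ) (hm : D.n ≤ m) : ∀ H ∈ saw D.T D.v0 m, ∃ i, D.Inv m H i := by
  classical
  induction m, hm using Nat.le_induction with
  | base =>
    intro H hH
    have hH' := hH
    rw [mem_saw] at hH'
    obtain ⟨h1, h2, h3, h4⟩ := hH'
    have hn := D.hn
    match H, hH, h1 with
    | [_], hH, h1 => simp at h1; omega
    | x :: y :: l, hH, h1 =>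
      have hl : (y :: l).length = D.n := by simpa using h1
      have hd : D.dev (x :: y :: l) = D.rs D.n := by
        rw [D.dev_restart (Or.inl hl.le), hl]
      refine ⟨0, ?_⟩
      refine ⟨by rw [hd]; rfl, by omega, ?_, ?_, ?_, fun _ => hd, fun j hj => by omega⟩
      · rw [hd]; exact TR.two _ _ _ _
      · rw [RR, mem_filter]; exact ⟨hH, Or.inl le_rfl⟩
      · rw [hd, rs, List.isChain_cons_cons]; exact ⟨D.hB' _, by simp⟩
  | succ m hm ih =>
    intro H hH
    obtain ⟨x, H', rfl⟩ : ∃ x H', H = x :: H' := by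
      have := ((mem_saw _ _ _ _).1 hH).1
      cases H with
      | nil => simp at this
      | cons x H' => exact ⟨x, H', rfl⟩
    obtain ⟨hH', hx⟩ := saw_cons _ hH
    obtain ⟨i, I⟩ := ih H' hH'
    have hlen := ((mem_saw _ _ _ _).1 hH').1
    have hn := D.hn
    by_cases hex : isEx D.T D.k H' x
    · have hd := D.dev_restart (Or.inr hex)
      rw [hlen] at hd
      refine ⟨0, ?_⟩
      have h2 : ∃ y l, H' = y :: l := by
        cases H' with
        | nil => simp at hlen
        | cons y l => exact ⟨y, l, rfl⟩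
      obtain ⟨y, l, rfl⟩ := h2
      refine ⟨by rw [hd]; rfl, by omega, ?_, ?_, ?_, fun _ => hd, fun j hj => by omega⟩
      · rw [hd]; exact TR.two _ _ _ _
      · rw [RR, mem_filter]
        exact ⟨hH, Or.inr ⟨x, _, rfl, hex⟩⟩
      · rw [hd, rs, List.isChain_cons_cons]; exact ⟨D.hB' _, by simp⟩
    · obtain ⟨v, u, l, rfl⟩ : ∃ v u l, H' = v :: u :: l := by
        match H', hlen with
        | [_], hlen => simp at hlen; omega
        | v :: u :: l, _ => exact ⟨v, u, l, rfl⟩
      obtain ⟨a, b, P, hd⟩ : ∃ a b P, D.dev (v :: u :: l) = a :: b :: P := by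
        have := I.len
        match h : D.dev (v :: u :: l), this with
        | a :: b :: P, _ => exact ⟨a, b, P, rfl⟩
      have hd2 := D.dev_step (x := x) (by omega) hex hd
      rw [mem_fr] at hx
      have hvu : D.T.G.Adj v u := (List.isChain_cons_cons.1 ((mem_saw _ _ _ _).1 hH').2.2.1).1
      have hxu : x ≠ u := by rintro rfl; exact hx.2 (by simp)
      have hab : D.R.G.Adj a b := by
        have := I.ch
        rw [hd, List.isChain_cons_cons] at this
        exact this.1
      have ht := D.trn_step (l := l) hvu hx.1 hxu hex hab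
      refine ⟨i + 1, ?_⟩
      refine ⟨?_, by have := I.le; omega, ?_, ?_, ?_, by omega, ?_⟩
      · rw [hd2, List.length_cons, ← hd, I.len]
      · rw [hd2]
        have h5 := I.tr
        rw [hd] at h5
        have e1 : (x :: v :: u :: l).take (i + 1 + 2) = x :: v :: u :: l.take i := by
          simp
        have e2 : (v :: u :: l).take (i + 2) = v :: u :: l.take i := by simp
        rw [e2] at h5
        rw [e1]
        exact TR.cons _ _ _ _ _ _ _ _ ht h5
      · have e : m + 1 - (i + 1) = m - i := by omega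
        rw [e, List.drop_succ_cons]
        exact I.rr
      · rw [hd2, List.isChain_cons_cons, ← hd]
        exact ⟨(D.R.iter_adj hab _).symm, I.ch⟩
      · intro j hj
        cases j with
        | zero => exact ⟨x, _, rfl, hex⟩
        | succ j =>
          rw [List.drop_succ_cons]
          exact I.steps j (by omega)

open Classical in
noncomputable def f (m : ℕ) (H : List V) : ℕ :=
  if (D.dev H).dropLast.Nodup then Zx D.R (D.dev H).dropLast (D.n + D.N - m) else 0

/-- the lift of a free direction of the development closes a cycle of length `ℓ` -/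
def bl (H : List V) (ℓ : ℕ) : Prop :=
  (D.dev H).dropLast.Nodup ∧ ∃ v u l a b P j, H = v :: u :: l ∧ D.dev H = a :: b :: P ∧ 1 ≤ j ∧
    j < D.k ∧ (D.R.rot a)^[j] b ∉ (D.dev H).dropLast ∧ H[ℓ - 1]? = some (chj D.T D.k H v u j)

noncomputable def cR (r : ℕ) : ℕ := Zx D.R [D.B r] r

theorem Zx_le_cR (r : ℕ) (a : W) (l : List W) : Zx D.R (a :: l) r ≤ D.cR r :=
  (Zx_le_base _ _ _ _).trans (D.hB r a)

open Classical in
theorem pot_step {m : ℕ} (hm : D.n ≤ m) (hm2 : m < D.n + D.N) {H : List V}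
    (hH : H ∈ saw D.T D.v0 m) : D.f m H ≤
    ∑ x ∈ (fr D.T H).filter (fun x => ¬ isEx D.T D.k H x), D.f (m + 1) (x :: H) +
    (if H ∈ D.RR m then D.cR (D.n + D.N - (m + 1)) else 0) +
    D.cR (D.n + D.N - (m + 1)) * ((Icc 3 (m + 1)).filter (fun ℓ => D.bl H ℓ)).card := by
  set r := D.n + D.N - (m + 1) with hr
  obtain ⟨i, I⟩ := D.inv_exists m hm H hH
  obtain ⟨hlen, hnd, hch, hlast⟩ := (mem_saw _ _ _ _).1 hH
  have hn := D.hn
  obtain ⟨v, u, l, rfl⟩ : ∃ v u l, H = v :: u :: l := by
    match H, hlen with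
    | [_], hlen => simp at hlen; omega
    | v :: u :: l, _ => exact ⟨v, u, l, rfl⟩
  obtain ⟨a, b, P, hd⟩ : ∃ a b P, D.dev (v :: u :: l) = a :: b :: P := by
    have := I.len
    match h : D.dev (v :: u :: l), this with
    | a :: b :: P, _ => exact ⟨a, b, P, rfl⟩
  have hvu : D.T.G.Adj v u := (List.isChain_cons_cons.1 hch).1
  have hab : D.R.G.Adj a b := by
    have := I.ch
    rw [hd, List.isChain_cons_cons] at this
    exact this.1
  unfold f
  simp only [← hr]
  by_cases hnod : (D.dev (v :: u :: l)).dropLast.Nodup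
  swap
  · rw [if_neg hnod]; exact Nat.zero_le _
  rw [if_pos hnod]
  have er : D.n + D.N - m = r + 1 := by omega
  rw [er]
  set Q := (D.dev (v :: u :: l)).dropLast with hQ
  have hQc : Q = a :: (b :: P).dropLast := by rw [hQ, hd]; rfl
  rw [Zx_succ]
  set y : ℕ → W := fun j => (D.R.rot a)^[j] b with hy
  set J := (Ico 1 D.k).filter (fun j => y j ∉ Q) with hJ
  have yinj : ∀ {i j}, i < D.k → j < D.k → y i = y j → i = j := by
    intro i j hi hj e
    exact D.R.iter_inj hab (by rw [D.hR]; exact hi) (by rw [D.hR]; exact hj) e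
  -- split off the back direction
  have h1 : ∑ z ∈ fr D.R Q, Zx D.R (z :: Q) r ≤
      (if v :: u :: l ∈ D.RR m then D.cR r else 0) + ∑ j ∈ J, Zx D.R (y j :: Q) r := by
    have h2 : ∑ j ∈ J, Zx D.R (y j :: Q) r = ∑ z ∈ J.image y, Zx D.R (z :: Q) r := by
      rw [sum_image]
      intro i hi j hj e
      simp only [hJ, coe_filter, Set.mem_ofPred_eq, mem_Ico] at hi hj
      exact yinj hi.1.2 hj.1.2 e
    rw [h2]
    have h3 : ∀ z ∈ fr D.R Q, z ∈ J.image y ∨ (z = b ∧ v :: u :: l ∈ D.RR m) := by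
      intro z hz
      rw [hQc, mem_fr, ← hQc] at hz
      obtain ⟨j, hj, hjz⟩ := D.R.exists_idx hab hz.1
      rw [D.hR] at hj
      rcases Nat.eq_zero_or_pos j with rfl | hj0
      · right
        simp only [Function.iterate_zero, id] at hjz
        refine ⟨hjz.symm, ?_⟩
        have hP : P = [] := by
          by_contra hP
          obtain ⟨c, P', rfl⟩ := List.exists_cons_of_ne_nil hP
          apply hz.2
          rw [hQc, ← hjz]
          simp
        have hi0 : i = 0 := by
          have := I.len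
          rw [hd, hP] at this
          simp at this
          omega
        have := I.rr
        rw [hi0] at this
        simpa using this
      · left
        rw [mem_image]
        refine ⟨j, ?_, hjz⟩
        rw [hJ, mem_filter, mem_Ico]
        refine ⟨⟨hj0, hj⟩, ?_⟩
        show (D.R.rot a)^[j] b ∉ Q
        rw [hjz]; exact hz.2
    by_cases hRR : v :: u :: l ∈ D.RR m
    · rw [if_pos hRR]
      have h4 : fr D.R Q ⊆ insert b (J.image y) := by
        intro z hz
        rw [mem_insert]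
        rcases h3 z hz with h | h
        · exact Or.inr h
        · exact Or.inl h.1
      refine (sum_le_sum_of_subset h4).trans ?_
      by_cases hb : b ∈ J.image y
      · rw [insert_eq_of_mem hb]; exact Nat.le_add_left _ _
      · rw [sum_insert hb]
        exact Nat.add_le_add_right (D.Zx_le_cR r b Q) _
    · rw [if_neg hRR, zero_add]
      apply sum_le_sum_of_subset
      intro z hz
      rcases h3 z hz with h | h
      · exact h
      · exact absurd h.2 hRR
  refine h1.trans ?_
  have hc : ∀ (s : Finset ℕ), s ⊆ J → ∀ {i j}, i ∈ s → j ∈ s →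
      chj D.T D.k (v :: u :: l) v u i = chj D.T D.k (v :: u :: l) v u j → i = j := by
    intro s hs i j hi hj e
    have hi' := hs hi
    have hj' := hs hj
    rw [hJ, mem_filter, mem_Ico] at hi' hj'
    exact chj_inj (D.hT v) hvu hi'.1.2 hj'.1.2 e
  -- split the remaining directions
  have h5 : ∑ j ∈ J, Zx D.R (y j :: Q) r =
      ∑ j ∈ J.filter (fun j => chj D.T D.k (v :: u :: l) v u j ∉ v :: u :: l), Zx D.R (y j :: Q) r +
      ∑ j ∈ J.filter (fun j => ¬ chj D.T D.k (v :: u :: l) v u j ∉ v :: u :: l), Zx D.R (y j :: Q) r :=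
    (sum_filter_add_sum_filter_not _ _ _).symm
  have h6 : ∑ j ∈ J.filter (fun j => chj D.T D.k (v :: u :: l) v u j ∉ v :: u :: l), Zx D.R (y j :: Q) r ≤
      ∑ x ∈ (fr D.T (v :: u :: l)).filter (fun x => ¬ isEx D.T D.k (v :: u :: l) x),
        (if (D.dev (x :: v :: u :: l)).dropLast.Nodup then
          Zx D.R (D.dev (x :: v :: u :: l)).dropLast r else 0) := by
    have h7 : ∑ j ∈ J.filter (fun j => chj D.T D.k (v :: u :: l) v u j ∉ v :: u :: l), Zx D.R (y j :: Q) r =
      ∑ x ∈ (J.filter (fun j => chj D.T D.k (v :: u :: l) v u j ∉ v :: u :: l)).image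
        (fun j => chj D.T D.k (v :: u :: l) v u j),
        (if (D.dev (x :: v :: u :: l)).dropLast.Nodup then
          Zx D.R (D.dev (x :: v :: u :: l)).dropLast r else 0) := by
      rw [sum_image (fun i hi j hj e => hc _ (filter_subset _ _) hi hj e)]
      apply sum_congr rfl
      intro j hj
      rw [mem_filter, hJ, mem_filter, mem_Ico] at hj
      obtain ⟨⟨⟨j1, j2⟩, j3⟩, j4⟩ := hj
      have hne := chj_not_ex (l := l) (D.hT v) hvu D.hk1 j2
      have hd2 := D.dev_step (x := chj D.T D.k (v :: u :: l) v u j) (by omega) hne hd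
      rw [jx_chj (D.hT v) hvu j2] at hd2
      have e1 : (D.dev (chj D.T D.k (v :: u :: l) v u j :: v :: u :: l)).dropLast = y j :: Q := by
        rw [hd2, hQ, hd]; rfl
      rw [e1, if_pos (List.nodup_cons.2 ⟨j3, hnod⟩)]
    rw [h7]
    apply sum_le_sum_of_subset
    intro x hx
    rw [mem_image] at hx
    obtain ⟨j, hj, rfl⟩ := hx
    rw [mem_filter, hJ, mem_filter, mem_Ico] at hj
    obtain ⟨⟨⟨j1, j2⟩, j3⟩, j4⟩ := hj
    rw [mem_filter, mem_fr]
    exact ⟨⟨chj_adj hvu _ _, j4⟩, chj_not_ex (l := l) (D.hT v) hvu D.hk1 j2⟩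
  have h8 : ∑ j ∈ J.filter (fun j => ¬ chj D.T D.k (v :: u :: l) v u j ∉ v :: u :: l), Zx D.R (y j :: Q) r ≤
      D.cR r * ((Icc 3 (m + 1)).filter (fun ℓ => D.bl (v :: u :: l) ℓ)).card := by
    have h9 : ∑ j ∈ J.filter (fun j => ¬ chj D.T D.k (v :: u :: l) v u j ∉ v :: u :: l), Zx D.R (y j :: Q) r ≤
        (J.filter (fun j => ¬ chj D.T D.k (v :: u :: l) v u j ∉ v :: u :: l)).card • D.cR r :=
      sum_le_card_nsmul _ _ _ (fun j _ => D.Zx_le_cR r _ _)
    refine h9.trans ?_
    rw [smul_eq_mul, mul_comm]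
    apply Nat.mul_le_mul_left
    have h10 : ((J.filter (fun j => ¬ chj D.T D.k (v :: u :: l) v u j ∉ v :: u :: l)).image
        (fun j => chj D.T D.k (v :: u :: l) v u j)).card =
        (J.filter (fun j => ¬ chj D.T D.k (v :: u :: l) v u j ∉ v :: u :: l)).card :=
      card_image_of_injOn (fun i hi j hj e => hc _ (filter_subset _ _) hi hj e)
    rw [← h10]
    have h11 : ((J.filter (fun j => ¬ chj D.T D.k (v :: u :: l) v u j ∉ v :: u :: l)).image
        (fun j => chj D.T D.k (v :: u :: l) v u j)) ⊆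
        ((Icc 3 (m + 1)).filter (fun ℓ => D.bl (v :: u :: l) ℓ)).image
          (fun ℓ => ((v :: u :: l)[ℓ - 1]?).getD v) := by
      intro x hx
      rw [mem_image] at hx
      obtain ⟨j, hj, rfl⟩ := hx
      rw [mem_filter, hJ, mem_filter, mem_Ico] at hj
      obtain ⟨⟨⟨j1, j2⟩, j3⟩, j4⟩ := hj
      rw [not_not] at j4
      obtain ⟨s, hs⟩ := List.getElem?_of_mem j4
      have hadj := chj_adj (k := D.k) hvu (v :: u :: l) j
      have hne := chj_ne (W := v :: u :: l) D.hk1 (D.hT v) hvu j2 j1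
      have hlt : s < (v :: u :: l).length := by
        by_contra hcon
        rw [List.getElem?_eq_none (by omega)] at hs
        cases hs
      have hs2 : 2 ≤ s := by
        match s, hs with
        | 0, hs => simp at hs; exact absurd hs hadj.ne
        | 1, hs => simp at hs; exact absurd hs.symm hne
        | s + 2, _ => omega
      rw [mem_image]
      refine ⟨s + 1, ?_, by simp [hs]⟩
      rw [mem_filter, mem_Icc]
      refine ⟨by omega, hnod, v, u, l, a, b, P, j, rfl, hd, j1, j2, j3, ?_⟩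
      simpa using hs
    exact (card_le_card h11).trans card_image_le
  rw [h5]
  omega

open Classical in
theorem pot_sum {m : ℕ} (hm : D.n ≤ m) (hm2 : m < D.n + D.N) :
    ∑ H ∈ saw D.T D.v0 m, D.f m H + (D.RR (m + 1)).card * D.cR (D.n + D.N - (m + 1)) ≤
    ∑ H ∈ saw D.T D.v0 (m + 1), D.f (m + 1) H + (D.RR m).card * D.cR (D.n + D.N - (m + 1)) +
    D.cR (D.n + D.N - (m + 1)) *
      ∑ ℓ ∈ Icc 3 (m + 1), ((saw D.T D.v0 m).filter (fun H => D.bl H ℓ)).card := by
  set r := D.n + D.N - (m + 1) with hr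
  have h1 : ∑ H ∈ saw D.T D.v0 (m + 1), D.f (m + 1) H =
      ∑ H ∈ saw D.T D.v0 m, ∑ x ∈ (fr D.T H).filter (fun x => ¬ isEx D.T D.k H x), D.f (m + 1) (x :: H)
      + (D.RR (m + 1)).card * D.cR r := by
    rw [saw, sum_ext_succ]
    have h2 : ∀ H ∈ ext D.T [D.v0] m, ∑ x ∈ fr D.T H, D.f (m + 1) (x :: H) =
        ∑ x ∈ (fr D.T H).filter (fun x => ¬ isEx D.T D.k H x), D.f (m + 1) (x :: H) +
        D.cR r * ((fr D.T H).filter (fun x => isEx D.T D.k H x)).card := by
      intro H hH
      rw [← sum_filter_add_sum_filter_not (fr D.T H) (fun x => isEx D.T D.k H x), add_comm]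
      congr 1
      rw [mul_comm, ← smul_eq_mul, ← sum_const]
      apply sum_congr rfl
      intro x hx
      rw [mem_filter] at hx
      have hlen := ((mem_saw D.T D.v0 m H).1 hH).1
      have hd := D.dev_restart (Or.inr hx.2)
      unfold f
      rw [hd, hlen]
      have e : (D.rs (m + 1)).dropLast = [D.B r] := rfl
      rw [e, if_pos (by simp)]
      rfl
    rw [sum_congr rfl h2, sum_add_distrib, ← mul_sum]
    congr 1
    rw [mul_comm]
    congr 1
    have h3 : (D.RR (m + 1)).card = ∑ H ∈ ext D.T [D.v0] (m + 1),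
        (if (m + 1 ≤ D.n ∨ ∃ x H', H = x :: H' ∧ isEx D.T D.k H' x) then 1 else 0) := by
      rw [RR, card_filter]; rfl
    rw [h3, sum_ext_succ]
    apply sum_congr rfl
    intro H _
    rw [card_filter]
    apply sum_congr rfl
    intro x _
    congr 1
    apply propext
    constructor
    · intro h; exact Or.inr ⟨x, H, rfl, h⟩
    · rintro (h | ⟨x', H', h, h'⟩)
      · omega
      · simp only [List.cons.injEq] at h
        rw [h.1, h.2]; exact h'
  have h4 : ∑ H ∈ saw D.T D.v0 m, D.f m H ≤ ∑ H ∈ saw D.T D.v0 m,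
      (∑ x ∈ (fr D.T H).filter (fun x => ¬ isEx D.T D.k H x), D.f (m + 1) (x :: H) +
      (if H ∈ D.RR m then D.cR r else 0) +
      D.cR r * ((Icc 3 (m + 1)).filter (fun ℓ => D.bl H ℓ)).card) :=
    sum_le_sum (fun H hH => D.pot_step hm hm2 hH)
  rw [sum_add_distrib, sum_add_distrib, ← mul_sum] at h4
  have h5 : ∑ H ∈ saw D.T D.v0 m, (if H ∈ D.RR m then D.cR r else 0) = (D.RR m).card * D.cR r := by
    rw [← sum_filter, sum_const, smul_eq_mul]
    congr 2
    ext H
    rw [mem_filter]
    exact ⟨fun h => h.2, fun h => ⟨D.RR_sub m h, h⟩⟩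
  have h6 : ∑ H ∈ saw D.T D.v0 m, ((Icc 3 (m + 1)).filter (fun ℓ => D.bl H ℓ)).card =
      ∑ ℓ ∈ Icc 3 (m + 1), ((saw D.T D.v0 m).filter (fun H => D.bl H ℓ)).card := by
    simp only [card_filter]
    rw [sum_comm]
  rw [h5, h6] at h4
  rw [h1]
  omega

end Par

end Run7.h63
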