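import Pool.Agent.Run7.h63.Saw

set_option linter.unusedSectionVars false
set_option linter.unusedSimpArgs false
set_option linter.unusedVariables false

open Finset

namespace Run7.h63

variable {V : Type*} [DecidableEq V] {T : PT V}

open Classical in
theorem nbr_count {v0 : V} {m : ℕ} (v u : V) (l : List V) (hW : v :: u :: l ∈ saw T v0 m) :
    T.deg v ≤ (fr T (v :: u :: l)).card + 1 +
      ((Icc 3 (m + 1)).filter (fun ℓ => closes T (v :: u :: l) ℓ)).card := by
  classical
  rw [mem_saw] at hW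
  obtain ⟨h1, h2, h3, h4⟩ := hW
  have h5 : T.N v ⊆ fr T (v :: u :: l) ∪ {u} ∪
      ((Icc 3 (m + 1)).filter (fun ℓ => closes T (v :: u :: l) ℓ)).image
        (fun ℓ => ((v :: u :: l)[ℓ - 1]?).getD v) := by
    intro w hw
    rw [PT.mem_N] at hw
    rw [mem_union, mem_union, mem_fr, mem_singleton, mem_image]
    by_cases hwW : w ∈ v :: u :: l
    · by_cases hwu : w = u
      · left; right; exact hwu
      · right
        obtain ⟨i, hi⟩ := List.getElem?_of_mem hwW
        have hlt : i < (v :: u :: l).length := by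
          by_contra hcon
          rw [List.getElem?_eq_none (by omega)] at hi
          cases hi
        have hi2 : 2 ≤ i := by
          match i, hi with
          | 0, hi => simp at hi; exact absurd hi hw.ne
          | 1, hi => simp at hi; exact absurd hi.symm hwu
          | i + 2, _ => omega
        refine ⟨i + 1, ?_, ?_⟩
        · rw [mem_filter, mem_Icc]
          refine ⟨by omega, v, w, u :: l, rfl, by simpa using hi, hw.symm⟩
        · simp [hi]
    · left; left; exact ⟨hw, hwW⟩
  have h6 := card_le_card h5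
  have h7 := card_union_le (fr T (v :: u :: l) ∪ {u}) (((Icc 3 (m + 1)).filter (fun ℓ => closes T (v :: u :: l) ℓ)).image
        (fun ℓ => ((v :: u :: l)[ℓ - 1]?).getD v))
  have h8 := card_union_le (fr T (v :: u :: l)) {u}
  have h9 := card_image_le (s := (Icc 3 (m + 1)).filter (fun ℓ => closes T (v :: u :: l) ℓ))
    (f := fun ℓ => ((v :: u :: l)[ℓ - 1]?).getD v)
  rw [card_singleton] at h8
  unfold PT.deg
  omega

theorem ratio_step {k : ℕ} (hk : 6 ≤ k) (hT : ∀ v, k ≤ T.deg v) (v0 : V) {m : ℕ} (hm : 1 ≤ m) :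
    (k - 1) * (saw T v0 m).card ≤ (saw T v0 (m + 1)).card +
      ∑ ℓ ∈ Icc 3 (m + 1), (saw T v0 (m + 2 - ℓ)).card * Cb ℓ := by
  classical
  have h1 : (saw T v0 (m + 1)).card = ∑ W ∈ saw T v0 m, (fr T W).card := by
    have := sum_ext_succ T [v0] m (fun _ => 1)
    simp only [sum_const, smul_eq_mul, mul_one] at this
    exact this
  have h2 : (k - 1) * (saw T v0 m).card ≤ ∑ W ∈ saw T v0 m, ((fr T W).card +
      ((Icc 3 (m + 1)).filter (fun ℓ => closes T W ℓ)).card) := by
    rw [mul_comm, ← smul_eq_mul]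
    apply card_nsmul_le_sum
    intro W hW
    match W, hW with
    | [], hW => rw [mem_saw] at hW; simp at hW
    | [_], hW => rw [mem_saw] at hW; simp at hW; omega
    | v :: u :: l, hW =>
      have := nbr_count v u l hW
      have := hT v
      omega
  refine h2.trans ?_
  rw [sum_add_distrib, ← h1]
  apply Nat.add_le_add_left
  have h3 : ∑ W ∈ saw T v0 m, ((Icc 3 (m + 1)).filter (fun ℓ => closes T W ℓ)).card =
      ∑ ℓ ∈ Icc 3 (m + 1), ((saw T v0 m).filter (fun W => closes T W ℓ)).card := by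
    simp only [card_filter]
    rw [sum_comm]
  rw [h3]
  apply sum_le_sum
  intro ℓ hl
  rw [mem_Icc] at hl
  apply card_closes (fun v => hk.trans (hT v)) v0 hl.1 hl.2 _ (filter_subset _ _)
  intro W hW
  exact (mem_filter.1 hW).2

theorem Cb_le {L : ℕ} (hL : 1024 ≤ L) (ℓ : ℕ) (h3 : 3 ≤ ℓ) : 2 ^ (ℓ - 2) * Cb ℓ ≤ L ^ (ℓ - 2) := by
  obtain ⟨j, rfl⟩ := Nat.exists_eq_add_of_le h3
  have e : 3 + j - 2 = j + 1 := by omega
  unfold Cb
  have e2 : 3 * (3 + j) - 7 = 3 * j + 2 := by omega
  rw [e, e2]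
  calc 2 ^ (j + 1) * 2 ^ (3 * j + 2) = 2 ^ (4 * j + 3) := by rw [← pow_add]; congr 1; ring
    _ ≤ 2 ^ (10 * (j + 1)) := Nat.pow_le_pow_right (by norm_num) (by omega)
    _ = 1024 ^ (j + 1) := by rw [pow_mul]; norm_num
    _ ≤ L ^ (j + 1) := Nat.pow_le_pow_left hL _

theorem ratio_abs (S : ℕ → ℕ) (L : ℕ) (hL : 1024 ≤ L) (h0 : L * S 0 ≤ S 1)
    (h : ∀ m, 1 ≤ m → (L + 1) * S m ≤ S (m + 1) + ∑ ℓ ∈ Icc 3 (m + 1), S (m + 2 - ℓ) * Cb ℓ) :
    ∀ m, L * S m ≤ S (m + 1) := by
  intro m
  induction m using Nat.strong_induction_on with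
  | _ m ih =>
    rcases Nat.eq_zero_or_pos m with rfl | hm
    · exact h0
    have hpow : ∀ s, s ≤ m → L ^ s * S (m - s) ≤ S m := by
      intro s
      induction s with
      | zero => intro _; simp
      | succ s ihs =>
        intro hs
        have h1 := ih (m - (s + 1)) (by omega)
        have e : m - (s + 1) + 1 = m - s := by omega
        rw [e] at h1
        have h2 := ihs (by omega)
        calc L ^ (s + 1) * S (m - (s + 1)) = L ^ s * (L * S (m - (s + 1))) := by rw [pow_succ]; ring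
          _ ≤ L ^ s * S (m - s) := Nat.mul_le_mul_left _ h1
          _ ≤ S m := h2
    have hterm : ∀ ℓ ∈ Icc 3 (m + 1), 2 ^ (ℓ - 2) * (S (m + 2 - ℓ) * Cb ℓ) ≤ S m := by
      intro ℓ hl
      rw [mem_Icc] at hl
      have h1 := hpow (ℓ - 2) (by omega)
      have e : m - (ℓ - 2) = m + 2 - ℓ := by omega
      rw [e] at h1
      calc 2 ^ (ℓ - 2) * (S (m + 2 - ℓ) * Cb ℓ) = (2 ^ (ℓ - 2) * Cb ℓ) * S (m + 2 - ℓ) := by ring
        _ ≤ L ^ (ℓ - 2) * S (m + 2 - ℓ) := Nat.mul_le_mul_right _ (Cb_le hL ℓ hl.1)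
        _ ≤ S m := h1
    have hsum : (∑ ℓ ∈ Icc 3 (m + 1), S (m + 2 - ℓ) * Cb ℓ : ℕ) ≤ S m := by
      have h2 : ∀ M, 2 ^ M * (∑ ℓ ∈ Icc 3 (M + 2), if ℓ ≤ m + 1 then S (m + 2 - ℓ) * Cb ℓ else 0) ≤ (2 ^ M - 1) * S m := by
        intro M
        induction M with
        | zero => simp
        | succ M ihM =>
          have e1 : M + 1 + 2 = (M + 2) + 1 := by ring
          rw [e1, sum_Icc_succ_top (by omega)]
          have h3 : 2 ^ (M + 1) * (if M + 2 + 1 ≤ m + 1 then S (m + 2 - (M + 2 + 1)) * Cb (M + 2 + 1) else 0) ≤ S m := by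
            split_ifs with hc
            · have := hterm (M + 2 + 1) (mem_Icc.2 ⟨by omega, hc⟩)
              have e2 : M + 2 + 1 - 2 = M + 1 := by omega
              rw [e2] at this
              exact this
            · simp
          rw [mul_add]
          have h4 : 2 ^ (M + 1) - 1 = 2 * (2 ^ M - 1) + 1 := by
            have : 1 ≤ 2 ^ M := Nat.one_le_two_pow
            rw [pow_succ]; omega
          rw [h4]
          calc _ ≤ 2 * ((2 ^ M - 1) * S m) + S m := by
                apply Nat.add_le_add _ h3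
                rw [pow_succ, mul_comm (2 ^ M) 2, mul_assoc]
                exact Nat.mul_le_mul_left _ ihM
            _ = _ := by ring
      have h5 := h2 (m - 1)
      have e3 : m - 1 + 2 = m + 1 := by omega
      rw [e3] at h5
      have h6 : (∑ ℓ ∈ Icc 3 (m + 1), if ℓ ≤ m + 1 then S (m + 2 - ℓ) * Cb ℓ else 0) =
          ∑ ℓ ∈ Icc 3 (m + 1), S (m + 2 - ℓ) * Cb ℓ := by
        apply sum_congr rfl
        intro ℓ hl
        rw [if_pos (mem_Icc.1 hl).2]
      rw [h6] at h5
      have h7 : (2 ^ (m - 1) - 1) * S m ≤ 2 ^ (m - 1) * S m := Nat.mul_le_mul_right _ (Nat.sub_le _ _)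
      exact Nat.le_of_mul_le_mul_left (h5.trans h7) (by positivity)
    have := h m hm
    have e : (L + 1) * S m = L * S m + S m := by ring
    omega

/-- the number of self-avoiding walks grows by a factor at least `k - 2` at each step -/
theorem ratio {k : ℕ} (hk : 1026 ≤ k) (hT : ∀ v, k ≤ T.deg v) (v0 : V) (m : ℕ) :
    (k - 2) * (saw T v0 m).card ≤ (saw T v0 (m + 1)).card := by
  apply ratio_abs (fun m => (saw T v0 m).card) (k - 2) (by omega)
  · have h1 : (saw T v0 0).card = 1 := by simp [card_saw]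
    have h2 : (saw T v0 1).card = T.deg v0 := by
      rw [card_saw, Zx_succ]
      simp only [Zx_zero, sum_const, smul_eq_mul, mul_one, PT.deg]
      congr 1
      ext w
      rw [mem_fr, PT.mem_N, List.mem_singleton]
      constructor
      · exact fun h => h.1
      · exact fun h => ⟨h, h.ne'⟩
    simp only [h1, h2, mul_one]
    have := hT v0
    omega
  · intro m hm
    have := ratio_step (by omega) hT v0 hm
    have e : k - 2 + 1 = k - 1 := by omega
    rw [e]
    exact this

end Run7.h63
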