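import Pool.Agent.Run7.h63.Closing

set_option linter.unusedSectionVars false
set_option linter.unusedSimpArgs false
set_option linter.unusedVariables false

open Finset

namespace Run7.h63

variable {V : Type*} [DecidableEq V] {T : PT V}

/-- edge paths to `x` inside `E`, written as lists -/
inductive Ch (T : PT V) (E : V → Prop) (x : V) : V → List V → Prop
  | nil (hx : E x) : Ch T E x x [x]
  | cons (a b : V) (γ : List V) (ha : E a) (h : T.G.Adj a b) (hb : Ch T E x b γ) :
      Ch T E x a (a :: γ)

variable {E : V → Prop} {x : V}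

theorem Ch.eq_cons {a : V} {γ : List V} (h : Ch T E x a γ) : ∃ δ, γ = a :: δ := by
  cases h with
  | nil => exact ⟨[], rfl⟩
  | cons a b γ _ _ _ => exact ⟨γ, rfl⟩

theorem Ch.chain {a : V} {γ : List V} (h : Ch T E x a γ) : γ.IsChain T.G.Adj := by
  induction h with
  | nil => simp
  | cons a b γ ha h hb ih =>
    obtain ⟨δ, rfl⟩ := hb.eq_cons
    rw [List.isChain_cons_cons]; exact ⟨h, ih⟩

theorem Ch.all {a : V} {γ : List V} (h : Ch T E x a γ) : ∀ u ∈ γ, E u := by
  induction h with
  | nil hx => intro u hu; rw [List.mem_singleton] at hu; subst hu; exact hx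
  | cons a b γ ha h hb ih =>
    intro u hu
    rcases List.mem_cons.1 hu with rfl | hu
    · exact ha
    · exact ih u hu

theorem Ch.last {a : V} {γ : List V} (h : Ch T E x a γ) : γ.getLast? = some x := by
  induction h with
  | nil => rfl
  | cons a b γ ha h hb ih =>
    rw [List.getLast?_cons, ih]; rfl

theorem Ch.suffix {b : V} {γ : List V} (h : Ch T E x b γ) : ∀ A c B, γ = A ++ c :: B →
    Ch T E x c (c :: B) := by
  induction h with
  | nil hx =>
    intro A c B e
    cases A with
    | nil => simp at e; obtain ⟨rfl, rfl⟩ := e; exact Ch.nil hx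
    | cons a A => simp at e
  | cons a b γ ha h hb ih =>
    intro A c B e
    cases A with
    | nil =>
      simp only [List.nil_append, List.cons.injEq] at e
      obtain ⟨rfl, rfl⟩ := e
      exact Ch.cons _ _ _ ha h hb
    | cons a' A =>
      simp only [List.cons_append, List.cons.injEq] at e
      exact ih A c B e.2

theorem Ch.of_chain {l : List V} : ∀ {a : V}, (a :: l).IsChain T.G.Adj → (∀ u ∈ a :: l, E u) →
    (a :: l).getLast? = some x → Ch T E x a (a :: l) := by
  induction l with
  | nil =>
    intro a _ h1 h2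
    simp at h2; subst h2
    exact Ch.nil (h1 a (by simp))
  | cons b l ih =>
    intro a hc h1 h2
    rw [List.isChain_cons_cons] at hc
    refine Ch.cons a b (b :: l) (h1 a (by simp)) hc.1 (ih hc.2 (fun u hu => h1 u (List.mem_cons_of_mem _ hu)) ?_)
    rw [List.getLast?_cons_cons] at h2; exact h2

def MinCh (T : PT V) (E : V → Prop) (x a : V) (γ : List V) : Prop :=
  Ch T E x a γ ∧ ∀ γ', Ch T E x a γ' → γ.length ≤ γ'.length

theorem exists_min {a : V} {γ : List V} (h : Ch T E x a γ) : ∃ γ, MinCh T E x a γ := by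
  classical
  have hex : ∃ n, ∃ γ, Ch T E x a γ ∧ γ.length = n := ⟨_, γ, h, rfl⟩
  obtain ⟨γ0, h1, h2⟩ := Nat.find_spec hex
  refine ⟨γ0, h1, fun γ' h' => ?_⟩
  rw [h2]
  exact Nat.find_min' hex ⟨γ', h', rfl⟩

theorem MinCh.tail {a b : V} {γ : List V} (h : MinCh T E x a (a :: b :: γ)) :
    MinCh T E x b (b :: γ) := by
  obtain ⟨h1, h2⟩ := h
  have hab : T.G.Adj a b := (List.isChain_cons_cons.1 h1.chain).1
  have hEa : E a := h1.all a (by simp)
  refine ⟨h1.suffix [a] b γ rfl, fun γ' h' => ?_⟩
  have := h2 (a :: γ') (Ch.cons a b γ' hEa hab h')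
  simpa using this

theorem MinCh.suffix {A : List V} : ∀ {a c : V} {B γ : List V}, MinCh T E x a γ → γ = A ++ c :: B →
    MinCh T E x c (c :: B) := by
  induction A with
  | nil =>
    intro a c B γ h e
    obtain ⟨δ, hδ⟩ := h.1.eq_cons
    rw [e] at hδ h
    simp only [List.nil_append, List.cons.injEq] at hδ h
    rw [hδ.1] at h ⊢
    exact h
  | cons a' A ih =>
    intro a c B γ h e
    obtain ⟨δ, hδ⟩ := h.1.eq_cons
    have e2 : δ = A ++ c :: B := by
      rw [hδ] at e
      simp only [List.cons_append, List.cons.injEq] at e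
      exact e.2
    subst hδ
    cases A with
    | nil =>
      simp only [List.nil_append] at e2
      subst e2
      exact h.tail
    | cons b A =>
      simp only [List.cons_append] at e2
      subst e2
      exact ih h.tail (by simp)

theorem MinCh.nodup {γ : List V} : ∀ {a : V}, MinCh T E x a γ → γ.Nodup := by
  induction γ with
  | nil => intro a h; simp
  | cons a0 γ ih =>
    intro a h
    obtain ⟨δ, hδ⟩ := h.1.eq_cons
    simp only [List.cons.injEq] at hδ
    obtain ⟨rfl, rfl⟩ := hδ
    cases γ with
    | nil => simp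
    | cons b γ =>
      rw [List.nodup_cons]
      refine ⟨fun hm => ?_, ih h.tail⟩
      obtain ⟨A, B, e⟩ := List.append_of_mem hm
      have h2 := h.1.suffix (a0 :: A) a0 B (by rw [e]; rfl)
      have h3 := h.2 _ h2
      have h4 := congrArg List.length e
      simp only [List.length_cons, List.length_append] at h3 h4
      omega

theorem MinCh.no_short {a b : V} {γ : List V} (h : MinCh T E x a (a :: b :: γ)) {w : V}
    (hw : w ∈ γ) : ¬ T.G.Adj a w := by
  intro haw
  obtain ⟨A, B, e⟩ := List.append_of_mem hw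
  have h2 := h.1.suffix (a :: b :: A) w B (by rw [e]; rfl)
  have h3 := h.2 _ (Ch.cons a w (w :: B) (h.1.all a (by simp)) haw h2)
  have h4 := congrArg List.length e
  simp only [List.length_cons, List.length_append] at h3 h4
  omega

theorem chain_of_walk {L : List V} {I : Finset V} (hI : ∀ u ∈ I, ∀ w, T.G.Adj u w → w ∈ L ∨ w ∈ I)
    (hL : ∀ y ∈ L, ∃ γ, Ch T (fun v => v ∈ L ∨ v ∈ I) x y γ) :
    ∀ {a b : V}, T.G.Walk a b → b ∈ L → (a ∈ L ∨ a ∈ I) →
      ∃ γ, Ch T (fun v => v ∈ L ∨ v ∈ I) x a γ := by
  intro a b p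
  induction p with
  | nil => intro hb _; exact hL _ hb
  | @cons a c b hac p ih =>
    intro hb ha
    rcases ha with ha | ha
    · exact hL _ ha
    · obtain ⟨γ, hγ⟩ := ih hb (hI _ ha _ hac)
      exact ⟨a :: γ, Ch.cons a c γ (Or.inr ha) hac hγ⟩

theorem first_split {L : List V} {I : Finset V} {γ : List V} : (∀ u ∈ γ, u ∈ L ∨ u ∈ I) →
    (∃ u ∈ γ, u ∈ L) → ∃ A y B, γ = A ++ y :: B ∧ y ∈ L ∧ ∀ u ∈ A, u ∈ I := by
  induction γ with
  | nil => rintro _ ⟨u, hu, _⟩; simp at hu
  | cons a γ ih =>
    intro h1 h2
    by_cases ha : a ∈ L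
    · exact ⟨[], a, γ, rfl, ha, by simp⟩
    · have hI : a ∈ I := (h1 a (by simp)).resolve_left ha
      obtain ⟨A, y, B, e, hy, hA⟩ := ih (fun u hu => h1 u (List.mem_cons_of_mem _ hu)) (by
        obtain ⟨u, hu, hu2⟩ := h2
        rcases List.mem_cons.1 hu with rfl | hu
        · exact absurd hu2 ha
        · exact ⟨u, hu, hu2⟩)
      refine ⟨a :: A, y, B, by rw [e]; rfl, hy, ?_⟩
      intro u hu
      rcases List.mem_cons.1 hu with rfl | hu
      · exact hI
      · exact hA u hu

/-- the shortest path inside the closed region from a defect to the base point of the cycle -/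
theorem region_path {L : List V} {I : Finset V} {k : ℕ} (hk : 2 ≤ k) (hT : ∀ v, k ≤ T.deg v)
    (h : SC T x L) (h3 : 3 ≤ L.length)
    (hI : ∀ u ∈ I, ∀ w, T.G.Adj u w → w ∈ L ∨ w ∈ I)
    (hdef : (∃ v ∈ L, T.deg v ≠ k) ∨ (∃ v ∈ I, T.deg v ≠ k)) :
    ∃ γ v', γ = v' :: γ.tail ∧ γ.getLast? = some x ∧ γ.Nodup ∧ γ.IsChain T.G.Adj ∧
      (∀ u ∈ γ, u ∈ L ∨ u ∈ I) ∧ T.deg v' ≠ k ∧
      (∃ w, T.G.Adj v' w ∧ (w ∈ L ∨ w ∈ I) ∧ w ∉ γ) ∧ γ.length ≤ I.card + L.length / 2 + 1 := by
  set E : V → Prop := fun v => v ∈ L ∨ v ∈ I with hE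
  obtain ⟨v', hv', hdv⟩ : ∃ v', E v' ∧ T.deg v' ≠ k := by
    rcases hdef with ⟨v, h1, h2⟩ | ⟨v, h1, h2⟩
    · exact ⟨v, Or.inl h1, h2⟩
    · exact ⟨v, Or.inr h1, h2⟩
  have hxL : x ∈ L := h.x_mem
  -- paths along the cycle
  have hLch : ∀ y ∈ L, ∃ γ, Ch T E x y γ ∧ γ.length ≤ L.length / 2 + 1 := by
    intro y hy
    obtain ⟨A, B, e⟩ := List.append_of_mem hy
    have c1 : Ch T E x y (y :: B) := by
      apply Ch.of_chain
      · have := h.ch
        rw [e, ← List.cons_append] at this
        exact (List.isChain_append.1 this).2.1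
      · intro u hu; left; rw [e]; exact List.mem_append_right _ hu
      · have := h.last
        rw [e, List.getLast?_append] at this
        rw [List.getLast?_cons] at this ⊢
        simpa using this
    have c2 : Ch T E x y (y :: (A.reverse ++ [x])) := by
      apply Ch.of_chain
      · have h5 := h.ch
        have e5 : x :: L = (x :: A ++ [y]) ++ B := by rw [e]; simp
        rw [e5] at h5
        have h6 := (List.isChain_append.1 h5).1
        have e6 : y :: (A.reverse ++ [x]) = (x :: A ++ [y]).reverse := by simp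
        rw [e6, List.isChain_reverse]
        exact h6.imp (fun a b hab => hab.symm)
      · intro u hu
        left
        simp only [List.mem_cons, List.mem_append, List.mem_reverse, List.mem_singleton,
          List.not_mem_nil, or_false] at hu
        rcases hu with rfl | hu | rfl
        · exact hy
        · rw [e]; exact List.mem_append_left _ hu
        · exact hxL
      · rw [← List.cons_append, List.getLast?_append]; simp
    have hlen : L.length = A.length + B.length + 1 := by rw [e]; simp; omega
    rcases Nat.le_total (B.length + 1) (A.length + 2) with hc | hc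
    · exact ⟨_, c1, by simp only [List.length_cons]; omega⟩
    · exact ⟨_, c2, by simp only [List.length_cons, List.length_append, List.length_reverse, List.length_nil]; omega⟩
  obtain ⟨γ0, hγ0⟩ : ∃ γ, Ch T E x v' γ := by
    obtain ⟨p⟩ := T.conn.preconnected v' x
    exact chain_of_walk hI (fun y hy => by obtain ⟨γ, hγ, _⟩ := hLch y hy; exact ⟨γ, hγ⟩) p hxL hv'
  obtain ⟨γ, hγ⟩ := exists_min hγ0
  obtain ⟨δ, hδ⟩ := hγ.1.eq_cons
  refine ⟨γ, v', by rw [hδ]; rfl, hγ.1.last, hγ.nodup, hγ.1.chain, hγ.1.all, hdv, ?_, ?_⟩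
  · -- two neighbours in E
    obtain ⟨p, q, hpq, ap, aq, ep, eq⟩ : ∃ p q, p ≠ q ∧ T.G.Adj v' p ∧ T.G.Adj v' q ∧ E p ∧ E q := by
      rcases hv' with hv | hv
      · obtain ⟨p, hp⟩ := exists_in_edge (x := x) hv
        obtain ⟨q, hq⟩ : ∃ q, (v', q) ∈ el (x :: L) := by
          have : v' ∈ (el (x :: L)).map Prod.fst := by
            have e : x :: L = (x :: L.dropLast) ++ [x] := by
              conv_lhs => rw [h.eq_append]
              simp
            rw [e, el_map_fst]
            rw [h.eq_append, List.mem_append, List.mem_singleton] at hv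
            rw [List.mem_cons]
            tauto
          obtain ⟨⟨p, q⟩, h1, h2⟩ := List.mem_map.1 this
          simp at h2; subst h2
          exact ⟨q, h1⟩
        refine ⟨p, q, ?_, (el_adj h.ch hp).symm, el_adj h.ch hq, ?_, Or.inl (el_snd_mem' hq)⟩
        · rintro rfl; exact h.no_rev h3 hp hq
        · left
          rcases List.mem_cons.1 (el_fst_mem hp) with h1 | h1
          · rw [h1]; exact hxL
          · exact h1
      · have hcard : 1 < (T.N v').card := by
          have := hT v'
          unfold PT.deg at this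
          omega
        obtain ⟨p, hp, q, hq, hpq⟩ := Finset.one_lt_card.1 hcard
        rw [PT.mem_N] at hp hq
        exact ⟨p, q, hpq, hp, hq, hI _ hv _ hp, hI _ hv _ hq⟩
    subst hδ
    cases δ with
    | nil =>
      refine ⟨p, ap, ep, ?_⟩
      rw [List.mem_singleton]
      exact ap.ne'
    | cons b δ =>
      by_cases hpb : p = b
      · refine ⟨q, aq, eq, ?_⟩
        intro hm
        rcases List.mem_cons.1 hm with h1 | hm
        · exact aq.ne' h1
        · rcases List.mem_cons.1 hm with h1 | hm
          · exact hpq (hpb.trans h1.symm)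
          · exact hγ.no_short hm aq
      · refine ⟨p, ap, ep, ?_⟩
        intro hm
        rcases List.mem_cons.1 hm with h1 | hm
        · exact ap.ne' h1
        · rcases List.mem_cons.1 hm with h1 | hm
          · exact hpb h1
          · exact hγ.no_short hm ap
  · obtain ⟨A, y, B, e, hy, hA⟩ := first_split hγ.1.all
      ⟨x, List.mem_of_getLast? hγ.1.last, hxL⟩
    have hm := hγ.suffix e
    obtain ⟨γ1, c1, c2⟩ := hLch y hy
    have h1 := hm.2 _ c1
    have hnd : A.Nodup := by
      have := hγ.nodup
      rw [e] at this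
      exact (List.nodup_append.1 this).1
    have h2 : A.length ≤ I.card := by
      rw [← List.toFinset_card_of_nodup hnd]
      apply Finset.card_le_card
      intro u hu
      exact hA u (List.mem_toFinset.1 hu)
    rw [e]
    simp only [List.length_append, List.length_cons] at h1 ⊢
    omega

/-- a long path avoiding the cycle stays outside -/
theorem outside {L H : List V} {I : Finset V} (hI : ∀ u ∈ I, ∀ w, T.G.Adj u w → w ∈ L ∨ w ∈ I)
    (hc : H.IsChain T.G.Adj) (hn : H.Nodup) (hd : ∀ u ∈ H, u ∉ L) (hlen : I.card < H.length) :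
    ∀ u ∈ H, u ∉ I := by
  by_contra hcon
  push Not at hcon
  obtain ⟨u, hu, huI⟩ := hcon
  have key : ∀ (H : List V), H.IsChain T.G.Adj → (∀ u ∈ H, u ∉ L) → ∀ u ∈ H, u ∈ I →
      ∀ w ∈ H, w ∈ I := by
    intro H
    induction H with
    | nil => intro _ _ u hu; simp at hu
    | cons a H ih =>
      intro hc hd u hu huI
      have hd' : ∀ u ∈ H, u ∉ L := fun u hu => hd u (List.mem_cons_of_mem _ hu)
      cases H with
      | nil =>
        intro w hw
        rw [List.mem_singleton] at hu hw
        rw [hw, ← hu]; exact huI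
      | cons b H =>
        rw [List.isChain_cons_cons] at hc
        have hab : a ∈ I ↔ b ∈ I := by
          constructor
          · intro ha
            exact (hI a ha b hc.1).resolve_left (hd b (by simp))
          · intro hb
            exact (hI b hb a hc.1.symm).resolve_left (hd a (by simp))
        have hbI : b ∈ I := by
          rcases List.mem_cons.1 hu with rfl | hu
          · exact hab.1 huI
          · exact ih hc.2 hd' u hu huI b (by simp)
        intro w hw
        rcases List.mem_cons.1 hw with rfl | hw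
        · exact hab.2 hbI
        · exact ih hc.2 hd' b (by simp) hbI w hw
  have hall := key H hc hd u hu huI
  have : H.length ≤ I.card := by
    rw [← List.toFinset_card_of_nodup hn]
    apply Finset.card_le_card
    intro u hu
    exact hall u (List.mem_toFinset.1 hu)
  omega

end Run7.h63
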