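import Pool.Agent.H426R3.SQ.S3epre
import Pool.Agent.H426R3.SQ.S1
import Pool.Agent.H426R3.SQ.S2e

set_option autoImplicit false
set_option maxHeartbeats 400000

/-! # Upper bound sieve with missing primes (helper63)

The sieve bound `sieve_lin_e` of the starting files, when the primes dividing a number `f` are not used:
it follows from the bound itself, applied to `a f q + e'` with `e' ≡ f e` modulo the primes used and
`e' ≡ 1` modulo the primes dividing `f`. -/

namespace Run7.h63.SF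

open Finset

/-- the factor attached to a number -/
noncomputable def pf (n : ℕ) : ℝ := ∏ p ∈ n.primeFactors, (1 + 3 / (p : ℝ))

theorem fac_ge (p : ℕ) : (1 : ℝ) ≤ 1 + 3 / (p : ℝ) := by
  have : (0 : ℝ) ≤ 3 / (p : ℝ) := by positivity
  linarith

theorem pf_ge (n : ℕ) : 1 ≤ pf n := by
  unfold pf
  calc (1 : ℝ) = ∏ p ∈ n.primeFactors, (1 : ℝ) := by simp
    _ ≤ _ := prod_le_prod (fun _ _ => zero_le_one) fun p _ => fac_ge p

theorem prod_subset_le {s t : Finset ℕ} (h : s ⊆ t) :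
    ∏ p ∈ s, (1 + 3 / (p : ℝ)) ≤ ∏ p ∈ t, (1 + 3 / (p : ℝ)) := by
  apply prod_le_prod_of_subset_of_one_le h
  · intro p _
    have := fac_ge p
    linarith
  · intro p _ _
    exact fac_ge p

theorem prod_union_le' (s t : Finset ℕ) :
    ∏ p ∈ s ∪ t, (1 + 3 / (p : ℝ)) ≤ (∏ p ∈ s, (1 + 3 / (p : ℝ))) * ∏ p ∈ t, (1 + 3 / (p : ℝ)) := by
  have h := prod_union_inter (s₁ := s) (s₂ := t) (f := fun p : ℕ => 1 + 3 / (p : ℝ))
  rw [← h]
  apply le_mul_of_one_le_right
  · exact prod_nonneg fun p _ => by have := fac_ge p; linarith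
  · calc (1 : ℝ) = ∏ p ∈ s ∩ t, (1 : ℝ) := by simp
      _ ≤ _ := prod_le_prod (fun _ _ => zero_le_one) fun p _ => fac_ge p

theorem pf_mul_le (a b : ℕ) (ha : a ≠ 0) (hb : b ≠ 0) : pf (a * b) ≤ pf a * pf b := by
  unfold pf
  rw [Nat.primeFactors_mul ha hb]
  exact prod_union_le' _ _

open scoped Classical in
theorem sieve_lin_F : ∃ C : ℝ, 0 < C ∧ ∃ x₀ : ℝ, ∀ x : ℝ, x₀ ≤ x → ∀ z : ℝ, 2 ≤ z →
    z ≤ Real.sqrt x → ∀ a : ℕ, 1 ≤ a → ∀ e : ℤ, e ≠ 0 → ∀ f : ℕ, f ≠ 0 →
    (((Finset.Icc 1 ⌊x⌋₊).filter (fun q : ℕ => q.Prime ∧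
      ∀ l : ℕ, l.Prime → (l : ℝ) ≤ z → ¬ l ∣ f → ¬ (l : ℤ) ∣ (a : ℤ) * q + e)).card : ℝ) ≤
      C * x / (Real.log x * Real.log z) * pf a * (pf f * pf e.natAbs) := by
  obtain ⟨C, hC, x₀, hs⟩ := Pool.Agent.H426R3.SQ.sieve_lin_e
  refine ⟨C * Real.exp 12, by positivity, max x₀ 4, fun x hx z hz hzx a ha e he f hf => ?_⟩
  have hx0 : x₀ ≤ x := (le_max_left _ _).trans hx
  have hx4 : 4 ≤ x := (le_max_right _ _).trans hx
  have hz0 : 0 < z := by linarith
  set PZ : Finset ℕ := (Icc 1 ⌊z⌋₊).filter Nat.Prime with hPZ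
  have hPZm : ∀ p, p ∈ PZ ↔ p.Prime ∧ (p : ℝ) ≤ z := by
    intro p
    rw [hPZ, mem_filter, mem_Icc, Nat.le_floor_iff hz0.le]
    exact ⟨fun h => ⟨h.2, h.1.2⟩, fun h => ⟨⟨h.1.pos, h.2⟩, h.1⟩⟩
  set G : ℕ := ∏ p ∈ PZ.filter (fun p => ¬ p ∣ f), p with hG
  set F : ℕ := ∏ p ∈ PZ.filter (fun p => p ∣ f), p with hF
  have hPp : ∀ p ∈ PZ, p.Prime := fun p hp => ((hPZm p).1 hp).1
  have hG0 : 0 < G := prod_pos fun p hp => (hPp p (mem_filter.1 hp).1).pos
  have hF0 : 0 < F := prod_pos fun p hp => (hPp p (mem_filter.1 hp).1).pos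
  have hFG : F * G = ∏ p ∈ PZ, p := prod_filter_mul_prod_filter_not PZ (fun p => p ∣ f) _
  have hFG4 : ((F * G : ℕ) : ℝ) ≤ Real.exp (2 * z) := by
    have h1 : F * G ≤ 4 ^ ⌊z⌋₊ := by
      refine le_trans ?_ (primorial_le_four_pow ⌊z⌋₊)
      rw [hFG]
      apply Nat.le_of_dvd (primorial_pos _)
      unfold primorial
      apply prod_dvd_prod_of_subset
      intro p hp
      rw [hPZ, mem_filter, mem_Icc] at hp
      rw [mem_filter, mem_range]
      exact ⟨by omega, hp.2⟩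
    have h2 : (4 : ℝ) ≤ Real.exp 2 := by
      have := Real.exp_one_gt_d9
      have e1 : Real.exp 2 = Real.exp 1 * Real.exp 1 := by rw [← Real.exp_add]; norm_num
      rw [e1]; nlinarith
    calc ((F * G : ℕ) : ℝ) ≤ (4 : ℝ) ^ ⌊z⌋₊ := by exact_mod_cast h1
      _ ≤ (Real.exp 2) ^ ⌊z⌋₊ := by gcongr
      _ = Real.exp (⌊z⌋₊ * 2) := by rw [← Real.exp_nat_mul]
      _ ≤ Real.exp (2 * z) := by
          apply Real.exp_le_exp.2
          have := Nat.floor_le hz0.le
          linarith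
  -- the new constant term
  have hcop : Nat.Coprime F G := by
    apply Nat.Coprime.prod_left
    intro p hp
    apply Nat.Coprime.prod_right
    intro q hq
    rw [mem_filter] at hp hq
    apply (Nat.coprime_primes (hPp p hp.1) (hPp q hq.1)).2
    rintro rfl
    exact hq.2 hp.2
  obtain ⟨e₁, he1, he2⟩ := Nat.chineseRemainder hcop 1 ((((f : ℤ) * e) % (G : ℤ)).toNat)
  set e' : ℕ := e₁ % (F * G) + F * G with he'
  have he'pos : 0 < e' := by rw [he']; positivity
  have he'le : e' ≤ 2 * (F * G) := by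
    rw [he']
    have := Nat.mod_lt e₁ (Nat.mul_pos hF0 hG0)
    omega
  have hG0z : (0 : ℤ) < G := by exact_mod_cast hG0
  have hmod1 : ∀ l : ℕ, l.Prime → (l : ℝ) ≤ z → l ∣ f → ¬ l ∣ e' := by
    intro l hl hlz hlf hle
    have h1 : l ∣ F := dvd_prod_of_mem (fun p => p) (mem_filter.2 ⟨(hPZm l).2 ⟨hl, hlz⟩, hlf⟩)
    have h2 : e' ≡ 1 [MOD F] := by
      have h3 : e' ≡ e₁ [MOD F] := by
        rw [he']
        have h4 : e₁ % (F * G) + F * G ≡ e₁ % (F * G) [MOD F] := by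
          have : F * G ≡ 0 [MOD F] := (Nat.modEq_zero_iff_dvd).2 (dvd_mul_right _ _)
          calc e₁ % (F * G) + F * G ≡ e₁ % (F * G) + 0 [MOD F] := Nat.ModEq.add_left _ this
            _ = e₁ % (F * G) := by ring
        exact h4.trans ((Nat.mod_modEq e₁ (F * G)).of_dvd (dvd_mul_right _ _))
      exact h3.trans he1
    have h3 : e' ≡ 1 [MOD l] := h2.of_dvd h1
    have h4 : e' ≡ 0 [MOD l] := (Nat.modEq_zero_iff_dvd).2 hle
    have h5 : 1 ≡ 0 [MOD l] := h3.symm.trans h4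
    have h6 := (Nat.modEq_zero_iff_dvd).1 h5
    exact hl.one_lt.ne' (Nat.dvd_one.1 h6)
  have hmod2 : ∀ l : ℕ, l.Prime → (l : ℝ) ≤ z → ¬ l ∣ f → (l : ℤ) ∣ (e' : ℤ) - f * e := by
    intro l hl hlz hlf
    have h1 : l ∣ G := dvd_prod_of_mem (fun p => p) (mem_filter.2 ⟨(hPZm l).2 ⟨hl, hlz⟩, hlf⟩)
    have h2 : e' ≡ (((f : ℤ) * e) % (G : ℤ)).toNat [MOD G] := by
      have h3 : e' ≡ e₁ [MOD G] := by
        rw [he']
        have h4 : e₁ % (F * G) + F * G ≡ e₁ % (F * G) [MOD G] := by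
          have : F * G ≡ 0 [MOD G] := (Nat.modEq_zero_iff_dvd).2 (dvd_mul_left _ _)
          calc e₁ % (F * G) + F * G ≡ e₁ % (F * G) + 0 [MOD G] := Nat.ModEq.add_left _ this
            _ = e₁ % (F * G) := by ring
        exact h4.trans ((Nat.mod_modEq e₁ (F * G)).of_dvd (dvd_mul_left _ _))
      exact h3.trans he2
    have h3 : ((e' : ℕ) : ℤ) ≡ (f : ℤ) * e [ZMOD G] := by
      have h4 := (Int.natCast_modEq_iff).2 h2
      rw [Int.toNat_of_nonneg (Int.emod_nonneg _ hG0z.ne')] at h4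
      exact h4.trans (Int.mod_modEq _ _)
    have h4 : (G : ℤ) ∣ (e' : ℤ) - f * e := (Int.modEq_iff_dvd).1 h3.symm
    exact (by exact_mod_cast h1 : (l : ℤ) ∣ (G : ℤ)).trans h4
  -- application of the sieve
  have hmain := hs x hx0 z hz hzx (a * f) (Nat.mul_pos ha (Nat.pos_of_ne_zero hf)) (e' : ℤ)
    (by exact_mod_cast he'pos.ne')
  have hsub : ((Finset.Icc 1 ⌊x⌋₊).filter (fun q : ℕ => q.Prime ∧
      ∀ l : ℕ, l.Prime → (l : ℝ) ≤ z → ¬ l ∣ f → ¬ (l : ℤ) ∣ (a : ℤ) * q + e)) ⊆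
      ((Finset.Icc 1 ⌊x⌋₊).filter (fun q : ℕ => q.Prime ∧
      ∀ l : ℕ, l.Prime → (l : ℝ) ≤ z → ¬ (l : ℤ) ∣ ((a * f : ℕ) : ℤ) * q + (e' : ℤ))) := by
    intro q hq
    rw [mem_filter] at hq ⊢
    refine ⟨hq.1, hq.2.1, fun l hl hlz hd => ?_⟩
    by_cases hlf : l ∣ f
    · apply hmod1 l hl hlz hlf
      have h1 : (l : ℤ) ∣ ((a * f : ℕ) : ℤ) * q := by
        have : (l : ℤ) ∣ (f : ℤ) := by exact_mod_cast hlf
        push_cast
        exact (this.mul_left _).mul_right _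
      have h2 : (l : ℤ) ∣ (e' : ℤ) := (dvd_add_right h1).1 hd
      exact_mod_cast h2
    · apply hq.2.2 l hl hlz hlf
      have h1 := hmod2 l hl hlz hlf
      have h2 : (l : ℤ) ∣ (f : ℤ) * ((a : ℤ) * q + e) := by
        have h3 := dvd_sub hd h1
        have h4 : ((a * f : ℕ) : ℤ) * q + (e' : ℤ) - ((e' : ℤ) - f * e) = (f : ℤ) * ((a : ℤ) * q + e) := by
          push_cast; ring
        rwa [h4] at h3
      rcases (Nat.prime_iff_prime_int.1 hl).dvd_or_dvd h2 with h3 | h3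
      · exact absurd (by exact_mod_cast h3) hlf
      · exact h3
  have hcard : (((Finset.Icc 1 ⌊x⌋₊).filter (fun q : ℕ => q.Prime ∧
      ∀ l : ℕ, l.Prime → (l : ℝ) ≤ z → ¬ l ∣ f → ¬ (l : ℤ) ∣ (a : ℤ) * q + e)).card : ℝ) ≤ _ :=
    le_trans (by exact_mod_cast card_le_card hsub) hmain
  refine hcard.trans ?_
  have hlx : 0 < Real.log x := Real.log_pos (by linarith)
  have hlz : 0 < Real.log z := Real.log_pos (by linarith)
  -- the factor of `e'`
  have hpe : ∏ p ∈ ((e' : ℤ)).natAbs.primeFactors, (1 + 3 / (p : ℝ)) ≤ pf e.natAbs * Real.exp 12 := by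
    rw [Int.natAbs_natCast, ← prod_filter_mul_prod_filter_not e'.primeFactors (fun p : ℕ => (p : ℝ) ≤ z)]
    apply mul_le_mul
    · unfold pf
      apply prod_subset_le
      intro p hp
      rw [mem_filter, Nat.mem_primeFactors] at hp
      obtain ⟨⟨h1, h2, -⟩, h3⟩ := hp
      have h4 : ¬ p ∣ f := fun h => hmod1 p h1 h3 h h2
      have h5 := hmod2 p h1 h3 h4
      have h6 : (p : ℤ) ∣ f * e := by
        have h7 : (p : ℤ) ∣ (e' : ℤ) := by exact_mod_cast h2
        have h8 := dvd_sub h7 h5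
        rwa [sub_sub_cancel] at h8
      rcases (Nat.prime_iff_prime_int.1 h1).dvd_or_dvd h6 with h7 | h7
      · exact absurd (by exact_mod_cast h7) h4
      · rw [Nat.mem_primeFactors]
        exact ⟨h1, Int.natCast_dvd.1 h7, Int.natAbs_ne_zero.2 he⟩
    · set N := (e'.primeFactors.filter (fun p : ℕ => ¬ (p : ℝ) ≤ z)) with hN
      have h1 : ∏ p ∈ N, (1 + 3 / (p : ℝ)) ≤ ∏ p ∈ N, Real.exp (3 / z) := by
        apply prod_le_prod
        · intro p _
          have := fac_ge p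
          linarith
        · intro p hp
          rw [hN, mem_filter] at hp
          have h2 : z < (p : ℝ) := not_le.1 hp.2
          have h3 : 3 / (p : ℝ) ≤ 3 / z := div_le_div_of_nonneg_left (by norm_num) hz0 h2.le
          have h4 := Real.add_one_le_exp (3 / z)
          linarith
      rw [prod_const, ← Real.exp_nat_mul] at h1
      refine h1.trans (Real.exp_le_exp.2 ?_)
      -- number of large prime factors
      have h5 : z ^ N.card ≤ Real.exp (2 * z + 1) := by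
        have h6 : z ^ N.card ≤ ∏ p ∈ N, (p : ℝ) := by
          rw [← prod_const]
          apply prod_le_prod
          · intro p _; linarith
          · intro p hp
            rw [hN, mem_filter] at hp
            exact (not_le.1 hp.2).le
        have h7 : ((∏ p ∈ N, p : ℕ) : ℝ) ≤ (e' : ℝ) := by
          have h8 : ∏ p ∈ N, p ∣ e' := by
            refine (prod_dvd_prod_of_subset _ _ _ (filter_subset _ _)).trans ?_
            exact Nat.prod_primeFactors_dvd e'
          exact_mod_cast Nat.le_of_dvd he'pos h8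
        push_cast at h7
        have h8 : (e' : ℝ) ≤ 2 * Real.exp (2 * z) := by
          have : (e' : ℝ) ≤ 2 * ((F * G : ℕ) : ℝ) := by exact_mod_cast he'le
          linarith
        have h9 : (2 : ℝ) ≤ Real.exp 1 := by
          have := Real.add_one_le_exp (1 : ℝ)
          linarith
        calc z ^ N.card ≤ (e' : ℝ) := h6.trans h7
          _ ≤ 2 * Real.exp (2 * z) := h8
          _ ≤ Real.exp 1 * Real.exp (2 * z) := mul_le_mul_of_nonneg_right h9 (Real.exp_pos _).le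
          _ = Real.exp (2 * z + 1) := by rw [← Real.exp_add]; congr 1; ring
      have h6 : (N.card : ℝ) * Real.log z ≤ 2 * z + 1 := by
        have := Real.log_le_log (by positivity) h5
        rwa [Real.log_exp, Real.log_pow] at this
      have h7 : 0.69 ≤ Real.log z := by
        have h8 := Real.log_le_log (by norm_num) hz
        have := Real.log_two_gt_d9
        linarith
      have h8 : (N.card : ℝ) * 0.69 ≤ (N.card : ℝ) * Real.log z :=
        mul_le_mul_of_nonneg_left h7 (Nat.cast_nonneg _)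
      rw [mul_div_assoc', div_le_iff₀ hz0]
      linarith
    · exact prod_nonneg fun p _ => by have := fac_ge p; linarith
    · have := pf_ge e.natAbs
      linarith
  have hpa : ∏ p ∈ (a * f).primeFactors, (1 + 3 / (p : ℝ)) ≤ pf a * pf f :=
    pf_mul_le a f (by omega) hf
  have hpa0 : 0 ≤ pf a := zero_le_one.trans (pf_ge a)
  have hpf0 : 0 ≤ pf f := zero_le_one.trans (pf_ge f)
  have hE0 : 0 ≤ C * x / (Real.log x * Real.log z) := by positivity
  have hprod0 : 0 ≤ ∏ p ∈ ((e' : ℤ)).natAbs.primeFactors, (1 + 3 / (p : ℝ)) :=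
    prod_nonneg fun p _ => by have := fac_ge p; linarith
  calc _ ≤ C * x / (Real.log x * Real.log z) * (pf a * pf f) *
        (pf e.natAbs * Real.exp 12) := by
        apply mul_le_mul (mul_le_mul_of_nonneg_left hpa hE0) hpe hprod0
        positivity
    _ = _ := by ring

end Run7.h63.SF
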