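import Pool.Agent.Run7.h63.Region

set_option linter.unusedSectionVars false
set_option linter.unusedSimpArgs false
set_option linter.unusedVariables false

open Finset

namespace Run7.h63

variable {V : Type*} [DecidableEq V] (T : PT V)

/-- free neighbours of the tip -/
noncomputable def fr : List V → Finset V
  | [] => ∅
  | v :: l => (T.N v).filter (fun w => w ∉ v :: l)

theorem mem_fr {v w : V} {l : List V} : w ∈ fr T (v :: l) ↔ T.G.Adj v w ∧ w ∉ v :: l := by
  simp [fr]

/-- extensions by `m` steps -/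
noncomputable def ext (P : List V) : ℕ → Finset (List V)
  | 0 => {P}
  | m + 1 => (ext P m).biUnion (fun W => (fr T W).image (fun x => x :: W))

/-- number of extensions by `r` steps -/
noncomputable def Zx : List V → ℕ → ℕ
  | _, 0 => 1
  | P, r + 1 => ∑ y ∈ fr T P, Zx (y :: P) r

@[simp] theorem Zx_zero (P : List V) : Zx T P 0 = 1 := by unfold Zx; rfl
theorem Zx_succ (P : List V) (r : ℕ) : Zx T P (r + 1) = ∑ y ∈ fr T P, Zx T (y :: P) r := by
  rw [Zx]

theorem sum_ext_succ (P : List V) (m : ℕ) (f : List V → ℕ) :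
    ∑ W ∈ ext T P (m + 1), f W = ∑ W ∈ ext T P m, ∑ x ∈ fr T W, f (x :: W) := by
  rw [ext, sum_biUnion]
  · apply sum_congr rfl
    intro W _
    rw [sum_image]
    intro a _ b _ hab
    simpa using hab
  · intro W _ W' _ hne
    rw [Function.onFun, disjoint_left]
    intro l h1 h2
    rw [mem_image] at h1 h2
    obtain ⟨a, _, rfl⟩ := h1
    obtain ⟨b, _, h3⟩ := h2
    simp only [List.cons.injEq] at h3
    exact hne h3.2.symm

theorem Zx_add (P : List V) (a : ℕ) : ∀ b, Zx T P (a + b) = ∑ Q ∈ ext T P a, Zx T Q b := by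
  induction a with
  | zero => intro b; simp [ext]
  | succ a ih =>
    intro b
    have : a + 1 + b = a + (b + 1) := by ring
    rw [this, ih (b + 1), sum_ext_succ]
    apply sum_congr rfl
    intro W _
    rw [Zx_succ]

theorem card_ext (P : List V) (a : ℕ) : (ext T P a).card = Zx T P a := by
  have := Zx_add T P a 0
  simp at this
  exact this.symm

/-- self-avoiding walks of length `m` from `v`, tip first -/
noncomputable def saw (v : V) (m : ℕ) : Finset (List V) := ext T [v] m

theorem card_saw (v : V) (m : ℕ) : (saw T v m).card = Zx T [v] m := card_ext T [v] m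

theorem mem_saw (v : V) (m : ℕ) : ∀ W : List V, W ∈ saw T v m ↔
    W.length = m + 1 ∧ W.Nodup ∧ W.IsChain T.G.Adj ∧ W.getLast? = some v := by
  induction m with
  | zero =>
    intro W
    simp only [saw, ext, mem_singleton, Nat.zero_add]
    constructor
    · rintro rfl; simp
    · rintro ⟨h1, _, _, h4⟩
      match W, h1 with
      | [a], _ => simp at h4; rw [h4]
  | succ m ih =>
    intro W
    rw [saw, ext, mem_biUnion]
    constructor
    · rintro ⟨W', h1, h2⟩
      rw [mem_image] at h2
      obtain ⟨x, hx, rfl⟩ := h2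
      obtain ⟨g1, g2, g3, g4⟩ := (ih W').1 h1
      obtain ⟨u, l, rfl⟩ : ∃ u l, W' = u :: l := by
        cases W' with
        | nil => simp at g1
        | cons u l => exact ⟨u, l, rfl⟩
      rw [mem_fr] at hx
      refine ⟨by simpa using g1, List.nodup_cons.2 ⟨hx.2, g2⟩, ?_, ?_⟩
      · rw [List.isChain_cons_cons]; exact ⟨hx.1.symm, g3⟩
      · rw [List.getLast?_cons_cons]; exact g4
    · rintro ⟨h1, h2, h3, h4⟩
      match W, h1 with
      | x :: u :: l, h1 =>
        rw [List.isChain_cons_cons] at h3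
        rw [List.nodup_cons] at h2
        refine ⟨u :: l, (ih _).2 ⟨by simpa using h1, h2.2, h3.2, ?_⟩, ?_⟩
        · rw [List.getLast?_cons_cons] at h4; exact h4
        · rw [mem_image]
          exact ⟨x, (mem_fr T).2 ⟨h3.1.symm, h2.1⟩, rfl⟩

theorem saw_cons {v : V} {m : ℕ} {x : V} {W : List V} (h : x :: W ∈ saw T v (m + 1)) :
    W ∈ saw T v m ∧ x ∈ fr T W := by
  rw [saw, ext, mem_biUnion] at h
  obtain ⟨W', h1, h2⟩ := h
  rw [mem_image] at h2
  obtain ⟨y, h3, h4⟩ := h2
  simp only [List.cons.injEq] at h4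
  obtain ⟨rfl, rfl⟩ := h4
  exact ⟨h1, h3⟩

theorem cons_saw {v : V} {m : ℕ} {x : V} {W : List V} (h : W ∈ saw T v m) (hx : x ∈ fr T W) :
    x :: W ∈ saw T v (m + 1) := by
  rw [saw, ext, mem_biUnion]
  exact ⟨W, h, mem_image.2 ⟨x, hx, rfl⟩⟩

theorem drop_saw {v : V} {m : ℕ} {W : List V} (h : W ∈ saw T v m) {i : ℕ} (hi : i ≤ m) :
    W.drop i ∈ saw T v (m - i) := by
  rw [mem_saw] at h ⊢
  obtain ⟨h1, h2, h3, h4⟩ := h
  refine ⟨by rw [List.length_drop]; omega, h2.sublist (List.drop_sublist _ _), h3.drop _, ?_⟩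
  rw [List.getLast?_drop, if_neg (by omega)]
  exact h4

/-- more obstacles, fewer extensions -/
theorem Zx_mono (r : ℕ) : ∀ (v : V) (l l' : List V), (∀ u ∈ l, u ∈ l') →
    Zx T (v :: l') r ≤ Zx T (v :: l) r := by
  induction r with
  | zero => intro v l l' _; simp
  | succ r ih =>
    intro v l l' h
    rw [Zx_succ, Zx_succ]
    have hsub : fr T (v :: l') ⊆ fr T (v :: l) := by
      intro w hw
      rw [mem_fr] at hw ⊢
      refine ⟨hw.1, fun hc => hw.2 ?_⟩
      rcases List.mem_cons.1 hc with h1 | h1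
      · rw [h1]; simp
      · exact List.mem_cons_of_mem _ (h _ h1)
    refine (sum_le_sum_of_subset hsub).trans' ?_
    apply sum_le_sum
    intro y _
    apply ih
    intro u hu
    rcases List.mem_cons.1 hu with h1 | h1
    · rw [h1]; simp
    · exact List.mem_cons_of_mem _ (h _ h1)

theorem Zx_le_base (r : ℕ) (v : V) (l : List V) : Zx T (v :: l) r ≤ Zx T [v] r :=
  Zx_mono T r v [] l (by simp)

theorem card_fr_le (v : V) (l : List V) : (fr T (v :: l)).card ≤ T.deg v :=
  card_le_card (filter_subset _ _)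

theorem Zx_le_pow {k : ℕ} (hT : ∀ v, T.deg v ≤ k) (r : ℕ) : ∀ P, Zx T P r ≤ k ^ r := by
  induction r with
  | zero => intro P; simp
  | succ r ih =>
    intro P
    rw [Zx_succ]
    refine (sum_le_sum (fun y _ => ih (y :: P))).trans ?_
    rw [sum_const, smul_eq_mul, pow_succ, mul_comm]
    apply Nat.mul_le_mul_left
    cases P with
    | nil => simp [fr]
    | cons v l => exact (card_fr_le T v l).trans (hT v)

/-- vertices with the largest number of walks -/
theorem exists_best {k : ℕ} (hT : ∀ v, T.deg v ≤ k) : ∃ B : ℕ → V, ∀ r w, Zx T [w] r ≤ Zx T [B r] r := by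
  have : ∀ r, ∃ b, ∀ w, Zx T [w] r ≤ Zx T [b] r := by
    intro r
    have hne : (Set.range (fun v => Zx T [v] r)).Nonempty := by
      have := T.inf
      obtain ⟨v⟩ : Nonempty V := inferInstance
      exact ⟨_, v, rfl⟩
    have hbd : BddAbove (Set.range (fun v => Zx T [v] r)) := by
      refine ⟨k ^ r, ?_⟩
      rintro _ ⟨v, rfl⟩
      exact Zx_le_pow T hT r [v]
    obtain ⟨b, hb⟩ := Nat.sSup_mem hne hbd
    refine ⟨b, fun w => ?_⟩
    simp only at hb
    rw [hb]
    exact le_csSup hbd ⟨w, rfl⟩
  choose B hB using this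
  exact ⟨B, hB⟩

/-! ### cycles from walks -/

variable {T}

theorem sc_fwd {v x : V} {L1 : List V} (hn : (v :: L1).Nodup) (hc : (v :: L1).IsChain T.G.Adj)
    (hl : (v :: L1).getLast? = some x) (ha : T.G.Adj x v) (h2 : 2 ≤ (v :: L1).length) :
    SC T x (v :: L1) :=
  ⟨hn, hl, by rw [List.isChain_cons_cons]; exact ⟨ha, hc⟩, h2⟩

theorem sc_rev {v x : V} {L1 : List V} (h : SC T x (v :: L1)) : SC T v (v :: L1).reverse := by
  refine ⟨List.nodup_reverse.2 h.nd, by simp, ?_, by simpa using h.len⟩
  have h1 := h.ch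
  rw [List.isChain_cons_cons] at h1
  have h3 : (v :: L1).reverse.IsChain T.G.Adj := by
    rw [List.isChain_reverse]
    exact h1.2.imp (fun a b hab => hab.symm)
  have e : (v :: L1).reverse.head? = some x := by
    rw [List.head?_reverse]; exact h.last
  cases hr : (v :: L1).reverse with
  | nil => simp at hr
  | cons a l =>
    rw [hr] at e h3
    simp only [List.head?_cons, Option.some.injEq] at e
    subst e
    rw [List.isChain_cons_cons]
    exact ⟨h1.1.symm, h3⟩

theorem sc_rot {x z : V} {A B : List V} (h : SC T x (A ++ B)) (hA : A.getLast? = some z)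
    (hB : B ≠ []) : SC T z (B ++ A) := by
  have hA0 : A ≠ [] := by rintro rfl; simp at hA
  have hBx : B.getLast? = some x := by
    have := h.last
    rw [List.getLast?_append] at this
    cases hb : B.getLast? with
    | none => rw [List.getLast?_eq_none_iff] at hb; exact absurd hb hB
    | some y => rw [hb] at this; simpa using this
  refine ⟨?_, ?_, ?_, ?_⟩
  · have h1 := h.nd
    rw [List.nodup_append] at h1 ⊢
    exact ⟨h1.2.1, h1.1, fun a ha b hb hab => h1.2.2 b hb a ha hab.symm⟩
  · rw [List.getLast?_append, hA]; rfl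
  · have hc := h.ch
    rw [← List.cons_append, List.isChain_append] at hc
    obtain ⟨c1, c2, c3⟩ := hc
    have e1 : z :: (B ++ A) = (z :: B) ++ A := rfl
    obtain ⟨b, B', rfl⟩ := List.exists_cons_of_ne_nil hB
    obtain ⟨a, A', rfl⟩ := List.exists_cons_of_ne_nil hA0
    rw [e1, List.isChain_append]
    rw [List.isChain_cons_cons] at c1
    refine ⟨?_, c1.2, ?_⟩
    · rw [List.isChain_cons_cons]
      refine ⟨?_, c2⟩
      apply c3 z
      · rw [List.getLast?_cons_cons]; exact hA
      · simp
    · intro u hu w hw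
      rw [List.getLast?_cons_cons, hBx] at hu
      simp only [Option.mem_def, Option.some.injEq, List.head?_cons] at hu hw
      rw [← hu, ← hw]
      exact c1.1
  · have := h.len
    simp only [List.length_append] at this ⊢
    omega

/-- the covering bound -/
theorem card_cover {α β : Type*} [DecidableEq α] (s : Finset α) (Q : Finset β) (C : ℕ)
    (g : β → Finset α) (hg : ∀ q ∈ Q, (g q).card ≤ C) (h : ∀ a ∈ s, ∃ q ∈ Q, a ∈ g q) :
    s.card ≤ Q.card * C := by
  have h1 : s ⊆ Q.biUnion g := by
    intro a ha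
    obtain ⟨q, hq, haq⟩ := h a ha
    exact mem_biUnion.2 ⟨q, hq, haq⟩
  refine (card_le_card h1).trans (card_biUnion_le.trans ?_)
  refine (sum_le_sum hg).trans ?_
  rw [sum_const, smul_eq_mul]

/-- the walk `W` closes a cycle of length `ℓ` -/
def closes (T : PT V) (W : List V) (ℓ : ℕ) : Prop :=
  ∃ v y l, W = v :: l ∧ W[ℓ - 1]? = some y ∧ T.G.Adj y v

theorem closes_sc {v0 : V} {m ℓ : ℕ} {W : List V} (hW : W ∈ saw T v0 m) (hc : closes T W ℓ)
    (hl : 2 ≤ ℓ) : ∃ v y L1 H, W = v :: L1 ++ H ∧ (v :: L1).length = ℓ ∧ W[ℓ - 1]? = some y ∧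
      W.take ℓ = v :: L1 ∧ W.drop ℓ = H ∧ SC T y (v :: L1) := by
  obtain ⟨v, y, l, rfl, hy, ha⟩ := hc
  rw [mem_saw] at hW
  obtain ⟨h1, h2, h3, h4⟩ := hW
  have hlt : ℓ - 1 < (v :: l).length := by
    by_contra hcon
    rw [List.getElem?_eq_none (by omega)] at hy
    cases hy
  have e : (v :: l).take ℓ = v :: l.take (ℓ - 1) := by
    obtain ⟨j, rfl⟩ : ∃ j, ℓ = j + 1 := ⟨ℓ - 1, by omega⟩
    simp
  have hlen : (v :: l.take (ℓ - 1)).length = ℓ := by
    rw [← e, List.length_take]
    omega
  refine ⟨v, y, l.take (ℓ - 1), (v :: l).drop ℓ, ?_, hlen, hy, e, rfl, ?_⟩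
  · rw [← e, List.take_append_drop]
  · apply sc_fwd
    · rw [← e]; exact h2.sublist (List.take_sublist _ _)
    · rw [← e]; exact h3.take _
    · rw [← e, List.getLast?_take, if_neg (by omega), hy]; rfl
    · exact ha
    · rw [hlen]; exact hl

theorem card_closes (hd : ∀ v, 6 ≤ T.deg v) (v0 : V) {m ℓ : ℕ} (h3 : 3 ≤ ℓ) (hm : ℓ ≤ m + 1) :
    ∀ (s : Finset (List V)), s ⊆ saw T v0 m → (∀ W ∈ s, closes T W ℓ) →
    s.card ≤ (saw T v0 (m + 2 - ℓ)).card * Cb ℓ := by
  intro s hs hcl
  set g : List V → Finset (List V) := fun Q => match Q with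
    | b :: a :: l => (cycE T ℓ a b).image (fun c => c.reverse.take (ℓ - 2) ++ Q)
    | _ => ∅ with hg
  apply card_cover s _ _ g
  · intro Q _
    match Q with
    | [] => simp [hg]
    | [_] => simp [hg]
    | b :: a :: l => exact card_image_le.trans (cycE_card h3 _ _)
  · intro W hW
    obtain ⟨v, y, L1, H, e1, e2, e3, e4, e5, hsc⟩ := closes_sc (hs hW) (hcl W hW) (by omega)
    refine ⟨W.drop (ℓ - 2), ?_, ?_⟩
    · have := drop_saw T (hs hW) (i := ℓ - 2) (by omega)
      have e : m - (ℓ - 2) = m + 2 - ℓ := by omega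
      rw [e] at this; exact this
    · have hWl : W.length = m + 1 := ((mem_saw T v0 m W).1 (hs hW)).1
      have hr := sc_rev hsc
      -- the reversed cycle
      obtain ⟨a, b, l, hab⟩ : ∃ a b l, (v :: L1).reverse = a :: b :: l := by
        have : (v :: L1).reverse.length = ℓ := by rw [List.length_reverse, e2]
        generalize (v :: L1).reverse = M at this
        match M, this with
        | [], hM => rw [List.length_nil] at hM; omega
        | [_], hM => rw [List.length_singleton] at hM; omega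
        | a :: b :: l, _ => exact ⟨a, b, l, rfl⟩
      have hlab : (a :: b :: l).length = ℓ := by rw [← hab, List.length_reverse, e2]
      have hmem := cyc_mem hd (by rw [hab] at hr; exact hr) (by omega)
      rw [hlab] at hmem
      have hW2 : W = l.reverse ++ b :: a :: H := by
        rw [e1]
        have : v :: L1 = (a :: b :: l).reverse := by rw [← hab, List.reverse_reverse]
        rw [this]; simp
      have hll : l.reverse.length = ℓ - 2 := by
        rw [List.length_reverse]
        simp only [List.length_cons] at hlab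
        omega
      have hdrop : W.drop (ℓ - 2) = b :: a :: H := by
        rw [hW2, ← hll, List.drop_left]
      rw [hdrop]
      show W ∈ (cycE T ℓ a b).image (fun c => c.reverse.take (ℓ - 2) ++ b :: a :: H)
      rw [mem_image]
      refine ⟨a :: b :: l, hmem, ?_⟩
      rw [hW2]
      congr 1
      have : (a :: b :: l).reverse = l.reverse ++ [b, a] := by simp
      rw [this, ← hll, List.take_left]

end Run7.h63
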