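import Pool.Agent.Run7.h63.Charge

set_option linter.unusedSectionVars false
set_option linter.unusedSimpArgs false
set_option linter.unusedVariables false
set_option maxHeartbeats 400000

open Finset

namespace Run7.h63

theorem Cb_real (ℓ s e : ℕ) (L : ℝ) (hL : 1024 ≤ L) (h : 3 * ℓ - 7 + e ≤ 10 * s) :
    (Cb ℓ : ℝ) / L ^ s ≤ (1 / 2) ^ e := by
  have h0 : (0:ℝ) < L ^ s := by positivity
  rw [div_le_iff₀ h0]
  have h1 : (2:ℝ) ^ (10 * s) ≤ L ^ s := by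
    rw [pow_mul]
    norm_num
    exact pow_le_pow_left₀ (by norm_num) hL s
  unfold Cb
  push_cast
  rw [one_div, inv_pow]
  calc (2:ℝ) ^ (3 * ℓ - 7) = ((2:ℝ) ^ e)⁻¹ * (2:ℝ) ^ (3 * ℓ - 7 + e) := by
        rw [pow_add]; field_simp
    _ ≤ ((2:ℝ) ^ e)⁻¹ * (2:ℝ) ^ (10 * s) := by
        apply mul_le_mul_of_nonneg_left _ (by positivity)
        exact pow_le_pow_right₀ (by norm_num) h
    _ ≤ ((2:ℝ) ^ e)⁻¹ * L ^ s := by
        apply mul_le_mul_of_nonneg_left h1 (by positivity)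

theorem sum_half (M : ℕ) : ∑ ℓ ∈ Icc 3 M, ((1:ℝ) / 2) ^ ℓ ≤ 1 / 4 := by
  have : ∀ M : ℕ, ∑ ℓ ∈ Icc 3 (M + 2), ((1:ℝ) / 2) ^ ℓ = 1 / 4 - (1 / 4) * (1 / 2) ^ M := by
    intro M
    induction M with
    | zero => simp
    | succ M ih =>
      have e1 : M + 1 + 2 = (M + 2) + 1 := by ring
      rw [e1, sum_Icc_succ_top (by omega), ih]
      ring
  rcases Nat.lt_or_ge M 2 with h | h
  · have : Icc 3 M = ∅ := Icc_eq_empty (by omega)
    rw [this]; norm_num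
  · obtain ⟨j, rfl⟩ := Nat.exists_eq_add_of_le' h
    rw [this]
    have : (0:ℝ) ≤ (1 / 4) * (1 / 2) ^ j := by positivity
    linarith

theorem lin_le_pow (ℓ : ℕ) (h : 3 ≤ ℓ) : ((ℓ:ℝ) - 1) * (1 / 2) ^ (ℓ - 2) ≤ 1 := by
  obtain ⟨j, rfl⟩ := Nat.exists_eq_add_of_le h
  have e : 3 + j - 2 = j + 1 := by omega
  rw [e]
  have h1 : ((j:ℝ) + 2) ≤ 2 ^ (j + 1) := by
    have : j + 2 ≤ 2 ^ (j + 1) := by
      induction j with
      | zero => norm_num
      | succ j ih =>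
        have := ih (by omega) (by omega)
        rw [pow_succ]; omega
    exact_mod_cast this
  rw [one_div, inv_pow]
  push_cast
  have h0 : (0:ℝ) < 2 ^ (j + 1) := by positivity
  rw [← div_eq_mul_inv, div_le_one h0]
  linarith

namespace Par

variable {V W : Type*} [DecidableEq V] [DecidableEq W] (D : Par V W)

noncomputable def rho (m : ℕ) : ℝ := (D.RR m).card
noncomputable def w (m : ℕ) : ℝ := D.cR (D.n + D.N - m)
noncomputable def S (m : ℕ) : ℝ := (saw D.T D.v0 m).card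
noncomputable def L : ℝ := ((D.k - 2 : ℕ) : ℝ)
noncomputable def G : ℝ := ∑ m ∈ Icc D.n (D.n + D.N), D.rho m * D.w m

theorem L_ge : 1028 ≤ D.L := by
  unfold L
  have := D.hk
  exact_mod_cast (by omega : 1028 ≤ D.k - 2)

theorem L_pos : 0 < D.L := by have := D.L_ge; linarith
theorem rho_nonneg (m : ℕ) : 0 ≤ D.rho m := Nat.cast_nonneg _
theorem w_nonneg (m : ℕ) : 0 ≤ D.w m := Nat.cast_nonneg _
theorem S_nonneg (m : ℕ) : 0 ≤ D.S m := Nat.cast_nonneg _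

theorem cR_ratio (r : ℕ) : (D.k - 2) * D.cR r ≤ D.cR (r + 1) := by
  have h1 := ratio (T := D.R) (k := D.k) (by have := D.hk; omega) (fun v => (D.hR v).ge) (D.B r) r
  rw [card_saw, card_saw] at h1
  exact h1.trans (D.hB _ _)

theorem w_step {m : ℕ} (hm : m < D.n + D.N) : D.L * D.w (m + 1) ≤ D.w m := by
  unfold L w
  have h := D.cR_ratio (D.n + D.N - (m + 1))
  have e : D.n + D.N - (m + 1) + 1 = D.n + D.N - m := by omega
  rw [e] at h
  exact_mod_cast h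

theorem w_pow (s : ℕ) : ∀ {t : ℕ}, t + s ≤ D.n + D.N → D.w (t + s) * D.L ^ s ≤ D.w t := by
  induction s with
  | zero => intro t _; simp
  | succ s ih =>
    intro t h
    have h1 := D.w_step (m := t + s) (by omega)
    have h2 := ih (t := t) (by omega)
    have h3 : 0 ≤ D.L ^ s := pow_nonneg D.L_pos.le s
    calc D.w (t + (s + 1)) * D.L ^ (s + 1) = (D.L * D.w (t + s + 1)) * D.L ^ s := by
          rw [pow_succ, ← add_assoc]; ring
      _ ≤ D.w (t + s) * D.L ^ s := mul_le_mul_of_nonneg_right h1 h3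
      _ ≤ D.w t := h2

theorem S_pow (s : ℕ) : ∀ {t : ℕ}, D.S t * D.L ^ s ≤ D.S (t + s) := by
  induction s with
  | zero => intro t; simp
  | succ s ih =>
    intro t
    have h1 := ratio (T := D.T) (k := D.k) (by have := D.hk; omega) D.hT D.v0 (t + s)
    have h1' : D.L * D.S (t + s) ≤ D.S (t + s + 1) := by
      unfold L S; exact_mod_cast h1
    have h2 := ih (t := t)
    calc D.S t * D.L ^ (s + 1) = D.L * (D.S t * D.L ^ s) := by rw [pow_succ]; ring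
      _ ≤ D.L * D.S (t + s) := mul_le_mul_of_nonneg_left h2 D.L_pos.le
      _ ≤ _ := by rw [← add_assoc]; exact h1'

theorem a_nonneg (m : ℕ) : 0 ≤ D.rho m * D.w m := mul_nonneg (D.rho_nonneg m) (D.w_nonneg m)

theorem G_nonneg : 0 ≤ D.G := sum_nonneg (fun m _ => D.a_nonneg m)

theorem a_le_G {m : ℕ} (h1 : D.n ≤ m) (h2 : m ≤ D.n + D.N) : D.rho m * D.w m ≤ D.G :=
  single_le_sum (f := fun m => D.rho m * D.w m) (fun m _ => D.a_nonneg m) (mem_Icc.2 ⟨h1, h2⟩)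

theorem shift (s : ℕ) (M : Finset ℕ) (hM : ∀ m ∈ M, s ≤ m + 1 ∧ D.n ≤ m + 1 - s ∧ m < D.n + D.N) :
    ∑ m ∈ M, D.rho (m + 1 - s) * D.w (m + 1) ≤ D.G / D.L ^ s := by
  have h0 : 0 < D.L ^ s := pow_pos D.L_pos s
  have h1 : ∀ m ∈ M, D.rho (m + 1 - s) * D.w (m + 1) ≤
      (D.rho (m + 1 - s) * D.w (m + 1 - s)) / D.L ^ s := by
    intro m hm
    obtain ⟨a1, a2, a3⟩ := hM m hm
    rw [le_div_iff₀ h0, mul_assoc]
    apply mul_le_mul_of_nonneg_left _ (D.rho_nonneg _)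
    have := D.w_pow s (t := m + 1 - s) (by omega)
    rwa [Nat.sub_add_cancel a1] at this
  refine (sum_le_sum h1).trans ?_
  rw [← sum_div]
  apply div_le_div_of_nonneg_right _ h0.le
  have h2 : ∑ m ∈ M, D.rho (m + 1 - s) * D.w (m + 1 - s) =
      ∑ t ∈ M.image (fun m => m + 1 - s), D.rho t * D.w t := by
    rw [sum_image]
    intro a ha b hb hab
    have := hM a ha
    have := hM b hb
    simp only at hab
    omega
  rw [h2]
  apply sum_le_sum_of_subset_of_nonneg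
  · intro t ht
    rw [mem_image] at ht
    obtain ⟨m, hm, rfl⟩ := ht
    have := hM m hm
    rw [mem_Icc]
    omega
  · intro t _ _; exact D.a_nonneg t

open Classical in
noncomputable def BL (m ℓ : ℕ) : Finset (List V) := (saw D.T D.v0 m).filter (fun H => D.bl H ℓ)

theorem BL_sub (m ℓ : ℕ) : D.BL m ℓ ⊆ saw D.T D.v0 m := by
  classical
  unfold BL; exact filter_subset _ _

theorem BL_bl {m ℓ : ℕ} {H : List V} (h : H ∈ D.BL m ℓ) : D.bl H ℓ := by
  classical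
  unfold BL at h; exact (mem_filter.1 h).2

/-- closings at an early point -/
theorem sum0 {ℓ : ℕ} (h3 : 3 ≤ ℓ) :
    ∑ m ∈ (Ico D.n (D.n + D.N)).filter (fun m => ℓ ≤ m + 1 ∧ m + 1 - ℓ < D.n),
      D.w (m + 1) * ((D.BL m ℓ).card : ℝ) ≤ (1 / 8) * (1 / 2) ^ ℓ * D.G := by
  have hL := D.L_ge
  have hG := D.G_nonneg
  have h1 : ∀ m ∈ (Ico D.n (D.n + D.N)).filter (fun m => ℓ ≤ m + 1 ∧ m + 1 - ℓ < D.n),
      D.w (m + 1) * ((D.BL m ℓ).card : ℝ) ≤ D.G * ((Cb ℓ : ℝ) / D.L ^ (ℓ - 1)) := by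
    intro m hm
    rw [mem_filter, mem_Ico] at hm
    obtain ⟨⟨m1, m2⟩, m3, m4⟩ := hm
    have hb := D.bound0 h3 m3 (D.BL m ℓ) (D.BL_sub m ℓ) (fun H hH => D.BL_bl hH)
    have hb' : ((D.BL m ℓ).card : ℝ) ≤ D.S (m + 2 - ℓ) * Cb ℓ := by
      unfold S; exact_mod_cast hb
    have hS := D.S_pow (D.n - (m + 2 - ℓ)) (t := m + 2 - ℓ)
    have e1 : m + 2 - ℓ + (D.n - (m + 2 - ℓ)) = D.n := by omega
    rw [e1] at hS
    have hw := D.w_pow (m + 1 - D.n) (t := D.n) (by omega)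
    have e2 : D.n + (m + 1 - D.n) = m + 1 := by omega
    rw [e2] at hw
    have hrho : D.rho D.n = D.S D.n := by
      classical
      unfold rho S RR
      congr 2
      rw [filter_eq_self]
      intro H _; exact Or.inl le_rfl
    have ha := D.a_le_G (m := D.n) le_rfl (by omega)
    rw [hrho] at ha
    have h0 : 0 < D.L ^ (ℓ - 1) := pow_pos D.L_pos _
    rw [mul_div_assoc', le_div_iff₀ h0]
    have e3 : ℓ - 1 = (D.n - (m + 2 - ℓ)) + (m + 1 - D.n) := by omega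
    rw [e3, pow_add]
    calc D.w (m + 1) * ((D.BL m ℓ).card : ℝ) * (D.L ^ (D.n - (m + 2 - ℓ)) * D.L ^ (m + 1 - D.n))
        ≤ D.w (m + 1) * (D.S (m + 2 - ℓ) * Cb ℓ) * (D.L ^ (D.n - (m + 2 - ℓ)) * D.L ^ (m + 1 - D.n)) := by
          apply mul_le_mul_of_nonneg_right _ (by positivity)
          exact mul_le_mul_of_nonneg_left hb' (D.w_nonneg _)
      _ = (D.S (m + 2 - ℓ) * D.L ^ (D.n - (m + 2 - ℓ))) * (D.w (m + 1) * D.L ^ (m + 1 - D.n)) * Cb ℓ := by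
          ring
      _ ≤ D.S D.n * D.w D.n * Cb ℓ := by
          apply mul_le_mul_of_nonneg_right _ (Nat.cast_nonneg _)
          apply mul_le_mul hS hw _ (D.S_nonneg _)
          exact mul_nonneg (D.w_nonneg _) (pow_nonneg D.L_pos.le _)
      _ ≤ D.G * Cb ℓ := mul_le_mul_of_nonneg_right ha (Nat.cast_nonneg _)
  refine (sum_le_card_nsmul _ _ _ h1).trans ?_
  rw [nsmul_eq_mul]
  have h2 : ((Ico D.n (D.n + D.N)).filter (fun m => ℓ ≤ m + 1 ∧ m + 1 - ℓ < D.n)).card ≤ ℓ - 1 := by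
    have : (Ico D.n (D.n + D.N)).filter (fun m => ℓ ≤ m + 1 ∧ m + 1 - ℓ < D.n) ⊆
        Ico D.n (D.n + (ℓ - 1)) := by
      intro m hm
      rw [mem_filter, mem_Ico] at hm
      rw [mem_Ico]
      omega
    refine (card_le_card this).trans ?_
    rw [Nat.card_Ico]; omega
  have h3' : (((Ico D.n (D.n + D.N)).filter (fun m => ℓ ≤ m + 1 ∧ m + 1 - ℓ < D.n)).card : ℝ) ≤ (ℓ:ℝ) - 1 := by
    have : (((Ico D.n (D.n + D.N)).filter (fun m => ℓ ≤ m + 1 ∧ m + 1 - ℓ < D.n)).card : ℝ) ≤ ((ℓ - 1 : ℕ) : ℝ) := by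
      exact_mod_cast h2
    rwa [Nat.cast_sub (by omega), Nat.cast_one] at this
  have h4 : (Cb ℓ : ℝ) / D.L ^ (ℓ - 1) ≤ (1 / 2) ^ (2 * ℓ + 1) :=
    Cb_real ℓ (ℓ - 1) (2 * ℓ + 1) D.L (by linarith) (by omega)
  have h5 := lin_le_pow ℓ h3
  have h6 : (0:ℝ) ≤ (Cb ℓ : ℝ) / D.L ^ (ℓ - 1) := div_nonneg (Nat.cast_nonneg _) (pow_nonneg D.L_pos.le _)
  have e5 : (2 * ℓ + 1 : ℕ) = (ℓ - 2) + (ℓ + 3) := by omega
  calc _ ≤ ((ℓ:ℝ) - 1) * (D.G * ((1 / 2) ^ (2 * ℓ + 1))) := by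
        apply mul_le_mul h3' _ (mul_nonneg hG h6) (by have : (3:ℝ) ≤ ℓ := by exact_mod_cast h3
                                                      linarith)
        exact mul_le_mul_of_nonneg_left h4 hG
    _ = (((ℓ:ℝ) - 1) * (1 / 2) ^ (ℓ - 2)) * (D.G * (1 / 2) ^ (ℓ + 3)) := by
        rw [e5, pow_add]; ring
    _ ≤ 1 * (D.G * (1 / 2) ^ (ℓ + 3)) := by
        apply mul_le_mul_of_nonneg_right h5 (mul_nonneg hG (by positivity))
    _ = (1 / 8) * (1 / 2) ^ ℓ * D.G := by rw [pow_add]; ring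

open Classical in
/-- closings soon after a restart -/
theorem sumA {ℓ i : ℕ} (h3 : 3 ≤ ℓ) (hi : i + 2 ≤ ℓ) :
    ∑ m ∈ (Ico D.n (D.n + D.N)).filter (fun m => ℓ ≤ m + 1 ∧ D.n ≤ m + 1 - ℓ),
      D.w (m + 1) * (((D.BL m ℓ).filter (fun H => (D.dev H).length = i + 2)).card : ℝ) ≤
      8 * (1 / 4) ^ ℓ * D.G := by
  have hL := D.L_ge
  have hG := D.G_nonneg
  set M := (Ico D.n (D.n + D.N)).filter (fun m => ℓ ≤ m + 1 ∧ D.n ≤ m + 1 - ℓ) with hMdef
  obtain ⟨s, hs1, hs2, hs3, hs⟩ : ∃ s, ℓ ≤ 2 * s + 2 ∧ s ≤ ℓ - 1 ∧ 1 ≤ s ∧ ∀ m ∈ M,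
      ((D.BL m ℓ).filter (fun H => (D.dev H).length = i + 2)).card ≤ (D.RR (m + 1 - s)).card * Cb ℓ := by
    rcases Nat.lt_or_ge (2 * i + 4) ℓ with hc | hc
    · refine ⟨ℓ - 3 - i, by omega, by omega, by omega, ?_⟩
      intro m hm
      rw [hMdef, mem_filter, mem_Ico] at hm
      exact D.boundF hm.2.2 hm.2.1 (by omega) _ ((filter_subset _ _).trans (D.BL_sub m ℓ))
        (fun H hH => D.BL_bl (mem_filter.1 hH).1) (fun H hH => (mem_filter.1 hH).2)
    · refine ⟨i + 1, by omega, by omega, by omega, ?_⟩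
      intro m hm
      rw [hMdef, mem_filter, mem_Ico] at hm
      have e : m + 1 - (i + 1) = m - i := by omega
      rw [e]
      exact D.boundN hm.1.1 h3 hm.2.1 hi _ ((filter_subset _ _).trans (D.BL_sub m ℓ))
        (fun H hH => D.BL_bl (mem_filter.1 hH).1) (fun H hH => (mem_filter.1 hH).2)
  have h1 : ∀ m ∈ M, D.w (m + 1) *
      (((D.BL m ℓ).filter (fun H => (D.dev H).length = i + 2)).card : ℝ) ≤
      (D.rho (m + 1 - s) * D.w (m + 1)) * Cb ℓ := by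
    intro m hm
    have h2 : (((D.BL m ℓ).filter (fun H => (D.dev H).length = i + 2)).card : ℝ) ≤
        D.rho (m + 1 - s) * Cb ℓ := by
      unfold rho; exact_mod_cast hs m hm
    calc _ ≤ D.w (m + 1) * (D.rho (m + 1 - s) * Cb ℓ) := mul_le_mul_of_nonneg_left h2 (D.w_nonneg _)
      _ = _ := by ring
  refine (sum_le_sum h1).trans ?_
  rw [← sum_mul]
  have h4 := D.shift s M (by
    intro m hm
    rw [hMdef, mem_filter, mem_Ico] at hm
    omega)
  have h5 : (Cb ℓ : ℝ) / D.L ^ s ≤ (1 / 2) ^ (2 * ℓ - 3) :=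
    Cb_real ℓ s (2 * ℓ - 3) D.L (by linarith) (by omega)
  calc _ ≤ (D.G / D.L ^ s) * Cb ℓ := mul_le_mul_of_nonneg_right h4 (Nat.cast_nonneg _)
    _ = D.G * (Cb ℓ / D.L ^ s) := by ring
    _ ≤ D.G * (1 / 2) ^ (2 * ℓ - 3) := mul_le_mul_of_nonneg_left h5 hG
    _ = 8 * (1 / 4) ^ ℓ * D.G := by
        have e : (1 / 4 : ℝ) ^ ℓ = (1 / 2) ^ (2 * ℓ) := by
          rw [pow_mul]; norm_num
        have e2 : 2 * ℓ = (2 * ℓ - 3) + 3 := by omega
        rw [e]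
        conv_rhs => rw [e2, pow_add]
        ring

open Classical in
/-- closings long after a restart -/
theorem sumB {ℓ : ℕ} (h3 : 3 ≤ ℓ) :
    ∑ m ∈ (Ico D.n (D.n + D.N)).filter (fun m => ℓ ≤ m + 1 ∧ D.n ≤ m + 1 - ℓ),
      D.w (m + 1) * (((D.BL m ℓ).filter (fun H => ℓ + 1 ≤ (D.dev H).length)).card : ℝ) ≤
      (1 / 8) * (1 / 2) ^ ℓ * D.G := by
  have hL := D.L_ge
  have hG := D.G_nonneg
  have hkk := D.hk
  set M := (Ico D.n (D.n + D.N)).filter (fun m => ℓ ≤ m + 1 ∧ D.n ≤ m + 1 - ℓ) with hMdef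
  rcases Nat.lt_or_ge (2 * ℓ) D.k with hc | hc
  · -- empty
    have : ∀ m ∈ M, D.w (m + 1) * (((D.BL m ℓ).filter (fun H => ℓ + 1 ≤ (D.dev H).length)).card : ℝ) = 0 := by
      intro m hm
      rw [hMdef, mem_filter, mem_Ico] at hm
      have : (D.BL m ℓ).filter (fun H => ℓ + 1 ≤ (D.dev H).length) = ∅ := by
        rw [eq_empty_iff_forall_notMem]
        intro H hH
        rw [mem_filter] at hH
        obtain ⟨v, y, L1, H0, γ, v', w, I, _, _, _, _, _, _, h2, _⟩ :=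
          D.geomB hm.2.2 h3 hm.2.1 hm.1.2 (D.BL_sub m ℓ hH.1) (D.BL_bl hH.1) hH.2
        omega
      rw [this]; simp
    rw [sum_eq_zero this]
    have : (0:ℝ) ≤ (1 / 2) ^ ℓ := by positivity
    nlinarith
  · set K := ℓ / 2 + ℓ / 512 + 1 with hK
    -- the defining property of the pieces
    let Pg : ℕ → List V → Prop := fun g H => ∃ (v y : V) (L1 H0 γ : List V) (v' w : V), H = v :: L1 ++ H0 ∧
      (v :: L1).length = ℓ ∧ H[ℓ - 1]? = some y ∧ H.take ℓ = v :: L1 ∧ H.drop ℓ = H0 ∧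
      SC D.T y (v :: L1) ∧ 
      γ = v' :: γ.tail ∧ γ.getLast? = some y ∧ γ.Nodup ∧ γ.IsChain D.T.G.Adj ∧
      (∀ u ∈ γ, u ∉ H0) ∧ D.T.deg v' ≠ D.k ∧ D.T.G.Adj v' w ∧ w ∉ γ ∧ w ∉ H0 ∧
      γ.length = g + 1
    have h1 : ∀ m ∈ M, D.w (m + 1) * (((D.BL m ℓ).filter (fun H => ℓ + 1 ≤ (D.dev H).length)).card : ℝ) ≤
        ∑ g ∈ range K, (D.rho (m + 1 - (ℓ - g - 1)) * D.w (m + 1)) * (D.k * Cb ℓ) := by
      intro m hm
      rw [hMdef, mem_filter, mem_Ico] at hm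
      have hcov : (D.BL m ℓ).filter (fun H => ℓ + 1 ≤ (D.dev H).length) ⊆
          (range K).biUnion (fun g => (D.BL m ℓ).filter
            (fun H => ℓ + 1 ≤ (D.dev H).length ∧ Pg g H)) := by
        intro H hH
        rw [mem_filter] at hH
        obtain ⟨v, y, L1, H0, γ, v', w, I, q1, q2, q3, q4, q5, q6, q7, q8, q9, q10, q11, q12, q13,
          q14, q15, q16, q17, q18⟩ :=
          D.geomB hm.2.2 h3 hm.2.1 hm.1.2 (D.BL_sub m ℓ hH.1) (D.BL_bl hH.1) hH.2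
        have hIc : 1024 * I.card ≤ (D.k - 6) * I.card := Nat.mul_le_mul_right _ (by omega)
        have hγ : γ.length ≠ 0 := by rw [q9]; simp
        rw [mem_biUnion]
        refine ⟨γ.length - 1, mem_range.2 (by omega), ?_⟩
        rw [mem_filter]
        exact ⟨hH.1, hH.2, v, y, L1, H0, γ, v', w, q1, q2, q3, q4, q5, q6, q9, q10, q11, q12, q13,
          q14, q15, q16, q17, by omega⟩
      have hcard : ((D.BL m ℓ).filter (fun H => ℓ + 1 ≤ (D.dev H).length)).card ≤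
          ∑ g ∈ range K, (D.RR (m + 1 - (ℓ - g - 1))).card * (D.k * Cb ℓ) := by
        refine (card_le_card hcov).trans (card_biUnion_le.trans ?_)
        apply sum_le_sum
        intro g hg
        rw [mem_range] at hg
        have e : m + 1 - (ℓ - g - 1) = m + 1 - ℓ + g + 1 := by omega
        rw [e]
        exact D.boundB hm.2.2 h3 hm.2.1 hm.1.2 g _ ((filter_subset _ _).trans (D.BL_sub m ℓ))
          (fun H hH => D.BL_bl (mem_filter.1 hH).1) (fun H hH => (mem_filter.1 hH).2.1)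
          (fun H hH => (mem_filter.1 hH).2.2)
      have hcard' : (((D.BL m ℓ).filter (fun H => ℓ + 1 ≤ (D.dev H).length)).card : ℝ) ≤
          ∑ g ∈ range K, D.rho (m + 1 - (ℓ - g - 1)) * (D.k * Cb ℓ) := by
        unfold rho; exact_mod_cast hcard
      refine (mul_le_mul_of_nonneg_left hcard' (D.w_nonneg _)).trans ?_
      rw [mul_sum]
      apply le_of_eq
      apply sum_congr rfl
      intro g _
      ring
    refine (sum_le_sum h1).trans ?_
    rw [sum_comm]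
    have h2 : ∀ g ∈ range K, ∑ m ∈ M, (D.rho (m + 1 - (ℓ - g - 1)) * D.w (m + 1)) * (D.k * Cb ℓ) ≤
        D.G * (1 / 2) ^ (ℓ + (ℓ / 2 - 2) + 5) * 2 := by
      intro g hg
      rw [mem_range] at hg
      rw [← sum_mul]
      have h4 := D.shift (ℓ - g - 1) M (by
        intro m hm
        rw [hMdef, mem_filter, mem_Ico] at hm
        omega)
      have h5 : (Cb ℓ : ℝ) / D.L ^ (ℓ - g - 2) ≤ (1 / 2) ^ (ℓ + (ℓ / 2 - 2) + 5) :=
        Cb_real ℓ _ _ D.L (by linarith) (by omega)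
      have h6 : (D.k : ℝ) ≤ 2 * D.L := by
        unfold L
        have : D.k ≤ 2 * (D.k - 2) := by omega
        exact_mod_cast this
      have e7 : ℓ - g - 1 = (ℓ - g - 2) + 1 := by omega
      have hLp := D.L_pos
      have h8 : (D.k : ℝ) * Cb ℓ / D.L ^ (ℓ - g - 1) ≤ 2 * (1 / 2) ^ (ℓ + (ℓ / 2 - 2) + 5) := by
        rw [e7, pow_succ]
        calc (D.k : ℝ) * Cb ℓ / (D.L ^ (ℓ - g - 2) * D.L) ≤
            (2 * D.L) * Cb ℓ / (D.L ^ (ℓ - g - 2) * D.L) := by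
              apply div_le_div_of_nonneg_right _ (by positivity)
              exact mul_le_mul_of_nonneg_right h6 (Nat.cast_nonneg _)
          _ = 2 * (Cb ℓ / D.L ^ (ℓ - g - 2)) := by field_simp
          _ ≤ _ := by linarith
      calc _ ≤ (D.G / D.L ^ (ℓ - g - 1)) * (D.k * Cb ℓ) :=
            mul_le_mul_of_nonneg_right h4 (by positivity)
        _ = D.G * (D.k * Cb ℓ / D.L ^ (ℓ - g - 1)) := by ring
        _ ≤ D.G * (2 * (1 / 2) ^ (ℓ + (ℓ / 2 - 2) + 5)) := mul_le_mul_of_nonneg_left h8 hG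
        _ = _ := by ring
    refine (sum_le_card_nsmul _ _ _ h2).trans ?_
    rw [card_range, nsmul_eq_mul]
    have hj := lin_le_pow (ℓ / 2) (by omega)
    have hKj : (K : ℝ) ≤ 2 * (((ℓ / 2 : ℕ) : ℝ) - 1) := by
      have : K + 2 ≤ 2 * (ℓ / 2) := by omega
      have : ((K + 2 : ℕ) : ℝ) ≤ ((2 * (ℓ / 2) : ℕ) : ℝ) := by exact_mod_cast this
      push_cast at this ⊢
      linarith
    have h9 : (0:ℝ) ≤ (1 / 2) ^ (ℓ / 2 - 2) := by positivity
    have h10 : (K : ℝ) * (1 / 2) ^ (ℓ / 2 - 2) ≤ 2 := by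
      calc (K : ℝ) * (1 / 2) ^ (ℓ / 2 - 2) ≤ 2 * (((ℓ / 2 : ℕ) : ℝ) - 1) * (1 / 2) ^ (ℓ / 2 - 2) :=
            mul_le_mul_of_nonneg_right hKj h9
        _ ≤ 2 := by linarith
    calc (K : ℝ) * (D.G * (1 / 2) ^ (ℓ + (ℓ / 2 - 2) + 5) * 2) =
          (K * (1 / 2) ^ (ℓ / 2 - 2)) * (D.G * (1 / 2) ^ (ℓ + 5) * 2) := by
          rw [pow_add, pow_add, pow_add]; ring
      _ ≤ 2 * (D.G * (1 / 2) ^ (ℓ + 5) * 2) :=
          mul_le_mul_of_nonneg_right h10 (by positivity)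
      _ = _ := by rw [pow_add]; ring

open Classical in
/-- all the closings of length `ℓ` -/
theorem sumL {ℓ : ℕ} (h3 : 3 ≤ ℓ) :
    ∑ m ∈ (Ico D.n (D.n + D.N)).filter (fun m => ℓ ≤ m + 1),
      D.w (m + 1) * ((D.BL m ℓ).card : ℝ) ≤ (9 / 4) * (1 / 2) ^ ℓ * D.G := by
  have hG := D.G_nonneg
  have h0 := D.sum0 h3
  have hB := D.sumB h3
  have hs : ∑ m ∈ (Ico D.n (D.n + D.N)).filter (fun m => ℓ ≤ m + 1),
      D.w (m + 1) * ((D.BL m ℓ).card : ℝ) =
      ∑ m ∈ (Ico D.n (D.n + D.N)).filter (fun m => ℓ ≤ m + 1 ∧ m + 1 - ℓ < D.n),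
      D.w (m + 1) * ((D.BL m ℓ).card : ℝ) +
      ∑ m ∈ (Ico D.n (D.n + D.N)).filter (fun m => ℓ ≤ m + 1 ∧ D.n ≤ m + 1 - ℓ),
      D.w (m + 1) * ((D.BL m ℓ).card : ℝ) := by
    rw [← sum_filter_add_sum_filter_not ((Ico D.n (D.n + D.N)).filter (fun m => ℓ ≤ m + 1))
      (fun m => m + 1 - ℓ < D.n), filter_filter, filter_filter]
    simp only [not_lt]
  set M := (Ico D.n (D.n + D.N)).filter (fun m => ℓ ≤ m + 1 ∧ D.n ≤ m + 1 - ℓ) with hMdef
  have h1 : ∀ m ∈ M, D.w (m + 1) * ((D.BL m ℓ).card : ℝ) ≤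
      ∑ i ∈ range (ℓ - 1), D.w (m + 1) * (((D.BL m ℓ).filter (fun H => (D.dev H).length = i + 2)).card : ℝ)
      + D.w (m + 1) * (((D.BL m ℓ).filter (fun H => ℓ + 1 ≤ (D.dev H).length)).card : ℝ) := by
    intro m hm
    rw [hMdef, mem_filter, mem_Ico] at hm
    rw [← mul_sum, ← mul_add]
    apply mul_le_mul_of_nonneg_left _ (D.w_nonneg _)
    have hcov : D.BL m ℓ ⊆ (range (ℓ - 1)).biUnion (fun i => (D.BL m ℓ).filter
        (fun H => (D.dev H).length = i + 2)) ∪ (D.BL m ℓ).filter (fun H => ℓ + 1 ≤ (D.dev H).length) := by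
      intro H hH
      obtain ⟨i, I⟩ := D.inv_exists m hm.1.1 H (D.BL_sub m ℓ hH)
      have := I.len
      rw [mem_union, mem_biUnion]
      rcases Nat.lt_or_ge (D.dev H).length (ℓ + 1) with hc | hc
      · left
        exact ⟨i, mem_range.2 (by omega), mem_filter.2 ⟨hH, this⟩⟩
      · right; exact mem_filter.2 ⟨hH, hc⟩
    have h2 := (card_le_card hcov).trans ((card_union_le _ _).trans
      (Nat.add_le_add_right card_biUnion_le _))
    exact_mod_cast h2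
  have h2 : ∑ m ∈ M, D.w (m + 1) * ((D.BL m ℓ).card : ℝ) ≤
      ((ℓ:ℝ) - 1) * (8 * (1 / 4) ^ ℓ * D.G) + (1 / 8) * (1 / 2) ^ ℓ * D.G := by
    refine (sum_le_sum h1).trans ?_
    rw [sum_add_distrib]
    apply add_le_add _ hB
    rw [sum_comm]
    have h3' : ∀ i ∈ range (ℓ - 1), ∑ m ∈ M, D.w (m + 1) *
        (((D.BL m ℓ).filter (fun H => (D.dev H).length = i + 2)).card : ℝ) ≤ 8 * (1 / 4) ^ ℓ * D.G := by
      intro i hi
      rw [mem_range] at hi
      exact D.sumA h3 (by omega)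
    refine (sum_le_card_nsmul _ _ _ h3').trans ?_
    rw [card_range, nsmul_eq_mul, Nat.cast_sub (by omega), Nat.cast_one]
  have h5 := lin_le_pow ℓ h3
  have h6 : ((ℓ:ℝ) - 1) * (8 * (1 / 4) ^ ℓ * D.G) ≤ 2 * (1 / 2) ^ ℓ * D.G := by
    have e : (1 / 4 : ℝ) ^ ℓ = (1 / 2) ^ (ℓ - 2) * (1 / 2) ^ (ℓ + 2) := by
      rw [← pow_add]
      have : ℓ - 2 + (ℓ + 2) = 2 * ℓ := by omega
      rw [this, pow_mul]; norm_num
    rw [e]
    calc ((ℓ:ℝ) - 1) * (8 * ((1 / 2) ^ (ℓ - 2) * (1 / 2) ^ (ℓ + 2)) * D.G) =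
        (((ℓ:ℝ) - 1) * (1 / 2) ^ (ℓ - 2)) * (8 * (1 / 2) ^ (ℓ + 2) * D.G) := by ring
      _ ≤ 1 * (8 * (1 / 2) ^ (ℓ + 2) * D.G) := mul_le_mul_of_nonneg_right h5 (by positivity)
      _ = _ := by rw [pow_add]; ring
  rw [hs]
  linarith

open Classical in
/-- the main inequality -/
theorem main_ineq : D.S D.n * (D.cR D.N : ℝ) ≤ 4 * D.S (D.n + D.N) := by
  have hG := D.G_nonneg
  have hL := D.L_ge
  -- real form of the potential inequality
  set X : ℕ → ℝ := fun m => ((∑ H ∈ saw D.T D.v0 m, D.f m H : ℕ) : ℝ) with hX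
  have hstep : ∀ m ∈ Ico D.n (D.n + D.N), X m + D.rho (m + 1) * D.w (m + 1) ≤ X (m + 1) +
      D.rho m * D.w (m + 1) + ∑ ℓ ∈ Icc 3 (m + 1), D.w (m + 1) * ((D.BL m ℓ).card : ℝ) := by
    intro m hm
    rw [mem_Ico] at hm
    have h := D.pot_sum hm.1 hm.2
    rw [mul_sum] at h
    simp only [hX, rho, w, BL]
    exact_mod_cast h
  have hsum := sum_le_sum hstep
  rw [sum_add_distrib, sum_add_distrib, sum_add_distrib] at hsum
  have htel : ∑ m ∈ Ico D.n (D.n + D.N), X (m + 1) = ∑ m ∈ Ico D.n (D.n + D.N), X m +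
      X (D.n + D.N) - X D.n := by
    have h1 : ∑ m ∈ Ico D.n (D.n + D.N), (X (m + 1) - X m) = X (D.n + D.N) - X D.n := by
      rw [sum_Ico_eq_sum_range, Nat.add_sub_cancel_left]
      have := sum_range_sub (fun i => X (D.n + i)) D.N
      simpa [add_assoc] using this
    rw [sum_sub_distrib] at h1
    linarith
  have hXn : X D.n = D.S D.n * (D.cR D.N : ℝ) := by
    have : ∀ H ∈ saw D.T D.v0 D.n, D.f D.n H = D.cR D.N := by
      intro H hH
      obtain ⟨i, I⟩ := D.inv_exists D.n le_rfl H hH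
      have hd := I.zero (by have := I.le; omega)
      unfold f
      have e : (D.rs D.n).dropLast = [D.B (D.n + D.N - D.n)] := rfl
      rw [hd, e, if_pos (by simp), Nat.add_sub_cancel_left]
      rfl
    simp only [hX]
    rw [sum_congr rfl this, sum_const, smul_eq_mul]
    unfold S
    push_cast; rfl
  have hXN : X (D.n + D.N) ≤ D.S (D.n + D.N) := by
    have : ∑ H ∈ saw D.T D.v0 (D.n + D.N), D.f (D.n + D.N) H ≤ (saw D.T D.v0 (D.n + D.N)).card := by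
      rw [card_eq_sum_ones]
      apply sum_le_sum
      intro H _
      unfold f
      rw [Nat.sub_self]
      split_ifs
      · rw [Zx_zero]
      · omega
    simp only [hX]
    unfold S
    exact_mod_cast this
  have hGe : D.G = D.S D.n * (D.cR D.N : ℝ) + ∑ m ∈ Ico D.n (D.n + D.N), D.rho (m + 1) * D.w (m + 1) := by
    have e1 : Icc D.n (D.n + D.N) = Ico D.n (D.n + D.N + 1) := by
      ext m; rw [mem_Icc, mem_Ico]; omega
    unfold G
    rw [e1, sum_eq_sum_Ico_succ_bot (by omega), sum_Ico_add' (fun m => D.rho m * D.w m) D.n (D.n + D.N) 1]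
    congr 1
    have hrho : D.rho D.n = D.S D.n := by
      unfold rho S RR
      congr 2
      rw [filter_eq_self]
      intro H _; exact Or.inl le_rfl
    rw [hrho]
    unfold w
    rw [Nat.add_sub_cancel_left]
  have hback : ∑ m ∈ Ico D.n (D.n + D.N), D.rho m * D.w (m + 1) ≤ (1 / 8) * D.G := by
    have h1 : ∀ m ∈ Ico D.n (D.n + D.N), D.rho m * D.w (m + 1) ≤ (1 / 8) * (D.rho m * D.w m) := by
      intro m hm
      rw [mem_Ico] at hm
      have h2 := D.w_step hm.2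
      have h3 : 8 * D.w (m + 1) ≤ D.L * D.w (m + 1) :=
        mul_le_mul_of_nonneg_right (by linarith) (D.w_nonneg _)
      have h4 : D.w (m + 1) ≤ (1 / 8) * D.w m := by linarith
      calc _ ≤ D.rho m * ((1 / 8) * D.w m) := mul_le_mul_of_nonneg_left h4 (D.rho_nonneg _)
        _ = _ := by ring
    refine (sum_le_sum h1).trans ?_
    rw [← mul_sum]
    apply mul_le_mul_of_nonneg_left _ (by norm_num)
    unfold G
    apply sum_le_sum_of_subset_of_nonneg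
    · intro m hm
      rw [mem_Ico] at hm
      rw [mem_Icc]; omega
    · intro m _ _; exact D.a_nonneg m
  have hloss : ∑ m ∈ Ico D.n (D.n + D.N), ∑ ℓ ∈ Icc 3 (m + 1), D.w (m + 1) * ((D.BL m ℓ).card : ℝ) ≤
      (9 / 16) * D.G := by
    have e : ∑ m ∈ Ico D.n (D.n + D.N), ∑ ℓ ∈ Icc 3 (m + 1), D.w (m + 1) * ((D.BL m ℓ).card : ℝ) =
        ∑ ℓ ∈ Icc 3 (D.n + D.N), ∑ m ∈ (Ico D.n (D.n + D.N)).filter (fun m => ℓ ≤ m + 1),
          D.w (m + 1) * ((D.BL m ℓ).card : ℝ) := by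
      apply sum_comm'
      intro m ℓ
      rw [mem_Ico, mem_Icc, mem_filter, mem_Ico, mem_Icc]
      omega
    rw [e]
    refine (sum_le_sum (fun ℓ hl => D.sumL (mem_Icc.1 hl).1)).trans ?_
    rw [← sum_mul, ← mul_sum]
    have h1 := sum_half (D.n + D.N)
    apply mul_le_mul_of_nonneg_right _ hG
    linarith
  have hpos : 0 ≤ ∑ m ∈ Ico D.n (D.n + D.N), D.rho (m + 1) * D.w (m + 1) :=
    sum_nonneg (fun m _ => D.a_nonneg (m + 1))
  have hS := D.S_nonneg (D.n + D.N)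
  linarith

end Par

end Run7.h63
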