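import Mathlib
import Pool.Agent.H373R2.T7.Cnt
import Pool.Agent.H20R2.EN.FLem
import Pool.Agent.Helper256.KM.Mertens

set_option autoImplicit false

/-!
# Systems of residue classes: counting, lower bound for the density, a fundamental lemma

The fundamental lemma is the one of `Pool.Agent.H20R2.EN.FLem`; the version without weights follows
`Pool.Agent.H373R2.T7.Fund`.
-/

namespace Pool.Agent.Run7.h63.XP

open Finset Filter

/-- the primes up to `y` -/
def pz (y : ℕ) : Finset ℕ := (Icc 1 y).filter Nat.Prime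

lemma mem_pz {y p : ℕ} : p ∈ pz y ↔ p ≤ y ∧ p.Prime := by
  unfold pz
  rw [mem_filter, mem_Icc]
  constructor
  · rintro ⟨⟨_, h⟩, h2⟩
    exact ⟨h, h2⟩
  · rintro ⟨h, h2⟩
    exact ⟨⟨h2.pos, h⟩, h2⟩

open Classical in
/-- the number of classes -/
noncomputable def nu (Q : ℕ → ℕ → Prop) (p : ℕ) : ℕ := ((range p).filter (fun r => Q p r)).card

/-- periodic conditions with few classes -/
structure Per (Q : ℕ → ℕ → Prop) (c : ℕ) : Prop where
  per : ∀ p n, Q p n ↔ Q p (n % p)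
  few : ∀ p, p.Prime → nu Q p ≤ c

lemma nu_le (Q : ℕ → ℕ → Prop) (p : ℕ) : nu Q p ≤ p := by
  classical
  unfold nu
  exact (card_filter_le _ _).trans (by simp)

/-- the density of the integers which satisfy none of the conditions -/
noncomputable def dens (Q : ℕ → ℕ → Prop) (y : ℕ) : ℝ := ∏ p ∈ pz y, (1 - (nu Q p : ℝ) / p)

lemma fac_nonneg (Q : ℕ → ℕ → Prop) (p : ℕ) (hp : p.Prime) : 0 ≤ 1 - (nu Q p : ℝ) / p := by
  have hp0 : (0 : ℝ) < p := by exact_mod_cast hp.pos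
  have h1 : (nu Q p : ℝ) / p ≤ 1 := by rw [div_le_one hp0]; exact_mod_cast nu_le Q p
  linarith

lemma prod_anti (s t : Finset ℕ) (f : ℕ → ℝ) (hst : s ⊆ t) (h0 : ∀ i ∈ t, 0 ≤ f i) (h1 : ∀ i ∈ t, f i ≤ 1) :
    ∏ i ∈ t, f i ≤ ∏ i ∈ s, f i := by
  rw [← Finset.prod_sdiff hst]
  have h2 : ∏ i ∈ t \ s, f i ≤ 1 := Finset.prod_le_one (fun i hi => h0 i (Finset.sdiff_subset hi))
    (fun i hi => h1 i (Finset.sdiff_subset hi))
  calc (∏ i ∈ t \ s, f i) * ∏ i ∈ s, f i ≤ 1 * ∏ i ∈ s, f i :=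
        mul_le_mul_of_nonneg_right h2 (Finset.prod_nonneg fun i hi => h0 i (hst hi))
    _ = _ := one_mul _

/-- the sum of the reciprocals of the primes -/
lemma sum_inv : ∃ C : ℝ, 0 < C ∧ ∀ y : ℕ, 3 ≤ y → ∑ p ∈ pz y, (1 : ℝ) / p ≤ Real.log (Real.log y) + C := by
  obtain ⟨C, hC⟩ := Pool.Agent.Helper256.KM.mertens_inv
  refine ⟨|C| + 1, by positivity, fun y hy => ?_⟩
  have h1 := (abs_le.1 (hC y hy)).2
  have h2 := le_abs_self C
  unfold pz
  linarith

/-- the lower bound depends on the number of classes only -/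
theorem dens_lower (k : ℕ) : ∃ v : ℝ, 0 < v ∧ ∀ Q : ℕ → ℕ → Prop, Per Q k →
    (∀ p : ℕ, p.Prime → nu Q p < p) → ∀ y : ℕ, 3 ≤ y → v / Real.log y ^ (2 * k) ≤ dens Q y := by
  obtain ⟨C, hC, hM⟩ := sum_inv
  obtain ⟨M, hMd⟩ : ∃ M : ℝ, M = ∏ p ∈ pz (2 * k), (p : ℝ)⁻¹ := ⟨_, rfl⟩
  have hM0 : 0 < M := by
    rw [hMd]
    exact Finset.prod_pos fun p hp => by
      have : (0 : ℝ) < p := by exact_mod_cast (mem_pz.1 hp).2.pos
      positivity
  refine ⟨M * Real.exp (-(2 * k * C)), by positivity, ?_⟩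
  intro Q hQ hadm y hy
  have hyr : (3 : ℝ) ≤ y := by exact_mod_cast hy
  have hk0 : (0 : ℝ) ≤ k := Nat.cast_nonneg _
  have hly : 0 < Real.log y := Real.log_pos (by linarith)
  -- factorwise
  have h1 : ∏ p ∈ pz y, ((if p ≤ 2 * k then (p : ℝ)⁻¹ else 1) * Real.exp (-(2 * k * (1 / (p : ℝ))))) ≤ dens Q y := by
    unfold dens
    apply Finset.prod_le_prod
    · intro p hp
      have h2 : (0 : ℝ) < p := by exact_mod_cast (mem_pz.1 hp).2.pos
      split_ifs <;> positivity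
    · intro p hp
      have hpp := (mem_pz.1 hp).2
      have hp0 : (0 : ℝ) < p := by exact_mod_cast hpp.pos
      have hnu : (nu Q p : ℝ) + 1 ≤ p := by exact_mod_cast hadm p hpp
      have hexp1 : Real.exp (-(2 * k * (1 / (p : ℝ)))) ≤ 1 := by
        rw [Real.exp_le_one_iff]
        have : 0 ≤ 2 * k * (1 / (p : ℝ)) := by positivity
        linarith
      split_ifs with h
      · calc (p : ℝ)⁻¹ * Real.exp (-(2 * k * (1 / (p : ℝ)))) ≤ (p : ℝ)⁻¹ * 1 := by gcongr
          _ ≤ 1 - (nu Q p : ℝ) / p := by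
            rw [mul_one, inv_eq_one_div, le_sub_iff_add_le, ← add_div, div_le_one hp0]
            linarith
      · rw [one_mul]
        push Not at h
        obtain ⟨x, hx⟩ : ∃ x : ℝ, x = k * (1 / (p : ℝ)) := ⟨_, rfl⟩
        have hx0 : 0 ≤ x := by rw [hx]; positivity
        have hx1 : x ≤ 1 / 2 := by
          rw [hx, mul_one_div, div_le_div_iff₀ hp0 (by norm_num)]
          have : ((2 * k : ℕ) : ℝ) < p := by exact_mod_cast h
          push_cast at this
          linarith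
        have h2 : 1 - x ≤ 1 - (nu Q p : ℝ) / p := by
          have h3 : (nu Q p : ℝ) ≤ k := by exact_mod_cast hQ.few p hpp
          have h4 : (nu Q p : ℝ) / p ≤ k / p := div_le_div_of_nonneg_right h3 hp0.le
          have h5 : x = k / p := by rw [hx]; ring
          linarith
        refine le_trans ?_ h2
        rw [show -(2 * k * (1 / (p : ℝ))) = -(2 * x) by rw [hx]; ring]
        have h5 : 0 < 1 - x := by linarith
        rw [← Real.le_log_iff_exp_le h5]
        have h6 := Real.one_sub_inv_le_log_of_pos h5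
        have h7 : (1 - x)⁻¹ ≤ 1 + 2 * x := by
          rw [inv_le_iff_one_le_mul₀ h5]
          nlinarith
        linarith
  refine le_trans ?_ h1
  rw [Finset.prod_mul_distrib, ← Real.exp_sum]
  have h2 : M ≤ ∏ p ∈ pz y, (if p ≤ 2 * k then (p : ℝ)⁻¹ else 1) := by
    rw [← Finset.prod_filter, hMd]
    have hsub : (pz y).filter (fun p => p ≤ 2 * k) ⊆ pz (2 * k) := by
      intro p hp
      rw [mem_filter, mem_pz] at hp
      exact mem_pz.2 ⟨hp.2, hp.1.2⟩
    apply prod_anti _ _ _ hsub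
    · intro p hp
      have : (0 : ℝ) < p := by exact_mod_cast (mem_pz.1 hp).2.pos
      positivity
    · intro p hp
      have : (1 : ℝ) ≤ p := by exact_mod_cast (mem_pz.1 hp).2.one_le
      exact inv_le_one_of_one_le₀ this
  have h3 : Real.exp (-(2 * k * C)) / Real.log y ^ (2 * k) ≤
      Real.exp (∑ p ∈ pz y, -(2 * k * (1 / (p : ℝ)))) := by
    rw [Finset.sum_neg_distrib, ← Finset.mul_sum]
    have h4 := hM y hy
    have h5 : Real.exp (-(2 * k * C)) / Real.log y ^ (2 * k) =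
        Real.exp (-(2 * k * (Real.log (Real.log y) + C))) := by
      rw [show -(2 * (k : ℝ) * (Real.log (Real.log y) + C)) = -(2 * k * C) + -(((2 * k : ℕ) : ℝ) * Real.log (Real.log y)) by
        push_cast; ring, Real.exp_add, Real.exp_neg (((2 * k : ℕ) : ℝ) * Real.log (Real.log y)), Real.exp_nat_mul,
        Real.exp_log hly]
      rfl
    rw [h5]
    apply Real.exp_le_exp.2
    have h6 : 2 * (k : ℝ) * ∑ p ∈ pz y, (1 : ℝ) / p ≤ 2 * k * (Real.log (Real.log y) + C) :=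
      mul_le_mul_of_nonneg_left h4 (by positivity)
    linarith
  calc M * Real.exp (-(2 * k * C)) / Real.log y ^ (2 * k) =
        M * (Real.exp (-(2 * k * C)) / Real.log y ^ (2 * k)) := by ring
    _ ≤ _ := mul_le_mul h2 h3 (by positivity) (Finset.prod_nonneg fun p hp => by
        have : (0 : ℝ) < p := by exact_mod_cast (mem_pz.1 hp).2.pos
        split_ifs <;> positivity)

/-- the exponent of the double power -/
def JJ (y : ℕ) : ℕ := Nat.log 2 (Nat.log 2 y) + 1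

lemma JJ_lt (y : ℕ) : y < 2 ^ 2 ^ JJ y := by
  have h1 : y < 2 ^ (Nat.log 2 y + 1) := Nat.lt_pow_succ_log_self (by norm_num) y
  have h2 : Nat.log 2 y + 1 ≤ 2 ^ JJ y := Nat.lt_pow_succ_log_self (by norm_num) _
  exact h1.trans_le (Nat.pow_le_pow_right (by norm_num) h2)

lemma JJ_pow (y : ℕ) (hy : 2 ≤ y) : 2 ^ JJ y ≤ 2 * Nat.log 2 y := by
  have h0 : Nat.log 2 y ≠ 0 := by
    have : 0 < Nat.log 2 y := Nat.log_pos (by norm_num) hy
    omega
  unfold JJ
  rw [pow_succ]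
  have := Nat.pow_log_le_self 2 h0
  omega

lemma JJ_le (y : ℕ) (hy : 2 ≤ y) : 2 ^ 2 ^ JJ y ≤ y ^ 2 := by
  calc 2 ^ 2 ^ JJ y ≤ 2 ^ (2 * Nat.log 2 y) := Nat.pow_le_pow_right (by norm_num) (JJ_pow y hy)
    _ = (2 ^ Nat.log 2 y) ^ 2 := by rw [← pow_mul, mul_comm]
    _ ≤ y ^ 2 := Nat.pow_le_pow_left (Nat.pow_log_le_self 2 (by omega)) 2

/-- `J + 2` is at most a constant times the logarithm -/
lemma JJ_log (y : ℕ) (hy : 3 ≤ y) : (JJ y : ℝ) + 2 ≤ 6 * Real.log y := by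
  have hyr : (3 : ℝ) ≤ y := by exact_mod_cast hy
  have h1 : Nat.log 2 (Nat.log 2 y) + 1 ≤ Nat.log 2 y := by
    have h0 : Nat.log 2 y ≠ 0 := by
      have : 0 < Nat.log 2 y := Nat.log_pos (by norm_num) (by omega)
      omega
    exact Nat.log_lt_self 2 h0
  have h2 : (JJ y : ℝ) ≤ Nat.log 2 y := by
    unfold JJ
    exact_mod_cast h1
  have h3 : (Nat.log 2 y : ℝ) * Real.log 2 ≤ Real.log y := by
    rw [← Real.log_pow]
    apply Real.log_le_log (by positivity)
    exact_mod_cast Nat.pow_log_le_self 2 (by omega : y ≠ 0)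
  have h4 := Real.log_two_gt_d9
  have h5 : 1 ≤ Real.log y := by
    rw [Real.le_log_iff_exp_le (by linarith)]
    have := Real.exp_one_lt_d9
    linarith
  have h6 : (0 : ℝ) ≤ Nat.log 2 y := Nat.cast_nonneg _
  nlinarith

lemma prod_inj (T T' : Finset ℕ) (hT : ∀ p ∈ T, p.Prime) (hT' : ∀ p ∈ T', p.Prime)
    (h : ∏ p ∈ T, p = ∏ p ∈ T', p) : T = T' := by
  have key : ∀ S : Finset ℕ, (∀ p ∈ S, p.Prime) → ∀ q : ℕ, q.Prime → (q ∣ ∏ p ∈ S, p ↔ q ∈ S) := by
    intro S hS q hq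
    constructor
    · intro hd
      obtain ⟨p, hp, hqp⟩ := (Nat.Prime.prime hq).exists_mem_finset_dvd hd
      rw [(Nat.prime_dvd_prime_iff_eq hq (hS p hp)).1 hqp]
      exact hp
    · intro hq2
      exact dvd_prod_of_mem _ hq2
  ext q
  constructor
  · intro hq
    have hqp := hT q hq
    exact (key T' hT' q hqp).1 (h ▸ (key T hT q hqp).2 hq)
  · intro hq
    have hqp := hT' q hq
    exact (key T hT q hqp).1 (h ▸ (key T' hT' q hqp).2 hq)

lemma card_small (P : Finset ℕ) (hP : ∀ p ∈ P, p.Prime) (D : ℕ) :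
    (P.powerset.filter (fun T : Finset ℕ => ∏ p ∈ T, p ≤ D)).card ≤ D := by
  calc _ ≤ (Icc 1 D).card := by
        apply card_le_card_of_injOn (fun T : Finset ℕ => ∏ p ∈ T, p)
        · intro T hT
          rw [mem_coe, mem_filter, mem_powerset] at hT
          have h5 : 1 ≤ ∏ p ∈ T, p := Nat.pos_of_ne_zero
            (prod_ne_zero_iff.2 fun p hp => (hP p (hT.1 hp)).ne_zero)
          exact mem_coe.2 (mem_Icc.2 ⟨h5, hT.2⟩)
        · intro T hT T' hT' h
          rw [mem_coe, mem_filter, mem_powerset] at hT hT'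
          exact prod_inj T T' (fun p hp => hP p (hT.1 hp)) (fun p hp => hP p (hT'.1 hp)) h
    _ = D := by rw [Nat.card_Icc]; omega

open Classical in
/-- the integers which satisfy the conditions at the primes of `T` -/
lemma count_T (Q : ℕ → ℕ → Prop) (c : ℕ) (hQ : Per Q c) (T : Finset ℕ) (hT : ∀ p ∈ T, p.Prime) (M : ℕ) :
    |(((Icc 1 M).filter (fun m => ∀ p ∈ T, Q p m)).card : ℝ) - M * ∏ p ∈ T, ((nu Q p : ℝ) / p)| ≤
      ∏ p ∈ T, (nu Q p : ℝ) := by
  have h3 := Pool.Agent.H373R2.T7.count_sys (fun p a => Q p a) M T hT 1 le_rfl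
    (fun p hp hd => (hT p hp).one_lt.ne' (Nat.dvd_one.1 hd)) 0
  have e1 : (Icc 1 M).filter (fun m => ∀ p ∈ T, Q p m) =
      (Icc 1 M).filter (fun n => n ≡ 0 [MOD 1] ∧ ∀ p ∈ T, Q p (n % p)) := by
    apply filter_congr
    intro n _
    constructor
    · intro h
      exact ⟨Nat.modEq_one, fun p hp => (hQ.per p n).1 (h p hp)⟩
    · rintro ⟨_, h⟩ p hp
      exact (hQ.per p n).2 (h p hp)
  rw [e1]
  rw [Nat.cast_one, div_one] at h3
  have e2 : ∀ p, nu Q p = ((range p).filter (fun a => Q p a)).card := fun p => rfl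
  simp only [e2]
  exact h3

lemma ev_pow (a : ℕ) (M : ℝ) (hM : 0 < M) : ∀ᶠ y : ℕ in atTop, M * Real.log y ^ a ≤ √(y : ℝ) := by
  have h1 := (isLittleO_log_rpow_rpow_atTop (a : ℝ) (show (0 : ℝ) < 1 / 2 by norm_num)).def
    (show (0 : ℝ) < 1 / M by positivity)
  have h2 := (tendsto_natCast_atTop_atTop (R := ℝ)).eventually h1
  filter_upwards [h2, eventually_ge_atTop 1] with y hy hy1
  have hyr : (1 : ℝ) ≤ y := by exact_mod_cast hy1
  have hl : 0 ≤ Real.log (y : ℝ) := Real.log_nonneg hyr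
  rw [Real.rpow_natCast, Real.norm_of_nonneg (by positivity), Real.norm_of_nonneg (by positivity),
    ← Real.sqrt_eq_rpow, div_mul_eq_mul_div, one_mul, le_div_iff₀ hM] at hy
  linarith

open Classical in
/-- the fundamental lemma without weights -/
theorem fund (c : ℕ) : ∃ (K x0 : ℕ) (a : ℝ), 0 < a ∧ 1 ≤ K ∧ ∀ x y : ℕ, x0 ≤ y → y ^ K ≤ x →
    ∀ Q : ℕ → ℕ → Prop, Per Q c → (∀ p : ℕ, p.Prime → nu Q p < p) →
    a * (x / Real.log y ^ (2 * c)) ≤ (((Icc 1 x).filter (fun n : ℕ => ∀ p ∈ pz y, ¬ Q p n)).card : ℝ) := by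
  obtain ⟨C0, hC0, hFL⟩ := Pool.Agent.H20R2.fLem c
  obtain ⟨v, hv, hV⟩ := dens_lower c
  obtain ⟨K0, hK0⟩ : ∃ K0 : ℕ, K0 = ∏ p ∈ pz C0, p := ⟨_, rfl⟩
  have hK0pos : 1 ≤ K0 := by
    rw [hK0]
    exact Nat.pos_of_ne_zero (prod_ne_zero_iff.2 fun p hp => (mem_pz.1 hp).2.ne_zero)
  have hK0r : (0 : ℝ) < K0 := by exact_mod_cast hK0pos
  obtain ⟨x1, hx1⟩ := eventually_atTop.1 ((ev_pow (2 * c + 1) (24 * K0 / v) (by positivity)).and
    (eventually_ge_atTop (C0 + 3)))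
  refine ⟨4 * (C0 * C0) + 1, x1, v / (4 * K0), by positivity, by omega, fun x y hy hyx Q hQ hadm => ?_⟩
  obtain ⟨g1, g2⟩ := hx1 y hy
  have hyr : (3 : ℝ) ≤ y := by exact_mod_cast (by omega : 3 ≤ y)
  obtain ⟨L, hL⟩ : ∃ L : ℝ, L = Real.log y := ⟨_, rfl⟩
  have hL1 : 1 ≤ L := by
    rw [hL, Real.le_log_iff_exp_le (by linarith)]
    have := Real.exp_one_lt_d9
    linarith
  rw [← hL] at g1 ⊢
  obtain ⟨J, hJ⟩ : ∃ J, J = JJ y := ⟨_, rfl⟩
  obtain ⟨D, hD⟩ : ∃ D : ℕ, D = (2 ^ 2 ^ J) ^ (C0 * C0) := ⟨_, rfl⟩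
  obtain ⟨P, hP⟩ : ∃ P : Finset ℕ, P = (pz y).filter (fun p => C0 < p) := ⟨_, rfl⟩
  have hPp : ∀ p ∈ P, p.Prime ∧ C0 < p ∧ p ≤ 2 ^ 2 ^ J := by
    intro p hp
    rw [hP, mem_filter] at hp
    refine ⟨(mem_pz.1 hp.1).2, hp.2, ?_⟩
    rw [hJ]
    exact (mem_pz.1 hp.1).1.trans (JJ_lt y).le
  -- a residue class which avoids the conditions at the small primes
  have hex : ∀ p : ℕ, ∃ r : ℕ, p.Prime → r < p ∧ ¬ Q p r := by
    intro p
    by_cases hp : p.Prime
    · have h1 := hadm p hp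
      by_contra hcon
      push Not at hcon
      have h2 : nu Q p = p := by
        unfold nu
        rw [Finset.filter_true_of_mem, card_range]
        intro r hr
        exact (hcon r).2 (mem_range.1 hr)
      omega
    · exact ⟨0, fun h => absurd h hp⟩
  choose rr hrr using hex
  obtain ⟨n1, hn1⟩ := Nat.chineseRemainderOfFinset rr (fun p => p) (pz C0)
    (fun p hp => (mem_pz.1 hp).2.ne_zero)
    (fun p hp q hq hpq => (Nat.coprime_primes (mem_pz.1 (by simpa using hp)).2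
      (mem_pz.1 (by simpa using hq)).2).2 hpq)
  have key := hFL C0 J C0 P (fun p => (nu Q p : ℝ) / p) le_rfl le_rfl hPp (fun p hp => by
      have hp0 : (0 : ℝ) < p := by exact_mod_cast (hPp p hp).1.pos
      have hp1 : (1 : ℝ) < p := by exact_mod_cast (hPp p hp).1.one_lt
      refine ⟨by positivity, ?_⟩
      apply div_le_div₀ (Nat.cast_nonneg _) (by exact_mod_cast hQ.few p (hPp p hp).1) (by linarith)
        (by linarith))
    ((Icc 1 x).filter (fun n => n ≡ n1 [MOD K0])) (fun _ => (1 : ℝ)) Q (x / K0) (fun _ => (D : ℝ))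
    (fun _ _ => zero_le_one) (by positivity) (by
      intro T hT hTD
      have hTp : ∀ p ∈ T, p.Prime := fun p hp => (hPp p (hT hp)).1
      have hTK : ∀ p ∈ T, ¬ p ∣ K0 := by
        intro p hp hd
        rw [hK0] at hd
        obtain ⟨q, hq, hpq⟩ := (Nat.Prime.prime (hTp p hp)).exists_mem_finset_dvd hd
        have e1 := (Nat.prime_dvd_prime_iff_eq (hTp p hp) (mem_pz.1 hq).2).1 hpq
        have e2 := (mem_pz.1 hq).1
        have e3 := (hPp p (hT hp)).2.1
        omega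
      have h3 := Pool.Agent.H373R2.T7.count_sys (fun p a => Q p a) x T hTp K0 hK0pos hTK n1
      have e1 : ∑ m ∈ ((Icc 1 x).filter (fun n => n ≡ n1 [MOD K0])).filter (fun m => ∀ p ∈ T, Q p m), (1 : ℝ) =
          (((Icc 1 x).filter (fun n => n ≡ n1 [MOD K0] ∧ ∀ p ∈ T, Q p (n % p))).card : ℝ) := by
        rw [sum_const, nsmul_eq_mul, mul_one, filter_filter]
        congr 2
        apply filter_congr
        intro n _
        apply and_congr Iff.rfl
        constructor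
        · intro h p hp
          exact (hQ.per p n).1 (h p hp)
        · intro h p hp
          exact (hQ.per p n).2 (h p hp)
      rw [e1]
      have e2 : ∀ p, nu Q p = ((range p).filter (fun a => Q p a)).card := fun p => rfl
      simp only [e2]
      refine h3.trans ?_
      have h5 : ∏ p ∈ T, (((range p).filter (fun a => Q p a)).card : ℝ) ≤ ∏ p ∈ T, (p : ℝ) := by
        apply prod_le_prod (fun _ _ => Nat.cast_nonneg _)
        intro p hp
        exact_mod_cast nu_le Q p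
      refine h5.trans ?_
      have h6 : ((∏ p ∈ T, p : ℕ) : ℝ) ≤ D := by
        rw [hD]
        exact_mod_cast hTD
      push_cast at h6
      exact h6)
  obtain ⟨Vp, hVp⟩ : ∃ Vp : ℝ, Vp = ∏ p ∈ P, (1 - (nu Q p : ℝ) / p) := ⟨_, rfl⟩
  rw [← hVp] at key
  have hsum : ∑ m ∈ ((Icc 1 x).filter (fun n => n ≡ n1 [MOD K0])).filter (fun m => ∀ p ∈ P, ¬ Q p m), (1 : ℝ) ≤
      (((Icc 1 x).filter (fun n : ℕ => ∀ p ∈ pz y, ¬ Q p n)).card : ℝ) := by
    rw [sum_const, nsmul_eq_mul, mul_one]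
    apply Nat.cast_le.2
    apply card_le_card
    intro n hn
    rw [mem_filter, mem_filter] at hn
    rw [mem_filter]
    refine ⟨hn.1.1, fun p hp hQp => ?_⟩
    obtain ⟨b1, b2⟩ := mem_pz.1 hp
    rcases Nat.lt_or_ge C0 p with h | h
    · exact hn.2 p (by rw [hP]; exact mem_filter.2 ⟨hp, h⟩) hQp
    · have hp2 : p ∈ pz C0 := mem_pz.2 ⟨h, b2⟩
      have h1 := hn1 p hp2
      have h2 : n ≡ n1 [MOD p] := hn.1.2.of_dvd (by rw [hK0]; exact dvd_prod_of_mem _ hp2)
      have h3 : n % p = rr p := by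
        have h4 : n % p = rr p % p := h2.trans h1
        rw [h4, Nat.mod_eq_of_lt (hrr p b2).1]
      rw [hQ.per, h3] at hQp
      exact (hrr p b2).2 hQp
  refine le_trans ?_ hsum
  have hVlow : v / L ^ (2 * c) ≤ Vp := by
    have h1 := hV Q hQ hadm y (by omega)
    rw [← hL] at h1
    refine h1.trans ?_
    unfold dens
    rw [hVp]
    apply prod_anti
    · rw [hP]
      exact filter_subset _ _
    · intro p hp
      exact fac_nonneg Q p (mem_pz.1 hp).2
    · intro p hp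
      have hp0 : (0 : ℝ) < p := by exact_mod_cast (mem_pz.1 hp).2.pos
      have : 0 ≤ (nu Q p : ℝ) / p := by positivity
      linarith
  have hVp0 : 0 ≤ Vp := le_trans (by positivity) hVlow
  have hhalf : (1 / 2 : ℝ) ^ C0 ≤ 1 / 2 := by
    calc (1 / 2 : ℝ) ^ C0 ≤ (1 / 2 : ℝ) ^ 1 := pow_le_pow_of_le_one (by norm_num) (by norm_num) hC0
      _ = 1 / 2 := pow_one _
  have hA0 : 0 ≤ (x : ℝ) / K0 * Vp := by positivity
  -- the error
  have herr : ((J : ℝ) + 2) * ∑ T ∈ P.powerset.filter (fun T : Finset ℕ => ∏ p ∈ T, p ≤ (2 ^ 2 ^ J) ^ (C0 * C0)), (D : ℝ) ≤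
      1 / 4 * ((x : ℝ) / K0 * Vp) := by
    rw [sum_const, nsmul_eq_mul]
    have h1 := card_small P (fun p hp => (hPp p hp).1) ((2 ^ 2 ^ J) ^ (C0 * C0))
    rw [← hD] at h1 ⊢
    have h2 : (((P.powerset.filter (fun T : Finset ℕ => ∏ p ∈ T, p ≤ D)).card : ℕ) : ℝ) ≤ D := by exact_mod_cast h1
    have hDy : (D : ℝ) ≤ (y : ℝ) ^ (2 * (C0 * C0)) := by
      have h3 : D ≤ (y ^ 2) ^ (C0 * C0) := by
        rw [hD, hJ]
        exact Nat.pow_le_pow_left (JJ_le y (by omega)) _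
      rw [← pow_mul] at h3
      exact_mod_cast h3
    have hJL : (J : ℝ) + 2 ≤ 6 * L := by
      rw [hJ, hL]
      exact JJ_log y (by omega)
    have hD0 : (0 : ℝ) ≤ D := Nat.cast_nonneg _
    have hxr : (y : ℝ) ^ (4 * (C0 * C0) + 1) ≤ x := by exact_mod_cast hyx
    have h4 : ((J : ℝ) + 2) * ((((P.powerset.filter (fun T : Finset ℕ => ∏ p ∈ T, p ≤ D)).card : ℕ) : ℝ) * D) ≤
        6 * L * ((y : ℝ) ^ (2 * (C0 * C0)) * (y : ℝ) ^ (2 * (C0 * C0))) := by
      apply mul_le_mul hJL _ (by positivity) (by positivity)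
      exact mul_le_mul (h2.trans hDy) hDy hD0 (by positivity)
    refine h4.trans ?_
    rw [← pow_add, show 2 * (C0 * C0) + 2 * (C0 * C0) = 4 * (C0 * C0) by ring]
    obtain ⟨Z, hZ⟩ : ∃ Z : ℝ, Z = (y : ℝ) ^ (4 * (C0 * C0)) := ⟨_, rfl⟩
    have hZ0 : 0 ≤ Z := by rw [hZ]; positivity
    rw [pow_succ, ← hZ] at hxr
    rw [← hZ]
    have hsq : √(y : ℝ) ≤ y := by
      rw [Real.sqrt_le_left (by linarith)]
      nlinarith
    have h5 : 24 * K0 * L ^ (2 * c + 1) ≤ v * y := by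
      have h6 := g1.trans hsq
      rw [div_mul_eq_mul_div, div_le_iff₀ hv] at h6
      linarith
    have h6 : (x : ℝ) / K0 * (v / L ^ (2 * c)) ≤ x / K0 * Vp := mul_le_mul_of_nonneg_left hVlow (by positivity)
    have h7 : Z * y / K0 * (v / L ^ (2 * c)) ≤ (x : ℝ) / K0 * (v / L ^ (2 * c)) := by
      apply mul_le_mul_of_nonneg_right _ (by positivity)
      exact div_le_div_of_nonneg_right hxr hK0r.le
    have h8 : 24 * (L * Z) ≤ Z * y / K0 * (v / L ^ (2 * c)) := by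
      rw [div_mul_div_comm, le_div_iff₀ (by positivity)]
      have h9 := mul_le_mul_of_nonneg_left h5 hZ0
      rw [pow_succ] at h9
      linarith
    linarith
  have h1 := (abs_le.1 key).1
  have h2 : (1 / 2 : ℝ) ^ C0 * ((x : ℝ) / K0 * Vp) ≤ 1 / 2 * ((x : ℝ) / K0 * Vp) :=
    mul_le_mul_of_nonneg_right hhalf hA0
  have h3 : v / (4 * K0) * (x / L ^ (2 * c)) ≤ 1 / 4 * ((x : ℝ) / K0 * Vp) := by
    have h4 : (x : ℝ) / K0 * (v / L ^ (2 * c)) ≤ x / K0 * Vp := mul_le_mul_of_nonneg_left hVlow (by positivity)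
    calc v / (4 * K0) * (x / L ^ (2 * c)) = 1 / 4 * ((x : ℝ) / K0 * (v / L ^ (2 * c))) := by
          field_simp
      _ ≤ _ := by linarith
  linarith

end Pool.Agent.Run7.h63.XP
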