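import Pool.Agent.R463.EI1
import Pool.Agent.Run7.h63.XPBase

set_option autoImplicit false

/-!
# Covering all but few positions of a window, with protected positions

The covering of `Pool.Agent.R463.EI3` (helper463) for an arbitrary admissible set of protected positions.
-/

namespace Pool.Agent.Run7.h63.XP

open Finset Filter
open Pool.Agent.R463.EI

/-- the set of shifts misses a class modulo every prime -/
def Adm (H : Finset ℕ) : Prop := ∀ p : ℕ, p.Prime → ∃ a : ℕ, ∀ h ∈ H, ¬ h ≡ a [MOD p]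

/-- Rankin's function, in terms of `y ≈ log X` -/
noncomputable def Rk (y : ℕ) : ℝ :=
  y * Real.log y * Real.log (Real.log (Real.log y)) / Real.log (Real.log y) ^ 2

/-- the sieve conditions for `n + h`, `h ∈ H`, along the progression `a + W m` -/
def hit (W a : ℕ) (H : Finset ℕ) (p m : ℕ) : Prop := ¬ p ∣ W ∧ ∃ h ∈ H, p ∣ a + h + W * m

lemma one_root (W a p : ℕ) (hp : p.Prime) (hW : ¬ p ∣ W) [DecidablePred fun r => p ∣ a + W * r] :
    ((range p).filter (fun r => p ∣ a + W * r)).card ≤ 1 := by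
  rw [card_le_one]
  intro r hr r' hr'
  rw [mem_filter, mem_range] at hr hr'
  have h1 : a + W * r ≡ a + W * r' [MOD p] :=
    ((Nat.modEq_zero_iff_dvd).2 hr.2).trans ((Nat.modEq_zero_iff_dvd).2 hr'.2).symm
  have h2 : W * r ≡ W * r' [MOD p] := Nat.ModEq.add_left_cancel' a h1
  have h3 : r ≡ r' [MOD p] := Nat.ModEq.cancel_left_of_coprime ((Nat.Prime.coprime_iff_not_dvd hp).2 hW) h2
  exact Nat.ModEq.eq_of_lt_of_lt h3 hr.1 hr'.1

lemma per_hit (W a : ℕ) (H : Finset ℕ) (k : ℕ) (hk : H.card ≤ k) : Per (hit W a H) k := by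
  classical
  constructor
  · intro p n
    have h1 : W * n ≡ W * (n % p) [MOD p] := (Nat.mod_modEq n p).symm.mul_left W
    unfold hit
    apply and_congr Iff.rfl
    apply exists_congr
    intro h
    apply and_congr Iff.rfl
    exact Nat.ModEq.dvd_iff (h1.add_left (a + h)) (Nat.dvd_refl p)
  · intro p hp
    unfold nu
    by_cases hW : p ∣ W
    · have : (range p).filter (fun r => hit W a H p r) = ∅ := by
        rw [Finset.filter_eq_empty_iff]
        intro r _ hr
        exact hr.1 hW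
      have h2 : ((range p).filter (fun r => hit W a H p r)).card ≤ k := by
        rw [this, card_empty]
        exact Nat.zero_le _
      convert h2
    · have h2 : (range p).filter (fun r => hit W a H p r) ⊆
          H.biUnion (fun h => (range p).filter (fun r => p ∣ a + h + W * r)) := by
        intro r hr
        rw [mem_filter] at hr
        obtain ⟨h, hh, hd⟩ := hr.2.2
        rw [mem_biUnion]
        exact ⟨h, hh, mem_filter.2 ⟨hr.1, hd⟩⟩
      have h3 : ((range p).filter (fun r => hit W a H p r)).card ≤ k := by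
        refine (card_le_card h2).trans (card_biUnion_le.trans ?_)
        calc ∑ h ∈ H, ((range p).filter (fun r => p ∣ a + h + W * r)).card ≤ ∑ _h ∈ H, 1 :=
              sum_le_sum fun h _ => one_root W (a + h) p hp hW
          _ ≤ k := by
              rw [sum_const, smul_eq_mul, mul_one]
              exact hk
      convert h3

/-- `W = 1`, `a = 0` gives the conditions of `H`; admissibility -/
lemma adm_one (H : Finset ℕ) (hH : Adm H) (p : ℕ) (hp : p.Prime) : nu (hit 1 0 H) p < p := by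
  classical
  obtain ⟨a, ha⟩ := hH p hp
  obtain ⟨r, hr⟩ : ∃ r, r = (p - a % p) % p := ⟨_, rfl⟩
  have hrp : r < p := by rw [hr]; exact Nat.mod_lt _ hp.pos
  have h1 : ((range p).filter (fun r => hit 1 0 H p r)).card < (range p).card := by
    apply card_lt_card
    rw [Finset.ssubset_iff_of_subset (filter_subset _ _)]
    refine ⟨r, mem_range.2 hrp, ?_⟩
    rw [mem_filter, not_and]
    rintro - ⟨-, h, hh, hd⟩
    apply ha h hh
    have e1 : r + a ≡ 0 [MOD p] := by
      have h2 : r ≡ p - a % p [MOD p] := by rw [hr]; exact Nat.mod_modEq _ _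
      have h3 : r + a ≡ (p - a % p) + a % p [MOD p] := h2.add (Nat.mod_modEq a p).symm
      rw [Nat.sub_add_cancel (Nat.mod_lt a hp.pos).le] at h3
      exact h3.trans ((Nat.modEq_zero_iff_dvd).2 (Nat.dvd_refl p))
    have e2 : r + h ≡ 0 [MOD p] := by
      rw [Nat.modEq_zero_iff_dvd]
      have e3 : 0 + h + 1 * r = r + h := by ring
      rwa [e3] at hd
    exact Nat.ModEq.add_left_cancel' r (e2.trans e1.symm)
  rw [card_range] at h1
  unfold nu
  convert h1

/-- admissibility along the progression: the small primes divide `W` -/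
lemma adm_hit (W a : ℕ) (H : Finset ℕ) (k : ℕ) (hk : H.card ≤ k) (hW : ∀ p : ℕ, p.Prime → p ≤ k → p ∣ W)
    (p : ℕ) (hp : p.Prime) : nu (hit W a H) p < p := by
  classical
  rcases Nat.lt_or_ge k p with h3 | h3
  · exact lt_of_le_of_lt ((per_hit W a H k hk).few p hp) h3
  · have h5 : nu (hit W a H) p = 0 := by
      unfold nu
      rw [card_eq_zero, Finset.filter_eq_empty_iff]
      intro r _ hr
      exact hr.1 (hW p hp h3)
    rw [h5]
    exact hp.pos

/-- the position of the window -/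
lemma start (k : ℕ) : ∃ y0 : ℕ, ∀ y : ℕ, y0 ≤ y → ∀ H : Finset ℕ, Adm H → H.card ≤ k → ∃ c0 : ℕ,
    1 ≤ c0 ∧ c0 ≤ y ∧ ∀ p : ℕ, p.Prime → (p : ℝ) ≤ Real.log y ^ 4 → ∀ h ∈ H, ¬ p ∣ c0 + h := by
  classical
  obtain ⟨K0, x0, a, ha, hK0, hcount⟩ := fund k
  have hlogy : Tendsto (fun y : ℕ => Real.log (y : ℝ)) atTop atTop :=
    Real.tendsto_log_atTop.comp tendsto_natCast_atTop_atTop
  obtain ⟨y1, hy1⟩ := eventually_atTop.1 ((ev_pow (4 * K0) 1 one_pos).and
    ((hlogy.eventually_ge_atTop (x0 + 3)).and (eventually_ge_atTop 4)))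
  refine ⟨y1, fun y hy H hH hk => ?_⟩
  obtain ⟨g1, g3, g4⟩ := hy1 y hy
  obtain ⟨L, hL⟩ : ∃ L : ℝ, L = Real.log y := ⟨_, rfl⟩
  rw [← hL] at g1 g3 ⊢
  have hx0 : (0 : ℝ) ≤ x0 := Nat.cast_nonneg _
  have hL3 : 3 ≤ L := by linarith
  obtain ⟨v1, hv1⟩ : ∃ v1 : ℕ, v1 = ⌊L ^ 4⌋₊ := ⟨_, rfl⟩
  have hv1le : (v1 : ℝ) ≤ L ^ 4 := by rw [hv1]; exact Nat.floor_le (by positivity)
  have hLL : L ≤ L ^ 4 := by
    have : L ^ 1 ≤ L ^ 4 := pow_le_pow_right₀ (by linarith) (by norm_num)
    linarith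
  have hv1x : x0 ≤ v1 := by
    rw [hv1]
    apply Nat.le_floor
    linarith
  have hv13 : 3 ≤ v1 := by
    rw [hv1]
    apply Nat.le_floor
    push_cast
    linarith
  have hyr : (4 : ℝ) ≤ y := by exact_mod_cast g4
  have hsy : √(y : ℝ) ≤ y := by
    rw [Real.sqrt_le_left (by linarith)]
    nlinarith
  have hpow : v1 ^ K0 ≤ y := by
    have h3 : ((v1 : ℝ)) ^ K0 ≤ y := by
      calc ((v1 : ℝ)) ^ K0 ≤ (L ^ 4) ^ K0 := pow_le_pow_left₀ (Nat.cast_nonneg _) hv1le _
        _ = L ^ (4 * K0) := by rw [← pow_mul]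
        _ ≤ y := by linarith
    exact_mod_cast h3
  have h3 := hcount y v1 hv1x hpow (hit 1 0 H) (per_hit 1 0 H k hk) (adm_one H hH)
  have hlv0 : 0 < Real.log v1 := Real.log_pos (by exact_mod_cast (by omega : 1 < v1))
  have h8 : (0 : ℝ) < (((Icc 1 y).filter (fun n : ℕ => ∀ p ∈ pz v1, ¬ hit 1 0 H p n)).card : ℝ) :=
    lt_of_lt_of_le (by positivity) h3
  obtain ⟨n, hn⟩ : ((Icc 1 y).filter (fun n : ℕ => ∀ p ∈ pz v1, ¬ hit 1 0 H p n)).Nonempty := by
    rw [← card_pos]
    exact_mod_cast h8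
  rw [mem_filter, mem_Icc] at hn
  refine ⟨n, hn.1.1, hn.1.2, fun p hp hpL h hh hd => ?_⟩
  have hp1 : p ∈ pz v1 := mem_pz.2 ⟨by
    rw [hv1]
    exact Nat.le_floor hpL, hp⟩
  refine hn.2 p hp1 ⟨?_, h, hh, ?_⟩
  · intro h1
    exact hp.one_lt.ne' (Nat.dvd_one.1 h1)
  · rwa [show 0 + h + 1 * n = n + h by ring]

lemma ev_cov (C : ℝ) (hC : 0 < C) (M : ℝ) : ∀ᶠ y : ℕ in atTop, 16 ≤ Real.log (y : ℝ) ∧
    2 ≤ Real.log (Real.log (y : ℝ)) ∧ 1 ≤ Real.log (Real.log (Real.log (y : ℝ))) ∧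
    C * Real.log (Real.log (y : ℝ)) ^ 2 ≤ Real.log y ∧ Real.log y ≤ y ∧ M ≤ Real.log (y : ℝ) := by
  have hlogy : Tendsto (fun y : ℕ => Real.log (y : ℝ)) atTop atTop :=
    Real.tendsto_log_atTop.comp tendsto_natCast_atTop_atTop
  have hll : Tendsto (fun y : ℕ => Real.log (Real.log (y : ℝ))) atTop atTop :=
    Real.tendsto_log_atTop.comp hlogy
  have hlll : Tendsto (fun y : ℕ => Real.log (Real.log (Real.log (y : ℝ)))) atTop atTop :=
    Real.tendsto_log_atTop.comp hll
  have h1 : (fun x : ℝ => Real.log x ^ 2) =o[atTop] (fun x : ℝ => x) := by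
    have := isLittleO_log_rpow_rpow_atTop (2 : ℝ) (show (0 : ℝ) < 1 by norm_num)
    refine this.congr (fun x => ?_) (fun x => ?_)
    · exact_mod_cast Real.rpow_natCast (Real.log x) 2
    · simp
  have h2 := (h1.comp_tendsto hlogy).bound (show (0 : ℝ) < 1 / C by positivity)
  filter_upwards [hlogy.eventually_ge_atTop 16, hll.eventually_ge_atTop 2, hlll.eventually_ge_atTop 1, h2,
    eventually_ge_atTop 2, hlogy.eventually_ge_atTop M] with y g1 g2 g3 g4 g5 g6
  refine ⟨g1, g2, g3, ?_, ?_, g6⟩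
  · simp only [Function.comp_def] at g4
    rw [Real.norm_of_nonneg (by positivity), Real.norm_of_nonneg (by linarith), div_mul_eq_mul_div, one_mul,
      le_div_iff₀ (by positivity)] at g4
    linarith
  · have hy2r : (2 : ℝ) ≤ y := by exact_mod_cast g5
    have := Real.log_le_sub_one_of_pos (show (0 : ℝ) < y by linarith)
    linarith

open Classical in
/-- **The covering.** -/
theorem cover (k : ℕ) (δ : ℝ) (hδ : 0 < δ) : ∃ c : ℝ, 0 < c ∧ ∃ y₀ : ℕ, ∀ y : ℕ, y₀ ≤ y → ∀ D : ℝ,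
    1 ≤ D → D ≤ Real.log y → ∀ T : ℕ, (T : ℝ) ≤ c * (Rk y * D) → ∀ H : Finset ℕ, Adm H → H.card ≤ k →
    (∀ h ∈ H, h ≤ T) →
    ∃ (P : Finset ℕ) (n0 : ℕ), (∀ p ∈ P, p.Prime ∧ p ≤ y) ∧
      (∀ p : ℕ, p.Prime → (p : ℝ) ≤ Real.log y ^ 4 → p ≤ y → p ∈ P) ∧
      (∀ p ∈ P, ∀ h ∈ H, ¬ p ∣ n0 + h) ∧ (T : ℝ) ≤ y * Real.log y ^ 2 ∧
      (((range (T + 1)).filter (fun j => j ∉ H ∧ ∀ p ∈ P, ¬ p ∣ n0 + j)).card : ℝ) ≤
        δ * D * (y / Real.log y) := by
  choose C hC y1 hrs using rsurv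
  obtain ⟨C', hC'⟩ : ∃ C' : ℝ, C' = ∑ K ∈ range (k + 1), C K := ⟨_, rfl⟩
  obtain ⟨y1', hy1'⟩ : ∃ y1' : ℕ, y1' = ∑ K ∈ range (k + 1), y1 K := ⟨_, rfl⟩
  have hC'0 : 0 < C' := by
    rw [hC']
    exact sum_pos (fun K _ => hC K) ⟨0, by simp⟩
  obtain ⟨y2, hstart⟩ := start k
  obtain ⟨y4, hy4⟩ := eventually_atTop.1 (ev_cov (2 * C' / δ) (by positivity) (k + 1))
  refine ⟨min 1 (δ / (2 * C')), by positivity, max (max y1' y2) (max y4 3), ?_⟩
  intro y hy D hD1 hDL T hTR H hH hHk hHT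
  have k1' : y1' ≤ y := ((le_max_left _ _).trans (le_max_left _ _)).trans hy
  have k2 : y2 ≤ y := ((le_max_right _ _).trans (le_max_left _ _)).trans hy
  have k4 : y4 ≤ y := ((le_max_left _ _).trans (le_max_right _ _)).trans hy
  have k5 : 3 ≤ y := ((le_max_right _ _).trans (le_max_right _ _)).trans hy
  have k1 : y1 H.card ≤ y := by
    refine le_trans ?_ k1'
    rw [hy1']
    exact single_le_sum (f := y1) (fun _ _ => Nat.zero_le _) (mem_range.2 (by omega))
  have hCC : C H.card ≤ C' := by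
    rw [hC']
    exact single_le_sum (f := C) (fun K _ => (hC K).le) (mem_range.2 (by omega))
  obtain ⟨g1, g2, g3, g4, g5, g6⟩ := hy4 y k4
  obtain ⟨c0, a1, a2, a3⟩ := hstart y k2 H hH hHk
  unfold Rk at hTR
  obtain ⟨L, hL⟩ : ∃ L : ℝ, L = Real.log y := ⟨_, rfl⟩
  rw [← hL] at g1 g2 g3 g4 g5 g6 a3 hTR hDL ⊢
  obtain ⟨l, hl⟩ : ∃ l : ℝ, l = Real.log L := ⟨_, rfl⟩
  rw [← hl] at g2 g3 g4 hTR
  obtain ⟨r, hr⟩ : ∃ r : ℝ, r = Real.log l := ⟨_, rfl⟩
  rw [← hr] at g3 hTR
  have hyr : (3 : ℝ) ≤ y := by exact_mod_cast k5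
  have hL0 : 0 < L := by linarith
  have hl0 : 0 < l := by linarith
  have hr0 : 0 < r := by linarith
  have hD0 : 0 < D := by linarith
  have hrl : r ≤ l := by
    have := Real.log_le_sub_one_of_pos hl0
    linarith
  -- the size of `T`
  have hT1 : (T : ℝ) ≤ y * L ^ 2 / 2 := by
    refine hTR.trans ?_
    calc min 1 (δ / (2 * C')) * (y * L * r / l ^ 2 * D) ≤ 1 * (y * L * r / l ^ 2 * D) := by
          apply mul_le_mul_of_nonneg_right (min_le_left _ _)
          positivity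
      _ = y * L * (r / l ^ 2 * D) := by ring
      _ ≤ y * L * (1 / 2 * L) := by
          apply mul_le_mul_of_nonneg_left _ (by positivity)
          apply mul_le_mul _ hDL hD0.le (by norm_num)
          rw [div_le_div_iff₀ (by positivity) (by norm_num)]
          nlinarith
      _ = _ := by ring
  have hT2 : C' * T * l ^ 2 / (L ^ 2 * r) ≤ δ / 2 * D * (y / L) := by
    have e1 : (T : ℝ) ≤ δ / (2 * C') * (y * L * r / l ^ 2 * D) := by
      refine hTR.trans ?_
      apply mul_le_mul_of_nonneg_right (min_le_right _ _)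
      positivity
    calc C' * T * l ^ 2 / (L ^ 2 * r) ≤ C' * (δ / (2 * C') * (y * L * r / l ^ 2 * D)) * l ^ 2 / (L ^ 2 * r) := by
          gcongr
      _ = δ / 2 * D * (y / L) := by
          field_simp
  have hT3 : C' * y * l ^ 2 / (L ^ 2 * r) ≤ δ / 2 * D * (y / L) := by
    rw [div_mul_eq_mul_div] at g4
    have e0 : 2 * C' * l ^ 2 ≤ L * δ := by
      rwa [div_le_iff₀ hδ] at g4
    have e1 : 2 * C' * l ^ 2 ≤ L * δ * (r * D) := by
      have h1 : 1 ≤ r * D := one_le_mul_of_one_le_of_one_le g3 hD1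
      have h2 : 0 ≤ L * δ := by positivity
      nlinarith
    rw [div_le_iff₀ (by positivity)]
    have e2 : δ / 2 * D * (y / L) * (L ^ 2 * r) = y * (L * δ * (r * D)) / 2 := by
      field_simp
    rw [e2]
    have e3 := mul_le_mul_of_nonneg_left e1 (show (0 : ℝ) ≤ y by linarith)
    linarith
  obtain ⟨H', hH'⟩ : ∃ H', H' = y + T := ⟨_, rfl⟩
  have hyH : y ≤ H' := by omega
  have hL2 : (2 : ℝ) ≤ L ^ 2 := by nlinarith
  have hHy : (H' : ℝ) ≤ y * L ^ 2 := by
    rw [hH']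
    push_cast
    nlinarith
  -- the exceptional primes
  obtain ⟨N, hN⟩ : ∃ N : ℕ, N = ∏ h ∈ H, (c0 + h) := ⟨_, rfl⟩
  have hN0 : 0 < N := by
    rw [hN]
    exact prod_pos fun h _ => by omega
  obtain ⟨S, hS⟩ : ∃ S : Finset ℕ, S = N.primeFactors.filter (fun p => p ≤ y) := ⟨_, rfl⟩
  have hSmem : ∀ q, q ∈ S ↔ q.Prime ∧ q ∣ N ∧ q ≤ y := by
    intro q
    rw [hS, mem_filter, Nat.mem_primeFactors]
    constructor
    · rintro ⟨⟨b1, b2, _⟩, b3⟩
      exact ⟨b1, b2, b3⟩
    · rintro ⟨b1, b2, b3⟩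
      exact ⟨⟨b1, b2, hN0.ne'⟩, b3⟩
  have hSbig : ∀ q ∈ S, L ^ 4 < (q : ℝ) := by
    intro q hq
    by_contra hcon
    push Not at hcon
    obtain ⟨b1, b2, b3⟩ := (hSmem q).1 hq
    rw [hN] at b2
    obtain ⟨h, hh, hd⟩ := (Nat.Prime.prime b1).exists_mem_finset_dvd b2
    exact a3 q b1 hcon h hh hd
  have hL16 : (16 : ℝ) ≤ L ^ 4 := by
    have : (16 : ℝ) ^ 4 ≤ L ^ 4 := pow_le_pow_left₀ (by norm_num) g1 4
    linarith
  have hS2 : ∀ q ∈ S, q.Prime ∧ 2 < q := by
    intro q hq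
    refine ⟨((hSmem q).1 hq).1, ?_⟩
    have := hSbig q hq
    have h3 : (2 : ℝ) < q := by linarith
    exact_mod_cast h3
  have hSsum : ∑ q ∈ S, (1 : ℝ) / q ≤ 12 / (Real.log y) ^ 2 := by
    rw [← hL]
    have e1 : ∑ q ∈ S, (1 : ℝ) / q ≤ ∑ _q ∈ S, 1 / L ^ 4 := by
      apply Finset.sum_le_sum
      intro q hq
      exact one_div_le_one_div_of_le (by positivity) (hSbig q hq).le
    rw [Finset.sum_const, nsmul_eq_mul] at e1
    have e2 : (S.card : ℝ) ≤ 8 * k * L := by
      have f1 : S.card ≤ N.primeFactors.card := by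
        rw [hS]
        exact card_filter_le _ _
      have f2 := Pool.Agent.H398R2.RK.card_primeFactors_le N hN0
      have f3 : Real.log (N : ℝ) ≤ 4 * k * L := by
        have f4 : (N : ℝ) ≤ (y : ℝ) ^ (4 * k) := by
          rw [hN]
          push_cast
          have f5 : ∏ h ∈ H, ((c0 : ℝ) + h) ≤ ∏ _h ∈ H, (y : ℝ) ^ 4 := by
            apply prod_le_prod (fun h _ => by positivity)
            intro h hh
            have f6 : (c0 : ℝ) + h ≤ H' := by
              have := hHT h hh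
              rw [hH']
              exact_mod_cast (by omega : c0 + h ≤ y + T)
            have f7 : (y : ℝ) * L ^ 2 ≤ y ^ 4 := by
              calc (y : ℝ) * L ^ 2 ≤ y * y ^ 2 := by
                    apply mul_le_mul_of_nonneg_left _ (by linarith)
                    exact pow_le_pow_left₀ hL0.le g5 2
                _ = (y : ℝ) ^ 3 := by ring
                _ ≤ (y : ℝ) ^ 4 := pow_le_pow_right₀ (by linarith) (by norm_num)
            linarith
          rw [prod_const, ← pow_mul] at f5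
          refine f5.trans (pow_le_pow_right₀ (by linarith) ?_)
          omega
        have f9 := Real.log_le_log (by exact_mod_cast hN0) f4
        rw [Real.log_pow, ← hL] at f9
        push_cast at f9 ⊢
        linarith
      have f10 : (S.card : ℝ) ≤ (N.primeFactors.card : ℝ) := by exact_mod_cast f1
      linarith
    have hk0 : (0 : ℝ) ≤ k := Nat.cast_nonneg _
    calc ∑ q ∈ S, (1 : ℝ) / q ≤ S.card * (1 / L ^ 4) := e1
      _ ≤ 8 * k * L * (1 / L ^ 4) := mul_le_mul_of_nonneg_right e2 (by positivity)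
      _ = 8 * k / (L * L ^ 2) := by field_simp
      _ ≤ 8 * L / (L * L ^ 2) := by
          apply div_le_div_of_nonneg_right _ (by positivity)
          linarith
      _ = 8 / L ^ 2 := by field_simp
      _ ≤ 12 / L ^ 2 := by gcongr; norm_num
  -- the classes of Rankin
  obtain ⟨e, he⟩ : ∃ e : Fin H.card → ℕ, e = fun j => H.orderEmbOfFin rfl j := ⟨_, rfl⟩
  have heH : ∀ j, e j ∈ H := fun j => by rw [he]; exact Finset.orderEmbOfFin_mem H rfl j
  have heS : ∀ h ∈ H, ∃ j, e j = h := by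
    intro h hh
    have h1 := Finset.range_orderEmbOfFin H rfl
    have h2 : h ∈ Set.range (H.orderEmbOfFin rfl) := by rw [h1]; exact hh
    obtain ⟨j, hj⟩ := h2
    exact ⟨j, by rw [he]; exact hj⟩
  obtain ⟨b, hb1, hb2⟩ := hrs H.card y k1 S 1 hS2 hSsum (Or.inl rfl) H' hyH (by rw [← hL]; exact hHy)
    (fun j => c0 + e j) (by
      intro j
      refine ⟨?_, by have := hHT _ (heH j); omega⟩
      intro p hp hpy hpS _ hd
      apply hpS
      rw [hSmem]
      refine ⟨hp, ?_, hpy⟩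
      rw [hN]
      exact hd.trans (dvd_prod_of_mem (fun h => c0 + h) (heH j)))
  rw [← hL, ← hl, ← hr] at hb2
  -- the residue classes
  obtain ⟨P, hP⟩ : ∃ P : Finset ℕ, P = (Icc 1 y).filter (fun p => p.Prime ∧ p ∉ S) := ⟨_, rfl⟩
  have hPmem : ∀ p, p ∈ P ↔ p.Prime ∧ p ≤ y ∧ p ∉ S := by
    intro p
    rw [hP, mem_filter, mem_Icc]
    constructor
    · rintro ⟨⟨_, b2⟩, b3, b4⟩
      exact ⟨b3, b2, b4⟩
    · rintro ⟨b1, b2, b3⟩
      exact ⟨⟨b1.pos, b2⟩, b1, b3⟩
  obtain ⟨n1, hn1⟩ := Nat.chineseRemainderOfFinset (fun p => p - b p % p) (fun p => p) P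
    (fun p hp => ((hPmem p).1 hp).1.ne_zero)
    (fun p hp q hq hpq => (Nat.coprime_primes ((hPmem p).1 (by simpa using hp)).1
      ((hPmem q).1 (by simpa using hq)).1).2 hpq)
  have hkey : ∀ p ∈ P, ∀ j : ℕ, p ∣ n1 + j ↔ j ≡ b p [MOD p] := by
    intro p hp j
    have h1 := hn1 p hp
    have hlt := Nat.mod_lt (b p) ((hPmem p).1 hp).1.pos
    have h3 : n1 + b p ≡ 0 [MOD p] := by
      have h4 := h1.add_right (b p)
      refine h4.trans ?_
      rw [Nat.modEq_zero_iff_dvd]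
      have h5 : p - b p % p + b p = p + (b p - b p % p) := by
        have := Nat.mod_le (b p) p
        omega
      rw [h5]
      exact (Nat.dvd_refl p).add (Nat.dvd_sub_mod _)
    constructor
    · intro hd
      have h4 : n1 + j ≡ n1 + b p [MOD p] := ((Nat.modEq_zero_iff_dvd).2 hd).trans h3.symm
      exact Nat.ModEq.add_left_cancel' n1 h4
    · intro hs
      have h4 : n1 + j ≡ n1 + b p [MOD p] := Nat.ModEq.add_left n1 hs
      exact (Nat.modEq_zero_iff_dvd).1 (h4.trans h3)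
  refine ⟨P, n1 + c0, fun p hp => ⟨((hPmem p).1 hp).1, ((hPmem p).1 hp).2.1⟩, ?_, ?_, ?_, ?_⟩
  · intro p hp hpL hpy
    rw [hPmem]
    refine ⟨hp, hpy, fun hpS => ?_⟩
    have := hSbig p hpS
    linarith
  · intro p hp h hh
    rw [add_assoc, hkey p hp]
    obtain ⟨j, hj⟩ := heS h hh
    obtain ⟨b1, b2, b3⟩ := (hPmem p).1 hp
    have e1 := (hb1 p b1 b2 b3 b1.one_lt.ne').2 j
    rwa [hj] at e1
  · nlinarith
  · have e1 : (((range (T + 1)).filter (fun j => j ∉ H ∧ ∀ p ∈ P, ¬ p ∣ n1 + c0 + j)).card : ℝ) ≤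
        C H.card * H' * l ^ 2 / (L ^ 2 * r) := by
      refine le_trans ?_ hb2
      apply Nat.cast_le.2
      apply Finset.card_le_card_of_injOn (fun j => c0 + j)
      · intro j hj
        rw [Finset.mem_coe, mem_filter, mem_range] at hj
        rw [Finset.mem_coe, mem_filter, mem_range]
        beta_reduce
        refine ⟨by omega, fun i hi => ?_, fun p hp hpy hpS _ hmod => ?_⟩
        · apply hj.2.1
          have : j = e i := by
            have h1 : c0 + j = c0 + e i := hi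
            omega
          rw [this]
          exact heH i
        · have hpP : p ∈ P := (hPmem p).2 ⟨hp, hpy, hpS⟩
          apply hj.2.2 p hpP
          rw [add_assoc, hkey p hpP]
          exact hmod
      · intro i _ j _ hij
        have h1 : c0 + i = c0 + j := hij
        omega
    refine e1.trans ?_
    have e2 : C H.card * H' * l ^ 2 / (L ^ 2 * r) ≤ C' * H' * l ^ 2 / (L ^ 2 * r) := by
      gcongr
    refine e2.trans ?_
    have e3 : C' * H' * l ^ 2 / (L ^ 2 * r) = C' * y * l ^ 2 / (L ^ 2 * r) + C' * T * l ^ 2 / (L ^ 2 * r) := by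
      rw [hH']
      push_cast
      ring
    rw [e3]
    linarith

end Pool.Agent.Run7.h63.XP
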