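import Pool.Agent.H312R2.RG.VW1
import Pool.Agent.H312R2.RG.V1
import Pool.Agent.Run7.h63.XPCov

set_option autoImplicit false

/-!
# Sums of a function of the colouring over the integers which satisfy given sieve conditions

The model and its estimates are those of `Pool.Agent.H256R2.SC` and `Pool.Agent.H312R2.RG`.
-/

namespace Pool.Agent.Run7.h63.XP

open Finset Filter
open Pool.Agent.H256R2.SC (Col emb emb_mem colr colr_eq ind supp mem_supp Lv Hyp Zs wt)
open Pool.Agent.H312R2.RG (cut pP gP V2 V2_nonneg cut_dev EE_ne_le EEV_le DD mem_DD G_cut EE_cut_eq)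

section
variable {n : ℕ} {κ : Type} [Fintype κ] [DecidableEq κ]

/-- the effect of erasing colours on the mean of the weight -/
theorem cut_est {p g : Fin n → ℝ} {h : Finset (Fin n) → ℝ} {z K : ℝ} (H : Hyp p g h z K) (Q : ℝ)
    (hug : ∀ i, 4 * (Fintype.card κ : ℝ) * g i ≤ 1) (k₀ : κ) (m : Finset (Fin n))
    (hm : 2 * (Fintype.card κ : ℝ) * ∑ i ∈ m, g i ≤ 1) :
    |Pool.Agent.H256R2.SC.EE g (fun x : Col n κ => V2 p g h Q (cut m x)) -
        Pool.Agent.H256R2.SC.EE g (fun x : Col n κ => V2 p g h Q x)| ≤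
      32 * (Fintype.card κ : ℝ) * Real.exp (8 * ∑ i, g i) * (∑ i ∈ m, g i) * Zs κ g h := by
  have hg : ∀ i, 0 ≤ g i := fun i => (H.g0 i).le
  have hu0 : (0 : ℝ) ≤ Fintype.card κ := Nat.cast_nonneg _
  have hug1 : ∀ i, (Fintype.card κ : ℝ) * g i ≤ 1 := fun i => by
    have := hug i
    have h2 : 0 ≤ (Fintype.card κ : ℝ) * g i := mul_nonneg hu0 (hg i)
    nlinarith
  have h1 := cut_dev (κ := κ) g hg hug1 m hm (fun x => V2 p g h Q x) (fun x => V2_nonneg p g h Q x)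
  refine h1.trans ?_
  have h2 := EEV_le (κ := κ) H Q hug1
  obtain ⟨E, hE⟩ : ∃ E : ℝ, E = Real.exp (8 * ∑ i, g i) := ⟨_, rfl⟩
  have hE1 : 1 ≤ E := by
    rw [hE]
    apply Real.one_le_exp
    have := Finset.sum_nonneg (s := univ) (fun i _ => hg i)
    linarith
  have hS0 : 0 ≤ ∑ i ∈ m, g i := Finset.sum_nonneg fun i _ => hg i
  have hZ : 1 ≤ Zs κ g h := Pool.Agent.H256R2.SC.Zs_ge_one H
  have h3 : ∑ i ∈ m, Pool.Agent.H256R2.SC.EE g (fun x : Col n κ => if x i = none then 0 else V2 p g h Q x) ≤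
      ∑ i ∈ m, 30 * (Fintype.card κ : ℝ) * g i * E * Zs κ g h := by
    apply Finset.sum_le_sum
    intro i _
    rw [hE]
    exact EE_ne_le H Q hug k₀ i
  have h4 : ∑ i ∈ m, 30 * (Fintype.card κ : ℝ) * g i * E * Zs κ g h =
      30 * (Fintype.card κ : ℝ) * E * (∑ i ∈ m, g i) * Zs κ g h := by
    rw [Finset.mul_sum, Finset.sum_mul]
    apply Finset.sum_congr rfl
    intro i _
    ring
  rw [h4] at h3
  rw [← hE]
  have h5 : 2 * (Fintype.card κ : ℝ) * (∑ i ∈ m, g i) *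
      Pool.Agent.H256R2.SC.EE g (fun x : Col n κ => V2 p g h Q x) ≤
      2 * (Fintype.card κ : ℝ) * E * (∑ i ∈ m, g i) * Zs κ g h := by
    calc 2 * (Fintype.card κ : ℝ) * (∑ i ∈ m, g i) *
          Pool.Agent.H256R2.SC.EE g (fun x : Col n κ => V2 p g h Q x)
        ≤ 2 * (Fintype.card κ : ℝ) * (∑ i ∈ m, g i) * Zs κ g h :=
          mul_le_mul_of_nonneg_left h2 (by positivity)
      _ = 2 * (Fintype.card κ : ℝ) * (∑ i ∈ m, g i) * Zs κ g h * 1 := by ring
      _ ≤ 2 * (Fintype.card κ : ℝ) * (∑ i ∈ m, g i) * Zs κ g h * E :=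
          mul_le_mul_of_nonneg_left hE1 (by positivity)
      _ = _ := by ring
  have h6 : 32 * (Fintype.card κ : ℝ) * E * (∑ i ∈ m, g i) * Zs κ g h =
      2 * (Fintype.card κ : ℝ) * E * (∑ i ∈ m, g i) * Zs κ g h +
      30 * (Fintype.card κ : ℝ) * E * (∑ i ∈ m, g i) * Zs κ g h := by ring
  rw [h6]
  exact add_le_add h5 h3

end

/-- the indices of the primes in `T` -/
noncomputable def mT (PP T : Finset ℕ) : Finset (Fin PP.card) := univ.filter (fun i => (emb PP i : ℕ) ∈ T)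

/-- the residues killing the shifts `k` -/
def rU (U : Finset ℕ) : ℕ → ↥U → ℤ := fun _ k => -((k : ℕ) : ℤ)

lemma not_dvd_sub {a b p : ℕ} {y : ℝ} (ha : (a : ℝ) ≤ y) (hb : (b : ℝ) ≤ y) (hp : y < p) (hab : a ≠ b) :
    ¬ ((p : ℤ) ∣ (a : ℤ) - b) := by
  intro h
  have h1 : a < p := by exact_mod_cast lt_of_le_of_lt ha hp
  have h2 : b < p := by exact_mod_cast lt_of_le_of_lt hb hp
  have h3 : (a : ℤ) - b = 0 := by
    apply Int.eq_zero_of_abs_lt_dvd h
    rw [abs_lt]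
    constructor <;> omega
  omega

lemma rU_inj {U : Finset ℕ} {y : ℝ} (hU : ∀ k ∈ U, (k : ℝ) ≤ y) {p : ℕ} (hp : y < p)
    (k l : ↥U) (hkl : k ≠ l) : ¬ ((p : ℤ) ∣ rU U p k - rU U p l) := by
  have h1 : rU U p k - rU U p l = ((l : ℕ) : ℤ) - ((k : ℕ) : ℤ) := by
    unfold rU; ring
  rw [h1]
  exact not_dvd_sub (hU l l.2) (hU k k.2) hp (fun h => hkl (Subtype.ext h.symm))

open Classical in
lemma one_root_eq (W a p : ℕ) (hp : p.Prime) (hW : ¬ p ∣ W) :
    ((range p).filter (fun r => p ∣ a + W * r)).card = 1 := by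
  apply le_antisymm (one_root W a p hp hW)
  rw [Nat.one_le_iff_ne_zero, ← Nat.pos_iff_ne_zero, card_pos]
  haveI : Fact p.Prime := ⟨hp⟩
  have hW0 : (W : ZMod p) ≠ 0 := fun h => hW ((ZMod.natCast_eq_zero_iff W p).1 h)
  refine ⟨(-(a : ZMod p) * (W : ZMod p)⁻¹).val, ?_⟩
  rw [mem_filter, mem_range]
  refine ⟨ZMod.val_lt _, ?_⟩
  rw [← ZMod.natCast_eq_zero_iff]
  push_cast
  rw [ZMod.natCast_zmod_val]
  field_simp
  ring

open Classical in
/-- the count of the integers with prescribed colours which satisfy the conditions at the primes of `T` -/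
lemma count_D (PP U T H : Finset ℕ) (y : ℝ) (hPP : ∀ p ∈ PP, p.Prime ∧ y < p) (hU : ∀ u ∈ U, (u : ℝ) ≤ y)
    (W a : ℕ) (hWP : ∀ p ∈ PP, ¬ p ∣ W) (hT : ∀ p ∈ T, p.Prime ∧ ¬ p ∣ W) (M : ℕ)
    (D : Col PP.card ↥U) (hD : D ∈ DD (mT PP T)) :
    |(((((Icc 1 M).filter (fun m => ∀ p ∈ T, hit W a H p m)).filter (fun m => ∀ i, D i ≠ none →
        colr PP (rU U) ((a + W * m : ℕ) : ℤ) i = D i)).card : ℕ) : ℝ) -
      M * (∏ p ∈ T, ((nu (hit W a H) p : ℝ) / p)) * Pool.Agent.H256R2.SC.nu (gP PP) D| ≤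
      ∏ p ∈ T, (nu (hit W a H) p : ℝ) := by
  have hinj : ∀ p ∈ PP, ∀ k l, k ≠ l → ¬ ((p : ℤ) ∣ rU U p k - rU U p l) := fun p hp k l =>
    rU_inj hU (hPP p hp).2 k l
  have hper := (per_hit W a H H.card le_rfl).per
  obtain ⟨E, hE⟩ : ∃ E : Finset ℕ, E = (supp D).image (fun i => (emb PP i : ℕ)) := ⟨_, rfl⟩
  have hEmem : ∀ p, p ∈ E ↔ ∃ i, D i ≠ none ∧ (emb PP i : ℕ) = p := by
    intro p
    rw [hE, mem_image]
    constructor
    · rintro ⟨i, hi, rfl⟩
      exact ⟨i, mem_supp.1 hi, rfl⟩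
    · rintro ⟨i, hi, rfl⟩
      exact ⟨i, mem_supp.2 hi, rfl⟩
  have hDT := mem_DD.1 hD
  have hdisj : Disjoint T E := by
    rw [Finset.disjoint_left]
    intro p hpT hpE
    obtain ⟨i, hi, rfl⟩ := (hEmem p).1 hpE
    exact hi (hDT i (by unfold mT; rw [mem_filter]; exact ⟨mem_univ _, hpT⟩))
  obtain ⟨R, hR⟩ : ∃ R : ℕ → ℕ → Prop, R = fun p r => if p ∈ T then hit W a H p r else
      ∀ i, (emb PP i : ℕ) = p → ∀ u : ↥U, D i = some u → p ∣ a + (u : ℕ) + W * r := ⟨_, rfl⟩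
  have hcs := Pool.Agent.H373R2.T7.count_sys R M (T ∪ E) (fun p hp => by
    rcases mem_union.1 hp with h | h
    · exact (hT p h).1
    · obtain ⟨i, _, rfl⟩ := (hEmem p).1 h
      exact (hPP _ (emb_mem PP i)).1) 1 le_rfl (fun p hp hd => by
    have hpp : p.Prime := by
      rcases mem_union.1 hp with h | h
      · exact (hT p h).1
      · obtain ⟨i, _, rfl⟩ := (hEmem p).1 h
        exact (hPP _ (emb_mem PP i)).1
    exact hpp.one_lt.ne' (Nat.dvd_one.1 hd)) 0
  -- the set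
  have hset : ((Icc 1 M).filter (fun m => ∀ p ∈ T, hit W a H p m)).filter (fun m => ∀ i, D i ≠ none →
        colr PP (rU U) ((a + W * m : ℕ) : ℤ) i = D i) =
      (Icc 1 M).filter (fun m => m ≡ 0 [MOD 1] ∧ ∀ p ∈ T ∪ E, R p (m % p)) := by
    rw [filter_filter]
    apply filter_congr
    intro m _
    have hcol : ∀ i, ∀ u : ↥U, colr PP (rU U) ((a + W * m : ℕ) : ℤ) i = some u ↔
        (emb PP i : ℕ) ∣ a + (u : ℕ) + W * (m % (emb PP i : ℕ)) := by
      intro i u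
      rw [colr_eq hinj]
      have e1 : ((a + W * m : ℕ) : ℤ) - rU U (emb PP i) u = ((a + (u : ℕ) + W * m : ℕ) : ℤ) := by
        unfold rU
        push_cast
        ring
      rw [e1, Int.natCast_dvd_natCast]
      have e2 : a + (u : ℕ) + W * m ≡ a + (u : ℕ) + W * (m % (emb PP i : ℕ)) [MOD (emb PP i : ℕ)] :=
        ((Nat.mod_modEq m _).symm.mul_left W).add_left _
      exact Nat.ModEq.dvd_iff e2 (Nat.dvd_refl _)
    constructor
    · rintro ⟨h1, h2⟩
      refine ⟨Nat.modEq_one, fun p hp => ?_⟩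
      rw [hR]
      beta_reduce
      by_cases hpT : p ∈ T
      · rw [if_pos hpT]
        exact (hper p m).1 (h1 p hpT)
      · rw [if_neg hpT]
        rintro i rfl u hu
        have h3 := h2 i (by rw [hu]; simp)
        rw [hu] at h3
        exact (hcol i u).1 h3
    · rintro ⟨_, h1⟩
      constructor
      · intro p hp
        have h2 := h1 p (mem_union_left _ hp)
        rw [hR] at h2
        beta_reduce at h2
        rw [if_pos hp] at h2
        exact (hper p m).2 h2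
      · intro i hi
        obtain ⟨u, hu⟩ := Option.ne_none_iff_exists'.mp hi
        have hpE : (emb PP i : ℕ) ∈ E := (hEmem _).2 ⟨i, hi, rfl⟩
        have h2 := h1 _ (mem_union_right _ hpE)
        rw [hR] at h2
        beta_reduce at h2
        rw [if_neg (fun h => (Finset.disjoint_left.1 hdisj) h hpE)] at h2
        rw [hu]
        exact (hcol i u).2 (h2 i rfl u hu)
  rw [hset]
  -- the local counts
  have c1 : ∀ p ∈ T, (((range p).filter (fun r => R p r)).card : ℝ) = nu (hit W a H) p := by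
    intro p hp
    unfold nu
    congr 2
    apply filter_congr
    intro r _
    rw [hR]
    beta_reduce
    rw [if_pos hp]
  have c2 : ∀ p ∈ E, (((range p).filter (fun r => R p r)).card : ℝ) = 1 := by
    intro p hp
    obtain ⟨i, hi, rfl⟩ := (hEmem p).1 hp
    obtain ⟨u, hu⟩ := Option.ne_none_iff_exists'.mp hi
    have h1 := one_root_eq W (a + (u : ℕ)) (emb PP i) (hPP _ (emb_mem PP i)).1 (hWP _ (emb_mem PP i))
    have h2 : (range (emb PP i)).filter (fun r => R (emb PP i) r) =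
        (range (emb PP i)).filter (fun r => (emb PP i : ℕ) ∣ a + (u : ℕ) + W * r) := by
      apply filter_congr
      intro r _
      rw [hR]
      beta_reduce
      rw [if_neg (fun h => (Finset.disjoint_left.1 hdisj) h hp)]
      constructor
      · intro h
        exact h i rfl u hu
      · intro h j hj v hv
        have hji : j = i := (emb PP).injective hj
        subst hji
        rw [hu] at hv
        have : u = v := Option.some.inj hv
        rw [← this]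
        exact h
    rw [h2, h1]
    norm_num
  rw [prod_union hdisj, prod_union hdisj, Nat.cast_one, div_one] at hcs
  have e1 : ∏ p ∈ T, ((((range p).filter (fun r => R p r)).card : ℝ) / p) = ∏ p ∈ T, ((nu (hit W a H) p : ℝ) / p) :=
    prod_congr rfl fun p hp => by rw [c1 p hp]
  have e2 : ∏ p ∈ E, ((((range p).filter (fun r => R p r)).card : ℝ) / p) =
      Pool.Agent.H256R2.SC.nu (gP PP) D := by
    rw [prod_congr rfl fun p hp => by rw [c2 p hp], hE, prod_image (fun i _ j _ hij => (emb PP).injective hij)]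
    unfold Pool.Agent.H256R2.SC.nu
    rw [Pool.Agent.H256R2.SC.prod_nu1]
    rfl
  have e3 : ∏ p ∈ T, (((range p).filter (fun r => R p r)).card : ℝ) = ∏ p ∈ T, (nu (hit W a H) p : ℝ) :=
    prod_congr rfl fun p hp => c1 p hp
  have e4 : ∏ p ∈ E, (((range p).filter (fun r => R p r)).card : ℝ) = 1 :=
    prod_eq_one fun p hp => c2 p hp
  rw [e1, e2, e3, e4, mul_one, ← mul_assoc] at hcs
  exact hcs

open Classical in
/-- class sums of a function of the colouring -/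
theorem cls (PP U T H : Finset ℕ) (y : ℝ) (hPP : ∀ p ∈ PP, p.Prime ∧ y < p) (hU : ∀ u ∈ U, (u : ℝ) ≤ y)
    (hH : ∀ h ∈ H, (h : ℝ) ≤ y) (hHU : ∀ h ∈ H, h ∉ U)
    (W a : ℕ) (hWP : ∀ p ∈ PP, ¬ p ∣ W) (hT : ∀ p ∈ T, p.Prime ∧ ¬ p ∣ W)
    (G : Col PP.card ↥U → ℝ) (Q B : ℝ) (hG : Lv (pP PP) Q B G) (M : ℕ) :
    |∑ m ∈ (Icc 1 M).filter (fun m => ∀ p ∈ T, hit W a H p m), G (colr PP (rU U) ((a + W * m : ℕ) : ℤ)) -
      M * (∏ p ∈ T, ((nu (hit W a H) p : ℝ) / p)) *
        Pool.Agent.H256R2.SC.EE (gP PP) (fun x => G (cut (mT PP T) x))| ≤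
      B * ∏ p ∈ T, (nu (hit W a H) p : ℝ) := by
  have hinj : ∀ p ∈ PP, ∀ k l, k ≠ l → ¬ ((p : ℤ) ∣ rU U p k - rU U p l) := fun p hp k l =>
    rU_inj hU (hPP p hp).2 k l
  obtain ⟨f, hf1, hf2, hf3⟩ := hG
  obtain ⟨Ω, hΩ⟩ : ∃ Ω : Finset ℕ, Ω = (Icc 1 M).filter (fun m => ∀ p ∈ T, hit W a H p m) := ⟨_, rfl⟩
  obtain ⟨cnt, hcnt⟩ : ∃ cnt : Col PP.card ↥U → ℝ, cnt = fun D => ((((Ω).filter (fun m => ∀ i, D i ≠ none →
        colr PP (rU U) ((a + W * m : ℕ) : ℤ) i = D i)).card : ℕ) : ℝ) := ⟨_, rfl⟩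
  have h1 : ∑ m ∈ Ω, G (colr PP (rU U) ((a + W * m : ℕ) : ℤ)) = ∑ D, f D * cnt D := by
    simp_rw [hf1]
    rw [Finset.sum_comm]
    apply Finset.sum_congr rfl
    intro D _
    rw [← Finset.mul_sum]
    congr 1
    unfold Pool.Agent.H256R2.SC.ind
    rw [hcnt, Finset.sum_ite, Finset.sum_const_zero, add_zero, Finset.sum_const, nsmul_eq_mul, mul_one]
  have h0 : ∀ D, D ∉ DD (mT PP T) → cnt D = 0 := by
    intro D hD
    rw [mem_DD] at hD
    push Not at hD
    obtain ⟨i, hi, hne⟩ := hD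
    rw [hcnt]
    beta_reduce
    rw [Nat.cast_eq_zero, card_eq_zero, filter_eq_empty_iff]
    intro m hm hcol
    rw [hΩ, mem_filter] at hm
    obtain ⟨u, hu⟩ := Option.ne_none_iff_exists'.mp hne
    have h3 := hcol i hne
    rw [hu, colr_eq hinj] at h3
    unfold mT at hi
    rw [mem_filter] at hi
    obtain ⟨-, h, hh, hd⟩ := hm.2 _ hi.2
    have h4 : (((emb PP i : ℕ) : ℕ) : ℤ) ∣ ((a + h + W * m : ℕ) : ℤ) := by exact_mod_cast hd
    have h5 := dvd_sub h4 h3
    have h6 : ((a + h + W * m : ℕ) : ℤ) - (((a + W * m : ℕ) : ℤ) - rU U (emb PP i) u) = (h : ℤ) - ((u : ℕ) : ℤ) := by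
      unfold rU
      push_cast
      ring
    rw [h6] at h5
    exact not_dvd_sub (hH h hh) (hU u u.2) (hPP _ (emb_mem PP i)).2 (fun h7 => hHU h hh (h7 ▸ u.2)) h5
  have h2 : ∑ D, f D * cnt D = ∑ D ∈ DD (mT PP T), f D * cnt D := by
    symm
    apply Finset.sum_subset (Finset.subset_univ _)
    intro D _ hD
    rw [h0 D hD, mul_zero]
  rw [← hΩ, h1, h2, EE_cut_eq (gP PP) (mT PP T) f G hf1, Finset.mul_sum, ← Finset.sum_sub_distrib]
  calc |∑ D ∈ DD (mT PP T), (f D * cnt D - M * (∏ p ∈ T, ((nu (hit W a H) p : ℝ) / p)) *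
          (f D * Pool.Agent.H256R2.SC.nu (gP PP) D))|
      ≤ ∑ D ∈ DD (mT PP T), |f D * cnt D - M * (∏ p ∈ T, ((nu (hit W a H) p : ℝ) / p)) *
          (f D * Pool.Agent.H256R2.SC.nu (gP PP) D)| := Finset.abs_sum_le_sum_abs _ _
    _ ≤ ∑ D ∈ DD (mT PP T), |f D| * ∏ p ∈ T, (nu (hit W a H) p : ℝ) := by
        apply Finset.sum_le_sum
        intro D hD
        have h3 := count_D PP U T H y hPP hU W a hWP hT M D hD
        rw [← hΩ] at h3
        have h4 : f D * cnt D - M * (∏ p ∈ T, ((nu (hit W a H) p : ℝ) / p)) *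
            (f D * Pool.Agent.H256R2.SC.nu (gP PP) D) = f D * (cnt D -
            M * (∏ p ∈ T, ((nu (hit W a H) p : ℝ) / p)) * Pool.Agent.H256R2.SC.nu (gP PP) D) := by ring
        rw [h4, abs_mul]
        apply mul_le_mul_of_nonneg_left _ (abs_nonneg _)
        rw [hcnt]
        exact h3
    _ ≤ ∑ D, |f D| * ∏ p ∈ T, (nu (hit W a H) p : ℝ) :=
        Finset.sum_le_univ_sum_of_nonneg (fun D => mul_nonneg (abs_nonneg _)
          (Finset.prod_nonneg fun _ _ => Nat.cast_nonneg _))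
    _ = (∑ D, |f D|) * ∏ p ∈ T, (nu (hit W a H) p : ℝ) := by rw [Finset.sum_mul]
    _ ≤ _ := mul_le_mul_of_nonneg_right hf2 (Finset.prod_nonneg fun _ _ => Nat.cast_nonneg _)

end Pool.Agent.Run7.h63.XP
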