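import Pool.Agent.Run7.h63.XPSet

set_option autoImplicit false

/-!
# Exact patterns of integers without small prime factors
-/

namespace Pool.Agent.Run7.h63.XP

open Finset Filter
open Pool.Agent.H256R2.SC (Col emb emb_mem emb_surj colr Hyp Zs qq Zs_ge_one)
open Pool.Agent.H312R2.RG (pP gP)

/-- the final comparison -/
lemma num_final (k : ℕ) (v ε Λ Jw E dn η Z M D2 Q G N : ℝ) (hv : 0 < v) (hε2 : ε ≤ 1 / 2)
    (hΛ : 1 ≤ Λ)
    (h0 : (3 / 8 * dn - η) * (M * Z) - (Jw + 2) * (M * Z * E + 9 * Q ^ 4 * D2) - 9 * Q ^ 4 * G ≤ 9 * Q ^ 4 * N)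
    (hdn : v / Λ ^ (2 * k) ≤ dn) (hη : η ≤ v / Λ ^ (2 * k) / 16) (hJE : (Jw + 2) * E ≤ v / Λ ^ (2 * k) / 16)
    (hZ : 1 ≤ Z) (hM : 1 / 2 * Real.exp ((1 - ε / 4) * Λ) ≤ M)
    (hF : (Jw + 2) * (9 * Q ^ 4 * D2) + 9 * Q ^ 4 * G ≤ 63 * Λ * Real.exp (Λ / 2))
    (hQ0 : 0 < Q) (hQ4 : Q ^ 4 ≤ Real.exp (ε / 4 * Λ))
    (g1 : 144 / v * Λ ^ (2 * k) ≤ Real.exp (ε / 2 * Λ))
    (g2 : 1008 / v * Λ ^ (2 * k + 1) ≤ Real.exp (1 / 4 * Λ)) : Real.exp ((1 - ε) * Λ) ≤ N := by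
  obtain ⟨V, hV⟩ : ∃ V : ℝ, V = v / Λ ^ (2 * k) := ⟨_, rfl⟩
  rw [← hV] at hdn hη hJE
  have hΛ0 : 0 < Λ := by linarith
  have hV0 : 0 < V := by rw [hV]; positivity
  have hVv : V * Λ ^ (2 * k) = v := by rw [hV]; exact div_mul_cancel₀ _ (by positivity)
  obtain ⟨e, he⟩ : ∃ e : ℝ, e = Real.exp ((1 - ε / 4) * Λ) := ⟨_, rfl⟩
  rw [← he] at hM
  have he0 : 0 < e := by rw [he]; exact Real.exp_pos _
  have hM0 : 0 < M := by linarith
  have hMZ : 1 / 2 * e ≤ M * Z := by nlinarith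
  have hMZ0 : 0 < M * Z := by positivity
  have h1 : V / 4 * (M * Z) ≤ (3 / 8 * dn - η - (Jw + 2) * E) * (M * Z) :=
    mul_le_mul_of_nonneg_right (by linarith) hMZ0.le
  have h2 : V / 4 * (1 / 2 * e) ≤ V / 4 * (M * Z) := mul_le_mul_of_nonneg_left hMZ (by positivity)
  have h3 : (3 / 8 * dn - η) * (M * Z) - (Jw + 2) * (M * Z * E + 9 * Q ^ 4 * D2) - 9 * Q ^ 4 * G =
      (3 / 8 * dn - η - (Jw + 2) * E) * (M * Z) - ((Jw + 2) * (9 * Q ^ 4 * D2) + 9 * Q ^ 4 * G) := by ring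
  have h4 : 63 * Λ * Real.exp (Λ / 2) ≤ V / 16 * e := by
    rw [div_mul_eq_mul_div, div_le_iff₀ hv] at g2
    have e1 : Real.exp (1 / 4 * Λ) * Real.exp (Λ / 2) ≤ e := by
      rw [he, ← Real.exp_add]
      apply Real.exp_le_exp.2
      nlinarith
    have e2 : 1008 * Λ ^ (2 * k + 1) * Real.exp (Λ / 2) ≤ v * e := by
      calc 1008 * Λ ^ (2 * k + 1) * Real.exp (Λ / 2) ≤ (Real.exp (1 / 4 * Λ) * v) * Real.exp (Λ / 2) :=
            mul_le_mul_of_nonneg_right g2 (Real.exp_pos _).le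
        _ = v * (Real.exp (1 / 4 * Λ) * Real.exp (Λ / 2)) := by ring
        _ ≤ v * e := mul_le_mul_of_nonneg_left e1 hv.le
    have e3 : 1008 * Λ ^ (2 * k + 1) * Real.exp (Λ / 2) = (16 * (63 * Λ * Real.exp (Λ / 2))) * Λ ^ (2 * k) := by
      rw [pow_succ]
      ring
    rw [e3, ← hVv] at e2
    have e4 : V * Λ ^ (2 * k) * e = (V * e) * Λ ^ (2 * k) := by ring
    rw [e4] at e2
    have e5 := le_of_mul_le_mul_right e2 (by positivity)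
    linarith
  have h5 : V / 16 * e ≤ 9 * Q ^ 4 * N := by
    have : V / 4 * (1 / 2 * e) = V / 16 * e + V / 16 * e := by ring
    linarith
  have h6 : 9 * (Real.exp (ε / 4 * Λ) * Real.exp ((1 - ε) * Λ)) ≤ V / 16 * e := by
    rw [div_mul_eq_mul_div, div_le_iff₀ hv] at g1
    have e1 : Real.exp (ε / 2 * Λ) * (Real.exp (ε / 4 * Λ) * Real.exp ((1 - ε) * Λ)) = e := by
      rw [he, ← Real.exp_add, ← Real.exp_add]
      congr 1
      ring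
    obtain ⟨f, hf⟩ : ∃ f : ℝ, f = Real.exp (ε / 4 * Λ) * Real.exp ((1 - ε) * Λ) := ⟨_, rfl⟩
    have hf0 : 0 < f := by rw [hf]; positivity
    rw [← hf] at e1 ⊢
    have e2 : 144 * Λ ^ (2 * k) * f ≤ v * e := by
      calc 144 * Λ ^ (2 * k) * f ≤ (Real.exp (ε / 2 * Λ) * v) * f := mul_le_mul_of_nonneg_right g1 hf0.le
        _ = v * (Real.exp (ε / 2 * Λ) * f) := by ring
        _ = v * e := by rw [e1]
    have e3 : 144 * Λ ^ (2 * k) * f = (144 * f) * Λ ^ (2 * k) := by ring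
    rw [e3, ← hVv] at e2
    have e4 : V * Λ ^ (2 * k) * e = (V * e) * Λ ^ (2 * k) := by ring
    rw [e4] at e2
    have e5 := le_of_mul_le_mul_right e2 (by positivity)
    linarith
  have h7 : Q ^ 4 * Real.exp ((1 - ε) * Λ) ≤ Real.exp (ε / 4 * Λ) * Real.exp ((1 - ε) * Λ) :=
    mul_le_mul_of_nonneg_right hQ4 (Real.exp_pos _).le
  have h8 : Q ^ 4 * Real.exp ((1 - ε) * Λ) ≤ Q ^ 4 * N := by linarith
  exact le_of_mul_le_mul_left h8 (by positivity)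

open Classical in
/-- the count at a fixed level, from the weighted inequality -/
theorem exact_rough (k : ℕ) : ∃ s A₁ : ℕ, 1 ≤ s ∧ ∀ ε : ℝ, 0 < ε → ∃ c : ℝ, 0 < c ∧ ∃ Y₀ : ℕ, ∀ Y : ℕ, Y₀ ≤ Y →
    ∀ w : ℕ, Real.log Y ^ A₁ ≤ w → w ^ s ≤ Y → ∀ z T : ℕ,
      (T : ℝ) ≤ c * (Ran Y * Real.log (Real.log w / Real.log (Real.log Y))) →
      ∀ H : Finset ℕ, Adm H → H.card ≤ k → (∀ h ∈ H, h ≤ T) → (Y : ℝ) ^ (1 - ε) ≤ pat w z Y T H := by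
  obtain ⟨C0, hC0, CM, hCM, hmain⟩ := main_local k
  obtain ⟨v, hv, hVd⟩ := dens_lower k
  obtain ⟨A₁, hset⟩ := setup k (C0 + k)
  have hC00 : 1 ≤ C0 * C0 := Nat.one_le_iff_ne_zero.2 (by positivity)
  refine ⟨16 * (C0 * C0), A₁, by omega, ?_⟩
  intro ε0 hε0
  obtain ⟨ε, hε⟩ : ∃ ε : ℝ, ε = min ε0 (1 / 2) := ⟨_, rfl⟩
  have hε1 : 0 < ε := by rw [hε]; positivity
  have hε2 : ε ≤ 1 / 2 := by rw [hε]; exact min_le_right _ _
  have hε3 : ε ≤ ε0 := by rw [hε]; exact min_le_left _ _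
  obtain ⟨κ, hκ⟩ : ∃ κ : ℝ, κ = ε / 8 := ⟨_, rfl⟩
  have hκ0 : 0 < κ := by rw [hκ]; positivity
  have hκ1 : κ ≤ 1 / 16 := by rw [hκ]; linarith
  obtain ⟨c, hc, hset2⟩ := hset κ hκ0 hκ1
  have hlog : Tendsto (fun X : ℕ => Real.log (X : ℝ)) atTop atTop :=
    Real.tendsto_log_atTop.comp tendsto_natCast_atTop_atTop
  have hall : ∀ᶠ t : ℝ in atTop, 3 ≤ t ∧ (24 + 8 * ((C0 : ℝ) * C0)) * t ^ 3 ≤ (κ * t) ^ (3 * k + 12) ∧
      8 * t ^ 1 ≤ (κ * t) ^ (3 * k + 12 - 1) ∧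
      12288 * ((C0 : ℝ) * C0) * CM / v * t ^ (3 * k + 11) ≤ (κ * t) ^ (3 * k + 12) ∧
      16 / v * t ^ (2 * k) ≤ (κ * t) ^ (2 * k + 1) ∧ 8 * t ^ 0 ≤ (κ * t) ^ (2 * k + 1) ∧
      144 / v * t ^ (2 * k) ≤ Real.exp (ε / 2 * t) ∧
      1008 / v * t ^ (2 * k + 1) ≤ Real.exp (1 / 4 * t) ∧ 4 * t ^ 0 ≤ Real.exp (1 / 2 * t) := by
    filter_upwards [eventually_ge_atTop (3 : ℝ), ev_poly (24 + 8 * ((C0 : ℝ) * C0)) κ hκ0 3 (3 * k + 12) (by omega),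
      ev_poly 8 κ hκ0 1 (3 * k + 12 - 1) (by omega),
      ev_poly (12288 * ((C0 : ℝ) * C0) * CM / v) κ hκ0 (3 * k + 11) (3 * k + 12) (by omega),
      ev_poly (16 / v) κ hκ0 (2 * k) (2 * k + 1) (by omega), ev_poly 8 κ hκ0 0 (2 * k + 1) (by omega),
      ev_exp (144 / v) (2 * k) (ε / 2) (by positivity), ev_exp (1008 / v) (2 * k + 1) (1 / 4) (by norm_num),
      ev_exp 4 0 (1 / 2) (by norm_num)] with t h1 h2 h3 h4 h5 h6 h7 h8 h9
    exact ⟨h1, h2, h3, h4, h5, h6, h7, h8, h9⟩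
  obtain ⟨Y0, hY0⟩ := eventually_atTop.1 (hset2.and (hlog.eventually hall))
  clear hset hset2 hlog hall
  refine ⟨c, hc, Y0, ?_⟩
  intro Y hY w hw hwY z T hT H hH hHk hHT
  obtain ⟨hS, hΛ3, f1, f2, f3, f4, f5, x1, x2, x3⟩ := hY0 Y hY
  clear hY0
  obtain ⟨Λ, hΛ⟩ : ∃ Λ : ℝ, Λ = Real.log Y := ⟨_, rfl⟩
  rw [← hΛ] at hΛ3 f1 f2 f3 f4 f5 x1 x2 x3
  rw [pow_zero, mul_one] at f5 x3
  rw [pow_one] at f2
  have hΛ0 : 0 < Λ := by linarith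
  have hY1 : (1 : ℝ) < Y := by
    rw [← Real.log_pos_iff (Nat.cast_nonneg _), ← hΛ]
    exact hΛ0
  have hYr : (0 : ℝ) < Y := by linarith
  have hYe : (Y : ℝ) = Real.exp Λ := by rw [hΛ, Real.exp_log hYr]
  have hCC : (1 : ℝ) ≤ (C0 : ℝ) * C0 := by exact_mod_cast hC00
  have hw00 : (0 : ℝ) < w := lt_of_lt_of_le (by rw [← hΛ]; positivity) hw
  obtain ⟨lw, hlw⟩ : ∃ lw : ℝ, lw = Real.log w := ⟨_, rfl⟩
  have hlw3 : 16 * ((C0 : ℝ) * C0) * lw ≤ Λ := by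
    have h1 : ((w : ℝ)) ^ (16 * (C0 * C0)) ≤ Y := by exact_mod_cast hwY
    have h2 := Real.log_le_log (by positivity) h1
    rw [Real.log_pow, ← hlw, ← hΛ] at h2
    push_cast at h2
    exact h2
  have hlw00 : 0 ≤ lw := by
    rw [hlw]
    exact Real.log_natCast_nonneg _
  have hlwΛ : lw ≤ Λ := (le_mul_of_one_le_left hlw00 (by linarith)).trans hlw3
  obtain ⟨hlw0, hΛw, P, n0, U, PP, h, zz, Kc, δ, J, hP1, hP2, hP3, hP4, hP5, hHU, hUne, hUc, hUle, hTle, hPP, hHyp,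
    hJe, hPPJ, hgs, hgsq, hδ1, hδ2, hη⟩ := hS w hw (by rw [← hlw, ← hΛ]; exact hlwΛ) T hT H hH hHk hHT
  clear hS
  rw [← hΛ] at hΛw hP1 hP3 hUc hUle hTle hPP hPPJ hgs hδ1 hδ2 hη
  rw [← hlw] at hlw0
  have hw3 : 3 ≤ w := by
    have h2 : (3 : ℝ) ≤ w := by linarith
    exact_mod_cast h2
  have hκΛ : 0 < κ * Λ := by positivity
  obtain ⟨yr, hyr⟩ : ∃ yr : ℝ, yr = (κ * Λ) ^ (3 * k + 12) := ⟨_, rfl⟩
  rw [← hyr] at f1 f3 hPP
  have hΛ31 : 1 ≤ Λ ^ 3 := one_le_pow₀ (by linarith)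
  have hΛ23 : Λ ^ 2 ≤ Λ ^ 3 := pow_le_pow_right₀ (by linarith) (by norm_num)
  have hΛ13 : Λ ≤ Λ ^ 3 := by
    calc Λ = Λ ^ 1 := (pow_one _).symm
      _ ≤ Λ ^ 3 := pow_le_pow_right₀ (by linarith) (by norm_num)
  have hyr1 : 24 * Λ ^ 3 + 8 * ((C0 : ℝ) * C0) * Λ ^ 3 ≤ yr := by linarith
  have hCΛ : 0 ≤ 8 * ((C0 : ℝ) * C0) * Λ ^ 3 := by positivity
  have hyr24 : 24 ≤ yr := by linarith
  have hyr0 : 0 < yr := by linarith
  obtain ⟨Q, hQ⟩ : ∃ Q : ℝ, Q = Real.exp (κ * Λ) ^ (1 / 1000 : ℝ) := ⟨_, rfl⟩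
  rw [← hQ] at hPPJ hδ2 hη
  have hQe : Q = Real.exp (κ * Λ / 1000) := by
    rw [hQ, ← Real.exp_mul]
    congr 1
    ring
  have hQ1 : 1 ≤ Q := by
    rw [hQe]
    exact Real.one_le_exp (by positivity)
  have hQ0 : 0 < Q := by linarith
  -- the modulus
  obtain ⟨W, hW⟩ : ∃ W, W = ∏ p ∈ P, p := ⟨_, rfl⟩
  have hW0 : 0 < W := by
    rw [hW]
    exact Finset.prod_pos fun p hp => (hP1 p hp).1.pos
  have hW0r : (0 : ℝ) < W := by exact_mod_cast hW0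
  have hpW : ∀ p : ℕ, p.Prime → p ≤ C0 + k → p ∣ W := fun p hp hpC => by
    rw [hW]
    exact Finset.dvd_prod_of_mem _ (hP2 p hp hpC)
  have hWp : ∀ p : ℕ, p.Prime → p ∣ W → (p : ℝ) ≤ Λ := by
    intro p hp hd
    rw [hW] at hd
    obtain ⟨q, hq, hpq⟩ := (Nat.Prime.prime hp).exists_mem_finset_dvd hd
    have := (Nat.prime_dvd_prime_iff_eq hp (hP1 q hq).1).1 hpq
    rw [this]
    exact (hP1 q hq).2
  -- the length of the progression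
  obtain ⟨q, hq⟩ : ∃ q : ℕ, q = Y / W := ⟨_, rfl⟩
  obtain ⟨e, he⟩ : ∃ e : ℝ, e = Real.exp ((1 - ε / 4) * Λ) := ⟨_, rfl⟩
  have hqr : e - 1 ≤ q := by
    have h1 : (Y : ℝ) / W < (q : ℝ) + 1 := by
      rw [div_lt_iff₀ hW0r, hq, mul_comm]
      exact_mod_cast Nat.lt_mul_div_succ Y hW0
    have h2 : e ≤ (Y : ℝ) / W := by
      rw [le_div_iff₀ hW0r, hYe, he]
      have h3 : (W : ℝ) ≤ Real.exp (ε / 4 * Λ) := by
        rw [hW]
        refine hP3.trans (Real.exp_le_exp.2 ?_)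
        have : 0 ≤ ε * Λ := by positivity
        rw [hκ]
        linarith
      calc Real.exp ((1 - ε / 4) * Λ) * W ≤ Real.exp ((1 - ε / 4) * Λ) * Real.exp (ε / 4 * Λ) :=
            mul_le_mul_of_nonneg_left h3 (Real.exp_pos _).le
        _ = Real.exp Λ := by
            rw [← Real.exp_add]
            congr 1
            ring
    linarith
  have he4 : 4 ≤ e := by
    refine x3.trans ?_
    rw [he]
    apply Real.exp_le_exp.2
    have : ε * Λ ≤ 1 / 2 * Λ := mul_le_mul_of_nonneg_right hε2 hΛ0.le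
    linarith
  obtain ⟨M, hM⟩ : ∃ M : ℕ, M = q - 1 := ⟨_, rfl⟩
  have hq1 : 1 ≤ q := by
    have : (1 : ℝ) ≤ q := by linarith
    exact_mod_cast this
  have hMq : (M : ℝ) = q - 1 := by rw [hM, Nat.cast_sub hq1, Nat.cast_one]
  have hMe : 1 / 2 * e ≤ M := by linarith
  have hWM : W * (M + 1) ≤ Y := by
    rw [hM, Nat.sub_add_cancel hq1, hq]
    exact Nat.mul_div_le Y W
  -- the transfer
  obtain ⟨a, ha⟩ := transfer P PP U H n0 w z M T Y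
    (fun p hp => ⟨(hP1 p hp).1, by exact_mod_cast (hP1 p hp).2.trans hΛw⟩)
    (fun p hp => ⟨(hPP p hp).1, (hPP p hp).2.2.2⟩) hP4 hP5 (by rw [← hW]; exact hWM)
  rw [← hW] at ha
  -- the densities
  have hdn := hVd (hit W a H) (per_hit W a H k hHk)
    (adm_hit W a H k hHk (fun p hp hpk => hpW p hp (by omega))) w hw3
  rw [← hlw] at hdn
  have hdn2 : v / Λ ^ (2 * k) ≤ dens (hit W a H) w := by
    refine le_trans ?_ hdn
    apply div_le_div_of_nonneg_left hv.le (by positivity)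
    exact pow_le_pow_left₀ hlw00 hlwΛ _
  obtain ⟨u, hu⟩ : ∃ u : ℝ, u = (U.card : ℝ) := ⟨_, rfl⟩
  rw [← hu] at hUc hgsq hη
  have hu0 : 0 ≤ u := by rw [hu]; exact Nat.cast_nonneg _
  have hg : ∀ i, gP PP i ≤ 1 / yr := by
    intro i
    have h1 := (hPP _ (emb_mem PP i)).2.1
    exact one_div_le_one_div_of_le hyr0 h1.le
  have hg0 : ∀ i, 0 ≤ gP PP i := fun i => (hHyp.g0 i).le
  have hδ3 : u * δ ≤ 1 / 4 := by
    have h1 : 0 < (κ * Λ) ^ (3 * k + 12 - 1) := by positivity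
    have h2 : u * δ ≤ Λ * (2 / (κ * Λ) ^ (3 * k + 12 - 1)) := by
      rcases le_total 0 δ with h3 | h3
      · exact mul_le_mul hUc hδ1 h3 hΛ0.le
      · have h4 : u * δ ≤ 0 := mul_nonpos_of_nonneg_of_nonpos hu0 h3
        have h5 : 0 ≤ Λ * (2 / (κ * Λ) ^ (3 * k + 12 - 1)) := by positivity
        linarith
    refine h2.trans ?_
    rw [mul_div_assoc', div_le_div_iff₀ h1 (by norm_num)]
    linarith
  obtain ⟨lam, hlam⟩ : ∃ lam : ℝ, lam = 4 * ((C0 : ℝ) * C0) * lw := ⟨_, rfl⟩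
  obtain ⟨D, hD⟩ : ∃ D : ℕ, D = (2 ^ 2 ^ JJ w) ^ (C0 * C0) := ⟨_, rfl⟩
  have hD1 : (1 : ℝ) ≤ D := by
    have : 1 ≤ D := by rw [hD]; exact Nat.one_le_iff_ne_zero.2 (by positivity)
    exact_mod_cast this
  have hDle : (D : ℝ) ≤ Real.exp (2 * ((C0 : ℝ) * C0) * lw) := by
    have h1 : D ≤ (w ^ 2) ^ (C0 * C0) := by
      rw [hD]
      exact Nat.pow_le_pow_left (JJ_le w (by omega)) _
    have h2 : (D : ℝ) ≤ ((w : ℝ) ^ 2) ^ (C0 * C0) := by exact_mod_cast h1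
    refine h2.trans (le_of_eq ?_)
    have h3 : (w : ℝ) = Real.exp lw := by rw [hlw, Real.exp_log hw00]
    rw [h3, ← Real.exp_nat_mul, ← Real.exp_nat_mul]
    congr 1
    push_cast
    ring
  have hlamD : 2 * Real.log (D : ℝ) ≤ lam := by
    have h1 := Real.log_le_log (by linarith) hDle
    rw [Real.log_exp] at h1
    rw [hlam]
    linarith
  have hlamΛ : lam ≤ 4 * ((C0 : ℝ) * C0) * Λ := by
    rw [hlam]
    exact mul_le_mul_of_nonneg_left hlwΛ (by positivity)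
  have hlam0 : 0 ≤ lam := by rw [hlam]; positivity
  have hulam : 2 * u * (lam / yr) ≤ 1 := by
    rw [mul_div_assoc', div_le_one hyr0]
    have h1 : 2 * u * lam ≤ 2 * Λ * (4 * ((C0 : ℝ) * C0) * Λ) :=
      mul_le_mul (by linarith) hlamΛ hlam0 (by positivity)
    have h2 : 2 * Λ * (4 * ((C0 : ℝ) * C0) * Λ) = 8 * ((C0 : ℝ) * C0) * Λ ^ 2 := by ring
    have h3 : 8 * ((C0 : ℝ) * C0) * Λ ^ 2 ≤ 8 * ((C0 : ℝ) * C0) * Λ ^ 3 :=
      mul_le_mul_of_nonneg_left hΛ23 (by positivity)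
    linarith
  have hB0 : 0 < (κ * Λ) ^ (2 * k + 1) := by positivity
  have key := hmain w hw3 H hHk W a (fun p hp hpC => hpW p hp (by omega)) PP U yr (by linarith)
    (fun p hp => ⟨(hPP p hp).1, (hPP p hp).2.1⟩)
    (fun p hp hd => by
      have h1 := hWp p (hPP p hp).1 hd
      have h2 := (hPP p hp).2.1
      linarith)
    (fun u hu => by have := hUle u hu; linarith)
    (fun j hj => by
      have h1 : (j : ℝ) ≤ T := by exact_mod_cast hHT j hj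
      linarith) hHU hUne h zz Kc δ Q (1 / (κ * Λ) ^ (2 * k + 1)) J hHyp hJe hQ1
    (fun i => (hPP _ (emb_mem PP i)).2.2.1)
    (fun i => by
      have h1 := hg i
      have h2 : 24 * (1 / yr) ≤ 1 := by rw [mul_one_div, div_le_one hyr0]; exact hyr24
      linarith)
    (fun i => by
      rw [← hu]
      have h1 : 4 * u * gP PP i ≤ 4 * Λ * (1 / yr) :=
        mul_le_mul (by linarith) (hg i) (hg0 i) (by positivity)
      have h2 : 4 * Λ * (1 / yr) ≤ 1 := by rw [mul_one_div, div_le_one hyr0]; linarith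
      linarith)
    (by
      rw [← hu]
      have h1 : ∑ i, 1 / (pP PP i) ^ 2 = ∑ i, (gP PP i) ^ 2 := by
        apply sum_congr rfl
        intro i _
        unfold Pool.Agent.H312R2.RG.gP
        rw [one_div_pow]
        rfl
      rw [h1]
      linarith)
    (fun Dc hDc => hδ2 ↥U Dc hDc) (by rw [← hu]; exact hδ3)
    (by rw [div_le_div_iff₀ hB0 (by norm_num)]; linarith) (by rw [← hu]; exact hη) M lam
    (by rw [← hD]; exact hlamD) (by rw [← hu]; exact hulam)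
  have hZ1 : 1 ≤ Zs ↥U (gP PP) h := Zs_ge_one hHyp
  clear hmain hVd hη hδ2 hgsq hHyp hPP hP1 hP2 hP3 hP4 hP5 hpW hWp
  rw [← hu, ← hD, ← hlw] at key
  obtain ⟨Z, hZ⟩ : ∃ Z : ℝ, Z = Zs ↥U (gP PP) h := ⟨_, rfl⟩
  rw [← hZ] at key hZ1
  obtain ⟨Sg, hSg⟩ : ∃ Sg : ℝ, Sg = ∑ i, gP PP i := ⟨_, rfl⟩
  rw [← hSg] at key hgs
  obtain ⟨Np, hNp⟩ : ∃ Np : ℝ, Np = (pat w z Y T H : ℝ) := ⟨_, rfl⟩
  have ha' : 9 * Q ^ 4 * ((((Icc 1 M).filter (fun m => (∀ p ∈ pz w, ¬ hit W a H p m) ∧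
      ∀ u ∈ U, ∃ p ∈ PP, p ∣ a + u + W * m)).card : ℕ) : ℝ) ≤ 9 * Q ^ 4 * Np := by
    apply mul_le_mul_of_nonneg_left _ (by positivity)
    rw [hNp]
    exact_mod_cast ha
  have key2 := key.trans ha'
  clear key ha' ha
  obtain ⟨dn, hdnd⟩ : ∃ dn : ℝ, dn = dens (hit W a H) w := ⟨_, rfl⟩
  rw [← hdnd] at key2 hdn2
  obtain ⟨Jw, hJw⟩ : ∃ Jw : ℝ, Jw = (JJ w : ℝ) := ⟨_, rfl⟩
  have hJw1 : Jw + 2 ≤ 6 * Λ := by
    have h1 := JJ_log w hw3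
    rw [← hlw, ← hJw] at h1
    linarith
  have hJw0 : 0 ≤ Jw := by rw [hJw]; exact Nat.cast_nonneg _
  rw [← hJw] at key2
  obtain ⟨E, hE⟩ : ∃ E : ℝ, E = 32 * u * Real.exp (8 * Sg) * (lam / yr) * (CM * lw ^ k) := ⟨_, rfl⟩
  rw [← hE] at key2
  obtain ⟨PJ, hPJ⟩ : ∃ PJ : ℝ, PJ = ((PP.card : ℝ) + 1) ^ J := ⟨_, rfl⟩
  rw [← hPJ] at key2 hPPJ
  have hPJ0 : 0 ≤ PJ := by
    rw [hPJ]
    exact pow_nonneg (add_nonneg (Nat.cast_nonneg _) zero_le_one) _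
  have hηb : 1 / (κ * Λ) ^ (2 * k + 1) ≤ v / Λ ^ (2 * k) / 16 := by
    rw [div_div, div_le_div_iff₀ hB0 (by positivity)]
    rw [div_mul_eq_mul_div, div_le_iff₀ hv] at f4
    linarith
  have hE1 : E ≤ 32 * Λ * Λ ^ 8 * (4 * ((C0 : ℝ) * C0) * Λ / yr) * (CM * Λ ^ k) := by
    rw [hE]
    have h1 : Real.exp (8 * Sg) ≤ Λ ^ 8 := by
      calc Real.exp (8 * Sg) ≤ Real.exp (8 * Real.log (κ * Λ)) := Real.exp_le_exp.2 (by linarith)
        _ = (κ * Λ) ^ 8 := by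
            rw [show (8 : ℝ) * Real.log (κ * Λ) = ((8 : ℕ) : ℝ) * Real.log (κ * Λ) by norm_num, Real.exp_nat_mul,
              Real.exp_log hκΛ]
        _ ≤ Λ ^ 8 := by
            apply pow_le_pow_left₀ hκΛ.le
            exact mul_le_of_le_one_left hΛ0.le (by linarith)
    have h2 : lam / yr ≤ 4 * ((C0 : ℝ) * C0) * Λ / yr := div_le_div_of_nonneg_right hlamΛ hyr0.le
    have h3 : lw ^ k ≤ Λ ^ k := pow_le_pow_left₀ hlw00 hlwΛ k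
    have h4 : 0 ≤ lam / yr := by positivity
    apply mul_le_mul _ (mul_le_mul_of_nonneg_left h3 hCM.le) (by positivity) (by positivity)
    apply mul_le_mul _ h2 h4 (by positivity)
    exact mul_le_mul (by linarith) h1 (Real.exp_pos _).le (by positivity)
  have hE0 : 0 ≤ E := by rw [hE]; positivity
  have hJE : (Jw + 2) * E ≤ v / Λ ^ (2 * k) / 16 := by
    have h1 : (Jw + 2) * E ≤ 6 * Λ * (32 * Λ * Λ ^ 8 * (4 * ((C0 : ℝ) * C0) * Λ / yr) * (CM * Λ ^ k)) :=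
      mul_le_mul hJw1 hE1 hE0 (by positivity)
    refine h1.trans ?_
    have h2 : 6 * Λ * (32 * Λ * Λ ^ 8 * (4 * ((C0 : ℝ) * C0) * Λ / yr) * (CM * Λ ^ k)) =
        (768 * ((C0 : ℝ) * C0) * CM * Λ ^ (k + 11)) / yr := by
      rw [show Λ ^ (k + 11) = Λ ^ k * Λ ^ 11 from pow_add _ _ _]
      field_simp
      ring
    rw [h2, div_div, div_le_div_iff₀ hyr0 (by positivity)]
    have h3 : 12288 * ((C0 : ℝ) * C0) * CM * Λ ^ (3 * k + 11) ≤ yr * v := by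
      have h4 : 12288 * ((C0 : ℝ) * C0) * CM / v * Λ ^ (3 * k + 11) =
          (12288 * ((C0 : ℝ) * C0) * CM * Λ ^ (3 * k + 11)) / v := by ring
      rw [h4, div_le_iff₀ hv] at f3
      exact f3
    have h5 : Λ ^ (3 * k + 11) = Λ ^ (k + 11) * Λ ^ (2 * k) := by rw [← pow_add]; congr 1; ring
    rw [h5] at h3
    linarith
  have hQ4 : Q ^ 4 ≤ Real.exp (ε / 4 * Λ) := by
    rw [hQe, ← Real.exp_nat_mul]
    apply Real.exp_le_exp.2
    have : 0 ≤ ε * Λ := by positivity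
    rw [hκ]
    push_cast
    linarith
  have hκΛ16 : κ * Λ ≤ 1 / 16 * Λ := mul_le_mul_of_nonneg_right hκ1 hΛ0.le
  have hF : (Jw + 2) * (9 * Q ^ 4 * (D : ℝ) ^ 2) + 9 * Q ^ 4 * (u * PJ) ≤ 63 * Λ * Real.exp (Λ / 2) := by
    have h1 : Q ^ 4 * (D : ℝ) ^ 2 ≤ Real.exp (Λ / 2) := by
      have e1 : (D : ℝ) ^ 2 ≤ Real.exp (2 * (2 * ((C0 : ℝ) * C0) * lw)) := by
        rw [show (2 : ℝ) * (2 * ((C0 : ℝ) * C0) * lw) = ((2 : ℕ) : ℝ) * (2 * ((C0 : ℝ) * C0) * lw) by norm_num,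
          Real.exp_nat_mul]
        exact pow_le_pow_left₀ (by linarith) hDle 2
      calc Q ^ 4 * (D : ℝ) ^ 2 ≤ Q ^ 4 * Real.exp (2 * (2 * ((C0 : ℝ) * C0) * lw)) :=
            mul_le_mul_of_nonneg_left e1 (by positivity)
        _ = Real.exp (((4 : ℕ) : ℝ) * (κ * Λ / 1000) + 2 * (2 * ((C0 : ℝ) * C0) * lw)) := by
            rw [hQe, ← Real.exp_nat_mul, ← Real.exp_add]
        _ ≤ Real.exp (Λ / 2) := by
            apply Real.exp_le_exp.2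
            push_cast
            linarith
    have h2 : Q ^ 4 * (u * PJ) ≤ Λ * Real.exp (Λ / 2) := by
      have e1 : u * PJ ≤ Λ * Q := mul_le_mul hUc hPPJ hPJ0 hΛ0.le
      calc Q ^ 4 * (u * PJ) ≤ Q ^ 4 * (Λ * Q) := mul_le_mul_of_nonneg_left e1 (by positivity)
        _ = Λ * Real.exp (((5 : ℕ) : ℝ) * (κ * Λ / 1000)) := by
            rw [Real.exp_nat_mul, ← hQe]
            ring
        _ ≤ Λ * Real.exp (Λ / 2) := by
            apply mul_le_mul_of_nonneg_left _ hΛ0.le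
            apply Real.exp_le_exp.2
            push_cast
            linarith
    have h3 : (Jw + 2) * (Q ^ 4 * (D : ℝ) ^ 2) ≤ 6 * Λ * Real.exp (Λ / 2) :=
      mul_le_mul hJw1 h1 (by positivity) (by positivity)
    have h4 : (Jw + 2) * (9 * Q ^ 4 * (D : ℝ) ^ 2) = 9 * ((Jw + 2) * (Q ^ 4 * (D : ℝ) ^ 2)) := by ring
    have h5 : 9 * Q ^ 4 * (u * PJ) = 9 * (Q ^ 4 * (u * PJ)) := by ring
    rw [h4, h5]
    linarith
  have hfin := num_final k v ε Λ Jw E dn (1 / (κ * Λ) ^ (2 * k + 1)) Z M ((D : ℝ) ^ 2) Q (u * PJ) Np hv hε2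
    (by linarith) key2 hdn2 hηb hJE hZ1 (by rw [← he]; exact hMe) hF hQ0 hQ4 x1 x2
  rw [← hNp]
  refine le_trans ?_ hfin
  rw [hYe, ← Real.exp_mul]
  apply Real.exp_le_exp.2
  rw [mul_comm]
  exact mul_le_mul_of_nonneg_right (by linarith) hΛ0.le

end Pool.Agent.Run7.h63.XP
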