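import Pool.Agent.Run7.h63.XPCls

set_option autoImplicit false

/-!
# The integers whose window has prescribed survivors: the weighted count
-/

namespace Pool.Agent.Run7.h63.XP

open Finset Filter
open Pool.Agent.H256R2.SC (Col emb emb_mem emb_surj colr colr_eq ind supp mem_supp Lv Hyp Zs wt qq SS VV yT)
open Pool.Agent.H312R2.RG (cut pP gP V2 V2_nonneg V2_Lv V2SS_Lv Lv_abs_le EE_SS_sum EEV_le SS_nonneg')

/-- the sum over the subsets of a set of primes -/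
lemma sum_subsets (k w : ℕ) (hw : 3 ≤ w) (C : ℝ) (hM : ∑ p ∈ pz w, (1 : ℝ) / p ≤ Real.log (Real.log w) + C)
    (P : Finset ℕ) (hP : P ⊆ pz w) (g : ℕ → ℝ) (hg : ∀ p ∈ P, 0 ≤ g p ∧ g p ≤ k / p) (S : Finset (Finset ℕ))
    (hS : S ⊆ P.powerset) : ∑ T ∈ S, ∏ p ∈ T, g p ≤ Real.exp (k * C) * Real.log w ^ k := by
  have hwr : (3 : ℝ) ≤ w := by exact_mod_cast hw
  have hlw : 0 < Real.log w := Real.log_pos (by linarith)
  calc ∑ T ∈ S, ∏ p ∈ T, g p ≤ ∑ T ∈ P.powerset, ∏ p ∈ T, g p := by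
        apply sum_le_sum_of_subset_of_nonneg hS
        intro T hT _
        exact prod_nonneg fun p hp => (hg p (mem_powerset.1 hT hp)).1
    _ = ∏ p ∈ P, (g p + 1) := by
        rw [Finset.prod_add_one]
    _ ≤ ∏ p ∈ P, Real.exp (k * (1 / (p : ℝ))) := by
        apply Finset.prod_le_prod
        · intro p hp
          linarith [(hg p hp).1]
        · intro p hp
          have h1 := Real.add_one_le_exp (k * (1 / (p : ℝ)))
          have h2 := (hg p hp).2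
          have h3 : (k : ℝ) / p = k * (1 / (p : ℝ)) := by ring
          linarith
    _ = Real.exp (k * ∑ p ∈ P, 1 / (p : ℝ)) := by
        rw [← Real.exp_sum, Finset.mul_sum]
    _ ≤ Real.exp (k * (Real.log (Real.log w) + C)) := by
        apply Real.exp_le_exp.2
        apply mul_le_mul_of_nonneg_left _ (Nat.cast_nonneg _)
        refine le_trans ?_ hM
        exact sum_le_sum_of_subset_of_nonneg hP fun _ _ _ => by positivity
    _ = _ := by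
        rw [mul_add, add_comm, Real.exp_add]
        congr 1
        rw [Real.exp_nat_mul, Real.exp_log hlw]

open Classical in
theorem main_local (k : ℕ) : ∃ C0 : ℕ, 1 ≤ C0 ∧ ∃ CM : ℝ, 0 < CM ∧ ∀ (w : ℕ), 3 ≤ w → ∀ (H : Finset ℕ),
    H.card ≤ k → ∀ (W a : ℕ), (∀ p : ℕ, p.Prime → p ≤ C0 → p ∣ W) →
    ∀ (PP U : Finset ℕ) (y : ℝ), 1 ≤ y → (∀ p ∈ PP, p.Prime ∧ y < p) → (∀ p ∈ PP, ¬ p ∣ W) →
    (∀ u ∈ U, (u : ℝ) ≤ y) → (∀ h ∈ H, (h : ℝ) ≤ y) → (∀ h ∈ H, h ∉ U) → U.Nonempty →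
    ∀ (h : Finset (Fin PP.card) → ℝ) (z Kc δ Q η : ℝ) (J : ℕ), Hyp (pP PP) (gP PP) h z Kc → Even J → 1 ≤ Q →
    (∀ i, pP PP i ≤ z) → (∀ i, 24 * gP PP i ≤ 1) → (∀ i, 4 * (U.card : ℝ) * gP PP i ≤ 1) →
    (2 * (U.card : ℝ) * ∑ i, 1 / (pP PP i) ^ 2 ≤ 1) →
    (∀ D : Col PP.card ↥U, qq (pP PP) D ≤ Q → 2 * ∑ i with D i ≠ none, gP PP i ≤ δ) →
    (U.card : ℝ) * δ ≤ 1 / 4 → η ≤ 1 / 8 →
    ((U.card : ℝ) + 1) * (δ ^ 2 + Real.exp (2 * (U.card : ℝ) * Kc / Real.log z -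
        Real.log (Q / z) / Real.log z) + (1 / 8) ^ J * Real.exp (50 * ∑ i, gP PP i)) ≤ η →
    ∀ (M : ℕ) (lam : ℝ), 2 * Real.log (((2 ^ 2 ^ JJ w) ^ (C0 * C0) : ℕ) : ℝ) ≤ lam →
      2 * (U.card : ℝ) * (lam / y) ≤ 1 →
    (3 / 8 * dens (hit W a H) w - η) * (M * Zs ↥U (gP PP) h) - ((JJ w : ℝ) + 2) *
        (M * Zs ↥U (gP PP) h * (32 * (U.card : ℝ) * Real.exp (8 * ∑ i, gP PP i) * (lam / y) *
          (CM * Real.log w ^ k)) + 9 * Q ^ 4 * (((2 ^ 2 ^ JJ w) ^ (C0 * C0) : ℕ) : ℝ) ^ 2) -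
        9 * Q ^ 4 * ((U.card : ℝ) * ((PP.card : ℝ) + 1) ^ J) ≤
      9 * Q ^ 4 * ((((Icc 1 M).filter (fun m => (∀ p ∈ pz w, ¬ hit W a H p m) ∧
        ∀ u ∈ U, ∃ p ∈ PP, p ∣ a + u + W * m)).card : ℕ) : ℝ) := by
  obtain ⟨C0, hC0, hFL⟩ := Pool.Agent.H20R2.fLem k
  obtain ⟨C, hC, hMs⟩ := sum_inv
  refine ⟨C0, hC0, Real.exp (k * C), Real.exp_pos _, ?_⟩
  intro w hw H hk W a hWC PP U y hy1 hPP hWP hU hH hHU hUne h z Kc δ Q η J hHyp hJ hQ hpz htg hug hs hδ hug4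
    hη8 hη M lam hlam hlam1
  have hcard : (Fintype.card ↥U : ℝ) = U.card := by rw [Fintype.card_coe]
  have hQ0 : 0 < Q := by linarith
  have hg : ∀ i, 0 ≤ gP PP i := fun i => (hHyp.g0 i).le
  have hinj : ∀ p ∈ PP, ∀ k l, k ≠ l → ¬ ((p : ℤ) ∣ rU U p k - rU U p l) := fun p hp k l =>
    rU_inj hU (hPP p hp).2 k l
  obtain ⟨u0, hu0⟩ := hUne
  obtain ⟨k₀, -⟩ : ∃ k₀ : ↥U, k₀ = ⟨u0, hu0⟩ := ⟨_, rfl⟩
  have hug' : ∀ i, 4 * (Fintype.card ↥U : ℝ) * gP PP i ≤ 1 := by rw [hcard]; exact hug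
  have hu0' : (0 : ℝ) ≤ U.card := Nat.cast_nonneg _
  have hug1 : ∀ i, (Fintype.card ↥U : ℝ) * gP PP i ≤ 1 := fun i => by
    have := hug i
    have h2 : 0 ≤ (U.card : ℝ) * gP PP i := mul_nonneg hu0' (hg i)
    rw [hcard]
    nlinarith
  have hg1 : ∀ i, gP PP i ≤ 1 := fun i => by
    have := htg i
    have := hg i
    linarith
  have hs' : 2 * (Fintype.card ↥U : ℝ) * ∑ i, 1 / (pP PP i) ^ 2 ≤ 1 := by rw [hcard]; exact hs
  have hη' : ((Fintype.card ↥U : ℝ) + 1) * (δ ^ 2 + Real.exp (2 * (Fintype.card ↥U : ℝ) * Kc / Real.log z -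
        Real.log (Q / z) / Real.log z) + (1 / 8) ^ J * Real.exp (50 * ∑ i, gP PP i)) ≤ η := by
    rw [hcard]; exact hη
  obtain ⟨Z, hZ⟩ : ∃ Z : ℝ, Z = Zs ↥U (gP PP) h := ⟨_, rfl⟩
  have hZ1 : 1 ≤ Z := by rw [hZ]; exact Pool.Agent.H256R2.SC.Zs_ge_one hHyp
  -- the mean of the weight
  obtain ⟨EV, hEV⟩ : ∃ EV : ℝ, EV = Pool.Agent.H256R2.SC.EE (gP PP)
    (fun x : Col PP.card ↥U => V2 (pP PP) (gP PP) h Q x) := ⟨_, rfl⟩
  obtain ⟨E, hE⟩ : ∃ E : ℝ, E = Real.exp (2 * (Fintype.card ↥U : ℝ) * Kc / Real.log z -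
      Real.log (Q / z) / Real.log z) := ⟨_, rfl⟩
  have hE0 : 0 < E := by rw [hE]; exact Real.exp_pos _
  have hz0 : 0 < z := by linarith [hHyp.z1]
  have hE8 : E ≤ 1 / 8 := by
    rw [← hE, hcard] at hη'
    have e1 : 0 ≤ (1 / 8 : ℝ) ^ J * Real.exp (50 * ∑ i, gP PP i) := by positivity
    have e2 : 0 ≤ (U.card : ℝ) * (δ ^ 2 + E + (1 / 8) ^ J * Real.exp (50 * ∑ i, gP PP i)) := by positivity
    nlinarith [sq_nonneg δ]
  have hEVlow : 3 / 4 * Z ≤ EV := by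
    rw [hZ, hEV]
    have hT := Pool.Agent.H256R2.SC.tail_bound (κ := ↥U) hHyp (Q / z) (by positivity)
    rw [← hE] at hT
    refine Pool.Agent.H256R2.SC.second_lower hHyp Q δ (E * Zs ↥U (gP PP) h) hug1 hδ (by rw [hcard]; exact hug4)
      hQ0 hT ?_
    rw [← hZ]
    nlinarith
  have hEVup : EV ≤ Z := by
    rw [hZ, hEV]
    exact EEV_le hHyp Q hug1
  have hEV0 : 0 ≤ EV := by linarith
  obtain ⟨Vm, hVm⟩ : ∃ Vm : ℕ → ℝ, Vm = fun m => V2 (pP PP) (gP PP) h Q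
    (colr PP (rU U) ((a + W * m : ℕ) : ℤ)) := ⟨_, rfl⟩
  have hVm0 : ∀ m, 0 ≤ Vm m := fun m => by rw [hVm]; exact V2_nonneg _ _ _ _ _
  have hLv := V2_Lv (κ := ↥U) hHyp Q hQ0 hg1 hs'
  have hLvS := V2SS_Lv (κ := ↥U) hHyp Q hQ0 hg1 hs' hpz J
  obtain ⟨D, hD⟩ : ∃ D : ℕ, D = (2 ^ 2 ^ JJ w) ^ (C0 * C0) := ⟨_, rfl⟩
  have hD1 : 1 ≤ D := by rw [hD]; exact Nat.one_le_iff_ne_zero.2 (by positivity)
  rw [← hD] at hlam
  obtain ⟨P, hP⟩ : ∃ P : Finset ℕ, P = (pz w).filter (fun p => ¬ p ∣ W ∧ C0 < p) := ⟨_, rfl⟩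
  have hPp : ∀ p ∈ P, p.Prime ∧ C0 < p ∧ p ≤ 2 ^ 2 ^ JJ w := by
    intro p hp
    rw [hP, mem_filter] at hp
    exact ⟨(mem_pz.1 hp.1).2, hp.2.2, (mem_pz.1 hp.1).1.trans (JJ_lt w).le⟩
  have hPW : ∀ p ∈ P, p.Prime ∧ ¬ p ∣ W := by
    intro p hp
    rw [hP, mem_filter] at hp
    exact ⟨(mem_pz.1 hp.1).2, hp.2.1⟩
  have hper := per_hit W a H k hk
  obtain ⟨gg, hgg⟩ : ∃ gg : ℕ → ℝ, gg = fun p => (nu (hit W a H) p : ℝ) / p := ⟨_, rfl⟩
  have hgg0 : ∀ p, 0 ≤ gg p := fun p => by rw [hgg]; positivity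
  have hggk : ∀ p, p.Prime → gg p ≤ k / p := by
    intro p hp
    rw [hgg]
    exact div_le_div_of_nonneg_right (by exact_mod_cast hper.few p hp) (Nat.cast_nonneg _)
  have hlam0 : 0 ≤ lam := by
    refine le_trans ?_ hlam
    have : 0 ≤ Real.log (D : ℝ) := Real.log_nonneg (by exact_mod_cast hD1)
    linarith
  -- the number of elements of `T`
  have hTcard : ∀ T ⊆ P, ∏ p ∈ T, p ≤ D → (T.card : ℝ) ≤ lam := by
    intro T hT hTD
    have h1 : 2 ^ T.card ≤ D := by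
      calc 2 ^ T.card = ∏ _p ∈ T, 2 := by rw [prod_const]
        _ ≤ ∏ p ∈ T, p := prod_le_prod' fun p hp => (hPp p (hT hp)).1.two_le
        _ ≤ D := hTD
    have h2 : (2 : ℝ) ^ T.card ≤ D := by exact_mod_cast h1
    have h3 := Real.log_le_log (by positivity) h2
    rw [Real.log_pow] at h3
    have h4 := Real.log_two_gt_d9
    have h5 : (0 : ℝ) ≤ T.card := Nat.cast_nonneg _
    nlinarith
  have hmT : ∀ T ⊆ P, ∏ p ∈ T, p ≤ D → ∑ i ∈ mT PP T, gP PP i ≤ lam / y := by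
    intro T hT hTD
    have h1 : (mT PP T).card ≤ T.card := by
      apply card_le_card_of_injOn (fun i => (emb PP i : ℕ))
      · intro i hi
        unfold mT at hi
        exact (mem_filter.1 hi).2
      · intro i _ j _ hij
        exact (emb PP).injective hij
    calc ∑ i ∈ mT PP T, gP PP i ≤ ∑ _i ∈ mT PP T, 1 / y := by
          apply sum_le_sum
          intro i _
          have := (hPP _ (emb_mem PP i)).2
          unfold Pool.Agent.H312R2.RG.gP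
          exact one_div_le_one_div_of_le (by linarith) this.le
      _ = (mT PP T).card * (1 / y) := by rw [sum_const, nsmul_eq_mul]
      _ ≤ lam * (1 / y) := by
          apply mul_le_mul_of_nonneg_right _ (by positivity)
          refine le_trans ?_ (hTcard T hT hTD)
          exact_mod_cast h1
      _ = lam / y := by ring
  obtain ⟨F8, hF8⟩ : ∃ F8 : ℝ, F8 = 32 * (U.card : ℝ) * Real.exp (8 * ∑ i, gP PP i) * (lam / y) := ⟨_, rfl⟩
  have hF80 : 0 ≤ F8 := by rw [hF8]; positivity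
  -- the fundamental lemma
  have key := hFL C0 (JJ w) C0 P gg le_rfl le_rfl hPp (fun p hp => by
      have hp0 : (0 : ℝ) < p := by exact_mod_cast (hPp p hp).1.pos
      have hp1 : (1 : ℝ) < p := by exact_mod_cast (hPp p hp).1.one_lt
      refine ⟨hgg0 p, (hggk p (hPp p hp).1).trans ?_⟩
      exact div_le_div_of_nonneg_left (Nat.cast_nonneg _) (by linarith) (by linarith))
    (Icc 1 M) Vm (hit W a H) (M * EV)
    (fun T => M * Z * F8 * ∏ p ∈ T, gg p + 9 * Q ^ 4 * D) (fun m _ => hVm0 m) (by positivity) (by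
      intro T hT hTD
      rw [← hD] at hTD
      have h1 := cls PP U T H y hPP hU hH hHU W a hWP (fun p hp => hPW p (hT hp))
        (fun x => V2 (pP PP) (gP PP) h Q x) (Q * Q) (9 * Q ^ 4) hLv M
      have h2 : ∏ p ∈ T, (nu (hit W a H) p : ℝ) ≤ D := by
        calc ∏ p ∈ T, (nu (hit W a H) p : ℝ) ≤ ∏ p ∈ T, (p : ℝ) := by
              apply Finset.prod_le_prod (fun _ _ => Nat.cast_nonneg _)
              intro p _
              exact_mod_cast nu_le _ p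
          _ = ((∏ p ∈ T, p : ℕ) : ℝ) := by push_cast; rfl
          _ ≤ D := by exact_mod_cast hTD
      have hb := hmT T hT hTD
      have h3 := cut_est (κ := ↥U) hHyp Q hug' k₀ (mT PP T) (by
        rw [hcard]
        refine le_trans ?_ hlam1
        exact mul_le_mul_of_nonneg_left hb (by positivity))
      rw [← hEV, hcard] at h3
      have h4 : 32 * (U.card : ℝ) * Real.exp (8 * ∑ i, gP PP i) * (∑ i ∈ mT PP T, gP PP i) * Zs ↥U (gP PP) h ≤
          F8 * Z := by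
        rw [hF8, hZ]
        apply mul_le_mul_of_nonneg_right _ (by rw [← hZ]; linarith)
        exact mul_le_mul_of_nonneg_left hb (by positivity)
      obtain ⟨EC, hEC⟩ : ∃ EC : ℝ, EC = Pool.Agent.H256R2.SC.EE (gP PP)
        (fun x : Col PP.card ↥U => V2 (pP PP) (gP PP) h Q (cut (mT PP T) x)) := ⟨_, rfl⟩
      rw [← hEC] at h1 h3
      have h5 : ∏ p ∈ T, ((nu (hit W a H) p : ℝ) / p) = ∏ p ∈ T, gg p := by rw [hgg]
      rw [h5] at h1
      have hpi : 0 ≤ ∏ p ∈ T, gg p := prod_nonneg fun p _ => hgg0 p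
      obtain ⟨pi, hpid⟩ : ∃ pi : ℝ, pi = ∏ p ∈ T, gg p := ⟨_, rfl⟩
      rw [← hpid] at h1 hpi ⊢
      have hsumeq : ∑ m ∈ (Icc 1 M).filter (fun m => ∀ p ∈ T, hit W a H p m),
          V2 (pP PP) (gP PP) h Q (colr PP (rU U) ((a + W * m : ℕ) : ℤ)) =
          ∑ m ∈ (Icc 1 M).filter (fun m => ∀ p ∈ T, hit W a H p m), Vm m := by rw [hVm]
      rw [hsumeq] at h1
      obtain ⟨S, hS⟩ : ∃ S : ℝ, S = ∑ m ∈ (Icc 1 M).filter (fun m => ∀ p ∈ T, hit W a H p m), Vm m := ⟨_, rfl⟩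
      rw [← hS] at h1
      have hSe : ∑ m ∈ (Icc 1 M).filter (fun m => ∀ p ∈ T, hit W a H p m), Vm m = S := hS.symm
      have hgoal : |S - M * EV * pi| ≤ M * Z * F8 * pi + 9 * Q ^ 4 * D := by
        have e1 : S - M * EV * pi = (S - M * pi * EC) + M * pi * (EC - EV) := by ring
        rw [e1]
        refine (abs_add_le _ _).trans ?_
        rw [abs_mul, abs_of_nonneg (show (0 : ℝ) ≤ M * pi by positivity)]
        have e2 : M * pi * |EC - EV| ≤ M * pi * (F8 * Z) :=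
          mul_le_mul_of_nonneg_left (h3.trans h4) (by positivity)
        have e3 : 9 * Q ^ 4 * ∏ p ∈ T, (nu (hit W a H) p : ℝ) ≤ 9 * Q ^ 4 * D :=
          mul_le_mul_of_nonneg_left h2 (by positivity)
        have e4 : M * pi * (F8 * Z) = M * Z * F8 * pi := by ring
        linarith
      convert hgoal using 2
      rw [hS]
      try congr!)
  -- the density
  have hdens : ∏ p ∈ P, (1 - gg p) = dens (hit W a H) w := by
    unfold dens
    rw [hP]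
    apply prod_subset_one_on_sdiff (filter_subset _ _)
    · intro p hp
      rw [Finset.mem_sdiff, mem_filter, not_and] at hp
      have hpp := (mem_pz.1 hp.1).2
      have hpW : p ∣ W := by
        by_contra hcon
        rcases Nat.lt_or_ge C0 p with h1 | h1
        · exact hp.2 hp.1 ⟨hcon, h1⟩
        · exact hcon (hWC p hpp h1)
      have h0 : nu (hit W a H) p = 0 := by
        unfold nu
        rw [card_eq_zero, filter_eq_empty_iff]
        intro r _ hr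
        exact hr.1 hpW
      rw [h0]
      simp
    · intro p _
      rw [hgg]
  obtain ⟨Pi, hPi⟩ : ∃ Pi : ℝ, Pi = dens (hit W a H) w := ⟨_, rfl⟩
  rw [hdens, ← hPi] at key
  have hPi0 : 0 ≤ Pi := by
    rw [hPi]
    exact prod_nonneg fun p hp => fac_nonneg _ p (mem_pz.1 hp).2
  have hhalf : (1 / 2 : ℝ) ^ C0 ≤ 1 / 2 := by
    calc (1 / 2 : ℝ) ^ C0 ≤ (1 / 2 : ℝ) ^ 1 := pow_le_pow_of_le_one (by norm_num) (by norm_num) hC0
      _ = 1 / 2 := pow_one _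
  -- the errors of the fundamental lemma
  have herr : ∑ T ∈ P.powerset.filter (fun T : Finset ℕ => ∏ p ∈ T, p ≤ D),
      (M * Z * F8 * ∏ p ∈ T, gg p + 9 * Q ^ 4 * D) ≤
      M * Z * F8 * (Real.exp (k * C) * Real.log w ^ k) + 9 * Q ^ 4 * (D : ℝ) ^ 2 := by
    rw [sum_add_distrib, ← Finset.mul_sum, sum_const, nsmul_eq_mul]
    have h1 := sum_subsets k w hw C (hMs w hw) P (by rw [hP]; exact filter_subset _ _) gg
      (fun p hp => ⟨hgg0 p, hggk p (hPp p hp).1⟩) (P.powerset.filter (fun T : Finset ℕ => ∏ p ∈ T, p ≤ D))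
      (filter_subset _ _)
    have h2 := card_small P (fun p hp => (hPp p hp).1) D
    have h3 : (((P.powerset.filter (fun T : Finset ℕ => ∏ p ∈ T, p ≤ D)).card : ℕ) : ℝ) ≤ D := by exact_mod_cast h2
    have h4 : (M : ℝ) * Z * F8 * ∑ T ∈ P.powerset.filter (fun T : Finset ℕ => ∏ p ∈ T, p ≤ D), ∏ p ∈ T, gg p ≤
        M * Z * F8 * (Real.exp (k * C) * Real.log w ^ k) := mul_le_mul_of_nonneg_left h1 (by positivity)
    have h5 : (((P.powerset.filter (fun T : Finset ℕ => ∏ p ∈ T, p ≤ D)).card : ℕ) : ℝ) * (9 * Q ^ 4 * D) ≤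
        D * (9 * Q ^ 4 * D) := mul_le_mul_of_nonneg_right h3 (by positivity)
    have h6 : (D : ℝ) * (9 * Q ^ 4 * D) = 9 * Q ^ 4 * (D : ℝ) ^ 2 := by ring
    linarith
  -- the repelled part
  have hS2 := cls PP U ∅ H y hPP hU hH hHU W a hWP (fun p hp => absurd hp (notMem_empty p))
    (fun x => V2 (pP PP) (gP PP) h Q x * ∑ k, SS J k x) (Q * Q * z ^ J) _ hLvS M
  have hmT0 : mT PP ∅ = ∅ := by
    unfold mT
    rw [filter_eq_empty_iff]
    intro i _ hi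
    exact absurd hi (notMem_empty _)
  have hcut0 : ∀ x : Col PP.card ↥U, cut (∅ : Finset (Fin PP.card)) x = x := by
    intro x
    funext i
    unfold Pool.Agent.H312R2.RG.cut
    rw [if_neg (notMem_empty i)]
  rw [hmT0, prod_empty, prod_empty, mul_one, mul_one] at hS2
  simp only [hcut0] at hS2
  have hSS := EE_SS_sum (κ := ↥U) hHyp Q δ J hJ hQ0 htg hug' hδ η hη'
  rw [← hZ] at hSS
  rw [hcard] at hS2
  obtain ⟨N, hN⟩ : ∃ N : ℕ → ℝ, N = fun m => ∑ k, SS J k (colr PP (rU U) ((a + W * m : ℕ) : ℤ)) := ⟨_, rfl⟩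
  have hN0 : ∀ m, 0 ≤ N m := fun m => by
    rw [hN]
    exact Finset.sum_nonneg fun k _ => SS_nonneg' J hJ k _
  have hS2' : ∑ m ∈ Icc 1 M, Vm m * N m ≤ M * (Z * η) + 9 * Q ^ 4 * ((U.card : ℝ) * ((PP.card : ℝ) + 1) ^ J) := by
    have e1 := (abs_le.1 hS2).2
    have e2 : ∑ m ∈ (Icc 1 M).filter (fun m => ∀ p ∈ (∅ : Finset ℕ), hit W a H p m),
        V2 (pP PP) (gP PP) h Q (colr PP (rU U) ((a + W * m : ℕ) : ℤ)) *
          ∑ k, SS J k (colr PP (rU U) ((a + W * m : ℕ) : ℤ)) = ∑ m ∈ Icc 1 M, Vm m * N m := by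
      rw [hVm, hN]
      apply sum_congr _ fun _ _ => rfl
      apply filter_true_of_mem
      intro m _ p hp
      exact absurd hp (notMem_empty p)
    rw [e2] at e1
    have e3 : (M : ℝ) * Pool.Agent.H256R2.SC.EE (gP PP) (fun x : Col PP.card ↥U =>
        V2 (pP PP) (gP PP) h Q x * ∑ k, SS J k x) ≤ M * (Z * η) := mul_le_mul_of_nonneg_left hSS (Nat.cast_nonneg _)
    linarith
  -- the good integers
  obtain ⟨Gd, hGd⟩ : ∃ Gd : Finset ℕ, Gd = (Icc 1 M).filter (fun m => (∀ p ∈ pz w, ¬ hit W a H p m) ∧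
        ∀ u ∈ U, ∃ p ∈ PP, p ∣ a + u + W * m) := ⟨_, rfl⟩
  obtain ⟨R, hR⟩ : ∃ R : Finset ℕ, R = (Icc 1 M).filter (fun m => ∀ p ∈ P, ¬ hit W a H p m) := ⟨_, rfl⟩
  have hgood : ∀ m ∈ R, m ∉ Gd → 1 ≤ N m := by
    intro m hm hmG
    rw [hR, mem_filter] at hm
    rw [hGd, mem_filter] at hmG
    have h1 : ∀ p ∈ pz w, ¬ hit W a H p m := by
      intro p hp hhit
      rcases Nat.lt_or_ge C0 p with h2 | h2
      · exact hm.2 p (by rw [hP, mem_filter]; exact ⟨hp, hhit.1, h2⟩) hhit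
      · exact hhit.1 (hWC p (mem_pz.1 hp).2 h2)
    have h2 : ∃ u ∈ U, ∀ p ∈ PP, ¬ p ∣ a + u + W * m := by
      by_contra hcon
      push Not at hcon
      exact hmG ⟨hm.1, h1, hcon⟩
    obtain ⟨u, hu, hup⟩ := h2
    have h3 : ∀ i, colr PP (rU U) ((a + W * m : ℕ) : ℤ) i ≠ some ⟨u, hu⟩ := by
      intro i hi
      rw [colr_eq hinj] at hi
      have e1 : ((a + W * m : ℕ) : ℤ) - rU U (emb PP i) ⟨u, hu⟩ = ((a + u + W * m : ℕ) : ℤ) := by
        unfold rU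
        push_cast
        ring
      rw [e1, Int.natCast_dvd_natCast] at hi
      exact hup _ (emb_mem PP i) hi
    have h4 := Pool.Agent.H256R2.SC.SS_lower J hJ (⟨u, hu⟩ : ↥U) (colr PP (rU U) ((a + W * m : ℕ) : ℤ))
    rw [if_pos h3] at h4
    refine h4.trans ?_
    rw [hN]
    exact Finset.single_le_sum (f := fun k => SS J k (colr PP (rU U) ((a + W * m : ℕ) : ℤ)))
      (fun k _ => SS_nonneg' J hJ k _) (Finset.mem_univ _)
  have hVle : ∀ m, Vm m ≤ 9 * Q ^ 4 := by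
    intro m
    rw [hVm]
    exact (le_abs_self _).trans (Lv_abs_le hLv _)
  have hmain : ∑ m ∈ R, Vm m - ∑ m ∈ Icc 1 M, Vm m * N m ≤ 9 * Q ^ 4 * (Gd.card : ℝ) := by
    have h1 : ∑ m ∈ R, Vm m * N m ≤ ∑ m ∈ Icc 1 M, Vm m * N m := by
      apply sum_le_sum_of_subset_of_nonneg
      · rw [hR]
        exact filter_subset _ _
      · intro m _ _
        exact mul_nonneg (hVm0 m) (hN0 m)
    have h2 : ∑ m ∈ R, (Vm m - Vm m * N m) ≤ ∑ m ∈ R, (if m ∈ Gd then 9 * Q ^ 4 else 0) := by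
      apply sum_le_sum
      intro m hm
      split_ifs with hG
      · have := mul_nonneg (hVm0 m) (hN0 m)
        linarith [hVle m]
      · have := hgood m hm hG
        nlinarith [hVm0 m]
    rw [sum_sub_distrib] at h2
    have h3 : ∑ m ∈ R, (if m ∈ Gd then 9 * Q ^ 4 else (0 : ℝ)) ≤ 9 * Q ^ 4 * (Gd.card : ℝ) := by
      rw [← sum_filter, sum_const, nsmul_eq_mul, mul_comm]
      apply mul_le_mul_of_nonneg_left _ (by positivity)
      apply Nat.cast_le.2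
      apply card_le_card
      intro m hm
      exact (mem_filter.1 hm).2
    linarith
  -- conclusion
  rw [← hGd, ← hPi, ← hZ, ← hD]
  obtain ⟨S1, hS1⟩ : ∃ S1 : ℝ, S1 = ∑ m ∈ R, Vm m := ⟨_, rfl⟩
  have hkey1 : |S1 - M * EV * Pi| ≤ (1 / 2 : ℝ) ^ C0 * (M * EV * Pi) + ((JJ w : ℝ) + 2) *
      ∑ T ∈ P.powerset.filter (fun T : Finset ℕ => ∏ p ∈ T, p ≤ D), (M * Z * F8 * ∏ p ∈ T, gg p + 9 * Q ^ 4 * D) := by
    rw [hS1, hR, hD]
    rw [hD] at key
    convert key using 2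
  rw [← hS1] at hmain
  have f1 := (abs_le.1 hkey1).1
  have hMEP : 0 ≤ (M : ℝ) * EV * Pi := by positivity
  have f2 : (1 / 2 : ℝ) ^ C0 * (M * EV * Pi) ≤ 1 / 2 * (M * EV * Pi) := mul_le_mul_of_nonneg_right hhalf hMEP
  have f3 : ((JJ w : ℝ) + 2) * ∑ T ∈ P.powerset.filter (fun T : Finset ℕ => ∏ p ∈ T, p ≤ D),
      (M * Z * F8 * ∏ p ∈ T, gg p + 9 * Q ^ 4 * D) ≤ ((JJ w : ℝ) + 2) *
      (M * Z * F8 * (Real.exp (k * C) * Real.log w ^ k) + 9 * Q ^ 4 * (D : ℝ) ^ 2) :=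
    mul_le_mul_of_nonneg_left herr (by positivity)
  have f4 : 3 / 8 * Pi * (M * Z) ≤ 1 / 2 * (M * EV * Pi) := by
    have : (M : ℝ) * Pi * (3 / 4 * Z) ≤ M * Pi * EV := mul_le_mul_of_nonneg_left hEVlow (by positivity)
    linarith
  have f5 : M * Z * (32 * (U.card : ℝ) * Real.exp (8 * ∑ i, gP PP i) * (lam / y) *
          (Real.exp (k * C) * Real.log w ^ k)) = M * Z * F8 * (Real.exp (k * C) * Real.log w ^ k) := by
    rw [hF8]
    ring
  rw [f5]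
  have f6 : (3 / 8 * Pi - η) * (M * Z) = 3 / 8 * Pi * (M * Z) - M * (Z * η) := by ring
  rw [f6]
  linarith

end Pool.Agent.Run7.h63.XP
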