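import Pool.Agent.Run7.h63.XPPar

set_option autoImplicit false

/-!
# Numerical lemmas and the transfer to an interval
-/

namespace Pool.Agent.Run7.h63.XP

open Finset Filter

/-- Rankin's function -/
noncomputable def Ran (X : ℕ) : ℝ :=
  Real.log X * Real.log (Real.log X) * Real.log (Real.log (Real.log (Real.log X))) /
    Real.log (Real.log (Real.log X)) ^ 2

/-- (proof of helper463, `Pool.Agent.R463.EI4`) -/
lemma Rk_ge (κ : ℝ) (hκ : 0 < κ) (hκ1 : κ ≤ 1) : ∀ᶠ X : ℕ in atTop,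
    κ / 8 * Ran X ≤ Rk ⌊κ * Real.log X⌋₊ := by
  have hlog : Tendsto (fun X : ℕ => Real.log (X : ℝ)) atTop atTop :=
    Real.tendsto_log_atTop.comp tendsto_natCast_atTop_atTop
  have hll : Tendsto (fun X : ℕ => Real.log (Real.log (X : ℝ))) atTop atTop :=
    Real.tendsto_log_atTop.comp hlog
  have hlll : Tendsto (fun X : ℕ => Real.log (Real.log (Real.log (X : ℝ)))) atTop atTop :=
    Real.tendsto_log_atTop.comp hll
  have hllll : Tendsto (fun X : ℕ => Real.log (Real.log (Real.log (Real.log (X : ℝ))))) atTop atTop :=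
    Real.tendsto_log_atTop.comp hlll
  filter_upwards [hlog.eventually_ge_atTop (2 / κ), hll.eventually_ge_atTop (2 * (-Real.log (κ / 2))),
    hll.eventually_ge_atTop 4, hlll.eventually_ge_atTop 4, hllll.eventually_ge_atTop 4] with
    X g1 g2 g3 g4 g5
  obtain ⟨T, hT⟩ : ∃ T : ℝ, T = Real.log X := ⟨_, rfl⟩
  unfold Ran Rk
  rw [← hT] at g1 g2 g3 g4 g5 ⊢
  obtain ⟨A, hA⟩ : ∃ A : ℝ, A = Real.log T := ⟨_, rfl⟩
  rw [← hA] at g2 g3 g4 g5 ⊢
  obtain ⟨B, hB⟩ : ∃ B : ℝ, B = Real.log A := ⟨_, rfl⟩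
  rw [← hB] at g4 g5 ⊢
  obtain ⟨D, hD⟩ : ∃ D : ℝ, D = Real.log B := ⟨_, rfl⟩
  rw [← hD] at g5 ⊢
  have hT0 : 0 < T := lt_of_lt_of_le (by positivity) g1
  have hκT : 2 ≤ κ * T := by
    rw [div_le_iff₀ hκ] at g1
    linarith
  obtain ⟨y, hy⟩ : ∃ y : ℕ, y = ⌊κ * T⌋₊ := ⟨_, rfl⟩
  rw [← hy]
  have hy1 : (y : ℝ) ≤ κ * T := by rw [hy]; exact Nat.floor_le (by positivity)
  have hy2 : κ * T < y + 1 := by rw [hy]; exact Nat.lt_floor_add_one _
  have hy3 : κ * T / 2 ≤ y := by linarith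
  have hy0 : (0 : ℝ) < y := by linarith
  have hyT : (y : ℝ) ≤ T := by nlinarith
  have hlog2 : Real.log 2 ≤ 1 := by
    have := Real.log_two_lt_d9
    linarith
  have l1 : Real.log y ≤ A := by
    rw [hA]
    exact Real.log_le_log hy0 hyT
  have l2 : A / 2 ≤ Real.log y := by
    have h1 : Real.log (κ / 2 * T) ≤ Real.log y := Real.log_le_log (by positivity) (by linarith)
    rw [Real.log_mul (by positivity) (by positivity), ← hA] at h1
    linarith
  have l20 : 0 < Real.log (y : ℝ) := by linarith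
  have m1 : Real.log (Real.log y) ≤ B := by
    rw [hB]
    exact Real.log_le_log l20 l1
  have m2 : B / 2 ≤ Real.log (Real.log y) := by
    have h1 : Real.log (A / 2) ≤ Real.log (Real.log y) := Real.log_le_log (by linarith) l2
    rw [Real.log_div (by linarith) (by norm_num), ← hB] at h1
    linarith
  have m20 : 0 < Real.log (Real.log (y : ℝ)) := by linarith
  have n2 : D / 2 ≤ Real.log (Real.log (Real.log y)) := by
    have h1 : Real.log (B / 2) ≤ Real.log (Real.log (Real.log y)) := Real.log_le_log (by linarith) m2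
    rw [Real.log_div (by linarith) (by norm_num), ← hD] at h1
    linarith
  calc κ / 8 * (T * A * D / B ^ 2) = (κ * T / 2) * (A / 2) * (D / 2) / B ^ 2 := by ring
    _ ≤ y * Real.log y * Real.log (Real.log (Real.log y)) / B ^ 2 := by
        apply div_le_div_of_nonneg_right _ (by positivity)
        apply mul_le_mul _ n2 (by linarith) (by positivity)
        exact mul_le_mul hy3 l2 (by linarith) hy0.le
    _ ≤ y * Real.log y * Real.log (Real.log (Real.log y)) / Real.log (Real.log y) ^ 2 := by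
        apply div_le_div_of_nonneg_left
        · have : 0 < Real.log (Real.log (Real.log (y : ℝ))) := by linarith
          positivity
        · positivity
        · exact pow_le_pow_left₀ m20.le m1 2

lemma ev_exp (C : ℝ) (a : ℕ) (b : ℝ) (hb : 0 < b) : ∀ᶠ t : ℝ in atTop, C * t ^ a ≤ Real.exp (b * t) := by
  have e1 := (isLittleO_pow_exp_pos_mul_atTop (k := a) hb).def (show (0:ℝ) < 1 / (|C| + 1) by positivity)
  filter_upwards [e1, eventually_ge_atTop (0:ℝ)] with t ht ht0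
  rw [Real.norm_eq_abs, Real.norm_eq_abs, abs_of_nonneg (by positivity),
    abs_of_nonneg (Real.exp_pos _).le, div_mul_eq_mul_div, one_mul, le_div_iff₀ (by positivity)] at ht
  have h1 : C * t ^ a ≤ |C| * t ^ a := mul_le_mul_of_nonneg_right (le_abs_self C) (by positivity)
  have h2 : 0 ≤ t ^ a := by positivity
  nlinarith

lemma ev_poly (K η : ℝ) (hη : 0 < η) (a b : ℕ) (hab : a < b) : ∀ᶠ t : ℝ in atTop, K * t ^ a ≤ (η * t) ^ b := by
  filter_upwards [eventually_ge_atTop (1:ℝ), eventually_ge_atTop (|K| / η ^ b)] with t h1 h2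
  rw [div_le_iff₀ (by positivity)] at h2
  have h3 : t ≤ t ^ (b - a) := by
    calc t = t ^ 1 := (pow_one t).symm
      _ ≤ t ^ (b - a) := pow_le_pow_right₀ h1 (by omega)
  have h4 : t ^ b = t ^ a * t ^ (b - a) := by rw [← pow_add]; congr 1; omega
  calc K * t ^ a ≤ |K| * t ^ a := mul_le_mul_of_nonneg_right (le_abs_self K) (by positivity)
    _ ≤ (t * η ^ b) * t ^ a := mul_le_mul_of_nonneg_right h2 (by positivity)
    _ ≤ (t ^ (b - a) * η ^ b) * t ^ a := by
        apply mul_le_mul_of_nonneg_right _ (by positivity)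
        exact mul_le_mul_of_nonneg_right h3 (by positivity)
    _ = (η * t) ^ b := by rw [mul_pow, h4]; ring

/-- the choice of the number of scales -/
lemma scale_choice (C lw Λ l : ℝ) (hC : 1 ≤ C) (hl : 0 < l) (hll : l ≤ Real.log Λ) (hl2 : Real.log Λ / 2 ≤ l)
    (h1 : (C ^ 2 + 3) * Real.log Λ ≤ lw) (h2 : lw ≤ Λ) (h3 : 1 ≤ Real.log (Real.log Λ)) :
    1 ≤ Real.log (lw / Real.log Λ) ∧ Real.log (lw / Real.log Λ) ≤ Real.log Λ - Real.log (Real.log Λ) ∧
    ∃ m : ℕ, (m : ℝ) ≤ l / 4 ∧ Real.log (lw / Real.log Λ) / 8 ≤ (m : ℝ) + 1 ∧ (2 : ℝ) ^ m * (C * l) ≤ lw := by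
  have hLL : 0 < Real.log Λ := by linarith
  have hlw : 0 < lw := lt_of_lt_of_le (by positivity) h1
  have hq0 : C ^ 2 + 3 ≤ lw / Real.log Λ := by
    rw [le_div_iff₀ hLL]
    exact h1
  have hr1 : Real.log (C ^ 2 + 3) ≤ Real.log (lw / Real.log Λ) := Real.log_le_log (by positivity) hq0
  have hΛ0 : 0 < Λ := lt_of_lt_of_le hlw h2
  have hr2 : Real.log (lw / Real.log Λ) ≤ Real.log Λ - Real.log (Real.log Λ) := by
    rw [Real.log_div hlw.ne' hLL.ne']
    have := Real.log_le_log hlw h2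
    linarith
  have hone : 1 ≤ Real.log (C ^ 2 + 3) := by
    rw [Real.le_log_iff_exp_le (by positivity)]
    have h4 : Real.exp 1 < 2.7182818286 := Real.exp_one_lt_d9
    nlinarith
  obtain ⟨r, hr⟩ : ∃ r, r = Real.log (lw / Real.log Λ) := ⟨_, rfl⟩
  rw [← hr] at hr1 hr2 ⊢
  obtain ⟨q, hq⟩ : ∃ q, q = lw / (C * l) := ⟨_, rfl⟩
  have hCl : 0 < C * l := by positivity
  have hCL : 2 * Real.log C ≤ r := by
    refine le_trans ?_ hr1
    have h5 : 2 * Real.log C = Real.log (C ^ 2) := by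
      rw [Real.log_pow]
      norm_num
    rw [h5]
    exact Real.log_le_log (by positivity) (by linarith)
  have hlq : r / 2 ≤ Real.log q := by
    have h6 : (lw / Real.log Λ) / C ≤ q := by
      rw [hq, div_div, mul_comm C l]
      apply div_le_div_of_nonneg_left hlw.le (by positivity)
      exact mul_le_mul_of_nonneg_right hll (by linarith)
    have h7 : Real.log ((lw / Real.log Λ) / C) ≤ Real.log q := Real.log_le_log (by positivity) h6
    rw [Real.log_div (by positivity) (by positivity), ← hr] at h7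
    linarith
  have hq1 : 0 < q := by rw [hq]; positivity
  refine ⟨hone.trans hr1, hr2, min ⌊l / 4⌋₊ ⌊Real.logb 2 q⌋₊, ?_, ?_, ?_⟩
  · have h8 : ((min ⌊l / 4⌋₊ ⌊Real.logb 2 q⌋₊ : ℕ) : ℝ) ≤ (⌊l / 4⌋₊ : ℝ) := by exact_mod_cast min_le_left _ _
    exact h8.trans (Nat.floor_le (by positivity))
  · have e1 : r / 8 ≤ (⌊l / 4⌋₊ : ℝ) + 1 := by
      have := Nat.lt_floor_add_one (l / 4)
      have h9 : r ≤ Real.log Λ := by linarith
      linarith
    have e2 : r / 8 ≤ (⌊Real.logb 2 q⌋₊ : ℝ) + 1 := by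
      have := Nat.lt_floor_add_one (Real.logb 2 q)
      have h9 : Real.log q ≤ Real.logb 2 q := by
        unfold Real.logb
        rw [le_div_iff₀ (Real.log_pos (by norm_num))]
        have := Real.log_two_lt_d9
        nlinarith
      linarith
    rcases min_cases ⌊l / 4⌋₊ ⌊Real.logb 2 q⌋₊ with h10 | h10
    · rw [h10.1]; exact e1
    · rw [h10.1]; exact e2
  · have h11 : (2 : ℝ) ^ (min ⌊l / 4⌋₊ ⌊Real.logb 2 q⌋₊) ≤ q := by
      calc (2 : ℝ) ^ (min ⌊l / 4⌋₊ ⌊Real.logb 2 q⌋₊) ≤ (2 : ℝ) ^ (⌊Real.logb 2 q⌋₊) :=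
            pow_le_pow_right₀ (by norm_num) (min_le_right _ _)
        _ = (2 : ℝ) ^ ((⌊Real.logb 2 q⌋₊ : ℕ) : ℝ) := (Real.rpow_natCast _ _).symm
        _ ≤ (2 : ℝ) ^ (Real.logb 2 q) := by
            apply Real.rpow_le_rpow_of_exponent_le (by norm_num)
            apply Nat.floor_le
            apply Real.logb_nonneg (by norm_num)
            have h12 : 0 < Real.log q := by linarith
            exact ((Real.log_pos_iff hq1.le).1 h12).le
        _ = q := Real.rpow_logb (by norm_num) (by norm_num) hq1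
    have h13 : q * (C * l) = lw := by
      rw [hq]
      exact div_mul_cancel₀ _ hCl.ne'
    calc _ ≤ q * (C * l) := mul_le_mul_of_nonneg_right h11 hCl.le
      _ = lw := h13

/-- `n` has no prime factor `p ≤ w` -/
def Ro (w n : ℕ) : Prop := ∀ p : ℕ, p.Prime → p ≤ w → ¬ p ∣ n

open Classical in
/-- the number of the `n ∈ (z, z + Y]` such that, for `j ≤ T`, `n + j` has no prime factor `p ≤ w` iff `j ∈ H` -/
noncomputable def pat (w z Y T : ℕ) (H : Finset ℕ) : ℕ :=
  ((Ioc z (z + Y)).filter (fun n => ∀ j : ℕ, j ≤ T → (Ro w (n + j) ↔ j ∈ H))).card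

open Classical in
/-- the transfer to an interval -/
lemma transfer (P PP U H : Finset ℕ) (n0 w z M T Y : ℕ) (hP : ∀ p ∈ P, p.Prime ∧ p ≤ w)
    (hPP : ∀ p ∈ PP, p.Prime ∧ p ≤ w) (hn : ∀ p ∈ P, ∀ h ∈ H, ¬ p ∣ n0 + h)
    (hU : ∀ j, j ≤ T → j ∉ H → j ∉ U → ∃ p ∈ P, p ∣ n0 + j)
    (hY : (∏ p ∈ P, p) * (M + 1) ≤ Y) :
    ∃ a : ℕ, ((Icc 1 M).filter (fun m => (∀ p ∈ pz w, ¬ hit (∏ p ∈ P, p) a H p m) ∧
        ∀ u ∈ U, ∃ p ∈ PP, p ∣ a + u + (∏ p ∈ P, p) * m)).card ≤ pat w z Y T H := by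
  obtain ⟨W, hW⟩ : ∃ W, W = ∏ p ∈ P, p := ⟨_, rfl⟩
  rw [← hW] at hY ⊢
  have hW0 : 0 < W := by
    rw [hW]
    exact Finset.prod_pos fun p hp => (hP p hp).1.pos
  obtain ⟨t, ht⟩ : ∃ t, t = (n0 + (W - 1) * (z + 1)) % W := ⟨_, rfl⟩
  have htW : t < W := by rw [ht]; exact Nat.mod_lt _ hW0
  have hmod : z + 1 + t ≡ n0 [MOD W] := by
    have h1 : t ≡ n0 + (W - 1) * (z + 1) [MOD W] := by rw [ht]; exact Nat.mod_modEq _ _
    have h2 : z + 1 + t ≡ z + 1 + (n0 + (W - 1) * (z + 1)) [MOD W] := h1.add_left _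
    have h3 : z + 1 + (n0 + (W - 1) * (z + 1)) = n0 + W * (z + 1) := by
      have h4 : W * (z + 1) = (W - 1) * (z + 1) + (z + 1) := by
        conv_lhs => rw [show W = (W - 1) + 1 by omega]
        ring
      rw [h4]
      ring
    rw [h3] at h2
    refine h2.trans ?_
    have h5 : n0 + W * (z + 1) ≡ n0 + 0 [MOD W] :=
      Nat.ModEq.add_left n0 ((Nat.modEq_zero_iff_dvd).2 (Dvd.intro _ rfl))
    rwa [add_zero] at h5
  have hpW : ∀ p ∈ P, p ∣ W := fun p hp => by rw [hW]; exact Finset.dvd_prod_of_mem _ hp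
  have hpP : ∀ p : ℕ, p.Prime → p ∣ W → p ∈ P := by
    intro p hp hd
    rw [hW] at hd
    obtain ⟨q, hq, hpq⟩ := (Nat.Prime.prime hp).exists_mem_finset_dvd hd
    have := (Nat.prime_dvd_prime_iff_eq hp (hP q hq).1).1 hpq
    rw [this]
    exact hq
  refine ⟨z + 1 + t, ?_⟩
  unfold pat
  apply Finset.card_le_card_of_injOn (fun m => z + 1 + t + W * m)
  · intro m hm
    rw [Finset.mem_coe, mem_filter, mem_Icc] at hm
    obtain ⟨⟨hm1, hm2⟩, hm3, hm4⟩ := hm
    rw [Finset.mem_coe, mem_filter, mem_Ioc]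
    beta_reduce
    have hmodm : ∀ j : ℕ, ∀ p ∈ P, (p ∣ z + 1 + t + W * m + j ↔ p ∣ n0 + j) := by
      intro j p hp
      have h1 : z + 1 + t + W * m ≡ n0 + 0 [MOD W] :=
        hmod.add ((Nat.modEq_zero_iff_dvd).2 (Dvd.intro _ rfl))
      rw [add_zero] at h1
      exact Nat.ModEq.dvd_iff (h1.add_right j) (hpW p hp)
    refine ⟨⟨by omega, ?_⟩, ?_⟩
    · have h1 : W * m ≤ W * M := Nat.mul_le_mul_left W hm2
      have h2 : W * (M + 1) = W * M + W := by ring
      omega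
    · intro j hj
      constructor
      · intro hro
        by_contra hjH
        by_cases hjU : j ∈ U
        · obtain ⟨p, hp, hd⟩ := hm4 j hjU
          refine hro p (hPP p hp).1 (hPP p hp).2 ?_
          rw [show z + 1 + t + W * m + j = z + 1 + t + j + W * m by ring]
          exact hd
        · obtain ⟨p, hp, hd⟩ := hU j hj hjH hjU
          exact hro p (hP p hp).1 (hP p hp).2 ((hmodm j p hp).2 hd)
      · intro hjH p hp hpw hd
        by_cases hpW' : p ∣ W
        · exact hn p (hpP p hp hpW') j hjH ((hmodm j p (hpP p hp hpW')).1 hd)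
        · apply hm3 p (mem_pz.2 ⟨hpw, hp⟩)
          refine ⟨hpW', j, hjH, ?_⟩
          rw [show z + 1 + t + j + W * m = z + 1 + t + W * m + j by ring]
          exact hd
  · intro m _ m' _ e
    have e1 : W * m = W * m' := by
      have : z + 1 + t + W * m = z + 1 + t + W * m' := e
      omega
    exact Nat.eq_of_mul_eq_mul_left hW0 e1

end Pool.Agent.Run7.h63.XP
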