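import Pool.Agent.H312R2.RG.E
import Pool.Agent.Run7.h63.XPMain

set_option autoImplicit false

/-!
# The parameters of the repelling weights with a given number of scales

The proof is that of helper777 (`Pool.Agent.H312R2.RG.params`), with the number of scales kept as a parameter.
-/

namespace Pool.Agent.Run7.h63.XP

open Finset Filter
open Pool.Agent.H256R2.SC
open Pool.Agent.H312R2.RG

/-- the parameters, with a given number of scales (helper777's `params` of `Pool.Agent.H312R2.RG.E`) -/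
theorem paramsM (A B : ℕ) (hA : B + 4 ≤ A) : ∃ c₃ : ℝ, 0 < c₃ ∧ ∃ C₀ : ℝ, 1 ≤ C₀ ∧ ∀ᶠ X : ℝ in atTop,
    ∀ m : ℕ, (m : ℝ) ≤ Real.log (Real.log X) / 4 → ∀ (ps : ℕ) (u : ℕ), 1 ≤ u →
    (u : ℝ) ≤ c₃ * (((m : ℝ) + 1) * Real.log X / Real.log (Real.log X)) →
    ∃ (PP : Finset ℕ) (h : Finset (Fin PP.card) → ℝ) (z Kc δ : ℝ) (J : ℕ),
      (∀ p ∈ PP, p.Prime ∧ (Real.log X) ^ A < p ∧ (p : ℝ) ≤ z ∧ p ≠ ps) ∧
      Real.log z = 2 ^ m * (C₀ * A * Real.log (Real.log X)) ∧ 0 < z ∧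
      Hyp (pP PP) (gP PP) h z Kc ∧ Even J ∧ z ≤ X ^ (1 / 1000 : ℝ) ∧
      z ^ J ≤ X ^ (1 / 1000 : ℝ) ∧ ((PP.card : ℝ) + 1) ^ J ≤ X ^ (1 / 1000 : ℝ) ∧
      ∑ i, gP PP i ≤ Real.log (Real.log X) ∧ 4 * (u : ℝ) * ∑ i, (gP PP i) ^ 2 ≤ 1 / 4 ∧
      δ ≤ 2 / (Real.log X) ^ (A - 1) ∧
      (∀ (κ : Type) [Fintype κ] [DecidableEq κ], ∀ D : Col PP.card κ, qq (pP PP) D ≤ X ^ (1 / 1000 : ℝ) →
        2 * ∑ i with D i ≠ none, gP PP i ≤ δ) ∧
      ((u : ℝ) + 1) * (δ ^ 2 + Real.exp (2 * (u : ℝ) * Kc / Real.log z -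
        Real.log (X ^ (1 / 1000 : ℝ) / z) / Real.log z) +
        (1 / 8) ^ J * Real.exp (50 * ∑ i, gP PP i)) ≤ 1 / (Real.log X) ^ B := by
  obtain ⟨c₂, hc₂, hAl⟩ := A_lower
  obtain ⟨CM, hCM⟩ := Pool.Agent.Helper256.KM.mertens_inv
  have hA4 : (4:ℝ) ≤ A := by exact_mod_cast (by omega : 4 ≤ A)
  set C₀ : ℝ := max 1 (4 / c₂) with hC₀
  have hC₀1 : 1 ≤ C₀ := le_max_left _ _
  have hcC : 4 ≤ c₂ * C₀ := by
    have : 4 / c₂ ≤ C₀ := le_max_right _ _
    rw [div_le_iff₀ hc₂] at this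
    linarith
  refine ⟨min 1 (c₂ / (32000 * A)), by positivity, C₀, hC₀1, ?_⟩
  filter_upwards [Real.tendsto_log_atTop.eventually (ev_par A B C₀ CM hC₀1),
    eventually_ge_atTop (1:ℝ)] with X hX hX1 m hm2 ps u hu1 hu
  set L := Real.log X with hL
  set l := Real.log L with hl
  obtain ⟨h1000, hl10, hCMl, hq4, hJb, hexp⟩ := hX
  have hL0 : 0 < L := by linarith
  have hl0 : 0 < l := by linarith
  have hX0 : 0 < X := by linarith
  have hLl : L = Real.exp l := (Real.exp_log hL0).symm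
  have hm0 : (0 : ℝ) ≤ m := Nat.cast_nonneg _
  have hmL : ((m : ℝ) + 1) * L / l ≤ L := by
    rw [div_le_iff₀ hl0]
    nlinarith
  have hmL0 : 0 ≤ ((m : ℝ) + 1) * L / l := by positivity
  have huL : (u : ℝ) ≤ L := by
    refine hu.trans ?_
    have : min 1 (c₂ / (32000 * A)) * (((m : ℝ) + 1) * L / l) ≤ 1 * (((m : ℝ) + 1) * L / l) :=
      mul_le_mul_of_nonneg_right (min_le_left _ _) hmL0
    linarith
  have huc : (u : ℝ) * (128000 * A) ≤ (4 * c₂ * ((m : ℝ) + 1) / l) * L := by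
    have h1 : min 1 (c₂ / (32000 * A)) * (((m : ℝ) + 1) * L / l) ≤ c₂ / (32000 * A) * (((m : ℝ) + 1) * L / l) :=
      mul_le_mul_of_nonneg_right (min_le_right _ _) hmL0
    have h2 := hu.trans h1
    rw [div_mul_eq_mul_div, le_div_iff₀ (by positivity)] at h2
    have h3 : (4 * c₂ * ((m : ℝ) + 1) / l) * L = 4 * (c₂ * (((m : ℝ) + 1) * L / l)) := by ring
    rw [h3]
    linarith
  -- the scales
  set z₀ : ℝ := Real.exp (C₀ * A * l) with hz₀
  have hlz₀ : Real.log z₀ = C₀ * A * l := Real.log_exp _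
  have hCAl : 1 ≤ C₀ * A * l := by
    have h1 : (4:ℝ) ≤ C₀ * A := hA4.trans (le_mul_of_one_le_left (by linarith) hC₀1)
    have h2 : (4:ℝ) * 10 ≤ C₀ * A * l := mul_le_mul h1 hl10 (by norm_num) (by linarith)
    linarith
  have hz₀1 : 1 < z₀ := by
    rw [hz₀, Real.one_lt_exp_iff]
    linarith
  set z : ℝ := z₀ ^ (2 ^ (m + 1 - 1)) with hz
  have hlzj : ∀ j : ℕ, Real.log (z₀ ^ (2 ^ j)) = 2 ^ j * (C₀ * A * l) := by
    intro j
    rw [Real.log_pow, hlz₀]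
    push_cast
    ring
  have hlz : Real.log z = 2 ^ m * (C₀ * A * l) := by
    rw [hz, Nat.add_sub_cancel, hlzj]
  have hz0 : 0 < z := by positivity
  have h2m : (2:ℝ) ^ m ≤ L ^ (1 / 4 : ℝ) := by
    have h1 : (2:ℝ) ^ m ≤ Real.exp m := by
      rw [← Real.exp_one_pow]
      exact pow_le_pow_left₀ (by norm_num) (by have := Real.exp_one_gt_d9; linarith) _
    refine h1.trans ?_
    rw [Real.rpow_def_of_pos hL0]
    apply Real.exp_le_exp.2
    rw [← hl]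
    linarith
  have hL14 : L ^ (1 / 4 : ℝ) * L ^ (1 / 4 : ℝ) = Real.sqrt L := by
    rw [← Real.rpow_add hL0, Real.sqrt_eq_rpow]
    norm_num
  have hlzs : Real.log z ≤ Real.sqrt L := by
    rw [hlz, ← hL14]
    exact mul_le_mul h2m hq4 (by positivity) (by positivity)
  have h2m1 : (1:ℝ) ≤ 2 ^ m := one_le_pow₀ (by norm_num)
  have hlz1 : 1 ≤ Real.log z := by
    rw [hlz]
    exact one_le_mul_of_one_le_of_one_le h2m1 hCAl
  have hsqrt : Real.sqrt L * Real.sqrt L = L := Real.mul_self_sqrt hL0.le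
  have hs30 : 30 ≤ Real.sqrt L := by
    rw [show (30:ℝ) = Real.sqrt (30 ^ 2) from (Real.sqrt_sq (by norm_num)).symm]
    exact Real.sqrt_le_sqrt (by linarith)
  -- the sieving primes
  set y₁ : ℝ := L ^ A with hy₁
  have hly₁ : Real.log y₁ = A * l := by rw [hy₁, Real.log_pow]
  have hy₁3 : L ^ 4 ≤ y₁ := pow_le_pow_right₀ (by linarith) (by omega)
  have hy₁b : 1000 ≤ y₁ := by
    have : L ≤ L ^ 4 := by
      calc L = L ^ 1 := (pow_one L).symm
        _ ≤ L ^ 4 := pow_le_pow_right₀ (by linarith) (by norm_num)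
    linarith
  have hy₁e : y₁ = Real.exp (A * l) := by
    rw [← hly₁, Real.exp_log (by linarith)]
  set PP : Finset ℕ := PS y₁ z {ps} with hPP
  have hPPmem : ∀ p ∈ PP, p.Prime ∧ y₁ < (p : ℝ) ∧ (p : ℝ) ≤ z ∧ p ≠ ps ∧ p ∈ Finset.Icc 1 ⌊z⌋₊ := by
    intro p hp
    rw [hPP, PS, Finset.mem_filter] at hp
    refine ⟨hp.2.1, hp.2.2.1, ?_, ?_, hp.1⟩
    · exact (Nat.le_floor_iff hz0.le).1 (Finset.mem_Icc.1 hp.1).2
    · intro h
      exact hp.2.2.2 (Finset.mem_singleton.2 h)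
  have hpPgt : ∀ i, y₁ < pP PP i := fun i => (hPPmem _ (emb_mem PP i)).2.1
  have hp1 : ∀ i, 1 < pP PP i := fun i => lt_trans (by linarith) (hpPgt i)
  have hg0 : ∀ i, 0 < gP PP i := fun i => one_div_pos.2 (lt_trans one_pos (hp1 i))
  have hgy : ∀ i, gP PP i ≤ 1 / y₁ := fun i =>
    one_div_le_one_div_of_le (by linarith) (hpPgt i).le
  have hxz : ∀ j < m + 1, z₀ ^ (2 ^ j) ≤ z := by
    intro j hj
    rw [hz]
    exact pow_le_pow_right₀ hz₀1.le (Nat.pow_le_pow_right (by norm_num) (by omega))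
  have hyx : ∀ j : ℕ, y₁ ≤ z₀ ^ (2 ^ j) := by
    intro j
    have h1 : y₁ ≤ z₀ := by
      rw [hy₁e, hz₀]
      apply Real.exp_le_exp.2
      have : (A:ℝ) * l ≤ C₀ * (A * l) := le_mul_of_one_le_left (by positivity) hC₀1
      linarith
    refine h1.trans ?_
    calc z₀ = z₀ ^ 1 := (pow_one _).symm
      _ ≤ z₀ ^ (2 ^ j) := pow_le_pow_right₀ hz₀1.le Nat.one_le_two_pow
  have hAs : ∀ j < m + 1, 1 ≤ Asum (pP PP) (gP PP) (z₀ ^ (2 ^ j)) ∧
      c₂ / (2 * A * l) * (2 ^ j * Real.log z₀) ≤ Asum (pP PP) (gP PP) (z₀ ^ (2 ^ j)) := by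
    intro j hj
    rw [hlz₀]
    refine Asum_ge c₂ C₀ A l y₁ z (z₀ ^ (2 ^ j)) PP {ps} hPP ?_ j (hlzj j) hly₁ (by linarith) hl0
      hc₂ hcC
    exact hAl y₁ z _ {ps} (by linarith) (hyx j) (hxz j hj) (by simp; linarith)
  obtain ⟨h, hh⟩ := exists_h (pP PP) (gP PP) hp1 hg0 (m + 1) (by omega) z₀
    (c₂ / (2 * A * l)) hz₀1 (by positivity) hAs
  set Kc : ℝ := 4 / (c₂ / (2 * A * l) * ((m + 1 : ℕ) : ℝ)) with hKc
  have hKcle : Kc ≤ 32 * A / (4 * c₂ * ((m : ℝ) + 1) / l) := by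
    rw [hKc]
    push_cast
    apply le_of_eq
    field_simp
    ring
  -- the length of Bonferroni
  set J₀ : ℕ := ⌈((B : ℝ) + 60) * l⌉₊ with hJ₀
  have hJ1 : ((B : ℝ) + 60) * l ≤ J₀ := Nat.le_ceil _
  have hJ2 : (J₀ : ℝ) ≤ ((B : ℝ) + 60) * l + 1 := (Nat.ceil_lt_add_one (by positivity)).le
  set J : ℕ := 2 * J₀ with hJ
  have hXe : X ^ (1 / 1000 : ℝ) = Real.exp (L / 1000) := by
    rw [Real.rpow_def_of_pos hX0, ← hL]
    congr 1
    ring
  have hze : z = Real.exp (Real.log z) := (Real.exp_log hz0).symm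
  have hJcast : (J : ℝ) = 2 * J₀ := by rw [hJ]; push_cast; ring
  have hJlz : 2 * (J : ℝ) * Real.log z ≤ L / 1000 := by
    have h1 : 2 * (J : ℝ) ≤ Real.sqrt L / 1000 := by
      rw [hJcast]
      linarith
    have h2 : 2 * (J : ℝ) * Real.log z ≤ Real.sqrt L / 1000 * Real.sqrt L :=
      mul_le_mul h1 hlzs (by linarith) (by positivity)
    have h3 : Real.sqrt L / 1000 * Real.sqrt L = L / 1000 := by
      rw [div_mul_eq_mul_div, hsqrt]
    linarith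
  have hz2J : z ^ (2 * J) ≤ X ^ (1 / 1000 : ℝ) := by
    rw [hXe, hze, ← Real.exp_nat_mul]
    apply Real.exp_le_exp.2
    push_cast
    exact hJlz
  have hzz₀ : z₀ ≤ z := by
    have := hxz 0 (by omega)
    simpa using this
  have hz1 : 1 < z := lt_of_lt_of_le hz₀1 hzz₀
  have hz2 : 2 ≤ z := by
    have : y₁ ≤ z := (hyx 0).trans (hxz 0 (by omega))
    linarith
  have hJpos : 1 ≤ J := by
    have h1 : (0:ℝ) < J₀ := lt_of_lt_of_le (by positivity) hJ1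
    have h2 : 0 < J₀ := by exact_mod_cast h1
    omega
  have hcard : (PP.card : ℝ) ≤ z := by
    have h1 : PP.card ≤ (Finset.Icc 1 ⌊z⌋₊).card :=
      Finset.card_le_card fun p hp => (hPPmem p hp).2.2.2.2
    rw [Nat.card_Icc, Nat.add_sub_cancel] at h1
    exact (by exact_mod_cast h1 : (PP.card : ℝ) ≤ (⌊z⌋₊ : ℝ)).trans (Nat.floor_le hz0.le)
  -- the sum of the densities
  have hsum : ∑ i, gP PP i ≤ l := by
    have h1 : ∑ i, gP PP i = ∑ p ∈ PP, 1 / (p : ℝ) := sum_emb PP fun p => 1 / (p : ℝ)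
    have h2 : ∑ p ∈ PP, 1 / (p : ℝ) ≤ ∑ p ∈ (Finset.Icc 1 ⌊z⌋₊).filter Nat.Prime, 1 / (p : ℝ) := by
      refine Finset.sum_le_sum_of_subset_of_nonneg ?_ fun _ _ _ => by positivity
      intro p hp
      exact Finset.mem_filter.2 ⟨(hPPmem p hp).2.2.2.2, (hPPmem p hp).1⟩
    have hz1000 : 1000 ≤ z := hy₁b.trans ((hyx 0).trans (hxz 0 (by omega)))
    have hN3 : 3 ≤ ⌊z⌋₊ := Nat.le_floor (by push_cast; linarith)
    have h3 := (abs_le.1 (hCM ⌊z⌋₊ hN3)).2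
    have hN3' : (3:ℝ) ≤ (⌊z⌋₊ : ℝ) := by exact_mod_cast hN3
    have h4 : Real.log (Real.log (⌊z⌋₊ : ℝ)) ≤ l / 2 := by
      have h5 : Real.log (⌊z⌋₊ : ℝ) ≤ Real.log z :=
        Real.log_le_log (by linarith) (Nat.floor_le hz0.le)
      have h6 : 0 < Real.log (⌊z⌋₊ : ℝ) := Real.log_pos (by linarith)
      have h7 : Real.log (Real.log (⌊z⌋₊ : ℝ)) ≤ Real.log (Real.sqrt L) :=
        Real.log_le_log h6 (h5.trans hlzs)
      rw [Real.log_sqrt hL0.le] at h7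
      exact h7
    rw [h1]
    linarith
  have hsq : ∑ i, (gP PP i) ^ 2 ≤ 2 / y₁ := by
    have h1 : ∑ i, (gP PP i) ^ 2 = ∑ p ∈ PP, (1 / (p : ℝ)) ^ 2 :=
      sum_emb PP fun p => (1 / (p : ℝ)) ^ 2
    rw [h1]
    exact sum_sq_tail y₁ (by linarith) PP fun p hp => (hPPmem p hp).2.1
  have hLA : L ^ A = L * L ^ (A - 1) := by
    rw [← pow_succ', Nat.sub_add_cancel (by omega)]
  refine ⟨PP, h, z, Kc, 2 / L ^ (A - 1), J, ?_, hlz, hz0, hh, ⟨J₀, by omega⟩, ?_, ?_, ?_, hsum, ?_, le_rfl,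
    ?_, ?_⟩
  · intro p hp
    exact ⟨(hPPmem p hp).1, (hPPmem p hp).2.1, (hPPmem p hp).2.2.1, (hPPmem p hp).2.2.2.1⟩
  · refine le_trans ?_ hz2J
    calc z = z ^ 1 := (pow_one z).symm
      _ ≤ z ^ (2 * J) := pow_le_pow_right₀ hz1.le (by omega)
  · exact (pow_le_pow_right₀ hz1.le (by omega)).trans hz2J
  · refine le_trans ?_ hz2J
    have h0 : 2 * z ≤ z * z := mul_le_mul_of_nonneg_right hz2 hz0.le
    have h1 : (PP.card : ℝ) + 1 ≤ z ^ 2 := by
      rw [sq]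
      linarith
    have h2 : (0:ℝ) ≤ (PP.card : ℝ) + 1 := add_nonneg (Nat.cast_nonneg _) zero_le_one
    calc ((PP.card : ℝ) + 1) ^ J ≤ (z ^ 2) ^ J := pow_le_pow_left₀ h2 h1 _
      _ = z ^ (2 * J) := (pow_mul z 2 J).symm
  · have h1 : 4 * (u : ℝ) * ∑ i, (gP PP i) ^ 2 ≤ 4 * L * (2 / y₁) :=
      mul_le_mul (by linarith) hsq (Finset.sum_nonneg fun _ _ => sq_nonneg _) (by positivity)
    refine h1.trans ?_
    rw [mul_div_assoc', div_le_div_iff₀ (by linarith) (by norm_num)]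
    have h2 : L ^ 4 = L * L ^ 3 := by ring
    have h3 : 1000 ≤ L ^ 3 := by
      calc (1000:ℝ) ≤ L := h1000
        _ = L ^ 1 := (pow_one L).symm
        _ ≤ L ^ 3 := pow_le_pow_right₀ (by linarith) (by norm_num)
    have h5 : L * 1000 ≤ L * L ^ 3 := mul_le_mul_of_nonneg_left h3 hL0.le
    linarith
  · intro κ _ _ D hD
    have h1 : ∏ i ∈ univ.filter (fun i => D i ≠ none), pP PP i ≤ Real.exp (L / 1000) := by
      rw [← hXe]
      refine le_trans (le_of_eq ?_) hD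
      rw [qq, Finset.prod_filter]
      refine Finset.prod_congr rfl fun i _ => ?_
      cases hDi : D i with
      | none => simp [nu1]
      | some k => simp [nu1]
    have h2 := card_of_prod (pP PP) (univ.filter (fun i => D i ≠ none)) L (fun i => by
      have := hpPgt i
      have h3 : Real.exp 1 < 2.7182818286 := Real.exp_one_lt_d9
      linarith) h1
    have h3 : ∑ i with D i ≠ none, gP PP i ≤
        ((univ.filter (fun i => D i ≠ none)).card : ℝ) * (1 / y₁) := by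
      rw [← nsmul_eq_mul]
      exact Finset.sum_le_card_nsmul _ _ _ fun i _ => hgy i
    have h4 : ((univ.filter (fun i => D i ≠ none)).card : ℝ) * (1 / y₁) ≤ L / 1000 * (1 / y₁) :=
      mul_le_mul_of_nonneg_right h2 (by positivity)
    have h5 : L / 1000 * (1 / y₁) = (1 / 1000) * (1 / L ^ (A - 1)) := by
      rw [hy₁, hLA]
      field_simp
    have h6 : (0:ℝ) ≤ 1 / L ^ (A - 1) := by positivity
    have h7 : 2 / L ^ (A - 1) = 2 * (1 / L ^ (A - 1)) := by ring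
    rw [h7]
    linarith
  · exact fin_all L l (Real.log z) (4 * c₂ * ((m : ℝ) + 1) / l) Kc (∑ i, gP PP i) A u (Real.log (X ^ (1 / 1000 : ℝ) / z)) A B
      J₀ J hA (by exact_mod_cast hu1) hLl h1000 hl10 hlz1 hlzs (by positivity) hKcle huc hsum hJ1 hJcast huL hexp
      (by rw [Real.log_div (Real.rpow_pos_of_pos hX0 _).ne' hz0.ne', hXe, Real.log_exp])

end Pool.Agent.Run7.h63.XP
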