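import Pool.Agent.Run7.h63.XPNum

set_option autoImplicit false

/-!
# The covering and the repelling weights at a given level
-/

namespace Pool.Agent.Run7.h63.XP

open Finset Filter
open Pool.Agent.H256R2.SC (Col emb emb_mem emb_surj colr Hyp Zs qq Zs_ge_one)
open Pool.Agent.H312R2.RG (pP gP)

lemma hexp4 (y : ℕ) (s : ℝ) (hy : (y : ℝ) ≤ s) : (4 : ℝ) ^ y ≤ Real.exp (3 / 2 * s) := by
  have hlog4 : Real.log 4 ≤ 3 / 2 := by
    have h1 : Real.log 4 = 2 * Real.log 2 := by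
      rw [show (4 : ℝ) = 2 ^ 2 by norm_num, Real.log_pow]
      norm_num
    have := Real.log_two_lt_d9
    linarith
  have h2 : (4 : ℝ) ^ y = Real.exp ((y : ℝ) * Real.log 4) := by
    rw [mul_comm, ← Real.rpow_def_of_pos (by norm_num), Real.rpow_natCast]
  rw [h2]
  apply Real.exp_le_exp.2
  have h3 : (y : ℝ) * Real.log 4 ≤ (y : ℝ) * (3 / 2) := mul_le_mul_of_nonneg_left hlog4 (by positivity)
  linarith

lemma prod_primes_le (P : Finset ℕ) (y : ℕ) (hP : ∀ p ∈ P, p.Prime ∧ p ≤ y) : ∏ p ∈ P, p ≤ 4 ^ y := by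
  refine le_trans ?_ (primorial_le_four_pow y)
  unfold primorial
  apply Finset.prod_le_prod_of_subset_of_one_le'
  · intro p hp
    rw [mem_filter, mem_range]
    have := hP p hp
    exact ⟨by omega, this.1⟩
  · intro p hp _
    exact (mem_filter.1 hp).2.one_le

open Classical in
/-- the covering and the repelling weights -/
theorem setup (k N : ℕ) : ∃ A₁ : ℕ, ∀ κ : ℝ, 0 < κ → κ ≤ 1 / 16 → ∃ c : ℝ, 0 < c ∧ ∀ᶠ Y : ℕ in atTop,
    ∀ w : ℕ, Real.log Y ^ A₁ ≤ w → Real.log w ≤ Real.log Y → ∀ T : ℕ,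
      (T : ℝ) ≤ c * (Ran Y * Real.log (Real.log w / Real.log (Real.log Y))) →
      ∀ H : Finset ℕ, Adm H → H.card ≤ k → (∀ h ∈ H, h ≤ T) →
      1 ≤ Real.log w ∧ Real.log Y ≤ w ∧ 
      ∃ (P : Finset ℕ) (n0 : ℕ) (U PP : Finset ℕ) (h : Finset (Fin PP.card) → ℝ) (z Kc δ : ℝ) (J : ℕ),
        (∀ p ∈ P, p.Prime ∧ (p : ℝ) ≤ Real.log Y) ∧ (∀ p : ℕ, p.Prime → p ≤ N → p ∈ P) ∧
        ((∏ p ∈ P, p : ℕ) : ℝ) ≤ Real.exp (3 / 2 * (κ * Real.log Y)) ∧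
        (∀ p ∈ P, ∀ h ∈ H, ¬ p ∣ n0 + h) ∧
        (∀ j, j ≤ T → j ∉ H → j ∉ U → ∃ p ∈ P, p ∣ n0 + j) ∧ (∀ h ∈ H, h ∉ U) ∧ U.Nonempty ∧
        (U.card : ℝ) ≤ Real.log Y ∧ (∀ u ∈ U, (u : ℝ) ≤ 2 * Real.log Y ^ 3) ∧ (T : ℝ) ≤ 2 * Real.log Y ^ 3 ∧
        (∀ p ∈ PP, p.Prime ∧ (κ * Real.log Y) ^ (3 * k + 12) < p ∧ (p : ℝ) ≤ z ∧ p ≤ w) ∧
        Hyp (pP PP) (gP PP) h z Kc ∧ Even J ∧ ((PP.card : ℝ) + 1) ^ J ≤ Real.exp (κ * Real.log Y) ^ (1 / 1000 : ℝ) ∧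
        ∑ i, gP PP i ≤ Real.log (κ * Real.log Y) ∧ 4 * (U.card : ℝ) * ∑ i, (gP PP i) ^ 2 ≤ 1 / 4 ∧
        δ ≤ 2 / (κ * Real.log Y) ^ (3 * k + 12 - 1) ∧
        (∀ (τ : Type) [Fintype τ] [DecidableEq τ], ∀ D : Col PP.card τ,
          qq (pP PP) D ≤ Real.exp (κ * Real.log Y) ^ (1 / 1000 : ℝ) →
          2 * ∑ i with D i ≠ none, gP PP i ≤ δ) ∧
        ((U.card : ℝ) + 1) * (δ ^ 2 + Real.exp (2 * (U.card : ℝ) * Kc / Real.log z -
          Real.log (Real.exp (κ * Real.log Y) ^ (1 / 1000 : ℝ) / z) / Real.log z) +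
          (1 / 8) ^ J * Real.exp (50 * ∑ i, gP PP i)) ≤ 1 / (κ * Real.log Y) ^ (2 * k + 1) := by
  obtain ⟨A, hA⟩ : ∃ A : ℕ, A = 3 * k + 12 := ⟨_, rfl⟩
  obtain ⟨B, hB⟩ : ∃ B : ℕ, B = 2 * k + 1 := ⟨_, rfl⟩
  obtain ⟨c₃, hc₃, C₀, hC₀, hpar⟩ := paramsM A B (by omega)
  obtain ⟨c0, hc0, y0, hcov⟩ := cover k (min 1 (c₃ / 32)) (by positivity)
  obtain ⟨A₁, hA₁⟩ : ∃ A₁ : ℕ, A₁ = ⌈(C₀ * A) ^ 2⌉₊ + 3 := ⟨_, rfl⟩
  rw [← hA, ← hB]
  refine ⟨A₁, ?_⟩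
  intro κ hκ0 hκ1
  have hlog : Tendsto (fun X : ℕ => Real.log (X : ℝ)) atTop atTop :=
    Real.tendsto_log_atTop.comp tendsto_natCast_atTop_atTop
  have hll : Tendsto (fun X : ℕ => Real.log (Real.log (X : ℝ))) atTop atTop :=
    Real.tendsto_log_atTop.comp hlog
  have hlll : Tendsto (fun X : ℕ => Real.log (Real.log (Real.log (X : ℝ)))) atTop atTop :=
    Real.tendsto_log_atTop.comp hll
  have evX := (Real.tendsto_exp_atTop.comp (Tendsto.const_mul_atTop hκ0 hlog)).eventually hpar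
  have evl : ∀ᶠ t : ℝ in atTop, Real.log t ≤ c₃ * κ / 2 * t := by
    have e1 := Real.isLittleO_log_id_atTop.def (show (0 : ℝ) < c₃ * κ / 2 by positivity)
    filter_upwards [e1, eventually_ge_atTop (1 : ℝ)] with t ht ht1
    rw [Real.norm_of_nonneg (Real.log_nonneg ht1), id, Real.norm_of_nonneg (by linarith)] at ht
    exact ht
  refine ⟨c0 * (κ / 8), by positivity, ?_⟩
  filter_upwards [Rk_ge κ hκ0 (by linarith), evX, hlog.eventually evl,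
    hlog.eventually_ge_atTop (max 3 ((y0 + 1) / κ)),
    hll.eventually_ge_atTop (max (-2 * Real.log (κ / 2)) (8 * (N + 1))),
    hlll.eventually_ge_atTop (max 1 (-Real.log (κ / 2)))] with Y g1 g2 g3 g4 g5 g6
  clear hlog hll hlll evX evl hpar
  intro w hw hwΛ T hT H hH hHk hHT
  rw [Function.comp_apply, Real.log_exp] at g2
  obtain ⟨Λ, hΛ⟩ : ∃ Λ : ℝ, Λ = Real.log Y := ⟨_, rfl⟩
  rw [← hΛ] at g1 g2 g3 g4 g5 g6 hw hwΛ ⊢
  have hΛ3 : 3 ≤ Λ := (le_max_left _ _).trans g4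
  have hΛ0 : 0 < Λ := by linarith
  have hΛy : ((y0 : ℝ) + 1) / κ ≤ Λ := (le_max_right _ _).trans g4
  rw [div_le_iff₀ hκ0] at hΛy
  have hLL1 : -2 * Real.log (κ / 2) ≤ Real.log Λ := (le_max_left _ _).trans g5
  have hLL2 : 8 * ((N : ℝ) + 1) ≤ Real.log Λ := (le_max_right _ _).trans g5
  have hLLL1 : 1 ≤ Real.log (Real.log Λ) := (le_max_left _ _).trans g6
  have hLLL2 : -Real.log (κ / 2) ≤ Real.log (Real.log Λ) := (le_max_right _ _).trans g6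
  clear g4 g5 g6
  have hN0 : (0 : ℝ) ≤ N := Nat.cast_nonneg _
  have hLL : 0 < Real.log Λ := by linarith
  -- the level `w`
  have hA₁r : (C₀ * A) ^ 2 + 3 ≤ (A₁ : ℝ) := by
    rw [hA₁]
    push_cast
    have := Nat.le_ceil ((C₀ * A) ^ 2)
    linarith
  have hw0 : (0 : ℝ) < w := lt_of_lt_of_le (by positivity) hw
  have hΛw : Λ ≤ w := by
    refine le_trans ?_ hw
    calc Λ = Λ ^ 1 := (pow_one _).symm
      _ ≤ Λ ^ A₁ := pow_le_pow_right₀ (by linarith) (by omega)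
  obtain ⟨lw, hlw⟩ : ∃ lw : ℝ, lw = Real.log w := ⟨_, rfl⟩
  have hlw1 : A₁ * Real.log Λ ≤ lw := by
    rw [hlw, ← Real.log_pow]
    exact Real.log_le_log (by positivity) hw
  rw [← hlw] at hwΛ
  have hlw2 : ((C₀ * A) ^ 2 + 3) * Real.log Λ ≤ lw :=
    (mul_le_mul_of_nonneg_right hA₁r hLL.le).trans hlw1
  have hlw0 : 1 ≤ lw := by
    have h0 := sq_nonneg (C₀ * (A : ℝ))
    have h1 : (3 : ℝ) * 1 ≤ ((C₀ * A) ^ 2 + 3) * Real.log Λ :=
      mul_le_mul (by linarith) (by linarith) (by norm_num) (by positivity)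
    linarith
  -- `l = log (κ Λ)`
  obtain ⟨l, hl⟩ : ∃ l : ℝ, l = Real.log (κ * Λ) := ⟨_, rfl⟩
  have hlk : l = Real.log κ + Real.log Λ := by rw [hl, Real.log_mul hκ0.ne' hΛ0.ne']
  have hκlog : Real.log (κ / 2) ≤ Real.log κ := Real.log_le_log (by positivity) (by linarith)
  have hκneg : Real.log κ ≤ 0 := Real.log_nonpos hκ0.le (by linarith)
  have hlLL : l ≤ Real.log Λ := by linarith
  have hlLL2 : Real.log Λ / 2 ≤ l := by linarith
  have hl0 : 0 < l := by linarith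
  have hA1 : (1 : ℝ) ≤ A := by
    have : 1 ≤ A := by omega
    exact_mod_cast this
  -- the exact scale
  obtain ⟨hr1, hr2, m, hm1, hm2, hm3⟩ := scale_choice (C₀ * A) lw Λ l
    (one_le_mul_of_one_le_of_one_le hC₀ hA1) hl0 hlLL hlLL2 hlw2 hwΛ hLLL1
  obtain ⟨r, hr⟩ : ∃ r : ℝ, r = Real.log (lw / Real.log Λ) := ⟨_, rfl⟩
  rw [← hr] at hr1 hr2 hm2
  -- the covering
  obtain ⟨y, hy⟩ : ∃ y : ℕ, y = ⌊κ * Λ⌋₊ := ⟨_, rfl⟩
  rw [← hy] at g1
  have hκΛ0 : 0 < κ * Λ := by positivity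
  have hy1 : (y : ℝ) ≤ κ * Λ := by rw [hy]; exact Nat.floor_le hκΛ0.le
  have hy2 : κ * Λ < y + 1 := by rw [hy]; exact Nat.lt_floor_add_one _
  have hy00 : y0 ≤ y := by
    rw [hy]
    apply Nat.le_floor
    linarith
  have hκΛ : 2 ≤ κ * Λ := by
    have h1 : (4 : ℝ) ≤ l := by linarith
    have h2 : (l + 1 : ℝ) ≤ Real.exp l := Real.add_one_le_exp l
    rw [hl, Real.exp_log hκΛ0] at h2
    rw [← hl] at h2
    linarith
  have hy3 : κ * Λ / 2 ≤ y := by linarith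
  have hκΛ16 : κ * Λ ≤ 1 / 16 * Λ := mul_le_mul_of_nonneg_right hκ1 hΛ0.le
  have hyΛ : (y : ℝ) ≤ 1 / 16 * Λ := hy1.trans hκΛ16
  have hy0r : (0 : ℝ) < y := by linarith
  have hly1 : Real.log Λ + Real.log (κ / 2) ≤ Real.log y := by
    have h1 : Real.log (κ / 2 * Λ) ≤ Real.log y := Real.log_le_log (by positivity) (by linarith)
    rw [Real.log_mul (by positivity) (by positivity)] at h1
    linarith
  have hly2 : Real.log Λ / 2 ≤ Real.log y := by linarith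
  have hlyC : (N : ℝ) + 1 ≤ Real.log y := by linarith
  have hlyy : Real.log y ≤ y := by
    have := Real.log_le_sub_one_of_pos hy0r
    linarith
  have hly4 : Real.log y ≤ Real.log y ^ 4 := by
    calc Real.log y = Real.log y ^ 1 := (pow_one _).symm
      _ ≤ Real.log y ^ 4 := pow_le_pow_right₀ (by linarith) (by norm_num)
  have hTc : (T : ℝ) ≤ c0 * (Rk y * r) := by
    refine hT.trans ?_
    rw [← hΛ, ← hlw, ← hr]
    have h1 : κ / 8 * Ran Y * r ≤ Rk y * r := mul_le_mul_of_nonneg_right g1 (by linarith)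
    have h2 : c0 * (κ / 8 * Ran Y * r) ≤ c0 * (Rk y * r) := mul_le_mul_of_nonneg_left h1 hc0.le
    linarith
  obtain ⟨P, n0, hP1, hP2, hP3, hTy, hP4⟩ := hcov y hy00 r hr1 (by linarith) T hTc H hH hHk hHT
  clear hcov
  obtain ⟨U, hU⟩ : ∃ U : Finset ℕ, U = insert (T + 1)
    ((range (T + 1)).filter (fun j => j ∉ H ∧ ∀ p ∈ P, ¬ p ∣ n0 + j)) := ⟨_, rfl⟩
  have hUc : (U.card : ℝ) ≤ min 1 (c₃ / 32) * r * (y / Real.log y) + 1 := by
    have h1 := card_insert_le (T + 1) ((range (T + 1)).filter (fun j => j ∉ H ∧ ∀ p ∈ P, ¬ p ∣ n0 + j))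
    rw [← hU] at h1
    have h2 : (U.card : ℝ) ≤ (((range (T + 1)).filter (fun j => j ∉ H ∧ ∀ p ∈ P, ¬ p ∣ n0 + j)).card : ℝ) + 1 := by
      exact_mod_cast h1
    linarith
  have hly0 : 0 < Real.log (y : ℝ) := by linarith
  have hUΛ : (U.card : ℝ) ≤ Λ := by
    have h1 : min 1 (c₃ / 32) * r * (y / Real.log y) ≤ y := by
      have h2 : min 1 (c₃ / 32) * r ≤ 1 * Real.log y :=
        mul_le_mul (min_le_left _ _) (by linarith) (by linarith) (by norm_num)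
      calc min 1 (c₃ / 32) * r * (y / Real.log y) ≤ (1 * Real.log y) * (y / Real.log y) :=
            mul_le_mul_of_nonneg_right h2 (by positivity)
        _ = y := by field_simp
    linarith
  have hUpos : 1 ≤ U.card := by
    rw [hU]
    exact card_pos.2 ⟨T + 1, mem_insert_self _ _⟩
  have hUm : (U.card : ℝ) ≤ c₃ * (((m : ℝ) + 1) * (κ * Λ) / Real.log (κ * Λ)) := by
    rw [← hl]
    refine hUc.trans ?_
    have hm0 : (0 : ℝ) ≤ m := Nat.cast_nonneg _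
    have e1 : min 1 (c₃ / 32) * r * (y / Real.log y) ≤ c₃ / 2 * (((m : ℝ) + 1) * (κ * Λ) / l) := by
      have h1 : min 1 (c₃ / 32) * r ≤ c₃ / 32 * (8 * ((m : ℝ) + 1)) :=
        mul_le_mul (min_le_right _ _) (by linarith) (by linarith) (by positivity)
      have h2 : (y : ℝ) / Real.log y ≤ (κ * Λ) / (l / 2) := by
        apply div_le_div₀ (by positivity) hy1 (by positivity) (by linarith)
      calc min 1 (c₃ / 32) * r * (y / Real.log y) ≤ (c₃ / 32 * (8 * ((m : ℝ) + 1))) * ((κ * Λ) / (l / 2)) :=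
            mul_le_mul h1 h2 (by positivity) (by positivity)
        _ = c₃ / 2 * (((m : ℝ) + 1) * (κ * Λ) / l) := by field_simp; ring
    have e2 : 1 ≤ c₃ / 2 * (((m : ℝ) + 1) * (κ * Λ) / l) := by
      have h1 : l ≤ c₃ * κ / 2 * Λ := hlLL.trans g3
      have h2 : 1 * (κ * Λ) ≤ ((m : ℝ) + 1) * (κ * Λ) := mul_le_mul_of_nonneg_right (by linarith) (by positivity)
      rw [mul_div_assoc', le_div_iff₀ hl0]
      have h3 : c₃ / 2 * (1 * (κ * Λ)) ≤ c₃ / 2 * (((m : ℝ) + 1) * (κ * Λ)) :=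
        mul_le_mul_of_nonneg_left h2 (by positivity)
      linarith
    linarith
  -- the repelling weights
  obtain ⟨PP, h, zz, Kc, δ, J, hPPp, hlz, hzz0, hHyp, hJe, -, -, hPPJ, hgs, hgsq, hδ1, hδ2, hη⟩ :=
    g2 m (by rw [← hl]; exact hm1) 0 U.card hUpos hUm
  rw [← hl] at hlz
  have hzw : zz ≤ w := by
    rw [← Real.log_le_log_iff hzz0 hw0, hlz, ← hlw]
    exact hm3
  have hT3 : (T : ℝ) ≤ Λ ^ 3 := by
    refine hTy.trans ?_
    have h1 : (y : ℝ) ≤ Λ := by linarith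
    have h2 : Real.log y ≤ Λ := hlyy.trans h1
    calc (y : ℝ) * Real.log y ^ 2 ≤ Λ * Λ ^ 2 :=
          mul_le_mul h1 (pow_le_pow_left₀ hly0.le h2 2) (by positivity) hΛ0.le
      _ = Λ ^ 3 := by ring
  have hΛ31 : 1 ≤ Λ ^ 3 := one_le_pow₀ (by linarith)
  rw [← hlw]
  refine ⟨hlw0, hΛw, P, n0, U, PP, h, zz, Kc, δ, J, ?_, ?_, ?_, hP3, ?_, ?_, ?_, hUΛ, ?_, by linarith, ?_, hHyp, hJe,
    hPPJ, hgs, hgsq, hδ1, hδ2, hη⟩
  · intro p hp
    have h1 := hP1 p hp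
    have h2 : (p : ℝ) ≤ y := by exact_mod_cast h1.2
    exact ⟨h1.1, by linarith⟩
  · intro p hp hpN
    have h1 : (p : ℝ) ≤ N := by exact_mod_cast hpN
    apply hP2 p hp (by linarith)
    have h2 : (p : ℝ) ≤ y := by linarith
    exact_mod_cast h2
  · have h1 : ((∏ p ∈ P, p : ℕ) : ℝ) ≤ (4 : ℝ) ^ y := by exact_mod_cast prod_primes_le P y hP1
    exact h1.trans (hexp4 y _ hy1)
  · intro j hj hjH hjU
    by_contra hcon
    push Not at hcon
    apply hjU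
    rw [hU]
    apply mem_insert_of_mem
    rw [mem_filter, mem_range]
    exact ⟨by omega, hjH, hcon⟩
  · intro j hj hjU
    rw [hU, mem_insert, mem_filter] at hjU
    rcases hjU with h1 | h1
    · have := hHT j hj
      omega
    · exact h1.2.1 hj
  · exact card_pos.1 hUpos
  · intro u hu
    rw [hU, mem_insert, mem_filter, mem_range] at hu
    have h1 : u ≤ T + 1 := by
      rcases hu with h2 | h2
      · omega
      · omega
    have h2 : (u : ℝ) ≤ T + 1 := by exact_mod_cast h1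
    linarith
  · intro p hp
    have h1 := hPPp p hp
    refine ⟨h1.1, h1.2.1, h1.2.2.1, ?_⟩
    exact_mod_cast h1.2.2.1.trans hzw

end Pool.Agent.Run7.h63.XP
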